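import Pool.Agent.Work.MP_a2fcf1_an_ar.I3
import Pool.Agent.Work.MP_a2fcf1_an_h64.Conv

/-! # MP_a2fcf1_an, block ADA (helper75): the identity at a fixed time -/

set_option autoImplicit false

namespace Pool.SQGA

open Set MeasureTheory
open Pool.Agent.Work.MP_a2fcf1_an_h64 (cr sc eu n1 ex n1_cast one_le_eu eu_nonneg z2 summable_z2
  z2_nonneg cr_zero_left)

/-- absolute summability of the double sums -/
theorem ADA_sum (k : ℤ × ℤ) (g y z : ℤ × ℤ → ℂ) (C K : ℝ) (hg : ∀ j, ‖g j‖ ≤ K * n1 j)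
    (hK : 0 ≤ K) (hy : ∀ j, ‖y j‖ * (1 + n1 j) ^ 5 ≤ C) (hz : ∀ j, ‖z j‖ ≤ C) :
    Summable fun j => g j * (y j * z (k - j)) := by
  have hC : 0 ≤ C := (norm_nonneg (z 0)).trans (hz 0)
  have hs : Summable fun j : ℤ × ℤ => (K * C * C) * (z2 j.1 * z2 j.2) :=
    (summable_z2.mul_of_nonneg summable_z2 z2_nonneg z2_nonneg).mul_left _
  refine Summable.of_norm_bounded hs (fun j => ?_)
  obtain ⟨w, hw⟩ : ∃ w : ℝ, w = 1 + (n1 j : ℝ) := ⟨_, rfl⟩
  have hw1 : 1 ≤ w := by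
    rw [hw]
    have := Nat.cast_nonneg (α := ℝ) (n1 j)
    linarith
  have hn : (n1 j : ℝ) ≤ w := by rw [hw]; linarith
  have hy' : w * ‖y j‖ ≤ C * (w ^ 4)⁻¹ := by
    have h1 := hy j
    rw [← hw] at h1
    have hw0 : w ≠ 0 := by positivity
    have h2 : w * ‖y j‖ = (‖y j‖ * w ^ 5) * (w ^ 4)⁻¹ := by
      field_simp
    rw [h2]
    exact mul_le_mul_of_nonneg_right h1 (by positivity)
  have hz2 : (w ^ 4)⁻¹ ≤ z2 j.1 * z2 j.2 := by
    unfold z2
    rw [← mul_inv]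
    have h3 : 1 + |(j.1 : ℝ)| ≤ w := by
      rw [hw, n1_cast]
      have := abs_nonneg (j.2 : ℝ)
      linarith
    have h4 : 1 + |(j.2 : ℝ)| ≤ w := by
      rw [hw, n1_cast]
      have := abs_nonneg (j.1 : ℝ)
      linarith
    have h5 : (1 + |(j.1 : ℝ)|) ^ 2 * (1 + |(j.2 : ℝ)|) ^ 2 ≤ w ^ 4 := by
      have h6 : (1 + |(j.1 : ℝ)|) ^ 2 ≤ w ^ 2 := pow_le_pow_left₀ (by positivity) h3 2
      have h7 : (1 + |(j.2 : ℝ)|) ^ 2 ≤ w ^ 2 := pow_le_pow_left₀ (by positivity) h4 2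
      calc (1 + |(j.1 : ℝ)|) ^ 2 * (1 + |(j.2 : ℝ)|) ^ 2 ≤ w ^ 2 * w ^ 2 :=
            mul_le_mul h6 h7 (by positivity) (by positivity)
        _ = w ^ 4 := by ring
    exact inv_anti₀ (by positivity) h5
  rw [norm_mul, norm_mul]
  calc ‖g j‖ * (‖y j‖ * ‖z (k - j)‖) ≤ (K * n1 j) * (‖y j‖ * C) := by
        refine mul_le_mul (hg j) (mul_le_mul_of_nonneg_left (hz _) (norm_nonneg _))
          (by positivity) (by positivity)
    _ ≤ (K * w) * (‖y j‖ * C) := by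
        refine mul_le_mul_of_nonneg_right (mul_le_mul_of_nonneg_left hn hK) (by positivity)
    _ = K * C * (w * ‖y j‖) := by ring
    _ ≤ K * C * (C * (w ^ 4)⁻¹) := mul_le_mul_of_nonneg_left hy' (by positivity)
    _ ≤ K * C * (C * (z2 j.1 * z2 j.2)) :=
        mul_le_mul_of_nonneg_left (mul_le_mul_of_nonneg_left hz2 hC) (by positivity)
    _ = (K * C * C) * (z2 j.1 * z2 j.2) := by ring

/-- the symbol -/
theorem ADA_sym (p : Par) (hp : p.Ok) (k j : ℤ × ℤ) :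
    ‖((((cr j (k - j) : ℝ) / eu (Dk p j) : ℝ)) : ℂ)‖ ≤ (n1 k : ℝ) * n1 j := by
  rw [Complex.norm_real, Real.norm_eq_abs, abs_div, abs_of_nonneg (eu_nonneg _)]
  have h1 : |(cr j (k - j) : ℝ)| ≤ (n1 k : ℝ) * n1 j := by
    have h2 : ((cr j (k - j) : ℤ) : ℝ) = (j.1 : ℝ) * k.2 - j.2 * k.1 := by
      unfold cr
      push_cast [Prod.fst_sub, Prod.snd_sub]
      ring
    rw [h2, n1_cast, n1_cast]
    calc |(j.1 : ℝ) * k.2 - j.2 * k.1| ≤ |(j.1 : ℝ) * k.2| + |(j.2 : ℝ) * k.1| := abs_sub _ _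
      _ = |(j.1 : ℝ)| * |(k.2 : ℝ)| + |(j.2 : ℝ)| * |(k.1 : ℝ)| := by rw [abs_mul, abs_mul]
      _ ≤ (|(k.1 : ℝ)| + |(k.2 : ℝ)|) * (|(j.1 : ℝ)| + |(j.2 : ℝ)|) := by
          have a1 := abs_nonneg (j.1 : ℝ)
          have a2 := abs_nonneg (j.2 : ℝ)
          have a3 := abs_nonneg (k.1 : ℝ)
          have a4 := abs_nonneg (k.2 : ℝ)
          nlinarith [mul_nonneg a1 a3, mul_nonneg a2 a4]
  by_cases hj : j = 0
  · rw [hj, cr_zero_left]
    simp
  · have hD : Dk p j ≠ 0 := by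
      intro h
      apply hj
      have h3 : (p.N : ℤ) * j.1 = 0 := congrArg Prod.fst h
      have h4 : j.2 = 0 := congrArg Prod.snd h
      have h5 : (p.N : ℤ) ≠ 0 := by
        have := hp.N_pos
        omega
      have h6 : j.1 = 0 := (mul_eq_zero.mp h3).resolve_left h5
      exact Prod.ext h6 h4
    exact (div_le_self (abs_nonneg _) (one_le_eu hD)).trans h1

/-- summability of the shear -/
theorem ADA_S1S (p : Par) (t : ℝ) (hU : S1 (Ul p t)) : S1 (Sl p t) := by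
  have h1 : Summable fun l : ℤ => ‖Ul p t l‖ + if l = 0 then ‖Sl p t 0‖ else 0 :=
    hU.add (hasSum_ite_eq 0 _).summable
  refine Summable.of_nonneg_of_le (fun _ => norm_nonneg _) (fun l => ?_) h1
  by_cases hl : l = 0
  · rw [hl, if_pos rfl]
    have := norm_nonneg (Ul p t 0)
    linarith
  · rw [if_neg hl, add_zero]
    unfold Ul
    rw [norm_mul, norm_mul, Complex.norm_I, one_mul, Complex.norm_intCast]
    have h2 : |((Int.sign l : ℤ) : ℝ)| = 1 := by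
      rcases lt_or_gt_of_ne hl with h | h
      · rw [Int.sign_eq_neg_one_of_neg h]
        norm_num
      · rw [Int.sign_eq_one_of_pos h]
        norm_num
    rw [h2, one_mul]

/-- summability of the unknown in the second variable -/
theorem ADA_S1x (hWTB : Stmt_WTB) (p : Par) (hp : p.Ok) (β t R : ℝ) (x : ℤ × ℤ → ℂ)
    (hβ : 0 ≤ β) (ht : 0 ≤ t) (hβt : β * t ≤ p.s / 2) (hR : 0 ≤ R) (hx : Bd p β t R x)
    (m : ℤ) : Summable fun l => ‖x (m, l)‖ := by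
  obtain ⟨w1, -, -, -, -, w6⟩ := hWTB p hp β t hβ ht hβt
  refine Summable.of_nonneg_of_le (fun _ => norm_nonneg _) (fun l => ?_)
    (summable_z2.mul_left R)
  have h1 := hx (m, l)
  have h2 := (w1 (m, l)).2.2
  have h3 := w6 (m, l)
  have h4 : Real.exp (-(p.s / 2 * n1 (m, l))) / (1 + n1 (m, l)) ^ 4 ≤ z2 l := by
    have hn := Nat.cast_nonneg (α := ℝ) (n1 (m, l))
    have h5 : Real.exp (-(p.s / 2 * n1 (m, l))) ≤ 1 := by
      rw [Real.exp_le_one_iff]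
      have := mul_nonneg (by linarith [hp.s_pos] : 0 ≤ p.s / 2) hn
      linarith
    have h6 : 1 + |(l : ℝ)| ≤ 1 + (n1 (m, l) : ℝ) := by
      rw [n1_cast]
      have := abs_nonneg (m : ℝ)
      show 1 + |(l : ℝ)| ≤ 1 + (|(m : ℝ)| + |(l : ℝ)|)
      linarith
    have h7 : (1 + |(l : ℝ)|) ^ 2 ≤ (1 + (n1 (m, l) : ℝ)) ^ 4 := by
      calc (1 + |(l : ℝ)|) ^ 2 ≤ (1 + (n1 (m, l) : ℝ)) ^ 2 :=
            pow_le_pow_left₀ (by positivity) h6 2
        _ ≤ (1 + (n1 (m, l) : ℝ)) ^ 4 := pow_le_pow_right₀ (by linarith) (by norm_num)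
    unfold z2
    rw [div_eq_mul_inv]
    calc Real.exp (-(p.s / 2 * n1 (m, l))) * ((1 + (n1 (m, l) : ℝ)) ^ 4)⁻¹
        ≤ 1 * ((1 + (n1 (m, l) : ℝ)) ^ 4)⁻¹ :=
          mul_le_mul_of_nonneg_right h5 (by positivity)
      _ = ((1 + (n1 (m, l) : ℝ)) ^ 4)⁻¹ := one_mul _
      _ ≤ ((1 + |(l : ℝ)|) ^ 2)⁻¹ := inv_anti₀ (by positivity) h7
  exact h1.trans (mul_le_mul_of_nonneg_left (h2.trans (h3.trans h4)) hR)

theorem ADA_swap (c X : ℤ → ℂ) (l : ℤ) : ∑' l', c (l - l') * X l' = cv c X l := by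
  unfold cv
  rw [← (Equiv.subLeft l).tsum_eq (fun l' => c (l - l') * X l')]
  refine tsum_congr (fun j => ?_)
  rw [Equiv.subLeft_apply, sub_sub_cancel]

/-- the symbol for shear frequencies -/
theorem ADA_g0 (p : Par) (k : ℤ × ℤ) (a : ℤ) :
    ((((cr (0, a) (k - (0, a)) : ℝ) / eu (Dk p (0, a)) : ℝ)) : ℂ) =
      -((k.1 : ℂ) * ((Int.sign a : ℤ) : ℂ)) := by
  have h1 : eu (Dk p (0, a)) = |(a : ℝ)| := by
    unfold eu Dk
    simp [Real.sqrt_sq_eq_abs]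
  have h2 : ((cr (0, a) (k - (0, a)) : ℤ) : ℝ) = -((a : ℝ) * k.1) := by
    unfold cr
    push_cast [Prod.fst_sub, Prod.snd_sub]
    ring
  rw [h1, h2]
  have h3 : -((a : ℝ) * k.1) / |(a : ℝ)| = -((k.1 : ℝ) * ((Int.sign a : ℤ) : ℝ)) := by
    rcases lt_trichotomy a 0 with h | h | h
    · have h4 : (a : ℝ) < 0 := by exact_mod_cast h
      rw [Int.sign_eq_neg_one_of_neg h, abs_of_neg h4]
      have h5 : (a : ℝ) ≠ 0 := h4.ne
      push_cast
      field_simp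
    · rw [h]
      simp
    · have h4 : (0 : ℝ) < a := by exact_mod_cast h
      rw [Int.sign_eq_one_of_pos h, abs_of_pos h4]
      have h5 : (a : ℝ) ≠ 0 := h4.ne'
      push_cast
      field_simp
  rw [h3]
  push_cast
  ring

theorem p_ADA (hALI : Stmt_ALI) (hABI : Stmt_ABI) (hCVA : Stmt_CVA) (hDEC : Stmt_DEC)
    (hRDA : Stmt_RDA) (hVR : Stmt_VR) (hEEW : Stmt_EEW) (hEEB : Stmt_EEB) (hWTB : Stmt_WTB)
    (hOMS : Stmt_OMS) : Stmt_ADA := by
  intro p hp β t R x hβ ht hβt htA hR hx k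
  obtain ⟨-, -, -, -, -, hV⟩ := hVR p hp
  obtain ⟨hUW, -, -, -, -, -⟩ := hV t ht
  have hU : S1 (Ul p t) := hOMS.2.2.2.1 p.s _ hp.s_pos.le hUW
  have hE : S1 (ee p k.1 t) := hOMS.2.2.2.1 p.s _ hp.s_pos.le (hEEW p hp k.1 t ht).1
  have hE1 : ∀ j, ‖ee p k.1 t j‖ ≤ 1 := fun j => ((hEEB p hp).1 k.1 t j ht).1
  have hX : S1 (fun l => xh p t x (k.1, l)) := by
    have h1 := (ADA_S1x hWTB p hp β t R x hβ ht hβt hR hx k.1).add (ADA_S1S p t hU)
    refine Summable.of_nonneg_of_le (fun _ => norm_nonneg _) (fun l => ?_) h1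
    show ‖x (k.1, l) + if k.1 = 0 then Sl p t l else 0‖ ≤ _
    refine (norm_add_le _ _).trans ?_
    by_cases hk : k.1 = 0
    · rw [if_pos hk]
    · rw [if_neg hk, norm_zero]
      have := norm_nonneg (Sl p t l)
      linarith
  obtain ⟨X, hXd⟩ : ∃ X : ℤ → ℂ, X = fun l => xh p t x (k.1, l) := ⟨_, rfl⟩
  obtain ⟨c, hc⟩ : ∃ c : ℤ → ℂ, c = cv (Ul p t) (ee p k.1 t) := ⟨_, rfl⟩
  rw [← hXd] at hX
  -- the transport term
  have hcb : ∀ l, ‖c l‖ ≤ ∑' j, ‖Ul p t j‖ := by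
    intro l
    rw [hc]
    exact hCVA.2.2.2.2 _ _ hU hE hE1 l
  have hcs : Summable fun l' => c (k.2 - l') * X l' := by
    refine Summable.of_norm_bounded (hX.mul_left (∑' j, ‖Ul p t j‖)) (fun l' => ?_)
    rw [norm_mul]
    exact mul_le_mul_of_nonneg_right (hcb _) (norm_nonneg _)
  have hav : ∀ l, av p t x (k.1, l) = cv (ee p k.1 t) X l := by
    intro l
    rw [← ADA_swap, hXd]
    rfl
  have hA : ∑' l', c (k.2 - l') * X l' = ∑' a, Ul p t a * av p t x (k.1, k.2 - a) := by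
    rw [ADA_swap, hc, hCVA.2.1 _ _ _ hU hE hX]
    unfold cv
    refine tsum_congr (fun a => ?_)
    rw [hav]
    rfl
  obtain ⟨hP, hPs⟩ := hALI p hp β t R x hβ ht hβt htA hR hx k
  obtain ⟨hQ, hQs⟩ := hABI p hp β t R x hβ ht hβt htA hR hx k
  -- the left hand side
  have hL : ∑' l' : ℤ, (-(Complex.I * ((k.1 : ℂ) * (p.N : ℂ))) *
        cv (Ul p t) (ee p k.1 t) (k.2 - l') * xh p t x (k.1, l') +
      ee p k.1 t (k.2 - l') * (-((lam p (k.1, l') : ℝ) : ℂ) * xh p t x (k.1, l') +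
        Gv p t x (k.1, l'))) =
      -(Complex.I * ((k.1 : ℂ) * (p.N : ℂ))) * ∑' a, Ul p t a * av p t x (k.1, k.2 - a) -
        ((lam p k : ℝ) : ℂ) * av p t x k -
        ∑' j : ℤ × ℤ, ((cr j (k - j) : ℤ) : ℂ) *
          ((((p.N / eu (Dk p j) : ℝ)) : ℂ) * ax p t x j * av p t x (k - j)) := by
    rw [← hA, ← hPs, ← hQs, ← tsum_mul_left]
    rw [← (hcs.mul_left (-(Complex.I * ((k.1 : ℂ) * (p.N : ℂ))))).tsum_sub hP.of_norm]
    rw [← ((hcs.mul_left (-(Complex.I * ((k.1 : ℂ) * (p.N : ℂ))))).sub hP.of_norm).tsum_sub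
      hQ.of_norm]
    refine tsum_congr (fun l' => ?_)
    rw [hXd, hc]
    unfold Gv
    ring
  rw [hL]
  -- the right hand side
  obtain ⟨-, -, -, hav0, haxn, hax0⟩ : True ∧ True ∧ True ∧
      (∀ k : ℤ × ℤ, k.1 = 0 → av p t x k = Sl p t k.2 + x k) ∧
      (∀ k : ℤ × ℤ, k.1 ≠ 0 → ax p t x k = av p t x k) ∧
      (∀ k : ℤ × ℤ, k.1 = 0 → ax p t x k = x k) := by
    obtain ⟨C, -, h⟩ := hDEC p.s 0 hp.s_pos
    obtain ⟨-, h1, h2, h3⟩ := h p hp rfl β t R x hβ ht hβt htA hR hx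
    exact ⟨trivial, trivial, trivial, h1, h2, h3⟩
  obtain ⟨C, hC⟩ := hRDA p hp β t R 5 hβ ht hβt htA hR
  have hC' := hC t ⟨ht, le_rfl⟩ x hx
  have hbd : ∀ j, ‖av p t x j‖ ≤ C := by
    intro j
    refine le_trans ?_ (hC' j).1
    refine le_mul_of_one_le_right (norm_nonneg _) (one_le_pow₀ ?_)
    have := Nat.cast_nonneg (α := ℝ) (n1 j)
    linarith
  obtain ⟨g, hg⟩ : ∃ g : ℤ × ℤ → ℂ, ∀ j, g j =
      ((((cr j (k - j) : ℝ) / eu (Dk p j) : ℝ)) : ℂ) := ⟨_, fun _ => rfl⟩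
  have hgb : ∀ j, ‖g j‖ ≤ (n1 k : ℝ) * n1 j := by
    intro j
    rw [hg]
    exact ADA_sym p hp k j
  have hs1 : Summable fun j => g j * (av p t x j * av p t x (k - j)) :=
    ADA_sum k g _ _ C (n1 k) hgb (Nat.cast_nonneg _) (fun j => (hC' j).1) hbd
  have hs2 : Summable fun j => g j * (ax p t x j * av p t x (k - j)) :=
    ADA_sum k g _ _ C (n1 k) hgb (Nat.cast_nonneg _) (fun j => (hC' j).2) hbd
  have hdiff : ∑' j, g j * (av p t x j * av p t x (k - j)) -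
      ∑' j, g j * (ax p t x j * av p t x (k - j)) =
      ∑' a : ℤ, g (0, a) * (Sl p t a * av p t x (k - (0, a))) := by
    rw [← hs1.tsum_sub hs2]
    have hinj : Function.Injective (fun a : ℤ => ((0, a) : ℤ × ℤ)) := fun a b h =>
      congrArg Prod.snd h
    have hd : ∀ j : ℤ × ℤ, g j * (av p t x j * av p t x (k - j)) -
        g j * (ax p t x j * av p t x (k - j)) =
        if j.1 = 0 then g j * (Sl p t j.2 * av p t x (k - j)) else 0 := by
      intro j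
      by_cases hj : j.1 = 0
      · rw [if_pos hj, hav0 j hj, hax0 j hj]
        ring
      · rw [if_neg hj, haxn j hj]
        ring
    rw [tsum_congr hd, ← hinj.tsum_eq]
    · refine tsum_congr (fun a => ?_)
      exact if_pos rfl
    · intro j hj
      rw [Function.mem_support] at hj
      by_cases h : j.1 = 0
      · exact ⟨j.2, Prod.ext h.symm rfl⟩
      · exact absurd (if_neg h) hj
  have hR1 : ∑' j : ℤ × ℤ, ((cr j (k - j) : ℤ) : ℂ) *
      ((((p.N / eu (Dk p j) : ℝ)) : ℂ) * ax p t x j * av p t x (k - j)) =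
      (p.N : ℂ) * ∑' j, g j * (ax p t x j * av p t x (k - j)) := by
    rw [← tsum_mul_left]
    refine tsum_congr (fun j => ?_)
    rw [hg]
    push_cast
    ring
  have hR2 : (p.N : ℂ) * ∑' a : ℤ, g (0, a) * (Sl p t a * av p t x (k - (0, a))) =
      Complex.I * ((k.1 : ℂ) * (p.N : ℂ)) * ∑' a, Ul p t a * av p t x (k.1, k.2 - a) := by
    rw [← tsum_mul_left, ← tsum_mul_left]
    refine tsum_congr (fun a => ?_)
    have h1 : k - ((0, a) : ℤ × ℤ) = (k.1, k.2 - a) := by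
      ext
      · simp
      · simp
    rw [hg, ADA_g0, h1]
    unfold Ul
    linear_combination (-((k.1 : ℂ) * (p.N : ℂ) * ((Int.sign a : ℤ) : ℂ) * Sl p t a *
      av p t x (k.1, k.2 - a))) * Complex.I_mul_I
  have hR3 : ∑' j : ℤ × ℤ, ((((cr j (k - j) : ℝ) / eu (Dk p j) : ℝ)) : ℂ) *
      (av p t x j * av p t x (k - j)) = ∑' j, g j * (av p t x j * av p t x (k - j)) :=
    tsum_congr (fun j => by rw [hg])
  rw [hR3, hR1]
  have h9 : ∑' j, g j * (av p t x j * av p t x (k - j)) =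
      ∑' j, g j * (ax p t x j * av p t x (k - j)) +
      ∑' a : ℤ, g (0, a) * (Sl p t a * av p t x (k - (0, a))) := by
    rw [← hdiff]
    ring
  rw [h9, mul_add, hR2]
  ring

end Pool.SQGA
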