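import Pool.Agent.Work.MP_a2fcf1_an_ar.I3

/-! # Block ALI (helper72): the linear part -/

set_option autoImplicit false

namespace Pool.SQGA

open Set MeasureTheory
open Pool.Agent.Work.MP_a2fcf1_an_h64 (cr sc eu n1 n1_cast eu_le_n1 one_le_eu)

noncomputable section

/-- the other form of the convolution -/
theorem ALI_cv (a f : ℤ → ℂ) (b : ℤ) : cv a f b = ∑' l', a (b - l') * f l' := by
  unfold cv
  rw [← (Equiv.subLeft b).tsum_eq fun j => a j * f (b - j)]
  refine tsum_congr fun x => ?_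
  have e1 : (Equiv.subLeft b) x = b - x := rfl
  have e2 : b - (b - x) = x := by ring
  rw [e1, e2]

/-- exponential decay gives a first moment -/
theorem ALI_exp (s : ℝ) (hs : 0 < s) (hOMS : Stmt_OMS) :
    Summable fun l : ℤ => (1 + |(l : ℝ)|) * Real.exp (-(s * |(l : ℝ)|)) := by
  obtain ⟨K, hK, h⟩ := hOMS.2.2.2.2 s 7 hs
  have h1 : ∀ l : ℤ, (1 + |(l : ℝ)|) * Real.exp (-(s * |(l : ℝ)|)) ≤
      K * (1 / (1 + |(l : ℝ)|) ^ 2) := by
    intro l
    have h2 := h l
    unfold om at h2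
    have hp : (0 : ℝ) < 1 + |(l : ℝ)| := by positivity
    have h3 : (1 + |(l : ℝ)|) ^ 7 = (1 + |(l : ℝ)|) ^ 3 * (1 + |(l : ℝ)|) ^ 4 := by
      rw [← pow_add]
    rw [h3, ← mul_assoc] at h2
    have h4 : (1 + |(l : ℝ)|) ^ 3 ≤ K * Real.exp (s * |(l : ℝ)|) :=
      le_of_mul_le_mul_right h2 (by positivity)
    rw [mul_one_div, le_div_iff₀ (by positivity)]
    calc (1 + |(l : ℝ)|) * Real.exp (-(s * |(l : ℝ)|)) * (1 + |(l : ℝ)|) ^ 2
        = (1 + |(l : ℝ)|) ^ 3 * Real.exp (-(s * |(l : ℝ)|)) := by ring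
      _ ≤ K * Real.exp (s * |(l : ℝ)|) * Real.exp (-(s * |(l : ℝ)|)) :=
          mul_le_mul_of_nonneg_right h4 (Real.exp_pos _).le
      _ = K := by rw [mul_assoc, ← Real.exp_add, add_neg_cancel, Real.exp_zero, mul_one]
  refine Summable.of_nonneg_of_le (fun l => by positivity) h1 (Summable.mul_left K ?_)
  have h5 : Summable fun l : ℤ => 1 / (l : ℝ) ^ 2 :=
    Real.summable_one_div_int_pow.2 (by norm_num)
  have h6 : Summable fun l : ℤ => if l = 0 then (1 : ℝ) else 1 / (l : ℝ) ^ 2 := by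
    refine (Summable.congr_cofinite (f := fun l : ℤ => 1 / (l : ℝ) ^ 2) h5 ?_)
    refine Filter.eventuallyEq_iff_exists_mem.2 ⟨{0}ᶜ, ?_, ?_⟩
    · rw [Filter.mem_cofinite, compl_compl]
      exact Set.finite_singleton 0
    · intro l hl
      have : l ≠ 0 := fun h => hl (by rw [h]; rfl)
      simp only [this, if_false]
  refine Summable.of_nonneg_of_le (fun l => by positivity) (fun l => ?_) h6
  by_cases hl : l = 0
  · rw [if_pos hl, hl]
    simp
  · rw [if_neg hl]
    have h7 : (1 : ℝ) ≤ |(l : ℝ)| := by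
      have := Int.one_le_abs hl
      exact_mod_cast this
    have h8 : (l : ℝ) ^ 2 ≤ (1 + |(l : ℝ)|) ^ 2 := by
      rw [← sq_abs (l : ℝ)]
      exact pow_le_pow_left₀ (abs_nonneg _) (by linarith) 2
    refine one_div_le_one_div_of_le ?_ h8
    rw [← sq_abs (l : ℝ)]
    positivity

theorem p_ALI (hMLT : Stmt_MLT) (hWTB : Stmt_WTB) (hEEB : Stmt_EEB) (hSYP : Stmt_SYP)
    (hOMS : Stmt_OMS) : Stmt_ALI := by
  intro p hp β t R x hβ ht hβt _ hR hx k
  obtain ⟨m, l⟩ := k
  show (Summable fun l' => ‖ee p m t (l - l') * (((lam p (m, l') : ℝ) : ℂ) *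
      xh p t x (m, l') + (p.κ : ℂ) * Gl p t x (m, l'))‖) ∧
    ∑' l', ee p m t (l - l') * (((lam p (m, l') : ℝ) : ℂ) * xh p t x (m, l') +
      (p.κ : ℂ) * Gl p t x (m, l')) = ((lam p (m, l) : ℝ) : ℂ) *
        ∑' l', ee p m t (l - l') * xh p t x (m, l')
  by_cases hm : m = 0
  · subst hm
    have hG : ∀ l', Gl p t x (0, l') = 0 := by
      intro l'
      show ∑' b, Rm p t 0 l' b * x (0, b) = 0
      have : (fun b => Rm p t 0 l' b * x (0, b)) = fun _ => 0 := by
        funext b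
        rw [((hSYP p hp).2.2 l' b t ht).2, zero_mul]
      rw [this, tsum_zero]
    have he : ∀ j, ee p 0 t j = dl j := fun j => (hEEB p hp).2.1 t j ht
    have h0 : ∀ (z : ℂ) (l' : ℤ), l' ≠ l → ee p 0 t (l - l') * z = 0 := by
      intro z l' hl'
      rw [he]
      unfold dl
      rw [if_neg (by omega), zero_mul]
    have h1 : ee p 0 t (l - l) = 1 := by
      rw [he, sub_self]
      exact if_pos rfl
    refine ⟨?_, ?_⟩
    · refine summable_of_ne_finset_zero (s := {l}) fun l' hl' => ?_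
      rw [Finset.mem_singleton] at hl'
      rw [h0 _ l' hl', norm_zero]
    · rw [tsum_eq_single l (fun l' hl' => h0 _ l' hl'),
        tsum_eq_single l (fun l' hl' => h0 _ l' hl'), h1, hG, mul_zero,
        add_zero, one_mul, one_mul]
  · obtain ⟨w1, -, -, -, -, w6⟩ := hWTB p hp β t hβ ht hβt
    obtain ⟨f, hf⟩ : ∃ f : ℤ → ℂ, f = fun b => x (m, b) := ⟨_, rfl⟩
    obtain ⟨φ, hφ⟩ : ∃ φ : ℤ → ℝ, φ = fun b => eu (Dk p (m, b)) ^ (2 * p.α) := ⟨_, rfl⟩
    have hxh : ∀ l', xh p t x (m, l') = f l' := by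
      intro l'
      show x (m, l') + (if m = 0 then Sl p t l' else 0) = f l'
      rw [if_neg hm, add_zero, hf]
    have hQ : ∀ a b, Qm p t m a b = Cj p φ m t a b := by
      intro a b
      rw [hφ]
      rfl
    have hlam : ∀ b, lam p (m, b) = p.κ * φ b := by
      intro b
      rw [hφ]
      rfl
    have hφb : ∀ b : ℤ, |φ b| ≤ (1 + p.N * |(m : ℝ)|) * (1 + |(b : ℝ)|) := by
      intro b
      have hk : Dk p (m, b) ≠ 0 := by
        intro h
        have h1 : (p.N : ℤ) * m = 0 := congrArg Prod.fst h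
        rcases mul_eq_zero.1 h1 with h2 | h2
        · have := hp.N_pos
          omega
        · exact hm h2
      have h1 := one_le_eu hk
      have h2 : φ b = eu (Dk p (m, b)) ^ (2 * p.α) := by rw [hφ]
      rw [h2, abs_of_nonneg (by positivity)]
      have h3 : eu (Dk p (m, b)) ^ (2 * p.α) ≤ eu (Dk p (m, b)) ^ (1 : ℝ) :=
        Real.rpow_le_rpow_of_exponent_le h1 (by linarith [hp.α_lt])
      rw [Real.rpow_one] at h3
      refine h3.trans ((eu_le_n1 _).trans ?_)
      rw [n1_cast]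
      show |(((p.N : ℤ) * m : ℤ) : ℝ)| + |(b : ℝ)| ≤ _
      push_cast
      rw [abs_mul, Nat.abs_cast]
      have h4 : 0 ≤ (p.N : ℝ) * |(m : ℝ)| := by positivity
      nlinarith [mul_nonneg h4 (abs_nonneg (b : ℝ))]
    have hfs : Summable fun l : ℤ => (1 + |(l : ℝ)|) * ‖f l‖ := by
      have h1 := (ALI_exp (p.s / 2) (by linarith [hp.s_pos]) hOMS).mul_left R
      refine Summable.of_nonneg_of_le (fun l => by positivity) (fun l => ?_) h1
      have h2 : ‖f l‖ ≤ R * Real.exp (-(p.s / 2 * |(l : ℝ)|)) := by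
        rw [hf]
        refine (hx (m, l)).trans (mul_le_mul_of_nonneg_left ?_ hR)
        refine (w1 (m, l)).2.2.trans ((w6 (m, l)).trans ?_)
        have h3 : ((n1 (m, l) : ℕ) : ℝ) = |(m : ℝ)| + |(l : ℝ)| := n1_cast (m, l)
        rw [h3]
        refine (div_le_self (Real.exp_pos _).le ?_).trans ?_
        · exact one_le_pow₀ (by linarith [abs_nonneg (m : ℝ), abs_nonneg (l : ℝ)])
        · rw [Real.exp_le_exp]
          have := mul_nonneg (show (0 : ℝ) ≤ p.s / 2 by linarith [hp.s_pos]) (abs_nonneg (m : ℝ))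
          linarith
      calc (1 + |(l : ℝ)|) * ‖f l‖ ≤ (1 + |(l : ℝ)|) * (R * Real.exp (-(p.s / 2 * |(l : ℝ)|))) :=
            mul_le_mul_of_nonneg_left h2 (by positivity)
        _ = _ := by ring
    obtain ⟨a1, a2, a3⟩ := hMLT p hp m t φ f ht ⟨_, hφb⟩ hfs
    have hG : ∀ l', ((lam p (m, l') : ℝ) : ℂ) * xh p t x (m, l') +
        (p.κ : ℂ) * Gl p t x (m, l') = (p.κ : ℂ) * ∑' b, Cj p φ m t l' b * f b := by
      intro l'
      have h1 : Gl p t x (m, l') = ∑' b, (Cj p φ m t l' b * f b -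
          (if l' = b then ((φ l' : ℝ) : ℂ) else 0) * f b) := by
        show ∑' b, Rm p t m l' b * x (m, b) = _
        refine tsum_congr fun b => ?_
        unfold Rm
        rw [hQ, hf, hφ]
        ring
      have h2 : Summable fun b => (if l' = b then ((φ l' : ℝ) : ℂ) else 0) * f b := by
        refine summable_of_ne_finset_zero (s := {l'}) fun b hb => ?_
        rw [Finset.mem_singleton] at hb
        rw [if_neg (Ne.symm hb), zero_mul]
      have h3 : ∑' b, (if l' = b then ((φ l' : ℝ) : ℂ) else 0) * f b =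
          ((φ l' : ℝ) : ℂ) * f l' := by
        rw [tsum_eq_single l']
        · rw [if_pos rfl]
        · intro b hb
          rw [if_neg (Ne.symm hb), zero_mul]
      rw [h1, (a1 l').of_norm.tsum_sub h2, h3, hxh, hlam]
      push_cast
      ring
    have he1 : ∀ j, ‖ee p m t j‖ ≤ 1 := fun j => ((hEEB p hp).1 m t j ht).1
    refine ⟨?_, ?_⟩
    · refine Summable.of_nonneg_of_le (fun l' => norm_nonneg _) (fun l' => ?_)
        (Summable.mul_left ‖(p.κ : ℂ)‖ a2)
      rw [hG, norm_mul, norm_mul]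
      have := mul_le_mul_of_nonneg_right (he1 (l - l'))
        (mul_nonneg (norm_nonneg (p.κ : ℂ)) (norm_nonneg (∑' b, Cj p φ m t l' b * f b)))
      rwa [one_mul] at this
    · have h1 := a3 l
      rw [ALI_cv, ALI_cv] at h1
      have h2 : ∑' l', ee p m t (l - l') * (((lam p (m, l') : ℝ) : ℂ) * xh p t x (m, l') +
          (p.κ : ℂ) * Gl p t x (m, l')) =
          (p.κ : ℂ) * ∑' l', ee p m t (l - l') * ∑' b, Cj p φ m t l' b * f b := by
        rw [← tsum_mul_left]
        refine tsum_congr fun l' => ?_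
        rw [hG]
        ring
      have h3 : ∑' l', ee p m t (l - l') * xh p t x (m, l') =
          ∑' l', ee p m t (l - l') * f l' := tsum_congr fun l' => by rw [hxh]
      rw [h2, h1, h3, hlam]
      push_cast
      ring

end

end Pool.SQGA
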