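import Pool.Agent.Work.MP_a2fcf1_an_ar.I3

/-! # Block AOD: the equation of the Fourier coefficients -/

set_option autoImplicit false

namespace Pool.SQGA

open Set MeasureTheory
open Pool.Agent.Work.MP_a2fcf1_an_h64 (cr sc eu n1 ex GloballyRegular)

noncomputable section

theorem AOD_sum2 : Summable fun j : ℤ => 1 / (1 + |(j : ℝ)|) ^ 2 := by
  have h2 : Summable fun j : ℤ => 1 / (j : ℝ) ^ 2 :=
    Real.summable_one_div_int_pow.mpr one_lt_two
  have h3 : Summable fun j : ℤ => (if j = 0 then (1 : ℝ) else 0) := by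
    apply summable_of_ne_finset_zero (s := {0})
    intro b hb
    rw [Finset.mem_singleton] at hb
    rw [if_neg hb]
  refine Summable.of_nonneg_of_le (fun j => by positivity) (fun j => ?_) (h2.add h3)
  by_cases hj : j = 0
  · subst hj
    norm_num
  · rw [if_neg hj, add_zero]
    have h4 : (0 : ℝ) < (j : ℝ) ^ 2 := by
      have : (j : ℝ) ≠ 0 := Int.cast_ne_zero.mpr hj
      positivity
    apply one_div_le_one_div_of_le h4
    have h5 := abs_nonneg (j : ℝ)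
    rw [← sq_abs (j : ℝ)]
    nlinarith

theorem AOD_pow (k : ℤ × ℤ) (a : ℝ) (ha : 0 < a) (ha1 : a ≤ 1) :
    eu k ^ a ≤ (1 + |(k.1 : ℝ)|) * (1 + |(k.2 : ℝ)|) := by
  have h0 : 0 ≤ eu k := Real.sqrt_nonneg _
  have h1 : eu k ≤ (1 + |(k.1 : ℝ)|) * (1 + |(k.2 : ℝ)|) := by
    unfold eu
    rw [Real.sqrt_le_left (by positivity)]
    have h2 := abs_nonneg (k.1 : ℝ)
    have h3 := abs_nonneg (k.2 : ℝ)
    have h4 := mul_nonneg h2 h3
    rw [← sq_abs (k.1 : ℝ), ← sq_abs (k.2 : ℝ)]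
    have h5 : |(k.1 : ℝ)| + |(k.2 : ℝ)| ≤ (1 + |(k.1 : ℝ)|) * (1 + |(k.2 : ℝ)|) := by
      nlinarith
    have h6 : |(k.1 : ℝ)| ^ 2 + |(k.2 : ℝ)| ^ 2 ≤ (|(k.1 : ℝ)| + |(k.2 : ℝ)|) ^ 2 := by
      nlinarith
    exact h6.trans (pow_le_pow_left₀ (by positivity) h5 2)
  have h2 : (1 : ℝ) ≤ (1 + |(k.1 : ℝ)|) * (1 + |(k.2 : ℝ)|) := by
    have h3 := abs_nonneg (k.1 : ℝ)
    have h4 := abs_nonneg (k.2 : ℝ)
    nlinarith [mul_nonneg h3 h4]
  calc eu k ^ a ≤ ((1 + |(k.1 : ℝ)|) * (1 + |(k.2 : ℝ)|)) ^ a :=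
        Real.rpow_le_rpow h0 h1 ha.le
    _ ≤ ((1 + |(k.1 : ℝ)|) * (1 + |(k.2 : ℝ)|)) ^ (1 : ℝ) :=
        Real.rpow_le_rpow_of_exponent_le h2 ha1
    _ = (1 + |(k.1 : ℝ)|) * (1 + |(k.2 : ℝ)|) := Real.rpow_one _

theorem AOD_eu0 (l : ℤ) : eu (0, l) = |(l : ℝ)| := by
  unfold eu
  simp [Real.sqrt_sq_eq_abs]

theorem AOD_Dk0 (p : Par) (l : ℤ) : Dk p (0, l) = (0, l) := by
  unfold Dk
  simp

theorem AOD_om (s : ℝ) (j : ℤ) : 0 ≤ om s j := by
  unfold om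
  positivity

theorem AOD_As (p : Par) : 0 ≤ p.As :=
  tsum_nonneg fun l => mul_nonneg (AOD_om _ _) (by positivity)

theorem AOD_sumA1 (hOMS : Stmt_OMS) (p : Par) (hp : p.Ok) :
    Summable fun l : ℤ => |(l : ℝ)| * ‖p.A l‖ := by
  refine Summable.of_nonneg_of_le (fun l => by positivity) (fun l => ?_) hp.sum
  exact le_mul_of_one_le_left (by positivity) (hOMS.1 p.s l hp.s_pos.le)

theorem AOD_sumA (hOMS : Stmt_OMS) (p : Par) (hp : p.Ok) : Summable fun l : ℤ => ‖p.A l‖ := by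
  have h3 : Summable fun j : ℤ => (if j = 0 then ‖p.A 0‖ else 0) := by
    apply summable_of_ne_finset_zero (s := {0})
    intro b hb
    rw [Finset.mem_singleton] at hb
    rw [if_neg hb]
  refine Summable.of_nonneg_of_le (fun l => norm_nonneg _) (fun l => ?_)
    ((AOD_sumA1 hOMS p hp).add h3)
  by_cases hl : l = 0
  · subst hl
    simp
  · rw [if_neg hl, add_zero]
    have h1 : (1 : ℝ) ≤ |(l : ℝ)| := by
      have h2 : 1 ≤ |l| := Int.one_le_abs hl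
      exact_mod_cast h2
    exact le_mul_of_one_le_left (norm_nonneg _) h1

/-- the first factor -/
theorem AOD_cv (hVR : Stmt_VR) (hEEB : Stmt_EEB) (hOMS : Stmt_OMS) (p : Par) (hp : p.Ok)
    (m : ℤ) (t : ℝ) (ht : 0 ≤ t) (j : ℤ) : ‖cv (Ul p t) (ee p m t) j‖ ≤ p.As := by
  refine tsum_of_norm_bounded (g := fun l : ℤ => om p.s l * (|(l : ℝ)| * ‖p.A l‖))
    hp.sum.hasSum fun i => ?_
  rw [norm_mul]
  have h1 := ((hVR p hp).1 t i ht).2.1
  have h2 := ((hEEB p hp).1 m t (j - i) ht).1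
  calc ‖Ul p t i‖ * ‖ee p m t (j - i)‖ ≤ (|(i : ℝ)| * ‖p.A i‖) * 1 :=
        mul_le_mul h1 h2 (norm_nonneg _) (by positivity)
    _ = |(i : ℝ)| * ‖p.A i‖ := mul_one _
    _ ≤ om p.s i * (|(i : ℝ)| * ‖p.A i‖) :=
        le_mul_of_one_le_left (by positivity) (hOMS.1 p.s i hp.s_pos.le)

/-- the size of the unknown -/
theorem AOD_x (hWTB : Stmt_WTB) (p : Par) (hp : p.Ok) (β t R : ℝ) (x : ℤ × ℤ → ℂ)
    (hβ : 0 ≤ β) (ht : 0 ≤ t) (hβt : β * t ≤ p.s / 2) (hR : 0 ≤ R) (hx : Bd p β t R x)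
    (m l : ℤ) : ‖x (m, l)‖ ≤ R * (1 / (1 + |(l : ℝ)|) ^ 4) := by
  obtain ⟨h1, -, -, -, -, h6⟩ := hWTB p hp β t hβ ht hβt
  refine (hx (m, l)).trans (mul_le_mul_of_nonneg_left ?_ hR)
  refine ((h1 (m, l)).2.2.trans (h6 (m, l))).trans ?_
  have hn : |(l : ℝ)| ≤ (n1 (m, l) : ℝ) := by
    rw [Pool.Agent.Work.MP_a2fcf1_an_h64.n1_cast]
    have := abs_nonneg (m : ℝ)
    show |(l : ℝ)| ≤ |(m : ℝ)| + |(l : ℝ)|
    linarith
  have hs := hp.s_pos
  have hn0 : (0 : ℝ) ≤ (n1 (m, l) : ℝ) := Nat.cast_nonneg _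
  have he : Real.exp (-(p.s / 2 * n1 (m, l))) ≤ 1 := by
    rw [Real.exp_le_one_iff]
    have : 0 ≤ p.s / 2 * (n1 (m, l) : ℝ) := by positivity
    linarith
  have hp1 : (1 + |(l : ℝ)|) ^ 4 ≤ (1 + (n1 (m, l) : ℝ)) ^ 4 :=
    pow_le_pow_left₀ (by positivity) (by linarith) 4
  exact div_le_div₀ zero_le_one he (by positivity) hp1

/-- the derivative of the full field -/
theorem AOD_xh (hVR : Stmt_VR) (p : Par) (hp : p.Ok) (T : ℝ) (x : ℝ → ℤ × ℤ → ℂ)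
    (hx : ∀ k, ∀ t ∈ Icc 0 T, HasDerivWithinAt (fun t => x t k)
      (-((lam p k : ℝ) : ℂ) * x t k + Gv p t (x t) k) (Icc 0 T) t) (m l : ℤ) (t : ℝ)
    (ht : t ∈ Icc 0 T) :
    HasDerivWithinAt (fun t => xh p t (x t) (m, l))
      (-((lam p (m, l) : ℝ) : ℂ) * xh p t (x t) (m, l) + Gv p t (x t) (m, l)) (Icc 0 T) t := by
  have h1 := hx (m, l) t ht
  by_cases hm : m = 0
  · subst hm
    have h2 := ((hVR p hp).2.2.2.1 t l).hasDerivWithinAt (s := Icc 0 T)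
    have h3 := h1.add h2
    have e1 : lam p (0, l) = p.κ * |(l : ℝ)| ^ (2 * p.α) := by
      unfold lam
      rw [AOD_Dk0, AOD_eu0]
    have e2 : ∀ t, xh p t (x t) (0, l) = x t (0, l) + Sl p t l := fun t => by
      unfold xh
      rw [if_pos rfl]
    have e3 : (fun t => xh p t (x t) (0, l)) = (fun t => x t (0, l)) + fun t => Sl p t l :=
      funext fun t => e2 t
    rw [e3, e2 t]
    refine h3.congr_deriv ?_
    rw [e1]
    ring
  · have e2 : ∀ t, xh p t (x t) (m, l) = x t (m, l) := fun t => by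
      unfold xh
      rw [if_neg hm, add_zero]
    have e3 : (fun t => xh p t (x t) (m, l)) = fun t => x t (m, l) := funext fun t => e2 t
    rw [e3, e2 t]
    exact h1

/-- the size of the full field -/
theorem AOD_xhn (hVR : Stmt_VR) (hWTB : Stmt_WTB) (p : Par) (hp : p.Ok) (β t R : ℝ)
    (x : ℤ × ℤ → ℂ) (hβ : 0 ≤ β) (ht : 0 ≤ t) (hβt : β * t ≤ p.s / 2) (hR : 0 ≤ R)
    (hx : Bd p β t R x) (m l : ℤ) :
    ‖xh p t x (m, l)‖ ≤ R * (1 / (1 + |(l : ℝ)|) ^ 4) + ‖p.A l‖ := by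
  unfold xh
  refine (norm_add_le _ _).trans (add_le_add (AOD_x hWTB p hp β t R x hβ ht hβt hR hx m l) ?_)
  split_ifs with h
  · exact ((hVR p hp).1 t l ht).1
  · rw [norm_zero]
    exact norm_nonneg _

/-- the size of the dissipation -/
theorem AOD_lam (hVR : Stmt_VR) (hWTB : Stmt_WTB) (p : Par) (hp : p.Ok) (β t R : ℝ)
    (x : ℤ × ℤ → ℂ) (hβ : 0 ≤ β) (ht : 0 ≤ t) (hβt : β * t ≤ p.s / 2) (hR : 0 ≤ R)
    (hx : Bd p β t R x) (m l : ℤ) :
    ‖-((lam p (m, l) : ℝ) : ℂ) * xh p t x (m, l)‖ ≤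
      p.κ * (1 + |(p.N : ℝ) * m|) * R * (1 / (1 + |(l : ℝ)|) ^ 2) +
        p.κ * (|(l : ℝ)| * ‖p.A l‖) := by
  have hκ := hp.κ_pos
  have hα := hp.α_pos
  have hα' := hp.α_lt
  have hl0 : 0 ≤ eu (Dk p (m, l)) ^ (2 * p.α) := Real.rpow_nonneg (Real.sqrt_nonneg _) _
  have hlam0 : 0 ≤ lam p (m, l) := mul_nonneg hκ.le hl0
  have hX := AOD_x hWTB p hp β t R x hβ ht hβt hR hx m l
  have hpw : eu (Dk p (m, l)) ^ (2 * p.α) ≤ (1 + |(p.N : ℝ) * m|) * (1 + |(l : ℝ)|) := by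
    have h := AOD_pow (Dk p (m, l)) (2 * p.α) (by linarith) (by linarith)
    unfold Dk at h ⊢
    simpa using h
  have hlam1 : lam p (m, l) ≤ p.κ * ((1 + |(p.N : ℝ) * m|) * (1 + |(l : ℝ)|)) :=
    mul_le_mul_of_nonneg_left hpw hκ.le
  have hfirst : lam p (m, l) * ‖x (m, l)‖ ≤
      p.κ * (1 + |(p.N : ℝ) * m|) * R * (1 / (1 + |(l : ℝ)|) ^ 2) := by
    have hL : 0 < 1 + |(l : ℝ)| := by positivity
    calc lam p (m, l) * ‖x (m, l)‖ ≤
        p.κ * ((1 + |(p.N : ℝ) * m|) * (1 + |(l : ℝ)|)) * (R * (1 / (1 + |(l : ℝ)|) ^ 4)) :=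
          mul_le_mul hlam1 hX (norm_nonneg _) (by positivity)
      _ = p.κ * (1 + |(p.N : ℝ) * m|) * R * (1 / (1 + |(l : ℝ)|) ^ 3) := by
          field_simp
      _ ≤ p.κ * (1 + |(p.N : ℝ) * m|) * R * (1 / (1 + |(l : ℝ)|) ^ 2) := by
          refine mul_le_mul_of_nonneg_left ?_ (by positivity)
          refine one_div_le_one_div_of_le (by positivity) ?_
          exact pow_le_pow_right₀ (by linarith [abs_nonneg (l : ℝ)]) (by norm_num)
  rw [norm_mul, norm_neg, Complex.norm_real, Real.norm_eq_abs, abs_of_nonneg hlam0]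
  unfold xh
  by_cases hm : m = 0
  · subst hm
    have hS : lam p (0, l) * ‖Sl p t l‖ ≤ p.κ * (|(l : ℝ)| * ‖p.A l‖) := by
      have e1 : lam p (0, l) = p.κ * |(l : ℝ)| ^ (2 * p.α) := by
        unfold lam
        rw [AOD_Dk0, AOD_eu0]
      have h2 : |(l : ℝ)| ^ (2 * p.α) ≤ |(l : ℝ)| := by
        by_cases hl : l = 0
        · subst hl
          rw [Int.cast_zero, abs_zero, Real.zero_rpow (by linarith)]
        · have h1 : (1 : ℝ) ≤ |(l : ℝ)| := by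
            have h2 : 1 ≤ |l| := Int.one_le_abs hl
            exact_mod_cast h2
          calc |(l : ℝ)| ^ (2 * p.α) ≤ |(l : ℝ)| ^ (1 : ℝ) :=
                Real.rpow_le_rpow_of_exponent_le h1 (by linarith)
            _ = |(l : ℝ)| := Real.rpow_one _
      rw [e1, mul_assoc]
      exact mul_le_mul_of_nonneg_left
        (mul_le_mul h2 ((hVR p hp).1 t l ht).1 (norm_nonneg _) (abs_nonneg _)) hκ.le
    rw [if_pos rfl]
    calc lam p (0, l) * ‖x (0, l) + Sl p t l‖ ≤ lam p (0, l) * (‖x (0, l)‖ + ‖Sl p t l‖) :=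
          mul_le_mul_of_nonneg_left (norm_add_le _ _) hlam0
      _ = lam p (0, l) * ‖x (0, l)‖ + lam p (0, l) * ‖Sl p t l‖ := by ring
      _ ≤ _ := add_le_add hfirst hS
  · have h0 : (if ((m, l) : ℤ × ℤ).1 = 0 then Sl p t ((m, l) : ℤ × ℤ).2 else 0) = 0 := if_neg hm
    rw [h0, add_zero]
    have h5 : 0 ≤ p.κ * (|(l : ℝ)| * ‖p.A l‖) := by positivity
    linarith

theorem p_AOD (hTSD : Stmt_TSD) (hADA : Stmt_ADA) (hEET : Stmt_EET) (hCTG : Stmt_CTG)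
    (hGVB : Stmt_GVB) (hVR : Stmt_VR) (hWTB : Stmt_WTB) (hEEB : Stmt_EEB) (hOMS : Stmt_OMS) :
    Stmt_AOD := by
  intro p hp β T R x hβ hT hβT hTA hR hB hx k t0 ht0
  obtain ⟨m, l⟩ := k
  have hAs := AOD_As p
  have hβt : ∀ t ∈ Icc 0 T, β * t ≤ p.s / 2 := fun t ht =>
    (mul_le_mul_of_nonneg_left ht.2 hβ).trans hβT
  have htA : ∀ t ∈ Icc 0 T, t * p.As ≤ 1 / 2 := fun t ht =>
    (mul_le_mul_of_nonneg_right ht.2 hAs).trans hTA
  obtain ⟨uG, huG, huGb⟩ := hGVB p hp β T R hβ hT.le hβT hTA hR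
  have hsub : Icc (0 : ℝ) T ⊆ Ici 0 := Icc_subset_Ici_self
  have hxc : ∀ k, ContinuousOn (fun t => x t k) (Icc 0 T) := fun k t ht =>
    (hx k t ht).continuousWithinAt
  have hxhd := AOD_xh hVR p hp T x hx
  -- the terms
  set F : ℤ → ℝ → ℂ := fun l' t => ee p m t (l - l') * xh p t (x t) (m, l') with hF
  set F' : ℤ → ℝ → ℂ := fun l' t =>
    (-(Complex.I * ((m : ℂ) * (p.N : ℂ))) * cv (Ul p t) (ee p m t) (l - l')) *
        xh p t (x t) (m, l') +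
      ee p m t (l - l') * (-((lam p (m, l') : ℝ) : ℂ) * xh p t (x t) (m, l') +
        Gv p t (x t) (m, l')) with hF'
  set X : ℤ → ℝ := fun l' => R * (1 / (1 + |(l' : ℝ)|) ^ 4) + ‖p.A l'‖ with hX
  set Z : ℤ → ℝ := fun l' => p.κ * (1 + |(p.N : ℝ) * m|) * R * (1 / (1 + |(l' : ℝ)|) ^ 2) +
        p.κ * (|(l' : ℝ)| * ‖p.A l'‖) with hZ
  set u : ℤ → ℝ := fun l' => |(m : ℝ)| * p.N * p.As * X l' + (Z l' + uG (m, l')) with hu
  have hXs : Summable X := by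
    refine Summable.add (Summable.mul_left _ ?_) (AOD_sumA hOMS p hp)
    refine Summable.of_nonneg_of_le (fun j => by positivity) (fun j => ?_) AOD_sum2
    refine one_div_le_one_div_of_le (by positivity) ?_
    exact pow_le_pow_right₀ (by linarith [abs_nonneg (j : ℝ)]) (by norm_num)
  have hZs : Summable Z :=
    (AOD_sum2.mul_left _).add ((AOD_sumA1 hOMS p hp).mul_left _)
  have hus : Summable u := (hXs.mul_left _).add (hZs.add (huG m))
  have hee : ∀ t ∈ Icc 0 T, ∀ j, ‖ee p m t j‖ ≤ 1 := fun t ht j =>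
    ((hEEB p hp).1 m t j ht.1).1
  have hxhn : ∀ t ∈ Icc 0 T, ∀ l', ‖xh p t (x t) (m, l')‖ ≤ X l' := fun t ht l' =>
    AOD_xhn hVR hWTB p hp β t R (x t) hβ ht.1 (hβt t ht) hR (hB t ht) m l'
  have key := hTSD T F F' u hT ?_ ?_ hus ?_ ?_ t0 ht0
  · have h1 := hADA p hp β t0 R (x t0) hβ ht0.1 (hβt t0 ht0) (htA t0 ht0) hR (hB t0 ht0) (m, l)
    rw [← h1]
    exact key
  · intro l' t ht
    have h1 := ((hEET p hp m (l - l')).1 t ht.1).mono hsub
    exact h1.mul (hxhd m l' t ht)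
  · intro l'
    have c1 : ContinuousOn (fun t => cv (Ul p t) (ee p m t) (l - l')) (Icc 0 T) :=
      (hEET p hp m (l - l')).2.mono hsub
    have c2 : ContinuousOn (fun t => ee p m t (l - l')) (Icc 0 T) := fun t ht =>
      (((hEET p hp m (l - l')).1 t ht.1).mono hsub).continuousWithinAt
    have c3 : ContinuousOn (fun t => xh p t (x t) (m, l')) (Icc 0 T) := fun t ht =>
      (hxhd m l' t ht).continuousWithinAt
    have c4 : ContinuousOn (fun t => Gv p t (x t) (m, l')) (Icc 0 T) :=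
      hCTG p hp β T R x hβ hT.le hβT hTA hR hxc hB (m, l')
    exact ((continuousOn_const.mul c1).mul c3).add
      (c2.mul ((continuousOn_const.mul c3).add c4))
  · intro l' t ht
    have b1 := AOD_cv hVR hEEB hOMS p hp m t ht.1 (l - l')
    have b2 := hee t ht (l - l')
    have b3 := hxhn t ht l'
    have b4 := AOD_lam hVR hWTB p hp β t R (x t) hβ ht.1 (hβt t ht) hR (hB t ht) m l'
    have b5 := huGb t ht (x t) (hB t ht) (m, l')
    have hc : ‖-(Complex.I * ((m : ℂ) * (p.N : ℂ)))‖ = |(m : ℝ)| * p.N := by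
      rw [norm_neg, norm_mul, Complex.norm_I, one_mul, norm_mul, Complex.norm_natCast,
        Complex.norm_intCast]
    have hX0 : 0 ≤ X l' := (norm_nonneg _).trans b3
    refine (norm_add_le _ _).trans (add_le_add ?_ ?_)
    · rw [norm_mul, norm_mul, hc]
      exact mul_le_mul (mul_le_mul_of_nonneg_left b1 (by positivity)) b3 (norm_nonneg _)
        (by positivity)
    · rw [norm_mul]
      calc ‖ee p m t (l - l')‖ * ‖-((lam p (m, l') : ℝ) : ℂ) * xh p t (x t) (m, l') +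
            Gv p t (x t) (m, l')‖ ≤ 1 * ‖-((lam p (m, l') : ℝ) : ℂ) * xh p t (x t) (m, l') +
            Gv p t (x t) (m, l')‖ := mul_le_mul_of_nonneg_right b2 (norm_nonneg _)
        _ ≤ Z l' + uG (m, l') := by
            rw [one_mul]
            exact (norm_add_le _ _).trans (add_le_add b4 b5)
  · refine Summable.of_nonneg_of_le (fun _ => norm_nonneg _) (fun l' => ?_) hXs
    have h0 : (0 : ℝ) ∈ Icc 0 T := ⟨le_rfl, hT.le⟩
    show ‖ee p m 0 (l - l') * xh p 0 (x 0) (m, l')‖ ≤ X l'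
    rw [norm_mul]
    calc ‖ee p m 0 (l - l')‖ * ‖xh p 0 (x 0) (m, l')‖ ≤ 1 * ‖xh p 0 (x 0) (m, l')‖ :=
          mul_le_mul_of_nonneg_right (hee 0 h0 _) (norm_nonneg _)
      _ ≤ X l' := by
          rw [one_mul]
          exact hxhn 0 h0 l'

end

end Pool.SQGA
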