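import Pool.Agent.Work.MP_a2fcf1_an_ar.I3

/-! # Block BO3 (MP_a2fcf1_an): the third energy decays -/

set_option autoImplicit false

namespace Pool.SQGA

open Set MeasureTheory
open Pool.Agent.Work.MP_a2fcf1_an_h64 (cr sc eu n1 ex GloballyRegular)
open Pool.SQGF (nq NB Sym Fr Adm Sw wt Y TT GS BB RD)

noncomputable section

namespace X_BO3

theorem ww_nonneg (q : ℕ) (k : ℤ × ℤ) : 0 ≤ ww q k := by
  unfold ww wt
  have h : 0 ≤ eu k ^ (2 * (q : ℝ)) :=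
    Real.rpow_nonneg (Pool.Agent.Work.MP_a2fcf1_an_h64.eu_nonneg k) _
  split_ifs <;> linarith

theorem ww_le (k : ℤ × ℤ) : ww 3 k ≤ (1 + (n1 k : ℝ)) ^ 6 := by
  unfold ww wt
  have h0 : 0 ≤ eu k := Pool.Agent.Work.MP_a2fcf1_an_h64.eu_nonneg k
  have h1 : eu k ≤ n1 k := Pool.Agent.Work.MP_a2fcf1_an_h64.eu_le_n1 k
  have hn : (0 : ℝ) ≤ n1 k := Nat.cast_nonneg _
  have h2 : eu k ^ (2 * ((3 : ℕ) : ℝ)) = eu k ^ 6 := by
    rw [← Real.rpow_natCast]
    norm_num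
  have h3 : eu k ^ 6 ≤ (n1 k : ℝ) ^ 6 := pow_le_pow_left₀ h0 h1 6
  have h4 : 1 + (n1 k : ℝ) ^ 6 ≤ (1 + (n1 k : ℝ)) ^ 6 := by
    have h5 : 0 ≤ (n1 k : ℝ) ^ 2 := by positivity
    have h6 : 0 ≤ (n1 k : ℝ) ^ 3 := by positivity
    have h7 : 0 ≤ (n1 k : ℝ) ^ 4 := by positivity
    have h8 : 0 ≤ (n1 k : ℝ) ^ 5 := by positivity
    nlinarith
  rw [h2]
  split_ifs
  · linarith
  · have h9 : (0 : ℝ) ≤ (n1 k : ℝ) ^ 6 := by positivity
    linarith

theorem hS_bound {κ α : ℝ} (hκ : 0 < κ) (x : ℤ × ℤ → ℝ → ℂ) (k : ℤ × ℤ) {t : ℝ} (ht : 0 ≤ t)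
    {W : ℝ} (hW : 0 ≤ W) :
    W * ‖hS κ α x k t‖ ≤ if k.1 = 0 then W * ‖x k 0‖ else 0 := by
  unfold hS
  split_ifs with h
  · have h0 : 0 ≤ eu k ^ (2 * α) :=
      Real.rpow_nonneg (Pool.Agent.Work.MP_a2fcf1_an_h64.eu_nonneg k) _
    have h1 : Real.exp (-(κ * eu k ^ (2 * α) * t)) ≤ 1 := by
      rw [Real.exp_le_one_iff]
      have : 0 ≤ κ * eu k ^ (2 * α) * t := by positivity
      linarith
    rw [norm_mul, Complex.norm_real, Real.norm_eq_abs, abs_of_pos (Real.exp_pos _)]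
    refine mul_le_mul_of_nonneg_left ?_ hW
    exact mul_le_of_le_one_left (norm_nonneg _) h1
  · rw [norm_zero, mul_zero]

theorem hz_zero {κ α : ℝ} (x : ℤ × ℤ → ℝ → ℂ) (k : ℤ × ℤ) :
    hz κ α x k 0 = if k.1 = 0 then 0 else x k 0 := by
  unfold hz hS
  split_ifs with h
  · rw [mul_zero, neg_zero, Real.exp_zero, Complex.ofReal_one, one_mul, sub_self]
  · rw [sub_zero]

theorem eu_coef {N : ℕ} {α : ℝ} (hα : 0 < α) {k : ℤ × ℤ} (hk : k ≠ 0)
    (hN : k.1 ≠ 0 → (N : ℤ) ≤ |k.1|) :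
    1 + (if k.1 = 0 then 0 else (N : ℝ) ^ (2 * α)) ≤ 2 * eu k ^ (2 * α) := by
  have h1 : 1 ≤ eu k := Pool.Agent.Work.MP_a2fcf1_an_h64.one_le_eu hk
  have h2 : 1 ≤ eu k ^ (2 * α) := Real.one_le_rpow h1 (by linarith)
  split_ifs with h
  · linarith
  · have h3 : (N : ℝ) ≤ |(k.1 : ℝ)| := by
      have := hN h
      exact_mod_cast this
    have h4 : |(k.1 : ℝ)| ≤ eu k := by
      unfold eu
      apply Real.abs_le_sqrt
      nlinarith [sq_nonneg (k.2 : ℝ)]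
    have h5 : (N : ℝ) ^ (2 * α) ≤ eu k ^ (2 * α) :=
      Real.rpow_le_rpow (Nat.cast_nonneg _) (h3.trans h4) (by linarith)
    linarith

/-- the trap -/
theorem trap {F D : ℝ → ℝ} {κ T : ℝ} (hκ : 0 < κ)
    (hF : ∀ t ∈ Icc 0 T, HasDerivWithinAt F (D t) (Icc 0 T) t)
    (hD : ∀ t ∈ Icc 0 T, D t ≤ -(κ * F t) + 448 * (√(F t) * F t))
    (h0 : 0 ≤ F 0) (h1 : F 0 < (κ / 896) ^ 2) :
    ∀ t ∈ Icc 0 T, F t ≤ Real.exp (-(κ / 2 * t)) * F 0 := by
  have key : ∀ ε : ℝ, 0 < ε → F 0 + ε < (κ / 896) ^ 2 → ∀ t ∈ Icc 0 T,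
      F t ≤ (F 0 + ε) * Real.exp (-(κ / 2 * t)) := by
    intro ε hε hε2
    have hB : ∀ t : ℝ, HasDerivAt (fun t => (F 0 + ε) * Real.exp (-(κ / 2 * t)))
        ((F 0 + ε) * (Real.exp (-(κ / 2 * t)) * -(κ / 2))) t := by
      intro t
      have h3 : HasDerivAt (fun t : ℝ => -(κ / 2 * t)) (-(κ / 2)) t := by
        have h4 := (hasDerivAt_id t).const_mul (-(κ / 2))
        have h5 : (fun t : ℝ => -(κ / 2 * t)) = fun t => -(κ / 2) * id t := by
          funext t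
          show -(κ / 2 * t) = -(κ / 2) * t
          ring
        rw [h5]
        exact h4.congr_deriv (mul_one _)
      exact h3.exp.const_mul _
    refine image_le_of_deriv_right_lt_deriv_boundary' (f' := D)
      (B' := fun t => (F 0 + ε) * (Real.exp (-(κ / 2 * t)) * -(κ / 2)))
      (fun t ht => (hF t ht).continuousWithinAt) ?_ ?_
      (fun t _ => (hB t).continuousAt.continuousWithinAt)
      (fun t _ => (hB t).hasDerivWithinAt) ?_
    · intro t ht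
      exact (hF t (Ico_subset_Icc_self ht)).mono_of_mem_nhdsWithin (Icc_mem_nhdsGE_of_mem ht)
    · rw [mul_zero, neg_zero, Real.exp_zero, mul_one]
      linarith
    · intro t ht heq
      have hE : 0 < Real.exp (-(κ / 2 * t)) := Real.exp_pos _
      have hE1 : Real.exp (-(κ / 2 * t)) ≤ 1 := by
        rw [Real.exp_le_one_iff]
        have : 0 ≤ κ / 2 * t := mul_nonneg (by linarith) ht.1
        linarith
      have hpos : 0 < F t := by
        rw [heq]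
        positivity
      have hlt : F t < (κ / 896) ^ 2 := by
        rw [heq]
        refine lt_of_le_of_lt ?_ hε2
        exact mul_le_of_le_one_right (by linarith) hE1
      have hs : √(F t) < κ / 896 := by
        rw [Real.sqrt_lt' (by positivity)]
        exact hlt
      have h6 := hD t (Ico_subset_Icc_self ht)
      have h7 : √(F t) * F t < κ / 896 * F t := mul_lt_mul_of_pos_right hs hpos
      have h8 : (F 0 + ε) * (Real.exp (-(κ / 2 * t)) * -(κ / 2)) = -(κ / 2) * F t := by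
        rw [heq]
        ring
      rw [h8]
      nlinarith
  intro t ht
  have hE : 0 < Real.exp (-(κ / 2 * t)) := Real.exp_pos _
  by_contra hcon
  push Not at hcon
  have h3 : 0 < F t / Real.exp (-(κ / 2 * t)) - F 0 := by
    rw [sub_pos, lt_div_iff₀ hE, mul_comm]
    exact hcon
  obtain ⟨ε, hε⟩ : ∃ ε, ε = min ((F t / Real.exp (-(κ / 2 * t)) - F 0) / 2)
    (((κ / 896) ^ 2 - F 0) / 2) := ⟨_, rfl⟩
  have hε0 : 0 < ε := by
    rw [hε]
    exact lt_min (by linarith) (by linarith)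
  have hε1 : ε ≤ (F t / Real.exp (-(κ / 2 * t)) - F 0) / 2 := by
    rw [hε]
    exact min_le_left _ _
  have hε2 : ε ≤ ((κ / 896) ^ 2 - F 0) / 2 := by
    rw [hε]
    exact min_le_right _ _
  have h4 := key ε hε0 (by linarith) t ht
  have h5 : F t / Real.exp (-(κ / 2 * t)) ≤ F 0 + ε := by
    rw [div_le_iff₀ hE]
    exact h4
  linarith

end X_BO3

open X_BO3

theorem p_BO3 (h1 : Stmt_ZEQ) (h2 : Stmt_SWB) (h3 : Stmt_LNT) : Stmt_BO3 := by
  intro κ α hκ hα hα2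
  obtain ⟨CL, hCL, hL⟩ := h3 3 (by norm_num)
  refine ⟨min 1 (min (κ / (2 * CL)) ((κ / 896) ^ 2 / 2)), by positivity, ?_⟩
  intro N B T x hN hB hBk hT hx hc1 hc2
  have hc2' : (∑ k ∈ B, if k.1 = 0 then 0 else (1 + (n1 k : ℝ)) ^ 6 * ‖x k 0‖ ^ 2) ≤ 1 :=
    hc2.trans (min_le_left _ _)
  have hc2'' : (∑ k ∈ B, if k.1 = 0 then 0 else (1 + (n1 k : ℝ)) ^ 6 * ‖x k 0‖ ^ 2) ≤
      (κ / 896) ^ 2 / 2 := hc2.trans ((min_le_right _ _).trans (min_le_right _ _))
  have hNp : 0 ≤ (N : ℝ) ^ (2 * α) := Real.rpow_nonneg (Nat.cast_nonneg _) _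
  have hc1' : (∑ k ∈ B, if k.1 = 0 then (1 + |(k.2 : ℝ)|) ^ 7 * ‖x k 0‖ else 0) ≤
      κ / (2 * CL) * (N : ℝ) ^ (2 * α) := by
    refine hc1.trans (mul_le_mul_of_nonneg_right ?_ hNp)
    exact (min_le_right _ _).trans (min_le_left _ _)
  have hF0 : FF κ α B x 3 0 ≤
      ∑ k ∈ B, if k.1 = 0 then 0 else (1 + (n1 k : ℝ)) ^ 6 * ‖x k 0‖ ^ 2 := by
    unfold FF
    refine Finset.sum_le_sum fun k _ => ?_
    rw [hz_zero]
    split_ifs with h
    · simp
    · exact mul_le_mul_of_nonneg_right (ww_le k) (by positivity)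
  have hFn : ∀ t, 0 ≤ FF κ α B x 3 t := by
    intro t
    unfold FF
    exact Finset.sum_nonneg fun k _ => mul_nonneg (ww_nonneg 3 k) (by positivity)
  refine ⟨hF0.trans hc2', ?_⟩
  have hder : ∀ t ∈ Icc 0 T, ∃ D : ℝ, HasDerivWithinAt (FF κ α B x 3) D (Icc 0 T) t ∧
      D ≤ -(κ * FF κ α B x 3 t) + 448 * (√(FF κ α B x 3 t) * FF κ α B x 3 t) := by
    intro t ht
    obtain ⟨hAS, hAz, hder⟩ := h1 B κ α T x hB (fun k hk => (hBk k hk).1) hT hx t ht
    refine ⟨_, hder (ww 3), ?_⟩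
    have hLt := hL B (fun k => hS κ α x k t) (fun k => hz κ α x k t) hB
      (fun k hk => (hBk k hk).1) hAS hAz (fun k hk => by
        show hS κ α x k t = 0
        unfold hS
        rw [if_neg hk])
    have hSt := h2 3 B (fun k => hz κ α x k t) (by norm_num) hB (fun k hk => (hBk k hk).1) hAz
    obtain ⟨Fn, hFneq⟩ : ∃ Fn : ℝ, Fn = ∑ k ∈ B, if k.1 = 0 then 0 else
      ww 3 k * ‖hz κ α x k t‖ ^ 2 := ⟨_, rfl⟩
    have hFn0 : 0 ≤ Fn := by
      rw [hFneq]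
      refine Finset.sum_nonneg fun k _ => ?_
      split_ifs
      · exact le_rfl
      · exact mul_nonneg (ww_nonneg 3 k) (by positivity)
    have hA : ∑ j ∈ B, (1 + |(j.2 : ℝ)|) ^ 7 * ‖hS κ α x j t‖ ≤
        κ / (2 * CL) * (N : ℝ) ^ (2 * α) :=
      (Finset.sum_le_sum fun j _ => hS_bound hκ x j ht.1 (by positivity)).trans hc1'
    -- the linear transfer
    have hlin : |∑ k ∈ B, ww 3 k * ((starRingEnd ℂ) (hz κ α x k t) *
          ∑ j ∈ B, ((2 * sc j (k - j) : ℝ) : ℂ) *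
            (hS κ α x j t * hz κ α x (k - j) t)).re| ≤ κ / 2 * (N : ℝ) ^ (2 * α) * Fn := by
      refine hLt.trans ?_
      rw [← hFneq]
      refine mul_le_mul_of_nonneg_right ?_ hFn0
      have h4 : CL * (∑ j ∈ B, (1 + |(j.2 : ℝ)|) ^ (2 * 3 + 1) * ‖hS κ α x j t‖) ≤
          CL * (κ / (2 * CL) * (N : ℝ) ^ (2 * α)) := mul_le_mul_of_nonneg_left hA hCL.le
      refine h4.trans (le_of_eq ?_)
      field_simp
    have hnl : |Sw B (ww 3) (fun k => hz κ α x k t)| ≤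
        224 * (√(FF κ α B x 3 t) * FF κ α B x 3 t) := by
      refine hSt.trans (le_of_eq ?_)
      unfold FF
      push_cast
      ring
    have hdis : κ * FF κ α B x 3 t + κ * (N : ℝ) ^ (2 * α) * Fn ≤
        2 * κ * ∑ k ∈ B, ww 3 k * eu k ^ (2 * α) * ‖hz κ α x k t‖ ^ 2 := by
      rw [hFneq]
      unfold FF
      rw [Finset.mul_sum, Finset.mul_sum, Finset.mul_sum, ← Finset.sum_add_distrib]
      refine Finset.sum_le_sum fun k hk => ?_
      have h4 := eu_coef hα (hBk k hk).1 (hBk k hk).2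
      have h5 : 0 ≤ ww 3 k * ‖hz κ α x k t‖ ^ 2 := mul_nonneg (ww_nonneg 3 k) (by positivity)
      have h6 := mul_le_mul_of_nonneg_left h4 (mul_nonneg hκ.le h5)
      split_ifs at h6 ⊢ with h7
      · nlinarith
      · nlinarith
    have h8 := abs_le.1 hlin
    have h9 := abs_le.1 hnl
    have h10 : 0 ≤ κ * (N : ℝ) ^ (2 * α) * Fn := by positivity
    linarith [h8.1, h9.1]
  choose! D hD using hder
  exact trap hκ (fun t ht => (hD t ht).1) (fun t ht => (hD t ht).2) (hFn 0) (by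
    have : 0 < (κ / 896) ^ 2 := by positivity
    linarith)

end

end Pool.SQGA
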