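import Pool.Agent.Work.MP_a2fcf1_an_ar.I3

/-! # Block BRK (helper72): invariance of the bracket -/

set_option autoImplicit false

namespace Pool.SQGA

open Set MeasureTheory
open Pool.Agent.Work.MP_a2fcf1_an_h64 (cr sc eu n1)

noncomputable section

/-- a finite first moment -/
def BRK_M (a : ℤ → ℂ) : Prop := Summable fun l : ℤ => (1 + |(l : ℝ)|) * ‖a l‖

/-- `l a l` -/
def BRK_D (a : ℤ → ℂ) (l : ℤ) : ℂ := (l : ℂ) * a l

theorem BRK_s1 {a : ℤ → ℂ} (h : BRK_M a) : S1 a := by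
  refine Summable.of_nonneg_of_le (fun l => norm_nonneg _) (fun l => ?_) h
  nlinarith [abs_nonneg (l : ℝ), norm_nonneg (a l),
    mul_nonneg (abs_nonneg (l : ℝ)) (norm_nonneg (a l))]

theorem BRK_sD {a : ℤ → ℂ} (h : BRK_M a) : S1 (BRK_D a) := by
  refine Summable.of_nonneg_of_le (fun l => norm_nonneg _) (fun l => ?_) h
  unfold BRK_D
  rw [norm_mul, Complex.norm_intCast]
  nlinarith [abs_nonneg (l : ℝ), norm_nonneg (a l)]

theorem BRK_mom {s : ℝ} {a : ℤ → ℂ} (hs : 0 ≤ s) (h : WS s a) : BRK_M a := by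
  refine Summable.of_nonneg_of_le (fun l => by positivity) (fun l => ?_) h
  refine mul_le_mul_of_nonneg_right ?_ (norm_nonneg _)
  unfold om
  have h1 : (1 : ℝ) ≤ Real.exp (s * |(l : ℝ)|) := Real.one_le_exp (by positivity)
  have h2 : 1 + |(l : ℝ)| ≤ (1 + |(l : ℝ)|) ^ 4 :=
    le_self_pow₀ (by linarith [abs_nonneg (l : ℝ)]) (by norm_num)
  have h3 : (0 : ℝ) ≤ (1 + |(l : ℝ)|) ^ 4 := by positivity
  nlinarith

/-- the moment of a convolution -/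
theorem BRK_cvM (hFSM : Stmt_FSM) {a b : ℤ → ℂ} (ha : BRK_M a) (hb : BRK_M b) :
    BRK_M (cv a b) := by
  have ha' : S1 (fun l : ℤ => (((1 + |(l : ℝ)|) * ‖a l‖ : ℝ) : ℂ)) := by
    unfold S1
    refine ha.congr fun l => ?_
    rw [Complex.norm_real, Real.norm_of_nonneg (by positivity)]
  have hb' : S1 (fun l : ℤ => (((1 + |(l : ℝ)|) * ‖b l‖ : ℝ) : ℂ)) := by
    unfold S1
    refine hb.congr fun l => ?_
    rw [Complex.norm_real, Real.norm_of_nonneg (by positivity)]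
  obtain ⟨h1, h2, -⟩ := hFSM _ _ ha' hb'
  refine Summable.of_nonneg_of_le (fun l => by positivity) (fun l => ?_) h1
  have h3 : ∀ j : ℤ, (0 : ℝ) ≤ ((1 + |(j : ℝ)|) * ‖a j‖) *
      ((1 + |((l - j : ℤ) : ℝ)|) * ‖b (l - j)‖) := fun j => by positivity
  have h4 : Summable fun j : ℤ => ((1 + |(j : ℝ)|) * ‖a j‖) *
      ((1 + |((l - j : ℤ) : ℝ)|) * ‖b (l - j)‖) := by
    refine (h2 l).congr fun j => ?_
    rw [← Complex.ofReal_mul, Complex.norm_real, Real.norm_of_nonneg (h3 j)]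
  have h5 : cv (fun l : ℤ => (((1 + |(l : ℝ)|) * ‖a l‖ : ℝ) : ℂ))
      (fun l : ℤ => (((1 + |(l : ℝ)|) * ‖b l‖ : ℝ) : ℂ)) l =
      ((∑' j : ℤ, ((1 + |(j : ℝ)|) * ‖a j‖) *
        ((1 + |((l - j : ℤ) : ℝ)|) * ‖b (l - j)‖) : ℝ) : ℂ) := by
    unfold cv
    rw [Complex.ofReal_tsum]
    refine tsum_congr fun j => ?_
    rw [← Complex.ofReal_mul]
  rw [h5, Complex.norm_real, Real.norm_of_nonneg (tsum_nonneg h3)]
  have h6 : ∀ j : ℤ, (1 + |(l : ℝ)|) * ‖a j * b (l - j)‖ ≤ ((1 + |(j : ℝ)|) * ‖a j‖) *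
      ((1 + |((l - j : ℤ) : ℝ)|) * ‖b (l - j)‖) := by
    intro j
    have h7 : |(l : ℝ)| ≤ |(j : ℝ)| + |((l - j : ℤ) : ℝ)| := by
      have := abs_add_le (j : ℝ) ((l - j : ℤ) : ℝ)
      have e3 : (j : ℝ) + ((l - j : ℤ) : ℝ) = l := by push_cast; ring
      rwa [e3] at this
    have h8 : 1 + |(l : ℝ)| ≤ (1 + |(j : ℝ)|) * (1 + |((l - j : ℤ) : ℝ)|) := by
      nlinarith [mul_nonneg (abs_nonneg (j : ℝ)) (abs_nonneg ((l - j : ℤ) : ℝ))]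
    rw [norm_mul]
    calc (1 + |(l : ℝ)|) * (‖a j‖ * ‖b (l - j)‖)
        ≤ ((1 + |(j : ℝ)|) * (1 + |((l - j : ℤ) : ℝ)|)) * (‖a j‖ * ‖b (l - j)‖) :=
          mul_le_mul_of_nonneg_right h8 (by positivity)
      _ = _ := by ring
  have h9 : Summable fun j : ℤ => (1 + |(l : ℝ)|) * ‖a j * b (l - j)‖ :=
    Summable.of_nonneg_of_le (fun j => by positivity) h6 h4
  have h10 : Summable fun j : ℤ => ‖a j * b (l - j)‖ :=
    (summable_mul_left_iff (by positivity : (1 + |(l : ℝ)|) ≠ 0)).1 h9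
  calc (1 + |(l : ℝ)|) * ‖cv a b l‖
      ≤ (1 + |(l : ℝ)|) * ∑' j, ‖a j * b (l - j)‖ :=
        mul_le_mul_of_nonneg_left (norm_tsum_le_tsum_norm h10) (by positivity)
    _ = ∑' j, (1 + |(l : ℝ)|) * ‖a j * b (l - j)‖ := by rw [tsum_mul_left]
    _ ≤ _ := h9.tsum_le_tsum h6 h4

/-- `D` is a derivation -/
theorem BRK_Dcv (hFSM : Stmt_FSM) {a b : ℤ → ℂ} (ha : BRK_M a) (hb : BRK_M b) :
    BRK_D (cv a b) = fun l => cv (BRK_D a) b l + cv a (BRK_D b) l := by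
  funext l
  have h1 := (hFSM _ _ (BRK_sD ha) (BRK_s1 hb)).2.1 l
  have h2 := (hFSM _ _ (BRK_s1 ha) (BRK_sD hb)).2.1 l
  show (l : ℂ) * ∑' j, a j * b (l - j) =
    ∑' j, BRK_D a j * b (l - j) + ∑' j, a j * BRK_D b (l - j)
  rw [← h1.of_norm.tsum_add h2.of_norm, ← tsum_mul_left]
  refine tsum_congr fun j => ?_
  unfold BRK_D
  push_cast
  ring

/-- the bracket as convolutions -/
theorem BRK_br (hFSM : Stmt_FSM) {a b : ℤ → ℂ} (ha : BRK_M a) (hb : BRK_M b) (m₁ m₂ l : ℤ) :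
    ∑' j : ℤ, (((m₁ * (l - j) - j * m₂ : ℤ)) : ℂ) * (a j * b (l - j)) =
      (m₁ : ℂ) * cv a (BRK_D b) l - (m₂ : ℂ) * cv (BRK_D a) b l := by
  have h1 := (hFSM _ _ (BRK_sD ha) (BRK_s1 hb)).2.1 l
  have h2 := (hFSM _ _ (BRK_s1 ha) (BRK_sD hb)).2.1 l
  show _ = (m₁ : ℂ) * ∑' j, a j * BRK_D b (l - j) - (m₂ : ℂ) * ∑' j, BRK_D a j * b (l - j)
  rw [← tsum_mul_left, ← tsum_mul_left,
    ← (h2.of_norm.mul_left (m₁ : ℂ)).tsum_sub (h1.of_norm.mul_left (m₂ : ℂ))]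
  refine tsum_congr fun j => ?_
  unfold BRK_D
  push_cast
  ring

theorem BRK_e1 (l : ℤ) (y : ℝ) : ‖e1 l y‖ = 1 := by
  unfold e1
  have h : Complex.I * ((l : ℂ) * (y : ℂ)) = ((((l : ℝ) * y : ℝ)) : ℂ) * Complex.I := by
    push_cast
    ring
  rw [h, Complex.norm_exp_ofReal_mul_I]

theorem BRK_fs {a : ℤ → ℂ} (ha : S1 a) (y : ℝ) : Summable fun l => a l * e1 l y := by
  refine Summable.of_norm_bounded ha fun l => ?_
  rw [norm_mul, BRK_e1, mul_one]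

/-- `fn` is linear -/
theorem BRK_lin {a b : ℤ → ℂ} (ha : S1 a) (hb : S1 b) (c d : ℂ) (y : ℝ) :
    fn (fun l => c * a l + d * b l) y = c * fn a y + d * fn b y := by
  unfold fn
  rw [← tsum_mul_left, ← tsum_mul_left,
    ← ((BRK_fs ha y).mul_left c).tsum_add ((BRK_fs hb y).mul_left d)]
  exact tsum_congr fun l => by ring

theorem BRK_slin {a b : ℤ → ℂ} (ha : S1 a) (hb : S1 b) (c d : ℂ) :
    S1 (fun l => c * a l + d * b l) := by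
  refine Summable.of_nonneg_of_le (fun l => norm_nonneg _) (fun l => ?_)
    ((Summable.mul_left ‖c‖ ha).add (Summable.mul_left ‖d‖ hb))
  exact (norm_add_le _ _).trans (by rw [norm_mul, norm_mul])

theorem p_BRK (hEED : Stmt_EED) (hEEM : Stmt_EEM) (hEEW : Stmt_EEW) (hCVA : Stmt_CVA)
    (hFSM : Stmt_FSM) (hVR : Stmt_VR) (hOMS : Stmt_OMS) : Stmt_BRK := by
  intro p hp m₁ m₂ t Y X ht hY hX l
  have hY' : BRK_M Y := hY
  have hX' : BRK_M X := hX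
  have hs := hp.s_pos.le
  have me : ∀ m, BRK_M (ee p m t) := fun m => BRK_mom hs (hEEW p hp m t ht).1
  -- the derivative of the phase
  have hV : S1 (fun l : ℤ => Complex.I * ((l : ℂ) * Vl p t l)) := by
    have h1 := hOMS.2.2.2.1 p.s _ hs ((hVR p hp).2.2.2.2.2 t ht).2.2.2.1
    refine Summable.congr h1 fun l => ?_
    rw [norm_mul Complex.I, Complex.norm_I, one_mul]
  obtain ⟨v, hv⟩ : ∃ v : ℤ → ℂ, v = fun l : ℤ => Complex.I * ((l : ℂ) * Vl p t l) := ⟨_, rfl⟩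
  rw [← hv] at hV
  have hDe : ∀ (m : ℤ) (y : ℝ), fn (BRK_D (ee p m t)) y =
      -((m : ℂ) * (p.N : ℂ)) * (fn v y * fn (ee p m t) y) := by
    intro m y
    have h1 : BRK_D (ee p m t) = fun j => -((m : ℂ) * (p.N : ℂ)) * cv v (ee p m t) j := by
      funext j
      rw [hv]
      exact hEED p hp m t j ht
    rw [h1, ← (hFSM v (ee p m t) hV (BRK_s1 (me m))).2.2 y]
    unfold fn
    rw [← tsum_mul_left]
    exact tsum_congr fun j => by ring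
  -- the two sides
  have h1 : (fun l' => ∑' a : ℤ, (((m₁ * (l' - a) - a * m₂ : ℤ)) : ℂ) * (Y a * X (l' - a))) =
      fun l' => (m₁ : ℂ) * cv Y (BRK_D X) l' + (-(m₂ : ℂ)) * cv (BRK_D Y) X l' := by
    funext l'
    rw [BRK_br hFSM hY' hX']
    ring
  have mA := BRK_cvM hFSM (me m₁) hY'
  have mB := BRK_cvM hFSM (me m₂) hX'
  rw [h1, BRK_br hFSM mA mB]
  have s1 : S1 (cv Y (BRK_D X)) := (hFSM _ _ (BRK_s1 hY') (BRK_sD hX')).1
  have s2 : S1 (cv (BRK_D Y) X) := (hFSM _ _ (BRK_sD hY') (BRK_s1 hX')).1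
  have s3 := (hFSM _ _ (BRK_s1 mA) (BRK_sD mB)).1
  have s4 := (hFSM _ _ (BRK_sD mA) (BRK_s1 mB)).1
  have s5 := BRK_slin s1 s2 (m₁ : ℂ) (-(m₂ : ℂ))
  have key : cv (ee p (m₁ + m₂) t)
      (fun l' => (m₁ : ℂ) * cv Y (BRK_D X) l' + (-(m₂ : ℂ)) * cv (BRK_D Y) X l') =
      fun l => (m₁ : ℂ) * cv (cv (ee p m₁ t) Y) (BRK_D (cv (ee p m₂ t) X)) l +
        (-(m₂ : ℂ)) * cv (BRK_D (cv (ee p m₁ t) Y)) (cv (ee p m₂ t) X) l := by
    refine hCVA.2.2.2.1 _ _ (hFSM _ _ (BRK_s1 (me _)) s5).1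
      (BRK_slin s3 s4 (m₁ : ℂ) (-(m₂ : ℂ))) fun y => ?_
    have f1 : ∀ {a b : ℤ → ℂ}, S1 a → S1 b → fn (cv a b) y = fn a y * fn b y :=
      fun ha hb => (hFSM _ _ ha hb).2.2 y
    have e12 : fn (ee p (m₁ + m₂) t) y = fn (ee p m₁ t) y * fn (ee p m₂ t) y := by
      rw [← hEEM p hp m₁ m₂ t ht, f1 (BRK_s1 (me _)) (BRK_s1 (me _))]
    have fD : ∀ {a b : ℤ → ℂ}, BRK_M a → BRK_M b →
        fn (BRK_D (cv a b)) y = fn (BRK_D a) y * fn b y + fn a y * fn (BRK_D b) y := by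
      intro a b ha hb
      have h2 : BRK_D (cv a b) = fun l => (1 : ℂ) * cv (BRK_D a) b l + 1 * cv a (BRK_D b) l := by
        rw [BRK_Dcv hFSM ha hb]
        funext l
        ring
      rw [h2, BRK_lin (hFSM _ _ (BRK_sD ha) (BRK_s1 hb)).1 (hFSM _ _ (BRK_s1 ha) (BRK_sD hb)).1,
        f1 (BRK_sD ha) (BRK_s1 hb), f1 (BRK_s1 ha) (BRK_sD hb), one_mul, one_mul]
    rw [f1 (BRK_s1 (me _)) s5, BRK_lin s1 s2, BRK_lin s3 s4, f1 (BRK_s1 hY') (BRK_sD hX'),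
      f1 (BRK_sD hY') (BRK_s1 hX'), f1 (BRK_s1 mA) (BRK_sD mB), f1 (BRK_sD mA) (BRK_s1 mB),
      f1 (BRK_s1 (me _)) (BRK_s1 hY'), f1 (BRK_s1 (me _)) (BRK_s1 hX'), fD (me _) hX',
      fD (me _) hY', hDe, hDe, e12]
    ring
  rw [key]
  ring

end

end Pool.SQGA
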