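import Pool.Agent.Work.MP_a2fcf1_an_ar.I2

set_option autoImplicit false

/-! # MP_a2fcf1_an, block CNV: convolution bounds on the lattice (helper78) -/

namespace Pool.SQGA

open Set MeasureTheory
open Pool.Agent.Work.MP_a2fcf1_an_h64 (cr sc eu n1)

noncomputable section

theorem CNV_n1 (k : ℤ × ℤ) : (n1 k : ℝ) = |(k.1 : ℝ)| + |(k.2 : ℝ)| := by
  unfold n1
  push_cast [Nat.cast_natAbs]
  rfl

theorem CNV_tri (j k : ℤ × ℤ) : (n1 k : ℝ) ≤ n1 j + n1 (k - j) := by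
  rw [CNV_n1, CNV_n1, CNV_n1, Prod.fst_sub, Prod.snd_sub]
  push_cast
  have h1 : |(k.1 : ℝ)| ≤ |(j.1 : ℝ)| + |(k.1 : ℝ) - j.1| := by
    have := abs_add_le (j.1 : ℝ) ((k.1 : ℝ) - j.1)
    rwa [add_sub_cancel] at this
  have h2 : |(k.2 : ℝ)| ≤ |(j.2 : ℝ)| + |(k.2 : ℝ) - j.2| := by
    have := abs_add_le (j.2 : ℝ) ((k.2 : ℝ) - j.2)
    rwa [add_sub_cancel] at this
  linarith

theorem CNV_sum1 : Summable fun z : ℤ => (1 + |(z : ℝ)|) ^ (-(3 / 2) : ℝ) := by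
  have h : Summable fun n : ℕ => ((n : ℝ) + 1) ^ (-(3 / 2) : ℝ) := by
    have h1 := (summable_nat_add_iff 1).mpr
      (Real.summable_nat_rpow.mpr (by norm_num : (-(3 / 2) : ℝ) < -1))
    simpa using h1
  apply Summable.of_nat_of_neg
  · refine h.congr fun n => ?_
    simp [add_comm]
  · refine h.congr fun n => ?_
    simp [add_comm]

theorem CNV_sum3 : Summable fun j : ℤ × ℤ => ((1 + (n1 j : ℝ)) ^ 3)⁻¹ := by
  have h2 : Summable fun x : ℤ × ℤ =>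
      (1 + |(x.1 : ℝ)|) ^ (-(3 / 2) : ℝ) * (1 + |(x.2 : ℝ)|) ^ (-(3 / 2) : ℝ) :=
    CNV_sum1.mul_of_nonneg CNV_sum1 (fun _ => by positivity) (fun _ => by positivity)
  refine Summable.of_nonneg_of_le (fun j => by positivity) (fun j => ?_) h2
  rw [CNV_n1]
  have ha := abs_nonneg (j.1 : ℝ)
  have hb := abs_nonneg (j.2 : ℝ)
  rw [Real.rpow_neg (by positivity), Real.rpow_neg (by positivity), ← mul_inv]
  apply inv_anti₀ (by positivity)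
  have h3 : (1 + |(j.1 : ℝ)|) ^ (3 / 2 : ℝ) ≤ (1 + (|(j.1 : ℝ)| + |(j.2 : ℝ)|)) ^ (3 / 2 : ℝ) :=
    Real.rpow_le_rpow (by positivity) (by linarith) (by norm_num)
  have h4 : (1 + |(j.2 : ℝ)|) ^ (3 / 2 : ℝ) ≤ (1 + (|(j.1 : ℝ)| + |(j.2 : ℝ)|)) ^ (3 / 2 : ℝ) :=
    Real.rpow_le_rpow (by positivity) (by linarith) (by norm_num)
  calc (1 + |(j.1 : ℝ)|) ^ (3 / 2 : ℝ) * (1 + |(j.2 : ℝ)|) ^ (3 / 2 : ℝ)
      ≤ (1 + (|(j.1 : ℝ)| + |(j.2 : ℝ)|)) ^ (3 / 2 : ℝ) *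
        (1 + (|(j.1 : ℝ)| + |(j.2 : ℝ)|)) ^ (3 / 2 : ℝ) := by gcongr
    _ = (1 + (|(j.1 : ℝ)| + |(j.2 : ℝ)|)) ^ (3 : ℝ) := by
        rw [← Real.rpow_add (by positivity)]
        norm_num
    _ = _ := by
        rw [← Real.rpow_natCast]
        norm_num

/-- the larger factor is at least half of the sum -/
theorem CNV_real (q : ℕ) {A B N : ℝ} (hA : 0 < A) (hB : 0 < B) (hN : 0 < N) (h : N ≤ A + B) :
    (A ^ q)⁻¹ * (B ^ q)⁻¹ ≤ 2 ^ q * (N ^ q)⁻¹ * ((A ^ q)⁻¹ + (B ^ q)⁻¹) := by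
  have key : ∀ D : ℝ, 0 < D → N ≤ 2 * D → (D ^ q)⁻¹ ≤ 2 ^ q * (N ^ q)⁻¹ := by
    intro D hD h1
    have h2 : N ^ q ≤ 2 ^ q * D ^ q := by
      rw [← mul_pow]
      exact pow_le_pow_left₀ hN.le h1 q
    rw [inv_le_iff_one_le_mul₀ (by positivity)]
    have h3 : 2 ^ q * (N ^ q)⁻¹ * D ^ q = (2 ^ q * D ^ q) / N ^ q := by
      field_simp
    rw [h3, one_le_div (by positivity)]
    exact h2
  have a0 : 0 ≤ (A ^ q)⁻¹ := by positivity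
  have b0 : 0 ≤ (B ^ q)⁻¹ := by positivity
  have n0 : 0 ≤ 2 ^ q * (N ^ q)⁻¹ := by positivity
  rcases le_total A B with hAB | hAB
  · have h1 := key B hB (by linarith)
    calc (A ^ q)⁻¹ * (B ^ q)⁻¹ ≤ (A ^ q)⁻¹ * (2 ^ q * (N ^ q)⁻¹) :=
          mul_le_mul_of_nonneg_left h1 a0
      _ ≤ 2 ^ q * (N ^ q)⁻¹ * ((A ^ q)⁻¹ + (B ^ q)⁻¹) := by nlinarith [mul_nonneg n0 b0]
  · have h1 := key A hA (by linarith)
    calc (A ^ q)⁻¹ * (B ^ q)⁻¹ ≤ (2 ^ q * (N ^ q)⁻¹) * (B ^ q)⁻¹ :=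
          mul_le_mul_of_nonneg_right h1 b0
      _ ≤ 2 ^ q * (N ^ q)⁻¹ * ((A ^ q)⁻¹ + (B ^ q)⁻¹) := by nlinarith [mul_nonneg n0 a0]

theorem CNV_pt (p : Par) (hp : p.Ok) (β t : ℝ) (hβt : β * t ≤ p.s / 2) (j k : ℤ × ℤ) :
    (1 + (n1 j : ℝ)) * (1 + (n1 (k - j) : ℝ)) * (Wt p β t j * Wt p β t (k - j)) ≤
      8 * ((1 + n1 k) * Wt p β t k) *
        (((1 + (n1 j : ℝ)) ^ 3)⁻¹ + ((1 + (n1 (k - j) : ℝ)) ^ 3)⁻¹) ∧
    Wt p β t j * Wt p β t (k - j) ≤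
      16 * Wt p β t k * (((1 + (n1 j : ℝ)) ^ 3)⁻¹ + ((1 + (n1 (k - j) : ℝ)) ^ 3)⁻¹) := by
  have hσ : 0 ≤ p.s - β * t := by
    have := hp.s_pos
    linarith
  have htri := CNV_tri j k
  unfold Wt
  generalize p.s - β * t = σ at hσ
  have ha : (0 : ℝ) ≤ n1 j := Nat.cast_nonneg _
  have hb : (0 : ℝ) ≤ n1 (k - j) := Nat.cast_nonneg _
  have hn : (0 : ℝ) ≤ n1 k := Nat.cast_nonneg _
  generalize (n1 j : ℝ) = a at *
  generalize (n1 (k - j) : ℝ) = b at *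
  generalize (n1 k : ℝ) = n at *
  have hE : Real.exp (-(σ * a)) * Real.exp (-(σ * b)) ≤ Real.exp (-(σ * n)) := by
    rw [← Real.exp_add]
    apply Real.exp_le_exp.2
    nlinarith [mul_le_mul_of_nonneg_left htri hσ]
  have A0 : (0 : ℝ) < 1 + a := by linarith
  have B0 : (0 : ℝ) < 1 + b := by linarith
  have N0 : (0 : ℝ) < 1 + n := by linarith
  have h3 := CNV_real 3 A0 B0 N0 (by linarith)
  have h4 := CNV_real 4 A0 B0 N0 (by linarith)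
  have hx0 : 0 ≤ ((1 + a) ^ 3)⁻¹ := by positivity
  have hy0 : 0 ≤ ((1 + b) ^ 3)⁻¹ := by positivity
  constructor
  · calc (1 + a) * (1 + b) * (Real.exp (-(σ * a)) / (1 + a) ^ 4 *
          (Real.exp (-(σ * b)) / (1 + b) ^ 4))
        = (Real.exp (-(σ * a)) * Real.exp (-(σ * b))) *
            (((1 + a) ^ 3)⁻¹ * ((1 + b) ^ 3)⁻¹) := by field_simp
      _ ≤ Real.exp (-(σ * n)) * (2 ^ 3 * ((1 + n) ^ 3)⁻¹ *
            (((1 + a) ^ 3)⁻¹ + ((1 + b) ^ 3)⁻¹)) :=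
          mul_le_mul hE h3 (by positivity) (Real.exp_nonneg _)
      _ = 8 * ((1 + n) * (Real.exp (-(σ * n)) / (1 + n) ^ 4)) *
            (((1 + a) ^ 3)⁻¹ + ((1 + b) ^ 3)⁻¹) := by
          field_simp
          norm_num
  · have e1 : ∀ x : ℝ, 0 ≤ x → ((1 + x) ^ 4)⁻¹ ≤ ((1 + x) ^ 3)⁻¹ := fun x hx =>
      inv_anti₀ (by positivity) (pow_le_pow_right₀ (by linarith) (by norm_num))
    calc Real.exp (-(σ * a)) / (1 + a) ^ 4 * (Real.exp (-(σ * b)) / (1 + b) ^ 4)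
        = (Real.exp (-(σ * a)) * Real.exp (-(σ * b))) *
            (((1 + a) ^ 4)⁻¹ * ((1 + b) ^ 4)⁻¹) := by field_simp
      _ ≤ Real.exp (-(σ * n)) * (2 ^ 4 * ((1 + n) ^ 4)⁻¹ *
            (((1 + a) ^ 4)⁻¹ + ((1 + b) ^ 4)⁻¹)) :=
          mul_le_mul hE h4 (by positivity) (Real.exp_nonneg _)
      _ ≤ Real.exp (-(σ * n)) * (2 ^ 4 * ((1 + n) ^ 4)⁻¹ *
            (((1 + a) ^ 3)⁻¹ + ((1 + b) ^ 3)⁻¹)) := by
          have := e1 a ha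
          have := e1 b hb
          gcongr
      _ = 16 * (Real.exp (-(σ * n)) / (1 + n) ^ 4) *
            (((1 + a) ^ 3)⁻¹ + ((1 + b) ^ 3)⁻¹) := by
          field_simp
          norm_num

theorem p_CNV : Stmt_CNV := by
  set Z : ℝ := ∑' j : ℤ × ℤ, ((1 + (n1 j : ℝ)) ^ 3)⁻¹ with hZ
  have hZ0 : 0 ≤ Z := tsum_nonneg fun j => by positivity
  refine ⟨32 * Z + 1, by linarith, ?_⟩
  intro p hp β t k _ _ hβt
  have hs2 : Summable fun j : ℤ × ℤ => ((1 + (n1 (k - j) : ℝ)) ^ 3)⁻¹ :=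
    (Equiv.subLeft k).summable_iff.mpr CNV_sum3
  have ht2 : ∑' j : ℤ × ℤ, ((1 + (n1 (k - j) : ℝ)) ^ 3)⁻¹ = Z :=
    (Equiv.subLeft k).tsum_eq fun j : ℤ × ℤ => ((1 + (n1 j : ℝ)) ^ 3)⁻¹
  have hs := CNV_sum3.add hs2
  have ht : ∑' j : ℤ × ℤ, (((1 + (n1 j : ℝ)) ^ 3)⁻¹ + ((1 + (n1 (k - j) : ℝ)) ^ 3)⁻¹) =
      2 * Z := by
    rw [CNV_sum3.tsum_add hs2, ht2]
    ring
  have hW : ∀ i, 0 < Wt p β t i := fun i => by
    unfold Wt
    positivity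
  have hWk := hW k
  have hnk : (0 : ℝ) ≤ n1 k := Nat.cast_nonneg _
  refine ⟨?_, ?_⟩
  · have h1 : Summable fun j : ℤ × ℤ => (1 + (n1 j : ℝ)) * (1 + (n1 (k - j) : ℝ)) *
        (Wt p β t j * Wt p β t (k - j)) := by
      refine Summable.of_nonneg_of_le (fun j => ?_) (fun j => (CNV_pt p hp β t hβt j k).1)
        (hs.mul_left (8 * ((1 + n1 k) * Wt p β t k)))
      have := (hW j).le
      have := (hW (k - j)).le
      positivity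
    refine ⟨h1, (h1.tsum_le_tsum (fun j => (CNV_pt p hp β t hβt j k).1)
      (hs.mul_left (8 * ((1 + n1 k) * Wt p β t k)))).trans ?_⟩
    rw [tsum_mul_left, ht]
    have hX : 0 ≤ (1 + n1 k) * Wt p β t k := by positivity
    nlinarith [mul_nonneg hZ0 hX]
  · have h1 : Summable fun j : ℤ × ℤ => Wt p β t j * Wt p β t (k - j) := by
      refine Summable.of_nonneg_of_le (fun j => ?_) (fun j => (CNV_pt p hp β t hβt j k).2)
        (hs.mul_left (16 * Wt p β t k))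
      have := (hW j).le
      have := (hW (k - j)).le
      positivity
    refine ⟨h1, (h1.tsum_le_tsum (fun j => (CNV_pt p hp β t hβt j k).2)
      (hs.mul_left (16 * Wt p β t k))).trans ?_⟩
    rw [tsum_mul_left, ht]
    nlinarith [mul_nonneg hZ0 hWk.le]

end

end Pool.SQGA
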