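import Pool.Agent.Work.MP_a2fcf1_an_ar.I2
import Pool.Agent.Work.MP_a2fcf1_an_h64.Smooth

/-! # MP_a2fcf1_an (helper61), block CTG: continuity of the right hand side -/

set_option autoImplicit false

namespace Pool.SQGA

open Set MeasureTheory
open Pool.Agent.Work.MP_a2fcf1_an_h64 (cr sc eu n1 summable_exp abs_cr_le_n1)

theorem CTG_cr (j k : ℤ × ℤ) : cr j (k - j) = cr j k := by
  unfold cr
  rw [Prod.fst_sub, Prod.snd_sub]
  ring

theorem CTG_om (s : ℝ) (hs : 0 ≤ s) (j : ℤ) : 1 ≤ om s j := by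
  have h1 : 1 ≤ Real.exp (s * |(j : ℝ)|) := Real.one_le_exp (mul_nonneg hs (abs_nonneg _))
  have h2 : 1 ≤ (1 + |(j : ℝ)|) ^ 4 := one_le_pow₀ (by linarith [abs_nonneg (j : ℝ)])
  exact one_le_mul_of_one_le_of_one_le h1 h2

theorem CTG_A {p : Par} (hp : p.Ok) (l : ℤ) : ‖p.A l‖ ≤ p.As + ‖p.A 0‖ := by
  have h0 : ∀ l : ℤ, 0 ≤ om p.s l * (|(l : ℝ)| * ‖p.A l‖) := fun l =>
    mul_nonneg (zero_le_one.trans (CTG_om p.s hp.s_pos.le l))
      (mul_nonneg (abs_nonneg _) (norm_nonneg _))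
  have hAs : 0 ≤ p.As := tsum_nonneg h0
  by_cases hl : l = 0
  · rw [hl]
    linarith
  · have h1 : om p.s l * (|(l : ℝ)| * ‖p.A l‖) ≤ p.As := hp.sum.le_tsum l (fun j _ => h0 j)
    have h2 : 1 ≤ |(l : ℝ)| := by
      have : 1 ≤ |l| := Int.one_le_abs hl
      exact_mod_cast this
    have h3 : ‖p.A l‖ ≤ |(l : ℝ)| * ‖p.A l‖ := le_mul_of_one_le_left (norm_nonneg _) h2
    have h4 : |(l : ℝ)| * ‖p.A l‖ ≤ om p.s l * (|(l : ℝ)| * ‖p.A l‖) :=
      le_mul_of_one_le_left (by positivity) (CTG_om p.s hp.s_pos.le l)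
    linarith [norm_nonneg (p.A 0)]

theorem p_CTG (hPCN : Stmt_PCN) (hYB : Stmt_YB) (hWTB : Stmt_WTB) (hVR : Stmt_VR) :
    Stmt_CTG := by
  intro p hp β T R x hβ hT hβT hTA hR hx hB k
  have hs : 0 < p.s / 2 := half_pos hp.s_pos
  have hAs : 0 ≤ p.As := tsum_nonneg fun l =>
    mul_nonneg (zero_le_one.trans (CTG_om p.s hp.s_pos.le l))
      (mul_nonneg (abs_nonneg _) (norm_nonneg _))
  set V : ℤ × ℤ → ℝ := fun j => Real.exp (-(p.s / 2 * n1 j)) with hV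
  have hVs : Summable V := summable_exp hs
  have hVp : ∀ j, 0 < V j := fun j => Real.exp_pos _
  have hV1 : ∀ j, V j ≤ 1 := by
    intro j
    show Real.exp (-(p.s / 2 * n1 j)) ≤ 1
    rw [Real.exp_le_one_iff]
    have : (0 : ℝ) ≤ p.s / 2 * n1 j := mul_nonneg hs.le (Nat.cast_nonneg _)
    linarith
  have hn : ∀ j : ℤ × ℤ, (1 : ℝ) ≤ (1 + (n1 j : ℝ)) ^ 4 := fun j =>
    one_le_pow₀ (by linarith [(Nat.cast_nonneg (n1 j) : (0 : ℝ) ≤ n1 j)])
  have hβt : ∀ t ∈ Icc 0 T, β * t ≤ p.s / 2 := fun t ht =>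
    (mul_le_mul_of_nonneg_left ht.2 hβ).trans hβT
  have htA : ∀ t ∈ Icc 0 T, t * p.As ≤ 1 / 2 := fun t ht =>
    (mul_le_mul_of_nonneg_right ht.2 hAs).trans hTA
  have hW : ∀ t ∈ Icc 0 T, ∀ j, Wt p β t j ≤ V j / (1 + (n1 j : ℝ)) ^ 4 := fun t ht j =>
    (hWTB p hp β t hβ ht.1 (hβt t ht)).2.2.2.2.2 j
  have hWV : ∀ j, V j / (1 + (n1 j : ℝ)) ^ 4 ≤ V j := fun j =>
    div_le_self (hVp j).le (hn j)
  have hxb : ∀ t ∈ Icc 0 T, ∀ j, ‖x t j‖ ≤ R * V j := by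
    intro t ht j
    refine (hB t ht j).trans (mul_le_mul_of_nonneg_left ?_ hR)
    exact (((hWTB p hp β t hβ ht.1 (hβt t ht)).1 j).2.2.trans (hW t ht j)).trans (hWV j)
  have hrow : ∀ (P : ℝ → ℤ → ℤ → ℤ → ℂ), (∀ m l, ∃ C : ℝ, ∀ l',
      ContinuousOn (fun t => P t m l l') (Icc 0 T) ∧ ∀ t ∈ Icc 0 T, ‖P t m l l'‖ ≤ C) →
      ∀ m l, ContinuousOn (fun t => ∑' l', P t m l l' * x t (m, l')) (Icc 0 T) := by
    intro P hP m l
    obtain ⟨C, hC⟩ := hP m l
    refine continuousOn_tsum (u := fun l' => |C| * (R * V (m, l')))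
      (fun l' => (hC l').1.mul (hx _)) ?_ ?_
    · exact ((hVs.comp_injective (Prod.mk_right_injective m)).mul_left R).mul_left |C|
    · intro l' t ht
      rw [norm_mul]
      exact mul_le_mul (((hC l').2 t ht).trans (le_abs_self C)) (hxb t ht _) (norm_nonneg _)
        (abs_nonneg _)
  have hGl : ContinuousOn (fun t => Gl p t (x t) k) (Icc 0 T) := by
    refine hrow (fun t m l l' => Rm p t m l l') (fun m l => ?_) k.1 k.2
    obtain ⟨C, hC⟩ := hPCN p hp T m l hT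
    exact ⟨C, fun l' => ⟨(hC l').2.1, fun t ht => ((hC l').2.2 t ht).2⟩⟩
  have hYv : ∀ j, ContinuousOn (fun t => Yv p t (x t) j) (Icc 0 T) := by
    intro j
    refine continuousOn_const.mul
      (hrow (fun t m l l' => Pm p t m l l') (fun m l => ?_) j.1 j.2)
    obtain ⟨C, hC⟩ := hPCN p hp T m l hT
    exact ⟨C, fun l' => ⟨(hC l').1, fun t ht => ((hC l').2.2 t ht).1⟩⟩
  have hSl : ∀ l, Continuous (fun t => Sl p t l) := fun l =>
    continuous_iff_continuousAt.2 fun t => ((hVR p hp).2.2.2.1 t l).continuousAt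
  have hxh : ∀ j, ContinuousOn (fun t => xh p t (x t) j) (Icc 0 T) := by
    intro j
    refine (hx j).add ?_
    by_cases h : j.1 = 0
    · simp only [if_pos h]
      exact (hSl j.2).continuousOn
    · simp only [if_neg h]
      exact continuousOn_const
  have hxhb : ∀ t ∈ Icc 0 T, ∀ j, ‖xh p t (x t) j‖ ≤ R + (p.As + ‖p.A 0‖) := by
    intro t ht j
    unfold xh
    refine (norm_add_le _ _).trans (add_le_add ?_ ?_)
    · refine (hxb t ht j).trans ?_
      have := mul_le_mul_of_nonneg_left (hV1 j) hR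
      rwa [mul_one] at this
    · by_cases h : j.1 = 0
      · rw [if_pos h]
        exact (((hVR p hp).1 t j.2 ht.1).1).trans (CTG_A hp _)
      · rw [if_neg h, norm_zero]
        have := norm_nonneg (p.A 0)
        positivity
  have hYb : ∀ t ∈ Icc 0 T, ∀ j, ‖Yv p t (x t) j‖ ≤ 2 * R * (V j / (1 + (n1 j : ℝ)) ^ 4) := by
    intro t ht j
    refine ((hYB p hp β t R (x t) hβ ht.1 (hβt t ht) (htA t ht) hR (hB t ht)).2.2.2 j).trans ?_
    exact mul_le_mul_of_nonneg_left (hW t ht j) (by positivity)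
  have hGb : ContinuousOn (fun t => Gb p t (x t) k) (Icc 0 T) := by
    refine continuousOn_tsum
      (u := fun j => (n1 k : ℝ) * (2 * R) * (R + (p.As + ‖p.A 0‖)) * V j)
      (fun j => continuousOn_const.mul ((hYv j).mul (hxh _))) (hVs.mul_left _) ?_
    intro j t ht
    rw [norm_mul, norm_mul, Complex.norm_intCast, CTG_cr]
    have e1 : |((cr j k : ℤ) : ℝ)| ≤ n1 j * n1 k := abs_cr_le_n1 j k
    have e2 := hYb t ht j
    have e3 := hxhb t ht (k - j)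
    have hA0 := norm_nonneg (p.A 0)
    have hq : (0 : ℝ) < (1 + (n1 j : ℝ)) ^ 4 := lt_of_lt_of_le one_pos (hn j)
    have e4 : (n1 j : ℝ) * (V j / (1 + (n1 j : ℝ)) ^ 4) ≤ V j := by
      rw [mul_div_assoc', div_le_iff₀ hq, mul_comm]
      refine mul_le_mul_of_nonneg_left ?_ (hVp j).le
      have h0 : (0 : ℝ) ≤ n1 j := Nat.cast_nonneg _
      calc (n1 j : ℝ) ≤ (1 + (n1 j : ℝ)) ^ 1 := by linarith
        _ ≤ (1 + (n1 j : ℝ)) ^ 4 := pow_le_pow_right₀ (by linarith) (by norm_num)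
    calc |((cr j k : ℤ) : ℝ)| * (‖Yv p t (x t) j‖ * ‖xh p t (x t) (k - j)‖) ≤
          (n1 j * n1 k) * ((2 * R * (V j / (1 + (n1 j : ℝ)) ^ 4)) *
            (R + (p.As + ‖p.A 0‖))) := by
          refine mul_le_mul e1 ?_ (by positivity) (by positivity)
          exact mul_le_mul e2 e3 (norm_nonneg _) (by
            have := hVp j
            positivity)
      _ = (n1 k : ℝ) * (2 * R) * (R + (p.As + ‖p.A 0‖)) *
            ((n1 j : ℝ) * (V j / (1 + (n1 j : ℝ)) ^ 4)) := by ring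
      _ ≤ (n1 k : ℝ) * (2 * R) * (R + (p.As + ‖p.A 0‖)) * V j :=
          mul_le_mul_of_nonneg_left e4 (by positivity)
  exact ((continuousOn_const.mul hGl).neg).sub hGb

end Pool.SQGA
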