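import Pool.Agent.Work.MP_a2fcf1_an_ar.I1

set_option autoImplicit false

/-! # MP_a2fcf1_an, block CVA: the algebra of convolution (helper78) -/

namespace Pool.SQGA

noncomputable section

theorem p_CVA (hC : Stmt_FSC) (hM : Stmt_FSM) : Stmt_CVA := by
  have inj : ∀ a b : ℤ → ℂ, S1 a → S1 b → (∀ y, fn a y = fn b y) → a = b := by
    intro a b ha hb h
    have hab : fn a = fn b := funext h
    ext l
    rw [← (hC a ha).2.2.2 l, ← (hC b hb).2.2.2 l, hab]
  refine ⟨?_, ?_, ?_, inj, ?_⟩
  · intro a b _ _
    ext l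
    unfold cv
    rw [← (Equiv.subLeft l).tsum_eq fun j => b j * a (l - j)]
    refine tsum_congr fun j => ?_
    simp only [Equiv.subLeft_apply, sub_sub_cancel]
    ring
  · intro a b c ha hb hc
    have hab := hM a b ha hb
    have hbc := hM b c hb hc
    have h1 := hM (cv a b) c hab.1 hc
    have h2 := hM a (cv b c) ha hbc.1
    refine inj _ _ h1.1 h2.1 fun y => ?_
    rw [h1.2.2, h2.2.2, hab.2.2, hbc.2.2, mul_assoc]
  · intro a
    constructor
    · ext l
      unfold cv
      rw [tsum_eq_single 0 fun j hj => by simp [dl, hj]]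
      simp [dl]
    · ext l
      unfold cv
      rw [tsum_eq_single l fun j hj => by simp [dl, sub_eq_zero, hj.symm]]
      simp [dl]
  · intro a b ha hb h l
    have hs := (hM a b ha hb).2.1 l
    refine (norm_tsum_le_tsum_norm hs).trans (hs.tsum_le_tsum (fun j => ?_) ha)
    rw [norm_mul]
    exact mul_le_of_le_one_right (norm_nonneg _) (h _)

end

end Pool.SQGA
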