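import Pool.Agent.Work.MP_a2fcf1_an_ar.I3

/-! # Block DEC: decay of the physical coefficients (MP_a2fcf1_an) -/

set_option autoImplicit false

namespace Pool.SQGA

open Set MeasureTheory
open Pool.Agent.Work.MP_a2fcf1_an_h64 (cr sc eu n1)

noncomputable section

/-- the polynomial weight -/
def DEC_w (q : ℕ) (l : ℤ) : ℝ := (1 + |(l : ℝ)|) ^ q

/-- finite moments -/
def DEC_MS (q : ℕ) (a : ℤ → ℂ) : Prop := Summable fun l => DEC_w q l * ‖a l‖

/-- the moments -/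
def DEC_M (q : ℕ) (a : ℤ → ℂ) : ℝ := ∑' l, DEC_w q l * ‖a l‖

theorem DEC_one (q : ℕ) (l : ℤ) : 1 ≤ DEC_w q l :=
  one_le_pow₀ (by linarith [abs_nonneg (l : ℝ)])

theorem DEC_pos (q : ℕ) (l : ℤ) : 0 < DEC_w q l := zero_lt_one.trans_le (DEC_one q l)

theorem DEC_mul (q : ℕ) (i j : ℤ) : DEC_w q (i + j) ≤ DEC_w q i * DEC_w q j := by
  unfold DEC_w
  rw [← mul_pow]
  refine pow_le_pow_left₀ (by positivity) ?_ q
  push_cast
  have h1 := abs_add_le (i : ℝ) (j : ℝ)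
  have h2 := mul_nonneg (abs_nonneg (i : ℝ)) (abs_nonneg (j : ℝ))
  nlinarith

theorem DEC_le {q r : ℕ} (h : q ≤ r) (l : ℤ) : DEC_w q l ≤ DEC_w r l :=
  pow_le_pow_right₀ (by linarith [abs_nonneg (l : ℝ)]) h

theorem DEC_nn (q : ℕ) (a : ℤ → ℂ) (l : ℤ) : 0 ≤ DEC_w q l * ‖a l‖ :=
  mul_nonneg (DEC_pos q l).le (norm_nonneg _)

theorem DEC_MS_le {q r : ℕ} (h : q ≤ r) {a : ℤ → ℂ} (ha : DEC_MS r a) : DEC_MS q a :=
  Summable.of_nonneg_of_le (DEC_nn q a)
    (fun l => mul_le_mul_of_nonneg_right (DEC_le h l) (norm_nonneg _)) ha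

theorem DEC_M_le {q r : ℕ} (h : q ≤ r) {a : ℤ → ℂ} (ha : DEC_MS r a) : DEC_M q a ≤ DEC_M r a :=
  (DEC_MS_le h ha).tsum_le_tsum
    (fun l => mul_le_mul_of_nonneg_right (DEC_le h l) (norm_nonneg _)) ha

theorem DEC_M_nn (q : ℕ) (a : ℤ → ℂ) : 0 ≤ DEC_M q a := tsum_nonneg (DEC_nn q a)

theorem DEC_S1 {q : ℕ} {a : ℤ → ℂ} (ha : DEC_MS q a) : S1 a :=
  Summable.of_nonneg_of_le (fun _ => norm_nonneg _)
    (fun l => le_mul_of_one_le_left (norm_nonneg _) (DEC_one q l)) ha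

/-- the shear `(l, j) ↦ (j, l - j)` -/
def DEC_e : ℤ × ℤ ≃ ℤ × ℤ where
  toFun x := (x.2, x.1 - x.2)
  invFun x := (x.2 + x.1, x.1)
  left_inv x := by ext <;> simp
  right_inv x := by ext <;> simp

/-- the moments are submultiplicative -/
theorem DEC_cv (q : ℕ) (a b : ℤ → ℂ) (ha : DEC_MS q a) (hb : DEC_MS q b) :
    DEC_MS q (cv a b) ∧ DEC_M q (cv a b) ≤ DEC_M q a * DEC_M q b := by
  have hP : Summable fun x : ℤ × ℤ => (DEC_w q x.1 * ‖a x.1‖) * (DEC_w q x.2 * ‖b x.2‖) :=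
    Summable.mul_of_nonneg ha hb (DEC_nn q a) (DEC_nn q b)
  set F : ℤ × ℤ → ℝ := fun x => (DEC_w q x.2 * ‖a x.2‖) * (DEC_w q (x.1 - x.2) * ‖b (x.1 - x.2)‖)
    with hFdef
  have hF : Summable F := (DEC_e.summable_iff (f := fun x : ℤ × ℤ =>
    (DEC_w q x.1 * ‖a x.1‖) * (DEC_w q x.2 * ‖b x.2‖))).2 hP
  have hFt : ∑' x, F x = DEC_M q a * DEC_M q b := by
    have h1 : ∑' x, F x = ∑' x : ℤ × ℤ, (DEC_w q x.1 * ‖a x.1‖) * (DEC_w q x.2 * ‖b x.2‖) :=
      DEC_e.tsum_eq fun x : ℤ × ℤ => (DEC_w q x.1 * ‖a x.1‖) * (DEC_w q x.2 * ‖b x.2‖)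
    rw [h1]
    exact (Summable.tsum_mul_tsum ha hb hP).symm
  have hle : ∀ l j, ‖a j * b (l - j)‖ ≤ F (l, j) := by
    intro l j
    rw [norm_mul]
    have e1 : ‖a j‖ ≤ DEC_w q j * ‖a j‖ := le_mul_of_one_le_left (norm_nonneg _) (DEC_one q j)
    have e2 : ‖b (l - j)‖ ≤ DEC_w q (l - j) * ‖b (l - j)‖ :=
      le_mul_of_one_le_left (norm_nonneg _) (DEC_one q _)
    exact mul_le_mul e1 e2 (norm_nonneg _) (DEC_nn q a j)
  have hsum : ∀ l, Summable fun j => ‖a j * b (l - j)‖ := fun l =>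
    Summable.of_nonneg_of_le (fun _ => norm_nonneg _) (hle l) (hF.prod_factor l)
  have hle2 : ∀ l j, DEC_w q l * ‖a j * b (l - j)‖ ≤ F (l, j) := by
    intro l j
    rw [norm_mul]
    have h := DEC_mul q j (l - j)
    rw [show j + (l - j) = l by ring] at h
    calc DEC_w q l * (‖a j‖ * ‖b (l - j)‖)
        ≤ (DEC_w q j * DEC_w q (l - j)) * (‖a j‖ * ‖b (l - j)‖) :=
          mul_le_mul_of_nonneg_right h (by positivity)
      _ = F (l, j) := by simp only [hFdef]; ring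
  have hmain : ∀ l, DEC_w q l * ‖cv a b l‖ ≤ ∑' j, F (l, j) := by
    intro l
    calc DEC_w q l * ‖cv a b l‖ ≤ DEC_w q l * ∑' j, ‖a j * b (l - j)‖ :=
          mul_le_mul_of_nonneg_left (norm_tsum_le_tsum_norm (hsum l)) (DEC_pos q l).le
      _ = ∑' j, DEC_w q l * ‖a j * b (l - j)‖ := tsum_mul_left.symm
      _ ≤ ∑' j, F (l, j) := ((hsum l).mul_left _).tsum_le_tsum (hle2 l) (hF.prod_factor l)
  have hWS : DEC_MS q (cv a b) := Summable.of_nonneg_of_le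
    (DEC_nn q _) hmain hF.prod
  refine ⟨hWS, ?_⟩
  calc DEC_M q (cv a b) ≤ ∑' l, ∑' j, F (l, j) := Summable.tsum_le_tsum hmain hWS hF.prod
    _ = ∑' x, F x := hF.tsum_prod.symm
    _ = DEC_M q a * DEC_M q b := hFt

/-- convolution with a bounded sequence converges -/
theorem DEC_sum (a b : ℤ → ℂ) (B : ℝ) (ha : S1 a) (hb : ∀ l, ‖b l‖ ≤ B) (l : ℤ) :
    Summable fun j => a j * b (l - j) := by
  refine Summable.of_norm_bounded (g := fun j => B * ‖a j‖) (Summable.mul_left B ha) fun j => ?_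
  rw [norm_mul, mul_comm]
  exact mul_le_mul_of_nonneg_right (hb _) (norm_nonneg _)

/-- the derivation rule -/
theorem DEC_der (hCVA : Stmt_CVA) (e V f : ℤ → ℂ) (κ : ℂ) (heS : S1 e) (he1 : ∀ l, ‖e l‖ ≤ 1)
    (hV : S1 V) (hD : ∀ j : ℤ, (j : ℂ) * e j = -κ * cv V e j) (hf : S1 f)
    (hf' : S1 fun l => (l : ℂ) * f l) (hVf : S1 (cv V f)) (l : ℤ) :
    (l : ℂ) * cv f e l = cv (fun l => (l : ℂ) * f l - κ * cv V f l) e l := by
  obtain ⟨c1, c2, _, _, c5⟩ := hCVA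
  have hb : ∀ l, ‖cv V e l‖ ≤ ∑' j, ‖V j‖ := c5 V e hV heS he1
  have s1 : Summable fun j : ℤ => ((j : ℂ) * f j) * e (l - j) := DEC_sum _ e 1 hf' he1 l
  have s2 : Summable fun j => f j * cv V e (l - j) := DEC_sum _ _ _ hf hb l
  have s3 : Summable fun j => cv V f j * e (l - j) := DEC_sum _ e 1 hVf he1 l
  have h1 : (l : ℂ) * cv f e l = ∑' j : ℤ, (((j : ℂ) * f j) * e (l - j) +
      -κ * (f j * cv V e (l - j))) := by
    unfold cv
    rw [← tsum_mul_left]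
    refine tsum_congr fun j => ?_
    have h2 : ((l - j : ℤ) : ℂ) * e (l - j) = -κ * cv V e (l - j) := hD (l - j)
    have h3 : (l : ℂ) * (f j * e (l - j)) =
        ((j : ℂ) * f j) * e (l - j) + f j * (((l - j : ℤ) : ℂ) * e (l - j)) := by
      push_cast
      ring
    rw [h3, h2]
    unfold cv
    ring
  have h4 : cv f (cv V e) = cv (cv V f) e := by
    rw [← c2 f V e hf hV heS, c1 f V hf hV]
  rw [h1, s1.tsum_add (s2.mul_left _), tsum_mul_left]
  have h5 : ∑' j, f j * cv V e (l - j) = cv (cv V f) e l := by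
    rw [← h4]
    rfl
  rw [h5]
  have h6 : cv (fun l => (l : ℂ) * f l - κ * cv V f l) e l =
      ∑' j : ℤ, (((j : ℂ) * f j) * e (l - j) + -κ * (cv V f j * e (l - j))) := by
    show ∑' j : ℤ, ((j : ℂ) * f j - κ * cv V f j) * e (l - j) = _
    refine tsum_congr fun j => ?_
    ring
  rw [h6, s1.tsum_add (s3.mul_left _), tsum_mul_left]
  rfl

/-- the moments of the convolution with the phase -/
theorem DEC_mom (hCVA : Stmt_CVA) (e V : ℤ → ℂ) (κ : ℂ) (q : ℕ) (K : ℝ) (heS : S1 e)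
    (he1 : ∀ l, ‖e l‖ ≤ 1) (hV : DEC_MS q V) (hVK : DEC_M q V ≤ K)
    (hD : ∀ j : ℤ, (j : ℂ) * e j = -κ * cv V e j) :
    ∀ r ≤ q, ∀ f : ℤ → ℂ, DEC_MS r f → ∀ l, DEC_w r l * ‖cv f e l‖ ≤
      (2 + ‖κ‖ * K) ^ r * DEC_M r f := by
  have hK : 0 ≤ K := (DEC_M_nn q V).trans hVK
  intro r
  induction r with
  | zero =>
    intro _ f hf l
    have h1 : ‖cv f e l‖ ≤ ∑' j, ‖f j‖ := hCVA.2.2.2.2 f e (DEC_S1 hf) heS he1 l
    have h2 : DEC_M 0 f = ∑' j, ‖f j‖ := by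
      unfold DEC_M DEC_w
      simp
    rw [h2]
    unfold DEC_w
    simpa using h1
  | succ r ih =>
    intro hr f hf l
    have hfr : DEC_MS r f := DEC_MS_le (Nat.le_succ r) hf
    have hVr : DEC_MS r V := DEC_MS_le (by omega) hV
    have hVf := DEC_cv r V f hVr hfr
    have hnorm : ∀ l : ℤ, ‖(l : ℂ) * f l‖ = |(l : ℝ)| * ‖f l‖ := by
      intro l
      rw [norm_mul, Complex.norm_intCast]
    have hdle : ∀ l : ℤ, DEC_w r l * ‖(l : ℂ) * f l‖ ≤ DEC_w (r + 1) l * ‖f l‖ := by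
      intro l
      rw [hnorm]
      have h1 : DEC_w (r + 1) l = DEC_w r l * (1 + |(l : ℝ)|) := by
        unfold DEC_w
        rw [pow_succ]
      rw [h1, mul_assoc]
      refine mul_le_mul_of_nonneg_left ?_ (DEC_pos r l).le
      exact mul_le_mul_of_nonneg_right (by linarith) (norm_nonneg _)
    have hf' : DEC_MS r fun l => (l : ℂ) * f l :=
      Summable.of_nonneg_of_le (DEC_nn r _) hdle hf
    have hf'M : DEC_M r (fun l => (l : ℂ) * f l) ≤ DEC_M (r + 1) f :=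
      Summable.tsum_le_tsum hdle hf' hf
    set g : ℤ → ℂ := fun l => (l : ℂ) * f l - κ * cv V f l with hg
    have hgle : ∀ l : ℤ, DEC_w r l * ‖g l‖ ≤ DEC_w r l * ‖(l : ℂ) * f l‖ +
        ‖κ‖ * (DEC_w r l * ‖cv V f l‖) := by
      intro l
      have h1 : ‖g l‖ ≤ ‖(l : ℂ) * f l‖ + ‖κ‖ * ‖cv V f l‖ := by
        rw [← norm_mul]
        exact norm_sub_le _ _
      calc DEC_w r l * ‖g l‖ ≤ DEC_w r l * (‖(l : ℂ) * f l‖ + ‖κ‖ * ‖cv V f l‖) :=
            mul_le_mul_of_nonneg_left h1 (DEC_pos r l).le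
        _ = _ := by ring
    have hgs : Summable fun l => DEC_w r l * ‖(l : ℂ) * f l‖ +
        ‖κ‖ * (DEC_w r l * ‖cv V f l‖) := Summable.add hf' (Summable.mul_left _ hVf.1)
    have hgMS : DEC_MS r g := Summable.of_nonneg_of_le (DEC_nn r _) hgle hgs
    have hgM : DEC_M r g ≤ DEC_M (r + 1) f + ‖κ‖ * (K * DEC_M (r + 1) f) := by
      calc DEC_M r g ≤ ∑' l, (DEC_w r l * ‖(l : ℂ) * f l‖ + ‖κ‖ * (DEC_w r l * ‖cv V f l‖)) :=
            Summable.tsum_le_tsum hgle hgMS hgs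
        _ = DEC_M r (fun l => (l : ℂ) * f l) + ‖κ‖ * DEC_M r (cv V f) := by
            rw [Summable.tsum_add hf' (Summable.mul_left _ hVf.1), tsum_mul_left]
            rfl
        _ ≤ DEC_M (r + 1) f + ‖κ‖ * (K * DEC_M (r + 1) f) := by
            refine add_le_add hf'M (mul_le_mul_of_nonneg_left ?_ (norm_nonneg _))
            refine hVf.2.trans ?_
            exact mul_le_mul ((DEC_M_le (by omega) hV).trans hVK)
              (DEC_M_le (Nat.le_succ r) hf) (DEC_M_nn _ _) hK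
    have hder := DEC_der hCVA e V f κ heS he1 (DEC_S1 hVr) hD (DEC_S1 hfr) (DEC_S1 hf')
      (DEC_S1 hVf.1) l
    have i1 := ih (by omega) f hfr l
    have i2 := ih (by omega) g hgMS l
    have h2 : DEC_w (r + 1) l * ‖cv f e l‖ =
        DEC_w r l * ‖cv f e l‖ + DEC_w r l * ‖cv g e l‖ := by
      rw [← hder, norm_mul, Complex.norm_intCast]
      unfold DEC_w
      rw [pow_succ]
      ring
    rw [h2]
    have h3 : DEC_M r f ≤ DEC_M (r + 1) f := DEC_M_le (Nat.le_succ r) hf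
    have h4 : (0 : ℝ) ≤ (2 + ‖κ‖ * K) ^ r := by positivity
    calc DEC_w r l * ‖cv f e l‖ + DEC_w r l * ‖cv g e l‖
        ≤ (2 + ‖κ‖ * K) ^ r * DEC_M r f + (2 + ‖κ‖ * K) ^ r * DEC_M r g := add_le_add i1 i2
      _ = (2 + ‖κ‖ * K) ^ r * (DEC_M r f + DEC_M r g) := by ring
      _ ≤ (2 + ‖κ‖ * K) ^ r * (DEC_M (r + 1) f +
            (DEC_M (r + 1) f + ‖κ‖ * (K * DEC_M (r + 1) f))) :=
          mul_le_mul_of_nonneg_left (add_le_add h3 hgM) h4
      _ = (2 + ‖κ‖ * K) ^ (r + 1) * DEC_M (r + 1) f := by ring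

theorem DEC_Z : Summable fun l : ℤ => 1 / (1 + |(l : ℝ)|) ^ 2 := by
  have h1 : Summable fun l : ℤ => 1 / (l : ℝ) ^ 2 := Real.summable_one_div_int_pow.2 one_lt_two
  have h2 : Summable fun l : ℤ => if l = 0 then (1 : ℝ) else 0 := by
    refine summable_of_ne_finset_zero (s := {0}) ?_
    intro l hl
    rw [Finset.mem_singleton] at hl
    exact if_neg hl
  refine Summable.of_nonneg_of_le (fun l => by positivity) (fun l => ?_) (h1.add h2)
  by_cases hl : l = 0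
  · subst hl
    simp
  · rw [if_neg hl, add_zero]
    have h3 : (0 : ℝ) < |(l : ℝ)| := abs_pos.2 (by exact_mod_cast hl)
    have h4 : (l : ℝ) ^ 2 = |(l : ℝ)| ^ 2 := (sq_abs _).symm
    rw [h4]
    refine one_div_le_one_div_of_le (by positivity) ?_
    exact pow_le_pow_left₀ h3.le (by linarith) 2

theorem DEC_n1 (m l : ℤ) : ((n1 (m, l) : ℕ) : ℝ) = |(m : ℝ)| + |(l : ℝ)| := by
  unfold n1
  push_cast [Nat.cast_natAbs]
  rfl

/-- the sum with the phase of index zero -/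
theorem DEC_zero (p : Par) (hp : p.Ok) (hEEB : Stmt_EEB) (t : ℝ) (ht : 0 ≤ t) (f : ℤ → ℂ)
    (l : ℤ) : ∑' l', ee p 0 t (l - l') * f l' = f l := by
  rw [tsum_eq_single l]
  · rw [(hEEB p hp).2.1 t _ ht]
    simp [dl]
  · intro l' hl'
    rw [(hEEB p hp).2.1 t _ ht]
    unfold dl
    rw [if_neg (sub_ne_zero.2 (Ne.symm hl')), zero_mul]

theorem p_DEC (hEED : Stmt_EED) (hEEW : Stmt_EEW) (hEEB : Stmt_EEB) (hVR : Stmt_VR)
    (hWTB : Stmt_WTB) (hOMS : Stmt_OMS) (hCVA : Stmt_CVA) : Stmt_DEC := by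
  intro s q hs
  obtain ⟨Cq, hCq, hCq'⟩ := hOMS.2.2.2.2 s q hs
  obtain ⟨C', hC', hC''⟩ := hOMS.2.2.2.2 (s / 2) (q + 2) (by linarith)
  set Z : ℝ := ∑' l : ℤ, 1 / (1 + |(l : ℝ)|) ^ 2 with hZ
  have hZ0 : 0 ≤ Z := tsum_nonneg fun l => by positivity
  refine ⟨(2 + Cq) ^ q * (C' * (Z + 1)), by positivity, ?_⟩
  intro p hp hps β t R x hβ ht hβt htA hR hx
  subst hps
  refine ⟨?_, ?_, ?_, ?_⟩
  · intro k hk
    obtain ⟨m, l⟩ := k
    have hm : m ≠ 0 := hk
    show ‖av p t x (m, l)‖ * (1 + |(l : ℝ)|) ^ q ≤ _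
    obtain ⟨w1, w2, w3, _, _, w6⟩ := hWTB p hp β t hβ ht hβt
    -- the sequence
    set f : ℤ → ℂ := fun l => x (m, l) with hf
    have hav : av p t x (m, l) = cv f (ee p m t) l := by
      unfold av cv
      refine tsum_congr fun l' => ?_
      show ee p m t (l - l') * xh p t x (m, l') = x (m, l') * ee p m t (l - l')
      unfold xh
      rw [if_neg hm, add_zero, mul_comm]
    set E : ℝ := R * Ef p t * Real.exp (-(p.s / 2 * |(m : ℝ)|)) with hE
    have hE0 : 0 ≤ E := mul_nonneg (mul_nonneg hR w3.1.le) (Real.exp_pos _).le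
    have hfle : ∀ l : ℤ, DEC_w q l * ‖f l‖ ≤ E * C' * (1 / (1 + |(l : ℝ)|) ^ 2) := by
      intro l
      have h1 : ‖f l‖ ≤ R * (Ef p t * Wt p β t (m, l)) := by
        rw [← w2 (m, l) hm]
        exact hx (m, l)
      have h2 : Wt p β t (m, l) ≤ Real.exp (-(p.s / 2 * |(m : ℝ)|)) *
          (Real.exp (-(p.s / 2 * |(l : ℝ)|)) / (1 + |(l : ℝ)|) ^ 4) := by
        refine (w6 (m, l)).trans ?_
        rw [DEC_n1]
        have e1 : Real.exp (-(p.s / 2 * (|(m : ℝ)| + |(l : ℝ)|))) =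
            Real.exp (-(p.s / 2 * |(m : ℝ)|)) * Real.exp (-(p.s / 2 * |(l : ℝ)|)) := by
          rw [← Real.exp_add]
          congr 1
          ring
        rw [e1, mul_div_assoc]
        refine mul_le_mul_of_nonneg_left ?_ (Real.exp_pos _).le
        refine div_le_div_of_nonneg_left (Real.exp_pos _).le (by positivity) ?_
        refine pow_le_pow_left₀ (by positivity) ?_ 4
        linarith [abs_nonneg (m : ℝ)]
      have h3 : DEC_w q l * (Real.exp (-(p.s / 2 * |(l : ℝ)|)) / (1 + |(l : ℝ)|) ^ 4) ≤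
          C' * (1 / (1 + |(l : ℝ)|) ^ 2) := by
        have h4 := hC'' l
        unfold om at h4
        have h5 : (0 : ℝ) < 1 + |(l : ℝ)| := by positivity
        have h6 : Real.exp (-(p.s / 2 * |(l : ℝ)|)) = (Real.exp (p.s / 2 * |(l : ℝ)|))⁻¹ :=
          Real.exp_neg _
        rw [h6]
        have h7 : 0 < Real.exp (p.s / 2 * |(l : ℝ)|) := Real.exp_pos _
        unfold DEC_w
        have h8 : (1 + |(l : ℝ)|) ^ q * ((Real.exp (p.s / 2 * |(l : ℝ)|))⁻¹ /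
            (1 + |(l : ℝ)|) ^ 4) = (1 + |(l : ℝ)|) ^ (q + 2) /
              (Real.exp (p.s / 2 * |(l : ℝ)|) * (1 + |(l : ℝ)|) ^ 4) / (1 + |(l : ℝ)|) ^ 2 := by
          rw [pow_add]
          field_simp
        rw [h8, mul_one_div]
        refine div_le_div_of_nonneg_right ?_ (by positivity)
        rw [div_le_iff₀ (by positivity)]
        exact h4
      calc DEC_w q l * ‖f l‖ ≤ DEC_w q l * (R * (Ef p t * Wt p β t (m, l))) :=
            mul_le_mul_of_nonneg_left h1 (DEC_pos q l).le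
        _ ≤ DEC_w q l * (R * (Ef p t * (Real.exp (-(p.s / 2 * |(m : ℝ)|)) *
              (Real.exp (-(p.s / 2 * |(l : ℝ)|)) / (1 + |(l : ℝ)|) ^ 4)))) := by
            refine mul_le_mul_of_nonneg_left ?_ (DEC_pos q l).le
            refine mul_le_mul_of_nonneg_left ?_ hR
            exact mul_le_mul_of_nonneg_left h2 w3.1.le
        _ = E * (DEC_w q l * (Real.exp (-(p.s / 2 * |(l : ℝ)|)) / (1 + |(l : ℝ)|) ^ 4)) := by
            rw [hE]
            ring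
        _ ≤ E * (C' * (1 / (1 + |(l : ℝ)|) ^ 2)) := mul_le_mul_of_nonneg_left h3 hE0
        _ = _ := by ring
    have hZs : Summable fun l : ℤ => E * C' * (1 / (1 + |(l : ℝ)|) ^ 2) :=
      DEC_Z.mul_left _
    have hfMS : DEC_MS q f := Summable.of_nonneg_of_le (DEC_nn q _) hfle hZs
    have hfM : DEC_M q f ≤ E * C' * Z := by
      have h := Summable.tsum_le_tsum hfle hfMS hZs
      rw [tsum_mul_left] at h
      exact h
    -- the phase
    obtain ⟨v1, v2, v3, v4, v5, v6⟩ := hVR p hp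
    obtain ⟨_, _, _, u1, u2, _⟩ := v6 t ht
    set V : ℤ → ℂ := fun l => Complex.I * ((l : ℂ) * Vl p t l) with hV
    have hVle : ∀ l : ℤ, DEC_w q l * ‖V l‖ ≤ Cq * (om p.s l * ‖(l : ℂ) * Vl p t l‖) := by
      intro l
      have h1 : ‖V l‖ = ‖(l : ℂ) * Vl p t l‖ := by
        rw [hV]
        simp only
        rw [norm_mul, Complex.norm_I, one_mul]
      rw [h1, ← mul_assoc]
      exact mul_le_mul_of_nonneg_right (hCq' l) (norm_nonneg _)
    have hVs : Summable fun l : ℤ => Cq * (om p.s l * ‖(l : ℂ) * Vl p t l‖) :=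
      Summable.mul_left _ u1
    have hVMS : DEC_MS q V := Summable.of_nonneg_of_le (DEC_nn q _) hVle hVs
    have hVM : DEC_M q V ≤ Cq := by
      have h := Summable.tsum_le_tsum hVle hVMS hVs
      rw [tsum_mul_left] at h
      have h2 : Cq * nw p.s (fun l => (l : ℂ) * Vl p t l) ≤ Cq * (1 / 2) :=
        mul_le_mul_of_nonneg_left (u2.trans htA) hCq.le
      have h3 : Cq * (1 / 2) ≤ Cq := by linarith
      exact (h.trans h2).trans h3
    have heS : S1 (ee p m t) := hOMS.2.2.2.1 p.s _ hp.s_pos.le (hEEW p hp m t ht).1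
    have he1 : ∀ l, ‖ee p m t l‖ ≤ 1 := fun l => ((hEEB p hp).1 m t l ht).1
    have hmom := DEC_mom hCVA (ee p m t) V ((m : ℂ) * (p.N : ℂ)) q Cq heS he1 hVMS hVM
      (fun j => hEED p hp m t j ht) q le_rfl f hfMS l
    have hκ : ‖(m : ℂ) * (p.N : ℂ)‖ = p.N * |(m : ℝ)| := by
      rw [norm_mul, Complex.norm_intCast, Complex.norm_natCast, mul_comm]
    rw [hκ] at hmom
    rw [hav, mul_comm]
    refine hmom.trans ?_
    have hNm : 0 ≤ (p.N : ℝ) * |(m : ℝ)| := by positivity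
    have h1 : (2 + (p.N : ℝ) * |(m : ℝ)| * Cq) ^ q ≤
        ((2 + Cq) * (1 + (p.N : ℝ) * |(m : ℝ)|)) ^ q := by
      refine pow_le_pow_left₀ (by positivity) ?_ q
      nlinarith
    calc (2 + (p.N : ℝ) * |(m : ℝ)| * Cq) ^ q * DEC_M q f
        ≤ ((2 + Cq) * (1 + (p.N : ℝ) * |(m : ℝ)|)) ^ q * (E * C' * Z) :=
          mul_le_mul h1 hfM (DEC_M_nn _ _) (by positivity)
      _ ≤ ((2 + Cq) * (1 + (p.N : ℝ) * |(m : ℝ)|)) ^ q * (E * C' * (Z + 1)) := by
          refine mul_le_mul_of_nonneg_left ?_ (by positivity)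
          exact mul_le_mul_of_nonneg_left (by linarith) (by positivity)
      _ = (2 + Cq) ^ q * (C' * (Z + 1)) * (1 + (p.N : ℝ) * |(m : ℝ)|) ^ q * E := by
          rw [mul_pow]
          ring
  · rintro ⟨m, l⟩ hk
    have hm : m = 0 := hk
    subst hm
    show ∑' l', ee p 0 t (l - l') * xh p t x (0, l') = Sl p t l + x (0, l)
    rw [DEC_zero p hp hEEB t ht (fun l' => xh p t x (0, l')) l]
    unfold xh
    rw [if_pos rfl, add_comm]
  · rintro ⟨m, l⟩ hk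
    have hm : m ≠ 0 := hk
    unfold ax av
    refine tsum_congr fun l' => ?_
    show ee p m t (l - l') * x (m, l') = ee p m t (l - l') * xh p t x (m, l')
    unfold xh
    rw [if_neg hm, add_zero]
  · rintro ⟨m, l⟩ hk
    have hm : m = 0 := hk
    subst hm
    exact DEC_zero p hp hEEB t ht (fun l' => x (0, l')) l

end

end Pool.SQGA
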