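import Pool.Agent.Work.MP_a2fcf1_an_ar.I1

/-! # Block EEB: the phase has modulus one, conjugation, `m = 0`, `t = 0` -/

set_option autoImplicit false

namespace Pool.SQGA

open Set MeasureTheory

noncomputable section

theorem EEB_e1_norm (l : ℤ) (y : ℝ) : ‖e1 l y‖ = 1 := by
  unfold e1
  have h : Complex.I * ((l : ℂ) * (y : ℂ)) = (((l : ℝ) * y : ℝ) : ℂ) * Complex.I := by
    push_cast; ring
  rw [h, Complex.norm_exp_ofReal_mul_I]

theorem EEB_e1_conj (l : ℤ) (y : ℝ) : (starRingEnd ℂ) (e1 l y) = e1 (-l) y := by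
  unfold e1
  rw [← Complex.exp_conj]
  congr 1
  simp

theorem EEB_cf_norm_le (f : ℝ → ℂ) (hf : ∀ y, ‖f y‖ ≤ 1) (l : ℤ) : ‖cf f l‖ ≤ 1 := by
  unfold cf
  have h2 : (0 : ℝ) < 2 * Real.pi := by positivity
  have h1 : ‖∫ y in (0 : ℝ)..(2 * Real.pi), f y * e1 (-l) y‖ ≤ 1 * |2 * Real.pi - 0| := by
    apply intervalIntegral.norm_integral_le_of_norm_le_const
    intro y _
    rw [norm_mul, EEB_e1_norm, mul_one]
    exact hf y
  rw [sub_zero, abs_of_pos h2, one_mul] at h1
  rw [norm_mul]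
  have h3 : ‖(1 / (2 * (Real.pi : ℂ)) : ℂ)‖ = 1 / (2 * Real.pi) := by
    rw [norm_div, norm_one, norm_mul, Complex.norm_real, Real.norm_eq_abs,
      abs_of_pos Real.pi_pos]
    norm_num
  rw [h3]
  calc 1 / (2 * Real.pi) * ‖∫ y in (0 : ℝ)..(2 * Real.pi), f y * e1 (-l) y‖
      ≤ 1 / (2 * Real.pi) * (2 * Real.pi) := by
        apply mul_le_mul_of_nonneg_left h1 (by positivity)
    _ = 1 := by field_simp

theorem EEB_cf_conj (f : ℝ → ℂ) (l : ℤ) :
    (starRingEnd ℂ) (cf f l) = cf (fun y => (starRingEnd ℂ) (f y)) (-l) := by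
  unfold cf
  rw [map_mul]
  congr 1
  · simp [Complex.conj_ofNat]
  · rw [intervalIntegral.integral_of_le (by positivity),
      intervalIntegral.integral_of_le (by positivity), ← integral_conj]
    congr 1
    funext y
    rw [map_mul, EEB_e1_conj]

theorem EEB_dl_S1 : S1 dl := by
  unfold S1
  apply summable_of_ne_finset_zero (s := {0})
  intro b hb
  have : b ≠ 0 := by simpa using hb
  simp [dl, this]

theorem EEB_fn_dl (y : ℝ) : fn dl y = 1 := by
  unfold fn
  rw [tsum_eq_single 0]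
  · simp [dl, e1]
  · intro b hb
    simp [dl, hb]

theorem EEB_cf_one (h : Stmt_FSC) (l : ℤ) : cf (fun _ => (1 : ℂ)) l = dl l := by
  have h1 := (h dl EEB_dl_S1).2.2.2 l
  have h2 : fn dl = fun _ => (1 : ℂ) := by
    funext y
    exact EEB_fn_dl y
  rwa [h2] at h1

theorem p_EEB (hVR : Stmt_VR) (hFSC : Stmt_FSC) : Stmt_EEB := by
  intro p hp
  obtain ⟨-, hV0, -, -, -, hre⟩ := hVR p hp
  have hreal : ∀ t, 0 ≤ t → ∀ y, ∃ v : ℝ, fn (Vl p t) y = (v : ℂ) := by
    intro t ht y
    have := (hre t ht).2.2.2.2.2 y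
    refine ⟨(fn (Vl p t) y).re, ?_⟩
    apply Complex.ext
    · simp
    · simp [this]
  refine ⟨?_, ?_, ?_⟩
  · intro m t j ht
    constructor
    · unfold ee
      apply EEB_cf_norm_le
      intro y
      obtain ⟨v, hv⟩ := hreal t ht y
      rw [hv]
      have h : -(Complex.I * ((m : ℂ) * (p.N : ℂ)) * (v : ℂ))
          = ((-((m : ℝ) * p.N * v) : ℝ) : ℂ) * Complex.I := by
        push_cast; ring
      rw [h, Complex.norm_exp_ofReal_mul_I]
    · unfold ee
      rw [EEB_cf_conj]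
      congr 1
      funext y
      obtain ⟨v, hv⟩ := hreal t ht y
      rw [← Complex.exp_conj, hv]
      congr 1
      simp
  · intro t j _
    unfold ee
    simp only [Int.cast_zero, zero_mul, mul_zero, neg_zero, Complex.exp_zero]
    exact EEB_cf_one hFSC j
  · intro m j
    unfold ee
    have h0 : ∀ y, fn (Vl p 0) y = 0 := by
      intro y
      unfold fn
      have : (fun l => Vl p 0 l * e1 l y) = fun _ => (0 : ℂ) := by
        funext l
        rw [hV0 l, zero_mul]
      rw [this, tsum_zero]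
    simp only [h0, mul_zero, neg_zero, Complex.exp_zero]
    exact EEB_cf_one hFSC j

end

end Pool.SQGA
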