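import Pool.Agent.Work.MP_a2fcf1_an_ar.I1

set_option autoImplicit false

namespace Pool.SQGA

open Set MeasureTheory

noncomputable section

theorem EED_smul (c : ℂ) (a : ℤ → ℂ) (y : ℝ) : fn (fun l => c * a l) y = c * fn a y := by
  unfold fn
  rw [← tsum_mul_left]
  exact tsum_congr fun l => by ring

theorem p_EED (hEEW : Stmt_EEW) (hFSD : Stmt_FSD) (hFSM : Stmt_FSM) (hFSC : Stmt_FSC)
    (hOMS : Stmt_OMS) (hVR : Stmt_VR) : Stmt_EED := by
  intro p hp m t j ht
  obtain ⟨_, _, _, hS1, hpow⟩ := hOMS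
  have hs := hp.s_pos
  obtain ⟨hW, _, hfn⟩ := hEEW p hp m t ht
  have hS := hS1 p.s _ hs.le hW
  obtain ⟨C, hC, hCb⟩ := hpow p.s 1 hs
  have hD : Summable fun l : ℤ => |(l : ℝ)| * ‖ee p m t l‖ := by
    refine Summable.of_nonneg_of_le (fun l => by positivity) (fun l => ?_) (hW.mul_left C)
    have h1 := hCb l
    have h2 : |(l : ℝ)| ≤ C * om p.s l := by
      rw [pow_one] at h1
      linarith
    calc |(l : ℝ)| * ‖ee p m t l‖ ≤ (C * om p.s l) * ‖ee p m t l‖ :=
          mul_le_mul_of_nonneg_right h2 (norm_nonneg _)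
      _ = C * (om p.s l * ‖ee p m t l‖) := by ring
  obtain ⟨_, _, _, _, _, hV⟩ := hVR p hp
  obtain ⟨_, hVW, _, hVW2, _, _⟩ := hV t ht
  have hVS := hS1 p.s _ hs.le hVW
  have hVS2 := hS1 p.s _ hs.le hVW2
  have hVD : Summable fun l : ℤ => |(l : ℝ)| * ‖Vl p t l‖ := by
    refine hVS2.congr (fun l => ?_)
    rw [norm_mul]
    simp
  have hVS3 : S1 (fun l => Complex.I * ((l : ℂ) * Vl p t l)) := by
    refine hVS2.congr (fun l => ?_)
    simp
  obtain ⟨hcS, _, hcf⟩ := hFSM _ _ hVS3 hS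
  have key : ∀ y, fn (fun l => (l : ℂ) * ee p m t l) y =
      fn (fun l => (-((m : ℂ) * (p.N : ℂ))) *
        cv (fun l => Complex.I * ((l : ℂ) * Vl p t l)) (ee p m t) l) y := by
    intro y
    have h1 := hFSD _ hS hD y
    have h2 := hFSD _ hVS hVD y
    have h3 : HasDerivAt (fun y : ℝ => Complex.exp
        (-(Complex.I * ((m : ℂ) * (p.N : ℂ)) * fn (Vl p t) y)))
        (Complex.exp (-(Complex.I * ((m : ℂ) * (p.N : ℂ)) * fn (Vl p t) y)) *
          (-(Complex.I * ((m : ℂ) * (p.N : ℂ)) *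
            (Complex.I * fn (fun l => (l : ℂ) * Vl p t l) y)))) y :=
      ((h2.const_mul _).neg).cexp
    have h4 : fn (ee p m t) = fun y : ℝ => Complex.exp
        (-(Complex.I * ((m : ℂ) * (p.N : ℂ)) * fn (Vl p t) y)) := funext hfn
    rw [h4] at h1
    have h5 := h1.unique h3
    rw [EED_smul, hcf y, EED_smul, hfn y]
    have hI : Complex.I ≠ 0 := Complex.I_ne_zero
    apply mul_left_cancel₀ hI
    rw [h5]
    ring
  have hA : S1 (fun l => (l : ℂ) * ee p m t l) := by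
    refine hD.congr (fun l => ?_)
    rw [norm_mul]
    simp
  have hB : S1 (fun l => (-((m : ℂ) * (p.N : ℂ))) *
        cv (fun l => Complex.I * ((l : ℂ) * Vl p t l)) (ee p m t) l) := by
    have h0 : Summable fun l => ‖(-((m : ℂ) * (p.N : ℂ)))‖ *
        ‖cv (fun l => Complex.I * ((l : ℂ) * Vl p t l)) (ee p m t) l‖ := hcS.mul_left _
    refine h0.congr (fun l => ?_)
    rw [norm_mul]
  have hA' := (hFSC _ hA).2.2.2 j
  have hB' := (hFSC _ hB).2.2.2 j
  rw [← hA', ← hB', funext key]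

end

end Pool.SQGA
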