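import Pool.Agent.Work.MP_a2fcf1_an_ar.I1

set_option autoImplicit false

/-! # Block EEM: the phases multiply -/

namespace Pool.SQGA

theorem EEM_one_le_om (s : ℝ) (hs : 0 ≤ s) (j : ℤ) : 1 ≤ om s j := by
  have h1 : 1 ≤ Real.exp (s * |(j : ℝ)|) := Real.one_le_exp (mul_nonneg hs (abs_nonneg _))
  have h2 : 1 ≤ (1 + |(j : ℝ)|) ^ 4 := one_le_pow₀ (by linarith [abs_nonneg (j : ℝ)])
  exact one_le_mul_of_one_le_of_one_le h1 h2

theorem EEM_S1 (s : ℝ) (hs : 0 ≤ s) (a : ℤ → ℂ) (h : WS s a) : S1 a := by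
  refine Summable.of_nonneg_of_le (fun l => norm_nonneg _) (fun l => ?_) h
  have h1 := mul_le_mul_of_nonneg_right (EEM_one_le_om s hs l) (norm_nonneg (a l))
  rwa [one_mul] at h1

/-- EEM -/
theorem p_EEM (hEEW : Stmt_EEW) (hFSM : Stmt_FSM) (_hFSC : Stmt_FSC) (hCVA : Stmt_CVA) :
    Stmt_EEM := by
  intro p hp m n t ht
  obtain ⟨h1, -, h2⟩ := hEEW p hp m t ht
  obtain ⟨h3, -, h4⟩ := hEEW p hp n t ht
  obtain ⟨h5, -, h6⟩ := hEEW p hp (m + n) t ht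
  have s1 := EEM_S1 p.s hp.s_pos.le _ h1
  have s3 := EEM_S1 p.s hp.s_pos.le _ h3
  have s5 := EEM_S1 p.s hp.s_pos.le _ h5
  obtain ⟨s7, -, h8⟩ := hFSM _ _ s1 s3
  refine hCVA.2.2.2.1 _ _ s7 s5 fun y => ?_
  rw [h8, h2, h4, h6, ← Complex.exp_add]
  congr 1
  push_cast
  ring

end Pool.SQGA
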