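import Pool.Agent.Work.MP_a2fcf1_an_ar.I1

set_option autoImplicit false

/-! # Block EET (helper54): the derivative of the phase in time -/

namespace Pool.SQGA

open Set MeasureTheory

noncomputable section

/-- the primitive of the velocity of the reflected flow -/
def EET_V (p : Par) (t : ℝ) (l : ℤ) : ℂ :=
  Complex.I * ((Int.sign l : ℤ) : ℂ) * ∫ r in (0 : ℝ)..t, Sl p |r| l

theorem EET_V_eq (p : Par) {t : ℝ} (ht : 0 ≤ t) (l : ℤ) : EET_V p t l = Vl p t l := by
  unfold EET_V Vl
  congr 1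
  refine intervalIntegral.integral_congr fun r hr => ?_
  rw [uIcc_of_le ht] at hr
  show Sl p |r| l = Sl p r l
  rw [abs_of_nonneg hr.1]

theorem EET_cS (p : Par) (l : ℤ) : Continuous fun r : ℝ => Sl p |r| l := by
  unfold Sl
  refine Continuous.mul ?_ continuous_const
  refine Complex.continuous_ofReal.comp (Real.continuous_exp.comp ?_)
  exact (continuous_const.mul continuous_abs).neg

theorem EET_cU (p : Par) (l : ℤ) : Continuous fun r : ℝ => Ul p |r| l := by
  unfold Ul
  exact continuous_const.mul (EET_cS p l)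

theorem EET_V_deriv (p : Par) (t : ℝ) (l : ℤ) :
    HasDerivAt (fun t => EET_V p t l) (Ul p |t| l) t := by
  unfold EET_V Ul
  exact (intervalIntegral.integral_hasDerivAt_right ((EET_cS p l).intervalIntegrable _ _)
    ((EET_cS p l).stronglyMeasurableAtFilter _ _) (EET_cS p l).continuousAt).const_mul _

theorem EET_sign (l : ℤ) : |((Int.sign l : ℤ) : ℝ)| ≤ |(l : ℝ)| := by
  rcases lt_trichotomy l 0 with h | h | h
  · rw [Int.sign_eq_neg_one_of_neg h]
    have h1 : (1 : ℤ) ≤ |l| := Int.one_le_abs h.ne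
    have h2 : (1 : ℝ) ≤ |(l : ℝ)| := by exact_mod_cast h1
    simpa using h2
  · subst h
    simp
  · rw [Int.sign_eq_one_of_pos h]
    have h1 : (1 : ℤ) ≤ |l| := Int.one_le_abs h.ne'
    have h2 : (1 : ℝ) ≤ |(l : ℝ)| := by exact_mod_cast h1
    simpa using h2

theorem EET_V_norm (p : Par) (hS : ∀ t l, 0 ≤ t → ‖Sl p t l‖ ≤ ‖p.A l‖) (t : ℝ) (l : ℤ) :
    ‖EET_V p t l‖ ≤ |t| * (|(l : ℝ)| * ‖p.A l‖) := by
  unfold EET_V
  rw [norm_mul, norm_mul, Complex.norm_I, one_mul, Complex.norm_intCast]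
  have h1 : ‖∫ r in (0 : ℝ)..t, Sl p |r| l‖ ≤ ‖p.A l‖ * |t - 0| :=
    intervalIntegral.norm_integral_le_of_norm_le_const fun r _ => hS _ l (abs_nonneg r)
  rw [sub_zero] at h1
  calc |((Int.sign l : ℤ) : ℝ)| * ‖∫ r in (0 : ℝ)..t, Sl p |r| l‖ ≤
      |(l : ℝ)| * (‖p.A l‖ * |t|) := mul_le_mul (EET_sign l) h1 (norm_nonneg _) (abs_nonneg _)
    _ = |t| * (|(l : ℝ)| * ‖p.A l‖) := by ring

theorem EET_e1 (l : ℤ) (y : ℝ) : ‖e1 l y‖ = 1 := by
  unfold e1
  rw [Complex.norm_exp]
  simp

theorem EET_ce1 (l : ℤ) : Continuous fun y : ℝ => e1 l y := by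
  unfold e1
  refine Complex.continuous_exp.comp ?_
  exact continuous_const.mul (continuous_const.mul Complex.continuous_ofReal)

theorem EET_fn_norm {a : ℤ → ℂ} {u : ℤ → ℝ} (hu : Summable u) (h : ∀ l, ‖a l‖ ≤ u l) (y : ℝ) :
    ‖fn a y‖ ≤ ∑' l, u l := by
  unfold fn
  refine tsum_of_norm_bounded hu.hasSum fun l => ?_
  rw [norm_mul, EET_e1, mul_one]
  exact h l

theorem p_EET (hVR : Stmt_VR) (hEEW : Stmt_EEW) (hFSM : Stmt_FSM) (hFSC : Stmt_FSC)
    (hOMS : Stmt_OMS) : Stmt_EET := by
  intro p hp m j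
  obtain ⟨v1, v2, v3, v4, v5, v6⟩ := hVR p hp
  obtain ⟨o1, o2, o3, o4, o5⟩ := hOMS
  have hS : ∀ t l, 0 ≤ t → ‖Sl p t l‖ ≤ ‖p.A l‖ := fun t l ht => (v1 t l ht).1
  have hU : ∀ (t : ℝ) l, ‖Ul p |t| l‖ ≤ |(l : ℝ)| * ‖p.A l‖ := fun t l =>
    (v1 _ l (abs_nonneg t)).2.1
  have hu : Summable fun l : ℤ => |(l : ℝ)| * ‖p.A l‖ := by
    refine Summable.of_nonneg_of_le (fun l => by positivity) (fun l => ?_) hp.sum
    have h1 := o1 p.s l hp.s_pos.le
    have h2 : 0 ≤ |(l : ℝ)| * ‖p.A l‖ := by positivity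
    nlinarith
  set B : ℝ := ∑' l : ℤ, |(l : ℝ)| * ‖p.A l‖ with hB
  have hB0 : 0 ≤ B := tsum_nonneg fun l => by positivity
  have hSU : ∀ t : ℝ, S1 (Ul p |t|) := fun t =>
    Summable.of_nonneg_of_le (fun l => norm_nonneg _) (fun l => hU t l) hu
  have hSV : ∀ t : ℝ, S1 (EET_V p t) := fun t =>
    Summable.of_nonneg_of_le (fun l => norm_nonneg _) (fun l => EET_V_norm p hS t l)
      (hu.mul_left |t|)
  have hcU : ∀ t : ℝ, Continuous (fn (Ul p |t|)) := fun t => (hFSC _ (hSU t)).1
  have hcV : ∀ t : ℝ, Continuous (fn (EET_V p t)) := fun t => (hFSC _ (hSV t)).1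
  have hnU : ∀ (t : ℝ) y, ‖fn (Ul p |t|) y‖ ≤ B := fun t y => EET_fn_norm hu (hU t) y
  have hnV : ∀ (t : ℝ) y, ‖fn (EET_V p t) y‖ ≤ |t| * B := by
    intro t y
    rw [hB, ← tsum_mul_left]
    exact EET_fn_norm (hu.mul_left |t|) (fun l => EET_V_norm p hS t l) y
  have hVeq : ∀ t : ℝ, 0 ≤ t → EET_V p t = Vl p t := fun t ht => funext fun l => EET_V_eq p ht l
  -- derivative of the phase
  have hdV : ∀ (y t : ℝ), HasDerivAt (fun t => fn (EET_V p t) y) (fn (Ul p |t|) y) t := by
    intro y t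
    unfold fn
    refine hasDerivAt_tsum (u := fun l : ℤ => |(l : ℝ)| * ‖p.A l‖) hu
      (g := fun l t => EET_V p t l * e1 l y) (g' := fun l t => Ul p |t| l * e1 l y)
      (fun l t => (EET_V_deriv p t l).mul_const _) (fun l t => ?_) (y₀ := 0) ?_ t
    · rw [norm_mul, EET_e1, mul_one]
      exact hU t l
    · refine Summable.of_norm ?_
      have h1 : (fun l => ‖EET_V p 0 l * e1 l y‖) = fun l => ‖EET_V p 0 l‖ := by
        funext l
        rw [norm_mul, EET_e1, mul_one]
      rw [h1]
      exact hSV 0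
  set c : ℂ := Complex.I * ((m : ℂ) * (p.N : ℂ)) with hc
  -- the integrand and its derivative
  let G : ℝ → ℝ → ℂ := fun t y => Complex.exp (-(c * fn (EET_V p t) y)) * e1 (-j) y
  let G' : ℝ → ℝ → ℂ := fun t y =>
    Complex.exp (-(c * fn (EET_V p t) y)) * (-(c * fn (Ul p |t|) y)) * e1 (-j) y
  have hGc : ∀ t, Continuous (G t) := by
    intro t
    exact (Complex.continuous_exp.comp (continuous_const.mul (hcV t)).neg).mul (EET_ce1 _)
  have hG'c : ∀ t, Continuous (G' t) := by
    intro t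
    exact ((Complex.continuous_exp.comp (continuous_const.mul (hcV t)).neg).mul
      (continuous_const.mul (hcU t)).neg).mul (EET_ce1 _)
  have hGd : ∀ t y, HasDerivAt (fun t => G t y) (G' t y) t := by
    intro t y
    exact ((((hdV y t).const_mul c).neg).cexp).mul_const _
  have hmain : ∀ t₀ : ℝ, HasDerivAt (fun t => ∫ y in (0 : ℝ)..(2 * Real.pi), G t y)
      (∫ y in (0 : ℝ)..(2 * Real.pi), G' t₀ y) t₀ := by
    intro t₀
    refine (intervalIntegral.hasDerivAt_integral_of_dominated_loc_of_deriv_le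
      (F := G) (F' := G') (s := Metric.ball t₀ 1)
      (bound := fun _ => Real.exp (‖c‖ * ((|t₀| + 1) * B)) * (‖c‖ * B))
      (Metric.ball_mem_nhds t₀ one_pos) ?_ ?_ ?_ ?_ ?_ ?_).2
    · exact Filter.Eventually.of_forall fun t => (hGc t).aestronglyMeasurable
    · exact (hGc t₀).intervalIntegrable _ _
    · exact (hG'c t₀).aestronglyMeasurable
    · refine Filter.Eventually.of_forall fun y _ t ht => ?_
      have h1 : |t| ≤ |t₀| + 1 := by
        rw [Metric.mem_ball, Real.dist_eq] at ht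
        have h2 := abs_add_le (t - t₀) t₀
        rw [sub_add_cancel] at h2
        linarith
      show ‖Complex.exp (-(c * fn (EET_V p t) y)) * (-(c * fn (Ul p |t|) y)) * e1 (-j) y‖ ≤ _
      rw [norm_mul, norm_mul, EET_e1, mul_one, norm_neg, norm_mul]
      refine mul_le_mul ?_ (mul_le_mul_of_nonneg_left (hnU t y) (norm_nonneg _)) (by positivity)
        (by positivity)
      refine (Complex.norm_exp_le_exp_norm _).trans (Real.exp_le_exp.2 ?_)
      rw [norm_neg, norm_mul]
      refine mul_le_mul_of_nonneg_left ((hnV t y).trans ?_) (norm_nonneg _)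
      exact mul_le_mul_of_nonneg_right h1 hB0
    · exact intervalIntegrable_const
    · exact Filter.Eventually.of_forall fun y _ t _ => hGd t y
  -- the coefficients of the product
  have hcoef : ∀ t : ℝ, 0 ≤ t → cv (Ul p t) (ee p m t) j =
      (1 / (2 * (Real.pi : ℂ))) * ∫ y in (0 : ℝ)..(2 * Real.pi),
        (fn (Ul p t) y * Complex.exp (-(c * fn (Vl p t) y))) * e1 (-j) y := by
    intro t ht
    obtain ⟨w1, -, w3⟩ := hEEW p hp m t ht
    have hS1 : S1 (ee p m t) := o4 p.s _ hp.s_pos.le w1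
    have hSU' : S1 (Ul p t) := by
      have := hSU t
      rwa [abs_of_nonneg ht] at this
    obtain ⟨f1, -, f3⟩ := hFSM (Ul p t) (ee p m t) hSU' hS1
    have h1 := (hFSC _ f1).2.2.2 j
    rw [← h1]
    unfold cf
    congr 1
    refine intervalIntegral.integral_congr fun y _ => ?_
    show fn (cv (Ul p t) (ee p m t)) y * e1 (-j) y = _
    rw [f3, w3]
  refine ⟨?_, ?_⟩
  · intro t ht
    have h1 : HasDerivWithinAt (fun t => (1 / (2 * (Real.pi : ℂ))) *
        ∫ y in (0 : ℝ)..(2 * Real.pi), G t y)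
        ((1 / (2 * (Real.pi : ℂ))) * ∫ y in (0 : ℝ)..(2 * Real.pi), G' t y) (Ici 0) t :=
      ((hmain t).const_mul _).hasDerivWithinAt
    have h2 : (1 / (2 * (Real.pi : ℂ))) * ∫ y in (0 : ℝ)..(2 * Real.pi), G' t y =
        -c * cv (Ul p t) (ee p m t) j := by
      have h3 : ∫ y in (0 : ℝ)..(2 * Real.pi), G' t y =
          -c * ∫ y in (0 : ℝ)..(2 * Real.pi),
            (fn (Ul p t) y * Complex.exp (-(c * fn (Vl p t) y))) * e1 (-j) y := by
        rw [← intervalIntegral.integral_const_mul]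
        refine intervalIntegral.integral_congr fun y _ => ?_
        show Complex.exp (-(c * fn (EET_V p t) y)) * (-(c * fn (Ul p |t|) y)) * e1 (-j) y =
          -c * ((fn (Ul p t) y * Complex.exp (-(c * fn (Vl p t) y))) * e1 (-j) y)
        rw [hVeq t ht, abs_of_nonneg ht]
        ring
      rw [hcoef t ht, h3]
      ring
    rw [h2] at h1
    refine h1.congr (fun t' ht' => ?_) ?_
    · show ee p m t' j = _
      unfold ee cf
      congr 1
      refine intervalIntegral.integral_congr fun y _ => ?_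
      show Complex.exp (-(Complex.I * ((m : ℂ) * (p.N : ℂ)) * fn (Vl p t') y)) * e1 (-j) y =
        Complex.exp (-(c * fn (EET_V p t') y)) * e1 (-j) y
      rw [hVeq t' ht']
    · show ee p m t j = _
      unfold ee cf
      congr 1
      refine intervalIntegral.integral_congr fun y _ => ?_
      show Complex.exp (-(Complex.I * ((m : ℂ) * (p.N : ℂ)) * fn (Vl p t) y)) * e1 (-j) y =
        Complex.exp (-(c * fn (EET_V p t) y)) * e1 (-j) y
      rw [hVeq t ht]
  · -- continuity
    have hcont : Continuous fun t : ℝ => ∫ y in (0 : ℝ)..(2 * Real.pi),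
        (fn (Ul p |t|) y * Complex.exp (-(c * fn (EET_V p |t|) y))) * e1 (-j) y := by
      refine intervalIntegral.continuous_of_dominated_interval (bound := fun _ => B) ?_ ?_ ?_ ?_
      · intro t
        exact (((hcU t).mul (Complex.continuous_exp.comp
          (continuous_const.mul (hcV |t|)).neg)).mul (EET_ce1 _)).aestronglyMeasurable
      · intro t
        refine Filter.Eventually.of_forall fun y _ => ?_
        rw [norm_mul, norm_mul, EET_e1, mul_one]
        have h1 : ‖Complex.exp (-(c * fn (EET_V p |t|) y))‖ = 1 := by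
          rw [Complex.norm_exp]
          have h2 := (v6 |t| (abs_nonneg t)).2.2.2.2.2 y
          rw [hVeq |t| (abs_nonneg t)]
          have h3 : (-(c * fn (Vl p |t|) y)).re = 0 := by
            rw [hc]
            simp [Complex.mul_re, Complex.mul_im, h2]
          rw [h3, Real.exp_zero]
        rw [h1, mul_one]
        exact hnU t y
      · exact intervalIntegrable_const
      · refine Filter.Eventually.of_forall fun y _ => ?_
        have k1 : Continuous fun t : ℝ => fn (Ul p |t|) y := by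
          unfold fn
          refine continuous_tsum (fun l => (EET_cU p l).mul continuous_const) hu fun l t => ?_
          rw [norm_mul, EET_e1, mul_one]
          exact hU t l
        have k2 : Continuous fun t : ℝ => fn (EET_V p t) y :=
          continuous_iff_continuousAt.2 fun t => (hdV y t).continuousAt
        have k3 : Continuous fun t : ℝ => fn (EET_V p |t|) y := k2.comp continuous_abs
        exact (k1.mul (Complex.continuous_exp.comp (continuous_const.mul k3).neg)).mul
          continuous_const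
    refine ((continuous_const.mul hcont).continuousOn (s := Ici (0 : ℝ))
      (f := fun t : ℝ => (1 / (2 * (Real.pi : ℂ))) * ∫ y in (0 : ℝ)..(2 * Real.pi),
        (fn (Ul p |t|) y * Complex.exp (-(c * fn (EET_V p |t|) y))) * e1 (-j) y)).congr ?_
    intro t ht
    have ht' : (0 : ℝ) ≤ t := ht
    show cv (Ul p t) (ee p m t) j = (1 / (2 * (Real.pi : ℂ))) * ∫ y in (0 : ℝ)..(2 * Real.pi),
      (fn (Ul p |t|) y * Complex.exp (-(c * fn (EET_V p |t|) y))) * e1 (-j) y
    rw [hcoef t ht', abs_of_nonneg ht', hVeq t ht']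

end

end Pool.SQGA
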