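import Pool.Agent.Work.MP_a2fcf1_an_ar.I1

/-! # MP_a2fcf1_an, block EEW (helper75): the sequence of the phase -/

set_option autoImplicit false

namespace Pool.SQGA

open Set MeasureTheory

theorem p_EEW (hVR : Stmt_VR) (hEXPW : Stmt_EXPW) : Stmt_EEW := by
  intro p hp m t ht
  obtain ⟨-, -, -, -, -, hV⟩ := hVR p hp
  obtain ⟨-, hW, hnw, -, -, -⟩ := hV t ht
  obtain ⟨c, hc⟩ : ∃ c : ℂ, c = -(Complex.I * ((m : ℂ) * (p.N : ℂ))) := ⟨_, rfl⟩
  obtain ⟨a, ha⟩ : ∃ a : ℤ → ℂ, a = fun l => c * Vl p t l := ⟨_, rfl⟩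
  have hcn : ‖c‖ = p.N * |(m : ℝ)| := by
    rw [hc, norm_neg, norm_mul, norm_mul, Complex.norm_I, Complex.norm_intCast,
      Complex.norm_natCast]
    ring
  have haW : (fun l => om p.s l * ‖a l‖) = fun l => ‖c‖ * (om p.s l * ‖Vl p t l‖) := by
    funext l
    rw [ha]
    show om p.s l * ‖c * Vl p t l‖ = _
    rw [norm_mul]
    ring
  have hWa : WS p.s a := by
    unfold WS
    rw [haW]
    exact Summable.mul_left _ hW
  have hfa : ∀ y, fn a y = -(Complex.I * ((m : ℂ) * (p.N : ℂ)) * fn (Vl p t) y) := by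
    intro y
    have h1 : fn a y = c * fn (Vl p t) y := by
      unfold fn
      rw [← tsum_mul_left, ha]
      exact tsum_congr (fun l => by ring)
    rw [h1, hc]
    ring
  have hee : ee p m t = cf fun y => Complex.exp (fn a y) := by
    funext j
    unfold ee
    have h1 : (fun y => Complex.exp (-(Complex.I * ((m : ℂ) * (p.N : ℂ)) * fn (Vl p t) y))) =
        fun y => Complex.exp (fn a y) := by
      funext y
      rw [hfa]
    rw [h1]
  obtain ⟨h1, h2, h3, -⟩ := hEXPW p.s a hp.s_pos.le hWa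
  rw [hee]
  refine ⟨h1, h3.trans (Real.exp_le_exp.mpr ?_), ?_⟩
  · have h4 : nw p.s a = ‖c‖ * nw p.s (Vl p t) := by
      unfold nw
      rw [haW, tsum_mul_left]
    rw [h4, hcn]
    exact mul_le_mul_of_nonneg_left hnw (by positivity)
  · intro y
    rw [h2, hfa]

end Pool.SQGA
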