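import Pool.Agent.Work.MP_a2fcf1_an_ar.I1

/-! # Supercritical SQG on the torus, block EXPW: the exponential in the weighted algebra -/

set_option autoImplicit false

namespace Pool.SQGA

open Set MeasureTheory

noncomputable section

/-- powers for the convolution -/
def EXPW_pw (a : ℤ → ℂ) : ℕ → ℤ → ℂ
  | 0 => dl
  | n + 1 => cv a (EXPW_pw a n)

theorem EXPW_norm_e1 (l : ℤ) (y : ℝ) : ‖e1 l y‖ = 1 := by
  unfold e1
  rw [Complex.norm_exp]
  have : (Complex.I * ((l : ℂ) * (y : ℂ))).re = 0 := by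
    simp [Complex.mul_re, Complex.mul_im]
  rw [this, Real.exp_zero]

theorem EXPW_om_pos (s : ℝ) (l : ℤ) : 0 < om s l := by
  unfold om
  positivity

theorem EXPW_om_zero (s : ℝ) : om s 0 = 1 := by
  unfold om
  simp

theorem EXPW_dl_hasSum (s : ℝ) : HasSum (fun l => om s l * ‖dl l‖) 1 := by
  have h := hasSum_single (f := fun l => om s l * ‖dl l‖) 0 (by
    intro l hl
    simp [dl, hl])
  simpa [dl, EXPW_om_zero] using h

theorem EXPW_dl_ws (s : ℝ) : WS s dl := (EXPW_dl_hasSum s).summable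

theorem EXPW_dl_nw (s : ℝ) : nw s dl = 1 := (EXPW_dl_hasSum s).tsum_eq

theorem EXPW_dl_fn (y : ℝ) : fn dl y = 1 := by
  unfold fn
  rw [tsum_eq_single 0 (by
    intro l hl
    simp [dl, hl])]
  simp [dl, e1]

theorem EXPW_nw_nonneg (s : ℝ) (a : ℤ → ℂ) : 0 ≤ nw s a :=
  tsum_nonneg fun l => mul_nonneg (EXPW_om_pos s l).le (norm_nonneg _)

theorem EXPW_pow (hO : Stmt_OMS) (hM : Stmt_FSM) (hW : Stmt_CVW) (s : ℝ) (a : ℤ → ℂ)
    (hs : 0 ≤ s) (ha : WS s a) (n : ℕ) :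
    WS s (EXPW_pw a n) ∧ nw s (EXPW_pw a n) ≤ nw s a ^ n ∧
      ∀ y, fn (EXPW_pw a n) y = fn a y ^ n := by
  induction n with
  | zero =>
    refine ⟨EXPW_dl_ws s, ?_, fun y => ?_⟩
    · show nw s dl ≤ _
      rw [EXPW_dl_nw, pow_zero]
    · show fn dl y = _
      rw [EXPW_dl_fn, pow_zero]
  | succ n ih =>
    obtain ⟨h1, h2, h3⟩ := ih
    obtain ⟨h4, h5⟩ := hW s a (EXPW_pw a n) hs ha h1
    refine ⟨h4, ?_, fun y => ?_⟩
    · show nw s (cv a (EXPW_pw a n)) ≤ _
      rw [pow_succ']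
      exact h5.trans (mul_le_mul_of_nonneg_left h2 (EXPW_nw_nonneg s a))
    · show fn (cv a (EXPW_pw a n)) y = _
      rw [(hM a (EXPW_pw a n) (hO.2.2.2.1 s a hs ha) (hO.2.2.2.1 s _ hs h1)).2.2 y, h3, pow_succ']

/-- summation of a series of sequences -/
theorem EXPW_sum (hO : Stmt_OMS) (s : ℝ) (hs : 0 ≤ s) (P : ℕ → ℤ → ℂ) (u : ℕ → ℝ)
    (hP : ∀ n, WS s (P n)) (hu : ∀ n, nw s (P n) ≤ u n) (hus : Summable u) :
    WS s (fun l => ∑' n, P n l) ∧ nw s (fun l => ∑' n, P n l) ≤ ∑' n, u n ∧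
      (∀ y, fn (fun l => ∑' n, P n l) y = ∑' n, fn (P n) y) ∧ ∀ l, Summable fun n => P n l := by
  have h0 : Summable fun n => nw s (P n) :=
    Summable.of_nonneg_of_le (fun n => EXPW_nw_nonneg s _) hu hus
  have h1 : Summable (Function.uncurry fun (n : ℕ) (l : ℤ) => om s l * ‖P n l‖) := by
    refine (summable_prod_of_nonneg ?_).2 ⟨fun n => hP n, h0⟩
    intro q
    exact mul_nonneg (EXPW_om_pos s q.2).le (norm_nonneg _)
  have h2 : Summable (fun q : ℤ × ℕ => om s q.1 * ‖P q.2 q.1‖) := h1.prod_symm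
  have h3 : ∀ l, Summable fun n => om s l * ‖P n l‖ := fun l => h2.prod_factor l
  have h4 : ∀ l, Summable fun n => ‖P n l‖ := by
    intro l
    refine Summable.of_nonneg_of_le (fun n => norm_nonneg _) (fun n => ?_) (h3 l)
    exact le_mul_of_one_le_left (norm_nonneg _) (hO.1 s l hs)
  have h5 : Summable fun l => ∑' n, om s l * ‖P n l‖ := h2.prod
  have h6 : ∀ l, om s l * ‖∑' n, P n l‖ ≤ ∑' n, om s l * ‖P n l‖ := by
    intro l
    rw [tsum_mul_left]
    exact mul_le_mul_of_nonneg_left (norm_tsum_le_tsum_norm (h4 l)) (EXPW_om_pos s l).le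
  have h7 : WS s (fun l => ∑' n, P n l) :=
    Summable.of_nonneg_of_le (fun l => mul_nonneg (EXPW_om_pos s l).le (norm_nonneg _)) h6 h5
  refine ⟨h7, ?_, ?_, fun l => (h4 l).of_norm⟩
  · calc nw s (fun l => ∑' n, P n l) ≤ ∑' l, ∑' n, om s l * ‖P n l‖ := h7.tsum_le_tsum h6 h5
      _ = ∑' n, ∑' l, om s l * ‖P n l‖ := h1.tsum_comm
      _ = ∑' n, nw s (P n) := rfl
      _ ≤ ∑' n, u n := h0.tsum_le_tsum hu hus
  · intro y
    have h8 : Summable (Function.uncurry fun (n : ℕ) (l : ℤ) => P n l * e1 l y) := by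
      refine Summable.of_norm_bounded h1 ?_
      rintro ⟨n, l⟩
      show ‖P n l * e1 l y‖ ≤ om s l * ‖P n l‖
      rw [norm_mul, EXPW_norm_e1, mul_one]
      exact le_mul_of_one_le_left (norm_nonneg _) (hO.1 s l hs)
    calc fn (fun l => ∑' n, P n l) y = ∑' l, ∑' n, P n l * e1 l y := by
          unfold fn
          exact tsum_congr fun l => tsum_mul_right.symm
      _ = ∑' n, ∑' l, P n l * e1 l y := h8.tsum_comm
      _ = ∑' n, fn (P n) y := rfl

/-- multiplication by a constant -/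
theorem EXPW_smul (s : ℝ) (a : ℤ → ℂ) (ha : WS s a) (c : ℂ) :
    WS s (fun l => a l / c) ∧ nw s (fun l => a l / c) = nw s a / ‖c‖ ∧
      ∀ y, fn (fun l => a l / c) y = fn a y / c := by
  have h : (fun l => om s l * ‖a l / c‖) = fun l => om s l * ‖a l‖ / ‖c‖ := by
    funext l
    rw [norm_div, mul_div_assoc]
  refine ⟨?_, ?_, fun y => ?_⟩
  · show Summable fun l => om s l * ‖a l / c‖
    rw [h]
    exact ha.div_const _
  · show ∑' l, om s l * ‖a l / c‖ = _
    rw [h, tsum_div_const]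
    rfl
  · show ∑' l, a l / c * e1 l y = _
    rw [show (fun l => a l / c * e1 l y) = fun l => a l * e1 l y / c from
      funext fun l => div_mul_eq_mul_div _ _ _, tsum_div_const]
    rfl

theorem EXPW_main (hO : Stmt_OMS) (hM : Stmt_FSM) (hW : Stmt_CVW) (s : ℝ)
    (a : ℤ → ℂ) (hs : 0 ≤ s) (ha : WS s a) :
    ∃ b : ℤ → ℂ, WS s b ∧ (∀ y, fn b y = Complex.exp (fn a y)) ∧
      nw s b ≤ Real.exp (nw s a) ∧ nw s (fun l => b l - dl l) ≤ nw s a * Real.exp (nw s a) := by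
  have hpw := EXPW_pow hO hM hW s a hs ha
  have hx : HasSum (fun n : ℕ => nw s a ^ n / (n.factorial : ℝ)) (Real.exp (nw s a)) := by
    rw [Real.exp_eq_exp_ℝ]
    exact NormedSpace.expSeries_div_hasSum_exp (nw s a)
  have hfac : ∀ n : ℕ, ‖((n.factorial : ℕ) : ℂ)‖ = (n.factorial : ℝ) := fun n => by
    rw [Complex.norm_natCast]
  set P : ℕ → ℤ → ℂ := fun n l => EXPW_pw a n l / ((n.factorial : ℕ) : ℂ) with hP
  have hPs : ∀ n, WS s (P n) := fun n => (EXPW_smul s _ (hpw n).1 _).1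
  have hPu : ∀ n, nw s (P n) ≤ nw s a ^ n / (n.factorial : ℝ) := by
    intro n
    rw [hP]
    rw [(EXPW_smul s _ (hpw n).1 _).2.1, hfac]
    exact div_le_div_of_nonneg_right (hpw n).2.1 (Nat.cast_nonneg _)
  obtain ⟨h1, h2, h3, h4⟩ := EXPW_sum hO s hs P _ hPs hPu hx.summable
  refine ⟨fun l => ∑' n, P n l, h1, fun y => ?_, ?_, ?_⟩
  · rw [h3 y]
    have h5 : ∀ n, fn (P n) y = fn a y ^ n / (n.factorial : ℂ) := by
      intro n
      rw [hP]
      rw [(EXPW_smul s _ (hpw n).1 _).2.2 y, (hpw n).2.2 y]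
    rw [tsum_congr h5, Complex.exp_eq_exp_ℂ]
    exact (NormedSpace.expSeries_div_hasSum_exp (fn a y)).tsum_eq
  · rw [← hx.tsum_eq]
    exact h2
  · have hv : HasSum (fun n : ℕ => nw s a * (nw s a ^ n / (n.factorial : ℝ)))
        (nw s a * Real.exp (nw s a)) := hx.mul_left _
    have hQu : ∀ n, nw s (P (n + 1)) ≤ nw s a * (nw s a ^ n / (n.factorial : ℝ)) := by
      intro n
      refine (hPu (n + 1)).trans ?_
      rw [pow_succ', mul_div_assoc]
      refine mul_le_mul_of_nonneg_left ?_ (EXPW_nw_nonneg s a)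
      refine div_le_div_of_nonneg_left (pow_nonneg (EXPW_nw_nonneg s a) _)
        (Nat.cast_pos.2 (Nat.factorial_pos n)) ?_
      exact_mod_cast Nat.factorial_le (Nat.le_succ n)
    obtain ⟨_, k2, _, _⟩ := EXPW_sum hO s hs (fun n => P (n + 1)) _ (fun n => hPs (n + 1)) hQu
      hv.summable
    rw [hv.tsum_eq] at k2
    have h6 : (fun l => (∑' n, P n l) - dl l) = fun l => ∑' n, P (n + 1) l := by
      funext l
      rw [(h4 l).tsum_eq_zero_add]
      have : P 0 l = dl l := by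
        rw [hP]
        simp [EXPW_pw]
      rw [this]
      ring
    rw [h6]
    exact k2

/-- EXPW: the exponential in the weighted algebra. -/
theorem p_EXPW (hO : Stmt_OMS) (hC : Stmt_FSC) (hM : Stmt_FSM) (hW : Stmt_CVW) : Stmt_EXPW := by
  intro s a hs ha
  obtain ⟨b, h1, h2, h3, h4⟩ := EXPW_main hO hM hW s a hs ha
  have h5 : (cf fun y => Complex.exp (fn a y)) = b := by
    have h6 : (fun y => Complex.exp (fn a y)) = fn b := funext fun y => (h2 y).symm
    rw [h6]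
    funext l
    exact (hC b (hO.2.2.2.1 s b hs h1)).2.2.2 l
  rw [h5]
  exact ⟨h1, h2, h3, h4⟩

end

end Pool.SQGA
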