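import Pool.Agent.Work.MP_a2fcf1_an_ar.I1

/-!
# Block EZW: the sequence of exp (i m N (V(y) - V(y - z)))
-/

set_option autoImplicit false

namespace Pool.SQGA

open Set MeasureTheory

noncomputable section

theorem ezw_e1_norm (l : ℤ) (y : ℝ) : ‖e1 l y‖ = 1 := by
  rw [e1, show Complex.I * ((l : ℂ) * (y : ℂ)) = (((l : ℝ) * y : ℝ) : ℂ) * Complex.I by
    push_cast; ring]
  exact Complex.norm_exp_ofReal_mul_I _

theorem ezw_e1_sub (l : ℤ) (y z : ℝ) : e1 l (y - z) = e1 l y * e1 (-l) z := by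
  rw [e1, e1, e1, ← Complex.exp_add]
  congr 1
  push_cast
  ring

theorem ezw_one_sub (l : ℤ) (z : ℝ) : ‖1 - e1 (-l) z‖ ≤ |(l : ℝ)| * |z| := by
  rw [norm_sub_rev, e1, show Complex.I * (((-l : ℤ) : ℂ) * (z : ℂ)) =
    Complex.I * ((-(l : ℝ) * z : ℝ) : ℂ) by push_cast; ring]
  refine (Real.norm_exp_I_mul_ofReal_sub_one_le).trans (le_of_eq ?_)
  rw [Real.norm_eq_abs, abs_mul, abs_neg]

theorem ezw_e1_cont (l : ℤ) : Continuous (e1 l) := by
  unfold e1
  fun_prop

theorem p_EZW (hOMS : Stmt_OMS) (hFSC : Stmt_FSC) (hFSM : Stmt_FSM) (hEXPW : Stmt_EXPW)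
    (hVR : Stmt_VR) (hEEW : Stmt_EEW) : Stmt_EZW := by
  intro p hp m t z ht
  obtain ⟨hom1, hom2, hom3, hS1, hom5⟩ := hOMS
  have hs0 : 0 ≤ p.s := hp.s_pos.le
  have hom0 : ∀ j, 0 < om p.s j := fun j => lt_of_lt_of_le one_pos (hom1 p.s j hs0)
  obtain ⟨hV1, hV0, hVsym, hVd1, hVd2, hVw⟩ := hVR p hp
  obtain ⟨hU, hV, hVn, hlV, hlVn, hVim⟩ := hVw t ht
  have hVS : S1 (Vl p t) := hS1 p.s _ hs0 hV
  -- the product formula, for all z
  have hprod : ∀ (z : ℝ) (y : ℝ), fn (fun a => ee p m t a * e1 (-a) z) y =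
      fn (ee p m t) (y - z) := by
    intro z y
    unfold fn
    congr 1
    funext l
    rw [ezw_e1_sub]
    ring
  have hSe : S1 (ee p m t) := hS1 p.s _ hs0 (hEEW p hp m t ht).1
  have hSe' : S1 (ee p (-m) t) := hS1 p.s _ hs0 (hEEW p hp (-m) t ht).1
  have hSB : ∀ z : ℝ, S1 (fun a => ee p m t a * e1 (-a) z) := by
    intro z
    unfold S1
    refine hSe.congr (fun a => ?_)
    rw [norm_mul, ezw_e1_norm, mul_one]
  -- the sequence of the exponent
  have hcn : ∀ w : ℂ, ‖Complex.I * ((m : ℂ) * (p.N : ℂ)) * w‖ = p.N * |(m : ℝ)| * ‖w‖ := by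
    intro w
    rw [norm_mul, norm_mul, norm_mul, Complex.norm_I, one_mul, Complex.norm_intCast,
      Complex.norm_natCast]
    ring
  have hAs0 : 0 ≤ nw p.s (fun l => (l : ℂ) * Vl p t l) := by
    unfold nw
    exact tsum_nonneg (fun l => mul_nonneg (hom0 l).le (norm_nonneg _))
  have key : ∀ z : ℝ, ∃ a : ℤ → ℂ, WS p.s a ∧
      nw p.s a ≤ p.N * |(m : ℝ)| * |z| * (t * p.As) ∧
      ∀ y, fn a y = Complex.I * ((m : ℂ) * (p.N : ℂ)) *
        (fn (Vl p t) y - fn (Vl p t) (y - z)) := by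
    intro z
    have hb : ∀ l : ℤ, om p.s l * ‖Complex.I * ((m : ℂ) * (p.N : ℂ)) *
        ((1 - e1 (-l) z) * Vl p t l)‖ ≤
        (p.N * |(m : ℝ)| * |z|) * (om p.s l * ‖(l : ℂ) * Vl p t l‖) := by
      intro l
      rw [hcn, norm_mul, norm_mul, Complex.norm_intCast]
      have h1 := ezw_one_sub l z
      have h2 : ‖1 - e1 (-l) z‖ * ‖Vl p t l‖ ≤ |(l : ℝ)| * |z| * ‖Vl p t l‖ :=
        mul_le_mul_of_nonneg_right h1 (norm_nonneg _)
      have h3 : om p.s l * (p.N * |(m : ℝ)| * (‖1 - e1 (-l) z‖ * ‖Vl p t l‖)) ≤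
          om p.s l * (p.N * |(m : ℝ)| * (|(l : ℝ)| * |z| * ‖Vl p t l‖)) :=
        mul_le_mul_of_nonneg_left (mul_le_mul_of_nonneg_left h2 (by positivity)) (hom0 l).le
      refine h3.trans (le_of_eq ?_)
      ring
    have hsum1 : Summable (fun l => (p.N * |(m : ℝ)| * |z|) *
        (om p.s l * ‖(l : ℂ) * Vl p t l‖)) := hlV.mul_left _
    have hsum2 : Summable (fun l => om p.s l * ‖Complex.I * ((m : ℂ) * (p.N : ℂ)) *
        ((1 - e1 (-l) z) * Vl p t l)‖) :=
      Summable.of_nonneg_of_le (fun l => mul_nonneg (hom0 l).le (norm_nonneg _)) hb hsum1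
    refine ⟨fun l => Complex.I * ((m : ℂ) * (p.N : ℂ)) * ((1 - e1 (-l) z) * Vl p t l),
      hsum2, ?_, ?_⟩
    · have h1 : nw p.s (fun l => Complex.I * ((m : ℂ) * (p.N : ℂ)) *
          ((1 - e1 (-l) z) * Vl p t l)) ≤
          ∑' l, (p.N * |(m : ℝ)| * |z|) * (om p.s l * ‖(l : ℂ) * Vl p t l‖) :=
        Summable.tsum_le_tsum hb hsum2 hsum1
      rw [tsum_mul_left] at h1
      refine h1.trans ?_
      exact mul_le_mul_of_nonneg_left hlVn (by positivity)
    · intro y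
      have h1 := (hFSC _ hVS).2.2.1 y
      have h2 := (hFSC _ hVS).2.2.1 (y - z)
      have h3 := (h1.sub h2).mul_left (Complex.I * ((m : ℂ) * (p.N : ℂ)))
      have h4 : (fun l => Complex.I * ((m : ℂ) * (p.N : ℂ)) *
          ((1 - e1 (-l) z) * Vl p t l) * e1 l y) = fun l => Complex.I * ((m : ℂ) * (p.N : ℂ)) *
          (Vl p t l * e1 l y - Vl p t l * e1 l (y - z)) := by
        funext l
        rw [ezw_e1_sub]
        ring
      show ∑' l, Complex.I * ((m : ℂ) * (p.N : ℂ)) *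
          ((1 - e1 (-l) z) * Vl p t l) * e1 l y = _
      rw [h4]
      exact h3.tsum_eq
  -- identification with Ez
  have hEz : ∀ z : ℝ, WS p.s (Ez p m t z) ∧
      nw p.s (Ez p m t z) ≤ Real.exp (p.N * |(m : ℝ)| * |z| * (t * p.As)) ∧
      nw p.s (fun j => Ez p m t z j - dl j) ≤
        p.N * |(m : ℝ)| * |z| * (t * p.As) *
          Real.exp (p.N * |(m : ℝ)| * |z| * (t * p.As)) ∧
      ∀ y, fn (Ez p m t z) y = Complex.exp (Complex.I * ((m : ℂ) * (p.N : ℂ)) *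
        (fn (Vl p t) y - fn (Vl p t) (y - z))) := by
    intro z
    obtain ⟨a, ha, hna, hfa⟩ := key z
    obtain ⟨e1', e2', e3', e4'⟩ := hEXPW p.s a hs0 ha
    have hEa : (cf fun y => Complex.exp (fn a y)) = Ez p m t z := by
      funext j
      unfold Ez
      congr 1
      funext y
      rw [hfa]
    rw [hEa] at e1' e2' e3' e4'
    have hna0 : 0 ≤ nw p.s a := by
      unfold nw
      exact tsum_nonneg (fun l => mul_nonneg (hom0 l).le (norm_nonneg _))
    refine ⟨e1', e3'.trans (Real.exp_le_exp.2 hna), e4'.trans ?_, ?_⟩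
    · exact mul_le_mul hna (Real.exp_le_exp.2 hna) (Real.exp_pos _).le (hna0.trans hna)
    · intro y
      rw [e2' y, hfa]
  have hsumz : ∀ z : ℝ, ∀ j, HasSum
      (fun a => ee p (-m) t (j - a) * (ee p m t a * e1 (-a) z)) (Ez p m t z j) := by
    intro z j
    obtain ⟨g1, g2, g3⟩ := hFSM _ _ (hSB z) hSe'
    have h1 : fn (cv (fun a => ee p m t a * e1 (-a) z) (ee p (-m) t)) =
        fn (Ez p m t z) := by
      funext y
      rw [g3 y, hprod, (hEEW p hp m t ht).2.2, (hEEW p hp (-m) t ht).2.2,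
        (hEz z).2.2.2 y, ← Complex.exp_add]
      congr 1
      push_cast
      ring
    have h2 : cv (fun a => ee p m t a * e1 (-a) z) (ee p (-m) t) j = Ez p m t z j := by
      rw [← (hFSC _ g1).2.2.2 j, h1]
      exact (hFSC _ (hS1 p.s _ hs0 (hEz z).1)).2.2.2 j
    have h3 : Summable (fun a => ee p m t a * e1 (-a) z * ee p (-m) t (j - a)) :=
      (g2 j).of_norm
    have h4 := h3.hasSum
    have h5 : ∑' a, ee p m t a * e1 (-a) z * ee p (-m) t (j - a) = Ez p m t z j := h2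
    rw [h5] at h4
    have h6 : (fun a => ee p (-m) t (j - a) * (ee p m t a * e1 (-a) z)) =
        fun a => ee p m t a * e1 (-a) z * ee p (-m) t (j - a) := by
      funext a
      ring
    rw [h6]
    exact h4
  refine ⟨(hEz z).1, (hEz z).2.1, (hEz z).2.2.1, hsumz z, ?_⟩
  intro j
  have h1 : (fun z => Ez p m t z j) =
      fun z => ∑' a, ee p (-m) t (j - a) * (ee p m t a * e1 (-a) z) := by
    funext z
    exact ((hsumz z j).tsum_eq).symm
  rw [h1]
  obtain ⟨g1, g2, g3⟩ := hFSM _ _ hSe hSe'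
  refine continuous_tsum (fun a => ?_) (g2 j) (fun a z => ?_)
  · exact continuous_const.mul (continuous_const.mul (ezw_e1_cont _))
  · rw [norm_mul, norm_mul, norm_mul, ezw_e1_norm]
    exact le_of_eq (by ring)

end

end Pool.SQGA
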