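import Pool.Agent.Work.MP_a2fcf1_an_ar.I1
import Pool.Agent.Work.MP_a2fcf1_an_h64.Fourier

set_option autoImplicit false

/-! # MP_a2fcf1_an, block FSC (helper87): Fourier coefficients of an absolutely convergent series -/

namespace Pool.SQGA

open Set MeasureTheory

namespace FSC

open Pool.Agent.Work.MP_a2fcf1_an_h64 (e1d integral_e1d hasSum_integral)

theorem e1_eq (l : ℤ) (y : ℝ) : e1 l y = e1d l y := by
  unfold e1 e1d
  congr 1
  push_cast
  ring

theorem e1_add (k l : ℤ) (y : ℝ) : e1 (k + l) y = e1 k y * e1 l y := by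
  unfold e1
  rw [← Complex.exp_add]
  congr 1
  push_cast
  ring

theorem norm_e1 (l : ℤ) (y : ℝ) : ‖e1 l y‖ = 1 := by
  rw [e1_eq]
  exact Pool.Agent.Work.MP_a2fcf1_an_h64.norm_e1d l y

theorem continuous_e1 (l : ℤ) : Continuous (e1 l) := by
  unfold e1
  fun_prop

theorem e1_period (l : ℤ) (y : ℝ) : e1 l (y + 2 * Real.pi) = e1 l y := by
  unfold e1
  have h : Complex.I * ((l : ℂ) * ((y + 2 * Real.pi : ℝ) : ℂ)) =
      Complex.I * ((l : ℂ) * (y : ℂ)) + (l : ℂ) * (2 * Real.pi * Complex.I) := by
    push_cast; ring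
  rw [h, Complex.exp_add, Complex.exp_int_mul_two_pi_mul_I, mul_one]

theorem integral_e1 (m : ℤ) :
    ∫ y in (0 : ℝ)..(2 * Real.pi), e1 m y = if m = 0 then ((2 * Real.pi : ℝ) : ℂ) else 0 := by
  rw [← integral_e1d m]
  congr 1
  funext y
  exact e1_eq m y

end FSC

open FSC in
theorem p_FSC : Stmt_FSC := by
  intro a ha
  have hs : ∀ y, HasSum (fun l => a l * e1 l y) (fn a y) := fun y => by
    refine (Summable.of_norm ?_).hasSum
    refine ha.congr fun l => ?_
    rw [norm_mul, norm_e1, mul_one]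
  refine ⟨?_, ?_, hs, ?_⟩
  · refine continuous_tsum (fun l => continuous_const.mul (continuous_e1 l)) ha fun l y => ?_
    rw [norm_mul, norm_e1, mul_one]
  · intro y
    unfold fn
    refine tsum_congr fun l => ?_
    rw [e1_period]
  · intro l
    have h1 := Pool.Agent.Work.MP_a2fcf1_an_h64.hasSum_integral
      (F := fun j y => a j * e1 (j - l) y) (f := fun y => fn a y * e1 (-l) y)
      (u := fun j => ‖a j‖) (fun j => continuous_const.mul (continuous_e1 _)) ha
      (fun j y => by rw [norm_mul, norm_e1, mul_one])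
      (fun y => by
        refine ((hs y).mul_right (e1 (-l) y)).congr_fun ?_
        intro j
        rw [mul_assoc, ← e1_add, sub_eq_add_neg])
      0 (2 * Real.pi)
    have h2 : (fun j => ∫ y in (0 : ℝ)..(2 * Real.pi), a j * e1 (j - l) y) =
        fun j => if j = l then a l * ((2 * Real.pi : ℝ) : ℂ) else 0 := by
      funext j
      rw [intervalIntegral.integral_const_mul, integral_e1]
      by_cases hj : j = l
      · subst hj
        simp
      · rw [if_neg hj, if_neg (sub_ne_zero.mpr hj), mul_zero]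
    rw [h2] at h1
    have h3 := h1.unique (hasSum_ite_eq l (a l * ((2 * Real.pi : ℝ) : ℂ)))
    unfold cf
    rw [h3]
    have hpi : ((2 * Real.pi : ℝ) : ℂ) ≠ 0 := by exact_mod_cast Real.two_pi_pos.ne'
    push_cast at hpi ⊢
    field_simp

end Pool.SQGA
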