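import Pool.Agent.Work.MP_a2fcf1_an_ar.I1

set_option autoImplicit false

/-! # MP_a2fcf1_an, block FSM (helper87): products of series are convolutions -/

namespace Pool.SQGA

open Set MeasureTheory

namespace FSM

theorem e1_add (k l : ℤ) (y : ℝ) : e1 (k + l) y = e1 k y * e1 l y := by
  unfold e1
  rw [← Complex.exp_add]
  congr 1
  push_cast
  ring

theorem norm_e1 (l : ℤ) (y : ℝ) : ‖e1 l y‖ = 1 := by
  unfold e1
  have h : Complex.I * ((l : ℂ) * (y : ℂ)) = (((l : ℝ) * y : ℝ) : ℂ) * Complex.I := by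
    push_cast; ring
  rw [h]
  exact Complex.norm_exp_ofReal_mul_I _

/-- the change of variables `(l, j) ↦ (j, l - j)` -/
def eq : ℤ × ℤ ≃ ℤ × ℤ where
  toFun p := (p.2, p.1 - p.2)
  invFun p := (p.1 + p.2, p.1)
  left_inv p := by ext <;> simp
  right_inv p := by ext <;> simp

theorem sum_norm {a b : ℤ → ℂ} (ha : S1 a) (hb : S1 b) :
    Summable fun p : ℤ × ℤ => ‖a p.2 * b (p.1 - p.2)‖ := by
  have h1 : Summable fun p : ℤ × ℤ => ‖a p.1 * b p.2‖ := by
    have h2 := ha.mul_of_nonneg hb (fun i => norm_nonneg _) (fun i => norm_nonneg _)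
    refine h2.congr fun p => ?_
    rw [norm_mul]
  exact (eq.summable_iff (f := fun p : ℤ × ℤ => ‖a p.1 * b p.2‖)).2 h1

end FSM

open FSM in
theorem p_FSM : Stmt_FSM := by
  intro a b ha hb
  have h2 := sum_norm ha hb
  have h3 : ∀ l, Summable fun j => ‖a j * b (l - j)‖ := fun l => h2.prod_factor l
  refine ⟨?_, h3, ?_⟩
  · exact Summable.of_nonneg_of_le (fun l => norm_nonneg _)
      (fun l => norm_tsum_le_tsum_norm (h3 l)) h2.prod
  · intro y
    have ha' : Summable fun l => ‖a l * e1 l y‖ := by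
      refine ha.congr fun l => ?_
      rw [norm_mul, norm_e1, mul_one]
    have hb' : Summable fun l => ‖b l * e1 l y‖ := by
      refine hb.congr fun l => ?_
      rw [norm_mul, norm_e1, mul_one]
    have h4 : fn a y * fn b y =
        ∑' p : ℤ × ℤ, (a p.1 * e1 p.1 y) * (b p.2 * e1 p.2 y) :=
      tsum_mul_tsum_of_summable_norm ha' hb'
    have h5 : ∑' p : ℤ × ℤ, (a p.1 * e1 p.1 y) * (b p.2 * e1 p.2 y) =
        ∑' p : ℤ × ℤ, (a p.2 * b (p.1 - p.2)) * e1 p.1 y := by
      rw [← eq.tsum_eq]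
      refine tsum_congr fun p => ?_
      change (a p.2 * e1 p.2 y) * (b (p.1 - p.2) * e1 (p.1 - p.2) y) = _
      have h6 : e1 p.1 y = e1 p.2 y * e1 (p.1 - p.2) y := by
        rw [← e1_add]
        congr 1
        ring
      rw [h6]
      ring
    have h7 : Summable fun p : ℤ × ℤ => (a p.2 * b (p.1 - p.2)) * e1 p.1 y := by
      refine Summable.of_norm (h2.congr fun p => ?_)
      rw [norm_mul _ (e1 _ _), norm_e1, mul_one]
    rw [h4, h5, h7.tsum_prod]
    unfold fn cv
    refine tsum_congr fun l => ?_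
    exact tsum_mul_right.symm

end Pool.SQGA
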