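import Pool.Agent.Work.MP_a2fcf1_an_ar.I3

/-! # GLU: gluing of two solutions at the time T. -/

set_option autoImplicit false

namespace Pool.SQGA

open Set MeasureTheory
open Pool.Agent.Work.MP_a2fcf1_an_h64 (cr sc eu n1 ex GloballyRegular)
open Pool.SQGF (nq NB Sym Fr Adm Sw wt Y TT GS BB RD)

theorem p_GLU : Stmt_GLU := by
  intro κ α T b a hT hb hbc hbd ha hab hac had
  set d : ℤ × ℤ → ℝ → ℂ := fun k t => if t ≤ T then b k t else a k (t - T) with hd
  have d1 : ∀ k t, t ≤ T → d k t = b k t := by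
    intro k t ht
    simp only [hd]
    rw [if_pos ht]
  have d2 : ∀ k t, T ≤ t → d k t = a k (t - T) := by
    intro k t ht
    rcases eq_or_lt_of_le ht with h | h
    · rw [← h, d1 k T le_rfl, sub_self, hab]
    · simp only [hd]
      rw [if_neg (not_le.mpr h)]
  refine ⟨d, ?_, ?_, ?_, ?_⟩
  · intro m
    obtain ⟨C1, h1⟩ := hb m
    obtain ⟨C2, h2⟩ := ha m
    refine ⟨max C1 C2, ?_⟩
    intro k t ht
    rcases le_total t T with h | h
    · rw [d1 k t h]
      exact (h1 k t ⟨ht, h⟩).trans (le_max_left _ _)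
    · rw [d2 k t h]
      exact (h2 k (t - T) (sub_nonneg.mpr h)).trans (le_max_right _ _)
  · intro k
    exact d1 k 0 hT.le
  · intro k t ht
    rcases le_total t T with h | h
    · rw [d1 _ t h, d1 _ t h]
      exact hbc k t ⟨ht, h⟩
    · rw [d2 _ t h, d2 _ t h]
      exact hac k (t - T) (sub_nonneg.mpr h)
  · intro k t ht
    -- the derivative on the left
    have L : ∀ t ∈ Icc (0 : ℝ) T, HasDerivWithinAt (d k)
        (-(((κ * eu k ^ (2 * α) : ℝ) : ℂ) * d k t) -
          ∑' j, ((sc j (k - j) : ℝ) : ℂ) * (d j t * d (k - j) t)) (Icc 0 T) t := by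
      intro t ht
      have e1 : ∀ j, d j t = b j t := fun j => d1 j t ht.2
      simp only [e1]
      exact (hbd k t ht).congr (fun s hs => d1 k s hs.2) (d1 k t ht.2)
    have Rr : ∀ t ∈ Ici T, HasDerivWithinAt (d k)
        (-(((κ * eu k ^ (2 * α) : ℝ) : ℂ) * d k t) -
          ∑' j, ((sc j (k - j) : ℝ) : ℂ) * (d j t * d (k - j) t)) (Ici T) t := by
      intro t ht
      have e1 : ∀ j, d j t = a j (t - T) := fun j => d2 j t ht
      simp only [e1]
      have h0 := had k (t - T) (sub_nonneg.mpr ht)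
      have h1 : HasDerivWithinAt (fun s : ℝ => s - T) 1 (Ici T) t :=
        (hasDerivWithinAt_id t (Ici T)).sub_const T
      have hm : MapsTo (fun s : ℝ => s - T) (Ici T) (Ici 0) := by
        intro s hs
        have : (0 : ℝ) ≤ s - T := sub_nonneg.mpr hs
        exact this
      have h2 := HasDerivWithinAt.scomp (h := fun s : ℝ => s - T) (g₁ := a k) t h0 h1 hm
      rw [one_smul] at h2
      exact h2.congr (fun s hs => d2 k s hs) (d2 k t ht)
    rcases lt_trichotomy t T with h | h | h
    · refine (L t ⟨ht, h.le⟩).mono_of_mem_nhdsWithin ?_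
      have : Icc (0 : ℝ) T = Ici 0 ∩ Iic T := rfl
      rw [this]
      exact inter_mem_nhdsWithin _ (Iic_mem_nhds h)
    · have hu : Icc (0 : ℝ) T ∪ Ici T = Ici 0 := by
        ext s
        simp only [mem_union, mem_Icc, mem_Ici]
        constructor
        · rintro (h | h)
          · exact h.1
          · linarith
        · intro hs
          rcases le_total s T with h' | h'
          · exact Or.inl ⟨hs, h'⟩
          · exact Or.inr h'
      rw [← hu]
      exact (L t ⟨ht, h.le⟩).union (Rr t h.ge)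
    · refine (Rr t h.le).mono_of_mem_nhdsWithin ?_
      exact mem_nhdsWithin_of_mem_nhds (Ici_mem_nhds h)

end Pool.SQGA
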