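import Pool.Agent.Work.MP_a2fcf1_an_ar.I3

/-! # Block GRQ (helper22): all energies of the difference stay bounded -/

set_option autoImplicit false

namespace Pool.SQGA

open Set MeasureTheory
open Pool.Agent.Work.MP_a2fcf1_an_h64 (cr sc eu n1 ex GloballyRegular)
open Pool.SQGF (nq NB Sym Fr Adm Sw wt Y TT GS BB RD)

theorem GRQ_ww_nonneg (q : ℕ) (k : ℤ × ℤ) : 0 ≤ ww q k := by
  unfold ww wt
  split_ifs
  · have := Real.rpow_nonneg (Pool.Agent.Work.MP_a2fcf1_an_h64.eu_nonneg k) (2 * (q : ℝ))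
    linarith
  · norm_num

theorem GRQ_FF_nonneg (κ α : ℝ) (B : Finset (ℤ × ℤ)) (x : ℤ × ℤ → ℝ → ℂ) (q : ℕ) (t : ℝ) :
    0 ≤ FF κ α B x q t :=
  Finset.sum_nonneg fun k _ => mul_nonneg (GRQ_ww_nonneg q k) (sq_nonneg _)

/-- Gronwall with an exponentially decaying coefficient. -/
theorem GRQ_gronwall (f f' : ℝ → ℝ) (κ D T : ℝ) (hκ : 0 < κ) (hD : 0 ≤ D) (hT : 0 ≤ T)
    (h0 : 0 ≤ f 0)
    (hf : ∀ t ∈ Icc 0 T, HasDerivWithinAt f (f' t) (Icc 0 T) t)
    (hb : ∀ t ∈ Icc 0 T, f' t ≤ D * Real.exp (-(κ * t)) * f t) :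
    f T ≤ f 0 * Real.exp (D / κ) := by
  have hE : ∀ t : ℝ, HasDerivAt (fun t : ℝ => Real.exp (D / κ * Real.exp (-(κ * t))))
      (Real.exp (D / κ * Real.exp (-(κ * t))) * (-(D * Real.exp (-(κ * t))))) t := by
    intro t
    have h1 : HasDerivAt (fun t : ℝ => -(κ * t)) (-κ) t := by
      have h := (hasDerivAt_id t).const_mul (-κ)
      refine (h.congr_deriv (mul_one _)).congr_of_eventuallyEq ?_
      filter_upwards with y
      simp only [id]
      ring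
    have h2 := (h1.exp).const_mul (D / κ)
    have h3 := h2.exp
    refine h3.congr_deriv ?_
    congr 1
    field_simp
  have hg : ∀ t ∈ Icc 0 T, HasDerivWithinAt
      (fun t : ℝ => f t * Real.exp (D / κ * Real.exp (-(κ * t))))
      (f' t * Real.exp (D / κ * Real.exp (-(κ * t))) +
        f t * (Real.exp (D / κ * Real.exp (-(κ * t))) * (-(D * Real.exp (-(κ * t))))))
      (Icc 0 T) t :=
    fun t ht => (hf t ht).mul (hE t).hasDerivWithinAt
  have hcont : ContinuousOn (fun t : ℝ => f t * Real.exp (D / κ * Real.exp (-(κ * t))))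
      (Icc 0 T) := fun t ht => (hg t ht).continuousWithinAt
  have hanti : AntitoneOn (fun t : ℝ => f t * Real.exp (D / κ * Real.exp (-(κ * t))))
      (Icc 0 T) := by
    apply antitoneOn_of_hasDerivWithinAt_nonpos (convex_Icc 0 T) hcont
      (f' := fun t => f' t * Real.exp (D / κ * Real.exp (-(κ * t))) +
        f t * (Real.exp (D / κ * Real.exp (-(κ * t))) * (-(D * Real.exp (-(κ * t))))))
    · intro t ht
      exact (hg t (interior_subset ht)).mono interior_subset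
    · intro t ht
      have := hb t (interior_subset ht)
      have h4 := Real.exp_pos (D / κ * Real.exp (-(κ * t)))
      have h5 : f' t * Real.exp (D / κ * Real.exp (-(κ * t))) ≤
          D * Real.exp (-(κ * t)) * f t * Real.exp (D / κ * Real.exp (-(κ * t))) :=
        mul_le_mul_of_nonneg_right this h4.le
      linarith
  have h := hanti (left_mem_Icc.mpr hT) (right_mem_Icc.mpr hT) hT
  simp only [mul_zero, neg_zero, Real.exp_zero, mul_one] at h
  have h6 : 1 ≤ Real.exp (D / κ * Real.exp (-(κ * T))) := by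
    apply Real.one_le_exp
    positivity
  have h7 : 0 ≤ f 0 * Real.exp (D / κ) := by positivity
  by_cases h8 : 0 ≤ f T
  · nlinarith
  · push Not at h8
    linarith

theorem GRQ_hS_le {κ α : ℝ} (hκ : 0 < κ) (hα : 0 < α) (x : ℤ × ℤ → ℝ → ℂ) {k : ℤ × ℤ}
    (hk : k ≠ 0) {t : ℝ} (ht : 0 ≤ t) (m : ℕ) :
    (1 + |(k.2 : ℝ)|) ^ m * ‖hS κ α x k t‖ ≤
      Real.exp (-(κ * t)) * (if k.1 = 0 then (1 + |(k.2 : ℝ)|) ^ m * ‖x k 0‖ else 0) := by
  unfold hS
  split_ifs with h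
  · rw [norm_mul, Complex.norm_real, Real.norm_eq_abs, abs_of_pos (Real.exp_pos _)]
    have h1 : Real.exp (-(κ * eu k ^ (2 * α) * t)) ≤ Real.exp (-(κ * t)) := by
      apply Real.exp_le_exp.2
      have h2 : 1 ≤ eu k ^ (2 * α) :=
        Real.one_le_rpow (Pool.Agent.Work.MP_a2fcf1_an_h64.one_le_eu hk) (by linarith)
      have h3 : κ * t ≤ κ * eu k ^ (2 * α) * t := by
        have : 0 ≤ κ * t := by positivity
        nlinarith
      linarith
    have h4 : 0 ≤ (1 + |(k.2 : ℝ)|) ^ m * ‖x k 0‖ := by positivity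
    calc (1 + |(k.2 : ℝ)|) ^ m * (Real.exp (-(κ * eu k ^ (2 * α) * t)) * ‖x k 0‖)
        = Real.exp (-(κ * eu k ^ (2 * α) * t)) * ((1 + |(k.2 : ℝ)|) ^ m * ‖x k 0‖) := by ring
      _ ≤ _ := mul_le_mul_of_nonneg_right h1 h4
  · simp

theorem p_GRQ (hZ : Stmt_ZEQ) (hW : Stmt_SWB) (hL : Stmt_LNT) : Stmt_GRQ := by
  intro q hq
  obtain ⟨Cq, hCq, hLq⟩ := hL q hq
  refine ⟨8 * Cq + 56 * ((q : ℝ) + 1) * 2 ^ q, by positivity, ?_⟩
  intro κ α B T x hκ hα hα2 hB hB0 hT hG h3 t ht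
  obtain ⟨M0, hM0⟩ : ∃ M0 : ℝ, M0 = ∑ k ∈ B, if k.1 = 0 then
    (1 + |(k.2 : ℝ)|) ^ (2 * q + 1) * ‖x k 0‖ else 0 := ⟨_, rfl⟩
  rw [← hM0]
  have hM0' : 0 ≤ M0 := by
    rw [hM0]
    refine Finset.sum_nonneg fun k _ => ?_
    split_ifs
    · positivity
    · exact le_rfl
  have hF3 : 0 ≤ √(FF κ α B x 3 0) := Real.sqrt_nonneg _
  obtain ⟨D, hD⟩ : ∃ D : ℝ, D = 2 * Cq * M0 + 14 * ((q : ℝ) + 1) * 2 ^ q * √(FF κ α B x 3 0) :=
    ⟨_, rfl⟩
  have hD0 : 0 ≤ D := by rw [hD]; positivity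
  have hder : ∀ s ∈ Icc 0 t, HasDerivWithinAt (fun s => FF κ α B x q s)
      (-(2 * κ * ∑ k ∈ B, ww q k * eu k ^ (2 * α) * ‖hz κ α x k s‖ ^ 2) -
        2 * Sw B (ww q) (fun k => hz κ α x k s) -
        2 * ∑ k ∈ B, ww q k * ((starRingEnd ℂ) (hz κ α x k s) *
          ∑ j ∈ B, ((2 * sc j (k - j) : ℝ) : ℂ) *
            (hS κ α x j s * hz κ α x (k - j) s)).re) (Icc 0 t) s := by
    intro s hs
    have hs' : s ∈ Icc 0 T := ⟨hs.1, hs.2.trans ht.2⟩
    exact ((hZ B κ α T x hB hB0 hT hG s hs').2.2 (ww q)).mono (Icc_subset_Icc_right ht.2)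
  have hmain := GRQ_gronwall (fun s => FF κ α B x q s) _ (κ / 4) D t (by linarith) hD0 ht.1
    (GRQ_FF_nonneg κ α B x q 0) hder ?_
  · refine hmain.trans ?_
    refine mul_le_mul_of_nonneg_left (Real.exp_le_exp.2 ?_) (GRQ_FF_nonneg κ α B x q 0)
    rw [div_div_eq_mul_div, div_mul_eq_mul_div]
    refine div_le_div_of_nonneg_right ?_ hκ.le
    rw [hD]
    have e1 : 0 ≤ 56 * ((q : ℝ) + 1) * 2 ^ q * M0 := by positivity
    have e2 : 0 ≤ 8 * Cq * √(FF κ α B x 3 0) := by positivity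
    nlinarith
  · intro s hs
    have hs' : s ∈ Icc 0 T := ⟨hs.1, hs.2.trans ht.2⟩
    obtain ⟨hA1, hA2, -⟩ := hZ B κ α T x hB hB0 hT hG s hs'
    have hFq : 0 ≤ FF κ α B x q s := GRQ_FF_nonneg κ α B x q s
    -- the dissipation
    have t1 : 0 ≤ ∑ k ∈ B, ww q k * eu k ^ (2 * α) * ‖hz κ α x k s‖ ^ 2 :=
      Finset.sum_nonneg fun k _ => mul_nonneg (mul_nonneg (GRQ_ww_nonneg q k)
        (Real.rpow_nonneg (Pool.Agent.Work.MP_a2fcf1_an_h64.eu_nonneg k) _)) (sq_nonneg _)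
    -- the transfer
    have t2 := hW q B (fun k => hz κ α x k s) hq hB hB0 hA2
    have t2' : √(FF κ α B x 3 s) ≤ Real.exp (-(κ / 4 * s)) * √(FF κ α B x 3 0) := by
      have e1 := Real.sqrt_le_sqrt (h3 s hs')
      rw [Real.sqrt_mul (Real.exp_pos _).le] at e1
      have e2 : √(Real.exp (-(κ / 2 * s))) = Real.exp (-(κ / 4 * s)) := by
        rw [show -(κ / 2 * s) = -(κ / 4 * s) + -(κ / 4 * s) by ring, Real.exp_add]
        exact Real.sqrt_mul_self (Real.exp_pos _).le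
      rwa [e2] at e1
    have t2'' : |Sw B (ww q) (fun k => hz κ α x k s)| ≤ 7 * ((q : ℝ) + 1) * 2 ^ q *
        (Real.exp (-(κ / 4 * s)) * √(FF κ α B x 3 0) * FF κ α B x q s) := by
      refine t2.trans ?_
      refine mul_le_mul_of_nonneg_left ?_ (by positivity)
      exact mul_le_mul_of_nonneg_right t2' hFq
    -- the linear transfer
    have t3 := hLq B (fun k => hS κ α x k s) (fun k => hz κ α x k s) hB hB0 hA1 hA2
      (fun k hk => by simp only [hS, if_neg hk])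
    have t4 : (∑ j ∈ B, (1 + |(j.2 : ℝ)|) ^ (2 * q + 1) * ‖hS κ α x j s‖) ≤
        Real.exp (-(κ / 4 * s)) * M0 := by
      have e1 : (∑ j ∈ B, (1 + |(j.2 : ℝ)|) ^ (2 * q + 1) * ‖hS κ α x j s‖) ≤
          Real.exp (-(κ * s)) * M0 := by
        rw [hM0, Finset.mul_sum]
        exact Finset.sum_le_sum fun k hk => GRQ_hS_le hκ hα x (hB0 k hk) hs.1 _
      refine e1.trans (mul_le_mul_of_nonneg_right (Real.exp_le_exp.2 ?_) hM0')
      nlinarith [hs.1]
    have t5 : (∑ k ∈ B, if k.1 = 0 then 0 else ww q k * ‖hz κ α x k s‖ ^ 2) ≤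
        FF κ α B x q s := by
      refine Finset.sum_le_sum fun k _ => ?_
      split_ifs
      · exact mul_nonneg (GRQ_ww_nonneg q k) (sq_nonneg _)
      · exact le_rfl
    have t6 : 0 ≤ ∑ k ∈ B, if k.1 = 0 then 0 else ww q k * ‖hz κ α x k s‖ ^ 2 := by
      refine Finset.sum_nonneg fun k _ => ?_
      split_ifs
      · exact le_rfl
      · exact mul_nonneg (GRQ_ww_nonneg q k) (sq_nonneg _)
    have t7 := mul_le_mul (mul_le_mul_of_nonneg_left t4 hCq.le) t5 t6 (by positivity)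
    have t8 := t3.trans t7
    have a1 := neg_abs_le (Sw B (ww q) (fun k => hz κ α x k s))
    have a2 := neg_abs_le (∑ k ∈ B, ww q k * ((starRingEnd ℂ) (hz κ α x k s) *
          ∑ j ∈ B, ((2 * sc j (k - j) : ℝ) : ℂ) *
            (hS κ α x j s * hz κ α x (k - j) s)).re)
    have t9 : 0 ≤ 2 * κ * ∑ k ∈ B, ww q k * eu k ^ (2 * α) * ‖hz κ α x k s‖ ^ 2 := by positivity
    rw [hD]
    have e3 : (2 * Cq * M0 + 14 * ((q : ℝ) + 1) * 2 ^ q * √(FF κ α B x 3 0)) *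
        Real.exp (-(κ / 4 * s)) * FF κ α B x q s =
        2 * (Cq * (Real.exp (-(κ / 4 * s)) * M0) * FF κ α B x q s) +
        2 * (7 * ((q : ℝ) + 1) * 2 ^ q *
        (Real.exp (-(κ / 4 * s)) * √(FF κ α B x 3 0) * FF κ α B x q s)) := by ring
    rw [e3]
    linarith

end Pool.SQGA
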