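import Pool.Agent.Work.MP_a2fcf1_an_ar.I2

/-! # Block GSM (MP_a2fcf1_an): absolute convergence of the bilinear sum -/

set_option autoImplicit false

namespace Pool.SQGA

open Set MeasureTheory
open Pool.Agent.Work.MP_a2fcf1_an_h64 (cr sc eu n1)

noncomputable section

namespace X_GSM

open Pool.Agent.Work.MP_a2fcf1_an_h64 in
theorem cr_bound (j l : ℤ × ℤ) :
    ‖((cr j l : ℤ) : ℂ)‖ ≤ (1 + (n1 j : ℝ)) * (1 + (n1 l : ℝ)) := by
  rw [Complex.norm_intCast]
  refine (abs_cr_le_n1 j l).trans ?_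
  have h1 : (0 : ℝ) ≤ n1 j := Nat.cast_nonneg _
  have h2 : (0 : ℝ) ≤ n1 l := Nat.cast_nonneg _
  nlinarith

theorem summable_weighted {p : Par} (hp : p.Ok) {β t : ℝ} (hβ : 0 ≤ β) (ht : 0 ≤ t)
    (hβt : β * t ≤ p.s / 2) (h2 : Stmt_WTB) (h3 : Stmt_CNV) {Y y : ℤ × ℤ → ℂ} {A B : ℝ}
    (hA : 0 ≤ A) (hB : 0 ≤ B)
    (hY : ∀ k, ‖Y k‖ ≤ A * Wt p β t k) (hy : ∀ k, ‖y k‖ ≤ B * Wt p β t k) (k : ℤ × ℤ) :
    Summable fun j : ℤ × ℤ => ‖((cr j (k - j) : ℤ) : ℂ) * (Y j * y (k - j))‖ := by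
  obtain ⟨C, -, hC⟩ := h3
  have hs := ((hC p hp β t k hβ ht hβt).1.1).mul_left (A * B)
  refine Summable.of_nonneg_of_le (fun _ => norm_nonneg _) (fun j => ?_) hs
  have hW1 : 0 < Wt p β t j := ((h2 p hp β t hβ ht hβt).1 j).1
  have hW2 : 0 < Wt p β t (k - j) := ((h2 p hp β t hβ ht hβt).1 (k - j)).1
  rw [norm_mul, norm_mul]
  calc ‖((cr j (k - j) : ℤ) : ℂ)‖ * (‖Y j‖ * ‖y (k - j)‖)
      ≤ ((1 + (n1 j : ℝ)) * (1 + (n1 (k - j) : ℝ))) *
        ((A * Wt p β t j) * (B * Wt p β t (k - j))) := by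
        refine mul_le_mul (cr_bound _ _) ?_ (by positivity) (by positivity)
        exact mul_le_mul (hY j) (hy _) (norm_nonneg _) (by positivity)
    _ = A * B * ((1 + (n1 j : ℝ)) * (1 + (n1 (k - j) : ℝ)) *
        (Wt p β t j * Wt p β t (k - j))) := by ring

end X_GSM

open X_GSM

theorem p_GSM (h1 : Stmt_YB) (h2 : Stmt_WTB) (h3 : Stmt_CNV) (h4 : Stmt_VR) (h5 : Stmt_OMS) :
    Stmt_GSM := by
  intro p hp β t R x y hβ ht hβt htA hR hx hy k
  have hY := (h1 p hp β t R x hβ ht hβt htA hR hx).2.2.2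
  have hW := (h2 p hp β t hβ ht hβt).1
  have hyW : ∀ k, ‖y k‖ ≤ R * Wt p β t k := fun k =>
    (hy k).trans (mul_le_mul_of_nonneg_left (hW k).2.2 hR)
  have hB := summable_weighted hp hβ ht hβt h2 h3 (by positivity : 0 ≤ 2 * R) hR hY hyW k
  refine ⟨?_, hB⟩
  have hC : Summable fun j : ℤ × ℤ => ‖((cr j (k - j) : ℤ) : ℂ) *
      (Yv p t x j * if (k - j).1 = 0 then Sl p t (k - j).2 else 0)‖ := by
    have hinj : Function.Injective fun a : ℤ => ((k.1, k.2 - a) : ℤ × ℤ) := by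
      intro a b hab
      have h6 : k.2 - a = k.2 - b := congrArg Prod.snd hab
      linarith
    rw [← hinj.summable_iff]
    · have hAs : Summable fun l : ℤ => |(l : ℝ)| * ‖p.A l‖ := by
        refine Summable.of_nonneg_of_le (fun _ => by positivity) (fun l => ?_) hp.sum
        exact le_mul_of_one_le_left (by positivity) (h5.1 p.s l hp.s_pos.le)
      refine Summable.of_nonneg_of_le (fun _ => norm_nonneg _) (fun a => ?_)
        (hAs.mul_left (|(k.1 : ℝ)| * (2 * R)))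
      have e1 : k - (k.1, k.2 - a) = (0, a) := by
        ext
        · show k.1 - k.1 = 0
          ring
        · show k.2 - (k.2 - a) = a
          ring
      have hcr : cr (k.1, k.2 - a) (0, a) = k.1 * a := by
        simp [cr]
      have hW1 : Wt p β t (k.1, k.2 - a) ≤ 1 := by
        refine ((h2 p hp β t hβ ht hβt).2.2.2.2.2 _).trans ?_
        have h6 : (0 : ℝ) ≤ n1 (k.1, k.2 - a) := Nat.cast_nonneg _
        have h7 : Real.exp (-(p.s / 2 * n1 (k.1, k.2 - a))) ≤ 1 := by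
          rw [Real.exp_le_one_iff]
          have := hp.s_pos
          have h8 : 0 ≤ p.s / 2 * n1 (k.1, k.2 - a) := by positivity
          linarith
        have h8 : (1 : ℝ) ≤ (1 + n1 (k.1, k.2 - a)) ^ 4 := one_le_pow₀ (by linarith)
        rw [div_le_one (by linarith)]
        exact h7.trans h8
      have hYa : ‖Yv p t x (k.1, k.2 - a)‖ ≤ 2 * R := by
        refine (hY _).trans ?_
        have := mul_le_mul_of_nonneg_left hW1 (by positivity : 0 ≤ 2 * R)
        rwa [mul_one] at this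
      have hSa : ‖Sl p t a‖ ≤ ‖p.A a‖ := ((h4 p hp).1 t a ht).1
      show ‖((cr (k.1, k.2 - a) (k - (k.1, k.2 - a)) : ℤ) : ℂ) *
        (Yv p t x (k.1, k.2 - a) * if (k - (k.1, k.2 - a)).1 = 0 then
          Sl p t (k - (k.1, k.2 - a)).2 else 0)‖ ≤ _
      rw [e1, hcr]
      show ‖((k.1 * a : ℤ) : ℂ) * (Yv p t x (k.1, k.2 - a) *
        if (0 : ℤ) = 0 then Sl p t a else 0)‖ ≤ _
      rw [if_pos rfl, norm_mul, norm_mul, Complex.norm_intCast]
      push_cast
      rw [abs_mul]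
      calc |(k.1 : ℝ)| * |(a : ℝ)| * (‖Yv p t x (k.1, k.2 - a)‖ * ‖Sl p t a‖)
          ≤ |(k.1 : ℝ)| * |(a : ℝ)| * (2 * R * ‖p.A a‖) := by
            refine mul_le_mul_of_nonneg_left ?_ (by positivity)
            exact mul_le_mul hYa hSa (norm_nonneg _) (by positivity)
        _ = |(k.1 : ℝ)| * (2 * R) * (|(a : ℝ)| * ‖p.A a‖) := by ring
    · intro j hj
      have h6 : (k - j).1 ≠ 0 := by
        intro h7
        apply hj
        refine ⟨k.2 - j.2, ?_⟩
        have h8 : k.1 - j.1 = 0 := h7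
        ext
        · show k.1 = j.1
          linarith
        · show k.2 - (k.2 - j.2) = j.2
          ring
      rw [if_neg h6, mul_zero, mul_zero, norm_zero]
  refine Summable.of_nonneg_of_le (fun _ => norm_nonneg _) (fun j => ?_) (hB.add hC)
  have h6 : ((cr j (k - j) : ℤ) : ℂ) * (Yv p t x j * xh p t y (k - j)) =
      ((cr j (k - j) : ℤ) : ℂ) * (Yv p t x j * y (k - j)) +
      ((cr j (k - j) : ℤ) : ℂ) *
        (Yv p t x j * if (k - j).1 = 0 then Sl p t (k - j).2 else 0) := by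
    unfold xh
    ring
  rw [h6]
  exact norm_add_le _ _

end

end Pool.SQGA
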