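import Pool.Agent.Work.MP_a2fcf1_an_ar.I3

/-! # MP_a2fcf1_an (helper61), block GVB (typed by helper63) -/

set_option autoImplicit false

namespace Pool.SQGA

open Set MeasureTheory
open Pool.Agent.Work.MP_a2fcf1_an_h64 (cr sc eu n1)

noncomputable section

theorem gvb_summable : Summable fun l : ℤ => 1 / (1 + |(l : ℝ)|) ^ 3 := by
  rw [summable_int_iff_summable_nat_and_neg]
  have h : Summable fun n : ℕ => 1 / ((n : ℝ) + 1) ^ 3 := by
    have h1 := (summable_nat_add_iff 1).2 (Real.summable_one_div_nat_pow.2 (by norm_num : 1 < 3))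
    simpa using h1
  refine ⟨h.congr fun n => ?_, h.congr fun n => ?_⟩
  · have h2 : |(((n : ℤ) : ℤ) : ℝ)| = (n : ℝ) := by simp
    rw [h2, add_comm]
  · have h2 : |((-(n : ℤ) : ℤ) : ℝ)| = (n : ℝ) := by simp
    rw [h2, add_comm]

theorem gvb_zero (p : Par) (t : ℝ) (k : ℤ × ℤ) : Gb p t (fun _ => 0) k = 0 := by
  have h : ∀ j, Yv p t (fun _ => 0) j = 0 := by
    intro j
    simp [Yv]
  simp [Gb, h]

theorem p_GVB (hLIA : Stmt_LIA) (hLIB : Stmt_LIB) (hLIC : Stmt_LIC) (hWTB : Stmt_WTB) :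
    Stmt_GVB := by
  intro p hp β T R hβ hT hβT hTA hR
  obtain ⟨C₁, hC₁, hLIA⟩ := hLIA p.α hp.α_pos hp.α_lt
  obtain ⟨C₂, hC₂, hLIB⟩ := hLIB
  obtain ⟨C₃, hC₃, hLIC⟩ := hLIC
  have hAs : 0 ≤ p.As := by
    unfold Par.As
    refine tsum_nonneg fun l => ?_
    unfold om
    positivity
  have hκ := hp.κ_pos
  set K : ℤ → ℝ := fun m => (p.κ * (C₁ * (T * p.As) * (p.N * |(m : ℝ)|) ^ (2 * p.α)) +
    2 * p.As + C₂ * R + C₃ * R) * R with hK
  have hKm : ∀ m, 0 ≤ K m := by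
    intro m
    simp only [hK]
    positivity
  refine ⟨fun k => K k.1 * (1 / (1 + |(k.2 : ℝ)|) ^ 3), fun m => gvb_summable.mul_left (K m), ?_⟩
  rintro t ⟨ht0, htT⟩ x hx ⟨m, l⟩
  have hβt : β * t ≤ p.s / 2 := (mul_le_mul_of_nonneg_left htT hβ).trans hβT
  have htA' : t * p.As ≤ T * p.As := mul_le_mul_of_nonneg_right htT hAs
  have htA : t * p.As ≤ 1 / 2 := htA'.trans hTA
  obtain ⟨hW1, hW2, hW3, hW4, hW5, hW6⟩ := hWTB p hp β t hβ ht0 hβt
  have h0 : Bd p β t R (fun _ => 0) := by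
    intro k
    rw [norm_zero]
    exact mul_nonneg hR (hW1 k).2.1.le
  have hd : Bd p β t R (fun k => x k - (fun _ => (0 : ℂ)) k) := by
    intro k
    simpa using hx k
  -- the weight
  have hn : (|(l : ℝ)|) ≤ (n1 (m, l) : ℝ) := by
    unfold n1
    push_cast
    rw [Nat.cast_natAbs, Nat.cast_natAbs]
    push_cast
    linarith [abs_nonneg (m : ℝ)]
  set n : ℝ := (n1 (m, l) : ℝ) with hnn
  have hn0 : 0 ≤ n := Nat.cast_nonneg _
  have hs := hp.s_pos
  have hWt : Wt p β t (m, l) ≤ 1 / (1 + n) ^ 4 := by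
    refine (hW6 (m, l)).trans ?_
    refine div_le_div_of_nonneg_right ?_ (by positivity)
    rw [Real.exp_le_one_iff]
    have : 0 ≤ p.s / 2 * n := by positivity
    linarith
  have hq1 : (1 + n) * (1 / (1 + n) ^ 4) ≤ 1 / (1 + |(l : ℝ)|) ^ 3 := by
    have e : (1 + n) * (1 / (1 + n) ^ 4) = 1 / (1 + n) ^ 3 := by
      field_simp
    rw [e]
    exact one_div_le_one_div_of_le (by positivity)
      (pow_le_pow_left₀ (by positivity) (by linarith) 3)
  have hWt1 : (1 + n) * Wt p β t (m, l) ≤ 1 / (1 + |(l : ℝ)|) ^ 3 :=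
    (mul_le_mul_of_nonneg_left hWt (by linarith)).trans hq1
  have hWp := (hW1 (m, l)).1
  have hwp := (hW1 (m, l)).2.1
  have hwW := (hW1 (m, l)).2.2
  have hw1 : (1 + n) * wv p β t (m, l) ≤ 1 / (1 + |(l : ℝ)|) ^ 3 :=
    (mul_le_mul_of_nonneg_left hwW (by linarith)).trans hWt1
  have hw0 : wv p β t (m, l) ≤ (1 + n) * wv p β t (m, l) :=
    le_mul_of_one_le_left hwp.le (by linarith only [hn0])
  show ‖Gv p t x (m, l)‖ ≤ K m * (1 / (1 + |(l : ℝ)|) ^ 3)
  set q : ℝ := 1 / (1 + |(l : ℝ)|) ^ 3 with hq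
  have hq0 : 0 ≤ q := by positivity
  unfold Gv
  have hG : ‖-((p.κ : ℂ) * Gl p t x (m, l)) - Gb p t x (m, l)‖ ≤
      p.κ * ‖Gl p t x (m, l)‖ + ‖Gb p t x (m, l)‖ := by
    refine (norm_sub_le _ _).trans (le_of_eq ?_)
    rw [norm_neg, norm_mul, Complex.norm_real, Real.norm_eq_abs, abs_of_pos hκ]
  refine hG.trans ?_
  by_cases hm : m = 0
  · subst hm
    have h1 := (hLIA p hp rfl β t R x hβ ht0 hβt htA hR hx).2.2 (0, l) rfl
    have h2 := hLIC p hp β t R R x (fun _ => 0) hβ ht0 hβt htA hR hR hx h0 hd l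
    rw [gvb_zero, sub_zero] at h2
    rw [h1, norm_zero, mul_zero, zero_add]
    have h3 : |(l : ℝ)| * min 1 (|(l : ℝ)| / p.N) ≤ 1 + n := by
      have h4 : min 1 (|(l : ℝ)| / p.N) ≤ 1 := min_le_left _ _
      have h4' := mul_le_mul_of_nonneg_left h4 (abs_nonneg (l : ℝ))
      linarith only [h4', hn]
    have h5 : C₃ * R * (|(l : ℝ)| * min 1 (|(l : ℝ)| / p.N)) * (R * Wt p β t (0, l)) ≤
        C₃ * R * (1 + n) * (R * Wt p β t (0, l)) := by
      refine mul_le_mul_of_nonneg_right (mul_le_mul_of_nonneg_left h3 (by positivity)) ?_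
      positivity
    have h6 : C₃ * R * (1 + n) * (R * Wt p β t (0, l)) =
        (C₃ * R * R) * ((1 + n) * Wt p β t (0, l)) := by ring
    have h7 : (C₃ * R * R) * ((1 + n) * Wt p β t (0, l)) ≤ (C₃ * R * R) * q :=
      mul_le_mul_of_nonneg_left hWt1 (by positivity)
    have h8 : (C₃ * R * R) * q ≤ K 0 * q := by
      refine mul_le_mul_of_nonneg_right ?_ hq0
      simp only [hK]
      have h9 : 0 ≤ (p.κ * (C₁ * (T * p.As) * (p.N * |((0 : ℤ) : ℝ)|) ^ (2 * p.α)) +
        2 * p.As + C₂ * R) * R := by positivity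
      linarith only [h9, add_mul (p.κ * (C₁ * (T * p.As) * (p.N * |((0 : ℤ) : ℝ)|) ^ (2 * p.α)) +
        2 * p.As + C₂ * R) (C₃ * R) R]
    linarith
  · have h1 := (hLIA p hp rfl β t R x hβ ht0 hβt htA hR hx).2.1 (m, l) hm
    have h2 := hLIB p hp β t R R x (fun _ => 0) hβ ht0 hβt htA hR hR hx h0 hd (m, l) hm
    rw [gvb_zero, sub_zero] at h2
    set L : ℝ := (p.N * |(m : ℝ)|) ^ (2 * p.α) with hL
    have hL0 : 0 ≤ L := by positivity
    have h3 : p.κ * ‖Gl p t x (m, l)‖ ≤ (p.κ * (C₁ * (T * p.As) * L)) * R * q := by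
      calc p.κ * ‖Gl p t x (m, l)‖ ≤ p.κ * (C₁ * (t * p.As) * L * (R * wv p β t (m, l))) :=
            mul_le_mul_of_nonneg_left h1 hκ.le
        _ = p.κ * (C₁ * (t * p.As) * L) * (R * wv p β t (m, l)) := by ring
        _ ≤ p.κ * (C₁ * (T * p.As) * L) * (R * q) := by
            refine mul_le_mul ?_ (mul_le_mul_of_nonneg_left (hw0.trans hw1) hR) (by positivity)
              (by positivity)
            refine mul_le_mul_of_nonneg_left ?_ hκ.le
            refine mul_le_mul_of_nonneg_right ?_ hL0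
            exact mul_le_mul_of_nonneg_left htA' hC₁.le
        _ = (p.κ * (C₁ * (T * p.As) * L)) * R * q := by ring
    have h4 : ‖Gb p t x (m, l)‖ ≤ (2 * p.As + C₂ * R) * R * q := by
      refine h2.trans ?_
      calc (2 * p.As + C₂ * R * (1 + n)) * (R * wv p β t (m, l))
          = 2 * p.As * R * wv p β t (m, l) + C₂ * R * R * ((1 + n) * wv p β t (m, l)) := by ring
        _ ≤ 2 * p.As * R * q + C₂ * R * R * q := by
            refine add_le_add (mul_le_mul_of_nonneg_left (hw0.trans hw1) (by positivity))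
              (mul_le_mul_of_nonneg_left hw1 (by positivity))
        _ = (2 * p.As + C₂ * R) * R * q := by ring
    have h5 : 0 ≤ C₃ * R * R * q := by positivity
    have h6 : K m * q = (p.κ * (C₁ * (T * p.As) * L)) * R * q + (2 * p.As + C₂ * R) * R * q +
        C₃ * R * R * q := by
      simp only [hK]
      ring
    linarith

end

end Pool.SQGA
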