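import Pool.Agent.Work.MP_a2fcf1_an_ar.I1

/-! # Block KER: the Laplace kernel and its moments (helper86) -/

set_option autoImplicit false

namespace Pool.SQGA

open Set MeasureTheory

theorem KER_int {f : ℝ → ℝ} (hf : IntegrableOn f (Ioi 0)) : Integrable (fun x => f |x|) := by
  have h1 : IntegrableOn (fun x => f |x|) (Ioi 0) :=
    hf.congr_fun (fun x hx => by
      show f x = f |x|
      rw [abs_of_pos (show (0 : ℝ) < x from hx)]) measurableSet_Ioi
  have h2 : IntegrableOn (fun x => f |x|) (Iic 0) := by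
    rw [integrableOn_Iic_iff_integrableOn_Iio]
    have h3 : IntegrableOn (fun x => f |-x|) (Iio 0) := by
      have h4 : IntegrableOn (fun x => f |x|) (Ioi (-0)) := by
        rw [neg_zero]
        exact h1
      exact h4.comp_neg_Iio
    exact h3.congr_fun (fun x _ => by
      show f |-x| = f |x|
      rw [abs_neg]) measurableSet_Iio
  rw [← integrableOn_univ, ← Iic_union_Ioi (a := (0 : ℝ))]
  exact h2.union h1

theorem KER_A {c : ℝ} (hc : 0 < c) : IntegrableOn (fun x : ℝ => Real.exp (-(c * x))) (Ioi 0) ∧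
    ∫ x in Ioi (0 : ℝ), Real.exp (-(c * x)) = 1 / c := by
  have hc' : -c < 0 := by linarith
  have h1 := integrableOn_exp_mul_Ioi hc' 0
  have h2 := integral_exp_mul_Ioi hc' 0
  simp only [neg_mul] at h1 h2
  refine ⟨h1, h2.trans ?_⟩
  rw [mul_zero, neg_zero, Real.exp_zero, neg_div_neg_eq]

theorem KER_B {c : ℝ} (hc : 0 < c) :
    IntegrableOn (fun x : ℝ => x * Real.exp (-(c * x))) (Ioi 0) ∧
    ∫ x in Ioi (0 : ℝ), x * Real.exp (-(c * x)) = 1 / c ^ 2 := by
  constructor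
  · have h1 := integrableOn_rpow_mul_exp_neg_mul_rpow (p := 1) (s := 1) (b := c) (by norm_num)
      one_pos hc
    refine h1.congr_fun (fun x _ => ?_) measurableSet_Ioi
    show x ^ (1 : ℝ) * Real.exp (-c * x ^ (1 : ℝ)) = x * Real.exp (-(c * x))
    rw [Real.rpow_one, neg_mul]
  · have h2 := Real.integral_rpow_mul_exp_neg_mul_Ioi (a := 2) (r := c) two_pos hc
    have h3 : ∫ x in Ioi (0 : ℝ), x * Real.exp (-(c * x)) =
        ∫ t in Ioi (0 : ℝ), t ^ ((2 : ℝ) - 1) * Real.exp (-(c * t)) := by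
      refine setIntegral_congr_fun measurableSet_Ioi (fun x _ => ?_)
      show x * Real.exp (-(c * x)) = x ^ ((2 : ℝ) - 1) * Real.exp (-(c * x))
      rw [show (2 : ℝ) - 1 = 1 by norm_num, Real.rpow_one]
    rw [h3, h2, Real.Gamma_two, mul_one, Real.rpow_two, one_div, inv_pow, one_div]

theorem KER_C (ν : ℝ) (hν : 0 < ν) (b : ℤ) :
    Integrable (fun z : ℝ => ((kn ν z : ℝ) : ℂ) * e1 (-b) z) ∧
      ((ph ν b : ℝ) : ℂ) = ∫ z, ((kn ν z : ℝ) : ℂ) * e1 (-b) z := by
  set f : ℝ → ℂ := fun z : ℝ => ((kn ν z : ℝ) : ℂ) * e1 (-b) z with hf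
  have ha1 : ((-(ν : ℂ)) - Complex.I * (b : ℂ)).re < 0 := by simpa using hν
  have ha2 : 0 < ((ν : ℂ) - Complex.I * (b : ℂ)).re := by simpa using hν
  have e1' : ∀ z ∈ Ioi (0 : ℝ), (1 / (2 * (ν : ℂ))) *
      Complex.exp (((-(ν : ℂ)) - Complex.I * (b : ℂ)) * z) = f z := by
    intro z hz
    simp only [hf, kn, e1]
    rw [abs_of_pos (show (0 : ℝ) < z from hz)]
    push_cast
    rw [show ((-(ν : ℂ)) - Complex.I * (b : ℂ)) * z =
      -((ν : ℂ) * z) + Complex.I * (-(b : ℂ) * z) by ring, Complex.exp_add]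
    ring
  have e2' : ∀ z ∈ Iic (0 : ℝ), (1 / (2 * (ν : ℂ))) *
      Complex.exp (((ν : ℂ) - Complex.I * (b : ℂ)) * z) = f z := by
    intro z hz
    simp only [hf, kn, e1]
    rw [abs_of_nonpos (show z ≤ (0 : ℝ) from hz)]
    push_cast
    rw [show ((ν : ℂ) - Complex.I * (b : ℂ)) * z =
      -((ν : ℂ) * -z) + Complex.I * (-(b : ℂ) * z) by ring, Complex.exp_add]
    ring
  have i1 : IntegrableOn f (Ioi 0) :=
    IntegrableOn.congr_fun ((integrableOn_exp_mul_complex_Ioi ha1 0).const_mul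
      (1 / (2 * (ν : ℂ)))) e1' measurableSet_Ioi
  have i2 : IntegrableOn f (Iic 0) :=
    IntegrableOn.congr_fun ((integrableOn_exp_mul_complex_Iic ha2 0).const_mul
      (1 / (2 * (ν : ℂ)))) e2' measurableSet_Iic
  have hI : Integrable f := by
    rw [← integrableOn_univ, ← Iic_union_Ioi (a := (0 : ℝ))]
    exact i2.union i1
  refine ⟨hI, ?_⟩
  have v1 : ∫ z in Ioi (0 : ℝ), f z = (1 / (2 * (ν : ℂ))) *
      (-1 / ((-(ν : ℂ)) - Complex.I * (b : ℂ))) := by
    rw [← setIntegral_congr_fun measurableSet_Ioi e1', integral_const_mul,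
      integral_exp_mul_complex_Ioi ha1 0]
    simp
  have v2 : ∫ z in Iic (0 : ℝ), f z = (1 / (2 * (ν : ℂ))) *
      (1 / ((ν : ℂ) - Complex.I * (b : ℂ))) := by
    rw [← setIntegral_congr_fun measurableSet_Iic e2', integral_const_mul,
      integral_exp_mul_complex_Iic ha2 0]
    simp
  have v3 : ∫ z, f z = (∫ z in Iic (0 : ℝ), f z) + ∫ z in Ioi (0 : ℝ), f z := by
    rw [← setIntegral_union (Iic_disjoint_Ioi le_rfl) measurableSet_Ioi i2 i1, Iic_union_Ioi,
      Measure.restrict_univ]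
  rw [v3, v1, v2]
  have hν0 : (ν : ℂ) ≠ 0 := by
    exact_mod_cast hν.ne'
  have n1 : (ν : ℂ) - Complex.I * (b : ℂ) ≠ 0 := by
    intro h
    rw [h] at ha2
    simp at ha2
  have n2 : (-(ν : ℂ)) - Complex.I * (b : ℂ) ≠ 0 := by
    intro h
    rw [h] at ha1
    simp at ha1
  have n3 : (ν : ℂ) ^ 2 + (b : ℂ) ^ 2 ≠ 0 := by
    have : (ν : ℂ) ^ 2 + (b : ℂ) ^ 2 = -(((ν : ℂ) - Complex.I * (b : ℂ)) *
        ((-(ν : ℂ)) - Complex.I * (b : ℂ))) := by
      have hI2 : Complex.I ^ 2 = -1 := Complex.I_sq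
      linear_combination (b : ℂ) ^ 2 * hI2
    rw [this]
    exact neg_ne_zero.2 (mul_ne_zero n1 n2)
  simp only [ph]
  push_cast
  have hI2 : Complex.I ^ 2 = -1 := Complex.I_sq
  rw [← mul_add, div_add_div _ _ n1 n2, div_mul_div_comm,
    div_eq_div_iff n3 (mul_ne_zero (mul_ne_zero two_ne_zero hν0) (mul_ne_zero n1 n2))]
  linear_combination (2 * (ν : ℂ) * (b : ℂ) ^ 2) * hI2

theorem p_KER : Stmt_KER := by
  intro ν hν
  refine ⟨KER_C ν hν, ?_⟩
  intro q hq hqν
  have hc : 0 < ν - q := by linarith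
  obtain ⟨A1, A2⟩ := KER_A hc
  obtain ⟨B1, B2⟩ := KER_B hc
  have eA : (fun z => kn ν z * Real.exp (q * |z|)) =
      fun z => (fun x => (1 / (2 * ν)) * Real.exp (-((ν - q) * x))) |z| := by
    funext z
    show Real.exp (-(ν * |z|)) / (2 * ν) * Real.exp (q * |z|) =
      (1 / (2 * ν)) * Real.exp (-((ν - q) * |z|))
    rw [show -((ν - q) * |z|) = -(ν * |z|) + q * |z| by ring, Real.exp_add]
    ring
  have eB : (fun z => kn ν z * (|z| * Real.exp (q * |z|))) =
      fun z => (fun x => (1 / (2 * ν)) * (x * Real.exp (-((ν - q) * x)))) |z| := by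
    funext z
    show Real.exp (-(ν * |z|)) / (2 * ν) * (|z| * Real.exp (q * |z|)) =
      (1 / (2 * ν)) * (|z| * Real.exp (-((ν - q) * |z|)))
    rw [show -((ν - q) * |z|) = -(ν * |z|) + q * |z| by ring, Real.exp_add]
    ring
  refine ⟨?_, ?_, ?_, ?_⟩
  · rw [eA]
    exact KER_int (A1.const_mul _)
  · rw [eA]
    refine (integral_comp_abs (f := fun x => (1 / (2 * ν)) * Real.exp (-((ν - q) * x)))).trans ?_
    rw [integral_const_mul, A2]
    field_simp
  · rw [eB]
    exact KER_int (B1.const_mul _)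
  · rw [eB]
    refine (integral_comp_abs
      (f := fun x => (1 / (2 * ν)) * (x * Real.exp (-((ν - q) * x))))).trans ?_
    rw [integral_const_mul, B2]
    field_simp

end Pool.SQGA
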