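import Pool.Agent.Work.MP_a2fcf1_an_ar.I2

/-! # Block LIA (helper53): the linear part -/

set_option autoImplicit false

namespace Pool.SQGA

open Set MeasureTheory
open Pool.Agent.Work.MP_a2fcf1_an_h64 (cr sc eu n1)

noncomputable section

theorem p_LIA (hR1 : Stmt_R1) (hSYP : Stmt_SYP) (hWTB : Stmt_WTB) (_hOMS : Stmt_OMS) :
    Stmt_LIA := by
  intro α hα hα'
  obtain ⟨C, hC, hR⟩ := hR1 α hα hα'
  refine ⟨C, hC, ?_⟩
  intro p hp hpα β t d x hβ ht hβt htA hd hx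
  obtain ⟨-, -, hzero⟩ := hSYP p hp
  obtain ⟨hpos, -, -, -, hshift, -⟩ := hWTB p hp β t hβ ht hβt
  have hbd : ∀ (k : ℤ × ℤ), k.1 ≠ 0 → ∀ l' : ℤ, ‖Rm p t k.1 k.2 l' * x (k.1, l')‖ ≤
      (d * wv p β t k) * (om p.s (k.2 - l') * ‖Rm p t k.1 k.2 l'‖) := by
    intro k hk l'
    rw [norm_mul]
    have h1 : ‖x (k.1, l')‖ ≤ d * (om p.s (k.2 - l') * wv p β t k) := by
      refine (hx (k.1, l')).trans ?_
      exact mul_le_mul_of_nonneg_left ((hshift k.1 k.2 l').2 hk) hd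
    calc ‖Rm p t k.1 k.2 l'‖ * ‖x (k.1, l')‖
        ≤ ‖Rm p t k.1 k.2 l'‖ * (d * (om p.s (k.2 - l') * wv p β t k)) :=
          mul_le_mul_of_nonneg_left h1 (norm_nonneg _)
      _ = (d * wv p β t k) * (om p.s (k.2 - l') * ‖Rm p t k.1 k.2 l'‖) := by ring
  have hsum : ∀ k : ℤ × ℤ, Summable fun l' => ‖Rm p t k.1 k.2 l' * x (k.1, l')‖ := by
    intro k
    by_cases hk : k.1 = 0
    · have h1 : (fun l' => ‖Rm p t k.1 k.2 l' * x (k.1, l')‖) = fun _ => 0 := by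
        funext l'
        rw [hk, (hzero k.2 l' t ht).2, zero_mul, norm_zero]
      rw [h1]
      exact summable_zero
    · refine Summable.of_nonneg_of_le (fun _ => norm_nonneg _) (hbd k hk) ?_
      exact ((hR p hp hpα k.1 k.2 t ht htA hk).1).mul_left _
  refine ⟨hsum, ?_, ?_⟩
  · intro k hk
    obtain ⟨hs, hle⟩ := hR p hp hpα k.1 k.2 t ht htA hk
    have hw : 0 ≤ d * wv p β t k := mul_nonneg hd (hpos k).2.1.le
    unfold Gl
    calc ‖∑' l', Rm p t k.1 k.2 l' * x (k.1, l')‖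
        ≤ ∑' l', ‖Rm p t k.1 k.2 l' * x (k.1, l')‖ := norm_tsum_le_tsum_norm (hsum k)
      _ ≤ ∑' l', (d * wv p β t k) * (om p.s (k.2 - l') * ‖Rm p t k.1 k.2 l'‖) :=
          (hsum k).tsum_le_tsum (hbd k hk) (hs.mul_left _)
      _ = (d * wv p β t k) * ∑' l', om p.s (k.2 - l') * ‖Rm p t k.1 k.2 l'‖ := tsum_mul_left
      _ ≤ (d * wv p β t k) * (C * (t * p.As) * (p.N * |(k.1 : ℝ)|) ^ (2 * α)) :=
          mul_le_mul_of_nonneg_left hle hw
      _ = C * (t * p.As) * (p.N * |(k.1 : ℝ)|) ^ (2 * α) * (d * wv p β t k) := by ring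
  · intro k hk
    unfold Gl
    have h1 : (fun l' => Rm p t k.1 k.2 l' * x (k.1, l')) = fun _ => 0 := by
      funext l'
      rw [hk, (hzero k.2 l' t ht).2, zero_mul]
    rw [h1, tsum_zero]

end

end Pool.SQGA
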