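import Pool.Agent.Work.MP_a2fcf1_an_ar.I2

/-!
# Block LIB: Lipschitz bound of the bilinear part at `k.1 ≠ 0`
-/

set_option autoImplicit false

namespace Pool.SQGA

open Set MeasureTheory
open Pool.Agent.Work.MP_a2fcf1_an_h64 (cr sc eu n1 abs_cr_le_n1)

noncomputable section

theorem p_LIB (hVR : Stmt_VR) (hWTB : Stmt_WTB) (hCNV : Stmt_CNV) (hYB : Stmt_YB)
    (hGSM : Stmt_GSM) : Stmt_LIB := by
  obtain ⟨C0, hC0, hcnv⟩ := hCNV
  refine ⟨4 * C0, by linarith, ?_⟩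
  intro p hp β t R d x x' hβ ht hβt htA hR hd hx hx' hdx k hk
  obtain ⟨w1, w2, w3, w4, w5, w6⟩ := hWTB p hp β t hβ ht hβt
  obtain ⟨y, hy⟩ : ∃ y : ℤ × ℤ → ℂ, ∀ k, y k = x k - x' k := ⟨fun k => x k - x' k, fun _ => rfl⟩
  have hdy : Bd p β t d y := by
    intro k
    rw [hy]
    exact hdx k
  obtain ⟨yx1, -, -, -⟩ := hYB p hp β t R x hβ ht hβt htA hR hx
  obtain ⟨yx'1, -, yx'3, yx'4⟩ := hYB p hp β t R x' hβ ht hβt htA hR hx'
  obtain ⟨-, yy2, yy3, yy4⟩ := hYB p hp β t d y hβ ht hβt htA hd hdy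
  have hE0 : 0 < Ef p t := w3.1
  have hW0 : ∀ j, 0 < Wt p β t j := fun j => (w1 j).1
  have hw0 : ∀ j, 0 < wv p β t j := fun j => (w1 j).2.1
  have hYadd : ∀ j, Yv p t x j - Yv p t x' j = Yv p t y j := by
    intro j
    unfold Yv
    rw [← mul_sub, ← Summable.tsum_sub (yx1 j).of_norm (yx'1 j).of_norm]
    congr 1
    refine tsum_congr (fun l' => ?_)
    rw [hy]
    ring
  have gx := (hGSM p hp β t R x x hβ ht hβt htA hR hx hx k).1.of_norm
  have gx' := (hGSM p hp β t R x' x' hβ ht hβt htA hR hx' hx' k).1.of_norm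
  have hdiff : Gb p t x k - Gb p t x' k = ∑' j : ℤ × ℤ, ((cr j (k - j) : ℤ) : ℂ) *
      (Yv p t y j * xh p t x (k - j) + Yv p t x' j * y (k - j)) := by
    unfold Gb
    rw [← Summable.tsum_sub gx gx']
    refine tsum_congr (fun j => ?_)
    have h1 := hYadd j
    have h2 : xh p t x (k - j) - xh p t x' (k - j) = y (k - j) := by
      unfold xh
      rw [hy]
      ring
    rw [← h1, ← h2]
    ring
  -- the part with the shear
  obtain ⟨F, hF⟩ : ∃ F : ℤ → ℝ, ∀ l, F l = om p.s l * (|(l : ℝ)| * ‖p.A l‖) :=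
    ⟨_, fun _ => rfl⟩
  have hFs : HasSum F p.As := by
    have h1 : F = fun l => om p.s l * (|(l : ℝ)| * ‖p.A l‖) := funext hF
    rw [h1]
    exact hp.sum.hasSum
  obtain ⟨u, hu⟩ : ∃ u : ℤ × ℤ → ℝ, ∀ j, u j =
      if j.1 = k.1 then 2 * d * wv p β t k * F (k.2 - j.2) else 0 := ⟨_, fun _ => rfl⟩
  have hus : HasSum u (2 * d * wv p β t k * p.As) := by
    have hinj : Function.Injective (fun a : ℤ => ((k.1, a) : ℤ × ℤ)) :=
      fun a b h => (Prod.mk.inj h).2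
    refine (hinj.hasSum_iff ?_).1 ?_
    · intro j hj
      rw [hu]
      apply if_neg
      intro h
      exact hj ⟨j.2, by rw [← h]⟩
    · have h1 : HasSum (fun a => F (k.2 - a)) p.As := (Equiv.subLeft k.2).hasSum_iff.2 hFs
      have h2 := h1.mul_left (2 * d * wv p β t k)
      have h3 : (u ∘ fun a : ℤ => ((k.1, a) : ℤ × ℤ)) =
          fun a => 2 * d * wv p β t k * F (k.2 - a) := by
        funext a
        rw [Function.comp_apply, hu, if_pos rfl]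
      rw [h3]
      exact h2
  have hprod : ∀ (j : ℤ × ℤ) (v v' : ℤ × ℤ → ℂ) (D E : ℝ), 0 ≤ D → 0 ≤ E →
      (∀ k : ℤ × ℤ, k.1 ≠ 0 → ‖Yv p t v k‖ ≤ 2 * D * (Ef p t * Wt p β t k)) →
      (∀ k, ‖Yv p t v k‖ ≤ 2 * D * Wt p β t k) → Bd p β t E v' →
      ‖Yv p t v j‖ * ‖v' (k - j)‖ ≤
        2 * D * E * (Ef p t * (Wt p β t j * Wt p β t (k - j))) := by
    intro j v v' D E hD hE h3 h4 hv'
    by_cases hj : j.1 = 0
    · have hkj : (k - j).1 ≠ 0 := by
        rw [Prod.fst_sub, hj, sub_zero]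
        exact hk
      have h5 : ‖v' (k - j)‖ ≤ E * (Ef p t * Wt p β t (k - j)) := by
        rw [← w2 _ hkj]
        exact hv' _
      have h6 : ‖Yv p t v j‖ * ‖v' (k - j)‖ ≤
          (2 * D * Wt p β t j) * (E * (Ef p t * Wt p β t (k - j))) :=
        mul_le_mul (h4 j) h5 (norm_nonneg _)
          (mul_nonneg (by positivity) (hW0 j).le)
      refine h6.trans (le_of_eq ?_)
      ring
    · have h5 : ‖v' (k - j)‖ ≤ E * Wt p β t (k - j) :=
        (hv' _).trans (mul_le_mul_of_nonneg_left (w1 _).2.2 hE)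
      have h6 : ‖Yv p t v j‖ * ‖v' (k - j)‖ ≤
          (2 * D * (Ef p t * Wt p β t j)) * (E * Wt p β t (k - j)) :=
        mul_le_mul (h3 j hj) h5 (norm_nonneg _)
          (mul_nonneg (by positivity) (mul_nonneg hE0.le (hW0 j).le))
      refine h6.trans (le_of_eq ?_)
      ring
  have hshear : ∀ j : ℤ × ℤ, |((cr j (k - j) : ℤ) : ℝ)| * (‖Yv p t y j‖ *
      ‖(if (k - j).1 = 0 then Sl p t (k - j).2 else 0)‖) ≤ u j := by
    intro j
    by_cases h : (k - j).1 = 0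
    · have h1 : k.1 - j.1 = 0 := h
      have h2 : j.1 = k.1 := by linarith
      have h3 : (k - j).2 = k.2 - j.2 := rfl
      have h4 : cr j (k - j) = j.1 * (k.2 - j.2) := by
        unfold cr
        rw [h, h3]
        ring
      rw [if_pos h, hu, if_pos h2, h3, h4, hF]
      have h5 : |(((j.1 * (k.2 - j.2) : ℤ)) : ℝ)| = |(j.1 : ℝ)| * |((k.2 - j.2 : ℤ) : ℝ)| := by
        rw [Int.cast_mul, abs_mul]
      rw [h5]
      have h6 : |(j.1 : ℝ)| * ‖Yv p t y j‖ ≤ 2 * d * wv p β t j :=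
        yy2 j (by rw [h2]; exact hk)
      have h7 : ‖Sl p t (k.2 - j.2)‖ ≤ ‖p.A (k.2 - j.2)‖ := ((hVR p hp).1 t _ ht).1
      have h8 : wv p β t j ≤ om p.s (k.2 - j.2) * wv p β t k := by
        have h9 := (w5 k.1 k.2 j.2).2 hk
        have h10 : ((k.1, j.2) : ℤ × ℤ) = j := by rw [← h2]
        rw [h10] at h9
        exact h9
      have h11 : |(j.1 : ℝ)| * ‖Yv p t y j‖ ≤ 2 * d * (om p.s (k.2 - j.2) * wv p β t k) :=
        h6.trans (mul_le_mul_of_nonneg_left h8 (by positivity))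
      have h12 : |((k.2 - j.2 : ℤ) : ℝ)| * ‖Sl p t (k.2 - j.2)‖ ≤
          |((k.2 - j.2 : ℤ) : ℝ)| * ‖p.A (k.2 - j.2)‖ :=
        mul_le_mul_of_nonneg_left h7 (abs_nonneg _)
      have h13 : (|(j.1 : ℝ)| * ‖Yv p t y j‖) *
          (|((k.2 - j.2 : ℤ) : ℝ)| * ‖Sl p t (k.2 - j.2)‖) ≤
          (2 * d * (om p.s (k.2 - j.2) * wv p β t k)) *
          (|((k.2 - j.2 : ℤ) : ℝ)| * ‖p.A (k.2 - j.2)‖) :=
        mul_le_mul h11 h12 (by positivity) (le_trans (by positivity) h11)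
      calc |(j.1 : ℝ)| * |((k.2 - j.2 : ℤ) : ℝ)| * (‖Yv p t y j‖ * ‖Sl p t (k.2 - j.2)‖)
          = (|(j.1 : ℝ)| * ‖Yv p t y j‖) *
            (|((k.2 - j.2 : ℤ) : ℝ)| * ‖Sl p t (k.2 - j.2)‖) := by ring
        _ ≤ _ := h13
        _ = _ := by ring
    · have h2 : ¬ j.1 = k.1 := by
        intro h2
        apply h
        rw [Prod.fst_sub, h2, sub_self]
      rw [if_neg h, hu, if_neg h2, norm_zero, mul_zero, mul_zero]
  obtain ⟨⟨hs1, hs2⟩, -⟩ := hcnv p hp β t k hβ ht hβt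
  have hterm : ∀ j : ℤ × ℤ, ‖((cr j (k - j) : ℤ) : ℂ) *
      (Yv p t y j * xh p t x (k - j) + Yv p t x' j * y (k - j))‖ ≤
      4 * d * R * Ef p t * ((1 + (n1 j : ℝ)) * (1 + (n1 (k - j) : ℝ)) *
        (Wt p β t j * Wt p β t (k - j))) + u j := by
    intro j
    rw [norm_mul, Complex.norm_intCast]
    have hcr := abs_cr_le_n1 j (k - j)
    have hcr2 : |((cr j (k - j) : ℤ) : ℝ)| ≤ (1 + (n1 j : ℝ)) * (1 + (n1 (k - j) : ℝ)) := by
      refine hcr.trans ?_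
      have h1 : (0 : ℝ) ≤ n1 j := Nat.cast_nonneg _
      have h2 : (0 : ℝ) ≤ n1 (k - j) := Nat.cast_nonneg _
      nlinarith
    have h1 := hprod j y x d R hd hR yy3 yy4 hx
    have h2 := hprod j x' y R d hR hd yx'3 yx'4 hdy
    have h3 := hshear j
    have h4 : ‖Yv p t y j * xh p t x (k - j) + Yv p t x' j * y (k - j)‖ ≤
        (‖Yv p t y j‖ * ‖x (k - j)‖ + ‖Yv p t x' j‖ * ‖y (k - j)‖) +
        ‖Yv p t y j‖ * ‖(if (k - j).1 = 0 then Sl p t (k - j).2 else 0)‖ := by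
      have h5 : ‖xh p t x (k - j)‖ ≤ ‖x (k - j)‖ +
          ‖(if (k - j).1 = 0 then Sl p t (k - j).2 else 0)‖ := norm_add_le _ _
      have h6 := mul_le_mul_of_nonneg_left h5 (norm_nonneg (Yv p t y j))
      calc ‖Yv p t y j * xh p t x (k - j) + Yv p t x' j * y (k - j)‖
          ≤ ‖Yv p t y j * xh p t x (k - j)‖ + ‖Yv p t x' j * y (k - j)‖ := norm_add_le _ _
        _ = ‖Yv p t y j‖ * ‖xh p t x (k - j)‖ + ‖Yv p t x' j‖ * ‖y (k - j)‖ := by
            rw [norm_mul, norm_mul]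
        _ ≤ _ := by linarith
    have hEW : 0 ≤ Ef p t * (Wt p β t j * Wt p β t (k - j)) :=
      mul_nonneg hE0.le (mul_nonneg (hW0 _).le (hW0 _).le)
    calc |((cr j (k - j) : ℤ) : ℝ)| *
          ‖Yv p t y j * xh p t x (k - j) + Yv p t x' j * y (k - j)‖
        ≤ |((cr j (k - j) : ℤ) : ℝ)| *
          ((‖Yv p t y j‖ * ‖x (k - j)‖ + ‖Yv p t x' j‖ * ‖y (k - j)‖) +
          ‖Yv p t y j‖ * ‖(if (k - j).1 = 0 then Sl p t (k - j).2 else 0)‖) :=
          mul_le_mul_of_nonneg_left h4 (abs_nonneg _)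
      _ = |((cr j (k - j) : ℤ) : ℝ)| *
          (‖Yv p t y j‖ * ‖x (k - j)‖ + ‖Yv p t x' j‖ * ‖y (k - j)‖) +
          |((cr j (k - j) : ℤ) : ℝ)| *
          (‖Yv p t y j‖ * ‖(if (k - j).1 = 0 then Sl p t (k - j).2 else 0)‖) := by ring
      _ ≤ ((1 + (n1 j : ℝ)) * (1 + (n1 (k - j) : ℝ))) *
          (2 * d * R * (Ef p t * (Wt p β t j * Wt p β t (k - j))) +
            2 * R * d * (Ef p t * (Wt p β t j * Wt p β t (k - j)))) + u j := by
          refine add_le_add (mul_le_mul hcr2 (add_le_add h1 h2) (by positivity)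
            (by positivity)) h3
      _ = _ := by ring
  have hg : HasSum (fun j : ℤ × ℤ => 4 * d * R * Ef p t * ((1 + (n1 j : ℝ)) *
      (1 + (n1 (k - j) : ℝ)) * (Wt p β t j * Wt p β t (k - j))) + u j)
      (4 * d * R * Ef p t * (∑' j : ℤ × ℤ, (1 + (n1 j : ℝ)) * (1 + (n1 (k - j) : ℝ)) *
        (Wt p β t j * Wt p β t (k - j))) + 2 * d * wv p β t k * p.As) :=
    (hs1.hasSum.mul_left _).add hus
  rw [hdiff]
  refine (tsum_of_norm_bounded hg hterm).trans ?_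
  have h1 : 4 * d * R * Ef p t * (∑' j : ℤ × ℤ, (1 + (n1 j : ℝ)) * (1 + (n1 (k - j) : ℝ)) *
        (Wt p β t j * Wt p β t (k - j))) ≤
      4 * d * R * Ef p t * (C0 * ((1 + n1 k) * Wt p β t k)) :=
    mul_le_mul_of_nonneg_left hs2 (mul_nonneg (by positivity) hE0.le)
  have h2 := w2 k hk
  have h3 : 4 * d * R * Ef p t * (C0 * ((1 + n1 k) * Wt p β t k)) =
      4 * C0 * R * (1 + n1 k) * (d * wv p β t k) := by
    rw [h2]
    ring
  rw [h3] at h1
  calc _ ≤ 4 * C0 * R * (1 + n1 k) * (d * wv p β t k) + 2 * d * wv p β t k * p.As := by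
        linarith
    _ = _ := by ring

end

end Pool.SQGA
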