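import Pool.Agent.Work.MP_a2fcf1_an_ar.I2

/-! # Supercritical SQG, block LIC: Lipschitz bound of the bilinear part at `(0, l)` (helper10) -/

set_option autoImplicit false

namespace Pool.SQGA

open Set MeasureTheory
open Pool.Agent.Work.MP_a2fcf1_an_h64 (cr sc eu n1)

noncomputable section

theorem LIC_sum {g : (ℤ × ℤ) × ℤ → ℂ} {w : ℤ × ℤ → ℝ} (hw : Summable w)
    (h1 : ∀ j, Summable fun b => ‖g (j, b)‖) (h2 : ∀ j, ∑' b, ‖g (j, b)‖ ≤ w j) :
    Summable g ∧ ‖∑' q, g q‖ ≤ ∑' j, w j := by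
  have hs : Summable fun q => ‖g q‖ := by
    refine (summable_prod_of_nonneg fun q => norm_nonneg _).2 ⟨h1, ?_⟩
    exact Summable.of_nonneg_of_le (fun j => tsum_nonneg fun b => norm_nonneg _) h2 hw
  refine ⟨hs.of_norm, (norm_tsum_le_tsum_norm hs).trans ?_⟩
  rw [hs.tsum_prod]
  exact Summable.tsum_le_tsum h2 hs.prod hw

/-- the summand of the bilinear form at the frequency `(0, l)` -/
def LICF (p : Par) (t : ℝ) (l : ℤ) (x y : ℤ × ℤ → ℂ) (q : (ℤ × ℤ) × ℤ) : ℂ :=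
  (q.1.1 : ℂ) * ((Pm p t q.1.1 q.1.2 q.2 * x (q.1.1, q.2)) * y ((0, l) - q.1))

theorem LIC_abs (hYB : Stmt_YB) (p : Par) (hp : p.Ok) {β t d : ℝ} {x : ℤ × ℤ → ℂ}
    (hβ : 0 ≤ β) (ht : 0 ≤ t) (hβt : β * t ≤ p.s / 2) (htA : t * p.As ≤ 1 / 2) (hd : 0 ≤ d)
    (hx : Bd p β t d x) (k : ℤ × ℤ) (hk : k.1 ≠ 0) :
    |(k.1 : ℝ)| * ∑' b, ‖Pm p t k.1 k.2 b * x (k.1, b)‖ ≤ 2 * d * wv p β t k / p.N := by
  set z : ℤ × ℤ → ℂ := fun q => Pm p t k.1 k.2 q.2 * x q with hz
  set c : ℤ × ℤ → ℂ := fun q => if z q = 0 then 0 else (‖z q‖ : ℂ) / z q with hc0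
  have hc : ∀ q, ‖c q‖ ≤ 1 := by
    intro q
    by_cases h : z q = 0
    · simp [hc0, h]
    · simp only [hc0, h, if_false]
      rw [norm_div, Complex.norm_real, norm_norm, div_self (norm_ne_zero_iff.2 h)]
  have hcz : ∀ q, c q * z q = (‖z q‖ : ℂ) := by
    intro q
    by_cases h : z q = 0
    · simp [hc0, h]
    · simp only [hc0, h, if_false]
      rw [div_mul_cancel₀ _ h]
  have hy : Bd p β t d (fun q => c q * x q) := by
    intro q
    calc ‖c q * x q‖ = ‖c q‖ * ‖x q‖ := norm_mul _ _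
      _ ≤ 1 * ‖x q‖ := mul_le_mul_of_nonneg_right (hc q) (norm_nonneg _)
      _ = ‖x q‖ := one_mul _
      _ ≤ _ := hx q
  have h1 := (hYB p hp β t d _ hβ ht hβt htA hd hy).2.1 k hk
  have h2 : Yv p t (fun q => c q * x q) k =
      ((p.N * ∑' b, ‖Pm p t k.1 k.2 b * x (k.1, b)‖ : ℝ) : ℂ) := by
    unfold Yv
    rw [Complex.ofReal_mul, Complex.ofReal_natCast, Complex.ofReal_tsum]
    congr 1
    refine tsum_congr fun b => ?_
    have h3 := hcz (k.1, b)
    have h4 : z (k.1, b) = Pm p t k.1 k.2 b * x (k.1, b) := rfl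
    rw [h4] at h3
    rw [← h3]
    ring
  have hN : (0 : ℝ) < p.N := by exact_mod_cast hp.N_pos
  have h5 : (0 : ℝ) ≤ p.N * ∑' b, ‖Pm p t k.1 k.2 b * x (k.1, b)‖ :=
    mul_nonneg hN.le (tsum_nonneg fun _ => norm_nonneg _)
  rw [h2, Complex.norm_real, Real.norm_of_nonneg h5] at h1
  rw [le_div_iff₀ hN]
  calc |(k.1 : ℝ)| * (∑' b, ‖Pm p t k.1 k.2 b * x (k.1, b)‖) * p.N
      = |(k.1 : ℝ)| * (p.N * ∑' b, ‖Pm p t k.1 k.2 b * x (k.1, b)‖) := by ring
    _ ≤ _ := h1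

theorem LIC_Gb (p : Par) (t : ℝ) (l : ℤ) (x : ℤ × ℤ → ℂ) (hs : Summable (LICF p t l x x)) :
    Gb p t x (0, l) = ((p.N : ℂ) * (l : ℂ)) * ∑' q, LICF p t l x x q := by
  rw [hs.tsum_prod, ← tsum_mul_left]
  unfold Gb
  refine tsum_congr fun j => ?_
  have e : ∀ b, LICF p t l x x (j, b) =
      ((j.1 : ℂ) * x ((0, l) - j)) * (Pm p t j.1 j.2 b * x (j.1, b)) := by
    intro b
    unfold LICF
    ring
  simp_rw [e]
  rw [tsum_mul_left]
  have hcr : cr j ((0, l) - j) = j.1 * l := by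
    unfold cr
    simp only [Prod.fst_sub, Prod.snd_sub]
    ring
  rw [hcr]
  by_cases h : j.1 = 0
  · rw [h]
    simp
  · have hxh : xh p t x ((0, l) - j) = x ((0, l) - j) := by
      unfold xh
      have h1 : ((0, l) - j : ℤ × ℤ).1 ≠ 0 := by
        simp only [Prod.fst_sub]
        omega
      rw [if_neg h1, add_zero]
    rw [hxh]
    unfold Yv
    push_cast
    ring

/-- the involution of the index set -/
def LICe (l : ℤ) : (ℤ × ℤ) × ℤ ≃ (ℤ × ℤ) × ℤ where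
  toFun q := ((-q.1.1, l - q.2), l - q.1.2)
  invFun q := ((-q.1.1, l - q.2), l - q.1.2)
  left_inv q := by
    obtain ⟨⟨a, b⟩, c⟩ := q
    simp
  right_inv q := by
    obtain ⟨⟨a, b⟩, c⟩ := q
    simp

theorem p_LIC (hYB : Stmt_YB) (_hGSM : Stmt_GSM) (hWTB : Stmt_WTB) (hCNV : Stmt_CNV)
    (hP2 : Stmt_P2) (hSYP : Stmt_SYP) (_hOMS : Stmt_OMS) : Stmt_LIC := by
  obtain ⟨C, hC1, hC⟩ := hCNV
  refine ⟨4 * C, by linarith, ?_⟩
  intro p hp β t R d x x' hβ ht hβt htA hR hd hx hx' hxx l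
  obtain ⟨w1, -, -, -, w5, -⟩ := hWTB p hp β t hβ ht hβt
  obtain ⟨cv1, cv2⟩ := (hC p hp β t (0, l) hβ ht hβt).2
  have hN : (0 : ℝ) < p.N := by exact_mod_cast hp.N_pos
  have hWt0 : ∀ k, 0 ≤ Wt p β t k := fun k => (w1 k).1.le
  have hwW : ∀ k, wv p β t k ≤ Wt p β t k := fun k => (w1 k).2.2
  -- the first bound
  have key1 : ∀ (dx dy : ℝ) (x y : ℤ × ℤ → ℂ), 0 ≤ dx → 0 ≤ dy → Bd p β t dx x →
      Bd p β t dy y → Summable (LICF p t l x y) ∧
        p.N * ‖∑' q, LICF p t l x y q‖ ≤ 2 * dx * dy * (C * Wt p β t (0, l)) := by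
    intro dx dy x y hdx hdy hx hy
    have e : ∀ j b, ‖LICF p t l x y (j, b)‖ =
        (|(j.1 : ℝ)| * ‖y ((0, l) - j)‖) * ‖Pm p t j.1 j.2 b * x (j.1, b)‖ := by
      intro j b
      unfold LICF
      rw [norm_mul, norm_mul, Complex.norm_intCast]
      ring
    have hw : Summable fun j : ℤ × ℤ =>
        (2 * dx * dy / p.N) * (Wt p β t j * Wt p β t ((0, l) - j)) := cv1.mul_left _
    obtain ⟨s1, s2⟩ := LIC_sum (g := LICF p t l x y) hw (by
      intro j
      simp_rw [e]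
      exact ((hYB p hp β t dx x hβ ht hβt htA hdx hx).1 j).mul_left _) (by
      intro j
      simp_rw [e]
      rw [tsum_mul_left]
      by_cases h : j.1 = 0
      · rw [h]
        simp only [Int.cast_zero, abs_zero, zero_mul]
        have := hWt0 j
        have := hWt0 ((0, l) - j)
        positivity
      · have h1 := LIC_abs hYB p hp hβ ht hβt htA hdx hx j h
        have h2 : 2 * dx * wv p β t j / p.N ≤ 2 * dx * Wt p β t j / p.N := by
          gcongr
          exact hwW j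
        have h3 : ‖y ((0, l) - j)‖ ≤ dy * Wt p β t ((0, l) - j) :=
          (hy _).trans (mul_le_mul_of_nonneg_left (hwW _) hdy)
        have h4 : 0 ≤ |(j.1 : ℝ)| * ∑' b, ‖Pm p t j.1 j.2 b * x (j.1, b)‖ :=
          mul_nonneg (abs_nonneg _) (tsum_nonneg fun _ => norm_nonneg _)
        calc |(j.1 : ℝ)| * ‖y ((0, l) - j)‖ * ∑' b, ‖Pm p t j.1 j.2 b * x (j.1, b)‖
            = ‖y ((0, l) - j)‖ * (|(j.1 : ℝ)| * ∑' b, ‖Pm p t j.1 j.2 b * x (j.1, b)‖) := by
              ring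
          _ ≤ (dy * Wt p β t ((0, l) - j)) * (2 * dx * Wt p β t j / p.N) :=
              mul_le_mul h3 (h1.trans h2) h4 (mul_nonneg hdy (hWt0 _))
          _ = _ := by ring)
    refine ⟨s1, ?_⟩
    rw [tsum_mul_left] at s2
    have s3 : (2 * dx * dy / p.N) * ∑' j : ℤ × ℤ, Wt p β t j * Wt p β t ((0, l) - j) ≤
        (2 * dx * dy / p.N) * (C * Wt p β t (0, l)) :=
      mul_le_mul_of_nonneg_left cv2 (by positivity)
    calc p.N * ‖∑' q, LICF p t l x y q‖
        ≤ p.N * ((2 * dx * dy / p.N) * (C * Wt p β t (0, l))) :=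
          mul_le_mul_of_nonneg_left (s2.trans s3) hN.le
      _ = 2 * dx * dy * (C * Wt p β t (0, l)) := by
          field_simp
  -- the second bound
  have key2 : ∀ (dx dy : ℝ) (x y : ℤ × ℤ → ℂ), 0 ≤ dx → 0 ≤ dy → Bd p β t dx x →
      Bd p β t dy y →
        ‖(∑' q, LICF p t l x y q) + ∑' q, LICF p t l y x q‖ ≤
          4 * |(l : ℝ)| / p.N ^ 2 * dx * dy * (C * Wt p β t (0, l)) := by
    intro dx dy x y hdx hdy hx hy
    obtain ⟨s1, -⟩ := key1 dx dy x y hdx hdy hx hy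
    obtain ⟨s2, -⟩ := key1 dy dx y x hdy hdx hy hx
    have s3 : Summable fun q => LICF p t l y x (LICe l q) := (LICe l).summable_iff.2 s2
    have hH : ∀ q : (ℤ × ℤ) × ℤ, LICF p t l x y q + LICF p t l y x (LICe l q) =
        (q.1.1 : ℂ) * (((Pm p t q.1.1 q.1.2 q.2 - Pm p t q.1.1 (q.1.2 - l) (q.2 - l)) *
          x (q.1.1, q.2)) * y ((0, l) - q.1)) := by
      rintro ⟨⟨m, a⟩, b⟩
      have e1 : ((0, l) : ℤ × ℤ) - (m, a) = (-m, l - a) := by
        ext <;> simp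
      have e2 : ((0, l) : ℤ × ℤ) - (-m, l - b) = (m, b) := by
        ext <;> simp
      have e3 : Pm p t (-m) (l - b) (l - a) = Pm p t m (a - l) (b - l) := by
        rw [(hSYP p hp).1 m (l - b) (l - a) t ht, neg_sub, neg_sub]
      simp only [LICF, LICe, Equiv.coe_fn_mk]
      rw [e1, e2, e3]
      push_cast
      ring
    rw [← (LICe l).tsum_eq (LICF p t l y x), ← s1.tsum_add s3]
    simp_rw [hH]
    have e : ∀ (j : ℤ × ℤ) (b : ℤ), ‖(j.1 : ℂ) * (((Pm p t j.1 j.2 b -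
        Pm p t j.1 (j.2 - l) (b - l)) * x (j.1, b)) * y ((0, l) - j))‖ =
        (|(j.1 : ℝ)| * ‖y ((0, l) - j)‖) *
          ‖(Pm p t j.1 j.2 b - Pm p t j.1 (j.2 - l) (b - l)) * x (j.1, b)‖ := by
      intro j b
      rw [norm_mul, norm_mul (_ * _), Complex.norm_intCast]
      ring
    have hw : Summable fun j : ℤ × ℤ =>
        (4 * |(l : ℝ)| / p.N ^ 2 * dx * dy) * (Wt p β t j * Wt p β t ((0, l) - j)) :=
      cv1.mul_left _
    have hb : ∀ (j : ℤ × ℤ) (b : ℤ),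
        ‖(Pm p t j.1 j.2 b - Pm p t j.1 (j.2 - l) (b - l)) * x (j.1, b)‖ ≤
          (dx * Wt p β t j) * (om p.s (j.2 - b) *
            ‖Pm p t j.1 j.2 b - Pm p t j.1 (j.2 - l) (b - l)‖) := by
      intro j b
      rw [norm_mul]
      have h1 : ‖x (j.1, b)‖ ≤ dx * (om p.s (j.2 - b) * Wt p β t j) :=
        (hx _).trans (mul_le_mul_of_nonneg_left ((hwW _).trans (w5 j.1 j.2 b).1) hdx)
      calc ‖Pm p t j.1 j.2 b - Pm p t j.1 (j.2 - l) (b - l)‖ * ‖x (j.1, b)‖
          ≤ ‖Pm p t j.1 j.2 b - Pm p t j.1 (j.2 - l) (b - l)‖ *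
            (dx * (om p.s (j.2 - b) * Wt p β t j)) :=
            mul_le_mul_of_nonneg_left h1 (norm_nonneg _)
        _ = _ := by ring
    obtain ⟨-, r2⟩ := LIC_sum (g := fun q : (ℤ × ℤ) × ℤ => (q.1.1 : ℂ) *
        (((Pm p t q.1.1 q.1.2 q.2 - Pm p t q.1.1 (q.1.2 - l) (q.2 - l)) *
          x (q.1.1, q.2)) * y ((0, l) - q.1))) hw (by
      intro j
      simp only
      simp_rw [e]
      by_cases h : j.1 = 0
      · rw [h]
        simp only [Int.cast_zero, abs_zero, zero_mul]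
        exact summable_zero
      · exact (Summable.of_nonneg_of_le (fun _ => norm_nonneg _) (hb j)
          ((hP2 p hp j.1 j.2 l t ht htA h).1.mul_left _)).mul_left _) (by
      intro j
      simp only
      simp_rw [e]
      rw [tsum_mul_left]
      by_cases h : j.1 = 0
      · rw [h]
        simp only [Int.cast_zero, abs_zero, zero_mul]
        have := hWt0 j
        have := hWt0 ((0, l) - j)
        positivity
      · obtain ⟨q1, q2⟩ := hP2 p hp j.1 j.2 l t ht htA h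
        have g1 : ∑' b, ‖(Pm p t j.1 j.2 b - Pm p t j.1 (j.2 - l) (b - l)) * x (j.1, b)‖ ≤
            (dx * Wt p β t j) * (4 * |(l : ℝ)| / (p.N * |(j.1 : ℝ)|) ^ 2) := by
          have g2 := Summable.tsum_le_tsum (hb j) (Summable.of_nonneg_of_le
            (fun _ => norm_nonneg _) (hb j) (q1.mul_left _)) (q1.mul_left _)
          rw [tsum_mul_left] at g2
          exact g2.trans (mul_le_mul_of_nonneg_left q2 (mul_nonneg hdx (hWt0 _)))
        have g3 : ‖y ((0, l) - j)‖ ≤ dy * Wt p β t ((0, l) - j) :=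
          (hy _).trans (mul_le_mul_of_nonneg_left (hwW _) hdy)
        have g4 : (1 : ℝ) ≤ |(j.1 : ℝ)| := by
          have g5 : (1 : ℤ) ≤ |j.1| := Int.one_le_abs h
          exact_mod_cast g5
        have g6 : |(j.1 : ℝ)| * (4 * |(l : ℝ)| / (p.N * |(j.1 : ℝ)|) ^ 2) ≤
            4 * |(l : ℝ)| / p.N ^ 2 := by
          have g7 : |(j.1 : ℝ)| * (4 * |(l : ℝ)| / (p.N * |(j.1 : ℝ)|) ^ 2) =
              4 * |(l : ℝ)| / p.N ^ 2 / |(j.1 : ℝ)| := by
            have : |(j.1 : ℝ)| ≠ 0 := by linarith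
            field_simp
          rw [g7]
          exact div_le_self (by positivity) g4
        have g8 := hWt0 j
        have g9 := hWt0 ((0, l) - j)
        calc |(j.1 : ℝ)| * ‖y ((0, l) - j)‖ *
              ∑' b, ‖(Pm p t j.1 j.2 b - Pm p t j.1 (j.2 - l) (b - l)) * x (j.1, b)‖
            ≤ |(j.1 : ℝ)| * (dy * Wt p β t ((0, l) - j)) *
              ((dx * Wt p β t j) * (4 * |(l : ℝ)| / (p.N * |(j.1 : ℝ)|) ^ 2)) := by
              gcongr
          _ = (|(j.1 : ℝ)| * (4 * |(l : ℝ)| / (p.N * |(j.1 : ℝ)|) ^ 2)) *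
              (dx * dy * (Wt p β t j * Wt p β t ((0, l) - j))) := by ring
          _ ≤ (4 * |(l : ℝ)| / p.N ^ 2) *
              (dx * dy * (Wt p β t j * Wt p β t ((0, l) - j))) :=
              mul_le_mul_of_nonneg_right g6 (by positivity)
          _ = _ := by ring)
    rw [tsum_mul_left] at r2
    exact r2.trans (mul_le_mul_of_nonneg_left cv2 (by positivity))
  -- combination
  obtain ⟨sx, -⟩ := key1 R R x x hR hR hx hx
  obtain ⟨sx', -⟩ := key1 R R x' x' hR hR hx' hx'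
  rw [LIC_Gb p t l x sx, LIC_Gb p t l x' sx', ← mul_sub, norm_mul, norm_mul,
    Complex.norm_natCast, Complex.norm_intCast]
  obtain ⟨s1, b1⟩ := key1 d R _ x hd hR hxx hx
  obtain ⟨s2, b2⟩ := key1 R d x' _ hR hd hx' hxx
  have id1 : (∑' q, LICF p t l x x q) - ∑' q, LICF p t l x' x' q =
      (∑' q, LICF p t l (fun k => x k - x' k) x q) +
        ∑' q, LICF p t l x' (fun k => x k - x' k) q := by
    rw [← sx.tsum_sub sx', ← s1.tsum_add s2]
    refine tsum_congr fun q => ?_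
    unfold LICF
    ring
  have hv : Bd p β t (2 * R) (fun k => x k + x' k) := by
    intro k
    calc ‖x k + x' k‖ ≤ ‖x k‖ + ‖x' k‖ := norm_add_le _ _
      _ ≤ R * wv p β t k + R * wv p β t k := add_le_add (hx k) (hx' k)
      _ = 2 * R * wv p β t k := by ring
  have b3 := key2 d (2 * R) _ _ hd (by linarith) hxx hv
  obtain ⟨s3, -⟩ := key1 d (2 * R) _ _ hd (by linarith) hxx hv
  obtain ⟨s4, -⟩ := key1 (2 * R) d _ _ (by linarith) hd hv hxx
  have id2 : (2 : ℂ) * ((∑' q, LICF p t l x x q) - ∑' q, LICF p t l x' x' q) =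
      (∑' q, LICF p t l (fun k => x k - x' k) (fun k => x k + x' k) q) +
        ∑' q, LICF p t l (fun k => x k + x' k) (fun k => x k - x' k) q := by
    rw [← sx.tsum_sub sx', ← s3.tsum_add s4, ← tsum_mul_left]
    refine tsum_congr fun q => ?_
    unfold LICF
    ring
  have hW := hWt0 (0, l)
  rcases min_choice 1 (|(l : ℝ)| / p.N) with hm | hm
  · rw [hm, id1]
    have h1 : p.N * ‖(∑' q, LICF p t l (fun k => x k - x' k) x q) +
        ∑' q, LICF p t l x' (fun k => x k - x' k) q‖ ≤ 4 * C * R * (d * Wt p β t (0, l)) := by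
      calc _ ≤ p.N * (‖∑' q, LICF p t l (fun k => x k - x' k) x q‖ +
            ‖∑' q, LICF p t l x' (fun k => x k - x' k) q‖) :=
            mul_le_mul_of_nonneg_left (norm_add_le _ _) hN.le
        _ ≤ 4 * C * R * (d * Wt p β t (0, l)) := by linarith
    calc _ = |(l : ℝ)| * (p.N * ‖(∑' q, LICF p t l (fun k => x k - x' k) x q) +
        ∑' q, LICF p t l x' (fun k => x k - x' k) q‖) := by ring
      _ ≤ |(l : ℝ)| * (4 * C * R * (d * Wt p β t (0, l))) :=
          mul_le_mul_of_nonneg_left h1 (abs_nonneg _)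
      _ = _ := by ring
  · rw [hm]
    rw [← id2, norm_mul, Complex.norm_two] at b3
    calc p.N * |(l : ℝ)| * ‖(∑' q, LICF p t l x x q) - ∑' q, LICF p t l x' x' q‖
        = (p.N * |(l : ℝ)| / 2) *
          (2 * ‖(∑' q, LICF p t l x x q) - ∑' q, LICF p t l x' x' q‖) := by ring
      _ ≤ (p.N * |(l : ℝ)| / 2) *
          (4 * |(l : ℝ)| / p.N ^ 2 * d * (2 * R) * (C * Wt p β t (0, l))) :=
          mul_le_mul_of_nonneg_left b3 (by positivity)
      _ = _ := by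
          field_simp

end

end Pool.SQGA
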