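import Pool.Agent.Work.MP_a2fcf1_an_ar.I3

/-! # SQG, analytic data: block LNT (linear transfer by a shear) -/

set_option autoImplicit false

namespace Pool.SQGA

open Set MeasureTheory
open Pool.Agent.Work.MP_a2fcf1_an_h64 (cr sc eu n1 ex GloballyRegular n1_cast one_le_eu eu_pos
  eu_neg abs_eu_sub_le abs_cr_le_eu cr_add_right cr_self cr_neg_left eu_nonneg)
open Pool.SQGF (nq NB Sym Fr Adm Sw wt Y TT GS BB RD)

noncomputable section

/-- The pairs `(k, j)` in `B` with `k - j` in `B`. -/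
def LNT_P (B : Finset (ℤ × ℤ)) : Finset ((ℤ × ℤ) × (ℤ × ℤ)) :=
  (B ×ˢ B).filter fun p => p.1 - p.2 ∈ B

lemma LNT_mem {B : Finset (ℤ × ℤ)} {p : (ℤ × ℤ) × (ℤ × ℤ)} :
    p ∈ LNT_P B ↔ (p.1 ∈ B ∧ p.2 ∈ B) ∧ p.1 - p.2 ∈ B := by
  unfold LNT_P
  rw [Finset.mem_filter, Finset.mem_product]

/-- The substitution `k ↦ k - j`, `j ↦ -j`. -/
lemma LNT_inv {B : Finset (ℤ × ℤ)} (hB : Sym B) (F : (ℤ × ℤ) → (ℤ × ℤ) → ℝ) :
    ∑ p ∈ LNT_P B, F (p.1 - p.2) (-p.2) = ∑ p ∈ LNT_P B, F p.1 p.2 := by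
  refine Finset.sum_nbij' (fun p => (p.1 - p.2, -p.2)) (fun p => (p.1 - p.2, -p.2)) ?_ ?_ ?_ ?_ ?_
  · intro p hp
    rw [LNT_mem] at hp ⊢
    refine ⟨⟨hp.2, hB _ hp.1.2⟩, ?_⟩
    simp only [sub_neg_eq_add, sub_add_cancel]
    exact hp.1.1
  · intro p hp
    rw [LNT_mem] at hp ⊢
    refine ⟨⟨hp.2, hB _ hp.1.2⟩, ?_⟩
    simp only [sub_neg_eq_add, sub_add_cancel]
    exact hp.1.1
  · intro p _
    simp
  · intro p _
    simp
  · intro p _
    rfl

/-- The real part of the triple product. -/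
def LNT_R (S z : ℤ × ℤ → ℂ) (k j : ℤ × ℤ) : ℝ :=
  ((starRingEnd ℂ) (z k) * (S j * z (k - j))).re

lemma LNT_R_inv {B : Finset (ℤ × ℤ)} {S z : ℤ × ℤ → ℂ} (hS : Adm B S) (k j : ℤ × ℤ) :
    LNT_R S z (k - j) (-j) = LNT_R S z k j := by
  unfold LNT_R
  rw [sub_neg_eq_add, sub_add_cancel, hS.2 j]
  have e1 : (starRingEnd ℂ) (z (k - j)) * ((starRingEnd ℂ) (S j) * z k) =
      (starRingEnd ℂ) ((starRingEnd ℂ) (z k) * (S j * z (k - j))) := by
    simp only [map_mul, Complex.conj_conj]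
    ring
  rw [e1, Complex.conj_re]

lemma LNT_R_abs (S z : ℤ × ℤ → ℂ) (k j : ℤ × ℤ) :
    |LNT_R S z k j| ≤ ‖S j‖ * (‖z k‖ * ‖z (k - j)‖) := by
  unfold LNT_R
  refine (Complex.abs_re_le_norm _).trans (le_of_eq ?_)
  rw [norm_mul, norm_mul, RCLike.norm_conj]
  ring

/-- The weight on the frequencies which are not shears. -/
def LNT_w (q : ℕ) (k : ℤ × ℤ) : ℝ := if k.1 = 0 then 0 else ww q k

lemma LNT_ww_nonneg (q : ℕ) (k : ℤ × ℤ) : 0 ≤ ww q k := by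
  unfold ww wt
  split_ifs
  · have := Real.rpow_nonneg (eu_nonneg k) (2 * (q : ℝ))
    linarith
  · norm_num

lemma LNT_w_nonneg (q : ℕ) (k : ℤ × ℤ) : 0 ≤ LNT_w q k := by
  unfold LNT_w
  split_ifs
  · exact le_rfl
  · exact LNT_ww_nonneg q k

lemma LNT_cr_zero {j k : ℤ × ℤ} (hj : j.1 = 0) (hk : k.1 = 0) : cr j k = 0 := by
  unfold cr
  rw [hj, hk]
  ring

/-- The common bound of both parts. -/
lemma LNT_term {q : ℕ} {C : ℝ} (hC : 0 ≤ C) {S z : ℤ × ℤ → ℂ} {k j : ℤ × ℤ} {a : ℝ}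
    (hj : j.1 = 0) (ha0 : k.1 = 0 → a = 0)
    (ha : |a| ≤ C * (1 + |(j.2 : ℝ)|) ^ (2 * q + 1) * √(ww q k * ww q (k - j))) :
    |a * LNT_R S z k j| ≤ C * (((1 + |(j.2 : ℝ)|) ^ (2 * q + 1) * ‖S j‖) *
      ((LNT_w q k * ‖z k‖ ^ 2 + LNT_w q (k - j) * ‖z (k - j)‖ ^ 2) / 2)) := by
  by_cases hk : k.1 = 0
  · rw [ha0 hk, zero_mul, abs_zero]
    have h1 := LNT_w_nonneg q k
    have h2 := LNT_w_nonneg q (k - j)
    positivity
  · have hkj : (k - j).1 ≠ 0 := by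
      rw [Prod.fst_sub, hj, sub_zero]
      exact hk
    have e1 : LNT_w q k = ww q k := if_neg hk
    have e2 : LNT_w q (k - j) = ww q (k - j) := if_neg hkj
    rw [e1, e2, abs_mul]
    have h1 := LNT_ww_nonneg q k
    have h2 := LNT_ww_nonneg q (k - j)
    have h3 : √(ww q k * ww q (k - j)) * (‖z k‖ * ‖z (k - j)‖) ≤
        (ww q k * ‖z k‖ ^ 2 + ww q (k - j) * ‖z (k - j)‖ ^ 2) / 2 := by
      rw [Real.sqrt_mul h1]
      have h4 := sq_nonneg (√(ww q k) * ‖z k‖ - √(ww q (k - j)) * ‖z (k - j)‖)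
      have h5 := Real.sq_sqrt h1
      have h6 := Real.sq_sqrt h2
      have h7 : (√(ww q k) * ‖z k‖) ^ 2 = ww q k * ‖z k‖ ^ 2 := by rw [mul_pow, h5]
      have h8 : (√(ww q (k - j)) * ‖z (k - j)‖) ^ 2 = ww q (k - j) * ‖z (k - j)‖ ^ 2 := by
        rw [mul_pow, h6]
      nlinarith
    calc |a| * |LNT_R S z k j|
        ≤ (C * (1 + |(j.2 : ℝ)|) ^ (2 * q + 1) * √(ww q k * ww q (k - j))) *
          (‖S j‖ * (‖z k‖ * ‖z (k - j)‖)) :=
          mul_le_mul ha (LNT_R_abs S z k j) (abs_nonneg _) (by positivity)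
      _ = C * (((1 + |(j.2 : ℝ)|) ^ (2 * q + 1) * ‖S j‖) *
          (√(ww q k * ww q (k - j)) * (‖z k‖ * ‖z (k - j)‖))) := by ring
      _ ≤ _ := by
          refine mul_le_mul_of_nonneg_left (mul_le_mul_of_nonneg_left h3 (by positivity)) hC

theorem p_LNT (hLNI : Stmt_LNI) : Stmt_LNT := by
  intro q hq
  obtain ⟨C, hC, hLN⟩ := hLNI q hq
  refine ⟨2 * C, by positivity, ?_⟩
  intro B S z hB hB0 hS hz hS1
  have hz0 : ∀ k, k ∉ B → z k = 0 := hz.1
  set f : ℤ × ℤ → ℝ := fun j => (1 + |(j.2 : ℝ)|) ^ (2 * q + 1) * ‖S j‖ with hf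
  set g : ℤ × ℤ → ℝ := fun k => LNT_w q k * ‖z k‖ ^ 2 with hg
  have hf0 : ∀ j, 0 ≤ f j := fun j => by simp only [hf]; positivity
  have hg0 : ∀ k, 0 ≤ g k := fun k => mul_nonneg (LNT_w_nonneg q k) (by positivity)
  have hgsum : ∑ k ∈ B, (if k.1 = 0 then 0 else ww q k * ‖z k‖ ^ 2) = ∑ k ∈ B, g k := by
    refine Finset.sum_congr rfl fun k _ => ?_
    simp only [hg, LNT_w]
    split_ifs
    · rw [zero_mul]
    · rfl
  rw [hgsum]
  -- the two coefficients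
  set c1 : ℤ × ℤ → ℤ × ℤ → ℝ := fun k j => (cr j k : ℝ) / eu j with hc1
  set c2 : ℤ × ℤ → ℤ × ℤ → ℝ := fun k j => (cr j k : ℝ) / eu (k - j) with hc2
  have hcr : ∀ j k : ℤ × ℤ, cr j (k - j) = cr j k := by
    intro j k
    have h1 := cr_add_right (k - j) j j
    rw [sub_add_cancel, cr_self, add_zero] at h1
    exact h1.symm
  -- expansion of the transfer
  have hT : ∑ k ∈ B, ww q k * ((starRingEnd ℂ) (z k) *
        ∑ j ∈ B, ((2 * sc j (k - j) : ℝ) : ℂ) * (S j * z (k - j))).re =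
      ∑ p ∈ LNT_P B, (ww q p.1 * c1 p.1 p.2 * LNT_R S z p.1 p.2 -
        ww q p.1 * c2 p.1 p.2 * LNT_R S z p.1 p.2) := by
    have e1 : ∀ k ∈ B, ww q k * ((starRingEnd ℂ) (z k) *
        ∑ j ∈ B, ((2 * sc j (k - j) : ℝ) : ℂ) * (S j * z (k - j))).re =
        ∑ j ∈ B, (ww q k * c1 k j * LNT_R S z k j - ww q k * c2 k j * LNT_R S z k j) := by
      intro k _
      rw [Finset.mul_sum, Complex.re_sum, Finset.mul_sum]
      refine Finset.sum_congr rfl fun j _ => ?_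
      have e2 : (starRingEnd ℂ) (z k) * (((2 * sc j (k - j) : ℝ) : ℂ) * (S j * z (k - j))) =
          ((2 * sc j (k - j) : ℝ) : ℂ) * ((starRingEnd ℂ) (z k) * (S j * z (k - j))) := by ring
      rw [e2, Complex.re_ofReal_mul]
      have e3 : 2 * sc j (k - j) = c1 k j - c2 k j := by
        simp only [hc1, hc2, sc]
        rw [hcr]
        ring
      rw [e3]
      unfold LNT_R
      ring
    rw [Finset.sum_congr rfl e1, ← Finset.sum_product']
    unfold LNT_P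
    rw [Finset.sum_filter]
    refine Finset.sum_congr rfl fun p _ => ?_
    split_ifs with hp
    · rfl
    · have : LNT_R S z p.1 p.2 = 0 := by
        unfold LNT_R
        rw [hz0 _ hp]
        simp
      rw [this]
      ring
  rw [hT, Finset.sum_sub_distrib]
  -- the first part is antisymmetric
  have hA1 : ∑ p ∈ LNT_P B, ww q p.1 * c1 p.1 p.2 * LNT_R S z p.1 p.2 =
      (∑ p ∈ LNT_P B, (ww q p.1 - ww q (p.1 - p.2)) * c1 p.1 p.2 * LNT_R S z p.1 p.2) / 2 := by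
    have h1 := LNT_inv hB (fun k j => ww q k * c1 k j * LNT_R S z k j)
    have h2 : ∑ p ∈ LNT_P B, ww q (p.1 - p.2) * c1 (p.1 - p.2) (-p.2) *
        LNT_R S z (p.1 - p.2) (-p.2) =
        - ∑ p ∈ LNT_P B, ww q (p.1 - p.2) * c1 p.1 p.2 * LNT_R S z p.1 p.2 := by
      rw [← Finset.sum_neg_distrib]
      refine Finset.sum_congr rfl fun p _ => ?_
      rw [LNT_R_inv hS]
      have e1 : c1 (p.1 - p.2) (-p.2) = - c1 p.1 p.2 := by
        simp only [hc1]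
        rw [cr_neg_left, hcr, eu_neg]
        push_cast
        ring
      rw [e1]
      ring
    rw [h2] at h1
    have h3 : ∑ p ∈ LNT_P B, (ww q p.1 - ww q (p.1 - p.2)) * c1 p.1 p.2 * LNT_R S z p.1 p.2 =
        ∑ p ∈ LNT_P B, ww q p.1 * c1 p.1 p.2 * LNT_R S z p.1 p.2 -
        ∑ p ∈ LNT_P B, ww q (p.1 - p.2) * c1 p.1 p.2 * LNT_R S z p.1 p.2 := by
      rw [← Finset.sum_sub_distrib]
      refine Finset.sum_congr rfl fun p _ => ?_
      ring
    rw [h3]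
    linarith
  rw [hA1]
  -- the common bound
  set H : ℝ := ∑ p ∈ LNT_P B, C * (f p.2 * ((g p.1 + g (p.1 - p.2)) / 2)) with hH
  have hb1 : ∀ p ∈ LNT_P B, |(ww q p.1 - ww q (p.1 - p.2)) * c1 p.1 p.2 *
      LNT_R S z p.1 p.2| ≤ C * (f p.2 * ((g p.1 + g (p.1 - p.2)) / 2)) := by
    intro p hp
    rw [LNT_mem] at hp
    by_cases hj : p.2.1 = 0
    · refine LNT_term hC.le hj ?_ ?_
      · intro hk
        simp only [hc1]
        rw [LNT_cr_zero hj hk]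
        simp
      · have h1 := (hLN p.2 p.1 hj (hB0 _ hp.1.2) (hB0 _ hp.1.1) (hB0 _ hp.2)).1
        refine le_trans (le_of_eq ?_) h1
        simp only [hc1]
        rw [abs_mul, abs_div, abs_of_nonneg (eu_nonneg p.2)]
        ring
    · have : LNT_R S z p.1 p.2 = 0 := by
        unfold LNT_R
        rw [hS1 _ hj]
        simp
      rw [this, mul_zero, abs_zero]
      have h1 := hf0 p.2
      have h2 := hg0 p.1
      have h3 := hg0 (p.1 - p.2)
      positivity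
  have hb2 : ∀ p ∈ LNT_P B, |ww q p.1 * c2 p.1 p.2 * LNT_R S z p.1 p.2| ≤
      C * (f p.2 * ((g p.1 + g (p.1 - p.2)) / 2)) := by
    intro p hp
    rw [LNT_mem] at hp
    by_cases hj : p.2.1 = 0
    · refine LNT_term hC.le hj ?_ ?_
      · intro hk
        simp only [hc2]
        rw [LNT_cr_zero hj hk]
        simp
      · have h1 := (hLN p.2 p.1 hj (hB0 _ hp.1.2) (hB0 _ hp.1.1) (hB0 _ hp.2)).2
        refine le_trans (le_of_eq ?_) h1
        simp only [hc2]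
        rw [abs_mul, abs_div, abs_of_nonneg (eu_nonneg (p.1 - p.2)),
          abs_of_nonneg (LNT_ww_nonneg q p.1)]
        ring
    · have : LNT_R S z p.1 p.2 = 0 := by
        unfold LNT_R
        rw [hS1 _ hj]
        simp
      rw [this, mul_zero, abs_zero]
      have h1 := hf0 p.2
      have h2 := hg0 p.1
      have h3 := hg0 (p.1 - p.2)
      positivity
  have hs1 : |∑ p ∈ LNT_P B, (ww q p.1 - ww q (p.1 - p.2)) * c1 p.1 p.2 *
      LNT_R S z p.1 p.2| ≤ H :=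
    (Finset.abs_sum_le_sum_abs _ _).trans (Finset.sum_le_sum hb1)
  have hs2 : |∑ p ∈ LNT_P B, ww q p.1 * c2 p.1 p.2 * LNT_R S z p.1 p.2| ≤ H :=
    (Finset.abs_sum_le_sum_abs _ _).trans (Finset.sum_le_sum hb2)
  -- the sum of the bounds
  have hfn : ∀ j, f (-j) = f j := by
    intro j
    simp only [hf]
    rw [hS.2 j, RCLike.norm_conj, Prod.snd_neg]
    push_cast
    rw [abs_neg]
  have hH2 : H = C * ∑ p ∈ LNT_P B, f p.2 * g p.1 := by
    have h1 := LNT_inv hB (fun k j => f j * g k)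
    simp only [hfn] at h1
    rw [hH, ← Finset.mul_sum]
    congr 1
    have h2 : ∑ p ∈ LNT_P B, f p.2 * ((g p.1 + g (p.1 - p.2)) / 2) =
        (∑ p ∈ LNT_P B, f p.2 * g p.1 + ∑ p ∈ LNT_P B, f p.2 * g (p.1 - p.2)) / 2 := by
      rw [← Finset.sum_add_distrib, Finset.sum_div]
      refine Finset.sum_congr rfl fun p _ => ?_
      ring
    rw [h2, h1]
    ring
  have hH3 : ∑ p ∈ LNT_P B, f p.2 * g p.1 ≤ (∑ j ∈ B, f j) * ∑ k ∈ B, g k := by
    calc ∑ p ∈ LNT_P B, f p.2 * g p.1 ≤ ∑ p ∈ B ×ˢ B, f p.2 * g p.1 := by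
          refine Finset.sum_le_sum_of_subset_of_nonneg (Finset.filter_subset _ _) ?_
          intro p _ _
          exact mul_nonneg (hf0 _) (hg0 _)
      _ = (∑ j ∈ B, f j) * ∑ k ∈ B, g k := by
          rw [Finset.sum_product, Finset.sum_comm, Finset.sum_mul_sum]
  have hH4 : H ≤ C * ((∑ j ∈ B, f j) * ∑ k ∈ B, g k) := by
    rw [hH2]
    exact mul_le_mul_of_nonneg_left hH3 hC.le
  have hH0 : 0 ≤ H := (abs_nonneg _).trans hs1
  rw [abs_le] at hs1 hs2 ⊢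
  constructor
  · linarith [hs1.1, hs2.2]
  · linarith [hs1.2, hs2.1]

end

end Pool.SQGA
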