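import Pool.Agent.Work.MP_a2fcf1_an_ar.I4

/-! # Block MAIN: assembly of the theorem -/

set_option autoImplicit false

namespace Pool.SQGA

open Set MeasureTheory
open Pool.Agent.Work.MP_a2fcf1_an_h64 (cr sc eu n1 ex GloballyRegular)
open Pool.SQGF (RD)

namespace MainAux

theorem n1_zero (l : ℤ) : ((n1 ((0 : ℤ), l) : ℕ) : ℝ) = |(l : ℝ)| := by
  simp [n1, Nat.cast_natAbs]

theorem up_zero (N : ℕ) (a : ℤ × ℤ → ℂ) (l : ℤ) : up N a (0, l) = a (0, l) := by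
  simp [up]

theorem om_nonneg (s : ℝ) (l : ℤ) : 0 ≤ om s l := by
  unfold om
  positivity

theorem norm_Sl_le (p : Par) (hp : p.Ok) {t : ℝ} (ht : 0 ≤ t) (l : ℤ) :
    ‖Sl p t l‖ ≤ ‖p.A l‖ := by
  unfold Sl
  rw [norm_mul, Complex.norm_real, Real.norm_eq_abs, abs_of_pos (Real.exp_pos _)]
  have h : Real.exp (-(p.κ * |(l : ℝ)| ^ (2 * p.α) * t)) ≤ 1 := by
    rw [Real.exp_le_one_iff]
    have := mul_nonneg (mul_nonneg hp.κ_pos.le
      (Real.rpow_nonneg (abs_nonneg (l : ℝ)) (2 * p.α))) ht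
    linarith
  calc _ ≤ 1 * ‖p.A l‖ := mul_le_mul_of_nonneg_right h (norm_nonneg _)
    _ = _ := one_mul _

theorem norm_Bd_zero (p : Par) {β t R : ℝ} {y : ℤ × ℤ → ℂ} (hR : 0 ≤ R)
    (hβ : β * t ≤ p.s / 2) (hy : Bd p β t R y) (l : ℤ) :
    ‖y (0, l)‖ ≤ R * Real.exp (-(p.s / 2 * |(l : ℝ)|)) := by
  refine (hy (0, l)).trans (mul_le_mul_of_nonneg_left ?_ hR)
  unfold wv Wt
  rw [if_pos rfl, n1_zero]
  have ha : 0 ≤ |(l : ℝ)| := abs_nonneg _
  have h1 : min 1 ((1 + |(l : ℝ)|) / (p.N : ℝ)) ≤ 1 := min_le_left _ _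
  have h2 : Real.exp (-((p.s - β * t) * |(l : ℝ)|)) / (1 + |(l : ℝ)|) ^ 4 ≤
      Real.exp (-((p.s - β * t) * |(l : ℝ)|)) :=
    div_le_self (Real.exp_pos _).le (one_le_pow₀ (by linarith))
  have h3 : Real.exp (-((p.s - β * t) * |(l : ℝ)|)) ≤ Real.exp (-(p.s / 2 * |(l : ℝ)|)) := by
    apply Real.exp_le_exp.2
    nlinarith
  have h4 : 0 ≤ Real.exp (-((p.s - β * t) * |(l : ℝ)|)) / (1 + |(l : ℝ)|) ^ 4 := by positivity
  calc min 1 ((1 + |(l : ℝ)|) / (p.N : ℝ)) *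
        (Real.exp (-((p.s - β * t) * |(l : ℝ)|)) / (1 + |(l : ℝ)|) ^ 4)
      ≤ 1 * (Real.exp (-((p.s - β * t) * |(l : ℝ)|)) / (1 + |(l : ℝ)|) ^ 4) :=
        mul_le_mul_of_nonneg_right h1 h4
    _ ≤ Real.exp (-(p.s / 2 * |(l : ℝ)|)) := by rw [one_mul]; exact h2.trans h3

end MainAux

open MainAux

theorem p_MAIN (hST1 : Stmt_ST1) (hSTB : Stmt_STB) (hGLU : Stmt_GLU) (hDEC : Stmt_DEC)
    (hSML : Stmt_SML) (hUPB : Stmt_UPB) (hNUM : Stmt_NUM) (hSYM : Pool.SQGF.Stmt_SYM)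
    (hBRI : Pool.SQGF.Stmt_BRI) : Stmt_MAIN := by
  intro κ α σ hκ hα hα2 hσ
  obtain ⟨c₁, C₁, hc₁, hc₁2, hC₁, hST⟩ := hST1 α hα hα2
  obtain ⟨cb, hcb, hSTb⟩ := hSTB κ α hκ hα hα2
  obtain ⟨Co, hCo, hN1, hN2, hN3, hN4, hN5⟩ := hNUM σ hσ
  obtain ⟨D, hD, hDe⟩ := hDEC (σ / 2) 5 (by positivity)
  obtain ⟨Cs, hCs, hSm⟩ := hSML (σ / 2) D (by positivity) hD
  have hCo0 : 0 < Co := by linarith
  obtain ⟨c, hc, hc1, hcA, hcB, hcC, hcD⟩ : ∃ c : ℝ, 0 < c ∧ c ≤ 1 ∧ c * (20 * Co) ≤ c₁ * κ ∧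
      c * (160 * C₁ * Co) ≤ σ * κ ∧ c * (6 * Co ^ 2) ≤ cb ∧ c * (16 * Cs * Co ^ 2) ≤ cb := by
    have hA : min 1 (min (c₁ * κ / (20 * Co)) (min (σ * κ / (160 * C₁ * Co))
      (min (cb / (6 * Co ^ 2)) (cb / (16 * Cs * Co ^ 2))))) ≤ _ := min_le_right _ _
    have hB := hA.trans (min_le_right _ _)
    have hC := hB.trans (min_le_right _ _)
    refine ⟨_, ?_, min_le_left _ _, (le_div_iff₀ (by positivity)).1 (hA.trans (min_le_left _ _)),
      (le_div_iff₀ (by positivity)).1 (hB.trans (min_le_left _ _)),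
      (le_div_iff₀ (by positivity)).1 (hC.trans (min_le_left _ _)),
      (le_div_iff₀ (by positivity)).1 (hC.trans (min_le_right _ _))⟩
    positivity
  refine ⟨c, hc, fun N g θ₀ hN hsum hle hθ => ?_⟩
  have hN1' : 1 ≤ N := by omega
  obtain ⟨hU1, hU2, hU3, hU4, hU5⟩ := hUPB N g hN1'
  have hone : ∀ k : ℤ × ℤ, 1 ≤ Real.exp (σ * n1 k) := fun k => Real.one_le_exp (by positivity)
  have hsg : Summable fun k => ‖g k‖ :=
    Summable.of_nonneg_of_le (fun k => norm_nonneg _)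
      (fun k => by nlinarith [hone k, norm_nonneg (g k)]) hsum
  have hθ' : ∀ x, ((θ₀ x : ℝ) : ℂ) = ∑' k, up N g k * ex k x := fun x => by
    rw [hU4 x]; exact hθ x
  have hsymu := hSYM (up N g) θ₀ (hU5 hsg) hθ'
  have hsym : ∀ k, g (-k) = (starRingEnd ℂ) (g k) := hU2.2 hsymu
  -- sizes
  have hNR : (2 : ℝ) ≤ N := by exact_mod_cast hN
  have hL : 1 / 2 ≤ Real.log N := by
    have h1 : Real.log 2 ≤ Real.log N := Real.log_le_log (by norm_num) hNR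
    have h2 := Real.log_two_gt_d9
    linarith
  obtain ⟨L, hLdef⟩ : ∃ L, L = Real.log N := ⟨_, rfl⟩
  obtain ⟨X, hXdef⟩ : ∃ X, X = (N : ℝ) ^ (2 * α) := ⟨_, rfl⟩
  have hX : 0 < X := by rw [hXdef]; positivity
  have hXN : X ≤ N := by
    rw [hXdef]
    calc (N : ℝ) ^ (2 * α) ≤ (N : ℝ) ^ (1 : ℝ) :=
          Real.rpow_le_rpow_of_exponent_le (by linarith) (by linarith)
      _ = N := Real.rpow_one _
  rw [← hLdef] at hL
  have hL0 : 0 < L := by linarith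
  rw [← hLdef, ← hXdef] at hle
  obtain ⟨G, hG⟩ : ∃ G, G = c * X / L := ⟨_, rfl⟩
  have hG0 : 0 < G := by rw [hG]; positivity
  rw [← hG] at hle
  have hG2 : G ≤ 2 * c * X := by
    rw [hG, div_le_iff₀ hL0]
    nlinarith [mul_pos hc hX]
  -- the shear part
  have hinj : Function.Injective (fun l : ℤ => ((0 : ℤ), l)) := fun a b h => (Prod.ext_iff.1 h).2
  have hs0 : Summable fun l : ℤ => Real.exp (σ * |(l : ℝ)|) * ‖g (0, l)‖ := by
    have := hsum.comp_injective hinj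
    simpa only [Function.comp_def, n1_zero] using this
  have hs0le : ∑' l : ℤ, Real.exp (σ * |(l : ℝ)|) * ‖g (0, l)‖ ≤ G := by
    have h := tsum_comp_le_tsum_of_inj hsum (fun k => by positivity) hinj
    simp only [Function.comp_def, n1_zero] at h
    exact h.trans hle
  have hterm : ∀ l : ℤ, om (σ / 2) l * (|(l : ℝ)| * ‖g (0, l)‖) ≤
      Co * (Real.exp (σ * |(l : ℝ)|) * ‖g (0, l)‖) := fun l => by
    calc _ = (om (σ / 2) l * |(l : ℝ)|) * ‖g (0, l)‖ := by ring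
      _ ≤ (Co * Real.exp (σ * |(l : ℝ)|)) * ‖g (0, l)‖ :=
          mul_le_mul_of_nonneg_right (hN1 l) (norm_nonneg _)
      _ = _ := by ring
  have htermS : Summable fun l : ℤ => om (σ / 2) l * (|(l : ℝ)| * ‖g (0, l)‖) :=
    Summable.of_nonneg_of_le
      (fun l => mul_nonneg (om_nonneg _ _) (mul_nonneg (abs_nonneg _) (norm_nonneg _)))
      hterm (hs0.mul_left Co)
  obtain ⟨p, hpdef⟩ : ∃ p : Par, p = ⟨κ, α, σ / 2, N, fun l => g (0, l)⟩ := ⟨_, rfl⟩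
  have hpκ : p.κ = κ := by rw [hpdef]
  have hpα : p.α = α := by rw [hpdef]
  have hps : p.s = σ / 2 := by rw [hpdef]
  have hpN : p.N = N := by rw [hpdef]
  have hpA : ∀ l, p.A l = g (0, l) := fun l => by rw [hpdef]
  have hp : p.Ok := by
    constructor
    · rw [hpκ]; exact hκ
    · rw [hpα]; exact hα
    · rw [hpα]; exact hα2
    · rw [hps]; positivity
    · rw [hpN]; exact hN1'
    · simpa only [hps, hpA] using htermS
    · intro l
      rw [hpA, hpA, ← hsym]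
      congr 1
  have hAs : p.As ≤ Co * G := by
    unfold Par.As
    simp only [hps, hpA]
    calc ∑' l : ℤ, om (σ / 2) l * (|(l : ℝ)| * ‖g (0, l)‖)
        ≤ ∑' l : ℤ, Co * (Real.exp (σ * |(l : ℝ)|) * ‖g (0, l)‖) :=
          htermS.tsum_le_tsum hterm (hs0.mul_left Co)
      _ = Co * ∑' l : ℤ, Real.exp (σ * |(l : ℝ)|) * ‖g (0, l)‖ := tsum_mul_left
      _ ≤ Co * G := mul_le_mul_of_nonneg_left hs0le hCo0.le
  -- times and radii
  obtain ⟨T, hT⟩ : ∃ T, T = 20 * L / (κ * X) := ⟨_, rfl⟩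
  have hT0 : 0 < T := by rw [hT]; positivity
  have hTG : T * G = 20 * c / κ := by
    rw [hT, hG]
    field_simp
  obtain ⟨R, hR⟩ : ∃ R, R = 2 * Co * G := ⟨_, rfl⟩
  have hR0 : 0 < R := by rw [hR]; positivity
  have hTA : T * p.As ≤ c₁ := by
    calc T * p.As ≤ T * (Co * G) := mul_le_mul_of_nonneg_left hAs hT0.le
      _ = Co * (T * G) := by ring
      _ = (c * (20 * Co)) / κ := by rw [hTG]; ring
      _ ≤ c₁ := by rw [div_le_iff₀ hκ]; exact hcA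
  have hRT : C₁ * R * T ≤ p.s / 2 := by
    rw [hps]
    calc C₁ * R * T = 2 * C₁ * Co * (T * G) := by rw [hR]; ring
      _ = (c * (160 * C₁ * Co)) / κ / 4 := by rw [hTG]; ring
      _ ≤ σ / 4 := by
          have : (c * (160 * C₁ * Co)) / κ ≤ σ := by rw [div_le_iff₀ hκ]; exact hcB
          linarith
      _ = σ / 2 / 2 := by ring
  have hgk : ∀ k : ℤ × ℤ, k.1 ≠ 0 →
      ‖g k‖ ≤ R / 2 * (Real.exp (-(p.s * n1 k)) / (1 + n1 k) ^ 4) := by
    intro k _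
    have h1 : Real.exp (σ * n1 k) * ‖g k‖ ≤ G :=
      (hsum.le_tsum k (fun j _ => by positivity)).trans hle
    have h2 : ‖g k‖ ≤ G * Real.exp (-(σ * n1 k)) := by
      rw [Real.exp_neg, ← div_eq_mul_inv, le_div_iff₀ (Real.exp_pos _)]
      linarith
    have h3 := hN3 (n1 k)
    rw [hps, hR]
    calc ‖g k‖ ≤ G * Real.exp (-(σ * n1 k)) := h2
      _ ≤ G * (Co * (Real.exp (-(σ / 2 * n1 k)) / (1 + n1 k) ^ 4)) :=
          mul_le_mul_of_nonneg_left h3 hG0.le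
      _ = _ := by ring
  obtain ⟨b, y, hyB, hb0, hbT, hbd, hbs, hbode⟩ :=
    hST p hp hpα T R g hT0 hR0 hTA hRT hsym hpA hgk
  rw [hpN] at hb0 hbT
  have hTmem : T ∈ Icc (0 : ℝ) T := ⟨hT0.le, le_rfl⟩
  have hβ0 : 0 ≤ C₁ * R := by positivity
  obtain ⟨hD1, hD2, _, _⟩ := hDe p hp hps (C₁ * R) T R y hβ0 hT0.le hRT
    (hTA.trans hc₁2) hR0.le hyB
  -- the data at time `T`
  have hlow : ∑' l : ℤ, (1 + |(l : ℝ)|) ^ 7 * ‖b (0, l) T‖ ≤ cb * (N : ℝ) ^ (2 * α) := by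
    have hpt : ∀ l : ℤ, (1 + |(l : ℝ)|) ^ 7 * ‖b (0, l) T‖ ≤
        Co * (Real.exp (σ * |(l : ℝ)|) * ‖g (0, l)‖) +
          R * ((1 + |(l : ℝ)|) ^ 7 * Real.exp (-(σ / 4 * |(l : ℝ)|))) := by
      intro l
      have e1 : b (0, l) T = Sl p T l + y (0, l) := by
        rw [hbT, up_zero]
        exact hD2 (0, l) rfl
      have e2 : ‖b (0, l) T‖ ≤ ‖g (0, l)‖ + R * Real.exp (-(σ / 4 * |(l : ℝ)|)) := by
        rw [e1]
        have e3 := norm_Sl_le p hp hT0.le l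
        have e4 := norm_Bd_zero p hR0.le hRT hyB l
        rw [hpA] at e3
        rw [hps, show σ / 2 / 2 = σ / 4 by ring] at e4
        exact (norm_add_le _ _).trans (add_le_add e3 e4)
      have e5 : 0 ≤ (1 + |(l : ℝ)|) ^ 7 := by positivity
      calc (1 + |(l : ℝ)|) ^ 7 * ‖b (0, l) T‖
          ≤ (1 + |(l : ℝ)|) ^ 7 * (‖g (0, l)‖ + R * Real.exp (-(σ / 4 * |(l : ℝ)|))) :=
            mul_le_mul_of_nonneg_left e2 e5
        _ = (1 + |(l : ℝ)|) ^ 7 * ‖g (0, l)‖ +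
            R * ((1 + |(l : ℝ)|) ^ 7 * Real.exp (-(σ / 4 * |(l : ℝ)|))) := by ring
        _ ≤ (Co * Real.exp (σ * |(l : ℝ)|)) * ‖g (0, l)‖ +
            R * ((1 + |(l : ℝ)|) ^ 7 * Real.exp (-(σ / 4 * |(l : ℝ)|))) := by
            have := mul_le_mul_of_nonneg_right (hN2 l) (norm_nonneg (g (0, l)))
            linarith
        _ = _ := by ring
    have hS1 := hs0.mul_left Co
    have hS2 := hN4.mul_left R
    have hS := hS1.add hS2
    have hSb : Summable fun l : ℤ => (1 + |(l : ℝ)|) ^ 7 * ‖b (0, l) T‖ :=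
      Summable.of_nonneg_of_le (fun l => by positivity) hpt hS
    have h1 := hSb.tsum_le_tsum hpt hS
    rw [hS1.tsum_add hS2, tsum_mul_left, tsum_mul_left] at h1
    have h2 : Co * ∑' l : ℤ, Real.exp (σ * |(l : ℝ)|) * ‖g (0, l)‖ ≤ Co * G :=
      mul_le_mul_of_nonneg_left hs0le hCo0.le
    have h3 := mul_le_mul_of_nonneg_left hN5 hR0.le
    have h4 : Co * G ≤ Co ^ 2 * G := by
      have : Co * 1 ≤ Co * Co := mul_le_mul_of_nonneg_left hCo hCo0.le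
      nlinarith
    have h5 : 3 * Co ^ 2 * G ≤ 3 * Co ^ 2 * (2 * c * X) :=
      mul_le_mul_of_nonneg_left hG2 (by positivity)
    have h6 : c * (6 * Co ^ 2) * X ≤ cb * X := mul_le_mul_of_nonneg_right hcC hX.le
    have h7 : R * Co = 2 * Co ^ 2 * G := by rw [hR]; ring
    rw [← hXdef]
    nlinarith
  have hEf : Ef p T = ((N : ℝ) ^ 10)⁻¹ := by
    unfold Ef
    rw [hpκ, hpα, hpN, ← hXdef]
    have e1 : -(κ * X * T / 2) = -(10 * L) := by
      rw [hT]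
      field_simp
      ring
    rw [e1, hLdef, Real.exp_neg]
    congr 1
    rw [show (10 : ℝ) * Real.log N = ((10 : ℕ) : ℝ) * Real.log N by norm_num,
      Real.exp_nat_mul, Real.exp_log (by linarith)]
  have hhigh : ∑' k : ℤ × ℤ, (if k.1 = 0 then 0 else (1 + (n1 k : ℝ)) ^ 6 * ‖b k T‖ ^ 2) ≤
      cb := by
    have hE0 : 0 ≤ R * Ef p T := by rw [hEf]; positivity
    have h1 := (hSm N (R * Ef p T) (av p T y) hN1' hE0 (fun k hk => by
      have := hD1 k hk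
      rwa [hpN] at this)).2
    simp only [← hbT] at h1
    refine h1.trans ?_
    have hNp : (0 : ℝ) < N := by linarith
    have e1 : (N : ℝ) ^ 16 * (R * Ef p T) ^ 2 = R ^ 2 / (N : ℝ) ^ 4 := by
      rw [hEf]
      field_simp
    have e2 : R ≤ 4 * Co * c * N := by
      calc R = 2 * Co * G := hR
        _ ≤ 2 * Co * (2 * c * X) := mul_le_mul_of_nonneg_left hG2 (by positivity)
        _ ≤ 2 * Co * (2 * c * N) := by
            apply mul_le_mul_of_nonneg_left _ (by positivity)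
            exact mul_le_mul_of_nonneg_left hXN (by positivity)
        _ = _ := by ring
    have e3 : R ^ 2 ≤ (4 * Co * c * N) ^ 2 := pow_le_pow_left₀ hR0.le e2 2
    have e4 : R ^ 2 / (N : ℝ) ^ 4 ≤ 16 * Co ^ 2 * c := by
      rw [div_le_iff₀ (by positivity)]
      have f1 : (1 : ℝ) ≤ (N : ℝ) ^ 2 := one_le_pow₀ (by linarith)
      have f2 : c * c ≤ c * 1 := mul_le_mul_of_nonneg_left hc1 hc.le
      have f3 : (4 * Co * c * N) ^ 2 = 16 * Co ^ 2 * (c * c) * (N : ℝ) ^ 2 := by ring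
      have f4 : (0 : ℝ) < (N : ℝ) ^ 2 := by positivity
      have f5 : 16 * Co ^ 2 * (c * c) * (N : ℝ) ^ 2 ≤ 16 * Co ^ 2 * c * (N : ℝ) ^ 2 := by
        apply mul_le_mul_of_nonneg_right _ f4.le
        apply mul_le_mul_of_nonneg_left _ (by positivity)
        linarith
      have f6 : 16 * Co ^ 2 * c * (N : ℝ) ^ 2 * 1 ≤ 16 * Co ^ 2 * c * (N : ℝ) ^ 2 * (N : ℝ) ^ 2 :=
        mul_le_mul_of_nonneg_left f1 (by positivity)
      calc R ^ 2 ≤ (4 * Co * c * N) ^ 2 := e3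
        _ = 16 * Co ^ 2 * (c * c) * (N : ℝ) ^ 2 := f3
        _ ≤ 16 * Co ^ 2 * c * (N : ℝ) ^ 2 := f5
        _ = 16 * Co ^ 2 * c * (N : ℝ) ^ 2 * 1 := by ring
        _ ≤ 16 * Co ^ 2 * c * (N : ℝ) ^ 2 * (N : ℝ) ^ 2 := f6
        _ = 16 * Co ^ 2 * c * (N : ℝ) ^ 4 := by ring
    calc Cs * (N : ℝ) ^ 16 * (R * Ef p T) ^ 2 = Cs * ((N : ℝ) ^ 16 * (R * Ef p T) ^ 2) := by ring
      _ = Cs * (R ^ 2 / (N : ℝ) ^ 4) := by rw [e1]
      _ ≤ Cs * (16 * Co ^ 2 * c) := mul_le_mul_of_nonneg_left e4 hCs.le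
      _ = c * (16 * Cs * Co ^ 2) := by ring
      _ ≤ cb := hcD
  obtain ⟨a, haRD, ha0, has, haode⟩ := hSTb N (fun k => b k T) hN1'
    (fun k hk => by
      by_contra hnd
      apply hk
      simp only [hbT, up, if_neg hnd])
    (fun k => hbs k T hTmem)
    (fun q => by
      obtain ⟨C, hC⟩ := hbd q
      exact ⟨C, fun k => hC k T hTmem⟩)
    hlow hhigh
  have hbode' : ∀ (k : ℤ × ℤ), ∀ t ∈ Icc 0 T, HasDerivWithinAt (b k)
        (-(((κ * eu k ^ (2 * α) : ℝ) : ℂ) * b k t) -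
          ∑' j, ((sc j (k - j) : ℝ) : ℂ) * (b j t * b (k - j) t)) (Icc 0 T) t := by
    rw [hpκ, hpα] at hbode
    exact hbode
  obtain ⟨d, hdRD, hd0, hds, hdode⟩ := hGLU κ α T b a hT0 hbd hbs hbode' haRD ha0 has haode
  refine hBRI κ α d θ₀ hκ.le hα hα2.le hdRD hds hdode (fun x => ?_)
  rw [hθ' x]
  refine tsum_congr (fun k => ?_)
  rw [hd0 k, hb0 k]

end Pool.SQGA
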