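import Pool.Agent.Work.MP_a2fcf1_an_ar.I3

/-! # Block MLT (helper72): conjugation inverted -/

set_option autoImplicit false

namespace Pool.SQGA

open Set MeasureTheory
open Pool.Agent.Work.MP_a2fcf1_an_h64 (cr sc eu n1)

noncomputable section

/-- the family `F (b - l') G l'` is summable -/
theorem MLT_shear {F G : ℤ → ℝ} (hF : Summable F) (hG : Summable G) (hF0 : ∀ j, 0 ≤ F j)
    (hG0 : ∀ j, 0 ≤ G j) : Summable fun x : ℤ × ℤ => F (x.2 - x.1) * G x.1 := by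
  have h1 : Summable fun x : ℤ × ℤ => F x.1 * G x.2 := hF.mul_of_nonneg hG hF0 hG0
  let e : ℤ × ℤ ≃ ℤ × ℤ :=
    { toFun := fun x => (x.2 - x.1, x.1)
      invFun := fun x => (x.2, x.1 + x.2)
      left_inv := fun x => by ext <;> simp
      right_inv := fun x => by ext <;> simp }
  exact (e.summable_iff (f := fun x : ℤ × ℤ => F x.1 * G x.2)).2 h1

/-- a finite first moment from the weighted norm -/
theorem MLT_mom {s : ℝ} {a : ℤ → ℂ} (hs : 0 ≤ s) (h : WS s a) :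
    Summable fun l : ℤ => (1 + |(l : ℝ)|) * ‖a l‖ := by
  refine Summable.of_nonneg_of_le (fun l => by positivity) (fun l => ?_) h
  refine mul_le_mul_of_nonneg_right ?_ (norm_nonneg _)
  unfold om
  have h1 : (1 : ℝ) ≤ Real.exp (s * |(l : ℝ)|) := Real.one_le_exp (by positivity)
  have h2 : 1 + |(l : ℝ)| ≤ (1 + |(l : ℝ)|) ^ 4 :=
    le_self_pow₀ (by linarith [abs_nonneg (l : ℝ)]) (by norm_num)
  have h3 : (0 : ℝ) ≤ (1 + |(l : ℝ)|) ^ 4 := by positivity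
  nlinarith

theorem MLT_s1 {a : ℤ → ℂ} (h : Summable fun l : ℤ => (1 + |(l : ℝ)|) * ‖a l‖) : S1 a := by
  refine Summable.of_nonneg_of_le (fun l => norm_nonneg _) (fun l => ?_) h
  nlinarith [abs_nonneg (l : ℝ), norm_nonneg (a l),
    mul_nonneg (abs_nonneg (l : ℝ)) (norm_nonneg (a l))]

/-- the other form of the convolution -/
theorem MLT_cv (a f : ℤ → ℂ) (b : ℤ) : cv a f b = ∑' l', a (b - l') * f l' := by
  unfold cv
  rw [← (Equiv.subLeft b).tsum_eq fun j => a j * f (b - j)]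
  refine tsum_congr fun x => ?_
  have e1 : (Equiv.subLeft b) x = b - x := rfl
  have e2 : b - (b - x) = x := by ring
  rw [e1, e2]

theorem p_MLT (hEEM : Stmt_EEM) (hEEB : Stmt_EEB) (hEEW : Stmt_EEW) (hCVA : Stmt_CVA)
    (hFSM : Stmt_FSM) : Stmt_MLT := by
  intro p hp m t φ f ht hφ hf
  obtain ⟨C, hC⟩ := hφ
  have hC0 : 0 ≤ C := by
    have h1 := hC 0
    rw [Int.cast_zero, abs_zero, add_zero, mul_one] at h1
    exact (abs_nonneg _).trans h1
  obtain ⟨e, he⟩ : ∃ e, e = ee p m t := ⟨_, rfl⟩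
  obtain ⟨e', he'⟩ : ∃ e', e' = ee p (-m) t := ⟨_, rfl⟩
  have hCj : ∀ l l', Cj p φ m t l l' = ∑' b, e' (l - b) * (((φ b : ℝ) : ℂ) * e (b - l')) := by
    intro l l'
    rw [he, he']
    rfl
  have hem : Summable fun l : ℤ => (1 + |(l : ℝ)|) * ‖e l‖ := by
    rw [he]
    exact MLT_mom hp.s_pos.le (hEEW p hp m t ht).1
  have hem' : Summable fun l : ℤ => (1 + |(l : ℝ)|) * ‖e' l‖ := by
    rw [he']
    exact MLT_mom hp.s_pos.le (hEEW p hp (-m) t ht).1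
  have he1 : ∀ j, ‖e' j‖ ≤ 1 := fun j => by
    rw [he']
    exact ((hEEB p hp).1 (-m) t j ht).1
  have hF : Summable fun x : ℤ × ℤ => ((1 + |((x.2 - x.1 : ℤ) : ℝ)|) * ‖e (x.2 - x.1)‖) *
      ((1 + |(x.1 : ℝ)|) * ‖f x.1‖) :=
    MLT_shear (F := fun l : ℤ => (1 + |(l : ℝ)|) * ‖e l‖)
      (G := fun l : ℤ => (1 + |(l : ℝ)|) * ‖f l‖) hem hf (fun j => by positivity)
      (fun j => by positivity)
  have hbd : ∀ (b l' : ℤ), ‖((φ b : ℝ) : ℂ) * (e (b - l') * f l')‖ ≤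
      C * (((1 + |((b - l' : ℤ) : ℝ)|) * ‖e (b - l')‖) * ((1 + |(l' : ℝ)|) * ‖f l'‖)) := by
    intro b l'
    rw [norm_mul, norm_mul, Complex.norm_real, Real.norm_eq_abs]
    have h1 := hC b
    have h2 : 1 + |(b : ℝ)| ≤ (1 + |((b - l' : ℤ) : ℝ)|) * (1 + |(l' : ℝ)|) := by
      have h3 : |(b : ℝ)| ≤ |((b - l' : ℤ) : ℝ)| + |(l' : ℝ)| := by
        have := abs_add_le ((b - l' : ℤ) : ℝ) (l' : ℝ)
        have e3 : ((b - l' : ℤ) : ℝ) + (l' : ℝ) = b := by push_cast; ring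
        rwa [e3] at this
      nlinarith [mul_nonneg (abs_nonneg ((b - l' : ℤ) : ℝ)) (abs_nonneg (l' : ℝ))]
    have h3 : |φ b| ≤ C * ((1 + |((b - l' : ℤ) : ℝ)|) * (1 + |(l' : ℝ)|)) :=
      h1.trans (mul_le_mul_of_nonneg_left h2 hC0)
    calc |φ b| * (‖e (b - l')‖ * ‖f l'‖)
        ≤ (C * ((1 + |((b - l' : ℤ) : ℝ)|) * (1 + |(l' : ℝ)|))) * (‖e (b - l')‖ * ‖f l'‖) :=
          mul_le_mul_of_nonneg_right h3 (by positivity)
      _ = _ := by ring
  -- the double family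
  have hT : ∀ l : ℤ, Summable fun x : ℤ × ℤ =>
      e' (l - x.2) * (((φ x.2 : ℝ) : ℂ) * e (x.2 - x.1)) * f x.1 := by
    intro l
    refine Summable.of_norm_bounded (hF.mul_left C) fun x => ?_
    have h1 := hbd x.2 x.1
    calc ‖e' (l - x.2) * (((φ x.2 : ℝ) : ℂ) * e (x.2 - x.1)) * f x.1‖
        = ‖e' (l - x.2)‖ * ‖((φ x.2 : ℝ) : ℂ) * (e (x.2 - x.1) * f x.1)‖ := by
          rw [← norm_mul]
          congr 1
          ring
      _ ≤ 1 * ‖((φ x.2 : ℝ) : ℂ) * (e (x.2 - x.1) * f x.1)‖ :=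
          mul_le_mul_of_nonneg_right (he1 _) (norm_nonneg _)
      _ ≤ _ := by
          rw [one_mul]
          exact h1
  have hTn : ∀ l : ℤ, Summable fun x : ℤ × ℤ =>
      ‖e' (l - x.2) * (((φ x.2 : ℝ) : ℂ) * e (x.2 - x.1)) * f x.1‖ := fun l => (hT l).norm
  -- the entries
  have hent : ∀ l l' : ℤ, Cj p φ m t l l' * f l' =
      ∑' b, e' (l - b) * (((φ b : ℝ) : ℂ) * e (b - l')) * f l' := by
    intro l l'
    rw [hCj, tsum_mul_right]
  have h1 : ∀ l, Summable fun l' => ‖Cj p φ m t l l' * f l'‖ := by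
    intro l
    have h2 := (summable_prod_of_nonneg (f := fun x : ℤ × ℤ =>
      ‖e' (l - x.2) * (((φ x.2 : ℝ) : ℂ) * e (x.2 - x.1)) * f x.1‖)
      (fun x => norm_nonneg _)).1 (hTn l)
    refine Summable.of_nonneg_of_le (fun l' => norm_nonneg _) (fun l' => ?_) h2.2
    rw [hent]
    exact norm_tsum_le_tsum_norm (h2.1 l')
  -- the sequence `g`
  obtain ⟨g, hg⟩ : ∃ g : ℤ → ℂ, g = fun b => ((φ b : ℝ) : ℂ) * cv e f b := ⟨_, rfl⟩
  have hgt : ∀ b, g b = ∑' l', ((φ b : ℝ) : ℂ) * (e (b - l') * f l') := by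
    intro b
    rw [hg]
    simp only []
    rw [MLT_cv, tsum_mul_left]
  have hgs : S1 g := by
    have hsw : Summable fun x : ℤ × ℤ => ((1 + |((x.1 - x.2 : ℤ) : ℝ)|) * ‖e (x.1 - x.2)‖) *
        ((1 + |(x.2 : ℝ)|) * ‖f x.2‖) :=
      ((Equiv.prodComm ℤ ℤ).summable_iff (f := fun x : ℤ × ℤ =>
        ((1 + |((x.2 - x.1 : ℤ) : ℝ)|) * ‖e (x.2 - x.1)‖) * ((1 + |(x.1 : ℝ)|) * ‖f x.1‖))).2 hF
    have h2 := (summable_prod_of_nonneg (f := fun x : ℤ × ℤ =>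
      C * (((1 + |((x.1 - x.2 : ℤ) : ℝ)|) * ‖e (x.1 - x.2)‖) * ((1 + |(x.2 : ℝ)|) * ‖f x.2‖)))
      (fun x => by positivity)).1 (hsw.mul_left C)
    refine Summable.of_nonneg_of_le (fun b => norm_nonneg _) (fun b => ?_) h2.2
    rw [hgt]
    have h3 : Summable fun l' => ‖((φ b : ℝ) : ℂ) * (e (b - l') * f l')‖ :=
      Summable.of_nonneg_of_le (fun l' => norm_nonneg _) (fun l' => hbd b l') (h2.1 b)
    exact (norm_tsum_le_tsum_norm h3).trans (h3.tsum_le_tsum (fun l' => hbd b l') (h2.1 b))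
  have h2 : (fun l => ∑' l', Cj p φ m t l l' * f l') = cv e' g := by
    funext l
    have h3 : ∑' l', Cj p φ m t l l' * f l' =
        ∑' l', ∑' b, e' (l - b) * (((φ b : ℝ) : ℂ) * e (b - l')) * f l' :=
      tsum_congr fun l' => hent l l'
    rw [h3, ← Summable.tsum_comm (f := fun l' b =>
      e' (l - b) * (((φ b : ℝ) : ℂ) * e (b - l')) * f l') (hT l), MLT_cv]
    refine tsum_congr fun b => ?_
    rw [hgt, ← tsum_mul_left]
    exact tsum_congr fun l' => by ring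
  have he1s : S1 e := MLT_s1 hem
  have he1s' : S1 e' := MLT_s1 hem'
  refine ⟨h1, ?_, ?_⟩
  · rw [h2]
    exact (hFSM e' g he1s' hgs).1
  · intro l
    rw [h2, ← he, ← hCVA.2.1 e e' g he1s he1s' hgs, he, he', hEEM p hp m (-m) t ht,
      add_neg_cancel]
    have h3 : ee p 0 t = dl := funext fun j => (hEEB p hp).2.1 t j ht
    rw [h3, (hCVA.2.2.1 g).1, hg]
    exact congrArg (fun z => ((φ l : ℝ) : ℂ) * cv z f l) he

end

end Pool.SQGA
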