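import Pool.Agent.Work.MP_a2fcf1_an_ar.I4

/-! # Block NUM: elementary constants for MAIN -/

set_option autoImplicit false

namespace Pool.SQGA

open Set MeasureTheory

noncomputable section

theorem NUM_pow (a : ℝ) (ha : 0 < a) (q : ℕ) (x : ℝ) (hx : 0 ≤ x) :
    (1 + x) ^ q ≤ ((q.factorial : ℝ) / a ^ q * Real.exp a) * Real.exp (a * x) := by
  have h1 : (a * (1 + x)) ^ q / (q.factorial : ℝ) ≤ Real.exp (a * (1 + x)) :=
    Real.pow_div_factorial_le_exp _ (by positivity) q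
  have hf : (0 : ℝ) < (q.factorial : ℝ) := by exact_mod_cast q.factorial_pos
  have haq : 0 < a ^ q := pow_pos ha q
  rw [div_le_iff₀ hf, mul_pow] at h1
  have h2 : Real.exp (a * (1 + x)) = Real.exp a * Real.exp (a * x) := by
    rw [← Real.exp_add]
    congr 1
    ring
  rw [h2] at h1
  calc (1 + x) ^ q = (a ^ q * (1 + x) ^ q) / a ^ q := by field_simp
    _ ≤ (Real.exp a * Real.exp (a * x) * (q.factorial : ℝ)) / a ^ q := by gcongr
    _ = _ := by ring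

theorem NUM_const_nonneg (a : ℝ) (ha : 0 < a) (q : ℕ) :
    0 ≤ (q.factorial : ℝ) / a ^ q * Real.exp a := by positivity

theorem NUM_sum (a : ℝ) (ha : 0 < a) :
    Summable fun l : ℤ => Real.exp (-(a * |(l : ℝ)|)) := by
  have hn : Summable fun n : ℕ => Real.exp ((n : ℝ) * (-a)) :=
    Real.summable_exp_nat_mul_iff.2 (by linarith)
  refine Summable.of_nat_of_neg ?_ ?_
  · refine hn.congr fun n => ?_
    congr 1
    rw [Int.cast_natCast, abs_of_nonneg (Nat.cast_nonneg n)]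
    ring
  · refine hn.congr fun n => ?_
    congr 1
    rw [Int.cast_neg, Int.cast_natCast, abs_neg, abs_of_nonneg (Nat.cast_nonneg n)]
    ring

theorem p_NUM : Stmt_NUM := by
  intro σ hσ
  set K1 : ℝ := ((5 : ℕ).factorial : ℝ) / (σ / 2) ^ 5 * Real.exp (σ / 2) with hK1
  set K2 : ℝ := ((7 : ℕ).factorial : ℝ) / σ ^ 7 * Real.exp σ with hK2
  set K3 : ℝ := ((4 : ℕ).factorial : ℝ) / (σ / 2) ^ 4 * Real.exp (σ / 2) with hK3
  set K4 : ℝ := ((7 : ℕ).factorial : ℝ) / (σ / 8) ^ 7 * Real.exp (σ / 8) with hK4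
  set S : ℝ := ∑' l : ℤ, (1 + |(l : ℝ)|) ^ 7 * Real.exp (-(σ / 4 * |(l : ℝ)|)) with hS
  have h1 : 0 ≤ K1 := NUM_const_nonneg _ (by positivity) _
  have h2 : 0 ≤ K2 := NUM_const_nonneg _ hσ _
  have h3 : 0 ≤ K3 := NUM_const_nonneg _ (by positivity) _
  have h5 : 0 ≤ S := tsum_nonneg fun l => by positivity
  refine ⟨1 + K1 + K2 + K3 + S, by linarith, ?_, ?_, ?_, ?_, by linarith⟩
  · intro l
    unfold om
    have hl : 0 ≤ |(l : ℝ)| := abs_nonneg _
    have hp := NUM_pow (σ / 2) (by positivity) 5 |(l : ℝ)| hl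
    have he : Real.exp (σ * |(l : ℝ)|) =
        Real.exp (σ / 2 * |(l : ℝ)|) * Real.exp (σ / 2 * |(l : ℝ)|) := by
      rw [← Real.exp_add]
      congr 1
      ring
    calc Real.exp (σ / 2 * |(l : ℝ)|) * (1 + |(l : ℝ)|) ^ 4 * |(l : ℝ)|
        ≤ Real.exp (σ / 2 * |(l : ℝ)|) * (1 + |(l : ℝ)|) ^ 4 * (1 + |(l : ℝ)|) := by
          gcongr
          linarith
      _ = Real.exp (σ / 2 * |(l : ℝ)|) * (1 + |(l : ℝ)|) ^ 5 := by ring
      _ ≤ Real.exp (σ / 2 * |(l : ℝ)|) * (K1 * Real.exp (σ / 2 * |(l : ℝ)|)) := by gcongr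
      _ = K1 * Real.exp (σ * |(l : ℝ)|) := by rw [he]; ring
      _ ≤ (1 + K1 + K2 + K3 + S) * Real.exp (σ * |(l : ℝ)|) := by
          gcongr
          linarith
  · intro l
    have hl : 0 ≤ |(l : ℝ)| := abs_nonneg _
    have hp := NUM_pow σ hσ 7 |(l : ℝ)| hl
    calc (1 + |(l : ℝ)|) ^ 7 ≤ K2 * Real.exp (σ * |(l : ℝ)|) := hp
      _ ≤ (1 + K1 + K2 + K3 + S) * Real.exp (σ * |(l : ℝ)|) := by
          gcongr
          linarith
  · intro n
    have hn : (0 : ℝ) ≤ (n : ℝ) := Nat.cast_nonneg n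
    have hp := NUM_pow (σ / 2) (by positivity) 4 (n : ℝ) hn
    have h1n : (0 : ℝ) < (1 + (n : ℝ)) ^ 4 := by positivity
    rw [← mul_div_assoc, le_div_iff₀ h1n]
    have he : Real.exp (-(σ * n)) * Real.exp (σ / 2 * n) = Real.exp (-(σ / 2 * n)) := by
      rw [← Real.exp_add]
      congr 1
      ring
    calc Real.exp (-(σ * n)) * (1 + (n : ℝ)) ^ 4
        ≤ Real.exp (-(σ * n)) * (K3 * Real.exp (σ / 2 * n)) := by gcongr
      _ = K3 * (Real.exp (-(σ * n)) * Real.exp (σ / 2 * n)) := by ring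
      _ = K3 * Real.exp (-(σ / 2 * n)) := by rw [he]
      _ ≤ (1 + K1 + K2 + K3 + S) * Real.exp (-(σ / 2 * n)) := by
          gcongr
          linarith
  · have hs := (NUM_sum (σ / 8) (by positivity)).mul_left K4
    refine Summable.of_nonneg_of_le (fun l => by positivity) (fun l => ?_) hs
    have hl : 0 ≤ |(l : ℝ)| := abs_nonneg _
    have hp := NUM_pow (σ / 8) (by positivity) 7 |(l : ℝ)| hl
    have he : Real.exp (σ / 8 * |(l : ℝ)|) * Real.exp (-(σ / 4 * |(l : ℝ)|)) =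
        Real.exp (-(σ / 8 * |(l : ℝ)|)) := by
      rw [← Real.exp_add]
      congr 1
      ring
    calc (1 + |(l : ℝ)|) ^ 7 * Real.exp (-(σ / 4 * |(l : ℝ)|))
        ≤ (K4 * Real.exp (σ / 8 * |(l : ℝ)|)) * Real.exp (-(σ / 4 * |(l : ℝ)|)) := by gcongr
      _ = K4 * (Real.exp (σ / 8 * |(l : ℝ)|) * Real.exp (-(σ / 4 * |(l : ℝ)|))) := by ring
      _ = K4 * Real.exp (-(σ / 8 * |(l : ℝ)|)) := by rw [he]

end

end Pool.SQGA
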