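import Pool.Agent.Work.MP_a2fcf1_an_ar.I1

set_option autoImplicit false

/-! # MP_a2fcf1_an, block OMS (helper87): the weight -/

namespace Pool.SQGA

open Set MeasureTheory

theorem p_OMS : Stmt_OMS := by
  have one_le : ∀ (s : ℝ) (j : ℤ), 0 ≤ s → 1 ≤ om s j := by
    intro s j hs
    unfold om
    have h1 : (1 : ℝ) ≤ Real.exp (s * |(j : ℝ)|) :=
      Real.one_le_exp (mul_nonneg hs (abs_nonneg _))
    have h2 : (1 : ℝ) ≤ (1 + |(j : ℝ)|) ^ 4 := one_le_pow₀ (by linarith [abs_nonneg (j : ℝ)])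
    nlinarith
  refine ⟨one_le, ?_, ?_, ?_, ?_⟩
  · intro s j
    unfold om
    push_cast
    rw [abs_neg]
  · intro s i j hs
    unfold om
    have hi := abs_nonneg (i : ℝ)
    have hj := abs_nonneg (j : ℝ)
    have h0 : |((i + j : ℤ) : ℝ)| ≤ |(i : ℝ)| + |(j : ℝ)| := by
      push_cast
      exact abs_add_le _ _
    have h00 := abs_nonneg ((i + j : ℤ) : ℝ)
    have h1 : Real.exp (s * |((i + j : ℤ) : ℝ)|) ≤
        Real.exp (s * |(i : ℝ)|) * Real.exp (s * |(j : ℝ)|) := by
      rw [← Real.exp_add, ← mul_add]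
      exact Real.exp_le_exp.2 (mul_le_mul_of_nonneg_left h0 hs)
    have h2 : (1 + |((i + j : ℤ) : ℝ)|) ^ 4 ≤ (1 + |(i : ℝ)|) ^ 4 * (1 + |(j : ℝ)|) ^ 4 := by
      rw [← mul_pow]
      refine pow_le_pow_left₀ (by linarith) ?_ 4
      nlinarith
    calc Real.exp (s * |((i + j : ℤ) : ℝ)|) * (1 + |((i + j : ℤ) : ℝ)|) ^ 4
        ≤ (Real.exp (s * |(i : ℝ)|) * Real.exp (s * |(j : ℝ)|)) *
          ((1 + |(i : ℝ)|) ^ 4 * (1 + |(j : ℝ)|) ^ 4) :=
          mul_le_mul h1 h2 (by positivity) (by positivity)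
      _ = _ := by ring
  · intro s a hs ha
    refine Summable.of_nonneg_of_le (fun l => norm_nonneg _) (fun l => ?_) ha
    have h1 := one_le s l hs
    have h2 := norm_nonneg (a l)
    nlinarith
  · intro s q hs
    refine ⟨(q.factorial : ℝ) / s ^ q * Real.exp s, by positivity, fun j => ?_⟩
    set x := |(j : ℝ)| with hx
    have hx0 : 0 ≤ x := abs_nonneg _
    have h1 := Real.pow_div_factorial_le_exp (s * (1 + x)) (by positivity) q
    have h2 : (1 + x) ^ q ≤ (q.factorial : ℝ) / s ^ q * Real.exp (s * (1 + x)) := by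
      rw [div_le_iff₀ (by positivity), mul_pow] at h1
      rw [div_mul_eq_mul_div, le_div_iff₀ (by positivity)]
      nlinarith
    have h3 : Real.exp (s * (1 + x)) = Real.exp s * Real.exp (s * x) := by
      rw [← Real.exp_add]
      congr 1
      ring
    have h4 : (1 : ℝ) ≤ (1 + x) ^ 4 := one_le_pow₀ (by linarith)
    rw [h3] at h2
    unfold om
    rw [← hx]
    refine h2.trans ?_
    have h5 : 0 ≤ (q.factorial : ℝ) / s ^ q * Real.exp s * Real.exp (s * x) := by positivity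
    calc (q.factorial : ℝ) / s ^ q * (Real.exp s * Real.exp (s * x))
        = (q.factorial : ℝ) / s ^ q * Real.exp s * Real.exp (s * x) * 1 := by ring
      _ ≤ (q.factorial : ℝ) / s ^ q * Real.exp s * Real.exp (s * x) * (1 + x) ^ 4 :=
          mul_le_mul_of_nonneg_left h4 h5
      _ = _ := by ring

end Pool.SQGA
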