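import Pool.Agent.Work.MP_a2fcf1_an_ar.I2

/-! # MP_a2fcf1_an (helper61), block P1 (typed by helper63) -/

set_option autoImplicit false

namespace Pool.SQGA

open Set MeasureTheory
open Pool.Agent.Work.MP_a2fcf1_an_h64 (cr sc eu n1)

noncomputable section

theorem p_P1 (hRES : Stmt_RES) (hRIM : Stmt_RIM) (hEEW : Stmt_EEW) (hEEB : Stmt_EEB)
    (hOMS : Stmt_OMS) : Stmt_P1 := by
  intro p hp m l t ht htA hm
  obtain ⟨C, hC, hRI⟩ := hRIM
  set M : ℝ := p.N * |(m : ℝ)| with hM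
  have hMpos : 0 < M := by
    have h1 : (0 : ℝ) < p.N := by exact_mod_cast hp.N_pos
    have h2 : (0 : ℝ) < |(m : ℝ)| := abs_pos.2 (by exact_mod_cast hm)
    positivity
  have hS : Summable fun b : ℤ => ‖ee p (-m) t (l - b)‖ := by
    have h1 : S1 (ee p (-m) t) := hOMS.2.2.2.1 p.s _ hp.s_pos.le (hEEW p hp (-m) t ht).1
    exact (Equiv.subLeft l).summable_iff.2 h1
  have hb1 : ∀ j, ‖ee p m t j‖ ≤ 1 := fun j => ((hEEB p hp).1 m t j ht).1
  have hX : ∀ b : ℤ, 0 < M ^ 2 + (b : ℝ) ^ 2 := fun b => by positivity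
  have heu : ∀ b : ℤ, 1 / eu (Dk p (m, b)) = (M ^ 2 + (b : ℝ) ^ 2) ^ (-(1 / 2) : ℝ) := by
    intro b
    have h1 : eu (Dk p (m, b)) = √(M ^ 2 + (b : ℝ) ^ 2) := by
      unfold eu Dk
      congr 1
      push_cast
      rw [hM, mul_pow, mul_pow, sq_abs]
    rw [h1, Real.rpow_neg (hX b).le, ← Real.sqrt_eq_rpow, one_div]
  -- the functions to be integrated
  set g : ℤ → ℝ → ℝ := fun b r => r ^ (-(1 / 2) : ℝ) / (r + (M ^ 2 + (b : ℝ) ^ 2)) with hg
  have hgi : ∀ b, IntegrableOn (g b) (Ioi 0) := fun b => (hRI _ (hX b)).1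
  have hge : ∀ b : ℤ, 1 / eu (Dk p (m, b)) = C * ∫ r in Ioi (0 : ℝ), g b r := by
    intro b
    rw [heu b]
    exact (hRI _ (hX b)).2
  have hg0 : ∀ b, ∀ r ∈ Ioi (0 : ℝ), 0 ≤ g b r := by
    intro b r hr
    have hr' : (0 : ℝ) < r := hr
    have := hX b
    simp only [hg]
    positivity
  have hgM : ∀ b : ℤ, C * ∫ r in Ioi (0 : ℝ), g b r ≤ M⁻¹ := by
    intro b
    rw [← hge b, heu b]
    have h1 : (M ^ 2 + (b : ℝ) ^ 2) ^ (-(1 / 2) : ℝ) ≤ (M ^ 2) ^ (-(1 / 2) : ℝ) :=
      Real.rpow_le_rpow_of_nonpos (by positivity) (by nlinarith [sq_nonneg (b : ℝ)]) (by norm_num)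
    have h2 : (M ^ 2) ^ (-(1 / 2) : ℝ) = M⁻¹ := by
      rw [Real.rpow_neg (by positivity), ← Real.sqrt_eq_rpow, Real.sqrt_sq hMpos.le]
    rw [h2] at h1
    exact h1
  set F : ℤ → ℤ → ℝ → ℂ := fun l' b r =>
    ee p (-m) t (l - b) * (((g b r : ℝ) : ℂ) * ee p m t (b - l')) with hF
  have hFi : ∀ l' b, IntegrableOn (F l' b) (Ioi 0) := by
    intro l' b
    exact ((hgi b).ofReal.mul_const _).const_mul _
  have hFI : ∀ l' b, ∫ r in Ioi (0 : ℝ), F l' b r =
      ee p (-m) t (l - b) * (((∫ r in Ioi (0 : ℝ), g b r : ℝ) : ℂ) * ee p m t (b - l')) := by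
    intro l' b
    simp only [hF]
    rw [integral_const_mul, integral_mul_const, integral_complex_ofReal]
  have hFn : ∀ l' b, ∀ r ∈ Ioi (0 : ℝ), ‖F l' b r‖ ≤ ‖ee p (-m) t (l - b)‖ * g b r := by
    intro l' b r hr
    simp only [hF, norm_mul, Complex.norm_real, Real.norm_eq_abs, abs_of_nonneg (hg0 b r hr)]
    have h1 := hb1 (b - l')
    have h2 := hg0 b r hr
    have h3 : g b r * ‖ee p m t (b - l')‖ ≤ g b r * 1 := mul_le_mul_of_nonneg_left h1 h2
    have h4 := mul_le_mul_of_nonneg_left h3 (norm_nonneg (ee p (-m) t (l - b)))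
    rw [mul_one] at h4
    exact h4
  have hFS : ∀ l', Summable fun b => ∫ r in Ioi (0 : ℝ), ‖F l' b r‖ := by
    intro l'
    refine Summable.of_nonneg_of_le (fun b => integral_nonneg fun r => norm_nonneg _) ?_
      (hS.mul_right (M⁻¹ / C))
    intro b
    have h1 : ∫ r in Ioi (0 : ℝ), ‖F l' b r‖ ≤
        ∫ r in Ioi (0 : ℝ), ‖ee p (-m) t (l - b)‖ * g b r :=
      setIntegral_mono_on (hFi l' b).norm ((hgi b).const_mul _) measurableSet_Ioi (hFn l' b)
    rw [integral_const_mul] at h1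
    refine h1.trans (mul_le_mul_of_nonneg_left ?_ (norm_nonneg _))
    rw [le_div_iff₀ hC, mul_comm]
    exact hgM b
  have hHS : ∀ l', HasSum (fun b => ∫ r in Ioi (0 : ℝ), F l' b r)
      (∫ r in Ioi (0 : ℝ), ∑' b, F l' b r) := fun l' =>
    hasSum_integral_of_summable_integral_norm (hFi l') (hFS l')
  -- the representation
  have hPm : ∀ l', Pm p t m l l' = (C : ℂ) * ∫ r in Ioi (0 : ℝ), ∑' b, F l' b r := by
    intro l'
    rw [← (hHS l').tsum_eq, ← tsum_mul_left]
    unfold Pm Cj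
    congr 1
    funext b
    rw [hFI l' b]
    have h1 := hge b
    simp only [Int.cast_sub] at *
    rw [h1]
    push_cast
    ring
  have hQ : ∀ l', ∀ r ∈ Ioi (0 : ℝ), ∑' b, F l' b r =
      ((r ^ (-(1 / 2) : ℝ) : ℝ) : ℂ) * Cj p (ph √(r + M ^ 2)) m t l l' := by
    intro l' r hr
    have hr' : (0 : ℝ) < r := hr
    unfold Cj
    rw [← tsum_mul_left]
    congr 1
    funext b
    have h1 : g b r = r ^ (-(1 / 2) : ℝ) * ph √(r + M ^ 2) b := by
      simp only [hg, ph]
      rw [Real.sq_sqrt (by positivity), ← add_assoc]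
      ring
    simp only [hF, h1]
    push_cast
    ring
  -- integrability of the conjugated resolvents
  have hcont : ∀ l', ContinuousOn (fun r => Cj p (ph √(r + M ^ 2)) m t l l') (Ioi 0) := by
    intro l'
    unfold Cj
    refine continuousOn_tsum (u := fun b => ‖ee p (-m) t (l - b)‖ * (M ^ 2)⁻¹) ?_
      (hS.mul_right _) ?_
    · intro b
      refine continuousOn_const.mul (ContinuousOn.mul ?_ continuousOn_const)
      refine Complex.continuous_ofReal.comp_continuousOn ?_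
      unfold ph
      refine ContinuousOn.div continuousOn_const ?_ ?_
      · exact ((Real.continuous_sqrt.comp (continuous_id.add continuous_const)).pow 2
          |>.add continuous_const).continuousOn
      · intro r hr
        have hr' : (0 : ℝ) < r := hr
        have : 0 < √(r + M ^ 2) := Real.sqrt_pos.2 (by positivity)
        positivity
    · intro b r hr
      have hr' : (0 : ℝ) < r := hr
      rw [norm_mul, norm_mul, Complex.norm_real, Real.norm_eq_abs]
      refine mul_le_mul_of_nonneg_left ?_ (norm_nonneg _)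
      have h1 : |ph √(r + M ^ 2) b| ≤ (M ^ 2)⁻¹ := by
        unfold ph
        rw [Real.sq_sqrt (by positivity), abs_of_nonneg (by positivity), one_div]
        exact inv_anti₀ (by positivity) (by nlinarith [sq_nonneg (b : ℝ)])
      calc |ph √(r + M ^ 2) b| * ‖ee p m t (b - l')‖ ≤ (M ^ 2)⁻¹ * 1 :=
            mul_le_mul h1 (hb1 _) (norm_nonneg _) (by positivity)
        _ = (M ^ 2)⁻¹ := mul_one _
  have hMM : 0 < M ^ 2 := by positivity
  have hRM := hRI (M ^ 2) hMM
  -- termwise bound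
  have hCb : ∀ l', ∀ r ∈ Ioi (0 : ℝ), ‖Cj p (ph √(r + M ^ 2)) m t l l'‖ ≤ 2 / (r + M ^ 2) := by
    intro l' r hr
    have hr' : (0 : ℝ) < r := hr
    have hν : p.N * |(m : ℝ)| ≤ √(r + M ^ 2) := by
      rw [← hM]
      exact Real.le_sqrt_of_sq_le (by linarith)
    obtain ⟨h1, h2⟩ := (hRES p hp m t _ l ht htA hm hν).1
    rw [Real.sq_sqrt (by positivity)] at h2
    have h3 := h1.le_tsum l' (fun j _ => mul_nonneg
      (zero_le_one.trans (hOMS.1 p.s (l - j) hp.s_pos.le)) (norm_nonneg _))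
    have h4 : ‖Cj p (ph √(r + M ^ 2)) m t l l'‖ ≤
        om p.s (l - l') * ‖Cj p (ph √(r + M ^ 2)) m t l l'‖ :=
      le_mul_of_one_le_left (norm_nonneg _) (hOMS.1 p.s (l - l') hp.s_pos.le)
    linarith
  have hint : ∀ l', IntegrableOn
      (fun r : ℝ => r ^ (-(1 / 2) : ℝ) * ‖Cj p (ph √(r + M ^ 2)) m t l l'‖) (Ioi 0) := by
    intro l'
    refine Integrable.mono' (hRM.1.const_mul 2) ?_ ?_
    · refine (ContinuousOn.mul ?_ (hcont l').norm).aestronglyMeasurable measurableSet_Ioi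
      intro r hr
      exact (Real.continuousAt_rpow_const r _ (Or.inl (ne_of_gt hr))).continuousWithinAt
    · refine (ae_restrict_iff' measurableSet_Ioi).2 (Filter.Eventually.of_forall ?_)
      intro r hr
      have hr' : (0 : ℝ) < r := hr
      have h0 : 0 ≤ r ^ (-(1 / 2) : ℝ) := by positivity
      rw [Real.norm_eq_abs, abs_of_nonneg (mul_nonneg h0 (norm_nonneg _))]
      calc r ^ (-(1 / 2) : ℝ) * ‖Cj p (ph √(r + M ^ 2)) m t l l'‖
          ≤ r ^ (-(1 / 2) : ℝ) * (2 / (r + M ^ 2)) := mul_le_mul_of_nonneg_left (hCb l' r hr) h0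
        _ = 2 * (r ^ (-(1 / 2) : ℝ) / (r + M ^ 2)) := by ring
  have hPb : ∀ l', ‖Pm p t m l l'‖ ≤
      C * ∫ r in Ioi (0 : ℝ), r ^ (-(1 / 2) : ℝ) * ‖Cj p (ph √(r + M ^ 2)) m t l l'‖ := by
    intro l'
    rw [hPm l', norm_mul, Complex.norm_real, Real.norm_eq_abs, abs_of_pos hC]
    refine mul_le_mul_of_nonneg_left ?_ hC.le
    refine (norm_integral_le_integral_norm _).trans (le_of_eq ?_)
    refine setIntegral_congr_fun measurableSet_Ioi ?_
    intro r hr
    have hr' : (0 : ℝ) < r := hr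
    show ‖∑' b, F l' b r‖ = _
    rw [hQ l' r hr, norm_mul, Complex.norm_real, Real.norm_eq_abs,
      abs_of_nonneg (by positivity)]
  have hfin : ∀ s : Finset ℤ, ∑ l' ∈ s, om p.s (l - l') * ‖Pm p t m l l'‖ ≤ 2 / M := by
    intro s
    have hom : ∀ j, 0 ≤ om p.s j := fun j => zero_le_one.trans (hOMS.1 p.s j hp.s_pos.le)
    calc ∑ l' ∈ s, om p.s (l - l') * ‖Pm p t m l l'‖
        ≤ ∑ l' ∈ s, om p.s (l - l') * (C * ∫ r in Ioi (0 : ℝ),
            r ^ (-(1 / 2) : ℝ) * ‖Cj p (ph √(r + M ^ 2)) m t l l'‖) :=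
          Finset.sum_le_sum fun l' _ => mul_le_mul_of_nonneg_left (hPb l') (hom _)
      _ = C * ∫ r in Ioi (0 : ℝ), ∑ l' ∈ s, om p.s (l - l') *
            (r ^ (-(1 / 2) : ℝ) * ‖Cj p (ph √(r + M ^ 2)) m t l l'‖) := by
          rw [integral_finset_sum _ (fun l' _ => (hint l').const_mul _), Finset.mul_sum]
          refine Finset.sum_congr rfl fun l' _ => ?_
          rw [integral_const_mul]
          ring
      _ ≤ C * ∫ r in Ioi (0 : ℝ), 2 * (r ^ (-(1 / 2) : ℝ) / (r + M ^ 2)) := by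
          refine mul_le_mul_of_nonneg_left ?_ hC.le
          refine setIntegral_mono_on (integrable_finset_sum _ fun l' _ => (hint l').const_mul _)
            (hRM.1.const_mul 2) measurableSet_Ioi ?_
          intro r hr
          have hr' : (0 : ℝ) < r := hr
          have h0 : 0 ≤ r ^ (-(1 / 2) : ℝ) := by positivity
          have hν : p.N * |(m : ℝ)| ≤ √(r + M ^ 2) := by
            rw [← hM]
            exact Real.le_sqrt_of_sq_le (by linarith)
          obtain ⟨h1, h2⟩ := (hRES p hp m t _ l ht htA hm hν).1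
          rw [Real.sq_sqrt (by positivity)] at h2
          have h3 := h1.sum_le_tsum s (fun j _ => mul_nonneg (hom (l - j)) (norm_nonneg _))
          calc ∑ l' ∈ s, om p.s (l - l') *
                (r ^ (-(1 / 2) : ℝ) * ‖Cj p (ph √(r + M ^ 2)) m t l l'‖)
              = r ^ (-(1 / 2) : ℝ) * ∑ l' ∈ s, om p.s (l - l') *
                  ‖Cj p (ph √(r + M ^ 2)) m t l l'‖ := by
                rw [Finset.mul_sum]
                refine Finset.sum_congr rfl fun l' _ => ?_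
                ring
            _ ≤ r ^ (-(1 / 2) : ℝ) * (2 / (r + M ^ 2)) :=
                mul_le_mul_of_nonneg_left (h3.trans h2) h0
            _ = 2 * (r ^ (-(1 / 2) : ℝ) / (r + M ^ 2)) := by ring
      _ = 2 * (C * ∫ r in Ioi (0 : ℝ), r ^ (-(1 / 2) : ℝ) / (r + M ^ 2)) := by
          rw [integral_const_mul]
          ring
      _ = 2 * (M ^ 2) ^ (-(1 / 2) : ℝ) := by rw [← hRM.2]
      _ = 2 / M := by
          rw [Real.rpow_neg (by positivity), ← Real.sqrt_eq_rpow, Real.sqrt_sq hMpos.le]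
          ring
  have hnn : ∀ l', 0 ≤ om p.s (l - l') * ‖Pm p t m l l'‖ := fun l' =>
    mul_nonneg (zero_le_one.trans (hOMS.1 p.s _ hp.s_pos.le)) (norm_nonneg _)
  refine ⟨summable_of_sum_le hnn hfin, ?_⟩
  exact Real.tsum_le_of_sum_le hnn hfin

end

end Pool.SQGA
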