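import Pool.Agent.Work.MP_a2fcf1_an_ar.I2

/-! Block P2 (helper99): the defect of `Pm` from a Toeplitz matrix. -/

set_option autoImplicit false

namespace Pool.SQGA

open Set MeasureTheory
open Pool.Agent.Work.MP_a2fcf1_an_h64 (cr sc eu n1)

theorem P2_rep {C : ℝ} (hC : 0 < C) (hR : ∀ X : ℝ, 0 < X →
    IntegrableOn (fun r : ℝ => r ^ (-(1 / 2) : ℝ) / (r + X)) (Ioi 0) ∧
    X ^ (-(1 / 2) : ℝ) = C * ∫ r in Ioi (0 : ℝ), r ^ (-(1 / 2) : ℝ) / (r + X))
    (p : Par) (m a a' : ℤ) (t : ℝ) (hS : Summable fun b => ‖ee p (-m) t (a - b)‖)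
    (hB : ∀ j, ‖ee p m t j‖ ≤ 1) (hM : 0 < (p.N : ℝ) * |(m : ℝ)|) :
    IntegrableOn (fun r : ℝ => ((r ^ (-(1 / 2) : ℝ) : ℝ) : ℂ) *
      Cj p (ph √(r + ((p.N : ℝ) * |(m : ℝ)|) ^ 2)) m t a a') (Ioi 0) ∧
    Pm p t m a a' = (C : ℂ) * ∫ r in Ioi (0 : ℝ), ((r ^ (-(1 / 2) : ℝ) : ℝ) : ℂ) *
      Cj p (ph √(r + ((p.N : ℝ) * |(m : ℝ)|) ^ 2)) m t a a' := by
  have hMM : ((p.N : ℝ) * |(m : ℝ)|) ^ 2 = ((p.N : ℝ) * (m : ℝ)) ^ 2 := by
    rw [mul_pow, mul_pow, sq_abs]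
  generalize hMd : (p.N : ℝ) * |(m : ℝ)| = M at hM hMM ⊢
  have hM2 : 0 < M ^ 2 := by positivity
  have hX : ∀ b : ℤ, 0 < M ^ 2 + (b : ℝ) ^ 2 := fun b => by positivity
  have hform : ∀ r ∈ Ioi (0 : ℝ), ∀ b : ℤ,
      ph √(r + M ^ 2) b = 1 / (r + (M ^ 2 + (b : ℝ) ^ 2)) := by
    intro r hr b
    have hr' : 0 < r := hr
    unfold ph
    rw [Real.sq_sqrt (by positivity), add_assoc]
  have hphle : ∀ r ∈ Ioi (0 : ℝ), ∀ b : ℤ, ‖((ph √(r + M ^ 2) b : ℝ) : ℂ)‖ ≤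
      1 / (r + M ^ 2) := by
    intro r hr b
    have hr' : 0 < r := hr
    rw [hform r hr b, Complex.norm_real, Real.norm_eq_abs, abs_of_pos (by have := hX b; positivity)]
    apply one_div_le_one_div_of_le (by positivity)
    have := sq_nonneg (b : ℝ)
    linarith
  refine ⟨?_, ?_⟩
  · -- integrability
    have hcont : ContinuousOn (fun r : ℝ => Cj p (ph √(r + M ^ 2)) m t a a') (Ioi 0) := by
      unfold Cj
      refine continuousOn_tsum (u := fun b => ‖ee p (-m) t (a - b)‖ * (1 / M ^ 2)) ?_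
        (hS.mul_right _) ?_
      · intro b
        refine continuousOn_const.mul (ContinuousOn.mul ?_ continuousOn_const)
        refine Complex.continuous_ofReal.comp_continuousOn ?_
        unfold ph
        refine ContinuousOn.div continuousOn_const ?_ ?_
        · fun_prop
        · intro r hr
          have hr' : 0 < r := hr
          have : 0 < √(r + M ^ 2) := Real.sqrt_pos.2 (by positivity)
          positivity
      · intro b r hr
        have hr' : 0 < r := hr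
        rw [norm_mul, norm_mul]
        refine mul_le_mul_of_nonneg_left ?_ (norm_nonneg _)
        calc ‖((ph √(r + M ^ 2) b : ℝ) : ℂ)‖ * ‖ee p m t (b - a')‖
            ≤ (1 / (r + M ^ 2)) * 1 :=
              mul_le_mul (hphle r hr b) (hB _) (norm_nonneg _) (by positivity)
          _ ≤ 1 / M ^ 2 := by
              rw [mul_one]
              apply one_div_le_one_div_of_le (by positivity)
              linarith
    have hbd : ∀ r ∈ Ioi (0 : ℝ), ‖Cj p (ph √(r + M ^ 2)) m t a a'‖ ≤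
        (∑' b, ‖ee p (-m) t (a - b)‖) * (1 / (r + M ^ 2)) := by
      intro r hr
      have hr' : 0 < r := hr
      unfold Cj
      refine tsum_of_norm_bounded (hS.hasSum.mul_right (1 / (r + M ^ 2))) ?_
      intro b
      rw [norm_mul, norm_mul]
      refine mul_le_mul_of_nonneg_left ?_ (norm_nonneg _)
      calc ‖((ph √(r + M ^ 2) b : ℝ) : ℂ)‖ * ‖ee p m t (b - a')‖
          ≤ (1 / (r + M ^ 2)) * 1 :=
            mul_le_mul (hphle r hr b) (hB _) (norm_nonneg _) (by positivity)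
        _ = 1 / (r + M ^ 2) := mul_one _
    have hg : IntegrableOn (fun r : ℝ => r ^ (-(1 / 2) : ℝ) / (r + M ^ 2) *
        (∑' b, ‖ee p (-m) t (a - b)‖)) (Ioi 0) := (hR (M ^ 2) hM2).1.mul_const _
    refine Integrable.mono' hg ?_ ?_
    · refine AEStronglyMeasurable.mul ?_ (hcont.aestronglyMeasurable measurableSet_Ioi)
      refine ContinuousOn.aestronglyMeasurable ?_ measurableSet_Ioi
      refine Complex.continuous_ofReal.comp_continuousOn ?_
      intro r hr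
      have hr' : 0 < r := hr
      exact (Real.continuousAt_rpow_const _ _ (Or.inl hr'.ne')).continuousWithinAt
    · refine (ae_restrict_iff' measurableSet_Ioi).2 (Filter.Eventually.of_forall ?_)
      intro r hr
      have hr' : 0 < r := hr
      rw [norm_mul, Complex.norm_real, Real.norm_eq_abs,
        abs_of_pos (Real.rpow_pos_of_pos hr' _)]
      calc r ^ (-(1 / 2) : ℝ) * ‖Cj p (ph √(r + M ^ 2)) m t a a'‖
          ≤ r ^ (-(1 / 2) : ℝ) * ((∑' b, ‖ee p (-m) t (a - b)‖) * (1 / (r + M ^ 2))) :=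
            mul_le_mul_of_nonneg_left (hbd r hr) (Real.rpow_pos_of_pos hr' _).le
        _ = r ^ (-(1 / 2) : ℝ) / (r + M ^ 2) * (∑' b, ‖ee p (-m) t (a - b)‖) := by ring
  · -- representation
    have hFint : ∀ b : ℤ, IntegrableOn (fun r : ℝ => ee p (-m) t (a - b) *
        (((r ^ (-(1 / 2) : ℝ) / (r + (M ^ 2 + (b : ℝ) ^ 2)) : ℝ) : ℂ) * ee p m t (b - a')))
        (Ioi 0) := fun b => (((hR _ (hX b)).1.ofReal).mul_const _).const_mul _
    have hFn : ∀ b : ℤ, (∫ r in Ioi (0 : ℝ), ‖ee p (-m) t (a - b) *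
        (((r ^ (-(1 / 2) : ℝ) / (r + (M ^ 2 + (b : ℝ) ^ 2)) : ℝ) : ℂ) * ee p m t (b - a'))‖) =
        (‖ee p (-m) t (a - b)‖ * ‖ee p m t (b - a')‖) *
          ((M ^ 2 + (b : ℝ) ^ 2) ^ (-(1 / 2) : ℝ) / C) := by
      intro b
      rw [(hR _ (hX b)).2, mul_div_cancel_left₀ _ hC.ne', ← integral_const_mul]
      refine setIntegral_congr_fun measurableSet_Ioi ?_
      intro r hr
      have hr' : 0 < r := hr
      have h1 : 0 ≤ r ^ (-(1 / 2) : ℝ) / (r + (M ^ 2 + (b : ℝ) ^ 2)) := by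
        have := hX b
        positivity
      show ‖ee p (-m) t (a - b) *
        (((r ^ (-(1 / 2) : ℝ) / (r + (M ^ 2 + (b : ℝ) ^ 2)) : ℝ) : ℂ) * ee p m t (b - a'))‖ = _
      rw [norm_mul, norm_mul, Complex.norm_real, Real.norm_eq_abs, abs_of_nonneg h1]
      ring
    have hsum : Summable fun b : ℤ => ∫ r in Ioi (0 : ℝ), ‖ee p (-m) t (a - b) *
        (((r ^ (-(1 / 2) : ℝ) / (r + (M ^ 2 + (b : ℝ) ^ 2)) : ℝ) : ℂ) * ee p m t (b - a'))‖ := by
      refine Summable.of_nonneg_of_le (fun b => integral_nonneg fun _ => norm_nonneg _) ?_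
        (hS.mul_right ((M ^ 2) ^ (-(1 / 2) : ℝ) / C))
      intro b
      rw [hFn b]
      have h1 : (M ^ 2 + (b : ℝ) ^ 2) ^ (-(1 / 2) : ℝ) ≤ (M ^ 2) ^ (-(1 / 2) : ℝ) := by
        apply Real.rpow_le_rpow_of_nonpos hM2 _ (by norm_num)
        have := sq_nonneg (b : ℝ)
        linarith
      have h2 : (M ^ 2 + (b : ℝ) ^ 2) ^ (-(1 / 2) : ℝ) / C ≤ (M ^ 2) ^ (-(1 / 2) : ℝ) / C :=
        div_le_div_of_nonneg_right h1 hC.le
      have h3 : 0 ≤ (M ^ 2 + (b : ℝ) ^ 2) ^ (-(1 / 2) : ℝ) / C := by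
        have := hX b
        positivity
      calc ‖ee p (-m) t (a - b)‖ * ‖ee p m t (b - a')‖ *
            ((M ^ 2 + (b : ℝ) ^ 2) ^ (-(1 / 2) : ℝ) / C)
          ≤ ‖ee p (-m) t (a - b)‖ * 1 * ((M ^ 2 + (b : ℝ) ^ 2) ^ (-(1 / 2) : ℝ) / C) := by
            refine mul_le_mul_of_nonneg_right ?_ h3
            exact mul_le_mul_of_nonneg_left (hB _) (norm_nonneg _)
        _ ≤ ‖ee p (-m) t (a - b)‖ * ((M ^ 2) ^ (-(1 / 2) : ℝ) / C) := by
            rw [mul_one]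
            exact mul_le_mul_of_nonneg_left h2 (norm_nonneg _)
    have hs := hasSum_integral_of_summable_integral_norm (μ := volume.restrict (Ioi (0 : ℝ)))
      hFint hsum
    have e1 : (∫ r in Ioi (0 : ℝ), ((r ^ (-(1 / 2) : ℝ) : ℝ) : ℂ) *
        Cj p (ph √(r + M ^ 2)) m t a a') = ∫ r in Ioi (0 : ℝ), ∑' b : ℤ, ee p (-m) t (a - b) *
        (((r ^ (-(1 / 2) : ℝ) / (r + (M ^ 2 + (b : ℝ) ^ 2)) : ℝ) : ℂ) * ee p m t (b - a')) := by
      refine setIntegral_congr_fun measurableSet_Ioi ?_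
      intro r hr
      show ((r ^ (-(1 / 2) : ℝ) : ℝ) : ℂ) * Cj p (ph √(r + M ^ 2)) m t a a' = _
      unfold Cj
      rw [← tsum_mul_left]
      refine tsum_congr fun b => ?_
      rw [hform r hr b]
      push_cast
      ring
    rw [e1, ← hs.tsum_eq, ← tsum_mul_left]
    show (∑' b, ee p (-m) t (a - b) *
      (((1 / eu (Dk p (m, b)) : ℝ) : ℂ) * ee p m t (b - a'))) = _
    refine tsum_congr fun b => ?_
    have e3 : (∫ r in Ioi (0 : ℝ),
        ((r ^ (-(1 / 2) : ℝ) / (r + (M ^ 2 + (b : ℝ) ^ 2)) : ℝ) : ℂ)) =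
        ((∫ r in Ioi (0 : ℝ), r ^ (-(1 / 2) : ℝ) / (r + (M ^ 2 + (b : ℝ) ^ 2)) : ℝ) : ℂ) :=
      integral_ofReal
    rw [integral_const_mul, integral_mul_const, e3]
    have e2 : 1 / eu (Dk p (m, b)) =
        C * ∫ r in Ioi (0 : ℝ), r ^ (-(1 / 2) : ℝ) / (r + (M ^ 2 + (b : ℝ) ^ 2)) := by
      rw [← (hR _ (hX b)).2, hMM, Real.rpow_neg (by positivity), ← Real.sqrt_eq_rpow, ← one_div]
      unfold eu Dk
      push_cast
      rfl
    rw [e2]
    push_cast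
    ring

theorem p_P2 (hRES : Stmt_RES) (hRIM : Stmt_RIM) (hEEW : Stmt_EEW) (hEEB : Stmt_EEB)
    (hOMS : Stmt_OMS) : Stmt_P2 := by
  intro p hp m l c t ht htA hm
  obtain ⟨C, hC, hR⟩ := hRIM
  have hM : 0 < (p.N : ℝ) * |(m : ℝ)| := by
    have h1 : (0 : ℝ) < p.N := by
      have := hp.N_pos
      exact_mod_cast this
    have h2 : (0 : ℝ) < |(m : ℝ)| := abs_pos.2 (by exact_mod_cast hm)
    positivity
  have hS1 : S1 (ee p (-m) t) :=
    hOMS.2.2.2.1 p.s _ hp.s_pos.le (hEEW p hp (-m) t ht).1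
  have hS : ∀ a : ℤ, Summable fun b => ‖ee p (-m) t (a - b)‖ := by
    intro a
    have h : Summable ((fun j => ‖ee p (-m) t j‖) ∘ (Equiv.subLeft a)) :=
      (Equiv.subLeft a).summable_iff.2 hS1
    exact h
  have hB : ∀ j, ‖ee p m t j‖ ≤ 1 := fun j => ((hEEB p hp).1 m t j ht).1
  have hrep := fun a a' => P2_rep hC hR p m a a' t (hS a) hB hM
  have hRES' := fun (ν : ℝ) (hν : p.N * |(m : ℝ)| ≤ ν) =>
    (hRES p hp m t ν l ht htA hm hν).2.2 c
  have hom : ∀ j : ℤ, 0 ≤ om p.s j := fun j => by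
    unfold om
    positivity
  generalize hMd : (p.N : ℝ) * |(m : ℝ)| = M at hM hrep hRES' ⊢
  have hM2 : 0 < M ^ 2 := by positivity
  have hfin : ∀ w : Finset ℤ, ∑ l' ∈ w, om p.s (l - l') *
      ‖Pm p t m l l' - Pm p t m (l - c) (l' - c)‖ ≤ 4 * |(c : ℝ)| / M ^ 2 := by
    intro w
    have hd : ∀ l' : ℤ, IntegrableOn (fun r : ℝ =>
        ((r ^ (-(1 / 2) : ℝ) : ℝ) : ℂ) * Cj p (ph √(r + M ^ 2)) m t l l' -
        ((r ^ (-(1 / 2) : ℝ) : ℝ) : ℂ) * Cj p (ph √(r + M ^ 2)) m t (l - c) (l' - c))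
        (Ioi 0) := fun l' => (hrep l l').1.sub (hrep (l - c) (l' - c)).1
    have h1 : ∀ l' : ℤ, om p.s (l - l') * ‖Pm p t m l l' - Pm p t m (l - c) (l' - c)‖ ≤
        C * ∫ r in Ioi (0 : ℝ), om p.s (l - l') *
          ‖((r ^ (-(1 / 2) : ℝ) : ℝ) : ℂ) * Cj p (ph √(r + M ^ 2)) m t l l' -
          ((r ^ (-(1 / 2) : ℝ) : ℝ) : ℂ) * Cj p (ph √(r + M ^ 2)) m t (l - c) (l' - c)‖ := by
      intro l'
      rw [(hrep l l').2, (hrep (l - c) (l' - c)).2, ← mul_sub,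
        ← integral_sub (hrep l l').1 (hrep (l - c) (l' - c)).1, norm_mul, Complex.norm_real,
        Real.norm_eq_abs, abs_of_pos hC, integral_const_mul, mul_left_comm]
      refine mul_le_mul_of_nonneg_left ?_ hC.le
      refine mul_le_mul_of_nonneg_left ?_ (hom _)
      exact norm_integral_le_integral_norm _
    refine (Finset.sum_le_sum fun l' _ => h1 l').trans ?_
    rw [← Finset.mul_sum, ← integral_finsetSum w fun l' _ => ((hd l').norm).const_mul _]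
    have h2 : (∫ r in Ioi (0 : ℝ), ∑ l' ∈ w, om p.s (l - l') *
          ‖((r ^ (-(1 / 2) : ℝ) : ℝ) : ℂ) * Cj p (ph √(r + M ^ 2)) m t l l' -
          ((r ^ (-(1 / 2) : ℝ) : ℝ) : ℂ) * Cj p (ph √(r + M ^ 2)) m t (l - c) (l' - c)‖) ≤
        ∫ r in Ioi (0 : ℝ), (4 * |(c : ℝ)| / M) * (r ^ (-(1 / 2) : ℝ) / (r + M ^ 2)) := by
      refine setIntegral_mono_on
        (integrable_finsetSum w fun l' _ => ((hd l').norm).const_mul _)
        ((hR (M ^ 2) hM2).1.const_mul _) measurableSet_Ioi ?_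
      intro r hr
      have hr' : 0 < r := hr
      have hp0 : 0 < r ^ (-(1 / 2) : ℝ) := Real.rpow_pos_of_pos hr' _
      have hν : M ≤ √(r + M ^ 2) := by
        apply Real.le_sqrt_of_sq_le
        linarith
      have hν0 : 0 < √(r + M ^ 2) := lt_of_lt_of_le hM hν
      obtain ⟨hs, hle⟩ := hRES' _ hν
      have h3 : (∑ l' ∈ w, om p.s (l - l') *
          ‖((r ^ (-(1 / 2) : ℝ) : ℝ) : ℂ) * Cj p (ph √(r + M ^ 2)) m t l l' -
          ((r ^ (-(1 / 2) : ℝ) : ℝ) : ℂ) * Cj p (ph √(r + M ^ 2)) m t (l - c) (l' - c)‖) =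
          r ^ (-(1 / 2) : ℝ) * ∑ l' ∈ w, om p.s (l - l') *
            ‖Cj p (ph √(r + M ^ 2)) m t l l' - Cj p (ph √(r + M ^ 2)) m t (l - c) (l' - c)‖ := by
        rw [Finset.mul_sum]
        refine Finset.sum_congr rfl fun l' _ => ?_
        rw [← mul_sub, norm_mul, Complex.norm_real, Real.norm_eq_abs, abs_of_pos hp0]
        ring
      rw [h3]
      have h4 : (∑ l' ∈ w, om p.s (l - l') *
            ‖Cj p (ph √(r + M ^ 2)) m t l l' - Cj p (ph √(r + M ^ 2)) m t (l - c) (l' - c)‖) ≤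
          4 * |(c : ℝ)| / √(r + M ^ 2) ^ 3 :=
        (hs.sum_le_tsum w fun l' _ => mul_nonneg (hom _) (norm_nonneg _)).trans hle
      have h5 : 4 * |(c : ℝ)| / √(r + M ^ 2) ^ 3 ≤ 4 * |(c : ℝ)| / (M * (r + M ^ 2)) := by
        apply div_le_div_of_nonneg_left (by positivity) (by positivity)
        have h6 : √(r + M ^ 2) ^ 3 = √(r + M ^ 2) * (r + M ^ 2) := by
          rw [pow_succ, Real.sq_sqrt (by positivity)]
          ring
        rw [h6]
        exact mul_le_mul_of_nonneg_right hν (by positivity)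
      calc r ^ (-(1 / 2) : ℝ) * ∑ l' ∈ w, om p.s (l - l') *
            ‖Cj p (ph √(r + M ^ 2)) m t l l' - Cj p (ph √(r + M ^ 2)) m t (l - c) (l' - c)‖
          ≤ r ^ (-(1 / 2) : ℝ) * (4 * |(c : ℝ)| / (M * (r + M ^ 2))) :=
            mul_le_mul_of_nonneg_left (h4.trans h5) hp0.le
        _ = (4 * |(c : ℝ)| / M) * (r ^ (-(1 / 2) : ℝ) / (r + M ^ 2)) := by
            field_simp
    refine (mul_le_mul_of_nonneg_left h2 hC.le).trans ?_
    rw [integral_const_mul, mul_left_comm, ← (hR (M ^ 2) hM2).2,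
      Real.rpow_neg (by positivity), ← Real.sqrt_eq_rpow, Real.sqrt_sq hM.le]
    apply le_of_eq
    field_simp
  have hnn : ∀ l' : ℤ, 0 ≤ om p.s (l - l') * ‖Pm p t m l l' - Pm p t m (l - c) (l' - c)‖ :=
    fun l' => mul_nonneg (hom _) (norm_nonneg _)
  have hsm := summable_of_sum_le hnn hfin
  exact ⟨hsm, hsm.tsum_le_of_sum_le hfin⟩

end Pool.SQGA
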