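import Pool.Agent.Work.MP_a2fcf1_an_ar.I2

/-! # Block PCN: boundedness and continuity in time of the entries -/

set_option autoImplicit false

namespace Pool.SQGA

open Set MeasureTheory
open Pool.Agent.Work.MP_a2fcf1_an_h64 (cr sc eu n1)

theorem PCN_sum (l : ℤ) : Summable fun b : ℤ => 1 / (1 + |((l - b : ℤ) : ℝ)|) ^ 2 := by
  have h1 : Summable fun j : ℤ => 1 / (1 + |(j : ℝ)|) ^ 2 := by
    have h2 : Summable fun j : ℤ => 1 / (j : ℝ) ^ 2 :=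
      Real.summable_one_div_int_pow.mpr one_lt_two
    have h3 : Summable fun j : ℤ => (if j = 0 then (1 : ℝ) else 0) := by
      apply summable_of_ne_finset_zero (s := {0})
      intro b hb
      rw [Finset.mem_singleton] at hb
      rw [if_neg hb]
    refine Summable.of_nonneg_of_le (fun j => by positivity) (fun j => ?_) (h2.add h3)
    by_cases hj : j = 0
    · subst hj
      norm_num
    · rw [if_neg hj, add_zero]
      have h4 : (0 : ℝ) < (j : ℝ) ^ 2 := by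
        have : (j : ℝ) ≠ 0 := Int.cast_ne_zero.mpr hj
        positivity
      apply one_div_le_one_div_of_le h4
      have h5 := abs_nonneg (j : ℝ)
      rw [← sq_abs (j : ℝ)]
      nlinarith
  exact (Equiv.subLeft l).summable_iff.mpr h1

theorem PCN_As (hOMS : Stmt_OMS) (p : Par) (hp : p.Ok) : 0 ≤ p.As := by
  unfold Par.As
  refine tsum_nonneg fun l => ?_
  have h1 := hOMS.1 p.s l hp.s_pos.le
  have h2 : 0 ≤ om p.s l := by linarith
  positivity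

/-- the general conjugated multiplier with at most linear growth -/
theorem PCN_gen (hEEW : Stmt_EEW) (hEEB : Stmt_EEB) (hEET : Stmt_EET) (hOMS : Stmt_OMS)
    (p : Par) (hp : p.Ok) (T : ℝ) (m l : ℤ) (φ : ℤ → ℝ) (K : ℝ) (hK : 0 ≤ K)
    (hφ : ∀ b, |φ b| ≤ K * (1 + |(b : ℝ)|)) :
    ∃ C : ℝ, ∀ l' : ℤ, ContinuousOn (fun t => Cj p φ m t l l') (Icc 0 T) ∧
      ∀ t ∈ Icc 0 T, ‖Cj p φ m t l l'‖ ≤ C := by
  obtain ⟨C0, hC0, hC⟩ := hOMS.2.2.2.2 p.s 3 hp.s_pos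
  have hAs := PCN_As hOMS p hp
  have hN : (0 : ℝ) ≤ (p.N : ℝ) := Nat.cast_nonneg _
  have hdec : ∀ t ∈ Icc 0 T, ∀ j : ℤ, ‖ee p (-m) t j‖ * (1 + |(j : ℝ)|) ^ 3 ≤
      C0 * Real.exp (p.N * |(m : ℝ)| * (T * p.As)) := by
    intro t ht j
    obtain ⟨h1, h2, -⟩ := hEEW p hp (-m) t ht.1
    have h3 : om p.s j * ‖ee p (-m) t j‖ ≤ nw p.s (ee p (-m) t) := by
      unfold nw
      refine Summable.le_tsum (f := fun l => om p.s l * ‖ee p (-m) t l‖) h1 j fun i _ => ?_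
      have h4 := hOMS.1 p.s i hp.s_pos.le
      have h5 : 0 ≤ om p.s i := by linarith
      positivity
    have h6 : p.N * |((-m : ℤ) : ℝ)| * (t * p.As) ≤ p.N * |(m : ℝ)| * (T * p.As) := by
      rw [Int.cast_neg, abs_neg]
      exact mul_le_mul_of_nonneg_left (mul_le_mul_of_nonneg_right ht.2 hAs)
        (mul_nonneg hN (abs_nonneg _))
    have h7 : om p.s j * ‖ee p (-m) t j‖ ≤ Real.exp (p.N * |(m : ℝ)| * (T * p.As)) :=
      h3.trans (h2.trans (Real.exp_le_exp.mpr h6))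
    calc ‖ee p (-m) t j‖ * (1 + |(j : ℝ)|) ^ 3
        ≤ ‖ee p (-m) t j‖ * (C0 * om p.s j) :=
          mul_le_mul_of_nonneg_left (hC j) (norm_nonneg _)
      _ = C0 * (om p.s j * ‖ee p (-m) t j‖) := by ring
      _ ≤ C0 * Real.exp (p.N * |(m : ℝ)| * (T * p.As)) :=
          mul_le_mul_of_nonneg_left h7 hC0.le
  set E : ℝ := C0 * Real.exp (p.N * |(m : ℝ)| * (T * p.As)) with hE
  have hE0 : 0 ≤ E := mul_nonneg hC0.le (Real.exp_pos _).le
  set u : ℤ → ℝ := fun b => E * K * (1 + |(l : ℝ)|) * (1 / (1 + |((l - b : ℤ) : ℝ)|) ^ 2) with hu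
  have hus : Summable u := (PCN_sum l).mul_left _
  have hb : ∀ l' : ℤ, ∀ b : ℤ, ∀ t ∈ Icc 0 T,
      ‖ee p (-m) t (l - b) * (((φ b : ℝ) : ℂ) * ee p m t (b - l'))‖ ≤ u b := by
    intro l' b t ht
    have h1 := hdec t ht (l - b)
    have h2 := ((hEEB p hp).1 m t (b - l') ht.1).1
    have h3 : (1 : ℝ) + |(b : ℝ)| ≤ (1 + |(l : ℝ)|) * (1 + |((l - b : ℤ) : ℝ)|) := by
      have h4 : |(b : ℝ)| ≤ |(l : ℝ)| + |((l - b : ℤ) : ℝ)| := by
        have h5 : (b : ℝ) = l - ((l - b : ℤ) : ℝ) := by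
          push_cast
          ring
        calc |(b : ℝ)| = |(l : ℝ) - ((l - b : ℤ) : ℝ)| := by rw [← h5]
          _ ≤ |(l : ℝ)| + |((l - b : ℤ) : ℝ)| := abs_sub _ _
      have h6 := abs_nonneg (l : ℝ)
      have h7 := abs_nonneg ((l - b : ℤ) : ℝ)
      nlinarith [mul_nonneg h6 h7]
    set w : ℝ := 1 + |((l - b : ℤ) : ℝ)| with hw
    have hw0 : 0 < w := by positivity
    have h8 : ‖ee p (-m) t (l - b)‖ ≤ E / w ^ 3 := by
      rw [le_div_iff₀ (by positivity)]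
      exact h1
    have h9 : |φ b| ≤ K * ((1 + |(l : ℝ)|) * w) :=
      (hφ b).trans (mul_le_mul_of_nonneg_left h3 hK)
    rw [norm_mul, norm_mul, Complex.norm_real, Real.norm_eq_abs]
    calc ‖ee p (-m) t (l - b)‖ * (|φ b| * ‖ee p m t (b - l')‖)
        ≤ E / w ^ 3 * (K * ((1 + |(l : ℝ)|) * w) * 1) := by
          apply mul_le_mul h8 _ (by positivity) (by positivity)
          exact mul_le_mul h9 h2 (norm_nonneg _) (by positivity)
      _ = u b := by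
          show E / w ^ 3 * (K * ((1 + |(l : ℝ)|) * w) * 1) =
            E * K * (1 + |(l : ℝ)|) * (1 / w ^ 2)
          field_simp
  have hc : ∀ (n j : ℤ), ContinuousOn (fun t => ee p n t j) (Icc 0 T) := by
    intro n j t ht
    have h1 := ((hEET p hp n j).1 t ht.1).continuousWithinAt
    exact h1.mono fun x hx => hx.1
  refine ⟨∑' b, u b, fun l' => ⟨?_, fun t ht => ?_⟩⟩
  · unfold Cj
    exact continuousOn_tsum (fun b => (hc (-m) (l - b)).mul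
      (continuousOn_const.mul (hc m (b - l')))) hus (fun b t ht => hb l' b t ht)
  · unfold Cj
    exact tsum_of_norm_bounded hus.hasSum (fun b => hb l' b t ht)

theorem PCN_inv (k : ℤ × ℤ) : |1 / eu k| ≤ 1 := by
  unfold eu
  rw [abs_of_nonneg (by positivity)]
  by_cases h : k.1 ^ 2 + k.2 ^ 2 = 0
  · have h1 : (k.1 : ℝ) ^ 2 + (k.2 : ℝ) ^ 2 = 0 := by exact_mod_cast h
    rw [h1, Real.sqrt_zero]
    norm_num
  · have h1 : 1 ≤ k.1 ^ 2 + k.2 ^ 2 := by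
      have h2 : 0 ≤ k.1 ^ 2 + k.2 ^ 2 := by positivity
      omega
    have h2 : (1 : ℝ) ≤ (k.1 : ℝ) ^ 2 + (k.2 : ℝ) ^ 2 := by exact_mod_cast h1
    have h3 : (1 : ℝ) ≤ Real.sqrt ((k.1 : ℝ) ^ 2 + (k.2 : ℝ) ^ 2) := Real.one_le_sqrt.mpr h2
    rw [div_le_one (by linarith)]
    exact h3

theorem PCN_pow (k : ℤ × ℤ) (a : ℝ) (ha : 0 < a) (ha1 : a ≤ 1) :
    |eu k ^ a| ≤ (1 + |(k.1 : ℝ)|) * (1 + |(k.2 : ℝ)|) := by
  have h0 : 0 ≤ eu k := Real.sqrt_nonneg _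
  have h1 : eu k ≤ (1 + |(k.1 : ℝ)|) * (1 + |(k.2 : ℝ)|) := by
    unfold eu
    rw [Real.sqrt_le_left (by positivity)]
    have h2 := abs_nonneg (k.1 : ℝ)
    have h3 := abs_nonneg (k.2 : ℝ)
    have h4 := mul_nonneg h2 h3
    rw [← sq_abs (k.1 : ℝ), ← sq_abs (k.2 : ℝ)]
    have h5 : |(k.1 : ℝ)| + |(k.2 : ℝ)| ≤ (1 + |(k.1 : ℝ)|) * (1 + |(k.2 : ℝ)|) := by
      nlinarith
    have h6 : |(k.1 : ℝ)| ^ 2 + |(k.2 : ℝ)| ^ 2 ≤ (|(k.1 : ℝ)| + |(k.2 : ℝ)|) ^ 2 := by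
      nlinarith
    exact h6.trans (pow_le_pow_left₀ (by positivity) h5 2)
  have h2 : (1 : ℝ) ≤ (1 + |(k.1 : ℝ)|) * (1 + |(k.2 : ℝ)|) := by
    have h3 := abs_nonneg (k.1 : ℝ)
    have h4 := abs_nonneg (k.2 : ℝ)
    nlinarith [mul_nonneg h3 h4]
  rw [abs_of_nonneg (Real.rpow_nonneg h0 a)]
  calc eu k ^ a ≤ ((1 + |(k.1 : ℝ)|) * (1 + |(k.2 : ℝ)|)) ^ a :=
        Real.rpow_le_rpow h0 h1 ha.le
    _ ≤ ((1 + |(k.1 : ℝ)|) * (1 + |(k.2 : ℝ)|)) ^ (1 : ℝ) :=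
        Real.rpow_le_rpow_of_exponent_le h2 ha1
    _ = (1 + |(k.1 : ℝ)|) * (1 + |(k.2 : ℝ)|) := Real.rpow_one _

theorem p_PCN (hEEW : Stmt_EEW) (hEEB : Stmt_EEB) (hEET : Stmt_EET) (hOMS : Stmt_OMS) :
    Stmt_PCN := by
  intro p hp T m l hT
  obtain ⟨C1, h1⟩ := PCN_gen hEEW hEEB hEET hOMS p hp T m l (fun b => 1 / eu (Dk p (m, b))) 1
    zero_le_one (fun b => by
      have h2 := PCN_inv (Dk p (m, b))
      have h3 := abs_nonneg (b : ℝ)
      linarith)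
  have hα := hp.α_pos
  have hα1 := hp.α_lt
  obtain ⟨C2, h2⟩ := PCN_gen hEEW hEEB hEET hOMS p hp T m l
    (fun b => eu (Dk p (m, b)) ^ (2 * p.α)) (1 + |(((p.N : ℤ) * m : ℤ) : ℝ)|) (by positivity)
    (fun b => PCN_pow (Dk p (m, b)) (2 * p.α) (by linarith) (by linarith))
  refine ⟨max C1 (C2 + |eu (Dk p (m, l)) ^ (2 * p.α)|), fun l' => ⟨(h1 l').1, ?_, fun t ht => ⟨?_, ?_⟩⟩⟩
  · unfold Rm Qm
    exact (h2 l').1.sub continuousOn_const
  · exact ((h1 l').2 t ht).trans (le_max_left _ _)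
  · refine le_trans ?_ (le_max_right _ _)
    unfold Rm Qm
    refine (norm_sub_le _ _).trans (add_le_add ((h2 l').2 t ht) ?_)
    split_ifs
    · rw [Complex.norm_real, Real.norm_eq_abs]
    · rw [norm_zero]
      exact abs_nonneg _

end Pool.SQGA
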