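import Pool.Agent.Work.MP_a2fcf1_an_ar.I2

/-!
# Block PIC: Picard iteration in a weighted ball
-/

set_option autoImplicit false

namespace Pool.SQGA

open Set MeasureTheory Filter Topology

noncomputable section

theorem PIC_der (T : ℝ) (f : ℝ → ℂ) (hT : 0 < T) (hf : ContinuousOn f (Icc 0 T)) (t : ℝ)
    (ht : t ∈ Icc 0 T) :
    HasDerivWithinAt (fun u => ∫ r in (0 : ℝ)..u, f r) (f t) (Icc 0 T) t := by
  have hgc : Continuous (fun r => f (max 0 (min r T))) := by
    refine hf.comp_continuous (by fun_prop) ?_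
    intro r
    exact ⟨le_max_left _ _, max_le hT.le (min_le_right _ _)⟩
  have hgf : ∀ r ∈ Icc 0 T, f (max 0 (min r T)) = f r := by
    intro r hr
    rw [min_eq_left hr.2, max_eq_right hr.1]
  have h1 : HasDerivAt (fun u => ∫ r in (0 : ℝ)..u, f (max 0 (min r T))) (f (max 0 (min t T))) t :=
    (hgc.integral_hasStrictDerivAt 0 t).hasDerivAt
  have h2 := h1.hasDerivWithinAt (s := Icc 0 T)
  rw [hgf t ht] at h2
  have h3 : ∀ u ∈ Icc 0 T, ∫ r in (0 : ℝ)..u, f r = ∫ r in (0 : ℝ)..u, f (max 0 (min r T)) := by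
    intro u hu
    apply intervalIntegral.integral_congr
    intro r hr
    rw [uIcc_of_le hu.1] at hr
    exact (hgf r ⟨hr.1, hr.2.trans hu.2⟩).symm
  exact h2.congr h3 (h3 t ht)

/-- The Picard map. -/
def PIC_F (lm : ℤ × ℤ → ℝ) (G : ℝ → (ℤ × ℤ → ℂ) → ℤ × ℤ → ℂ) (a : ℤ × ℤ → ℂ)
    (x : ℝ → ℤ × ℤ → ℂ) (t : ℝ) (k : ℤ × ℤ) : ℂ :=
  ((Real.exp (-(lm k * t)) : ℝ) : ℂ) *
    (a k + ∫ r in (0 : ℝ)..t, ((Real.exp (lm k * r) : ℝ) : ℂ) * G r (x r) k)

theorem PIC_conj (f g : ℝ → ℂ) (t : ℝ) (ht : 0 ≤ t)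
    (h : ∀ r ∈ Icc 0 t, f r = (starRingEnd ℂ) (g r)) :
    ∫ r in (0 : ℝ)..t, f r = (starRingEnd ℂ) (∫ r in (0 : ℝ)..t, g r) := by
  have h1 : ∫ r in (0 : ℝ)..t, f r = ∫ r in (0 : ℝ)..t, (starRingEnd ℂ) (g r) := by
    apply intervalIntegral.integral_congr
    intro r hr
    rw [uIcc_of_le ht] at hr
    exact h r hr
  rw [h1, intervalIntegral.integral_of_le ht, intervalIntegral.integral_of_le ht, integral_conj]

theorem p_PIC : Stmt_PIC := by
  intro T R lm w ρ G a hT hR hw hwp hρ hGc hL hI hG0 ha hwd hlm hGs has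
  have hRw : ∀ t ∈ Icc 0 T, ∀ k, 0 ≤ R * w k t := fun t ht k =>
    mul_nonneg hR.le (hwp k t ht).le
  -- continuity of the integrand
  have hint : ∀ x : ℝ → ℤ × ℤ → ℂ, (∀ k, ContinuousOn (fun t => x t k) (Icc 0 T)) →
      (∀ t ∈ Icc 0 T, ∀ k, ‖x t k‖ ≤ R * w k t) → ∀ k,
      ContinuousOn (fun r => ((Real.exp (lm k * r) : ℝ) : ℂ) * G r (x r) k) (Icc 0 T) := by
    intro x hxc hxb k
    refine ContinuousOn.mul ?_ (hGc x hxc hxb k)
    exact (Complex.continuous_ofReal.comp (Real.continuous_exp.comp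
      (continuous_const.mul continuous_id))).continuousOn
  -- derivative of the Picard map
  have hder : ∀ x : ℝ → ℤ × ℤ → ℂ, (∀ k, ContinuousOn (fun t => x t k) (Icc 0 T)) →
      (∀ t ∈ Icc 0 T, ∀ k, ‖x t k‖ ≤ R * w k t) → ∀ k, ∀ t ∈ Icc 0 T,
      HasDerivWithinAt (fun t => PIC_F lm G a x t k)
        (-((lm k : ℝ) : ℂ) * PIC_F lm G a x t k + G t (x t) k) (Icc 0 T) t := by
    intro x hxc hxb k t ht
    have h1 := (PIC_der T _ hT (hint x hxc hxb k) t ht).const_add (a k)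
    have h2 : HasDerivAt (fun t : ℝ => Real.exp (-(lm k * t)))
        (Real.exp (-(lm k * t)) * (-(lm k * 1))) t :=
      (((hasDerivAt_id t).const_mul (lm k)).neg).exp
    have h3 := (h2.ofReal_comp.hasDerivWithinAt (s := Icc 0 T)).mul h1
    refine h3.congr_deriv ?_
    unfold PIC_F
    have h4 : ((Real.exp (-(lm k * t)) : ℝ) : ℂ) * ((Real.exp (lm k * t) : ℝ) : ℂ) = 1 := by
      rw [← Complex.ofReal_mul, ← Real.exp_add]
      simp
    have h5 : ((Real.exp (-(lm k * t)) : ℝ) : ℂ) *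
        (((Real.exp (lm k * t) : ℝ) : ℂ) * G t (x t) k) = G t (x t) k := by
      rw [← mul_assoc, h4, one_mul]
    rw [h5]
    push_cast
    ring
  have hFc : ∀ x : ℝ → ℤ × ℤ → ℂ, (∀ k, ContinuousOn (fun t => x t k) (Icc 0 T)) →
      (∀ t ∈ Icc 0 T, ∀ k, ‖x t k‖ ≤ R * w k t) → ∀ k,
      ContinuousOn (fun t => PIC_F lm G a x t k) (Icc 0 T) := by
    intro x hxc hxb k t ht
    exact (hder x hxc hxb k t ht).continuousWithinAt
  -- contraction
  have hcon : ∀ (x x' : ℝ → ℤ × ℤ → ℂ) (d : ℝ), 0 ≤ d →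
      (∀ k, ContinuousOn (fun t => x t k) (Icc 0 T)) →
      (∀ t ∈ Icc 0 T, ∀ k, ‖x t k‖ ≤ R * w k t) →
      (∀ k, ContinuousOn (fun t => x' t k) (Icc 0 T)) →
      (∀ t ∈ Icc 0 T, ∀ k, ‖x' t k‖ ≤ R * w k t) →
      (∀ t ∈ Icc 0 T, ∀ k, ‖x t k - x' t k‖ ≤ d * w k t) →
      ∀ t ∈ Icc 0 T, ∀ k, ‖PIC_F lm G a x t k - PIC_F lm G a x' t k‖ ≤ d / 2 * w k t := by
    intro x x' d hd hxc hxb hxc' hxb' hxx t ht k
    have hi1 : IntervalIntegrable (fun r => ((Real.exp (lm k * r) : ℝ) : ℂ) * G r (x r) k)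
        volume 0 t :=
      ((hint x hxc hxb k).mono (Icc_subset_Icc_right ht.2)).intervalIntegrable_of_Icc ht.1
    have hi2 : IntervalIntegrable (fun r => ((Real.exp (lm k * r) : ℝ) : ℂ) * G r (x' r) k)
        volume 0 t :=
      ((hint x' hxc' hxb' k).mono (Icc_subset_Icc_right ht.2)).intervalIntegrable_of_Icc ht.1
    have hE : PIC_F lm G a x t k - PIC_F lm G a x' t k = ((Real.exp (-(lm k * t)) : ℝ) : ℂ) *
        ∫ r in (0 : ℝ)..t, ((Real.exp (lm k * r) : ℝ) : ℂ) * (G r (x r) k - G r (x' r) k) := by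
      unfold PIC_F
      rw [← mul_sub, add_sub_add_left_eq_sub, ← intervalIntegral.integral_sub hi1 hi2]
      congr 1
      apply intervalIntegral.integral_congr
      intro r _
      show _ - _ = _
      ring
    rw [hE, norm_mul, Complex.norm_real, Real.norm_eq_abs, abs_of_pos (Real.exp_pos _)]
    have hb : ‖∫ r in (0 : ℝ)..t, ((Real.exp (lm k * r) : ℝ) : ℂ) *
        (G r (x r) k - G r (x' r) k)‖ ≤
        ∫ r in (0 : ℝ)..t, Real.exp (lm k * r) * (d * ρ k r) := by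
      refine intervalIntegral.norm_integral_le_of_norm_le ht.1 ?_ ?_
      · refine Filter.Eventually.of_forall (fun r hr => ?_)
        rw [norm_mul, Complex.norm_real, Real.norm_eq_abs, abs_of_pos (Real.exp_pos _)]
        have hr' : r ∈ Icc 0 T := ⟨hr.1.le, hr.2.trans ht.2⟩
        exact mul_le_mul_of_nonneg_left
          (hL r hr' (x r) (x' r) d hd (hxb r hr') (hxb' r hr') (hxx r hr') k) (Real.exp_pos _).le
      · refine ContinuousOn.intervalIntegrable_of_Icc ht.1 ?_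
        refine ContinuousOn.mul ?_ (continuousOn_const.mul
          ((hρ k).mono (Icc_subset_Icc_right ht.2)))
        exact (Real.continuous_exp.comp (continuous_const.mul continuous_id)).continuousOn
    calc Real.exp (-(lm k * t)) * ‖∫ r in (0 : ℝ)..t, ((Real.exp (lm k * r) : ℝ) : ℂ) *
          (G r (x r) k - G r (x' r) k)‖
        ≤ Real.exp (-(lm k * t)) * ∫ r in (0 : ℝ)..t, Real.exp (lm k * r) * (d * ρ k r) :=
          mul_le_mul_of_nonneg_left hb (Real.exp_pos _).le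
      _ = d * ∫ r in (0 : ℝ)..t, Real.exp (-(lm k * (t - r))) * ρ k r := by
          rw [← intervalIntegral.integral_const_mul, ← intervalIntegral.integral_const_mul]
          apply intervalIntegral.integral_congr
          intro r _
          have h6 : Real.exp (-(lm k * (t - r))) =
              Real.exp (-(lm k * t)) * Real.exp (lm k * r) := by
            rw [← Real.exp_add]
            congr 1
            ring
          show Real.exp (-(lm k * t)) * (Real.exp (lm k * r) * (d * ρ k r)) =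
            d * (Real.exp (-(lm k * (t - r))) * ρ k r)
          rw [h6]
          ring
      _ ≤ d * (w k t / 2) := mul_le_mul_of_nonneg_left (hI t ht k) hd
      _ = d / 2 * w k t := by ring
  -- the zero curve
  have h0c : ∀ k : ℤ × ℤ, ContinuousOn (fun t : ℝ => (fun _ _ => 0 : ℝ → ℤ × ℤ → ℂ) t k)
      (Icc 0 T) := fun k => continuousOn_const
  have h0b : ∀ t ∈ Icc 0 T, ∀ k, ‖(fun _ _ => 0 : ℝ → ℤ × ℤ → ℂ) t k‖ ≤ R * w k t := by
    intro t ht k
    simp only [norm_zero]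
    exact hRw t ht k
  have hF0 : ∀ t ∈ Icc 0 T, ∀ k, ‖PIC_F lm G a (fun _ _ => 0) t k‖ ≤ R / 2 * w k t := by
    intro t ht k
    have h1 : ∫ r in (0 : ℝ)..t, ((Real.exp (lm k * r) : ℝ) : ℂ) * G r (fun _ => 0) k = 0 := by
      have h2 : ∫ r in (0 : ℝ)..t, ((Real.exp (lm k * r) : ℝ) : ℂ) * G r (fun _ => 0) k =
          ∫ _ in (0 : ℝ)..t, (0 : ℂ) := by
        apply intervalIntegral.integral_congr
        intro r hr
        rw [uIcc_of_le ht.1] at hr
        show ((Real.exp (lm k * r) : ℝ) : ℂ) * G r (fun _ => 0) k = 0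
        rw [hG0 r ⟨hr.1, hr.2.trans ht.2⟩ k, mul_zero]
      rw [h2, intervalIntegral.integral_zero]
    unfold PIC_F
    rw [h1, add_zero, norm_mul, Complex.norm_real, Real.norm_eq_abs, abs_of_pos (Real.exp_pos _)]
    calc Real.exp (-(lm k * t)) * ‖a k‖ ≤ Real.exp (-(lm k * t)) * (R / 2 * w k 0) :=
          mul_le_mul_of_nonneg_left (ha k) (Real.exp_pos _).le
      _ = R / 2 * (Real.exp (-(lm k * t)) * w k 0) := by ring
      _ ≤ R / 2 * w k t := mul_le_mul_of_nonneg_left (hwd t ht k) (by linarith)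
  have hFb : ∀ x : ℝ → ℤ × ℤ → ℂ, (∀ k, ContinuousOn (fun t => x t k) (Icc 0 T)) →
      (∀ t ∈ Icc 0 T, ∀ k, ‖x t k‖ ≤ R * w k t) →
      ∀ t ∈ Icc 0 T, ∀ k, ‖PIC_F lm G a x t k‖ ≤ R * w k t := by
    intro x hxc hxb t ht k
    have h1 := hcon x (fun _ _ => 0) R hR.le hxc hxb h0c h0b (fun t ht k => by
      simp only [sub_zero]
      exact hxb t ht k) t ht k
    have h2 := hF0 t ht k
    have h3 : PIC_F lm G a x t k = (PIC_F lm G a x t k - PIC_F lm G a (fun _ _ => 0) t k) +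
        PIC_F lm G a (fun _ _ => 0) t k := by ring
    rw [h3]
    refine le_trans (norm_add_le _ _) ?_
    linarith
  have hFs : ∀ x : ℝ → ℤ × ℤ → ℂ, (∀ t ∈ Icc 0 T, ∀ k, ‖x t k‖ ≤ R * w k t) →
      (∀ t ∈ Icc 0 T, ∀ k, x t (-k) = (starRingEnd ℂ) (x t k)) →
      ∀ t ∈ Icc 0 T, ∀ k, PIC_F lm G a x t (-k) = (starRingEnd ℂ) (PIC_F lm G a x t k) := by
    intro x hxb hxs t ht k
    unfold PIC_F
    rw [map_mul, map_add, Complex.conj_ofReal, hlm k, has k]
    congr 2
    apply PIC_conj _ _ t ht.1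
    intro r hr
    have hr' : r ∈ Icc 0 T := ⟨hr.1, hr.2.trans ht.2⟩
    rw [map_mul, Complex.conj_ofReal, hGs r hr' (x r) (hxb r hr') (hxs r hr') k]
  -- the iterates
  have hX : ∀ n : ℕ, (∀ k, ContinuousOn (fun t => ((PIC_F lm G a)^[n] (fun _ _ => 0)) t k)
        (Icc 0 T)) ∧
      (∀ t ∈ Icc 0 T, ∀ k, ‖((PIC_F lm G a)^[n] (fun _ _ => 0)) t k‖ ≤ R * w k t) ∧
      (∀ t ∈ Icc 0 T, ∀ k, ((PIC_F lm G a)^[n] (fun _ _ => 0)) t (-k) =
        (starRingEnd ℂ) (((PIC_F lm G a)^[n] (fun _ _ => 0)) t k)) := by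
    intro n
    induction n with
    | zero =>
      refine ⟨h0c, h0b, ?_⟩
      intro t _ k
      simp
    | succ n ih =>
      rw [Function.iterate_succ_apply']
      exact ⟨hFc _ ih.1 ih.2.1, hFb _ ih.1 ih.2.1, hFs _ ih.2.1 ih.2.2⟩
  obtain ⟨X, hXdef⟩ : ∃ X : ℕ → ℝ → ℤ × ℤ → ℂ,
      X = fun n => (PIC_F lm G a)^[n] (fun _ _ => 0) := ⟨_, rfl⟩
  have hXc : ∀ n k, ContinuousOn (fun t => X n t k) (Icc 0 T) := by
    intro n
    rw [hXdef]
    exact (hX n).1
  have hXb : ∀ n, ∀ t ∈ Icc 0 T, ∀ k, ‖X n t k‖ ≤ R * w k t := by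
    intro n
    rw [hXdef]
    exact (hX n).2.1
  have hXs : ∀ n, ∀ t ∈ Icc 0 T, ∀ k, X n t (-k) = (starRingEnd ℂ) (X n t k) := by
    intro n
    rw [hXdef]
    exact (hX n).2.2
  have hX1 : ∀ n, X (n + 1) = PIC_F lm G a (X n) := by
    intro n
    rw [hXdef]
    exact Function.iterate_succ_apply' _ _ _
  have hX0 : X 0 = fun _ _ => 0 := by
    rw [hXdef]
    rfl
  have hdiff : ∀ n : ℕ, ∀ t ∈ Icc 0 T, ∀ k,
      ‖X (n + 1) t k - X n t k‖ ≤ R / 2 / 2 ^ n * w k t := by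
    intro n
    induction n with
    | zero =>
      intro t ht k
      rw [hX1 0, hX0]
      simp only [sub_zero, pow_zero, div_one]
      exact hF0 t ht k
    | succ n ih =>
      intro t ht k
      rw [hX1 (n + 1), hX1 n]
      have h1 := hcon (PIC_F lm G a (X n)) (X n) (R / 2 / 2 ^ n) (by positivity)
        (hFc _ (hXc n) (hXb n)) (hFb _ (hXc n) (hXb n)) (hXc n) (hXb n)
        (fun t ht k => by
          have := ih t ht k
          rw [hX1 n] at this
          exact this) t ht k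
      refine le_trans h1 (le_of_eq ?_)
      rw [pow_succ]
      field_simp
  have hdist : ∀ t ∈ Icc 0 T, ∀ k n, dist (X n t k) (X (n + 1) t k) ≤ R * w k t / 2 / 2 ^ n := by
    intro t ht k n
    rw [dist_comm, dist_eq_norm]
    refine le_trans (hdiff n t ht k) (le_of_eq ?_)
    ring
  -- the limit
  have hlim : ∀ t k, ∃ y : ℂ, t ∈ Icc 0 T → Tendsto (fun n => X n t k) atTop (𝓝 y) := by
    intro t k
    by_cases ht : t ∈ Icc 0 T
    · have h1 : CauchySeq (fun n => X n t k) := cauchySeq_of_le_geometric_two (hdist t ht k)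
      obtain ⟨y, hy⟩ := cauchySeq_tendsto_of_complete h1
      exact ⟨y, fun _ => hy⟩
    · exact ⟨0, fun h => absurd h ht⟩
  choose x hx using hlim
  have hxn : ∀ t ∈ Icc 0 T, ∀ k n, dist (X n t k) (x t k) ≤ R * w k t / 2 ^ n := by
    intro t ht k n
    exact dist_le_of_le_geometric_two_of_tendsto (hdist t ht k) (hx t k ht) n
  have hxb : ∀ t ∈ Icc 0 T, ∀ k, ‖x t k‖ ≤ R * w k t := by
    intro t ht k
    exact le_of_tendsto (hx t k ht).norm (Filter.Eventually.of_forall (fun n => hXb n t ht k))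
  have hxs : ∀ t ∈ Icc 0 T, ∀ k, x t (-k) = (starRingEnd ℂ) (x t k) := by
    intro t ht k
    refine tendsto_nhds_unique (hx t (-k) ht) ?_
    have h1 := (Complex.continuous_conj.tendsto (x t k)).comp (hx t k ht)
    refine h1.congr (fun n => ?_)
    exact (hXs n t ht k).symm
  have hxc : ∀ k, ContinuousOn (fun t => x t k) (Icc 0 T) := by
    intro k
    obtain ⟨B, hB⟩ := (isCompact_Icc (a := (0 : ℝ)) (b := T)).exists_bound_of_continuousOn (hw k)
    have hBw : ∀ t ∈ Icc 0 T, w k t ≤ B := fun t ht => le_trans (le_abs_self _) (hB t ht)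
    have hB0 : 0 ≤ B := le_trans (norm_nonneg _) (hB 0 ⟨le_refl _, hT.le⟩)
    have hu : TendstoUniformlyOn (fun n t => X n t k) (fun t => x t k) atTop (Icc 0 T) := by
      rw [Metric.tendstoUniformlyOn_iff]
      intro ε hε
      have h2 : Tendsto (fun n : ℕ => R * B * (1 / 2 : ℝ) ^ n) atTop (𝓝 (R * B * 0)) :=
        (tendsto_pow_atTop_nhds_zero_of_lt_one (by norm_num) (by norm_num)).const_mul _
      rw [mul_zero] at h2
      filter_upwards [(tendsto_order.mp h2).2 ε hε] with n hn t ht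
      rw [dist_comm]
      refine lt_of_le_of_lt (hxn t ht k n) (lt_of_le_of_lt ?_ hn)
      rw [one_div, inv_pow, ← div_eq_mul_inv]
      exact div_le_div_of_nonneg_right (mul_le_mul_of_nonneg_left (hBw t ht) hR.le) (by positivity)
    exact hu.continuousOn (Filter.Frequently.of_forall (fun n => hXc n k))
  -- the fixed point
  have hfix : ∀ t ∈ Icc 0 T, ∀ k, x t k = PIC_F lm G a x t k := by
    intro t ht k
    have h1 : Tendsto (fun n => X (n + 1) t k) atTop (𝓝 (x t k)) :=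
      (hx t k ht).comp (tendsto_add_atTop_nat 1)
    refine tendsto_nhds_unique h1 ?_
    rw [tendsto_iff_dist_tendsto_zero]
    have h2 : Tendsto (fun n : ℕ => R * w k t * (1 / 2 : ℝ) ^ n) atTop
        (𝓝 (R * w k t * 0)) :=
      (tendsto_pow_atTop_nhds_zero_of_lt_one (by norm_num) (by norm_num)).const_mul _
    rw [mul_zero] at h2
    refine squeeze_zero (fun n => dist_nonneg) (fun n => ?_) h2
    rw [hX1 n, dist_eq_norm]
    have h3 := hcon (X n) x (R / 2 ^ n) (by positivity) (hXc n) (hXb n) hxc hxb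
      (fun t ht k => by
        have := hxn t ht k n
        rw [dist_eq_norm] at this
        refine le_trans this (le_of_eq ?_)
        ring) t ht k
    refine le_trans h3 ?_
    have h4 : (0 : ℝ) ≤ R / 2 ^ n * w k t := mul_nonneg (by positivity) (hwp k t ht).le
    have h5 : R * w k t * (1 / 2 : ℝ) ^ n = R / 2 ^ n * w k t := by
      rw [one_div, inv_pow]
      ring
    rw [h5]
    have h6 : R / 2 ^ n / 2 * w k t = R / 2 ^ n * w k t / 2 := by ring
    rw [h6]
    linarith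
  refine ⟨x, ?_, hxb, hxs, ?_⟩
  · intro k
    rw [hfix 0 ⟨le_refl _, hT.le⟩ k]
    unfold PIC_F
    simp
  · intro k t ht
    have h1 := hder x hxc hxb k t ht
    rw [← hfix t ht k] at h1
    exact h1.congr (fun u hu => hfix u hu k) (hfix t ht k)

end

end Pool.SQGA
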