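import Pool.Agent.Work.MP_a2fcf1_an_ar.I3

/-! # Block RDA (helper72): rapid decay of all coefficients, uniformly in time -/

set_option autoImplicit false

namespace Pool.SQGA

open Set MeasureTheory
open Pool.Agent.Work.MP_a2fcf1_an_h64 (cr sc eu n1 n1_cast)

noncomputable section

theorem RDA_exp (hOMS : Stmt_OMS) (s : ℝ) (hs : 0 < s) (q : ℕ) :
    ∃ K : ℝ, 0 < K ∧ ∀ j : ℤ, (1 + |(j : ℝ)|) ^ q ≤ K * Real.exp (s * |(j : ℝ)|) := by
  obtain ⟨K, hK, h⟩ := hOMS.2.2.2.2 s (q + 4) hs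
  refine ⟨K, hK, fun j => ?_⟩
  have h1 := h j
  unfold om at h1
  rw [pow_add, ← mul_assoc] at h1
  exact le_of_mul_le_mul_right h1 (by positivity)

theorem p_RDA (hDEC : Stmt_DEC) (hWTB : Stmt_WTB) (hVR : Stmt_VR) (hOMS : Stmt_OMS) :
    Stmt_RDA := by
  intro p hp β T R q hβ hT hβT hTA hR
  have hs := hp.s_pos
  obtain ⟨C₀, hC₀, hdec⟩ := hDEC p.s q hs
  obtain ⟨K1, hK1, hk1⟩ := RDA_exp hOMS (p.s / 2) (by linarith) (2 * q)
  obtain ⟨K2, hK2, hk2⟩ := hOMS.2.2.2.2 p.s q hs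
  have hAterm : ∀ l : ℤ, 0 ≤ om p.s l * (|(l : ℝ)| * ‖p.A l‖) := fun l => by
    unfold om
    positivity
  have hAs : 0 ≤ p.As := tsum_nonneg hAterm
  have hAle : ∀ l : ℤ, om p.s l * (|(l : ℝ)| * ‖p.A l‖) ≤ p.As := fun l =>
    hp.sum.le_tsum l fun j _ => hAterm j
  refine ⟨C₀ * (1 + p.N) ^ q * R * K1 + (K2 * p.As + ‖p.A 0‖) + R * K1, ?_⟩
  intro t ht x hx k
  have ht0 : 0 ≤ t := ht.1
  have hβt : β * t ≤ p.s / 2 := (mul_le_mul_of_nonneg_left ht.2 hβ).trans hβT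
  have htA : t * p.As ≤ 1 / 2 := (mul_le_mul_of_nonneg_right ht.2 hAs).trans hTA
  obtain ⟨d1, d2, d3, d4⟩ := hdec p hp rfl β t R x hβ ht0 hβt htA hR hx
  obtain ⟨w1, w2, w3, w4, w5, w6⟩ := hWTB p hp β t hβ ht0 hβt
  have hn : ((n1 k : ℕ) : ℝ) = |(k.1 : ℝ)| + |(k.2 : ℝ)| := n1_cast k
  by_cases hk : k.1 = 0
  · -- the case `k.1 = 0`
    have hn' : ((n1 k : ℕ) : ℝ) = |(k.2 : ℝ)| := by
      rw [hn, hk, Int.cast_zero, abs_zero, zero_add]
    have hx1 : ‖x k‖ * (1 + n1 k) ^ q ≤ R * K1 := by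
      have a1 : ‖x k‖ ≤ R * Real.exp (-(p.s / 2 * n1 k)) := by
        refine (hx k).trans (mul_le_mul_of_nonneg_left ?_ hR)
        refine (w1 k).2.2.trans ((w6 k).trans ?_)
        refine div_le_self (Real.exp_pos _).le ?_
        exact one_le_pow₀ (by linarith [Nat.cast_nonneg (α := ℝ) (n1 k)])
      have a2 := hk1 k.2
      rw [← hn'] at a2
      have a3 : (1 + (n1 k : ℝ)) ^ q ≤ (1 + (n1 k : ℝ)) ^ (2 * q) :=
        pow_le_pow_right₀ (by linarith [Nat.cast_nonneg (α := ℝ) (n1 k)]) (by omega)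
      calc ‖x k‖ * (1 + n1 k) ^ q
          ≤ R * Real.exp (-(p.s / 2 * n1 k)) * (K1 * Real.exp (p.s / 2 * n1 k)) :=
            mul_le_mul a1 (a3.trans a2) (by positivity) (by positivity)
        _ = R * K1 * (Real.exp (-(p.s / 2 * n1 k)) * Real.exp (p.s / 2 * n1 k)) := by ring
        _ = R * K1 := by rw [← Real.exp_add, neg_add_cancel, Real.exp_zero, mul_one]
    have hS : ‖Sl p t k.2‖ * (1 + n1 k) ^ q ≤ K2 * p.As + ‖p.A 0‖ := by
      have a1 := ((hVR p hp).1 t k.2 ht0).1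
      rw [hn']
      by_cases hl : k.2 = 0
      · rw [hl] at a1 ⊢
        rw [Int.cast_zero, abs_zero, add_zero, one_pow, mul_one]
        have : 0 ≤ K2 * p.As := mul_nonneg hK2.le hAs
        linarith
      · have a2 : ‖p.A k.2‖ ≤ |(k.2 : ℝ)| * ‖p.A k.2‖ := by
          have a3 : (1 : ℝ) ≤ |(k.2 : ℝ)| := by
            have := Int.one_le_abs hl
            exact_mod_cast this
          nlinarith [norm_nonneg (p.A k.2)]
        calc ‖Sl p t k.2‖ * (1 + |(k.2 : ℝ)|) ^ q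
            ≤ (|(k.2 : ℝ)| * ‖p.A k.2‖) * (K2 * om p.s k.2) :=
              mul_le_mul (a1.trans a2) (hk2 k.2) (by positivity) (by positivity)
          _ = K2 * (om p.s k.2 * (|(k.2 : ℝ)| * ‖p.A k.2‖)) := by ring
          _ ≤ K2 * p.As := mul_le_mul_of_nonneg_left (hAle _) hK2.le
          _ ≤ K2 * p.As + ‖p.A 0‖ := by linarith [norm_nonneg (p.A 0)]
    have h0 : 0 ≤ C₀ * (1 + p.N) ^ q * R * K1 := by positivity
    have hS0 : 0 ≤ K2 * p.As + ‖p.A 0‖ := by positivity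
    constructor
    · rw [d2 k hk]
      have := norm_add_le (Sl p t k.2) (x k)
      have a1 := mul_le_mul_of_nonneg_right this
        (show (0 : ℝ) ≤ (1 + n1 k) ^ q by positivity)
      rw [add_mul] at a1
      linarith
    · rw [d4 k hk]
      linarith
  · rw [d3 k hk]
    have key : ‖av p t x k‖ * (1 + n1 k) ^ q ≤ C₀ * (1 + p.N) ^ q * R * K1 := by
      have a1 := d1 k hk
      have a2 : (1 + (n1 k : ℝ)) ^ q ≤ (1 + |(k.1 : ℝ)|) ^ q * (1 + |(k.2 : ℝ)|) ^ q := by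
        rw [← mul_pow]
        refine pow_le_pow_left₀ (by positivity) ?_ q
        rw [hn]
        nlinarith [mul_nonneg (abs_nonneg (k.1 : ℝ)) (abs_nonneg (k.2 : ℝ))]
      have a3 : (1 + (p.N : ℝ) * |(k.1 : ℝ)|) ^ q ≤ (1 + (p.N : ℝ)) ^ q * (1 + |(k.1 : ℝ)|) ^ q := by
        rw [← mul_pow]
        refine pow_le_pow_left₀ (by positivity) ?_ q
        nlinarith [abs_nonneg (k.1 : ℝ), Nat.cast_nonneg (α := ℝ) p.N]
      have a4 : Ef p t ≤ 1 := w3.2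
      have a5 : 0 < Ef p t := w3.1
      have a6 := hk1 k.1
      have a7 : (1 + |(k.1 : ℝ)|) ^ (2 * q) = (1 + |(k.1 : ℝ)|) ^ q * (1 + |(k.1 : ℝ)|) ^ q := by
        rw [two_mul, pow_add]
      have hE := Real.exp_pos (-(p.s / 2 * |(k.1 : ℝ)|))
      calc ‖av p t x k‖ * (1 + n1 k) ^ q
          ≤ ‖av p t x k‖ * ((1 + |(k.1 : ℝ)|) ^ q * (1 + |(k.2 : ℝ)|) ^ q) :=
            mul_le_mul_of_nonneg_left a2 (norm_nonneg _)
        _ = (1 + |(k.1 : ℝ)|) ^ q * (‖av p t x k‖ * (1 + |(k.2 : ℝ)|) ^ q) := by ring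
        _ ≤ (1 + |(k.1 : ℝ)|) ^ q * (C₀ * (1 + p.N * |(k.1 : ℝ)|) ^ q *
            (R * Ef p t * Real.exp (-(p.s / 2 * |(k.1 : ℝ)|)))) :=
            mul_le_mul_of_nonneg_left a1 (by positivity)
        _ ≤ (1 + |(k.1 : ℝ)|) ^ q * (C₀ * ((1 + (p.N : ℝ)) ^ q * (1 + |(k.1 : ℝ)|) ^ q) *
            (R * 1 * Real.exp (-(p.s / 2 * |(k.1 : ℝ)|)))) := by
            refine mul_le_mul_of_nonneg_left ?_ (by positivity)
            refine mul_le_mul (mul_le_mul_of_nonneg_left a3 hC₀.le) ?_ (by positivity)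
              (by positivity)
            exact mul_le_mul_of_nonneg_right (mul_le_mul_of_nonneg_left a4 hR) hE.le
        _ = C₀ * (1 + p.N) ^ q * R * (((1 + |(k.1 : ℝ)|) ^ (2 * q)) *
            Real.exp (-(p.s / 2 * |(k.1 : ℝ)|))) := by
            rw [a7]
            ring
        _ ≤ C₀ * (1 + p.N) ^ q * R * ((K1 * Real.exp (p.s / 2 * |(k.1 : ℝ)|)) *
            Real.exp (-(p.s / 2 * |(k.1 : ℝ)|))) := by
            refine mul_le_mul_of_nonneg_left ?_ (by positivity)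
            exact mul_le_mul_of_nonneg_right a6 hE.le
        _ = C₀ * (1 + p.N) ^ q * R * K1 := by
            rw [mul_assoc K1, ← Real.exp_add, add_neg_cancel, Real.exp_zero, mul_one]
    have h0 : 0 ≤ K2 * p.As + ‖p.A 0‖ := by positivity
    have h1 : 0 ≤ R * K1 := by positivity
    exact ⟨by linarith, by linarith⟩

end

end Pool.SQGA
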