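import Pool.Agent.Work.MP_a2fcf1_an_ar.I1

/-! # Block RES: weighted bounds of the conjugated resolvent (MP_a2fcf1_an) -/

set_option autoImplicit false

namespace Pool.SQGA

open Set MeasureTheory

theorem RES_om_pos (s : ℝ) (j : ℤ) : 0 < om s j := by
  unfold om
  positivity

/-- the weighted norm of an integral -/
theorem RES_int (w : ℤ → ℝ) (hw : ∀ i, 0 ≤ w i) (f : ℝ → ℤ → ℂ) (g : ℝ → ℝ)
    (hf : ∀ i, Integrable fun z => f z i) (hg : Integrable g)
    (hfg : ∀ z (F : Finset ℤ), ∑ i ∈ F, w i * ‖f z i‖ ≤ g z) :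
    (Summable fun i => w i * ‖∫ z, f z i‖) ∧ ∑' i, w i * ‖∫ z, f z i‖ ≤ ∫ z, g z := by
  have key : ∀ F : Finset ℤ, ∑ i ∈ F, w i * ‖∫ z, f z i‖ ≤ ∫ z, g z := by
    intro F
    calc ∑ i ∈ F, w i * ‖∫ z, f z i‖ ≤ ∑ i ∈ F, ∫ z, w i * ‖f z i‖ := by
          refine Finset.sum_le_sum fun i _ => ?_
          rw [integral_const_mul]
          exact mul_le_mul_of_nonneg_left (norm_integral_le_integral_norm _) (hw i)
      _ = ∫ z, ∑ i ∈ F, w i * ‖f z i‖ :=
          (integral_finsetSum F fun i _ => (hf i).norm.const_mul (w i)).symm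
      _ ≤ ∫ z, g z := by
          refine integral_mono ?_ hg fun z => hfg z F
          exact integrable_finsetSum F fun i _ => (hf i).norm.const_mul (w i)
  have h0 : ∀ i, 0 ≤ w i * ‖∫ z, f z i‖ := fun i => mul_nonneg (hw i) (norm_nonneg _)
  exact ⟨summable_of_sum_le h0 key, Real.tsum_le_of_sum_le h0 key⟩

/-- finite sums of a translated weighted series -/
theorem RES_sum (s : ℝ) (a : ℤ → ℂ) (l : ℤ) (ha : WS s a) (F : Finset ℤ) :
    ∑ i ∈ F, om s (l - i) * ‖a (l - i)‖ ≤ nw s a := by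
  have h0 : ∀ j, 0 ≤ om s j * ‖a j‖ := fun j =>
    mul_nonneg (RES_om_pos s j).le (norm_nonneg _)
  have h1 : Summable fun i => om s (l - i) * ‖a (l - i)‖ :=
    (Equiv.subLeft l).summable_iff.2 ha
  have h2 : ∑' i, om s (l - i) * ‖a (l - i)‖ = nw s a :=
    (Equiv.subLeft l).tsum_eq fun j => om s j * ‖a j‖
  rw [← h2]
  exact h1.sum_le_tsum F fun i _ => h0 _

theorem RES_e1_norm (l : ℤ) (y : ℝ) : ‖e1 l y‖ = 1 := by
  unfold e1
  have h : (l : ℂ) * (y : ℂ) = (((l : ℝ) * y : ℝ) : ℂ) := by push_cast; ring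
  rw [h]
  exact Complex.norm_exp_I_mul_ofReal _

theorem RES_e1_sub (l c : ℤ) (z : ℝ) : ‖e1 (-l) z - e1 (-(l - c)) z‖ ≤ |(c : ℝ)| * |z| := by
  have h1 : e1 (-(l - c)) z = e1 (-l) z * e1 c z := by
    unfold e1
    rw [← Complex.exp_add]
    congr 1
    push_cast
    ring
  have h2 : e1 (-l) z - e1 (-(l - c)) z = -(e1 (-l) z * (e1 c z - 1)) := by
    rw [h1]
    ring
  rw [h2, norm_neg, norm_mul, RES_e1_norm, one_mul]
  have h3 : (c : ℂ) * (z : ℂ) = (((c : ℝ) * z : ℝ) : ℂ) := by push_cast; ring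
  have h4 : ‖Complex.exp (Complex.I * (((c : ℝ) * z : ℝ) : ℂ)) - 1‖ ≤ ‖(c : ℝ) * z‖ :=
    Real.norm_exp_I_mul_ofReal_sub_one_le
  unfold e1
  rw [h3]
  refine h4.trans ?_
  rw [Real.norm_eq_abs, abs_mul]

theorem RES_dl (s : ℝ) : WS s dl := by
  refine summable_of_ne_finset_zero (s := {0}) ?_
  intro j hj
  rw [Finset.mem_singleton] at hj
  simp [dl, hj]

theorem RES_WS_sub (s : ℝ) (a : ℤ → ℂ) (ha : WS s a) : WS s fun j => a j - dl j := by
  refine Summable.of_nonneg_of_le (fun j => mul_nonneg (RES_om_pos s j).le (norm_nonneg _))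
    (fun j => ?_) (Summable.add ha (RES_dl s))
  rw [← mul_add]
  exact mul_le_mul_of_nonneg_left (norm_sub_le _ _) (RES_om_pos s j).le

theorem RES_kn_norm (ν z : ℝ) (hν : 0 < ν) : ‖((kn ν z : ℝ) : ℂ)‖ = kn ν z := by
  rw [Complex.norm_real, Real.norm_of_nonneg]
  unfold kn
  positivity

theorem RES_kn_nonneg (ν z : ℝ) (hν : 0 < ν) : 0 ≤ kn ν z := by
  unfold kn
  positivity

theorem p_RES (hRKR : Stmt_RKR) (hKER : Stmt_KER) (hEZW : Stmt_EZW) (_hOMS : Stmt_OMS) :
    Stmt_RES := by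
  intro p hp m t ν l ht htA hm hν
  have hm1 : (1 : ℝ) ≤ |(m : ℝ)| := by
    have h1 : (1 : ℤ) ≤ |m| := Int.one_le_abs hm
    exact_mod_cast h1
  have hN1 : (1 : ℝ) ≤ (p.N : ℝ) := by exact_mod_cast hp.N_pos
  have hNm : 1 ≤ (p.N : ℝ) * |(m : ℝ)| := by nlinarith
  have hν0 : 0 < ν := by linarith
  have hAs : 0 ≤ p.As := tsum_nonneg fun j =>
    mul_nonneg (RES_om_pos p.s j).le (mul_nonneg (abs_nonneg _) (norm_nonneg _))
  have htA0 : 0 ≤ t * p.As := mul_nonneg ht hAs
  obtain ⟨q, hq⟩ : ∃ q : ℝ, q = p.N * |(m : ℝ)| * (t * p.As) := ⟨_, rfl⟩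
  have hq0 : 0 ≤ q := by rw [hq]; positivity
  have hq2 : q ≤ ν / 2 := by
    rw [hq]
    calc (p.N : ℝ) * |(m : ℝ)| * (t * p.As) ≤ (p.N : ℝ) * |(m : ℝ)| * (1 / 2) :=
          mul_le_mul_of_nonneg_left htA (by positivity)
      _ ≤ ν * (1 / 2) := by linarith
      _ = ν / 2 := by ring
  have hqν : q < ν := by linarith
  obtain ⟨hK1, hK2⟩ := hKER ν hν0
  obtain ⟨k1, k2, k3, k4⟩ := hK2 q hq0 hqν
  have hνq : 0 < ν - q := by linarith
  -- the numerical bounds
  have b1 : 1 / (ν * (ν - q)) ≤ 2 / ν ^ 2 := by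
    rw [div_le_div_iff₀ (by positivity) (by positivity)]
    nlinarith
  have b2 : 1 / (ν * (ν - q) ^ 2) ≤ 4 / ν ^ 3 := by
    rw [div_le_div_iff₀ (by positivity) (by positivity)]
    have h1 : (ν / 2) ^ 2 ≤ (ν - q) ^ 2 := by
      apply pow_le_pow_left₀ (by linarith)
      linarith
    nlinarith
  -- the kernel representation
  have E1 : ∀ z, WS p.s (Ez p m t z) := fun z => (hEZW p hp m t z ht).1
  have E2 : ∀ z, nw p.s (Ez p m t z) ≤ Real.exp (q * |z|) := by
    intro z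
    have h := (hEZW p hp m t z ht).2.1
    have e : (p.N : ℝ) * |(m : ℝ)| * |z| * (t * p.As) = q * |z| := by rw [hq]; ring
    rwa [e] at h
  have E3 : ∀ z, nw p.s (fun j => Ez p m t z j - dl j) ≤ q * |z| * Real.exp (q * |z|) := by
    intro z
    have h := (hEZW p hp m t z ht).2.2.1
    have e : (p.N : ℝ) * |(m : ℝ)| * |z| * (t * p.As) = q * |z| := by rw [hq]; ring
    rwa [e] at h
  have R1 : ∀ l l' : ℤ,
      Integrable fun z : ℝ => ((kn ν z : ℝ) : ℂ) * (Ez p m t z (l - l') * e1 (-l') z) :=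
    fun l l' => (hRKR p hp m t ν l l' ht hν0).1
  have R2 : ∀ l l' : ℤ, Cj p (ph ν) m t l l' =
      ∫ z, ((kn ν z : ℝ) : ℂ) * (Ez p m t z (l - l') * e1 (-l') z) :=
    fun l l' => (hRKR p hp m t ν l l' ht hν0).2
  have hw : ∀ i : ℤ, 0 ≤ om p.s (l - i) := fun i => (RES_om_pos p.s _).le
  refine ⟨?_, ?_, ?_⟩
  · -- first bound
    obtain ⟨s1, s2⟩ := RES_int (fun i => om p.s (l - i)) hw
      (fun z i => ((kn ν z : ℝ) : ℂ) * (Ez p m t z (l - i) * e1 (-i) z))
      (fun z => kn ν z * Real.exp (q * |z|)) (fun i => R1 l i) k1 (by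
        intro z F
        calc ∑ i ∈ F, om p.s (l - i) * ‖((kn ν z : ℝ) : ℂ) * (Ez p m t z (l - i) * e1 (-i) z)‖
            = kn ν z * ∑ i ∈ F, om p.s (l - i) * ‖Ez p m t z (l - i)‖ := by
              rw [Finset.mul_sum]
              refine Finset.sum_congr rfl fun i _ => ?_
              rw [norm_mul, norm_mul, RES_kn_norm ν z hν0, RES_e1_norm]
              ring
          _ ≤ kn ν z * Real.exp (q * |z|) :=
              mul_le_mul_of_nonneg_left ((RES_sum p.s _ l (E1 z) F).trans (E2 z))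
                (RES_kn_nonneg ν z hν0))
    simp only [← R2] at s1 s2
    rw [k2] at s2
    exact ⟨s1, s2.trans b1⟩
  · -- second bound
    have hD : ∀ i : ℤ, (Integrable fun z : ℝ =>
        ((kn ν z : ℝ) : ℂ) * ((Ez p m t z (l - i) - dl (l - i)) * e1 (-i) z)) ∧
        (Cj p (ph ν) m t l i - if l = i then ((ph ν l : ℝ) : ℂ) else 0) =
          ∫ z, ((kn ν z : ℝ) : ℂ) * ((Ez p m t z (l - i) - dl (l - i)) * e1 (-i) z) := by
      intro i
      by_cases hi : l = i
      · subst hi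
        have hd : dl (l - l) = 1 := by simp [dl]
        have e : (fun z : ℝ =>
            ((kn ν z : ℝ) : ℂ) * ((Ez p m t z (l - l) - dl (l - l)) * e1 (-l) z)) =
            fun z => ((kn ν z : ℝ) : ℂ) * (Ez p m t z (l - l) * e1 (-l) z) -
              ((kn ν z : ℝ) : ℂ) * e1 (-l) z := by
          funext z
          rw [hd]
          ring
        rw [e, if_pos rfl]
        refine ⟨(R1 l l).sub (hK1 l).1, ?_⟩
        rw [integral_sub (R1 l l) (hK1 l).1, ← R2, ← (hK1 l).2]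
      · have hd : dl (l - i) = 0 := by
          unfold dl
          rw [if_neg (sub_ne_zero.2 hi)]
        have e : (fun z : ℝ =>
            ((kn ν z : ℝ) : ℂ) * ((Ez p m t z (l - i) - dl (l - i)) * e1 (-i) z)) =
            fun z => ((kn ν z : ℝ) : ℂ) * (Ez p m t z (l - i) * e1 (-i) z) := by
          funext z
          rw [hd, sub_zero]
        rw [e, if_neg hi, sub_zero]
        exact ⟨R1 l i, R2 l i⟩
    obtain ⟨s1, s2⟩ := RES_int (fun i => om p.s (l - i)) hw
      (fun z i => ((kn ν z : ℝ) : ℂ) * ((Ez p m t z (l - i) - dl (l - i)) * e1 (-i) z))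
      (fun z => q * (kn ν z * (|z| * Real.exp (q * |z|)))) (fun i => (hD i).1)
      (k3.const_mul q) (by
        intro z F
        calc ∑ i ∈ F, om p.s (l - i) *
              ‖((kn ν z : ℝ) : ℂ) * ((Ez p m t z (l - i) - dl (l - i)) * e1 (-i) z)‖
            = kn ν z * ∑ i ∈ F, om p.s (l - i) *
                ‖(fun j => Ez p m t z j - dl j) (l - i)‖ := by
              rw [Finset.mul_sum]
              refine Finset.sum_congr rfl fun i _ => ?_
              rw [norm_mul, norm_mul, RES_kn_norm ν z hν0, RES_e1_norm]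
              ring
          _ ≤ kn ν z * (q * |z| * Real.exp (q * |z|)) :=
              mul_le_mul_of_nonneg_left
                ((RES_sum p.s _ l (RES_WS_sub p.s _ (E1 z)) F).trans (E3 z))
                (RES_kn_nonneg ν z hν0)
          _ = q * (kn ν z * (|z| * Real.exp (q * |z|))) := by ring)
    have hD2 : ∀ i : ℤ,
        ∫ z, ((kn ν z : ℝ) : ℂ) * ((Ez p m t z (l - i) - dl (l - i)) * e1 (-i) z) =
          Cj p (ph ν) m t l i - if l = i then ((ph ν l : ℝ) : ℂ) else 0 :=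
      fun i => (hD i).2.symm
    simp only [hD2] at s1 s2
    rw [integral_const_mul, k4] at s2
    refine ⟨s1, s2.trans ?_⟩
    rw [← hq]
    calc q * (1 / (ν * (ν - q) ^ 2)) ≤ q * (4 / ν ^ 3) := mul_le_mul_of_nonneg_left b2 hq0
      _ = 4 * q / ν ^ 3 := by ring
  · -- third bound
    intro c
    have hD : ∀ i : ℤ, (Integrable fun z : ℝ =>
        ((kn ν z : ℝ) : ℂ) * (Ez p m t z (l - i) * (e1 (-i) z - e1 (-(i - c)) z))) ∧
        Cj p (ph ν) m t l i - Cj p (ph ν) m t (l - c) (i - c) =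
          ∫ z, ((kn ν z : ℝ) : ℂ) * (Ez p m t z (l - i) * (e1 (-i) z - e1 (-(i - c)) z)) := by
      intro i
      have hc : l - c - (i - c) = l - i := by ring
      have R1' := R1 (l - c) (i - c)
      have R2' := R2 (l - c) (i - c)
      rw [hc] at R1' R2'
      have e : (fun z : ℝ =>
          ((kn ν z : ℝ) : ℂ) * (Ez p m t z (l - i) * (e1 (-i) z - e1 (-(i - c)) z))) =
          fun z => ((kn ν z : ℝ) : ℂ) * (Ez p m t z (l - i) * e1 (-i) z) -
            ((kn ν z : ℝ) : ℂ) * (Ez p m t z (l - i) * e1 (-(i - c)) z) := by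
        funext z
        ring
      rw [e]
      refine ⟨(R1 l i).sub R1', ?_⟩
      rw [integral_sub (R1 l i) R1', ← R2, ← R2']
    obtain ⟨s1, s2⟩ := RES_int (fun i => om p.s (l - i)) hw
      (fun z i => ((kn ν z : ℝ) : ℂ) * (Ez p m t z (l - i) * (e1 (-i) z - e1 (-(i - c)) z)))
      (fun z => |(c : ℝ)| * (kn ν z * (|z| * Real.exp (q * |z|)))) (fun i => (hD i).1)
      (k3.const_mul _) (by
        intro z F
        calc ∑ i ∈ F, om p.s (l - i) *
              ‖((kn ν z : ℝ) : ℂ) * (Ez p m t z (l - i) * (e1 (-i) z - e1 (-(i - c)) z))‖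
            ≤ ∑ i ∈ F, kn ν z * (|(c : ℝ)| * |z|) * (om p.s (l - i) * ‖Ez p m t z (l - i)‖) := by
              refine Finset.sum_le_sum fun i _ => ?_
              rw [norm_mul, norm_mul, RES_kn_norm ν z hν0]
              have h1 := RES_e1_sub i c z
              have h2 : 0 ≤ om p.s (l - i) * (kn ν z * ‖Ez p m t z (l - i)‖) :=
                mul_nonneg (hw i) (mul_nonneg (RES_kn_nonneg ν z hν0) (norm_nonneg _))
              calc om p.s (l - i) * (kn ν z * (‖Ez p m t z (l - i)‖ *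
                    ‖e1 (-i) z - e1 (-(i - c)) z‖))
                  = om p.s (l - i) * (kn ν z * ‖Ez p m t z (l - i)‖) *
                    ‖e1 (-i) z - e1 (-(i - c)) z‖ := by ring
                _ ≤ om p.s (l - i) * (kn ν z * ‖Ez p m t z (l - i)‖) * (|(c : ℝ)| * |z|) :=
                    mul_le_mul_of_nonneg_left h1 h2
                _ = _ := by ring
          _ = kn ν z * (|(c : ℝ)| * |z|) *
                ∑ i ∈ F, om p.s (l - i) * ‖Ez p m t z (l - i)‖ := by
              rw [Finset.mul_sum]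
          _ ≤ kn ν z * (|(c : ℝ)| * |z|) * Real.exp (q * |z|) :=
              mul_le_mul_of_nonneg_left ((RES_sum p.s _ l (E1 z) F).trans (E2 z))
                (mul_nonneg (RES_kn_nonneg ν z hν0) (by positivity))
          _ = |(c : ℝ)| * (kn ν z * (|z| * Real.exp (q * |z|))) := by ring)
    have hD2 : ∀ i : ℤ,
        ∫ z, ((kn ν z : ℝ) : ℂ) * (Ez p m t z (l - i) * (e1 (-i) z - e1 (-(i - c)) z)) =
          Cj p (ph ν) m t l i - Cj p (ph ν) m t (l - c) (i - c) :=
      fun i => (hD i).2.symm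
    simp only [hD2] at s1 s2
    rw [integral_const_mul, k4] at s2
    refine ⟨s1, s2.trans ?_⟩
    calc |(c : ℝ)| * (1 / (ν * (ν - q) ^ 2)) ≤ |(c : ℝ)| * (4 / ν ^ 3) :=
          mul_le_mul_of_nonneg_left b2 (abs_nonneg _)
      _ = 4 * |(c : ℝ)| / ν ^ 3 := by ring

end Pool.SQGA
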