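import Pool.Agent.Work.MP_a2fcf1_an_ar.I1

set_option autoImplicit false

/-! # Block RIA (helper84): integral formula for `X ^ α - Y ^ α` -/

namespace Pool.SQGA

open Set MeasureTheory

theorem p_RIA : Stmt_RIA := by
  intro α h0 h1
  have hp : α ∈ Ioo (0 : ℝ) 1 := ⟨h0, h1⟩
  have hpos : 0 < ∫ t in Ioi (0 : ℝ), Real.rpowIntegrand₀₁ α t 1 :=
    Real.integral_rpowIntegrand₀₁_one_pos hp
  refine ⟨(∫ t in Ioi (0 : ℝ), Real.rpowIntegrand₀₁ α t 1)⁻¹, inv_pos.2 hpos, ?_⟩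
  intro X Y hX hY
  have iX := Real.integrableOn_rpowIntegrand₀₁_Ioi hp hX.le
  have iY := Real.integrableOn_rpowIntegrand₀₁_Ioi hp hY.le
  have he : (fun r : ℝ => r ^ α * (1 / (r + Y) - 1 / (r + X))) =
      fun r => Real.rpowIntegrand₀₁ α r X - Real.rpowIntegrand₀₁ α r Y := by
    funext r
    unfold Real.rpowIntegrand₀₁
    rw [one_div, one_div]
    ring
  rw [he]
  refine ⟨iX.sub iY, ?_⟩
  rw [integral_sub iX iY, mul_sub]
  rw [← Real.rpow_eq_const_mul_integral hp hX.le, ← Real.rpow_eq_const_mul_integral hp hY.le]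

end Pool.SQGA
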