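import Pool.Agent.Work.MP_a2fcf1_an_ar.I1

/-! # MP_a2fcf1_an (helper61), block RIB -/

set_option autoImplicit false

namespace Pool.SQGA

open Set MeasureTheory

theorem p_RIB : Stmt_RIB := by
  intro α hα hα2
  have hd : 0 < 1 / 2 - α := by linarith
  refine ⟨1 + 1 / (1 / 2 - α), by positivity, ?_⟩
  intro M hM
  have hM2 : 0 < M ^ 2 := by positivity
  set f : ℝ → ℝ := fun r => r ^ α / √(r + M ^ 2) ^ 3 with hf
  have hcont : ContinuousOn f (Ioi 0) := by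
    refine ContinuousOn.div ?_ ?_ ?_
    · exact ContinuousOn.rpow_const continuousOn_id (fun x hx => Or.inl (ne_of_gt hx))
    · fun_prop
    · intro x hx
      have hx' : (0 : ℝ) < x := hx
      have : 0 < √(x + M ^ 2) := Real.sqrt_pos.2 (by positivity)
      positivity
  have hpos : ∀ r, 0 < r → 0 ≤ f r := by
    intro r hr
    show 0 ≤ r ^ α / √(r + M ^ 2) ^ 3
    positivity
  have hb1 : ∀ r ∈ Ioc 0 (M ^ 2), f r ≤ M ^ (2 * α - 3) := by
    intro r hr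
    have h1 : r ^ α ≤ M ^ (2 * α) := by
      have h2 : (M ^ 2) ^ α = M ^ (2 * α) := by
        rw [← Real.rpow_natCast M 2, ← Real.rpow_mul hM.le]
        norm_num
      rw [← h2]
      exact Real.rpow_le_rpow hr.1.le hr.2 hα.le
    have h3 : M ≤ √(r + M ^ 2) := Real.le_sqrt_of_sq_le (by linarith [hr.1])
    have h4 : M ^ 3 ≤ √(r + M ^ 2) ^ 3 := pow_le_pow_left₀ hM.le h3 3
    have h5 : M ^ (2 * α - 3) = M ^ (2 * α) / M ^ 3 := by
      rw [Real.rpow_sub hM]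
      norm_num
    rw [h5]
    show r ^ α / √(r + M ^ 2) ^ 3 ≤ _
    exact div_le_div₀ (by positivity) h1 (by positivity) h4
  have hb2 : ∀ r ∈ Ioi (M ^ 2), f r ≤ r ^ (α - 3 / 2) := by
    intro r hr
    have hr0 : 0 < r := hM2.trans hr
    have h3 : √r ≤ √(r + M ^ 2) := Real.sqrt_le_sqrt (by linarith)
    have hs : 0 < √r := Real.sqrt_pos.2 hr0
    have h4 : √r ^ 3 ≤ √(r + M ^ 2) ^ 3 := pow_le_pow_left₀ hs.le h3 3
    have h5 : r ^ (α - 3 / 2) = r ^ α / √r ^ 3 := by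
      rw [Real.rpow_sub hr0, Real.sqrt_eq_rpow, ← Real.rpow_natCast, ← Real.rpow_mul hr0.le]
      norm_num
    rw [h5]
    show r ^ α / √(r + M ^ 2) ^ 3 ≤ _
    exact div_le_div_of_nonneg_left (by positivity) (by positivity) h4
  have hlt : α - 3 / 2 < -1 := by linarith
  have hsub1 : Ioc 0 (M ^ 2) ⊆ Ioi (0 : ℝ) := fun x hx => hx.1
  have hsub2 : Ioi (M ^ 2) ⊆ Ioi (0 : ℝ) := fun x hx => hM2.trans hx
  have i1 : IntegrableOn f (Ioc 0 (M ^ 2)) := by
    have i0 : IntegrableOn (fun _ : ℝ => M ^ (2 * α - 3)) (Ioc 0 (M ^ 2)) := by simp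
    refine Integrable.mono' i0 ((hcont.mono hsub1).aestronglyMeasurable measurableSet_Ioc) ?_
    refine ae_restrict_of_forall_mem measurableSet_Ioc fun r hr => ?_
    rw [Real.norm_of_nonneg (hpos r hr.1)]
    exact hb1 r hr
  have i2g := integrableOn_Ioi_rpow_of_lt hlt hM2
  have i2 : IntegrableOn f (Ioi (M ^ 2)) := by
    refine Integrable.mono' i2g ((hcont.mono hsub2).aestronglyMeasurable measurableSet_Ioi) ?_
    refine ae_restrict_of_forall_mem measurableSet_Ioi fun r hr => ?_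
    rw [Real.norm_of_nonneg (hpos r (hM2.trans hr))]
    exact hb2 r hr
  have hun : Ioc 0 (M ^ 2) ∪ Ioi (M ^ 2) = Ioi (0 : ℝ) := Ioc_union_Ioi_eq_Ioi hM2.le
  refine ⟨by rw [← hun]; exact i1.union i2, ?_⟩
  rw [← hun, setIntegral_union (Ioc_disjoint_Ioi le_rfl) measurableSet_Ioi i1 i2]
  have e1 : ∫ r in Ioc 0 (M ^ 2), f r ≤ M ^ (2 * α - 1) := by
    have h1 : ∫ r in Ioc 0 (M ^ 2), f r ≤ ∫ r in Ioc 0 (M ^ 2), M ^ (2 * α - 3) :=
      setIntegral_mono_on i1 (by simp) measurableSet_Ioc hb1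
    refine h1.trans (le_of_eq ?_)
    rw [setIntegral_const, Measure.real, Real.volume_Ioc, sub_zero,
      ENNReal.toReal_ofReal hM2.le, smul_eq_mul, ← Real.rpow_natCast M 2, ← Real.rpow_add hM]
    congr 1
    push_cast
    ring
  have e2 : ∫ r in Ioi (M ^ 2), f r ≤ 1 / (1 / 2 - α) * M ^ (2 * α - 1) := by
    have h1 : ∫ r in Ioi (M ^ 2), f r ≤ ∫ r in Ioi (M ^ 2), r ^ (α - 3 / 2) :=
      setIntegral_mono_on i2 i2g measurableSet_Ioi hb2
    refine h1.trans (le_of_eq ?_)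
    rw [integral_Ioi_rpow_of_lt hlt hM2]
    have h2 : (M ^ 2) ^ (α - 3 / 2 + 1) = M ^ (2 * α - 1) := by
      rw [← Real.rpow_natCast M 2, ← Real.rpow_mul hM.le]
      congr 1
      push_cast
      ring
    rw [h2]
    have h3 : α - 3 / 2 + 1 = -(1 / 2 - α) := by ring
    rw [h3]
    field_simp
  calc (∫ r in Ioc 0 (M ^ 2), f r) + ∫ r in Ioi (M ^ 2), f r ≤
        M ^ (2 * α - 1) + 1 / (1 / 2 - α) * M ^ (2 * α - 1) := add_le_add e1 e2
    _ = (1 + 1 / (1 / 2 - α)) * M ^ (2 * α - 1) := by ring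

end Pool.SQGA
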