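import Pool.Agent.Work.MP_a2fcf1_an_ar.I1

/-! # MP_a2fcf1_an (helper61), block RIM -/

set_option autoImplicit false

namespace Pool.SQGA

open Set MeasureTheory

theorem p_RIM : Stmt_RIM := by
  have hp : (1 / 2 : ℝ) ∈ Ioo (0 : ℝ) 1 := ⟨by norm_num, by norm_num⟩
  refine ⟨(∫ t in Ioi 0, Real.rpowIntegrand₀₁ (1 / 2) t 1)⁻¹,
    inv_pos.2 (Real.integral_rpowIntegrand₀₁_one_pos hp), ?_⟩
  intro X hX
  have heq : EqOn (fun r : ℝ => X⁻¹ * Real.rpowIntegrand₀₁ (1 / 2) r X)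
      (fun r : ℝ => r ^ (-(1 / 2) : ℝ) / (r + X)) (Ioi 0) := by
    intro r hr
    have hr' : (0 : ℝ) < r := hr
    show X⁻¹ * Real.rpowIntegrand₀₁ (1 / 2) r X = r ^ (-(1 / 2) : ℝ) / (r + X)
    rw [Real.rpowIntegrand₀₁_eq_pow_div hp hr'.le hX.le]
    have h1 : (1 / 2 - 1 : ℝ) = -(1 / 2) := by norm_num
    rw [h1]
    field_simp
  refine ⟨?_, ?_⟩
  · refine IntegrableOn.congr_fun ?_ heq measurableSet_Ioi
    exact (Real.integrableOn_rpowIntegrand₀₁_Ioi hp hX.le).const_mul _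
  · have h1 := Real.rpow_eq_const_mul_integral hp hX.le
    have h2 : ∫ r in Ioi (0 : ℝ), r ^ (-(1 / 2) : ℝ) / (r + X) =
        X⁻¹ * ∫ r in Ioi (0 : ℝ), Real.rpowIntegrand₀₁ (1 / 2) r X := by
      rw [← setIntegral_congr_fun measurableSet_Ioi heq, integral_const_mul]
    have h3 : X ^ (-(1 / 2) : ℝ) = X⁻¹ * X ^ (1 / 2 : ℝ) := by
      rw [← Real.rpow_neg_one, ← Real.rpow_add hX]
      norm_num
    rw [h2, h3, h1]
    ring

end Pool.SQGA
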