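import Pool.Agent.Work.MP_a2fcf1_an_ar.I1

/-! # Block RKR (MP_a2fcf1_an): kernel representation of the conjugated resolvent -/

set_option autoImplicit false

namespace Pool.SQGA

open Set MeasureTheory

noncomputable section

namespace X_RKR

theorem norm_e1 (l : ℤ) (y : ℝ) : ‖e1 l y‖ = 1 := by
  unfold e1
  have h : (l : ℂ) * (y : ℂ) = (((l : ℝ) * y : ℝ) : ℂ) := by push_cast; rfl
  rw [h, mul_comm]
  exact Complex.norm_exp_ofReal_mul_I _

theorem e1_add (a b : ℤ) (y : ℝ) : e1 (a + b) y = e1 a y * e1 b y := by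
  unfold e1
  rw [← Complex.exp_add]
  congr 1
  push_cast
  ring

theorem continuous_e1 (l : ℤ) : Continuous (e1 l) := by
  unfold e1
  fun_prop

end X_RKR

open X_RKR

theorem p_RKR (h1 : Stmt_KER) (h2 : Stmt_EZW) (h3 : Stmt_EEW) (h4 : Stmt_EEB) (h5 : Stmt_OMS) :
    Stmt_RKR := by
  intro p hp m t ν l l' ht hν
  have hS : ∀ m : ℤ, Summable fun j => ‖ee p m t j‖ := fun m =>
    h5.2.2.2.1 p.s _ hp.s_pos.le (h3 p hp m t ht).1
  have hee : ∀ (m j : ℤ), ‖ee p m t j‖ ≤ 1 := fun m j => ((h4 p hp).1 m t j ht).1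
  have hSs : ∀ j : ℤ, Summable fun a => ‖ee p (-m) t (j - a)‖ := fun j =>
    (Equiv.subLeft j).summable_iff.2 (hS (-m))
  have hkn : Integrable (fun z => kn ν z) := by
    have h := ((h1 ν hν).2 0 le_rfl hν).1
    simpa using h
  -- bound of the kernel
  have hEb : ∀ z, ‖Ez p m t z (l - l') * e1 (-l') z‖ ≤ ∑' a, ‖ee p (-m) t (l - l' - a)‖ := by
    intro z
    rw [norm_mul, norm_e1, mul_one]
    have hs := (h2 p hp m t z ht).2.2.2.1 (l - l')
    rw [← hs.tsum_eq]
    have hle : ∀ a, ‖ee p (-m) t (l - l' - a) * (ee p m t a * e1 (-a) z)‖ ≤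
        ‖ee p (-m) t (l - l' - a)‖ := by
      intro a
      rw [norm_mul, norm_mul, norm_e1, mul_one]
      exact mul_le_of_le_one_right (norm_nonneg _) (hee m a)
    have hsn : Summable fun a => ‖ee p (-m) t (l - l' - a) * (ee p m t a * e1 (-a) z)‖ :=
      Summable.of_nonneg_of_le (fun _ => norm_nonneg _) hle (hSs (l - l'))
    exact (norm_tsum_le_tsum_norm hsn).trans (hsn.tsum_le_tsum hle (hSs (l - l')))
  have hcont : Continuous fun z => Ez p m t z (l - l') * e1 (-l') z :=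
    ((h2 p hp m t 0 ht).2.2.2.2 (l - l')).mul (continuous_e1 _)
  have hint : Integrable (fun z : ℝ => ((kn ν z : ℝ) : ℂ) *
      (Ez p m t z (l - l') * e1 (-l') z)) := by
    have h := hkn.ofReal (𝕜 := ℂ)
    exact h.mul_bdd hcont.aestronglyMeasurable (Filter.Eventually.of_forall hEb)
  refine ⟨hint, ?_⟩
  -- interchange
  obtain ⟨c, hc⟩ : ∃ c : ℤ → ℂ, c = fun b => ee p (-m) t (l - b) * ee p m t (b - l') := ⟨_, rfl⟩
  have hcs : Summable fun b => ‖c b‖ := by
    refine Summable.of_nonneg_of_le (fun _ => norm_nonneg _) (fun b => ?_) (hSs l)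
    rw [hc]
    show ‖ee p (-m) t (l - b) * ee p m t (b - l')‖ ≤ _
    rw [norm_mul]
    exact mul_le_of_le_one_right (norm_nonneg _) (hee m _)
  obtain ⟨F, hF⟩ : ∃ F : ℤ → ℝ → ℂ, F = fun b z => c b * (((kn ν z : ℝ) : ℂ) * e1 (-b) z) :=
    ⟨_, rfl⟩
  have hFi : ∀ b, Integrable (F b) := by
    intro b
    rw [hF]
    exact ((h1 ν hν).1 b).1.const_mul (c b)
  have hFn : ∀ b, ∫ z, ‖F b z‖ = ‖c b‖ * ∫ z, |kn ν z| := by
    intro b
    rw [← integral_const_mul]
    congr 1
    funext z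
    rw [hF]
    show ‖c b * (((kn ν z : ℝ) : ℂ) * e1 (-b) z)‖ = _
    rw [norm_mul, norm_mul, norm_e1, mul_one, Complex.norm_real, Real.norm_eq_abs]
  have hsum := hasSum_integral_of_summable_integral_norm hFi (by
    simp_rw [hFn]
    exact hcs.mul_right _)
  have hterm : ∀ b, ∫ z, F b z = ee p (-m) t (l - b) * (((ph ν b : ℝ) : ℂ) * ee p m t (b - l')) := by
    intro b
    rw [hF]
    show ∫ z, c b * (((kn ν z : ℝ) : ℂ) * e1 (-b) z) = _
    rw [integral_const_mul, ← ((h1 ν hν).1 b).2, hc]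
    ring
  have hpt : ∀ z, ∑' b, F b z = ((kn ν z : ℝ) : ℂ) * (Ez p m t z (l - l') * e1 (-l') z) := by
    intro z
    have hs := (h2 p hp m t z ht).2.2.2.1 (l - l')
    have h6 : HasSum ((fun b => F b z) ∘ (Equiv.addRight l'))
        (((kn ν z : ℝ) : ℂ) * (Ez p m t z (l - l') * e1 (-l') z)) := by
      have h7 := (hs.mul_right (e1 (-l') z)).mul_left ((kn ν z : ℝ) : ℂ)
      have h8 : ((fun b => F b z) ∘ (Equiv.addRight l')) = fun a => ((kn ν z : ℝ) : ℂ) *
          (ee p (-m) t (l - l' - a) * (ee p m t a * e1 (-a) z) * e1 (-l') z) := by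
        funext a
        show F (a + l') z = _
        have e1' : l - (a + l') = l - l' - a := by ring
        have e2' : a + l' - l' = a := by ring
        have e3' : -(a + l') = -a + -l' := by ring
        rw [hF, hc]
        show ee p (-m) t (l - (a + l')) * ee p m t (a + l' - l') *
          (((kn ν z : ℝ) : ℂ) * e1 (-(a + l')) z) = _
        rw [e1', e2', e3', e1_add]
        ring
      rw [h8]
      exact h7
    exact ((Equiv.addRight l').hasSum_iff.1 h6).tsum_eq
  unfold Cj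
  have h8 := hsum.tsum_eq
  simp_rw [hterm, hpt] at h8
  exact h8

end

end Pool.SQGA
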