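import Pool.Agent.Work.MP_a2fcf1_an_ar.I3

/-! # SQG, analytic data: block SML (the fast part is tiny) -/

set_option autoImplicit false

namespace Pool.SQGA

open Set MeasureTheory
open Pool.Agent.Work.MP_a2fcf1_an_h64 (cr sc eu n1 ex GloballyRegular n1_cast)
open Pool.SQGF (nq NB Sym Fr Adm Sw wt Y TT GS BB RD)

noncomputable section

lemma SML_u {s : ℝ} (hs : 0 < s) :
    Summable (fun m : ℤ => |(m : ℝ)| ^ 16 * Real.exp (-(s * |(m : ℝ)|))) := by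
  have h := Real.summable_pow_mul_exp_neg_nat_mul 16 hs
  refine Summable.of_nat_of_neg ?_ ?_
  · refine h.congr fun n => ?_
    simp
  · refine h.congr fun n => ?_
    simp

lemma SML_v : Summable (fun l : ℤ => ((1 + |(l : ℝ)|) ^ 4)⁻¹) := by
  have h0 : Summable (fun n : ℕ => ((n : ℝ) ^ 4)⁻¹) := by
    simp
  have h := (summable_nat_add_iff 1).2 h0
  refine Summable.of_nat_of_neg ?_ ?_
  · refine h.congr fun n => ?_
    push_cast
    simp [add_comm]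
  · refine h.congr fun n => ?_
    push_cast
    simp [add_comm]

lemma SML_alg {A D E N m l e : ℝ} (hA : 0 ≤ A) (hD : 0 < D) (_hE : 0 ≤ E) (hN : 1 ≤ N)
    (hm : 1 ≤ m) (hl : 0 ≤ l) (_he : 0 ≤ e)
    (h : A * (1 + l) ^ 5 ≤ D * (1 + N * m) ^ 5 * (E * e)) :
    (1 + (N * m + l)) ^ 6 * A ^ 2 ≤
      D ^ 2 * E ^ 2 * N ^ 16 * 2 ^ 16 * (m ^ 16 * e ^ 2 * ((1 + l) ^ 4)⁻¹) := by
  have hL : 0 < 1 + l := by linarith
  have hNm : 1 ≤ N * m := by nlinarith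
  have h1 : 1 + (N * m + l) ≤ (1 + N * m) * (1 + l) := by nlinarith
  have h2 : (1 + (N * m + l)) ^ 6 ≤ ((1 + N * m) * (1 + l)) ^ 6 :=
    pow_le_pow_left₀ (by linarith) h1 6
  have h3 : (A * (1 + l) ^ 5) ^ 2 ≤ (D * (1 + N * m) ^ 5 * (E * e)) ^ 2 :=
    pow_le_pow_left₀ (by positivity) h 2
  have h4 : (1 + N * m) ^ 16 ≤ (2 * (N * m)) ^ 16 :=
    pow_le_pow_left₀ (by linarith) (by linarith) 16
  have h5 : (1 + (N * m + l)) ^ 6 * A ^ 2 * (1 + l) ^ 4 ≤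
      D ^ 2 * E ^ 2 * N ^ 16 * 2 ^ 16 * (m ^ 16 * e ^ 2) := by
    calc (1 + (N * m + l)) ^ 6 * A ^ 2 * (1 + l) ^ 4
        ≤ ((1 + N * m) * (1 + l)) ^ 6 * A ^ 2 * (1 + l) ^ 4 := by
          refine mul_le_mul_of_nonneg_right (mul_le_mul_of_nonneg_right h2 (by positivity))
            (by positivity)
      _ = (1 + N * m) ^ 6 * (A * (1 + l) ^ 5) ^ 2 := by ring
      _ ≤ (1 + N * m) ^ 6 * (D * (1 + N * m) ^ 5 * (E * e)) ^ 2 :=
          mul_le_mul_of_nonneg_left h3 (by positivity)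
      _ = D ^ 2 * E ^ 2 * e ^ 2 * (1 + N * m) ^ 16 := by ring
      _ ≤ D ^ 2 * E ^ 2 * e ^ 2 * (2 * (N * m)) ^ 16 :=
          mul_le_mul_of_nonneg_left h4 (by positivity)
      _ = D ^ 2 * E ^ 2 * N ^ 16 * 2 ^ 16 * (m ^ 16 * e ^ 2) := by ring
  rw [← mul_assoc, ← div_eq_mul_inv, le_div_iff₀ (by positivity)]
  exact h5

theorem p_SML : Stmt_SML := by
  intro s D hs hD
  have hu := SML_u hs
  have hv := SML_v
  have hG : Summable (fun k : ℤ × ℤ => (|(k.1 : ℝ)| ^ 16 * Real.exp (-(s * |(k.1 : ℝ)|))) *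
      ((1 + |(k.2 : ℝ)|) ^ 4)⁻¹) :=
    hu.mul_of_nonneg hv (fun m => by positivity) (fun l => by positivity)
  have hG0 : 0 ≤ ∑' k : ℤ × ℤ, (|(k.1 : ℝ)| ^ 16 * Real.exp (-(s * |(k.1 : ℝ)|))) *
      ((1 + |(k.2 : ℝ)|) ^ 4)⁻¹ := tsum_nonneg fun k => by positivity
  set W := ∑' k : ℤ × ℤ, (|(k.1 : ℝ)| ^ 16 * Real.exp (-(s * |(k.1 : ℝ)|))) *
      ((1 + |(k.2 : ℝ)|) ^ 4)⁻¹ with hW
  refine ⟨D ^ 2 * 2 ^ 16 * W + 1, by positivity, ?_⟩
  intro N E a hN hE ha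
  have hN0 : (N : ℤ) ≠ 0 := by exact_mod_cast (by omega : N ≠ 0)
  have hN1 : (1 : ℝ) ≤ N := by exact_mod_cast hN
  set F : ℤ × ℤ → ℝ := fun k => if k.1 = 0 then 0 else (1 + (n1 k : ℝ)) ^ 6 * ‖up N a k‖ ^ 2
    with hF
  let φ : ℤ × ℤ → ℤ × ℤ := fun k => ((N : ℤ) * k.1, k.2)
  have hφ : Function.Injective φ := by
    intro k k' h
    have h1 := congrArg Prod.fst h
    have h2 := congrArg Prod.snd h
    exact Prod.ext (mul_left_cancel₀ hN0 h1) h2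
  have hsupp : ∀ k, k ∉ Set.range φ → F k = 0 := by
    intro k hk
    simp only [hF]
    split_ifs with h0
    · rfl
    · have : up N a k = 0 := by
        unfold up
        rw [if_neg]
        rintro ⟨m, hm⟩
        exact hk ⟨(m, k.2), Prod.ext hm.symm rfl⟩
      rw [this, norm_zero]
      ring
  have hbd : ∀ k, F (φ k) ≤ D ^ 2 * E ^ 2 * (N : ℝ) ^ 16 * 2 ^ 16 *
      ((|(k.1 : ℝ)| ^ 16 * Real.exp (-(s * |(k.1 : ℝ)|))) * ((1 + |(k.2 : ℝ)|) ^ 4)⁻¹) := by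
    intro k
    by_cases h0 : k.1 = 0
    · have : F (φ k) = 0 := by
        simp only [hF, φ]
        rw [if_pos (by rw [h0, mul_zero])]
      rw [this]
      positivity
    · have h1 : (N : ℤ) * k.1 ≠ 0 := mul_ne_zero hN0 h0
      have h2 : up N a (φ k) = a k := by
        show up N a ((N : ℤ) * k.1, k.2) = a k
        unfold up
        simp only
        rw [if_pos (Dvd.intro _ rfl), Int.mul_ediv_cancel_left _ hN0]
      have h3 : (n1 (φ k) : ℝ) = N * |(k.1 : ℝ)| + |(k.2 : ℝ)| := by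
        rw [n1_cast]
        show |(((N : ℤ) * k.1 : ℤ) : ℝ)| + |(k.2 : ℝ)| = _
        push_cast
        rw [abs_mul, Nat.abs_cast]
      have h4 : F (φ k) = (1 + (N * |(k.1 : ℝ)| + |(k.2 : ℝ)|)) ^ 6 * ‖a k‖ ^ 2 := by
        simp only [hF]
        rw [if_neg h1, h2, h3]
      have hm : (1 : ℝ) ≤ |(k.1 : ℝ)| := by
        have := Int.one_le_abs h0
        exact_mod_cast this
      have h5 := SML_alg (norm_nonneg (a k)) hD hE hN1 hm (abs_nonneg (k.2 : ℝ))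
        (Real.exp_nonneg _) (ha k h0)
      have h6 : Real.exp (-(s / 2 * |(k.1 : ℝ)|)) ^ 2 = Real.exp (-(s * |(k.1 : ℝ)|)) := by
        rw [← Real.exp_nat_mul]
        congr 1
        push_cast
        ring
      rw [h6] at h5
      rw [h4]
      exact h5
  have hnn : ∀ k, 0 ≤ F (φ k) := by
    intro k
    simp only [hF]
    split_ifs
    · exact le_rfl
    · positivity
  have hS1 : Summable (fun k => F (φ k)) :=
    Summable.of_nonneg_of_le hnn hbd (hG.mul_left _)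
  have hS : Summable F := (hφ.summable_iff hsupp).1 hS1
  refine ⟨hS, ?_⟩
  have hts : ∑' k, F k = ∑' k, F (φ k) := by
    refine (hφ.tsum_eq ?_).symm
    intro k hk
    by_contra hcon
    exact hk (hsupp k hcon)
  rw [hts]
  calc ∑' k, F (φ k) ≤ ∑' k : ℤ × ℤ, D ^ 2 * E ^ 2 * (N : ℝ) ^ 16 * 2 ^ 16 *
      ((|(k.1 : ℝ)| ^ 16 * Real.exp (-(s * |(k.1 : ℝ)|))) * ((1 + |(k.2 : ℝ)|) ^ 4)⁻¹) :=
        hS1.tsum_le_tsum hbd (hG.mul_left _)
    _ = D ^ 2 * E ^ 2 * (N : ℝ) ^ 16 * 2 ^ 16 * W := by rw [tsum_mul_left]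
    _ ≤ (D ^ 2 * 2 ^ 16 * W + 1) * (N : ℝ) ^ 16 * E ^ 2 := by
        have : 0 ≤ (N : ℝ) ^ 16 * E ^ 2 := by positivity
        nlinarith

end

end Pool.SQGA
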