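import Pool.Agent.Work.MP_a2fcf1_an_ar.I2

/-! # Supercritical SQG, block SOL: existence for the transported system (helper81) -/

set_option autoImplicit false

namespace Pool.SQGA

open Set MeasureTheory
open Pool.Agent.Work.MP_a2fcf1_an_h64 (cr sc eu n1)

theorem SOL_As_nonneg (p : Par) : 0 ≤ p.As := by
  unfold Par.As om
  exact tsum_nonneg fun l => by positivity

/-- the Lipschitz constants -/
noncomputable def SOL_rho (p : Par) (C R β : ℝ) (k : ℤ × ℤ) (r : ℝ) : ℝ :=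
  if k.1 = 0 then
    C * R * (|(k.2 : ℝ)| * min 1 (|(k.2 : ℝ)| / p.N)) * Wt p β r (0, k.2)
  else
    (p.κ * (C * (r * p.As) * (p.N * |(k.1 : ℝ)|) ^ (2 * p.α)) +
      (2 * p.As + C * R * (1 + n1 k))) * wv p β r k

theorem SOL_cont_Wt (p : Par) (β : ℝ) (k : ℤ × ℤ) : Continuous fun t => Wt p β t k := by
  unfold Wt
  fun_prop

theorem SOL_cont_wv (p : Par) (β : ℝ) (k : ℤ × ℤ) : Continuous fun t => wv p β t k := by
  unfold wv
  by_cases h : k.1 = 0
  · simp only [if_pos h]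
    exact continuous_const.mul (SOL_cont_Wt p β k)
  · simp only [if_neg h]
    refine Continuous.mul ?_ (SOL_cont_Wt p β k)
    unfold Ef
    fun_prop

theorem SOL_cont_rho (p : Par) (C R β : ℝ) (k : ℤ × ℤ) : Continuous (SOL_rho p C R β k) := by
  unfold SOL_rho
  by_cases h : k.1 = 0
  · simp only [if_pos h]
    exact continuous_const.mul (SOL_cont_Wt p β (0, k.2))
  · simp only [if_neg h]
    refine Continuous.mul ?_ (SOL_cont_wv p β k)
    fun_prop

theorem SOL_G_zero (p : Par) (t : ℝ) (k : ℤ × ℤ) : Gv p t (fun _ => 0) k = 0 := by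
  have h1 : Gl p t (fun _ => 0) k = 0 := by
    unfold Gl
    simp
  have h2 : ∀ j, Yv p t (fun _ => 0) j = 0 := by
    intro j
    unfold Yv
    simp
  have h3 : Gb p t (fun _ => 0) k = 0 := by
    unfold Gb
    simp [h2]
  unfold Gv
  rw [h1, h3]
  simp

theorem SOL_sub_Gl (p : Par) (t : ℝ) (x x' : ℤ × ℤ → ℂ) (k : ℤ × ℤ)
    (h : Summable fun l' => ‖Rm p t k.1 k.2 l' * x (k.1, l')‖)
    (h' : Summable fun l' => ‖Rm p t k.1 k.2 l' * x' (k.1, l')‖) :
    Gl p t x k - Gl p t x' k = Gl p t (fun k => x k - x' k) k := by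
  unfold Gl
  rw [← Summable.tsum_sub h.of_norm h'.of_norm]
  congr 1
  ext l'
  ring

theorem SOL_Wt_pos (p : Par) (β t : ℝ) (k : ℤ × ℤ) : 0 < Wt p β t k := by
  unfold Wt
  positivity

theorem SOL_Wt_mono (p : Par) {β t : ℝ} (hβ : 0 ≤ β) (ht : 0 ≤ t) (k : ℤ × ℤ) :
    Wt p β 0 k ≤ Wt p β t k := by
  unfold Wt
  refine div_le_div_of_nonneg_right (Real.exp_le_exp.2 ?_) (by positivity)
  have h1 : 0 ≤ β * t * (n1 k : ℝ) := by positivity
  nlinarith

theorem SOL_lam_nonneg {p : Par} (hp : p.Ok) (k : ℤ × ℤ) : 0 ≤ lam p k := by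
  unfold lam
  exact mul_nonneg hp.κ_pos.le (Real.rpow_nonneg (Real.sqrt_nonneg _) _)

theorem SOL_lam_ge {p : Par} (hp : p.Ok) {k : ℤ × ℤ} (hk : k.1 ≠ 0) :
    p.κ * (p.N : ℝ) ^ (2 * p.α) ≤ lam p k := by
  unfold lam
  refine mul_le_mul_of_nonneg_left ?_ hp.κ_pos.le
  refine Real.rpow_le_rpow (by positivity) ?_ (by linarith [hp.α_pos])
  have h1 : (1 : ℝ) ≤ |(k.1 : ℝ)| := by
    have h2 : (1 : ℤ) ≤ |k.1| := Int.one_le_abs hk
    exact_mod_cast h2
  have h2 : (p.N : ℝ) ≤ |((p.N : ℤ) * k.1 : ℤ)| := by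
    push_cast
    rw [abs_mul, abs_of_nonneg (by positivity : (0 : ℝ) ≤ (p.N : ℝ))]
    exact le_mul_of_one_le_right (by positivity) h1
  refine h2.trans ?_
  unfold eu Dk
  have h3 : |(((p.N : ℤ) * k.1 : ℤ) : ℝ)| = Real.sqrt ((((p.N : ℤ) * k.1 : ℤ) : ℝ) ^ 2) :=
    (Real.sqrt_sq_eq_abs _).symm
  rw [Int.cast_abs, h3]
  apply Real.sqrt_le_sqrt
  have h4 : (0 : ℝ) ≤ (k.2 : ℝ) ^ 2 := sq_nonneg _
  linarith

theorem SOL_decay {p : Par} (hp : p.Ok) {β t : ℝ} (hβ : 0 ≤ β) (ht : 0 ≤ t) (k : ℤ × ℤ) :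
    Real.exp (-(lam p k * t)) * wv p β 0 k ≤ wv p β t k := by
  have hW := SOL_Wt_mono p hβ ht k
  have hW0 := SOL_Wt_pos p β 0 k
  unfold wv
  by_cases hk : k.1 = 0
  · rw [if_pos hk, if_pos hk]
    have h1 : Real.exp (-(lam p k * t)) ≤ 1 := by
      rw [Real.exp_le_one_iff]
      have := mul_nonneg (SOL_lam_nonneg hp k) ht
      linarith
    have h2 : 0 ≤ min 1 ((1 + |(k.2 : ℝ)|) / (p.N : ℝ)) := by positivity
    calc Real.exp (-(lam p k * t)) * (min 1 ((1 + |(k.2 : ℝ)|) / p.N) * Wt p β 0 k)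
        ≤ 1 * (min 1 ((1 + |(k.2 : ℝ)|) / p.N) * Wt p β t k) := by
          refine mul_le_mul h1 (mul_le_mul_of_nonneg_left hW h2) ?_ zero_le_one
          exact mul_nonneg h2 hW0.le
      _ = _ := one_mul _
  · rw [if_neg hk, if_neg hk]
    have h0 : Ef p 0 = 1 := by
      unfold Ef
      simp
    have h1 : Real.exp (-(lam p k * t)) ≤ Ef p t := by
      unfold Ef
      apply Real.exp_le_exp.2
      have h2 := SOL_lam_ge hp hk
      have h3 : 0 ≤ p.κ * (p.N : ℝ) ^ (2 * p.α) * t :=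
        mul_nonneg (mul_nonneg hp.κ_pos.le (by positivity)) ht
      have h4 := mul_le_mul_of_nonneg_right h2 ht
      linarith
    rw [h0, one_mul]
    exact mul_le_mul h1 hW hW0.le (Real.exp_nonneg _)

theorem SOL_lam_neg (p : Par) (k : ℤ × ℤ) : lam p (-k) = lam p k := by
  unfold lam
  have h1 : Dk p (-k) = -Dk p k := by
    unfold Dk
    ext
    · simp
    · simp
  rw [h1, Pool.Agent.Work.MP_a2fcf1_an_h64.eu_neg]

/-- **Block SOL.** -/
theorem p_SOL (hLIA : Stmt_LIA) (hLIB : Stmt_LIB) (hLIC : Stmt_LIC) (hCTG : Stmt_CTG)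
    (hSYG : Stmt_SYG) (hTIM : Stmt_TIM) (hPIC : Stmt_PIC) (hWTB : Stmt_WTB)
    (_hGSM : Stmt_GSM) : Stmt_SOL := by
  intro α hα0 hα1
  obtain ⟨CA, hCA, hA⟩ := hLIA α hα0 hα1
  obtain ⟨CB, hCB, hB⟩ := hLIB
  obtain ⟨CC, hCC, hC⟩ := hLIC
  obtain ⟨C, hCdef⟩ : ∃ C : ℝ, C = max CA (max CB CC) := ⟨_, rfl⟩
  have hCA' : CA ≤ C := by rw [hCdef]; exact le_max_left _ _
  have hCB' : CB ≤ C := by rw [hCdef]; exact (le_max_left _ _).trans (le_max_right _ _)
  have hCC' : CC ≤ C := by rw [hCdef]; exact (le_max_right _ _).trans (le_max_right _ _)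
  have hC1 : 1 ≤ C := hCB.trans hCB'
  obtain ⟨c₁, C₁, hc0, hc2, hC₁, hT⟩ := hTIM C hC1
  refine ⟨c₁, C₁, hc0, hc2, hC₁, ?_⟩
  intro p hp hpα T R g hT0 hR0 hTA hTR hgs hg
  have hβ : 0 ≤ C₁ * R := by positivity
  have hAs := SOL_As_nonneg p
  have hTt := hT p hp T R hT0 hR0 hTA hTR
  have hβt : ∀ t ∈ Icc 0 T, C₁ * R * t ≤ p.s / 2 := fun t ht =>
    (mul_le_mul_of_nonneg_left ht.2 hβ).trans hTR
  have htA : ∀ t ∈ Icc 0 T, t * p.As ≤ 1 / 2 := fun t ht =>
    (mul_le_mul_of_nonneg_right ht.2 hAs).trans (hTA.trans hc2)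
  refine hPIC T R (lam p) (fun k t => wv p (C₁ * R) t k) (fun k => SOL_rho p C R (C₁ * R) k)
    (fun t x => Gv p t x) (fun k => if k.1 = 0 then 0 else g k) hT0 hR0 ?_ ?_ ?_ ?_ ?_ ?_ ?_ ?_ ?_
    (SOL_lam_neg p) ?_ ?_
  · exact fun k => (SOL_cont_wv p _ k).continuousOn
  · exact fun k t ht => ((hWTB p hp _ t hβ ht.1 (hβt t ht)).1 k).2.1
  · exact fun k => (SOL_cont_rho p C R _ k).continuousOn
  · intro x hx hxb k
    exact hCTG p hp _ T R x hβ hT0.le hTR (hTA.trans hc2) hR0.le hx hxb k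
  · intro t ht x x' d hd hx hx' hxx k
    have hdB : Bd p (C₁ * R) t d (fun k => x k - x' k) := hxx
    have hRx : Bd p (C₁ * R) t R x := hx
    have hRx' : Bd p (C₁ * R) t R x' := hx'
    obtain ⟨a1, a2, a3⟩ := hA p hp hpα _ t d _ hβ ht.1 (hβt t ht) (htA t ht) hd hdB
    obtain ⟨b1, -, b3⟩ := hA p hp hpα _ t R _ hβ ht.1 (hβt t ht) (htA t ht) hR0.le hRx
    obtain ⟨c1, -, c3⟩ := hA p hp hpα _ t R _ hβ ht.1 (hβt t ht) (htA t ht) hR0.le hRx'
    have hsub := SOL_sub_Gl p t x x' k (b1 k) (c1 k)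
    by_cases hk : k.1 = 0
    · have hk' : k = (0, k.2) := by
        ext
        · exact hk
        · rfl
      have h1 := hC p hp _ t R d x x' hβ ht.1 (hβt t ht) (htA t ht) hR0.le hd hRx hRx' hdB k.2
      rw [← hk'] at h1
      have h2 : Gv p t x k - Gv p t x' k = -(Gb p t x k - Gb p t x' k) := by
        unfold Gv
        rw [b3 k hk, c3 k hk]
        ring
      show ‖Gv p t x k - Gv p t x' k‖ ≤ d * SOL_rho p C R (C₁ * R) k t
      rw [h2, norm_neg]
      refine h1.trans ?_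
      unfold SOL_rho
      rw [if_pos hk, ← hk']
      have h3 : 0 ≤ R * (|(k.2 : ℝ)| * min 1 (|(k.2 : ℝ)| / p.N)) * (d * Wt p (C₁ * R) t k) := by
        have := SOL_Wt_pos p (C₁ * R) t k
        positivity
      have h4 := mul_le_mul_of_nonneg_right hCC' h3
      calc CC * R * (|(k.2 : ℝ)| * min 1 (|(k.2 : ℝ)| / p.N)) * (d * Wt p (C₁ * R) t k)
          = CC * (R * (|(k.2 : ℝ)| * min 1 (|(k.2 : ℝ)| / p.N)) * (d * Wt p (C₁ * R) t k)) := by
            ring
        _ ≤ C * (R * (|(k.2 : ℝ)| * min 1 (|(k.2 : ℝ)| / p.N)) * (d * Wt p (C₁ * R) t k)) := h4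
        _ = _ := by ring
    · have h1 := hB p hp _ t R d x x' hβ ht.1 (hβt t ht) (htA t ht) hR0.le hd hRx hRx' hdB k hk
      have h2 := a2 k hk
      have h3 : Gv p t x k - Gv p t x' k =
          -((p.κ : ℂ) * Gl p t (fun k => x k - x' k) k) - (Gb p t x k - Gb p t x' k) := by
        unfold Gv
        rw [← hsub]
        ring
      show ‖Gv p t x k - Gv p t x' k‖ ≤ d * SOL_rho p C R (C₁ * R) k t
      rw [h3]
      refine (norm_sub_le _ _).trans ?_
      rw [norm_neg, norm_mul, Complex.norm_real, Real.norm_of_nonneg hp.κ_pos.le]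
      unfold SOL_rho
      rw [if_neg hk]
      have hw : 0 < wv p (C₁ * R) t k := ((hWTB p hp _ t hβ ht.1 (hβt t ht)).1 k).2.1
      have hpow : 0 ≤ (p.N * |(k.1 : ℝ)|) ^ (2 * α) := Real.rpow_nonneg (by positivity) _
      have e1 : 0 ≤ (t * p.As) * (p.N * |(k.1 : ℝ)|) ^ (2 * α) * (d * wv p (C₁ * R) t k) := by
        have := ht.1
        positivity
      have e2 : 0 ≤ R * (1 + (n1 k : ℝ)) * (d * wv p (C₁ * R) t k) := by positivity
      have e3 := mul_le_mul_of_nonneg_right hCA' e1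
      have e4 := mul_le_mul_of_nonneg_right hCB' e2
      have e5 := mul_le_mul_of_nonneg_left h2 hp.κ_pos.le
      have e6 := mul_le_mul_of_nonneg_left e3 hp.κ_pos.le
      rw [hpα]
      calc p.κ * ‖Gl p t (fun k => x k - x' k) k‖ + ‖Gb p t x k - Gb p t x' k‖
          ≤ p.κ * (CA * (t * p.As) * (p.N * |(k.1 : ℝ)|) ^ (2 * α) * (d * wv p (C₁ * R) t k)) +
            (2 * p.As + CB * R * (1 + n1 k)) * (d * wv p (C₁ * R) t k) := add_le_add e5 h1
        _ = p.κ * (CA * ((t * p.As) * (p.N * |(k.1 : ℝ)|) ^ (2 * α) *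
              (d * wv p (C₁ * R) t k))) + 2 * p.As * (d * wv p (C₁ * R) t k) +
            CB * (R * (1 + (n1 k : ℝ)) * (d * wv p (C₁ * R) t k)) := by ring
        _ ≤ p.κ * (C * ((t * p.As) * (p.N * |(k.1 : ℝ)|) ^ (2 * α) *
              (d * wv p (C₁ * R) t k))) + 2 * p.As * (d * wv p (C₁ * R) t k) +
            C * (R * (1 + (n1 k : ℝ)) * (d * wv p (C₁ * R) t k)) := by linarith
        _ = _ := by ring
  · intro t ht k
    by_cases hk : k.1 = 0
    · have hk' : k = (0, k.2) := by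
        ext
        · exact hk
        · rfl
      have h1 := (hTt t ht).2 k.2
      rw [← hk'] at h1
      refine le_trans (le_of_eq ?_) h1
      refine intervalIntegral.integral_congr ?_
      intro r _
      show Real.exp (-(lam p k * (t - r))) * SOL_rho p C R (C₁ * R) k r = _
      unfold SOL_rho
      rw [if_pos hk, ← hk']
    · have h1 := (hTt t ht).1 k hk
      refine le_trans (le_of_eq ?_) h1
      refine intervalIntegral.integral_congr ?_
      intro r _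
      show Real.exp (-(lam p k * (t - r))) * SOL_rho p C R (C₁ * R) k r = _
      unfold SOL_rho
      rw [if_neg hk]
  · exact fun t _ k => SOL_G_zero p t k
  · intro k
    show ‖(if k.1 = 0 then (0 : ℂ) else g k)‖ ≤ R / 2 * wv p (C₁ * R) 0 k
    have hw : 0 < wv p (C₁ * R) 0 k :=
      ((hWTB p hp _ 0 hβ le_rfl (by rw [mul_zero]; linarith [hp.s_pos])).1 k).2.1
    by_cases hk : k.1 = 0
    · rw [if_pos hk, norm_zero]
      positivity
    · rw [if_neg hk]
      refine (hg k hk).trans (le_of_eq ?_)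
      unfold wv Ef Wt
      rw [if_neg hk]
      simp
  · exact fun t ht k => SOL_decay hp hβ ht.1 k
  · intro t ht x _ hxs k
    exact (hSYG p hp t x ht.1 hxs).2 k
  · intro k
    show (if (-k).1 = 0 then (0 : ℂ) else g (-k)) =
      (starRingEnd ℂ) (if k.1 = 0 then (0 : ℂ) else g k)
    by_cases hk : k.1 = 0
    · have hk2 : (-k).1 = 0 := by
        show -k.1 = 0
        rw [hk, neg_zero]
      rw [if_pos hk, if_pos hk2, map_zero]
    · have hk2 : (-k).1 ≠ 0 := by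
        show -k.1 ≠ 0
        exact neg_ne_zero.mpr hk
      rw [if_neg hk, if_neg hk2, hgs k]

end Pool.SQGA
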