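import Pool.Agent.Work.MP_a2fcf1_an_ar.I4

/-! # Block ST1: the first time interval at the real frequencies -/

set_option autoImplicit false

namespace Pool.SQGA

open Set MeasureTheory
open Pool.Agent.Work.MP_a2fcf1_an_h64 (cr sc eu n1 ex GloballyRegular)
open Pool.SQGF (RD)

theorem p_ST1 (hSOL : Stmt_SOL) (hSYA : Stmt_SYA) (hUPB : Stmt_UPB) (hUPC : Stmt_UPC)
    (hRDA : Stmt_RDA) (hAOD : Stmt_AOD) : Stmt_ST1 := by
  intro α h0 h1
  obtain ⟨c₁, C₁, hc0, hc1, hC, hS⟩ := hSOL α h0 h1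
  refine ⟨c₁, C₁, hc0, hc1, hC, ?_⟩
  intro p hp hpa T R g hT hR hTA hCRT hg hA hgb
  obtain ⟨x, hx0, hxB, hxs, hxd⟩ := hS p hp hpa T R g hT hR hTA hCRT hg hgb
  have hβ : 0 ≤ C₁ * R := (mul_pos hC hR).le
  have hTA' : T * p.As ≤ 1 / 2 := hTA.trans hc1
  have hN : 1 ≤ p.N := hp.N_pos
  have hrd : ∀ q : ℕ, ∃ C : ℝ, ∀ t ∈ Icc 0 T, ∀ k : ℤ × ℤ,
      ‖av p t (x t) k‖ * (1 + n1 k) ^ q ≤ C := by
    intro q
    obtain ⟨C, h⟩ := hRDA p hp (C₁ * R) T R q hβ hT.le hCRT hTA' hR.le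
    exact ⟨C, fun t ht k => (h t ht (x t) (hxB t ht) k).1⟩
  have hT1 : T ∈ Icc 0 T := ⟨hT.le, le_rfl⟩
  have h00 : av p 0 (x 0) = g := by
    funext k
    rw [(hSYA p hp).2 (x 0) k, hx0 k]
    by_cases hk : k.1 = 0
    · rw [if_pos hk, if_pos hk, zero_add, hA]
      congr 1
      exact Prod.ext hk.symm rfl
    · rw [if_neg hk, if_neg hk, add_zero]
  refine ⟨fun k t => up p.N (av p t (x t)) k, x T, hxB T hT1, fun k => ?_, fun k => rfl,
    fun q => ?_, fun k t ht => ?_, fun k t ht => ?_⟩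
  · show up p.N (av p 0 (x 0)) k = up p.N g k
    rw [h00]
  · obtain ⟨C, h⟩ := hrd q
    exact ⟨C * (p.N : ℝ) ^ q, fun k t ht =>
      (hUPB p.N (av p t (x t)) hN).2.2.1 q C (h t ht) k⟩
  · exact (hUPB p.N (av p t (x t)) hN).2.1.1 ((hSYA p hp).1 t (x t) ht.1 (hxs t ht)) k
  · have hU := hUPC p.N (av p t (x t)) hN
      (fun q => (hrd q).imp fun C h k => h t ht k) k
    show HasDerivWithinAt (fun t => up p.N (av p t (x t)) k)
      (-(((p.κ * eu k ^ (2 * p.α) : ℝ) : ℂ) * up p.N (av p t (x t)) k) -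
        ∑' j, ((sc j (k - j) : ℝ) : ℂ) *
          (up p.N (av p t (x t)) j * up p.N (av p t (x t)) (k - j))) (Icc 0 T) t
    rw [hU]
    by_cases hk : (p.N : ℤ) ∣ k.1
    · rw [if_pos hk]
      have hup : ∀ a : ℤ × ℤ → ℂ, up p.N a k = a (k.1 / p.N, k.2) := fun a => if_pos hk
      have hD : Dk p (k.1 / p.N, k.2) = k := Prod.ext (Int.mul_ediv_cancel' hk) rfl
      have hl : lam p (k.1 / p.N, k.2) = p.κ * eu k ^ (2 * p.α) := by
        unfold lam
        rw [hD]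
      have h2 := hAOD p hp (C₁ * R) T R x hβ hT hCRT hTA' hR.le hxB hxd (k.1 / p.N, k.2) t ht
      rw [hl, neg_mul] at h2
      simp only [hup]
      exact h2
    · rw [if_neg hk]
      have hup : ∀ a : ℤ × ℤ → ℂ, up p.N a k = 0 := fun a => if_neg hk
      simp only [hup, mul_zero, neg_zero, sub_zero]
      exact hasDerivWithinAt_const _ _ _

end Pool.SQGA
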