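import Pool.Agent.Work.MP_a2fcf1_an_ar.I3
import Pool.Agent.Work.MP_a2fcf1_an_fs.B_REW
import Pool.Agent.Work.MP_a2fcf1_an_fs.B_TRI
import Pool.Agent.Work.MP_a2fcf1_an_fs.B_CON
import Pool.Agent.Work.MP_a2fcf1_an_fs.B_PHI
import Pool.Agent.Work.MP_a2fcf1_an_fs.B_SB
import Pool.Agent.Work.MP_a2fcf1_an_fs.B_LAT
import Pool.Agent.Work.MP_a2fcf1_an_fs.B_LLB
import Pool.Agent.Work.MP_a2fcf1_an_fs.B_SBB

set_option autoImplicit false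

/-! # Block SWB (helper84): the transfer of the difference -/

namespace Pool.SQGA

open Set MeasureTheory
open Pool.Agent.Work.MP_a2fcf1_an_h64 (cr sc eu n1 ex GloballyRegular)
open Pool.SQGF (nq NB Sym Fr Adm Sw wt Y TT GS BB RD)

theorem SWB_wt0 (M : ℕ) (s : ℝ) (k : ℤ × ℤ) : 0 ≤ wt M s k := by
  unfold wt
  split_ifs
  · have h : 0 ≤ eu k := by
      unfold eu
      positivity
    exact Real.rpow_nonneg h _
  · exact le_rfl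

theorem SWB_core (hCON : Pool.SQGF.Stmt_CON) (hSBB : Pool.SQGF.Stmt_SBB) : Stmt_SWB := by
  intro q B z hq hB h0 hz
  have hE0 : 0 ≤ ∑ k ∈ B, ww 3 k * ‖z k‖ ^ 2 := by
    refine Finset.sum_nonneg fun k _ => mul_nonneg ?_ (sq_nonneg _)
    have := SWB_wt0 1 ((3 : ℕ) : ℝ) k
    unfold ww
    linarith
  have hEq0 : 0 ≤ ∑ k ∈ B, ww q k * ‖z k‖ ^ 2 := by
    refine Finset.sum_nonneg fun k _ => mul_nonneg ?_ (sq_nonneg _)
    have := SWB_wt0 1 (q : ℝ) k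
    unfold ww
    linarith
  have hA : √(∑ k ∈ B, ww 3 k * ‖z k‖ ^ 2) ^ 2 = ∑ k ∈ B, ww 3 k * ‖z k‖ ^ 2 := Real.sq_sqrt hE0
  have hFr : Fr 1 B := by
    refine ⟨hB, fun k hk => ?_⟩
    have h1 := h0 k hk
    have h2 : 0 < nq k := by
      unfold nq
      by_contra hn
      have h3 : k.1 ^ 2 + k.2 ^ 2 ≤ 0 := not_lt.1 hn
      have h4 : k.1 = 0 := by nlinarith [sq_nonneg k.1, sq_nonneg k.2]
      have h5 : k.2 = 0 := by nlinarith [sq_nonneg k.1, sq_nonneg k.2]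
      exact h1 (Prod.ext h4 h5)
    push_cast
    linarith
  have hTT : TT B z ≤ √(∑ k ∈ B, ww 3 k * ‖z k‖ ^ 2) ^ 2 := by
    rw [hA]
    unfold TT
    refine Finset.sum_le_sum fun k _ => ?_
    have h1 := SWB_wt0 1 ((3 : ℕ) : ℝ) k
    have h2 : 1 ≤ ww 3 k := by
      unfold ww
      linarith
    nlinarith [sq_nonneg ‖z k‖]
  have hY3 : Y B 1 3 z ≤ ∑ k ∈ B, ww 3 k * ‖z k‖ ^ 2 := by
    unfold Y
    refine Finset.sum_le_sum fun k _ => mul_le_mul_of_nonneg_right ?_ (sq_nonneg _)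
    unfold ww
    push_cast
    linarith
  have hYq : Y B 1 (q : ℝ) z ≤ ∑ k ∈ B, ww q k * ‖z k‖ ^ 2 := by
    unfold Y
    refine Finset.sum_le_sum fun k _ => mul_le_mul_of_nonneg_right ?_ (sq_nonneg _)
    unfold ww
    linarith
  have hYq0 : 0 ≤ Y B 1 (q : ℝ) z :=
    Finset.sum_nonneg fun k _ => mul_nonneg (SWB_wt0 _ _ _) (sq_nonneg _)
  have hq' : (1 : ℝ) ≤ (q : ℝ) := by exact_mod_cast hq
  have hb := hSBB 1 (q : ℝ) (√(∑ k ∈ B, ww 3 k * ‖z k‖ ^ 2)) B z le_rfl (by linarith)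
    (Real.sqrt_nonneg _) hFr hz hTT
  have hsum : Sw B (ww q) z = Sw B (wt 1 (q : ℝ)) z := by
    have h1 := (hCON B z hB hz).1
    have h2 : Sw B (ww q) z = Sw B (fun _ => 1) z + Sw B (wt 1 (q : ℝ)) z := by
      unfold Sw
      rw [← Finset.sum_add_distrib]
      refine Finset.sum_congr rfl fun k _ => ?_
      unfold ww
      ring
    rw [h2, h1, zero_add]
  rw [hsum]
  refine hb.trans ?_
  have hs3 : √(Y B 1 3 z) ≤ √(∑ k ∈ B, ww 3 k * ‖z k‖ ^ 2) := Real.sqrt_le_sqrt hY3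
  have hrp : (2 : ℝ) ^ (q : ℝ) = 2 ^ q := Real.rpow_natCast 2 q
  rw [hrp]
  have hA0 : 0 ≤ √(∑ k ∈ B, ww 3 k * ‖z k‖ ^ 2) := Real.sqrt_nonneg _
  have hin : (3 * ((1 : ℕ) : ℝ) * √(∑ k ∈ B, ww 3 k * ‖z k‖ ^ 2) + 4 * √(Y B 1 3 z)) *
      Y B 1 (q : ℝ) z ≤ (7 * √(∑ k ∈ B, ww 3 k * ‖z k‖ ^ 2)) *
        ∑ k ∈ B, ww q k * ‖z k‖ ^ 2 := by
    refine mul_le_mul ?_ hYq hYq0 (by positivity)
    push_cast
    linarith
  have hc : (0 : ℝ) ≤ ((q : ℝ) + 1) * 2 ^ q := by positivity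
  calc ((q : ℝ) + 1) * 2 ^ q * ((3 * ((1 : ℕ) : ℝ) * √(∑ k ∈ B, ww 3 k * ‖z k‖ ^ 2) +
        4 * √(Y B 1 3 z)) * Y B 1 (q : ℝ) z)
      ≤ ((q : ℝ) + 1) * 2 ^ q * ((7 * √(∑ k ∈ B, ww 3 k * ‖z k‖ ^ 2)) *
        ∑ k ∈ B, ww q k * ‖z k‖ ^ 2) := mul_le_mul_of_nonneg_left hin hc
    _ = _ := by ring

theorem p_SWB : Stmt_SWB :=
  SWB_core (Pool.SQGF.p_CON (Pool.SQGF.p_TRI Pool.SQGF.p_REW))
    (Pool.SQGF.p_SBB (Pool.SQGF.p_SB (Pool.SQGF.p_TRI Pool.SQGF.p_REW) Pool.SQGF.p_PHI)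
      (Pool.SQGF.p_LLB Pool.SQGF.p_LAT))

end Pool.SQGA
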