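import Pool.Agent.Work.MP_a2fcf1_an_ar.I3

/-! # Block SYA: symmetry and initial value of the coefficients -/

set_option autoImplicit false

namespace Pool.SQGA

open Set MeasureTheory
open Pool.Agent.Work.MP_a2fcf1_an_h64 (cr sc eu n1 ex GloballyRegular)

noncomputable section

theorem SYA_xh (h2 : Stmt_VR) (p : Par) (hp : p.Ok) (t : ℝ) (x : ℤ × ℤ → ℂ)
    (hx : ∀ k, x (-k) = (starRingEnd ℂ) (x k)) (k : ℤ × ℤ) :
    xh p t x (-k) = (starRingEnd ℂ) (xh p t x k) := by
  have hS : ∀ l, Sl p t (-l) = (starRingEnd ℂ) (Sl p t l) := fun l => ((h2 p hp).2.2.1 t l).1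
  unfold xh
  rw [map_add, hx]
  congr 1
  by_cases h : k.1 = 0
  · have h' : (-k).1 = 0 := by rw [Prod.fst_neg, h, neg_zero]
    rw [if_pos h, if_pos h', ← hS]
    rfl
  · have h' : ¬ (-k).1 = 0 := by
      rw [Prod.fst_neg, neg_eq_zero]
      exact h
    rw [if_neg h, if_neg h', map_zero]

theorem p_SYA (h1 : Stmt_EEB) (h2 : Stmt_VR) : Stmt_SYA := by
  intro p hp
  obtain ⟨hE, -, hE0⟩ := h1 p hp
  refine ⟨fun t x ht hx k => ?_, fun x k => ?_⟩
  · unfold av
    rw [Complex.conj_tsum, ← (Equiv.neg ℤ).tsum_eq]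
    refine tsum_congr fun l' => ?_
    rw [map_mul, (hE k.1 t (k.2 - l') ht).2, ← SYA_xh h2 p hp t x hx]
    show ee p (-k.1) t (-k.2 - -l') * xh p t x (-k.1, -l') = _
    have he : -k.2 - -l' = -(k.2 - l') := by ring
    rw [he]
    rfl
  · unfold av
    rw [tsum_eq_single k.2]
    · rw [hE0, sub_self]
      unfold dl xh Sl
      rw [if_pos rfl, one_mul, mul_zero, neg_zero, Real.exp_zero, Complex.ofReal_one, one_mul]
    · intro l hl
      rw [hE0]
      unfold dl
      rw [if_neg (sub_ne_zero.mpr (Ne.symm hl)), zero_mul]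

end

end Pool.SQGA
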