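import Pool.Agent.Work.MP_a2fcf1_an_ar.I2

/-! # Block SYG: the right hand side respects the symmetry -/

set_option autoImplicit false

namespace Pool.SQGA

open Set MeasureTheory
open Pool.Agent.Work.MP_a2fcf1_an_h64 (cr sc eu n1)

noncomputable section

theorem SYG_lin (F : ℤ → ℤ → ℤ → ℂ) (hF : ∀ m a b, (starRingEnd ℂ) (F m a b) = F (-m) (-a) (-b))
    (x : ℤ × ℤ → ℂ) (hx : ∀ k, x (-k) = (starRingEnd ℂ) (x k)) (k : ℤ × ℤ) :
    ∑' l', F (-k).1 (-k).2 l' * x ((-k).1, l') =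
      (starRingEnd ℂ) (∑' l', F k.1 k.2 l' * x (k.1, l')) := by
  rw [Complex.conj_tsum, ← (Equiv.neg ℤ).tsum_eq]
  refine tsum_congr fun l' => ?_
  rw [map_mul, hF, ← hx]
  rfl

theorem SYG_cr (j k : ℤ × ℤ) : cr (-j) (-k - -j) = cr j (k - j) := by
  unfold cr
  simp only [Prod.fst_neg, Prod.snd_neg, Prod.fst_sub, Prod.snd_sub]
  ring

theorem SYG_xh (h2 : Stmt_VR) (p : Par) (hp : p.Ok) (t : ℝ) (x : ℤ × ℤ → ℂ)
    (hx : ∀ k, x (-k) = (starRingEnd ℂ) (x k)) (k : ℤ × ℤ) :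
    xh p t x (-k) = (starRingEnd ℂ) (xh p t x k) := by
  have hS : ∀ l, Sl p t (-l) = (starRingEnd ℂ) (Sl p t l) := fun l => ((h2 p hp).2.2.1 t l).1
  unfold xh
  rw [map_add, hx]
  congr 1
  by_cases h : k.1 = 0
  · have h' : (-k).1 = 0 := by rw [Prod.fst_neg, h, neg_zero]
    rw [if_pos h, if_pos h', ← hS]
    rfl
  · have h' : ¬ (-k).1 = 0 := by
      rw [Prod.fst_neg, neg_eq_zero]
      exact h
    rw [if_neg h, if_neg h', map_zero]

theorem p_SYG (h1 : Stmt_SYP) (h2 : Stmt_VR) : Stmt_SYG := by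
  intro p hp t x ht hx
  obtain ⟨-, hc, -⟩ := h1 p hp
  have hY : ∀ k, Yv p t x (-k) = (starRingEnd ℂ) (Yv p t x k) := by
    intro k
    unfold Yv
    rw [map_mul, Complex.conj_natCast,
      SYG_lin (fun m a b => Pm p t m a b) (fun m a b => (hc m a b t ht).1) x hx k]
  refine ⟨hY, fun k => ?_⟩
  have hG : Gl p t x (-k) = (starRingEnd ℂ) (Gl p t x k) := by
    unfold Gl
    exact SYG_lin (fun m a b => Rm p t m a b) (fun m a b => (hc m a b t ht).2) x hx k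
  have hB : Gb p t x (-k) = (starRingEnd ℂ) (Gb p t x k) := by
    unfold Gb
    rw [Complex.conj_tsum, ← (Equiv.neg (ℤ × ℤ)).tsum_eq]
    refine tsum_congr fun j => ?_
    rw [map_mul, map_mul, map_intCast, ← hY, ← SYG_xh h2 p hp t x hx]
    show ((cr (-j) (-k - -j) : ℤ) : ℂ) * (Yv p t x (-j) * xh p t x (-k - -j)) = _
    rw [SYG_cr]
    have he : -k - -j = -(k - j) := by abel
    rw [he]
  unfold Gv
  rw [map_sub, map_neg, map_mul, Complex.conj_ofReal, hG, hB]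

end

end Pool.SQGA
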