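import Pool.Agent.Work.MP_a2fcf1_an_ar.I2

/-! # Block SYP (helper72): symmetries of the conjugated multipliers -/

set_option autoImplicit false

namespace Pool.SQGA

open Set MeasureTheory
open Pool.Agent.Work.MP_a2fcf1_an_h64 (cr sc eu n1)

noncomputable section

theorem SYP_neg (p : Par) (φ : ℤ → ℝ) (m : ℤ) (t : ℝ) (a b : ℤ) :
    Cj p φ (-m) t a b = Cj p (fun x => φ (-x)) m t (-b) (-a) := by
  unfold Cj
  rw [← (Equiv.neg ℤ).tsum_eq (fun x => ee p (-m) t (-b - x) *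
    (((φ (-x) : ℝ) : ℂ) * ee p m t (x - -a)))]
  refine tsum_congr fun x => ?_
  have e1 : (Equiv.neg ℤ) x = -x := rfl
  have e2 : -b - -x = x - b := by ring
  have e3 : -x - -a = a - x := by ring
  rw [e1, e2, e3, neg_neg, neg_neg]
  ring

theorem SYP_conj (hEEB : Stmt_EEB) (p : Par) (hp : p.Ok) (φ : ℤ → ℝ) (m : ℤ) (t : ℝ)
    (ht : 0 ≤ t) (a b : ℤ) :
    (starRingEnd ℂ) (Cj p φ m t a b) = Cj p (fun x => φ (-x)) (-m) t (-a) (-b) := by
  have hc : ∀ (n : ℤ) (j : ℤ), (starRingEnd ℂ) (ee p n t j) = ee p (-n) t (-j) :=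
    fun n j => ((hEEB p hp).1 n t j ht).2
  unfold Cj
  rw [Complex.conj_tsum, ← (Equiv.neg ℤ).tsum_eq (fun x => ee p (- -m) t (-a - x) *
    (((φ (-x) : ℝ) : ℂ) * ee p (-m) t (x - -b)))]
  refine tsum_congr fun x => ?_
  have e1 : (Equiv.neg ℤ) x = -x := rfl
  have e2 : -a - -x = -(a - x) := by ring
  have e3 : -x - -b = -(x - b) := by ring
  rw [e1, e2, e3, map_mul, map_mul, hc, hc, Complex.conj_ofReal, neg_neg x]

theorem SYP_zero (hEEB : Stmt_EEB) (p : Par) (hp : p.Ok) (φ : ℤ → ℝ) (t : ℝ)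
    (ht : 0 ≤ t) (a b : ℤ) :
    Cj p φ 0 t a b = if a = b then ((φ a : ℝ) : ℂ) else 0 := by
  have h0 : ∀ j, ee p 0 t j = dl j := fun j => (hEEB p hp).2.1 t j ht
  unfold Cj
  rw [tsum_eq_single a]
  · rw [neg_zero, h0, h0, sub_self]
    unfold dl
    rw [if_pos rfl, one_mul]
    by_cases h : a = b
    · rw [if_pos h, if_pos (by omega), mul_one]
    · rw [if_neg h, if_neg (by omega), mul_zero]
  · intro x hx
    rw [neg_zero, h0]
    unfold dl
    rw [if_neg (by omega), zero_mul]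

theorem SYP_eu (p : Par) (m x : ℤ) : eu (Dk p (-m, -x)) = eu (Dk p (m, x)) := by
  have h : Dk p (-m, -x) = -Dk p (m, x) := by
    unfold Dk
    ext
    · show (p.N : ℤ) * -m = -((p.N : ℤ) * m)
      ring
    · rfl
  rw [h, Pool.Agent.Work.MP_a2fcf1_an_h64.eu_neg]

theorem SYP_eu0 (p : Par) (x : ℤ) : eu (Dk p (0, x)) = |(x : ℝ)| := by
  unfold Dk eu
  show Real.sqrt ((((p.N : ℤ) * 0 : ℤ) : ℝ) ^ 2 + (x : ℝ) ^ 2) = _
  rw [mul_zero, Int.cast_zero]
  have e : (0 : ℝ) ^ 2 + (x : ℝ) ^ 2 = (x : ℝ) ^ 2 := by ring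
  rw [e, Real.sqrt_sq_eq_abs]

theorem p_SYP (hEEB : Stmt_EEB) : Stmt_SYP := by
  intro p hp
  have h1 : ∀ m : ℤ, (fun x : ℤ => 1 / eu (Dk p (-m, -x))) = fun x => 1 / eu (Dk p (m, x)) := by
    intro m
    funext x
    rw [SYP_eu]
  refine ⟨?_, ?_, ?_⟩
  · intro m a b t _
    unfold Pm
    rw [SYP_neg, h1]
  · intro m a b t ht
    refine ⟨?_, ?_⟩
    · unfold Pm
      rw [SYP_conj hEEB p hp _ m t ht]
      have h2 : (fun x : ℤ => 1 / eu (Dk p (m, -x))) = fun x => 1 / eu (Dk p (-m, x)) := by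
        funext x
        rw [← SYP_eu p m, neg_neg]
      rw [h2]
    · unfold Rm Qm
      rw [map_sub, SYP_conj hEEB p hp _ m t ht]
      have h2 : (fun x : ℤ => eu (Dk p (m, -x)) ^ (2 * p.α)) =
          fun x => eu (Dk p (-m, x)) ^ (2 * p.α) := by
        funext x
        rw [← SYP_eu p m, neg_neg]
      rw [h2, SYP_eu]
      congr 1
      by_cases h : a = b
      · rw [if_pos h, if_pos (by omega), Complex.conj_ofReal]
      · rw [if_neg h, if_neg (by omega), map_zero]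
  · intro a b t ht
    refine ⟨?_, ?_⟩
    · unfold Pm
      rw [SYP_zero hEEB p hp _ t ht, SYP_eu0]
    · unfold Rm Qm
      rw [SYP_zero hEEB p hp _ t ht, sub_self]

end

end Pool.SQGA
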