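import Pool.Agent.Work.MP_a2fcf1_an_ar.I2

/-! # SQG, block TIM: the time integrals -/

set_option autoImplicit false

namespace Pool.SQGA

open Set MeasureTheory
open Pool.Agent.Work.MP_a2fcf1_an_h64 (cr sc eu n1)

noncomputable section

theorem TIM_n1 (k : ℤ × ℤ) : (n1 k : ℝ) = |(k.1 : ℝ)| + |(k.2 : ℝ)| := by
  unfold n1
  push_cast
  rw [Nat.cast_natAbs, Nat.cast_natAbs]
  push_cast
  rfl

theorem TIM_Wt (p : Par) (β r t : ℝ) (k : ℤ × ℤ) :
    Wt p β r k = Real.exp (-(β * n1 k * (t - r))) * Wt p β t k := by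
  unfold Wt
  rw [← mul_div_assoc, ← Real.exp_add]
  congr 2
  ring

theorem TIM_Wt_pos (p : Par) (β t : ℝ) (k : ℤ × ℤ) : 0 < Wt p β t k := by
  unfold Wt
  positivity

theorem TIM_bd {f : ℝ → ℝ} {t w a b c Λ ν : ℝ} (ht : 0 ≤ t) (hf : Continuous f) (hw : 0 ≤ w)
    (ha : 0 ≤ a) (hc : 0 ≤ c)
    (h : ∀ r ∈ Icc 0 t, f r ≤ w * (a * (Λ * Real.exp (-(Λ / 2 * (t - r)))) + b +
      c * (ν * Real.exp (-(ν * (t - r)))))) :
    ∫ r in (0 : ℝ)..t, f r ≤ w * (2 * a + b * t + c) := by
  have hg : ∀ r, HasDerivAt (fun r => w * (2 * a * Real.exp (-(Λ / 2 * (t - r))) + b * r +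
      c * Real.exp (-(ν * (t - r))))) (w * (a * (Λ * Real.exp (-(Λ / 2 * (t - r)))) + b +
      c * (ν * Real.exp (-(ν * (t - r)))))) r := by
    intro r
    have h0 : ∀ μ : ℝ, HasDerivAt (fun r => -(μ * (t - r))) μ r := by
      intro μ
      have h1 := (((hasDerivAt_id r).const_sub t).const_mul μ).neg
      refine h1.congr_deriv ?_
      ring
    have h2 := ((((h0 (Λ / 2)).exp.const_mul (2 * a)).add ((hasDerivAt_id r).const_mul b)).add
      ((h0 ν).exp.const_mul c)).const_mul w
    refine h2.congr_deriv ?_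
    ring
  have hgc : Continuous (fun r => w * (a * (Λ * Real.exp (-(Λ / 2 * (t - r)))) + b +
      c * (ν * Real.exp (-(ν * (t - r)))))) := by fun_prop
  have h1 := intervalIntegral.integral_mono_on (μ := volume) ht (hf.intervalIntegrable 0 t)
    (hgc.intervalIntegrable 0 t) h
  have h2 := intervalIntegral.integral_eq_sub_of_hasDerivAt (a := 0) (b := t)
    (fun x _ => hg x) (hgc.intervalIntegrable (μ := volume) 0 t)
  rw [h2] at h1
  refine h1.trans ?_
  have e1 : Real.exp (-(Λ / 2 * (t - t))) = 1 := by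
    rw [sub_self, mul_zero, neg_zero, Real.exp_zero]
  have e2 : Real.exp (-(ν * (t - t))) = 1 := by
    rw [sub_self, mul_zero, neg_zero, Real.exp_zero]
  rw [e1, e2]
  have p1 := (Real.exp_pos (-(Λ / 2 * (t - 0)))).le
  have p2 := (Real.exp_pos (-(ν * (t - 0)))).le
  have p3 : 0 ≤ w * (2 * a * Real.exp (-(Λ / 2 * (t - 0))) + b * 0 +
      c * Real.exp (-(ν * (t - 0)))) := by
    rw [mul_zero, add_zero]
    positivity
  linarith

theorem TIM_As (p : Par) : 0 ≤ p.As := by
  unfold Par.As
  refine tsum_nonneg fun l => ?_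
  unfold om
  positivity

theorem p_TIM (_hWTB : Stmt_WTB) : Stmt_TIM := by
  intro C hC
  have hC0 : 0 < C := by linarith
  refine ⟨1 / (16 * C), 8 * C, by positivity, ?_, by positivity, ?_⟩
  · rw [div_le_div_iff₀ (by positivity) (by norm_num)]
    linarith
  intro p hp T R hT hR hTA hRT t ht
  have hA := TIM_As p
  have hκ := hp.κ_pos
  have hα := hp.α_pos
  have hN : (1 : ℝ) ≤ p.N := by exact_mod_cast hp.N_pos
  have hN0 : (0 : ℝ) < p.N := by linarith
  constructor
  · intro k hk
    have hm1 : (1 : ℝ) ≤ |(k.1 : ℝ)| := by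
      have h1 : (1 : ℤ) ≤ |k.1| := Int.one_le_abs hk
      exact_mod_cast h1
    have hn1 : (1 : ℝ) ≤ n1 k := by
      rw [TIM_n1]
      linarith [abs_nonneg (k.2 : ℝ)]
    have hMN : (p.N : ℝ) ≤ p.N * |(k.1 : ℝ)| := le_mul_of_one_le_right hN0.le hm1
    have hw : ∀ r, wv p (8 * C * R) r k = Ef p r * Wt p (8 * C * R) r k := by
      intro r
      unfold wv
      rw [if_neg hk]
    have hΛ0 : p.κ * (p.N : ℝ) ^ (2 * p.α) ≤ p.κ * (p.N * |(k.1 : ℝ)|) ^ (2 * p.α) :=
      mul_le_mul_of_nonneg_left (Real.rpow_le_rpow hN0.le hMN (by linarith)) hκ.le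
    have hΛ1 : p.κ * (p.N * |(k.1 : ℝ)|) ^ (2 * p.α) ≤ lam p k := by
      unfold lam
      refine mul_le_mul_of_nonneg_left (Real.rpow_le_rpow (by positivity) ?_ (by linarith)) hκ.le
      unfold Pool.Agent.Work.MP_a2fcf1_an_h64.eu Dk
      apply Real.le_sqrt_of_sq_le
      push_cast
      rw [mul_pow, sq_abs, mul_pow]
      nlinarith [sq_nonneg (k.2 : ℝ)]
    have hwt : 0 < Ef p t * Wt p (8 * C * R) t k :=
      mul_pos (Real.exp_pos _) (TIM_Wt_pos _ _ _ _)
    have hΛpos : 0 < p.κ * (p.N * |(k.1 : ℝ)|) ^ (2 * p.α) := by positivity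
    set Λ := p.κ * (p.N * |(k.1 : ℝ)|) ^ (2 * p.α) with hΛ
    have hcont : Continuous (fun r => Real.exp (-(lam p k * (t - r))) *
        ((p.κ * (C * (r * p.As) * (p.N * |(k.1 : ℝ)|) ^ (2 * p.α)) +
          (2 * p.As + C * R * (1 + n1 k))) * wv p (8 * C * R) r k)) := by
      simp only [hw]
      unfold Ef Wt
      fun_prop
    have hmain := TIM_bd (w := Ef p t * Wt p (8 * C * R) t k) (a := 1 / 16) (b := 2 * p.As)
      (c := 1 / 4) (Λ := Λ) (ν := 8 * C * R * n1 k) ht.1 hcont hwt.le (by norm_num)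
      (by norm_num) (by
        intro r hr
        rw [hw, TIM_Wt p (8 * C * R) r t k]
        have hE2 : Real.exp (-(8 * C * R * n1 k * (t - r))) ≤ 1 := by
          rw [Real.exp_le_one_iff, neg_nonpos]
          have := sub_nonneg.2 hr.2
          positivity
        have hE1 : Real.exp (-(Λ / 2 * (t - r))) ≤ 1 := by
          rw [Real.exp_le_one_iff, neg_nonpos]
          have := sub_nonneg.2 hr.2
          positivity
        have hE0 : Real.exp (-(lam p k * (t - r))) * Ef p r ≤
            Real.exp (-(Λ / 2 * (t - r))) * Ef p t := by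
          unfold Ef
          rw [← Real.exp_add, ← Real.exp_add, Real.exp_le_exp]
          have h1 := sub_nonneg.2 hr.2
          nlinarith [mul_nonneg h1 (sub_nonneg.2 hΛ1), mul_nonneg h1 (sub_nonneg.2 hΛ0)]
        have hS : p.κ * (C * (r * p.As) * (p.N * |(k.1 : ℝ)|) ^ (2 * p.α)) +
            (2 * p.As + C * R * (1 + n1 k)) ≤ 1 / 16 * Λ + 2 * p.As + 2 * C * R * n1 k := by
          have h1 : p.κ * (C * (r * p.As) * (p.N * |(k.1 : ℝ)|) ^ (2 * p.α)) =
              C * (r * p.As) * Λ := by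
            rw [hΛ]
            ring
          have h2 : C * (r * p.As) ≤ 1 / 16 := by
            have h3 : r * p.As ≤ 1 / (16 * C) :=
              (mul_le_mul_of_nonneg_right (hr.2.trans ht.2) hA).trans hTA
            rw [le_div_iff₀ (by positivity)] at h3
            nlinarith
          have h4 : C * (r * p.As) * Λ ≤ 1 / 16 * Λ := mul_le_mul_of_nonneg_right h2 hΛpos.le
          have h5 : C * R * (1 + n1 k) ≤ 2 * C * R * n1 k := by
            have : 0 < C * R := by positivity
            nlinarith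
          rw [h1]
          linarith
        have hS0 : 0 ≤ p.κ * (C * (r * p.As) * (p.N * |(k.1 : ℝ)|) ^ (2 * p.α)) +
            (2 * p.As + C * R * (1 + n1 k)) := by
          have := hr.1
          positivity
        have hWp := TIM_Wt_pos p (8 * C * R) t k
        have hEf : 0 < Ef p t := Real.exp_pos _
        have hE2p := Real.exp_pos (-(8 * C * R * n1 k * (t - r)))
        have hE1p := Real.exp_pos (-(Λ / 2 * (t - r)))
        set E2 := Real.exp (-(8 * C * R * n1 k * (t - r)))
        set E1 := Real.exp (-(Λ / 2 * (t - r)))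
        set S := p.κ * (C * (r * p.As) * (p.N * |(k.1 : ℝ)|) ^ (2 * p.α)) +
            (2 * p.As + C * R * (1 + n1 k))
        set W := Wt p (8 * C * R) t k
        set F := Ef p t
        calc Real.exp (-(lam p k * (t - r))) * (S * (Ef p r * (E2 * W)))
            = (Real.exp (-(lam p k * (t - r))) * Ef p r) * (S * E2 * W) := by ring
          _ ≤ (E1 * F) * (S * E2 * W) := mul_le_mul_of_nonneg_right hE0 (by positivity)
          _ = (F * W) * (S * (E1 * E2)) := by ring
          _ ≤ (F * W) * ((1 / 16 * Λ + 2 * p.As + 2 * C * R * n1 k) * (E1 * E2)) := by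
              refine mul_le_mul_of_nonneg_left (mul_le_mul_of_nonneg_right hS ?_) ?_
              · positivity
              · positivity
          _ ≤ (F * W) * (1 / 16 * (Λ * E1) + 2 * p.As +
                1 / 4 * (8 * C * R * n1 k * E2)) := by
              refine mul_le_mul_of_nonneg_left ?_ (by positivity)
              have h1 : E1 * E2 ≤ E1 := mul_le_of_le_one_right hE1p.le hE2
              have h2 : E1 * E2 ≤ E2 := mul_le_of_le_one_left hE2p.le hE1
              have h3 : E1 * E2 ≤ 1 := h1.trans hE1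
              have h4 : 1 / 16 * Λ * (E1 * E2) ≤ 1 / 16 * Λ * E1 :=
                mul_le_mul_of_nonneg_left h1 (by positivity)
              have h5 : 2 * p.As * (E1 * E2) ≤ 2 * p.As * 1 :=
                mul_le_mul_of_nonneg_left h3 (by positivity)
              have h6 : 2 * C * R * n1 k * (E1 * E2) ≤ 2 * C * R * n1 k * E2 :=
                mul_le_mul_of_nonneg_left h2 (by positivity)
              nlinarith)
    refine hmain.trans ?_
    rw [hw]
    have h1 : 2 * p.As * t ≤ 1 / 8 := by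
      have h3 : T * p.As ≤ 1 / 16 := hTA.trans (by
        rw [div_le_div_iff₀ (by positivity) (by norm_num)]
        linarith)
      have h4 : t * p.As ≤ T * p.As := mul_le_mul_of_nonneg_right ht.2 hA
      linarith
    rw [div_eq_mul_inv]
    refine mul_le_mul_of_nonneg_left ?_ hwt.le
    linarith
  · intro l
    have hn : (n1 ((0 : ℤ), l) : ℝ) = |(l : ℝ)| := by
      rw [TIM_n1]
      simp
    have hmn : 0 ≤ min 1 (|(l : ℝ)| / p.N) := le_min zero_le_one (by positivity)
    have hWp := TIM_Wt_pos p (8 * C * R) t (0, l)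
    have hlam : 0 ≤ lam p (0, l) := by
      unfold lam Pool.Agent.Work.MP_a2fcf1_an_h64.eu
      positivity
    have hcont : Continuous (fun r => Real.exp (-(lam p (0, l) * (t - r))) *
        (C * R * (|(l : ℝ)| * min 1 (|(l : ℝ)| / p.N)) * Wt p (8 * C * R) r (0, l))) := by
      unfold Wt
      fun_prop
    have hmain := TIM_bd (w := Wt p (8 * C * R) t (0, l) * min 1 (|(l : ℝ)| / p.N)) (a := 0)
      (b := 0) (c := 1 / 8) (Λ := 0) (ν := 8 * C * R * |(l : ℝ)|) ht.1 hcont
      (by positivity) le_rfl (by norm_num) (by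
        intro r hr
        rw [TIM_Wt p (8 * C * R) r t (0, l), hn]
        have hE0 : Real.exp (-(lam p (0, l) * (t - r))) ≤ 1 := by
          rw [Real.exp_le_one_iff, neg_nonpos]
          exact mul_nonneg hlam (sub_nonneg.2 hr.2)
        have hE2p := Real.exp_pos (-(8 * C * R * |(l : ℝ)| * (t - r)))
        have hab := abs_nonneg (l : ℝ)
        set E2 := Real.exp (-(8 * C * R * |(l : ℝ)| * (t - r)))
        set W := Wt p (8 * C * R) t (0, l)
        set mn := min 1 (|(l : ℝ)| / p.N)
        calc Real.exp (-(lam p (0, l) * (t - r))) * (C * R * (|(l : ℝ)| * mn) * (E2 * W))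
            ≤ 1 * (C * R * (|(l : ℝ)| * mn) * (E2 * W)) :=
              mul_le_mul_of_nonneg_right hE0 (by positivity)
          _ = W * mn * (0 * (0 * Real.exp (-(0 / 2 * (t - r)))) + 0 +
                1 / 8 * (8 * C * R * |(l : ℝ)| * E2)) := by ring)
    refine hmain.trans ?_
    have hwv : wv p (8 * C * R) t (0, l) =
        min 1 ((1 + |(l : ℝ)|) / p.N) * Wt p (8 * C * R) t (0, l) := by
      unfold wv
      rw [if_pos rfl]
    rw [hwv]
    have h1 : min 1 (|(l : ℝ)| / p.N) ≤ min 1 ((1 + |(l : ℝ)|) / p.N) := by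
      refine min_le_min le_rfl ?_
      gcongr
      linarith
    have h2 := mul_le_mul_of_nonneg_left h1 hWp.le
    have h3 : 0 ≤ Wt p (8 * C * R) t (0, l) * min 1 (|(l : ℝ)| / p.N) := by positivity
    linarith

end

end Pool.SQGA
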