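import Pool.Agent.Work.MP_a2fcf1_an_ar.I3

/-! # MP_a2fcf1_an, block TSD (helper75): termwise derivative on a closed interval -/

set_option autoImplicit false

namespace Pool.SQGA

open Set MeasureTheory

theorem TSD_one (T : ℝ) (F F' : ℝ → ℂ) (hT : 0 < T)
    (h1 : ∀ t ∈ Icc 0 T, HasDerivWithinAt F (F' t) (Icc 0 T) t)
    (h2 : ContinuousOn F' (Icc 0 T)) :
    (∀ t, HasDerivAt (fun t => F 0 + ∫ r in (0 : ℝ)..t, F' (max 0 (min T r)))
      (F' (max 0 (min T t))) t) ∧
    ∀ t ∈ Icc 0 T, F 0 + ∫ r in (0 : ℝ)..t, F' (max 0 (min T r)) = F t := by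
  have hcl : ∀ r : ℝ, max 0 (min T r) ∈ Icc 0 T := by
    intro r
    exact ⟨le_max_left _ _, max_le hT.le (min_le_left _ _)⟩
  have hid : ∀ r ∈ Icc 0 T, max 0 (min T r) = r := by
    intro r hr
    rw [min_eq_right hr.2, max_eq_right hr.1]
  have hcont : Continuous fun r : ℝ => F' (max 0 (min T r)) :=
    h2.comp_continuous (by fun_prop) hcl
  refine ⟨fun t => ?_, fun t ht => ?_⟩
  · exact (hcont.integral_hasStrictDerivAt 0 t).hasDerivAt.const_add (F 0)
  · have h3 : ∫ r in (0 : ℝ)..t, F' (max 0 (min T r)) = F t - F 0 := by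
      refine intervalIntegral.integral_eq_sub_of_hasDerivAt_of_le ht.1 ?_ ?_
        (hcont.intervalIntegrable _ _)
      · intro r hr
        exact ((h1 r ⟨hr.1, hr.2.trans ht.2⟩).continuousWithinAt).mono
          (Icc_subset_Icc_right ht.2)
      · intro r hr
        have hr' : r ∈ Icc 0 T := ⟨hr.1.le, hr.2.le.trans ht.2⟩
        rw [hid r hr']
        exact (h1 r hr').hasDerivAt (Icc_mem_nhds hr.1 (hr.2.trans_le ht.2))
    rw [h3]
    ring

theorem p_TSD : Stmt_TSD := by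
  intro T F F' u hT h1 h2 hu h3 h4 t ht
  have hcl : ∀ r : ℝ, max 0 (min T r) ∈ Icc 0 T := by
    intro r
    exact ⟨le_max_left _ _, max_le hT.le (min_le_left _ _)⟩
  have hid : ∀ r ∈ Icc 0 T, max 0 (min T r) = r := by
    intro r hr
    rw [min_eq_right hr.2, max_eq_right hr.1]
  have h5 : HasDerivAt
      (fun t => ∑' i, (F i 0 + ∫ r in (0 : ℝ)..t, F' i (max 0 (min T r))))
      (∑' i, F' i (max 0 (min T t))) t := by
    refine hasDerivAt_tsum (u := u)
      (g := fun i t => F i 0 + ∫ r in (0 : ℝ)..t, F' i (max 0 (min T r)))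
      (g' := fun i t => F' i (max 0 (min T t))) (y₀ := 0) hu
      (fun i t => (TSD_one T (F i) (F' i) hT (h1 i) (h2 i)).1 t)
      (fun i t => h3 i _ (hcl t)) ?_ t
    have h6 : (fun i => F i 0 + ∫ r in (0 : ℝ)..0, F' i (max 0 (min T r))) =
        fun i => F i 0 := by
      funext i
      rw [intervalIntegral.integral_same, add_zero]
    rw [h6]
    exact h4.of_norm
  rw [hid t ht] at h5
  have h7 : ∀ t ∈ Icc 0 T, (∑' i, F i t) =
      ∑' i, (F i 0 + ∫ r in (0 : ℝ)..t, F' i (max 0 (min T r))) := by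
    intro t ht
    exact tsum_congr (fun i => ((TSD_one T (F i) (F' i) hT (h1 i) (h2 i)).2 t ht).symm)
  exact h5.hasDerivWithinAt.congr h7 (h7 t ht)

end Pool.SQGA
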