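import Pool.Agent.Work.MP_a2fcf1_an_ar.I3

set_option autoImplicit false

/-! # Block UPB: the coefficients at the real frequencies, first facts -/

namespace Pool.SQGA

open Set MeasureTheory
open Pool.Agent.Work.MP_a2fcf1_an_h64 (cr sc eu n1 ex GloballyRegular)

/-- the embedding of the lattice -/
def UPB_i (N : ℕ) (k : ℤ × ℤ) : ℤ × ℤ := ((N : ℤ) * k.1, k.2)

theorem UPB_inj (N : ℕ) (hN : 1 ≤ N) : Function.Injective (UPB_i N) := by
  intro k m h
  have hN' : (N : ℤ) ≠ 0 := by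
    have : (0 : ℤ) < (N : ℤ) := by exact_mod_cast hN
    exact ne_of_gt this
  unfold UPB_i at h
  have h1 : (N : ℤ) * k.1 = (N : ℤ) * m.1 := (Prod.mk.inj h).1
  have h2 : k.2 = m.2 := (Prod.mk.inj h).2
  exact Prod.ext (mul_left_cancel₀ hN' h1) h2

theorem UPB_up (N : ℕ) (hN : 1 ≤ N) (a : ℤ × ℤ → ℂ) (k : ℤ × ℤ) : up N a (UPB_i N k) = a k := by
  have hN' : (N : ℤ) ≠ 0 := by
    have : (0 : ℤ) < (N : ℤ) := by exact_mod_cast hN
    exact ne_of_gt this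
  unfold up UPB_i
  simp only [dvd_mul_right, if_true]
  rw [Int.mul_ediv_cancel_left _ hN']

theorem UPB_mem (N : ℕ) (k : ℤ × ℤ) (h : (N : ℤ) ∣ k.1) : ∃ m, k = UPB_i N m := by
  obtain ⟨c, hc⟩ := h
  exact ⟨(c, k.2), Prod.ext hc rfl⟩

theorem UPB_off (N : ℕ) (a : ℤ × ℤ → ℂ) (k : ℤ × ℤ) (h : ¬ (N : ℤ) ∣ k.1) : up N a k = 0 := by
  unfold up
  rw [if_neg h]

theorem UPB_neg (N : ℕ) (k : ℤ × ℤ) : -(UPB_i N k) = UPB_i N (-k) := by
  refine Prod.ext ?_ rfl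
  change -((N : ℤ) * k.1) = (N : ℤ) * (-k.1)
  ring

theorem UPB_n1 (N : ℕ) (hN : 1 ≤ N) (k : ℤ × ℤ) :
    (1 + (n1 (UPB_i N k) : ℝ)) ≤ (N : ℝ) * (1 + (n1 k : ℝ)) := by
  have h : 1 + n1 (UPB_i N k) ≤ N * (1 + n1 k) := by
    unfold n1 UPB_i
    simp only [Int.natAbs_mul, Int.natAbs_natCast]
    have h1 : k.2.natAbs ≤ N * k.2.natAbs := Nat.le_mul_of_pos_left _ hN
    have h2 : N * (1 + (k.1.natAbs + k.2.natAbs)) = N + N * k.1.natAbs + N * k.2.natAbs := by ring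
    rw [h2]
    omega
  exact_mod_cast h

/-- UPB -/
theorem p_UPB : Stmt_UPB := by
  intro N a hN
  have hoff : ∀ k, k ∉ Set.range (UPB_i N) → ¬ (N : ℤ) ∣ k.1 := by
    intro k hk hd
    obtain ⟨m, hm⟩ := UPB_mem N k hd
    exact hk ⟨m, hm.symm⟩
  refine ⟨fun k => UPB_up N hN a k, ⟨fun h k => ?_, fun h k => ?_⟩, fun q C h k => ?_,
    fun x => ?_, fun h => ?_⟩
  · by_cases hd : (N : ℤ) ∣ k.1
    · obtain ⟨m, rfl⟩ := UPB_mem N k hd
      rw [UPB_neg, UPB_up N hN, UPB_up N hN, h m]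
    · have hd' : ¬ (N : ℤ) ∣ (-k).1 := by
        intro h1
        apply hd
        have h2 : (N : ℤ) ∣ -k.1 := h1
        exact (dvd_neg).1 h2
      rw [UPB_off N a k hd, UPB_off N a (-k) hd', map_zero]
  · have h1 := h (UPB_i N k)
    rw [UPB_neg, UPB_up N hN, UPB_up N hN] at h1
    exact h1
  · have hC : 0 ≤ C := le_trans (mul_nonneg (norm_nonneg _) (by positivity)) (h 0)
    by_cases hd : (N : ℤ) ∣ k.1
    · obtain ⟨m, rfl⟩ := UPB_mem N k hd
      rw [UPB_up N hN]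
      have h1 : (1 + (n1 (UPB_i N m) : ℝ)) ^ q ≤ ((N : ℝ) * (1 + (n1 m : ℝ))) ^ q :=
        pow_le_pow_left₀ (by positivity) (UPB_n1 N hN m) q
      calc ‖a m‖ * (1 + (n1 (UPB_i N m) : ℝ)) ^ q
          ≤ ‖a m‖ * ((N : ℝ) * (1 + (n1 m : ℝ))) ^ q :=
            mul_le_mul_of_nonneg_left h1 (norm_nonneg _)
        _ = (‖a m‖ * (1 + (n1 m : ℝ)) ^ q) * (N : ℝ) ^ q := by rw [mul_pow]; ring
        _ ≤ C * (N : ℝ) ^ q := mul_le_mul_of_nonneg_right (h m) (by positivity)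
    · rw [UPB_off N a k hd, norm_zero, zero_mul]
      positivity
  · have h1 := (UPB_inj N hN).tsum_eq (f := fun k => up N a k * ex k x) (by
      intro k hk
      by_contra hr
      apply hk
      change up N a k * ex k x = 0
      rw [UPB_off N a k (hoff k hr), zero_mul])
    rw [← h1]
    refine tsum_congr fun k => ?_
    rw [UPB_up N hN]
    rfl
  · have h1 := (UPB_inj N hN).summable_iff (f := fun k => ‖up N a k‖) (by
      intro k hr
      change ‖up N a k‖ = 0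
      rw [UPB_off N a k (hoff k hr), norm_zero])
    rw [← h1]
    refine h.congr fun k => ?_
    change ‖a k‖ = ‖up N a (UPB_i N k)‖
    rw [UPB_up N hN]

end Pool.SQGA
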