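import Pool.Agent.Work.MP_a2fcf1_an_ar.I3
import Pool.Agent.Work.MP_a2fcf1_an_h64.Conv

/-! # Supercritical SQG, block UPC: the convolution at the real frequencies (helper81) -/

set_option autoImplicit false

namespace Pool.SQGA

open Set MeasureTheory
open Pool.Agent.Work.MP_a2fcf1_an_h64 (cr sc eu n1 eu_nonneg eu_zero eu_pos eu_le_n1 abs_cr_le_eu
  cr_swap z2 z2_nonneg summable_z2 n1_cast)

/-- rapidly decaying families are summable -/
theorem UPC_summable {B : ℤ × ℤ → ℂ} {C : ℝ} (h : ∀ k, ‖B k‖ * (1 + n1 k) ^ 4 ≤ C) :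
    Summable fun k => ‖B k‖ := by
  have h2 : Summable fun x : ℤ × ℤ => z2 x.1 * z2 x.2 :=
    summable_z2.mul_of_nonneg summable_z2 z2_nonneg z2_nonneg
  have h3 : Summable fun k : ℤ × ℤ => ((1 + (n1 k : ℝ)) ^ 4)⁻¹ := by
    refine Summable.of_nonneg_of_le (fun k => by positivity) (fun k => ?_) h2
    unfold z2
    rw [← mul_inv]
    apply inv_anti₀ (by positivity)
    rw [← mul_pow, n1_cast]
    have e1 : (1 + |(k.1 : ℝ)|) * (1 + |(k.2 : ℝ)|) ≤ (1 + (|(k.1 : ℝ)| + |(k.2 : ℝ)|)) ^ 2 := by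
      nlinarith [abs_nonneg (k.1 : ℝ), abs_nonneg (k.2 : ℝ),
        mul_nonneg (abs_nonneg (k.1 : ℝ)) (abs_nonneg (k.2 : ℝ))]
    calc ((1 + |(k.1 : ℝ)|) * (1 + |(k.2 : ℝ)|)) ^ 2
        ≤ ((1 + (|(k.1 : ℝ)| + |(k.2 : ℝ)|)) ^ 2) ^ 2 := by
          exact pow_le_pow_left₀ (by positivity) e1 2
      _ = _ := by ring
  refine Summable.of_nonneg_of_le (fun k => norm_nonneg _) (fun k => ?_) (h3.mul_left C)
  rw [← div_eq_mul_inv, le_div_iff₀ (by positivity)]
  exact h k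

/-- symmetrisation -/
theorem UPC_symm {B : ℤ × ℤ → ℂ} {C₃ C₁ : ℝ} (h3 : ∀ k, ‖B k‖ * (1 + n1 k) ^ 4 ≤ C₃)
    (h1 : ∀ k, ‖B k‖ * (1 + n1 k) ^ 1 ≤ C₁) (k : ℤ × ℤ) :
    ∑' j, ((sc j (k - j) : ℝ) : ℂ) * (B j * B (k - j)) =
      ∑' j, (((cr j (k - j) : ℝ) / eu j : ℝ) : ℂ) * (B j * B (k - j)) := by
  obtain ⟨T, hT⟩ : ∃ T : ℤ × ℤ → ℂ, T = fun j =>
    (((cr j (k - j) : ℝ) / eu j : ℝ) : ℂ) * (B j * B (k - j)) := ⟨_, rfl⟩
  have hTs : Summable T := by
    apply Summable.of_norm_bounded ((UPC_summable h3).mul_right C₁)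
    intro j
    rw [hT]
    show ‖(((cr j (k - j) : ℝ) / eu j : ℝ) : ℂ) * (B j * B (k - j))‖ ≤ ‖B j‖ * C₁
    rw [norm_mul, norm_mul, Complex.norm_real, Real.norm_eq_abs, abs_div,
      abs_of_nonneg (eu_nonneg j)]
    have h4 : |(cr j (k - j) : ℝ)| / eu j ≤ n1 (k - j) := by
      by_cases hj : j = 0
      · subst hj
        rw [eu_zero, div_zero]
        positivity
      · rw [div_le_iff₀ (eu_pos hj)]
        refine (abs_cr_le_eu j (k - j)).trans ?_
        rw [mul_comm]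
        exact mul_le_mul_of_nonneg_right (eu_le_n1 _) (eu_nonneg _)
    have h5 := h1 (k - j)
    have h6 : (n1 (k - j) : ℝ) * ‖B (k - j)‖ ≤ C₁ := by
      refine le_trans ?_ h5
      rw [pow_one, mul_comm]
      refine mul_le_mul_of_nonneg_left ?_ (norm_nonneg _)
      linarith
    calc |(cr j (k - j) : ℝ)| / eu j * (‖B j‖ * ‖B (k - j)‖)
        ≤ n1 (k - j) * (‖B j‖ * ‖B (k - j)‖) := mul_le_mul_of_nonneg_right h4 (by positivity)
      _ = ‖B j‖ * ((n1 (k - j) : ℝ) * ‖B (k - j)‖) := by ring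
      _ ≤ ‖B j‖ * C₁ := mul_le_mul_of_nonneg_left h6 (norm_nonneg _)
  have hTs' : Summable fun j => T (k - j) := (Equiv.subLeft k).summable_iff.mpr hTs
  have hT' : ∑' j, T (k - j) = ∑' j, T j := (Equiv.subLeft k).tsum_eq T
  have h5 : ∑' j, ((sc j (k - j) : ℝ) : ℂ) * (B j * B (k - j)) =
      ∑' j, ((1 / 2 : ℂ) * (T j + T (k - j))) := by
    apply tsum_congr
    intro j
    rw [hT]
    simp only [sub_sub_cancel]
    rw [sc, cr_swap j (k - j)]
    push_cast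
    ring
  rw [h5, tsum_mul_left, hTs.tsum_add hTs', hT', hT]
  ring

/-- **Block UPC.** -/
theorem p_UPC (hUPB : Stmt_UPB) : Stmt_UPC := by
  intro N a hN ha k
  obtain ⟨hu, -, hud, -, -⟩ := hUPB N a hN
  obtain ⟨c3, hc3⟩ := ha 4
  obtain ⟨c1, hc1⟩ := ha 1
  have hd3 := hud 4 c3 hc3
  have hd1 := hud 1 c1 hc1
  rw [UPC_symm hd3 hd1 k]
  have hN0 : (N : ℤ) ≠ 0 := by exact_mod_cast (by omega : N ≠ 0)
  have hz : ∀ j : ℤ × ℤ, ¬ (N : ℤ) ∣ j.1 → up N a j = 0 := fun j hj => if_neg hj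
  by_cases hk : (N : ℤ) ∣ k.1
  · rw [if_pos hk]
    obtain ⟨m, hm⟩ := hk
    have hkm : k.1 / N = m := by
      rw [hm]
      exact Int.mul_ediv_cancel_left m hN0
    rw [hkm]
    have hk' : k = ((N : ℤ) * m, k.2) := by
      ext
      · exact hm
      · rfl
    obtain ⟨ι, hι⟩ : ∃ ι : ℤ × ℤ → ℤ × ℤ, ι = fun j => ((N : ℤ) * j.1, j.2) := ⟨_, rfl⟩
    have hinj : Function.Injective ι := by
      intro i j hij
      have e1 : (N : ℤ) * i.1 = (N : ℤ) * j.1 := by simpa [hι] using congrArg Prod.fst hij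
      have e2 : i.2 = j.2 := by simpa [hι] using congrArg Prod.snd hij
      ext
      · exact mul_left_cancel₀ hN0 e1
      · exact e2
    have hsupp : Function.support (fun j => (((cr j (k - j) : ℝ) / eu j : ℝ) : ℂ) *
        (up N a j * up N a (k - j))) ⊆ Set.range ι := by
      intro j hj
      by_contra hcon
      apply hj
      have h1 : ¬ (N : ℤ) ∣ j.1 := by
        rintro ⟨q, hq⟩
        apply hcon
        refine ⟨(q, j.2), ?_⟩
        rw [hι]
        ext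
        · exact hq.symm
        · rfl
      show (((cr j (k - j) : ℝ) / eu j : ℝ) : ℂ) * (up N a j * up N a (k - j)) = 0
      rw [hz j h1, zero_mul, mul_zero]
    rw [← hinj.tsum_eq hsupp, ← tsum_mul_left]
    apply tsum_congr
    intro j
    have e1 : ι j = ((N : ℤ) * j.1, j.2) := by rw [hι]
    have e2 : k - ι j = ((N : ℤ) * ((m, k.2) - j).1, ((m, k.2) - j).2) := by
      rw [e1]
      ext
      · show k.1 - (N : ℤ) * j.1 = (N : ℤ) * (m - j.1)
        rw [hm]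
        ring
      · rfl
    have e3 : (cr (ι j) (k - ι j) : ℤ) = (N : ℤ) * cr j ((m, k.2) - j) := by
      rw [e2, e1]
      unfold cr
      show (N : ℤ) * j.1 * ((m, k.2) - j).2 - j.2 * ((N : ℤ) * ((m, k.2) - j).1) = _
      ring
    rw [e3, e2, hu, e1, hu]
    push_cast
    ring
  · rw [if_neg hk]
    convert tsum_zero with j
    by_cases hj : (N : ℤ) ∣ j.1
    · have h1 : ¬ (N : ℤ) ∣ (k - j).1 := by
        intro h
        apply hk
        have h2 : k.1 = (k - j).1 + j.1 := by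
          show k.1 = k.1 - j.1 + j.1
          ring
        rw [h2]
        exact dvd_add h hj
      rw [hz _ h1, mul_zero, mul_zero]
    · rw [hz j hj, zero_mul, mul_zero]

end Pool.SQGA
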