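import Pool.Agent.Work.MP_a2fcf1_an_ar.I1

/-! Block VR of `MP_a2fcf1_an_ar` (typed by helper85). -/

set_option autoImplicit false

namespace Pool.SQGA

open Set MeasureTheory

noncomputable section

namespace VRaux

theorem cont_Sl (p : Par) (l : ℤ) : Continuous fun t => Sl p t l := by
  unfold Sl
  fun_prop

theorem norm_Sl_le (p : Par) (hp : p.Ok) (t : ℝ) (l : ℤ) (ht : 0 ≤ t) :
    ‖Sl p t l‖ ≤ ‖p.A l‖ := by
  unfold Sl
  rw [norm_mul, Complex.norm_real, Real.norm_eq_abs, abs_of_pos (Real.exp_pos _)]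
  have h1 : Real.exp (-(p.κ * |(l : ℝ)| ^ (2 * p.α) * t)) ≤ 1 := by
    apply Real.exp_le_one_iff.mpr
    have h2 : 0 ≤ p.κ * |(l : ℝ)| ^ (2 * p.α) * t :=
      mul_nonneg (mul_nonneg hp.κ_pos.le (Real.rpow_nonneg (abs_nonneg _) _)) ht
    linarith
  calc Real.exp (-(p.κ * |(l : ℝ)| ^ (2 * p.α) * t)) * ‖p.A l‖ ≤ 1 * ‖p.A l‖ :=
        mul_le_mul_of_nonneg_right h1 (norm_nonneg _)
    _ = ‖p.A l‖ := one_mul _

theorem norm_sign_le (l : ℤ) : ‖((Int.sign l : ℤ) : ℂ)‖ ≤ 1 := by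
  rcases lt_trichotomy l 0 with h | h | h
  · rw [Int.sign_eq_neg_one_of_neg h]; simp
  · subst h; simp
  · rw [Int.sign_eq_one_of_pos h]; simp

theorem norm_sign_le' (l : ℤ) : ‖((Int.sign l : ℤ) : ℂ)‖ ≤ |(l : ℝ)| := by
  rcases eq_or_ne l 0 with h | h
  · subst h; simp
  · refine (norm_sign_le l).trans ?_
    have h1 : (1 : ℤ) ≤ |l| := Int.one_le_abs h
    exact_mod_cast h1

theorem norm_int_le (p : Par) (hp : p.Ok) (t : ℝ) (l : ℤ) (ht : 0 ≤ t) :
    ‖∫ r in (0 : ℝ)..t, Sl p r l‖ ≤ t * ‖p.A l‖ := by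
  have h := intervalIntegral.norm_integral_le_of_norm_le_const (a := (0 : ℝ)) (b := t)
    (f := fun r => Sl p r l) (C := ‖p.A l‖) (by
      intro r hr
      rw [Set.uIoc_of_le ht] at hr
      exact norm_Sl_le p hp r l hr.1.le)
  rw [sub_zero, abs_of_nonneg ht, mul_comm] at h
  exact h

theorem conj_e1 (l : ℤ) (y : ℝ) : (starRingEnd ℂ) (e1 l y) = e1 (-l) y := by
  unfold e1
  rw [← Complex.exp_conj]
  congr 1
  rw [map_mul, map_mul, Complex.conj_I, Complex.conj_ofReal]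
  have : (starRingEnd ℂ) ((l : ℂ)) = (l : ℂ) := by
    have h := Complex.conj_ofReal (l : ℝ)
    simpa using h
  rw [this]
  push_cast
  ring

theorem conj_int (l : ℤ) : (starRingEnd ℂ) ((l : ℂ)) = (l : ℂ) := by
  have h := Complex.conj_ofReal (l : ℝ)
  simpa using h

theorem sym_Sl (p : Par) (hp : p.Ok) (t : ℝ) (l : ℤ) :
    Sl p t (-l) = (starRingEnd ℂ) (Sl p t l) := by
  unfold Sl
  rw [map_mul, Complex.conj_ofReal, hp.conj l]
  congr 3
  rw [Int.cast_neg, abs_neg]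

theorem conj_integral (p : Par) (t : ℝ) (l : ℤ) :
    (starRingEnd ℂ) (∫ r in (0 : ℝ)..t, Sl p r l)
      = ∫ r in (0 : ℝ)..t, (starRingEnd ℂ) (Sl p r l) := by
  have hi : IntervalIntegrable (fun r => Sl p r l) volume 0 t :=
    (cont_Sl p l).intervalIntegrable 0 t
  have h := ContinuousLinearMap.intervalIntegral_comp_comm
    (Complex.conjCLE : ℂ →L[ℝ] ℂ) hi
  simpa using h.symm

theorem sym_Vl (p : Par) (hp : p.Ok) (t : ℝ) (l : ℤ) :
    Vl p t (-l) = (starRingEnd ℂ) (Vl p t l) := by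
  unfold Vl
  rw [map_mul, map_mul, Complex.conj_I, conj_int, conj_integral]
  have h1 : ∫ r in (0 : ℝ)..t, Sl p r (-l) = ∫ r in (0 : ℝ)..t, (starRingEnd ℂ) (Sl p r l) := by
    apply intervalIntegral.integral_congr
    intro r _
    exact sym_Sl p hp r l
  rw [h1, Int.sign_neg]
  push_cast
  ring

theorem im_fn (a : ℤ → ℂ) (h : ∀ l, a (-l) = (starRingEnd ℂ) (a l)) (y : ℝ) :
    (fn a y).im = 0 := by
  rw [← Complex.conj_eq_iff_im]
  unfold fn
  rw [Complex.conj_tsum]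
  rw [← (Equiv.neg ℤ).tsum_eq (fun l => a l * e1 l y)]
  apply tsum_congr
  intro l
  rw [map_mul, conj_e1, ← h l]
  rfl

end VRaux

open VRaux

theorem p_VR : Stmt_VR := by
  intro p hp
  have hb : ∀ t l, 0 ≤ t → ‖Sl p t l‖ ≤ ‖p.A l‖ ∧ ‖Ul p t l‖ ≤ |(l : ℝ)| * ‖p.A l‖ ∧
      ‖Vl p t l‖ ≤ t * (|(l : ℝ)| * ‖p.A l‖) ∧
      |(l : ℝ)| * ‖Vl p t l‖ ≤ t * (|(l : ℝ)| * ‖p.A l‖) := by
    intro t l ht
    have hA : 0 ≤ ‖p.A l‖ := norm_nonneg _
    have hl : 0 ≤ |(l : ℝ)| := abs_nonneg _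
    have h1 := norm_Sl_le p hp t l ht
    have hI := norm_int_le p hp t l ht
    have htA : 0 ≤ t * ‖p.A l‖ := mul_nonneg ht hA
    refine ⟨h1, ?_, ?_, ?_⟩
    · unfold Ul
      rw [norm_mul, norm_mul, Complex.norm_I, one_mul]
      exact mul_le_mul (norm_sign_le' l) h1 (norm_nonneg _) hl
    · unfold Vl
      rw [norm_mul, norm_mul, Complex.norm_I, one_mul]
      calc ‖((Int.sign l : ℤ) : ℂ)‖ * ‖∫ r in (0 : ℝ)..t, Sl p r l‖
          ≤ |(l : ℝ)| * (t * ‖p.A l‖) := mul_le_mul (norm_sign_le' l) hI (norm_nonneg _) hl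
        _ = t * (|(l : ℝ)| * ‖p.A l‖) := by ring
    · unfold Vl
      rw [norm_mul, norm_mul, Complex.norm_I, one_mul]
      calc |(l : ℝ)| * (‖((Int.sign l : ℤ) : ℂ)‖ * ‖∫ r in (0 : ℝ)..t, Sl p r l‖)
          ≤ |(l : ℝ)| * (1 * (t * ‖p.A l‖)) :=
            mul_le_mul_of_nonneg_left
              (mul_le_mul (norm_sign_le l) hI (norm_nonneg _) zero_le_one) hl
        _ = t * (|(l : ℝ)| * ‖p.A l‖) := by ring
  refine ⟨hb, ?_, ?_, ?_, ?_, ?_⟩
  · intro l
    unfold Vl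
    rw [intervalIntegral.integral_same, mul_zero]
  · intro t l
    refine ⟨sym_Sl p hp t l, ?_, sym_Vl p hp t l⟩
    unfold Ul
    rw [map_mul, map_mul, Complex.conj_I, conj_int, sym_Sl p hp t l, Int.sign_neg]
    push_cast
    ring
  · intro t l
    have h1 : HasDerivAt (fun t : ℝ => -(p.κ * |(l : ℝ)| ^ (2 * p.α) * t))
        (-(p.κ * |(l : ℝ)| ^ (2 * p.α))) t := by
      have h := (hasDerivAt_id t).const_mul (-(p.κ * |(l : ℝ)| ^ (2 * p.α)))
      rw [mul_one] at h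
      refine h.congr_of_eventuallyEq (Filter.Eventually.of_forall fun x => ?_)
      simp only [id]
      ring
    have h2 := h1.exp
    have h3 := (h2.ofReal_comp).mul_const (p.A l)
    have h4 : HasDerivAt (fun t => Sl p t l)
        (((Real.exp (-(p.κ * |(l : ℝ)| ^ (2 * p.α) * t)) *
          -(p.κ * |(l : ℝ)| ^ (2 * p.α)) : ℝ) : ℂ) * p.A l) t := h3
    convert h4 using 1
    unfold Sl
    push_cast
    ring
  · intro t l
    have h := ((cont_Sl p l).integral_hasStrictDerivAt 0 t).hasDerivAt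
    exact h.const_mul _
  · intro t ht
    have hom : ∀ l : ℤ, 0 ≤ om p.s l := by
      intro l
      unfold om
      positivity
    have hU : WS p.s (Ul p t) := by
      refine Summable.of_nonneg_of_le (fun l => mul_nonneg (hom l) (norm_nonneg _)) (fun l => ?_)
        hp.sum
      exact mul_le_mul_of_nonneg_left (hb t l ht).2.1 (hom l)
    have hs2 : Summable fun l : ℤ => t * (om p.s l * (|(l : ℝ)| * ‖p.A l‖)) := hp.sum.mul_left t
    have hle : ∀ l : ℤ, om p.s l * ‖Vl p t l‖ ≤ t * (om p.s l * (|(l : ℝ)| * ‖p.A l‖)) := by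
      intro l
      calc om p.s l * ‖Vl p t l‖ ≤ om p.s l * (t * (|(l : ℝ)| * ‖p.A l‖)) :=
            mul_le_mul_of_nonneg_left (hb t l ht).2.2.1 (hom l)
        _ = _ := by ring
    have hnl : ∀ l : ℤ, ‖(l : ℂ) * Vl p t l‖ = |(l : ℝ)| * ‖Vl p t l‖ := by
      intro l
      rw [norm_mul]
      congr 1
      have h := Complex.norm_real (l : ℝ)
      rw [Real.norm_eq_abs] at h
      simpa using h
    have hle2 : ∀ l : ℤ, om p.s l * ‖(l : ℂ) * Vl p t l‖
        ≤ t * (om p.s l * (|(l : ℝ)| * ‖p.A l‖)) := by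
      intro l
      rw [hnl l]
      calc om p.s l * (|(l : ℝ)| * ‖Vl p t l‖) ≤ om p.s l * (t * (|(l : ℝ)| * ‖p.A l‖)) :=
            mul_le_mul_of_nonneg_left (hb t l ht).2.2.2 (hom l)
        _ = _ := by ring
    have hV : WS p.s (Vl p t) :=
      Summable.of_nonneg_of_le (fun l => mul_nonneg (hom l) (norm_nonneg _)) hle hs2
    have hV2 : WS p.s (fun l => (l : ℂ) * Vl p t l) :=
      Summable.of_nonneg_of_le (fun l => mul_nonneg (hom l) (norm_nonneg _)) hle2 hs2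
    refine ⟨hU, hV, ?_, hV2, ?_, ?_⟩
    · unfold nw Par.As
      rw [← tsum_mul_left]
      exact hV.tsum_le_tsum hle hs2
    · unfold nw Par.As
      rw [← tsum_mul_left]
      exact hV2.tsum_le_tsum hle2 hs2
    · intro y
      exact im_fn (Vl p t) (sym_Vl p hp t) y

end

end Pool.SQGA
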