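import Pool.Agent.Work.MP_a2fcf1_an_ar.I2

/-! # Block YB: bounds of the potential -/

set_option autoImplicit false

namespace Pool.SQGA

open Set MeasureTheory
open Pool.Agent.Work.MP_a2fcf1_an_h64 (cr sc eu n1)

noncomputable section

/-- the modes with `m ≠ 0` -/
theorem YB_fast (hP1 : Stmt_P1) (hW : Stmt_WTB) (p : Par) (hp : p.Ok) (β t d : ℝ)
    (x : ℤ × ℤ → ℂ) (hβ : 0 ≤ β) (ht : 0 ≤ t) (hβt : β * t ≤ p.s / 2) (htA : t * p.As ≤ 1 / 2)
    (hd : 0 ≤ d) (hx : Bd p β t d x) (m l : ℤ) (hm : m ≠ 0) :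
    (Summable fun l' => ‖Pm p t m l l' * x (m, l')‖) ∧
      |(m : ℝ)| * ‖Yv p t x (m, l)‖ ≤ 2 * d * wv p β t (m, l) := by
  obtain ⟨hw1, -, -, -, hw5, -⟩ := hW p hp β t hβ ht hβt
  obtain ⟨hs, hle⟩ := hP1 p hp m l t ht htA hm
  have hwpos : 0 < wv p β t (m, l) := (hw1 (m, l)).2.1
  have hb : ∀ l', ‖Pm p t m l l' * x (m, l')‖ ≤
      d * wv p β t (m, l) * (om p.s (l - l') * ‖Pm p t m l l'‖) := by
    intro l'
    rw [norm_mul]
    have h1 : ‖x (m, l')‖ ≤ d * (om p.s (l - l') * wv p β t (m, l)) :=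
      (hx (m, l')).trans (mul_le_mul_of_nonneg_left ((hw5 m l l').2 hm) hd)
    calc ‖Pm p t m l l'‖ * ‖x (m, l')‖ ≤
        ‖Pm p t m l l'‖ * (d * (om p.s (l - l') * wv p β t (m, l))) :=
          mul_le_mul_of_nonneg_left h1 (norm_nonneg _)
      _ = _ := by ring
  have hs2 : Summable fun l' => d * wv p β t (m, l) * (om p.s (l - l') * ‖Pm p t m l l'‖) :=
    hs.mul_left _
  have hs3 : Summable fun l' => ‖Pm p t m l l' * x (m, l')‖ :=
    Summable.of_nonneg_of_le (fun _ => norm_nonneg _) hb hs2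
  refine ⟨hs3, ?_⟩
  have hN : (0 : ℝ) < p.N := by exact_mod_cast hp.N_pos
  have hma : (0 : ℝ) < |(m : ℝ)| := abs_pos.2 (by exact_mod_cast hm)
  have h2 : ‖∑' l', Pm p t m l l' * x (m, l')‖ ≤
      d * wv p β t (m, l) * (2 / (p.N * |(m : ℝ)|)) := by
    refine (norm_tsum_le_tsum_norm hs3).trans ?_
    refine (hs3.tsum_le_tsum hb hs2).trans ?_
    rw [tsum_mul_left]
    exact mul_le_mul_of_nonneg_left hle (mul_nonneg hd hwpos.le)
  have h3 : ‖Yv p t x (m, l)‖ ≤ p.N * (d * wv p β t (m, l) * (2 / (p.N * |(m : ℝ)|))) := by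
    show ‖(p.N : ℂ) * ∑' l', Pm p t m l l' * x (m, l')‖ ≤ _
    rw [norm_mul, Complex.norm_natCast]
    exact mul_le_mul_of_nonneg_left h2 hN.le
  calc |(m : ℝ)| * ‖Yv p t x (m, l)‖ ≤
      |(m : ℝ)| * (p.N * (d * wv p β t (m, l) * (2 / (p.N * |(m : ℝ)|)))) :=
        mul_le_mul_of_nonneg_left h3 hma.le
    _ = 2 * d * wv p β t (m, l) := by
      field_simp

/-- the slow modes -/
theorem YB_slow (hSY : Stmt_SYP) (hW : Stmt_WTB) (p : Par) (hp : p.Ok) (β t d : ℝ)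
    (x : ℤ × ℤ → ℂ) (hβ : 0 ≤ β) (ht : 0 ≤ t) (hβt : β * t ≤ p.s / 2)
    (hd : 0 ≤ d) (hx : Bd p β t d x) (l : ℤ) :
    (Summable fun l' => ‖Pm p t 0 l l' * x (0, l')‖) ∧
      ‖Yv p t x (0, l)‖ ≤ 2 * d * Wt p β t (0, l) := by
  obtain ⟨hw1, -, -, -, -, -⟩ := hW p hp β t hβ ht hβt
  obtain ⟨-, -, h0⟩ := hSY p hp
  have hz : ∀ l', l' ≠ l → Pm p t 0 l l' * x (0, l') = 0 := by
    intro l' hl'
    rw [(h0 l l' t ht).1, if_neg (fun h => hl' h.symm), zero_mul]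
  have hWp : 0 < Wt p β t (0, l) := (hw1 (0, l)).1
  refine ⟨?_, ?_⟩
  · refine summable_of_ne_finset_zero (s := {l}) ?_
    intro l' hl'
    rw [hz l' (by simpa using hl'), norm_zero]
  · have h1 : ∑' l', Pm p t 0 l l' * x (0, l') = ((1 / |(l : ℝ)| : ℝ) : ℂ) * x (0, l) := by
      rw [tsum_eq_single l hz, (h0 l l t ht).1, if_pos rfl]
    show ‖(p.N : ℂ) * ∑' l', Pm p t 0 l l' * x (0, l')‖ ≤ _
    rw [h1, norm_mul, norm_mul, Complex.norm_natCast, Complex.norm_real, Real.norm_eq_abs]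
    by_cases hl : l = 0
    · subst hl
      simp only [Int.cast_zero, abs_zero, div_zero, zero_mul, mul_zero]
      positivity
    · have hl1 : (1 : ℝ) ≤ |(l : ℝ)| := by
        have h2 : 1 ≤ |l| := Int.one_le_abs hl
        exact_mod_cast h2
      have hN : (0 : ℝ) < p.N := by exact_mod_cast hp.N_pos
      have hlp : (0 : ℝ) < |(l : ℝ)| := by linarith
      rw [abs_of_pos (by positivity : (0 : ℝ) < 1 / |(l : ℝ)|)]
      have h3 : ‖x (0, l)‖ ≤ d * ((1 + |(l : ℝ)|) / p.N * Wt p β t (0, l)) := by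
        refine (hx (0, l)).trans (mul_le_mul_of_nonneg_left ?_ hd)
        unfold wv
        rw [if_pos rfl]
        exact mul_le_mul_of_nonneg_right (min_le_right _ _) hWp.le
      have h4 : p.N * (1 / |(l : ℝ)| * ‖x (0, l)‖) ≤
          p.N * (1 / |(l : ℝ)| * (d * ((1 + |(l : ℝ)|) / p.N * Wt p β t (0, l)))) :=
        mul_le_mul_of_nonneg_left (mul_le_mul_of_nonneg_left h3 (by positivity)) hN.le
      refine h4.trans ?_
      have h5 : (p.N : ℝ) * (1 / |(l : ℝ)| * (d * ((1 + |(l : ℝ)|) / p.N * Wt p β t (0, l)))) =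
          (1 + |(l : ℝ)|) / |(l : ℝ)| * (d * Wt p β t (0, l)) := by
        field_simp
      have h6 : (1 + |(l : ℝ)|) / |(l : ℝ)| ≤ 2 := by
        rw [div_le_iff₀ hlp]
        linarith
      rw [h5, mul_assoc]
      exact mul_le_mul_of_nonneg_right h6 (mul_nonneg hd hWp.le)

theorem p_YB (hP1 : Stmt_P1) (hSY : Stmt_SYP) (hW : Stmt_WTB) : Stmt_YB := by
  intro p hp β t d x hβ ht hβt htA hd hx
  obtain ⟨hw1, hw2, hw3, -, -, -⟩ := hW p hp β t hβ ht hβt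
  have hB : ∀ k : ℤ × ℤ, k.1 ≠ 0 → ‖Yv p t x k‖ ≤ 2 * d * wv p β t k := by
    rintro ⟨m, l⟩ hm
    have h1 := (YB_fast hP1 hW p hp β t d x hβ ht hβt htA hd hx m l hm).2
    have h2 : (1 : ℝ) ≤ |(m : ℝ)| := by
      have h3 : 1 ≤ |m| := Int.one_le_abs hm
      exact_mod_cast h3
    exact (le_mul_of_one_le_left (norm_nonneg _) h2).trans h1
  refine ⟨?_, ?_, ?_, ?_⟩
  · rintro ⟨m, l⟩
    by_cases hm : m = 0
    · subst hm
      exact (YB_slow hSY hW p hp β t d x hβ ht hβt hd hx l).1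
    · exact (YB_fast hP1 hW p hp β t d x hβ ht hβt htA hd hx m l hm).1
  · rintro ⟨m, l⟩ hm
    exact (YB_fast hP1 hW p hp β t d x hβ ht hβt htA hd hx m l hm).2
  · intro k hk
    rw [← hw2 k hk]
    exact hB k hk
  · rintro ⟨m, l⟩
    by_cases hm : m = 0
    · subst hm
      exact (YB_slow hSY hW p hp β t d x hβ ht hβt hd hx l).2
    · exact (hB (m, l) hm).trans (mul_le_mul_of_nonneg_left (hw1 (m, l)).2.2 (by positivity))

end

end Pool.SQGA
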