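import Pool.Agent.Work.MP_a2fcf1_an_ar.I3

/-! # Block ZEQ (MP_a2fcf1_an): the energy identity of the difference -/

set_option autoImplicit false

namespace Pool.SQGA

open Set MeasureTheory
open Pool.Agent.Work.MP_a2fcf1_an_h64 (cr sc eu n1 ex GloballyRegular)
open Pool.SQGF (nq NB Sym Fr Adm Sw wt Y TT GS BB RD)

noncomputable section

namespace X_ZEQ

theorem adm_hS {B : Finset (ℤ × ℤ)} {κ α T : ℝ} {x : ℤ × ℤ → ℝ → ℂ} (hT : 0 ≤ T)
    (hx : GS B κ α T x) (t : ℝ) : Adm B (fun k => hS κ α x k t) := by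
  obtain ⟨h0, hc⟩ := hx.adm 0 ⟨le_rfl, hT⟩
  refine ⟨fun k hk => ?_, fun k => ?_⟩
  · show hS κ α x k t = 0
    unfold hS
    split_ifs with h
    · have h1 : x k 0 = 0 := h0 k hk
      rw [h1, mul_zero]
    · rfl
  · show hS κ α x (-k) t = (starRingEnd ℂ) (hS κ α x k t)
    unfold hS
    have h1 : (-k).1 = 0 ↔ k.1 = 0 := by
      show -k.1 = 0 ↔ k.1 = 0
      exact neg_eq_zero
    by_cases h : k.1 = 0
    · rw [if_pos h, if_pos (h1.2 h), Pool.Agent.Work.MP_a2fcf1_an_h64.eu_neg, map_mul,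
        Complex.conj_ofReal]
      have h2 : x (-k) 0 = (starRingEnd ℂ) (x k 0) := hc k
      rw [h2]
    · rw [if_neg h, if_neg (fun h' => h (h1.1 h')), map_zero]

theorem adm_hz {B : Finset (ℤ × ℤ)} {κ α T : ℝ} {x : ℤ × ℤ → ℝ → ℂ} (hT : 0 ≤ T)
    (hx : GS B κ α T x) {t : ℝ} (ht : t ∈ Icc 0 T) : Adm B (fun k => hz κ α x k t) := by
  obtain ⟨h0, hc⟩ := hx.adm t ht
  obtain ⟨h0', hc'⟩ := adm_hS hT hx t
  refine ⟨fun k hk => ?_, fun k => ?_⟩
  · show x k t - hS κ α x k t = 0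
    have h1 : x k t = 0 := h0 k hk
    have h2 : hS κ α x k t = 0 := h0' k hk
    rw [h1, h2, sub_zero]
  · show x (-k) t - hS κ α x (-k) t = (starRingEnd ℂ) (x k t - hS κ α x k t)
    have h1 : x (-k) t = (starRingEnd ℂ) (x k t) := hc k
    have h2 : hS κ α x (-k) t = (starRingEnd ℂ) (hS κ α x k t) := hc' k
    rw [h1, h2, map_sub]

theorem hasDeriv_hS (κ α : ℝ) (x : ℤ × ℤ → ℝ → ℂ) (k : ℤ × ℤ) (t : ℝ) :
    HasDerivAt (hS κ α x k) (-(((κ * eu k ^ (2 * α) : ℝ) : ℂ) * hS κ α x k t)) t := by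
  by_cases h : k.1 = 0
  · have e1 : hS κ α x k = fun t => ((Real.exp (-(κ * eu k ^ (2 * α) * t)) : ℝ) : ℂ) * x k 0 := by
      funext t
      unfold hS
      rw [if_pos h]
    rw [e1]
    have h1 : HasDerivAt (fun t : ℝ => Real.exp (-(κ * eu k ^ (2 * α) * t)))
        (Real.exp (-(κ * eu k ^ (2 * α) * t)) * -(κ * eu k ^ (2 * α))) t := by
      have h2 : HasDerivAt (fun t : ℝ => -(κ * eu k ^ (2 * α) * t)) (-(κ * eu k ^ (2 * α))) t := by
        have h3 := (hasDerivAt_id t).const_mul (-(κ * eu k ^ (2 * α)))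
        have h5 : (fun t : ℝ => -(κ * eu k ^ (2 * α) * t)) =
            fun t => -(κ * eu k ^ (2 * α)) * id t := by
          funext t
          show -(κ * eu k ^ (2 * α) * t) = -(κ * eu k ^ (2 * α)) * t
          ring
        rw [h5]
        exact h3.congr_deriv (mul_one _)
      exact h2.exp
    have h4 := (h1.ofReal_comp).mul_const (x k 0)
    refine h4.congr_deriv ?_
    push_cast
    ring
  · have e1 : hS κ α x k = fun _ => 0 := by
      funext t
      unfold hS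
      rw [if_neg h]
    rw [e1]
    have := hasDerivAt_const t (0 : ℂ)
    simpa using this

theorem NB_add {B : Finset (ℤ × ℤ)} {S z : ℤ × ℤ → ℂ} (hS : ∀ k, k ∉ B → S k = 0)
    (hz : ∀ k, k ∉ B → z k = 0) (hS0 : ∀ k : ℤ × ℤ, k.1 ≠ 0 → S k = 0) (k : ℤ × ℤ) :
    NB B (fun j => S j + z j) k =
      NB B z k + ∑ j ∈ B, ((2 * sc j (k - j) : ℝ) : ℂ) * (S j * z (k - j)) := by
  have e1 : ∀ j ∈ B, ((sc j (k - j) : ℝ) : ℂ) * ((S j + z j) * (S (k - j) + z (k - j))) =
      ((sc j (k - j) : ℝ) : ℂ) * (z j * z (k - j)) +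
      ((sc j (k - j) : ℝ) : ℂ) * (S j * z (k - j)) +
      ((sc j (k - j) : ℝ) : ℂ) * (z j * S (k - j)) := by
    intro j _
    have h1 : ((sc j (k - j) : ℝ) : ℂ) * (S j * S (k - j)) = 0 := by
      by_cases h2 : j.1 = 0
      · by_cases h3 : (k - j).1 = 0
        · have h4 : cr j (k - j) = 0 := by
            show j.1 * (k - j).2 - j.2 * (k - j).1 = 0
            rw [h2, h3]
            ring
          have h5 : sc j (k - j) = 0 := by
            unfold sc
            rw [h4]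
            simp
          rw [h5]
          simp
        · rw [hS0 _ h3, mul_zero, mul_zero]
      · rw [hS0 _ h2, zero_mul, mul_zero]
    have h6 : ((sc j (k - j) : ℝ) : ℂ) * ((S j + z j) * (S (k - j) + z (k - j))) =
        ((sc j (k - j) : ℝ) : ℂ) * (S j * S (k - j)) +
        (((sc j (k - j) : ℝ) : ℂ) * (z j * z (k - j)) +
        ((sc j (k - j) : ℝ) : ℂ) * (S j * z (k - j)) +
        ((sc j (k - j) : ℝ) : ℂ) * (z j * S (k - j))) := by ring
    rw [h6, h1, zero_add]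
  have e2 : ∑ j ∈ B, ((sc j (k - j) : ℝ) : ℂ) * (z j * S (k - j)) =
      ∑ j ∈ B, ((sc j (k - j) : ℝ) : ℂ) * (S j * z (k - j)) := by
    have e3 : ∑ j ∈ B, ((sc j (k - j) : ℝ) : ℂ) * (z j * S (k - j)) =
        ∑' j, ((sc j (k - j) : ℝ) : ℂ) * (z j * S (k - j)) := by
      refine (tsum_eq_sum fun j hj => ?_).symm
      rw [hz j hj, zero_mul, mul_zero]
    have e4 : ∑ j ∈ B, ((sc j (k - j) : ℝ) : ℂ) * (S j * z (k - j)) =
        ∑' j, ((sc j (k - j) : ℝ) : ℂ) * (S j * z (k - j)) := by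
      refine (tsum_eq_sum fun j hj => ?_).symm
      rw [hS j hj, zero_mul, mul_zero]
    rw [e3, e4, ← (Equiv.subLeft k).tsum_eq]
    refine tsum_congr fun j => ?_
    rw [Equiv.subLeft_apply, sub_sub_cancel, Pool.Agent.Work.MP_a2fcf1_an_h64.sc_comm]
    ring
  unfold NB
  rw [Finset.sum_congr rfl e1, Finset.sum_add_distrib, Finset.sum_add_distrib, e2, add_assoc,
    ← Finset.sum_add_distrib]
  congr 1
  refine Finset.sum_congr rfl fun j _ => ?_
  push_cast
  ring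

end X_ZEQ

open X_ZEQ

theorem p_ZEQ : Stmt_ZEQ := by
  intro B κ α T x hB hB0 hT hx t ht
  have hAS := adm_hS hT hx t
  have hAz := adm_hz hT hx ht
  refine ⟨hAS, hAz, fun w => ?_⟩
  have hd : ∀ k ∈ B, HasDerivWithinAt (hz κ α x k)
      (-(((κ * eu k ^ (2 * α) : ℝ) : ℂ) * hz κ α x k t) -
        (NB B (fun j => hz κ α x j t) k + ∑ j ∈ B, ((2 * sc j (k - j) : ℝ) : ℂ) *
          (hS κ α x j t * hz κ α x (k - j) t))) (Icc 0 T) t := by
    intro k hk
    have h1 := (hx.ode k hk t ht).sub (hasDeriv_hS κ α x k t).hasDerivWithinAt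
    refine h1.congr_deriv ?_
    have h2 := NB_add (B := B) (S := fun k => hS κ α x k t) (z := fun k => hz κ α x k t)
      hAS.1 hAz.1 (fun k hk => by show hS κ α x k t = 0; unfold hS; rw [if_neg hk]) k
    have h3 : (fun j => hS κ α x j t + hz κ α x j t) = fun j => x j t := by
      funext j
      unfold hz
      ring
    have h4 : NB B (fun j => hS κ α x j t + hz κ α x j t) k =
      NB B (fun j => hz κ α x j t) k + ∑ j ∈ B, ((2 * sc j (k - j) : ℝ) : ℂ) *
          (hS κ α x j t * hz κ α x (k - j) t) := h2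
    rw [← h4, h3]
    unfold hz
    ring
  have h1 : ∀ k ∈ B, HasDerivWithinAt (fun t => w k * ‖hz κ α x k t‖ ^ 2)
      (w k * (2 * inner ℝ (hz κ α x k t) (-(((κ * eu k ^ (2 * α) : ℝ) : ℂ) * hz κ α x k t) -
        (NB B (fun j => hz κ α x j t) k + ∑ j ∈ B, ((2 * sc j (k - j) : ℝ) : ℂ) *
          (hS κ α x j t * hz κ α x (k - j) t))))) (Icc 0 T) t :=
    fun k hk => ((hd k hk).norm_sq).const_mul (w k)
  have h2 := HasDerivWithinAt.fun_sum h1
  refine h2.congr_deriv ?_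
  have h3 : ∀ k ∈ B, w k * (2 * inner ℝ (hz κ α x k t)
        (-(((κ * eu k ^ (2 * α) : ℝ) : ℂ) * hz κ α x k t) -
        (NB B (fun j => hz κ α x j t) k + ∑ j ∈ B, ((2 * sc j (k - j) : ℝ) : ℂ) *
          (hS κ α x j t * hz κ α x (k - j) t)))) =
      -(2 * κ * (w k * eu k ^ (2 * α) * ‖hz κ α x k t‖ ^ 2)) -
        2 * (w k * ((starRingEnd ℂ) (hz κ α x k t) * NB B (fun j => hz κ α x j t) k).re) -
        2 * (w k * ((starRingEnd ℂ) (hz κ α x k t) *
          ∑ j ∈ B, ((2 * sc j (k - j) : ℝ) : ℂ) *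
            (hS κ α x j t * hz κ α x (k - j) t)).re) := by
    intro k _
    rw [Complex.inner]
    generalize NB B (fun j => hz κ α x j t) k = u
    generalize ∑ j ∈ B, ((2 * sc j (k - j) : ℝ) : ℂ) * (hS κ α x j t * hz κ α x (k - j) t) = v
    generalize hz κ α x k t = y
    have h4 : (-(((κ * eu k ^ (2 * α) : ℝ) : ℂ) * y) - (u + v)) * (starRingEnd ℂ) y =
        -(((κ * eu k ^ (2 * α) : ℝ) : ℂ) * (y * (starRingEnd ℂ) y)) -
          (starRingEnd ℂ) y * u - (starRingEnd ℂ) y * v := by ring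
    rw [h4, Complex.mul_conj, Complex.sub_re, Complex.sub_re, Complex.neg_re,
      ← Complex.ofReal_mul, Complex.ofReal_re, Complex.normSq_eq_norm_sq]
    ring
  rw [Finset.sum_congr rfl h3, Finset.sum_sub_distrib, Finset.sum_sub_distrib,
    Finset.sum_neg_distrib, ← Finset.mul_sum, ← Finset.mul_sum, ← Finset.mul_sum]
  rfl

end

end Pool.SQGA
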