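import Pool.Agent.Work.MP_a2fcf1_an_ar.B_ABI
import Pool.Agent.Work.MP_a2fcf1_an_ar.B_ADA
import Pool.Agent.Work.MP_a2fcf1_an_ar.B_ALI
import Pool.Agent.Work.MP_a2fcf1_an_ar.B_AOD
import Pool.Agent.Work.MP_a2fcf1_an_ar.B_BO3
import Pool.Agent.Work.MP_a2fcf1_an_ar.B_BRK
import Pool.Agent.Work.MP_a2fcf1_an_ar.B_CNV
import Pool.Agent.Work.MP_a2fcf1_an_ar.B_CTG
import Pool.Agent.Work.MP_a2fcf1_an_ar.B_CVA
import Pool.Agent.Work.MP_a2fcf1_an_ar.B_CVW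
import Pool.Agent.Work.MP_a2fcf1_an_ar.B_DEC
import Pool.Agent.Work.MP_a2fcf1_an_ar.B_EEB
import Pool.Agent.Work.MP_a2fcf1_an_ar.B_EED
import Pool.Agent.Work.MP_a2fcf1_an_ar.B_EEM
import Pool.Agent.Work.MP_a2fcf1_an_ar.B_EET
import Pool.Agent.Work.MP_a2fcf1_an_ar.B_EEW
import Pool.Agent.Work.MP_a2fcf1_an_ar.B_EXPW
import Pool.Agent.Work.MP_a2fcf1_an_ar.B_EZW
import Pool.Agent.Work.MP_a2fcf1_an_ar.B_FSC
import Pool.Agent.Work.MP_a2fcf1_an_ar.B_FSD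
import Pool.Agent.Work.MP_a2fcf1_an_ar.B_FSM
import Pool.Agent.Work.MP_a2fcf1_an_ar.B_GLU
import Pool.Agent.Work.MP_a2fcf1_an_ar.B_GRQ
import Pool.Agent.Work.MP_a2fcf1_an_ar.B_GSM
import Pool.Agent.Work.MP_a2fcf1_an_ar.B_GVB
import Pool.Agent.Work.MP_a2fcf1_an_ar.B_KER
import Pool.Agent.Work.MP_a2fcf1_an_ar.B_LIA
import Pool.Agent.Work.MP_a2fcf1_an_ar.B_LIB
import Pool.Agent.Work.MP_a2fcf1_an_ar.B_LIC
import Pool.Agent.Work.MP_a2fcf1_an_ar.B_LNI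
import Pool.Agent.Work.MP_a2fcf1_an_ar.B_LNT
import Pool.Agent.Work.MP_a2fcf1_an_ar.B_MAIN
import Pool.Agent.Work.MP_a2fcf1_an_ar.B_MLT
import Pool.Agent.Work.MP_a2fcf1_an_ar.B_NUM
import Pool.Agent.Work.MP_a2fcf1_an_ar.B_OMS
import Pool.Agent.Work.MP_a2fcf1_an_ar.B_P1
import Pool.Agent.Work.MP_a2fcf1_an_ar.B_P2
import Pool.Agent.Work.MP_a2fcf1_an_ar.B_PCN
import Pool.Agent.Work.MP_a2fcf1_an_ar.B_PIC
import Pool.Agent.Work.MP_a2fcf1_an_ar.B_R1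
import Pool.Agent.Work.MP_a2fcf1_an_ar.B_RDA
import Pool.Agent.Work.MP_a2fcf1_an_ar.B_RES
import Pool.Agent.Work.MP_a2fcf1_an_ar.B_RIA
import Pool.Agent.Work.MP_a2fcf1_an_ar.B_RIB
import Pool.Agent.Work.MP_a2fcf1_an_ar.B_RIM
import Pool.Agent.Work.MP_a2fcf1_an_ar.B_RKR
import Pool.Agent.Work.MP_a2fcf1_an_ar.B_SML
import Pool.Agent.Work.MP_a2fcf1_an_ar.B_SOL
import Pool.Agent.Work.MP_a2fcf1_an_ar.B_ST1
import Pool.Agent.Work.MP_a2fcf1_an_ar.B_STB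
import Pool.Agent.Work.MP_a2fcf1_an_ar.B_SWB
import Pool.Agent.Work.MP_a2fcf1_an_ar.B_SYA
import Pool.Agent.Work.MP_a2fcf1_an_ar.B_SYG
import Pool.Agent.Work.MP_a2fcf1_an_ar.B_SYP
import Pool.Agent.Work.MP_a2fcf1_an_ar.B_TIM
import Pool.Agent.Work.MP_a2fcf1_an_ar.B_TSD
import Pool.Agent.Work.MP_a2fcf1_an_ar.B_UPB
import Pool.Agent.Work.MP_a2fcf1_an_ar.B_UPC
import Pool.Agent.Work.MP_a2fcf1_an_ar.B_VR
import Pool.Agent.Work.MP_a2fcf1_an_ar.B_WTB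
import Pool.Agent.Work.MP_a2fcf1_an_ar.B_YB
import Pool.Agent.Work.MP_a2fcf1_an_ar.B_ZEQ
import Pool.Agent.Work.MP_a2fcf1_an_fs.All

/-! # Assembly of the theorem on analytic data, fast in one direction (MP_a2fcf1_an) -/

set_option autoImplicit false

namespace Pool.SQGA

theorem a_CNV : Stmt_CNV := p_CNV
theorem a_FSC : Stmt_FSC := p_FSC
theorem a_FSD : Stmt_FSD := p_FSD
theorem a_FSM : Stmt_FSM := p_FSM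
theorem a_GLU : Stmt_GLU := p_GLU
theorem a_KER : Stmt_KER := p_KER
theorem a_LNI : Stmt_LNI := p_LNI
theorem a_LNT : Stmt_LNT := p_LNT a_LNI
theorem a_NUM : Stmt_NUM := p_NUM
theorem a_OMS : Stmt_OMS := p_OMS
theorem a_PIC : Stmt_PIC := p_PIC
theorem a_RIA : Stmt_RIA := p_RIA
theorem a_RIB : Stmt_RIB := p_RIB
theorem a_RIM : Stmt_RIM := p_RIM
theorem a_SML : Stmt_SML := p_SML
theorem a_SWB : Stmt_SWB := p_SWB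
theorem a_TSD : Stmt_TSD := p_TSD
theorem a_UPB : Stmt_UPB := p_UPB
theorem a_UPC : Stmt_UPC := p_UPC a_UPB
theorem a_VR : Stmt_VR := p_VR
theorem a_WTB : Stmt_WTB := p_WTB a_OMS
theorem a_ZEQ : Stmt_ZEQ := p_ZEQ
theorem a_BO3 : Stmt_BO3 := p_BO3 a_ZEQ a_SWB a_LNT
theorem a_CVA : Stmt_CVA := p_CVA a_FSC a_FSM
theorem a_CVW : Stmt_CVW := p_CVW a_OMS
theorem a_EEB : Stmt_EEB := p_EEB a_VR a_FSC
theorem a_EXPW : Stmt_EXPW := p_EXPW a_OMS a_FSC a_FSM a_CVW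
theorem a_GRQ : Stmt_GRQ := p_GRQ a_ZEQ a_SWB a_LNT
theorem a_STB : Stmt_STB := p_STB a_BO3 a_GRQ Pool.SQGF.a_GAL Pool.SQGF.p_PTW Pool.SQGF.a_LIM
theorem a_SYA : Stmt_SYA := p_SYA a_EEB a_VR
theorem a_SYP : Stmt_SYP := p_SYP a_EEB
theorem a_TIM : Stmt_TIM := p_TIM a_WTB
theorem a_EEW : Stmt_EEW := p_EEW a_VR a_EXPW
theorem a_EZW : Stmt_EZW := p_EZW a_OMS a_FSC a_FSM a_EXPW a_VR a_EEW
theorem a_RKR : Stmt_RKR := p_RKR a_KER a_EZW a_EEW a_EEB a_OMS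
theorem a_SYG : Stmt_SYG := p_SYG a_SYP a_VR
theorem a_EED : Stmt_EED := p_EED a_EEW a_FSD a_FSM a_FSC a_OMS a_VR
theorem a_EEM : Stmt_EEM := p_EEM a_EEW a_FSM a_FSC a_CVA
theorem a_EET : Stmt_EET := p_EET a_VR a_EEW a_FSM a_FSC a_OMS
theorem a_MLT : Stmt_MLT := p_MLT a_EEM a_EEB a_EEW a_CVA a_FSM
theorem a_PCN : Stmt_PCN := p_PCN a_EEW a_EEB a_EET a_OMS
theorem a_RES : Stmt_RES := p_RES a_RKR a_KER a_EZW a_OMS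
theorem a_ALI : Stmt_ALI := p_ALI a_MLT a_WTB a_EEB a_SYP a_OMS
theorem a_BRK : Stmt_BRK := p_BRK a_EED a_EEM a_EEW a_CVA a_FSM a_VR a_OMS
theorem a_DEC : Stmt_DEC := p_DEC a_EED a_EEW a_EEB a_VR a_WTB a_OMS a_CVA
theorem a_P1 : Stmt_P1 := p_P1 a_RES a_RIM a_EEW a_EEB a_OMS
theorem a_P2 : Stmt_P2 := p_P2 a_RES a_RIM a_EEW a_EEB a_OMS
theorem a_R1 : Stmt_R1 := p_R1 a_RES a_RIA a_RIB a_EEW a_EEB a_EEM
theorem a_RDA : Stmt_RDA := p_RDA a_DEC a_WTB a_VR a_OMS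
theorem a_YB : Stmt_YB := p_YB a_P1 a_SYP a_WTB
theorem a_CTG : Stmt_CTG := p_CTG a_PCN a_YB a_WTB a_VR
theorem a_GSM : Stmt_GSM := p_GSM a_YB a_WTB a_CNV a_VR a_OMS
theorem a_LIA : Stmt_LIA := p_LIA a_R1 a_SYP a_WTB a_OMS
theorem a_LIB : Stmt_LIB := p_LIB a_VR a_WTB a_CNV a_YB a_GSM
theorem a_LIC : Stmt_LIC := p_LIC a_YB a_GSM a_WTB a_CNV a_P2 a_SYP a_OMS
theorem a_SOL : Stmt_SOL := p_SOL a_LIA a_LIB a_LIC a_CTG a_SYG a_TIM a_PIC a_WTB a_GSM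
theorem a_ABI : Stmt_ABI := p_ABI a_BRK a_MLT a_YB a_WTB a_VR a_GSM a_RDA a_DEC a_CNV a_EEB a_OMS
theorem a_ADA : Stmt_ADA := p_ADA a_ALI a_ABI a_CVA a_DEC a_RDA a_VR a_EEW a_EEB a_WTB a_OMS
theorem a_GVB : Stmt_GVB := p_GVB a_LIA a_LIB a_LIC a_WTB
theorem a_AOD : Stmt_AOD := p_AOD a_TSD a_ADA a_EET a_CTG a_GVB a_VR a_WTB a_EEB a_OMS
theorem a_ST1 : Stmt_ST1 := p_ST1 a_SOL a_SYA a_UPB a_UPC a_RDA a_AOD
theorem a_MAIN : Stmt_MAIN := p_MAIN a_ST1 a_STB a_GLU a_DEC a_SML a_UPB a_NUM Pool.SQGF.p_SYM Pool.SQGF.p_BRI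

end Pool.SQGA
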