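import Pool.Agent.Work.MP_a2fcf1_an_ar.I3

/-!
# Block ABI: the bilinear part, back to the Fourier coefficients
-/

set_option autoImplicit false

namespace Pool.SQGA

open Set MeasureTheory
open Pool.Agent.Work.MP_a2fcf1_an_h64 (cr sc eu n1 ex GloballyRegular)
open Pool.SQGF (nq NB Sym Fr Adm Sw wt Y TT GS BB RD)

noncomputable section

theorem ABI_z1 : Summable fun z : ℤ => ((1 + |(z : ℝ)|) ^ 2)⁻¹ := by
  have h : Summable fun n : ℕ => (((n : ℝ) + 1) ^ 2)⁻¹ := by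
    have h1 := (summable_nat_add_iff 1).mpr
      (Real.summable_nat_pow_inv.mpr (by norm_num : 1 < 2))
    simpa using h1
  apply Summable.of_nat_of_neg
  · refine h.congr fun n => ?_
    simp [add_comm]
  · refine h.congr fun n => ?_
    simp [add_comm]

theorem ABI_n1 (k : ℤ × ℤ) : (n1 k : ℝ) = |(k.1 : ℝ)| + |(k.2 : ℝ)| :=
  Pool.Agent.Work.MP_a2fcf1_an_h64.n1_cast k

theorem ABI_z2 : Summable fun k : ℤ × ℤ => ((1 + (n1 k : ℝ)) ^ 4)⁻¹ := by
  have h1 : Summable fun k : ℤ × ℤ => ((1 + |(k.1 : ℝ)|) ^ 2)⁻¹ * ((1 + |(k.2 : ℝ)|) ^ 2)⁻¹ :=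
    ABI_z1.mul_of_nonneg ABI_z1 (fun z => by positivity) (fun z => by positivity)
  refine Summable.of_nonneg_of_le (fun k => by positivity) (fun k => ?_) h1
  rw [← mul_inv]
  refine inv_anti₀ (by positivity) ?_
  rw [ABI_n1]
  have ha := abs_nonneg (k.1 : ℝ)
  have hb := abs_nonneg (k.2 : ℝ)
  have h2 : (1 + |(k.1 : ℝ)|) * (1 + |(k.2 : ℝ)|) ≤ (1 + (|(k.1 : ℝ)| + |(k.2 : ℝ)|)) ^ 2 := by
    nlinarith
  calc (1 + |(k.1 : ℝ)|) ^ 2 * (1 + |(k.2 : ℝ)|) ^ 2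
      = ((1 + |(k.1 : ℝ)|) * (1 + |(k.2 : ℝ)|)) ^ 2 := by ring
    _ ≤ ((1 + (|(k.1 : ℝ)| + |(k.2 : ℝ)|)) ^ 2) ^ 2 := pow_le_pow_left₀ (by positivity) h2 2
    _ = (1 + (|(k.1 : ℝ)| + |(k.2 : ℝ)|)) ^ 4 := by ring

theorem ABI_swap (F : ℤ → ℤ → ℤ → ℂ)
    (hF : Summable (fun q : ℤ × (ℤ × ℤ) => F q.1 q.2.1 q.2.2)) :
    ∑' l', ∑' j : ℤ × ℤ, F l' j.1 j.2 = ∑' m₁, ∑' l', ∑' a, F l' m₁ a := by
  have h1 : ∀ l', Summable (fun j : ℤ × ℤ => F l' j.1 j.2) := fun l' => hF.prod_factor l'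
  have h2 : ∀ l', ∑' j : ℤ × ℤ, F l' j.1 j.2 = ∑' m₁, ∑' a, F l' m₁ a := fun l' =>
    (h1 l').tsum_prod
  rw [tsum_congr h2]
  have h3 : Summable (fun q : (ℤ × ℤ) × ℤ => F q.1.1 q.1.2 q.2) :=
    (Equiv.prodAssoc ℤ ℤ ℤ).summable_iff.mpr hF
  have h4 : Summable (fun q : ℤ × ℤ => ∑' a, F q.1 q.2 a) := h3.prod
  exact (Summable.tsum_comm (f := fun l' m₁ => ∑' a, F l' m₁ a) h4).symm

theorem ABI_cv (a b : ℤ → ℂ) (l : ℤ) : cv a b l = ∑' l', a (l - l') * b l' := by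
  unfold cv
  rw [← (Equiv.subLeft l).tsum_eq (fun l' => a (l - l') * b l')]
  refine tsum_congr fun j => ?_
  simp only [Equiv.subLeft_apply]
  rw [sub_sub_cancel]

theorem ABI_eu (k : ℤ × ℤ) : 0 ≤ 1 / eu k ∧ 1 / eu k ≤ 1 := by
  by_cases hk : k = 0
  · subst hk
    rw [Pool.Agent.Work.MP_a2fcf1_an_h64.eu_zero]
    norm_num
  · have h := Pool.Agent.Work.MP_a2fcf1_an_h64.one_le_eu hk
    exact ⟨by positivity, by rw [div_le_one (by linarith)]; exact h⟩

theorem p_ABI (hBRK : Stmt_BRK) (hMLT : Stmt_MLT) (hYB : Stmt_YB) (hWTB : Stmt_WTB)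
    (hVR : Stmt_VR) (_hGSM : Stmt_GSM) (hRDA : Stmt_RDA) (_hDEC : Stmt_DEC) (_hCNV : Stmt_CNV)
    (hEEB : Stmt_EEB) (hOMS : Stmt_OMS) : Stmt_ABI := by
  intro p hp β t R x hβ ht hβt htA hR hx k
  obtain ⟨m, l⟩ := k
  have hs := hp.s_pos
  -- summability of the weights
  have hW0 : ∀ j : ℤ × ℤ, 0 < Wt p β t j := fun j => ((hWTB p hp β t hβ ht hβt).1 j).1
  have hwW : ∀ j : ℤ × ℤ, wv p β t j ≤ Wt p β t j := fun j =>
    ((hWTB p hp β t hβ ht hβt).1 j).2.2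
  have hWe : ∀ j : ℤ × ℤ, Wt p β t j ≤ Real.exp (-(p.s / 2 * n1 j)) / (1 + n1 j) ^ 4 :=
    (hWTB p hp β t hβ ht hβt).2.2.2.2.2
  have sumW : Summable (fun j : ℤ × ℤ => (1 + (n1 j : ℝ)) * Wt p β t j) := by
    refine Summable.of_nonneg_of_le (fun j => mul_nonneg (by positivity) (hW0 j).le)
      (fun j => ?_) (ABI_z2.mul_left (1 + 2 / p.s))
    have h1 : (n1 j : ℝ) ≤ 2 / p.s * Real.exp (p.s / 2 * n1 j) := by
      have h2 := Real.add_one_le_exp (p.s / 2 * n1 j)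
      have h3 : (n1 j : ℝ) = 2 / p.s * (p.s / 2 * n1 j) := by field_simp
      calc (n1 j : ℝ) = 2 / p.s * (p.s / 2 * n1 j) := h3
        _ ≤ 2 / p.s * Real.exp (p.s / 2 * n1 j) :=
          mul_le_mul_of_nonneg_left (by linarith) (by positivity)
    have h4 : (1 : ℝ) ≤ Real.exp (p.s / 2 * n1 j) := Real.one_le_exp (by positivity)
    have h5 : (1 + (n1 j : ℝ)) * Real.exp (-(p.s / 2 * n1 j)) ≤ 1 + 2 / p.s := by
      calc (1 + (n1 j : ℝ)) * Real.exp (-(p.s / 2 * n1 j))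
          ≤ ((1 + 2 / p.s) * Real.exp (p.s / 2 * n1 j)) * Real.exp (-(p.s / 2 * n1 j)) := by
            refine mul_le_mul_of_nonneg_right ?_ (Real.exp_pos _).le
            linarith
        _ = 1 + 2 / p.s := by
            rw [mul_assoc, ← Real.exp_add]
            simp
    calc (1 + (n1 j : ℝ)) * Wt p β t j
        ≤ (1 + (n1 j : ℝ)) * (Real.exp (-(p.s / 2 * n1 j)) / (1 + n1 j) ^ 4) :=
          mul_le_mul_of_nonneg_left (hWe j) (by positivity)
      _ = ((1 + (n1 j : ℝ)) * Real.exp (-(p.s / 2 * n1 j))) * ((1 + (n1 j : ℝ)) ^ 4)⁻¹ := by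
          rw [div_eq_mul_inv]
          ring
      _ ≤ (1 + 2 / p.s) * ((1 + (n1 j : ℝ)) ^ 4)⁻¹ :=
          mul_le_mul_of_nonneg_right h5 (by positivity)
  have hxW : ∀ j : ℤ × ℤ, ‖x j‖ ≤ R * Wt p β t j := fun j =>
    le_trans (hx j) (mul_le_mul_of_nonneg_left (hwW j) hR)
  have hYW : ∀ j : ℤ × ℤ, ‖Yv p t x j‖ ≤ 2 * R * Wt p β t j :=
    (hYB p hp β t R x hβ ht hβt htA hR hx).2.2.2
  have sumY : Summable (fun j : ℤ × ℤ => (1 + (n1 j : ℝ)) * ‖Yv p t x j‖) := by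
    refine Summable.of_nonneg_of_le (fun j => by positivity) (fun j => ?_)
      (sumW.mul_left (2 * R))
    calc (1 + (n1 j : ℝ)) * ‖Yv p t x j‖ ≤ (1 + (n1 j : ℝ)) * (2 * R * Wt p β t j) :=
          mul_le_mul_of_nonneg_left (hYW j) (by positivity)
      _ = 2 * R * ((1 + (n1 j : ℝ)) * Wt p β t j) := by ring
  have sumx : Summable (fun j : ℤ × ℤ => (1 + (n1 j : ℝ)) * ‖x j‖) := by
    refine Summable.of_nonneg_of_le (fun j => by positivity) (fun j => ?_)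
      (sumW.mul_left R)
    calc (1 + (n1 j : ℝ)) * ‖x j‖ ≤ (1 + (n1 j : ℝ)) * (R * Wt p β t j) :=
          mul_le_mul_of_nonneg_left (hxW j) (by positivity)
      _ = R * ((1 + (n1 j : ℝ)) * Wt p β t j) := by ring
  have sumA : Summable (fun b : ℤ => (1 + |(b : ℝ)|) * ‖Sl p t b‖) := by
    refine Summable.of_nonneg_of_le (fun b => by positivity) (fun b => ?_)
      ((hp.sum.mul_left 2).add (hasSum_ite_eq (0 : ℤ) ‖p.A 0‖).summable)
    have h1 : ‖Sl p t b‖ ≤ ‖p.A b‖ := ((hVR p hp).1 t b ht).1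
    refine le_trans (mul_le_mul_of_nonneg_left h1 (by positivity)) ?_
    by_cases hb : b = 0
    · subst hb
      simp
    · rw [if_neg hb, add_zero]
      have h2 : (1 : ℝ) ≤ |(b : ℝ)| := by
        have : (1 : ℤ) ≤ |b| := Int.one_le_abs hb
        exact_mod_cast this
      have h3 : 1 ≤ om p.s b := hOMS.1 p.s b hs.le
      have h4 : 0 ≤ |(b : ℝ)| * ‖p.A b‖ := by positivity
      have h5 : |(b : ℝ)| * ‖p.A b‖ ≤ om p.s b * (|(b : ℝ)| * ‖p.A b‖) :=
        le_mul_of_one_le_left h4 h3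
      have h6 : ‖p.A b‖ ≤ |(b : ℝ)| * ‖p.A b‖ := le_mul_of_one_le_left (norm_nonneg _) h2
      nlinarith
  have sumS : Summable (fun j : ℤ × ℤ =>
      if j.1 = 0 then (1 + |(j.2 : ℝ)|) * ‖Sl p t j.2‖ else 0) := by
    have hinj : Function.Injective (fun b : ℤ => ((0 : ℤ), b)) := fun a b h =>
      (Prod.mk.inj h).2
    refine (hinj.summable_iff ?_).mp ?_
    · rintro ⟨a, b⟩ hab
      rw [if_neg]
      rintro rfl
      exact hab ⟨b, rfl⟩
    · refine sumA.congr fun b => ?_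
      simp
  have sumX : Summable (fun j : ℤ × ℤ => (1 + (n1 j : ℝ)) * ‖xh p t x j‖) := by
    refine Summable.of_nonneg_of_le (fun j => by positivity) (fun j => ?_) (sumx.add sumS)
    unfold xh
    by_cases hj : j.1 = 0
    · rw [if_pos hj, if_pos hj]
      have h1 : (n1 j : ℝ) = |(j.2 : ℝ)| := by
        rw [ABI_n1, hj]
        simp
      rw [h1]
      calc (1 + |(j.2 : ℝ)|) * ‖x j + Sl p t j.2‖
          ≤ (1 + |(j.2 : ℝ)|) * (‖x j‖ + ‖Sl p t j.2‖) :=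
            mul_le_mul_of_nonneg_left (norm_add_le _ _) (by positivity)
        _ = _ := by ring
    · rw [if_neg hj, if_neg hj, add_zero, add_zero]
  -- fibres
  have hfib : ∀ (f : ℤ × ℤ → ℂ) (a : ℤ), Summable (fun j : ℤ × ℤ => (1 + (n1 j : ℝ)) * ‖f j‖) →
      Summable (fun b : ℤ => (1 + |(b : ℝ)|) * ‖f (a, b)‖) := by
    intro f a hf
    have hinj : Function.Injective (fun b : ℤ => (a, b)) := fun b c h => (Prod.mk.inj h).2
    refine Summable.of_nonneg_of_le (fun b => by positivity) (fun b => ?_)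
      (hf.comp_injective hinj)
    show (1 + |(b : ℝ)|) * ‖f (a, b)‖ ≤ (1 + (n1 (a, b) : ℝ)) * ‖f (a, b)‖
    refine mul_le_mul_of_nonneg_right ?_ (norm_nonneg _)
    rw [ABI_n1]
    have := abs_nonneg (((a, b) : ℤ × ℤ).1 : ℝ)
    show 1 + |(b : ℝ)| ≤ 1 + (|(a : ℝ)| + |(b : ℝ)|)
    have h2 := abs_nonneg (a : ℝ)
    linarith
  -- the triple family
  obtain ⟨F, hFdef⟩ : ∃ F : ℤ → ℤ → ℤ → ℂ, F = fun l' m₁ a => ee p m t (l - l') *
      (((m₁ * (l' - a) - a * (m - m₁) : ℤ) : ℂ) *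
        (Yv p t x (m₁, a) * xh p t x (m - m₁, l' - a))) := ⟨_, rfl⟩
  have hFn : Summable (fun q : ℤ × (ℤ × ℤ) => ‖F q.1 q.2.1 q.2.2‖) := by
    have hinj : Function.Injective
        (fun q : ℤ × (ℤ × ℤ) => ((q.2, ((m, q.1) : ℤ × ℤ) - q.2) : (ℤ × ℤ) × (ℤ × ℤ))) := by
      rintro ⟨a, b⟩ ⟨c, d⟩ h
      obtain ⟨h1, h2⟩ := Prod.mk.inj h
      simp only at h1 h2
      subst h1
      have h3 : ((m, a) : ℤ × ℤ) = (m, c) := sub_left_injective h2
      rw [(Prod.mk.inj h3).2]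
    have h1 := (sumY.mul_of_nonneg sumX (fun j => by positivity)
      (fun j => by positivity)).comp_injective hinj
    refine Summable.of_nonneg_of_le (fun q => norm_nonneg _) (fun q => ?_) h1
    obtain ⟨l', m₁, a⟩ := q
    show ‖F l' m₁ a‖ ≤ ((1 + (n1 (m₁, a) : ℝ)) * ‖Yv p t x (m₁, a)‖) *
      ((1 + (n1 (m - m₁, l' - a) : ℝ)) * ‖xh p t x (m - m₁, l' - a)‖)
    rw [hFdef]
    simp only [norm_mul]
    have h2 : ‖ee p m t (l - l')‖ ≤ 1 := ((hEEB p hp).1 m t (l - l') ht).1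
    have h3 : ‖((m₁ * (l' - a) - a * (m - m₁) : ℤ) : ℂ)‖ ≤
        (n1 (m₁, a) : ℝ) * n1 (m - m₁, l' - a) := by
      have h4 := Pool.Agent.Work.MP_a2fcf1_an_h64.abs_cr_le_n1 (m₁, a) (m - m₁, l' - a)
      have h5 : cr (m₁, a) (m - m₁, l' - a) = m₁ * (l' - a) - a * (m - m₁) := rfl
      rw [h5] at h4
      rw [Complex.norm_intCast]
      exact h4
    have hn1 : (0 : ℝ) ≤ n1 (m₁, a) := Nat.cast_nonneg _
    have hn2 : (0 : ℝ) ≤ n1 (m - m₁, l' - a) := Nat.cast_nonneg _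
    have h6 : ‖((m₁ * (l' - a) - a * (m - m₁) : ℤ) : ℂ)‖ ≤
        (1 + (n1 (m₁, a) : ℝ)) * (1 + (n1 (m - m₁, l' - a) : ℝ)) := by
      refine le_trans h3 ?_
      nlinarith
    calc ‖ee p m t (l - l')‖ * (‖((m₁ * (l' - a) - a * (m - m₁) : ℤ) : ℂ)‖ *
          (‖Yv p t x (m₁, a)‖ * ‖xh p t x (m - m₁, l' - a)‖))
        ≤ 1 * (((1 + (n1 (m₁, a) : ℝ)) * (1 + (n1 (m - m₁, l' - a) : ℝ))) *
          (‖Yv p t x (m₁, a)‖ * ‖xh p t x (m - m₁, l' - a)‖)) := by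
          refine mul_le_mul h2 ?_ (by positivity) zero_le_one
          exact mul_le_mul_of_nonneg_right h6 (by positivity)
      _ = _ := by ring
  have hG : ∀ l', ee p m t (l - l') * Gb p t x (m, l') = ∑' j : ℤ × ℤ, F l' j.1 j.2 := by
    intro l'
    unfold Gb
    rw [← tsum_mul_left]
    refine tsum_congr fun j => ?_
    rw [hFdef]
    rfl
  refine ⟨?_, ?_⟩
  · show Summable fun l' => ‖ee p m t (l - l') * Gb p t x (m, l')‖
    refine Summable.of_nonneg_of_le (fun l' => norm_nonneg _) (fun l' => ?_) hFn.prod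
    rw [hG l']
    exact norm_tsum_le_tsum_norm (hFn.prod_factor l')
  · show ∑' l', ee p m t (l - l') * Gb p t x (m, l') = _
    rw [tsum_congr hG, ABI_swap F (Summable.of_norm hFn)]
    have hav : ∀ a b : ℤ, cv (ee p a t) (fun b => xh p t x (a, b)) b = av p t x (a, b) := by
      intro a b
      rw [ABI_cv]
      rfl
    have hax : ∀ a b : ℤ, cv (ee p a t) (fun b => x (a, b)) b = ax p t x (a, b) := by
      intro a b
      rw [ABI_cv]
      rfl
    have hY : ∀ a b : ℤ, cv (ee p a t) (fun b => Yv p t x (a, b)) b =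
        (p.N : ℂ) * (((1 / eu (Dk p (a, b)) : ℝ) : ℂ) * ax p t x (a, b)) := by
      intro a b
      have h1 := (hMLT p hp a t (fun b => 1 / eu (Dk p (a, b))) (fun b => x (a, b)) ht
        ⟨1, fun b => by
          have h2 := ABI_eu (Dk p (a, b))
          rw [abs_of_nonneg h2.1]
          have := abs_nonneg (b : ℝ)
          linarith⟩ (hfib x a sumx)).2.2 b
      rw [hax] at h1
      rw [← h1]
      unfold cv
      rw [← tsum_mul_left]
      refine tsum_congr fun j => ?_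
      unfold Yv Pm
      ring
    have hBR : ∀ m₁ : ℤ, ∑' l', ∑' a, F l' m₁ a = ∑' a : ℤ,
        ((cr (m₁, a) ((m, l) - (m₁, a)) : ℤ) : ℂ) * ((((p.N / eu (Dk p (m₁, a)) : ℝ)) : ℂ) *
          ax p t x (m₁, a) * av p t x ((m, l) - (m₁, a))) := by
      intro m₁
      have h1 := hBRK p hp m₁ (m - m₁) t (fun b => Yv p t x (m₁, b))
        (fun b => xh p t x (m - m₁, b)) ht (hfib _ m₁ sumY) (hfib _ (m - m₁) sumX) l
      rw [ABI_cv, add_sub_cancel] at h1
      have h2 : ∑' l', ∑' a, F l' m₁ a = ∑' l', ee p m t (l - l') *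
          ∑' a : ℤ, (((m₁ * (l' - a) - a * (m - m₁) : ℤ)) : ℂ) *
            (Yv p t x (m₁, a) * xh p t x (m - m₁, l' - a)) := by
        refine tsum_congr fun l' => ?_
        rw [← tsum_mul_left]
        refine tsum_congr fun a => ?_
        rw [hFdef]
      rw [h2, h1]
      refine tsum_congr fun a => ?_
      rw [hY, hav]
      have h3 : ((m, l) : ℤ × ℤ) - (m₁, a) = (m - m₁, l - a) := rfl
      rw [h3]
      have h4 : cr (m₁, a) (m - m₁, l - a) = m₁ * (l - a) - a * (m - m₁) := rfl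
      rw [h4]
      push_cast
      ring
    rw [tsum_congr hBR]
    -- the final double sum
    obtain ⟨C, hC⟩ := hRDA p hp β t R 5 hβ ht hβt htA hR
    have hC' := hC t ⟨ht, le_refl _⟩ x hx
    have hC0 : 0 ≤ C := le_trans (by positivity) (hC' 0).1
    have hsum : Summable (fun j : ℤ × ℤ => ((cr j ((m, l) - j) : ℤ) : ℂ) *
        ((((p.N / eu (Dk p j) : ℝ)) : ℂ) * ax p t x j * av p t x ((m, l) - j))) := by
      refine Summable.of_norm ?_
      refine Summable.of_nonneg_of_le (fun j => norm_nonneg _) (fun j => ?_)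
        (ABI_z2.mul_left ((n1 (m, l) : ℝ) * (p.N * C * C)))
      have h1 : |(cr j ((m, l) - j) : ℝ)| ≤ n1 j * n1 (m, l) := by
        have h2 : cr j ((m, l) - j) = cr j (m, l) := by
          unfold Pool.Agent.Work.MP_a2fcf1_an_h64.cr
          simp only [Prod.fst_sub, Prod.snd_sub]
          ring
        rw [h2]
        exact Pool.Agent.Work.MP_a2fcf1_an_h64.abs_cr_le_n1 j (m, l)
      have h2 : ‖(((p.N / eu (Dk p j) : ℝ)) : ℂ)‖ ≤ p.N := by
        rw [Complex.norm_real, Real.norm_eq_abs]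
        have h3 := ABI_eu (Dk p j)
        have h4 : (p.N : ℝ) / eu (Dk p j) = p.N * (1 / eu (Dk p j)) := by ring
        rw [h4, abs_of_nonneg (mul_nonneg (Nat.cast_nonneg _) h3.1)]
        calc (p.N : ℝ) * (1 / eu (Dk p j)) ≤ p.N * 1 :=
              mul_le_mul_of_nonneg_left h3.2 (Nat.cast_nonneg _)
          _ = p.N := mul_one _
      have hn : (0 : ℝ) ≤ n1 j := Nat.cast_nonneg _
      have h5 : ‖ax p t x j‖ ≤ C / (1 + n1 j) ^ 5 := by
        rw [le_div_iff₀ (by positivity)]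
        exact (hC' j).2
      have h6 : ‖av p t x ((m, l) - j)‖ ≤ C := by
        refine le_trans ?_ (hC' ((m, l) - j)).1
        refine le_mul_of_one_le_right (norm_nonneg _) ?_
        exact one_le_pow₀ (by
          have : (0 : ℝ) ≤ n1 ((m, l) - j) := Nat.cast_nonneg _
          linarith)
      rw [norm_mul, norm_mul, norm_mul, Complex.norm_intCast]
      calc |(cr j ((m, l) - j) : ℝ)| * (‖(((p.N / eu (Dk p j) : ℝ)) : ℂ)‖ * ‖ax p t x j‖ *
            ‖av p t x ((m, l) - j)‖)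
          ≤ (n1 j * n1 (m, l)) * (p.N * (C / (1 + n1 j) ^ 5) * C) := by
            gcongr
        _ = (n1 (m, l) : ℝ) * (p.N * C * C) * (n1 j * ((1 + (n1 j : ℝ)) ^ 5)⁻¹) := by
            rw [div_eq_mul_inv]
            ring
        _ ≤ (n1 (m, l) : ℝ) * (p.N * C * C) * ((1 + (n1 j : ℝ)) ^ 4)⁻¹ := by
            refine mul_le_mul_of_nonneg_left ?_ (by positivity)
            have h7 : ((1 + (n1 j : ℝ)) ^ 5)⁻¹ = (1 + (n1 j : ℝ))⁻¹ * ((1 + (n1 j : ℝ)) ^ 4)⁻¹ := by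
              rw [← mul_inv]
              congr 1
              ring
            rw [h7, ← mul_assoc]
            refine mul_le_of_le_one_left (by positivity) ?_
            rw [← div_eq_mul_inv, div_le_one (by positivity)]
            linarith
    exact hsum.tsum_prod.symm

end

end Pool.SQGA
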