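import Pool.Agent.Work.MP_a2fcf1_an_ar.I1

set_option autoImplicit false

/-! # MP_a2fcf1_an, block CVW: the weighted norm is submultiplicative (helper78) -/

namespace Pool.SQGA

noncomputable section

/-- the shear `(l, j) ↦ (j, l - j)` -/
def CVW_e : ℤ × ℤ ≃ ℤ × ℤ where
  toFun x := (x.2, x.1 - x.2)
  invFun x := (x.2 + x.1, x.1)
  left_inv x := by ext <;> simp
  right_inv x := by ext <;> simp

theorem p_CVW (hO : Stmt_OMS) : Stmt_CVW := by
  obtain ⟨o1, _, o3, _, _⟩ := hO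
  intro s a b hs ha hb
  have h0 : ∀ j, 0 ≤ om s j := fun j => zero_le_one.trans (o1 s j hs)
  have hA0 : ∀ l, 0 ≤ om s l * ‖a l‖ := fun l => mul_nonneg (h0 l) (norm_nonneg _)
  have hB0 : ∀ l, 0 ≤ om s l * ‖b l‖ := fun l => mul_nonneg (h0 l) (norm_nonneg _)
  have hP : Summable fun x : ℤ × ℤ => (om s x.1 * ‖a x.1‖) * (om s x.2 * ‖b x.2‖) :=
    ha.mul_of_nonneg hb hA0 hB0
  set F : ℤ × ℤ → ℝ := fun x => (om s x.2 * ‖a x.2‖) * (om s (x.1 - x.2) * ‖b (x.1 - x.2)‖)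
    with hFdef
  have hF : Summable F := (CVW_e.summable_iff (f := fun x : ℤ × ℤ =>
    (om s x.1 * ‖a x.1‖) * (om s x.2 * ‖b x.2‖))).2 hP
  have hFt : ∑' x, F x = nw s a * nw s b := by
    have h1 : ∑' x, F x = ∑' x : ℤ × ℤ, (om s x.1 * ‖a x.1‖) * (om s x.2 * ‖b x.2‖) :=
      CVW_e.tsum_eq fun x : ℤ × ℤ => (om s x.1 * ‖a x.1‖) * (om s x.2 * ‖b x.2‖)
    rw [h1]
    exact (ha.tsum_mul_tsum hb hP).symm
  have hle : ∀ l j, ‖a j * b (l - j)‖ ≤ F (l, j) := by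
    intro l j
    rw [norm_mul]
    have e1 : ‖a j‖ ≤ om s j * ‖a j‖ := le_mul_of_one_le_left (norm_nonneg _) (o1 s j hs)
    have e2 : ‖b (l - j)‖ ≤ om s (l - j) * ‖b (l - j)‖ :=
      le_mul_of_one_le_left (norm_nonneg _) (o1 s _ hs)
    exact mul_le_mul e1 e2 (norm_nonneg _) (hA0 j)
  have hsum : ∀ l, Summable fun j => ‖a j * b (l - j)‖ := fun l =>
    Summable.of_nonneg_of_le (fun _ => norm_nonneg _) (hle l) (hF.prod_factor l)
  have hle2 : ∀ l j, om s l * ‖a j * b (l - j)‖ ≤ F (l, j) := by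
    intro l j
    rw [norm_mul]
    have h := o3 s j (l - j) hs
    rw [show j + (l - j) = l by ring] at h
    calc om s l * (‖a j‖ * ‖b (l - j)‖)
        ≤ (om s j * om s (l - j)) * (‖a j‖ * ‖b (l - j)‖) :=
          mul_le_mul_of_nonneg_right h (by positivity)
      _ = F (l, j) := by simp only [hFdef]; ring
  have hmain : ∀ l, om s l * ‖cv a b l‖ ≤ ∑' j, F (l, j) := by
    intro l
    calc om s l * ‖cv a b l‖ ≤ om s l * ∑' j, ‖a j * b (l - j)‖ :=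
          mul_le_mul_of_nonneg_left (norm_tsum_le_tsum_norm (hsum l)) (h0 l)
      _ = ∑' j, om s l * ‖a j * b (l - j)‖ := tsum_mul_left.symm
      _ ≤ ∑' j, F (l, j) := ((hsum l).mul_left _).tsum_le_tsum (hle2 l) (hF.prod_factor l)
  have hWS : WS s (cv a b) := Summable.of_nonneg_of_le
    (fun l => mul_nonneg (h0 l) (norm_nonneg _)) hmain hF.prod
  refine ⟨hWS, ?_⟩
  calc nw s (cv a b) ≤ ∑' l, ∑' j, F (l, j) := hWS.tsum_le_tsum hmain hF.prod
    _ = ∑' x, F x := hF.tsum_prod.symm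
    _ = nw s a * nw s b := hFt

end

end Pool.SQGA
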