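import Pool.Agent.Work.MP_a2fcf1_an_ar.I1

/-! # MP_a2fcf1_an, block FSD (helper75): termwise derivative -/

set_option autoImplicit false

namespace Pool.SQGA

open Set MeasureTheory

theorem FSD_norm (l : ℤ) (y : ℝ) : ‖e1 l y‖ = 1 := by
  have h1 : e1 l y = Complex.exp (((l : ℝ) * y : ℝ) * Complex.I) := by
    unfold e1
    congr 1
    push_cast
    ring
  rw [h1, Complex.norm_exp_ofReal_mul_I]

theorem FSD_deriv (l : ℤ) (y : ℝ) :
    HasDerivAt (fun y : ℝ => e1 l y) (Complex.I * (l : ℂ) * e1 l y) y := by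
  have h1 : HasDerivAt (fun y : ℝ => ((y : ℝ) : ℂ)) 1 y := by
    simpa using (hasDerivAt_id y).ofReal_comp
  have h2 := ((h1.const_mul (l : ℂ)).const_mul Complex.I).cexp
  have h3 : Complex.exp (Complex.I * ((l : ℂ) * (y : ℂ))) * (Complex.I * ((l : ℂ) * 1)) =
      Complex.I * (l : ℂ) * e1 l y := by
    unfold e1
    ring
  rw [h3] at h2
  exact h2

theorem p_FSD : Stmt_FSD := by
  intro a ha hsum y
  have h1 : HasDerivAt (fun z => ∑' l, a l * e1 l z)
      (∑' l, a l * (Complex.I * (l : ℂ) * e1 l y)) y := by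
    refine hasDerivAt_tsum (u := fun l : ℤ => |(l : ℝ)| * ‖a l‖)
      (g := fun l z => a l * e1 l z) (g' := fun l z => a l * (Complex.I * (l : ℂ) * e1 l z))
      (y₀ := 0) hsum (fun l z => (FSD_deriv l z).const_mul (a l)) (fun l z => ?_) ?_ y
    · rw [norm_mul, norm_mul, norm_mul, FSD_norm, Complex.norm_I, Complex.norm_intCast]
      exact le_of_eq (by ring)
    · refine Summable.of_norm ?_
      have h2 : (fun l => ‖a l * e1 l 0‖) = fun l => ‖a l‖ := by
        funext l
        rw [norm_mul, FSD_norm, mul_one]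
      rw [h2]
      exact ha
  have h2 : (∑' l, a l * (Complex.I * (l : ℂ) * e1 l y)) =
      Complex.I * fn (fun l => (l : ℂ) * a l) y := by
    unfold fn
    rw [← tsum_mul_left]
    exact tsum_congr (fun l => by ring)
  rw [h2] at h1
  exact h1

end Pool.SQGA
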