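import Pool.Agent.Work.MP_a2fcf1_an_ar.I3

/-! # SQG, analytic data: block LNI (two symbol inequalities) -/

set_option autoImplicit false

namespace Pool.SQGA

open Set MeasureTheory
open Pool.Agent.Work.MP_a2fcf1_an_h64 (cr sc eu n1 ex GloballyRegular n1_cast one_le_eu eu_pos
  eu_neg abs_eu_sub_le abs_cr_le_eu cr_add_right cr_self)
open Pool.SQGF (nq NB Sym Fr Adm Sw wt Y TT GS BB RD)

noncomputable section

/-- The weight is the power of the length, up to one. -/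
lemma LNI_ww (q : ℕ) {k : ℤ × ℤ} (hk : k ≠ 0) :
    ∃ ε : ℝ, 0 ≤ ε ∧ ε ≤ 1 ∧ ww q k = eu k ^ (2 * q) + ε := by
  have hpow : eu k ^ (2 * (q : ℝ)) = eu k ^ (2 * q) := by
    rw [show (2 : ℝ) * (q : ℝ) = ((2 * q : ℕ) : ℝ) by push_cast; ring, Real.rpow_natCast]
  unfold ww wt
  split_ifs with h
  · exact ⟨1, zero_le_one, le_rfl, by rw [hpow]; ring⟩
  · refine ⟨0, le_rfl, zero_le_one, ?_⟩
    have h1 : nq k ≤ 1 := by
      have := not_lt.1 h
      simpa using this
    have h2 : eu k ≤ 1 := by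
      unfold eu
      rw [Real.sqrt_le_one]
      have h3 : ((nq k : ℤ) : ℝ) ≤ 1 := by exact_mod_cast h1
      unfold nq at h3
      push_cast at h3
      exact h3
    have h3 : eu k = 1 := le_antisymm h2 (one_le_eu hk)
    rw [h3]
    simp

lemma LNI_A {q : ℕ} (hq : 1 ≤ q) {A B J : ℝ} (hB : 1 ≤ B) (hBA : B ≤ A) (hJ : 0 ≤ J)
    (hAB : A ≤ B + J) :
    (A ^ (2 * q) - B ^ (2 * q) + 1) * B ≤ (2 * q + 1) * (1 + J) ^ q * (A ^ q * B ^ q) := by
  have hA : 1 ≤ A := hB.trans hBA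
  have hABJ : A ≤ B * (1 + J) := by nlinarith
  obtain ⟨r, rfl⟩ : ∃ r, q = r + 1 := ⟨q - 1, by omega⟩
  -- difference of powers
  have h1 : A ^ (2 * (r + 1)) - B ^ (2 * (r + 1)) ≤ (2 * ((r + 1 : ℕ) : ℝ)) * (A - B) *
      A ^ (2 * r + 1) := by
    have hgen : ∀ n : ℕ, A ^ (n + 1) - B ^ (n + 1) ≤ ((n : ℝ) + 1) * (A - B) * A ^ n := by
      intro n
      induction n with
      | zero => simp
      | succ n ih =>
        have e1 : A ^ (n + 1 + 1) - B ^ (n + 1 + 1) =
            A * (A ^ (n + 1) - B ^ (n + 1)) + (A - B) * B ^ (n + 1) := by ring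
        have e2 : B ^ (n + 1) ≤ A ^ (n + 1) := pow_le_pow_left₀ (by linarith) hBA _
        have e3 : A * (A ^ (n + 1) - B ^ (n + 1)) ≤ A * (((n : ℝ) + 1) * (A - B) * A ^ n) :=
          mul_le_mul_of_nonneg_left ih (by linarith)
        have e4 : (A - B) * B ^ (n + 1) ≤ (A - B) * A ^ (n + 1) :=
          mul_le_mul_of_nonneg_left e2 (by linarith)
        rw [e1]
        push_cast
        calc A * (A ^ (n + 1) - B ^ (n + 1)) + (A - B) * B ^ (n + 1)
            ≤ A * (((n : ℝ) + 1) * (A - B) * A ^ n) + (A - B) * A ^ (n + 1) := add_le_add e3 e4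
          _ = ((n : ℝ) + 1 + 1) * (A - B) * A ^ (n + 1) := by ring
    have := hgen (2 * r + 1)
    have e5 : 2 * r + 1 + 1 = 2 * (r + 1) := by ring
    rw [e5] at this
    refine this.trans (le_of_eq ?_)
    push_cast
    ring
  have h2 : A ^ (2 * r + 1) * B ≤ (1 + J) ^ r * (A ^ (r + 1) * B ^ (r + 1)) := by
    have e1 : A ^ r ≤ (B * (1 + J)) ^ r := pow_le_pow_left₀ (by linarith) hABJ r
    calc A ^ (2 * r + 1) * B = A ^ (r + 1) * B * A ^ r := by ring
      _ ≤ A ^ (r + 1) * B * (B * (1 + J)) ^ r := by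
          exact mul_le_mul_of_nonneg_left e1 (by positivity)
      _ = (1 + J) ^ r * (A ^ (r + 1) * B ^ (r + 1)) := by rw [mul_pow]; ring
  have h3 : B ≤ (1 + J) ^ (r + 1) * (A ^ (r + 1) * B ^ (r + 1)) := by
    have e1 : (1 : ℝ) ≤ (1 + J) ^ (r + 1) := one_le_pow₀ (by linarith)
    have e2 : (1 : ℝ) ≤ A ^ (r + 1) := one_le_pow₀ hA
    have e3 : B ≤ B ^ (r + 1) := by
      calc B = B ^ 1 := (pow_one B).symm
        _ ≤ B ^ (r + 1) := pow_le_pow_right₀ hB (by omega)
    have e4 : B ≤ A ^ (r + 1) * B ^ (r + 1) := by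
      calc B = 1 * B := (one_mul B).symm
        _ ≤ A ^ (r + 1) * B ^ (r + 1) := mul_le_mul e2 e3 (by linarith) (by positivity)
    calc B = 1 * B := (one_mul B).symm
      _ ≤ (1 + J) ^ (r + 1) * (A ^ (r + 1) * B ^ (r + 1)) :=
          mul_le_mul e1 e4 (by linarith) (by positivity)
  have hQ : (0 : ℝ) ≤ (1 + J) ^ r * (A ^ (r + 1) * B ^ (r + 1)) := by positivity
  calc (A ^ (2 * (r + 1)) - B ^ (2 * (r + 1)) + 1) * B
      = (A ^ (2 * (r + 1)) - B ^ (2 * (r + 1))) * B + B := by ring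
    _ ≤ ((2 * ((r + 1 : ℕ) : ℝ)) * (A - B) * A ^ (2 * r + 1)) * B + B := by
        have := mul_le_mul_of_nonneg_right h1 (show (0 : ℝ) ≤ B by linarith)
        linarith
    _ = (2 * ((r + 1 : ℕ) : ℝ)) * (A - B) * (A ^ (2 * r + 1) * B) + B := by ring
    _ ≤ (2 * ((r + 1 : ℕ) : ℝ)) * (1 + J) * ((1 + J) ^ r * (A ^ (r + 1) * B ^ (r + 1))) +
        (1 + J) ^ (r + 1) * (A ^ (r + 1) * B ^ (r + 1)) := by
        refine add_le_add (mul_le_mul ?_ h2 (by positivity) (by positivity)) h3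
        exact mul_le_mul_of_nonneg_left (by linarith) (by positivity)
    _ = (2 * ((r + 1 : ℕ) : ℝ) + 1) * (1 + J) ^ (r + 1) * (A ^ (r + 1) * B ^ (r + 1)) := by
        ring

lemma LNI_B {q : ℕ} (hq : 1 ≤ q) {A B J : ℝ} (hA : 1 ≤ A) (hB : 1 ≤ B) (hJ : 0 ≤ J)
    (hAB : |A - B| ≤ J) :
    (|A ^ (2 * q) - B ^ (2 * q)| + 1) * min A B ≤
      (2 * q + 1) * (1 + J) ^ q * (A ^ q * B ^ q) := by
  rw [abs_le] at hAB
  rcases le_total B A with h | h
  · rw [min_eq_right h, abs_of_nonneg]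
    · exact LNI_A hq hB h hJ (by linarith)
    · have := pow_le_pow_left₀ (by linarith : (0 : ℝ) ≤ B) h (2 * q)
      linarith
  · rw [min_eq_left h, abs_of_nonpos]
    · have := LNI_A hq hA h hJ (by linarith)
      rw [mul_comm (B ^ q)] at this
      linarith
    · have := pow_le_pow_left₀ (by linarith : (0 : ℝ) ≤ A) h (2 * q)
      linarith

theorem p_LNI : Stmt_LNI := by
  intro q hq
  refine ⟨2 * q + 2, by positivity, ?_⟩
  intro j k hj1 hj hk hkj
  obtain ⟨ε, hε0, hε1, hε⟩ := LNI_ww q hk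
  obtain ⟨δ, hδ0, hδ1, hδ⟩ := LNI_ww q hkj
  have hA := one_le_eu hk
  have hB := one_le_eu hkj
  have hJ1 := one_le_eu hj
  have hJ : eu j = |(j.2 : ℝ)| := by
    unfold eu
    rw [hj1]
    simp only [Int.cast_zero]
    rw [show (0 : ℝ) ^ 2 + (j.2 : ℝ) ^ 2 = (j.2 : ℝ) ^ 2 by ring, Real.sqrt_sq_eq_abs]
  have hAB : |eu k - eu (k - j)| ≤ eu j := by
    have h1 := abs_eu_sub_le k (-(k - j))
    rw [eu_neg] at h1
    have e1 : k + -(k - j) = j := by abel
    rw [e1] at h1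
    exact h1
  have hcr : cr j k = cr j (k - j) := by
    have h1 := cr_add_right (k - j) j j
    rw [sub_add_cancel, cr_self, add_zero] at h1
    exact h1
  have hc1 : |(cr j k : ℝ)| ≤ eu j * eu k := abs_cr_le_eu j k
  have hc2 : |(cr j k : ℝ)| ≤ eu j * eu (k - j) := by rw [hcr]; exact abs_cr_le_eu j (k - j)
  rw [← hJ]
  set A := eu k
  set B := eu (k - j)
  set J := eu j
  have hA0 : 0 < A := by linarith
  have hB0 : 0 < B := by linarith
  have hJ0 : 0 < J := by linarith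
  have hAp : (0 : ℝ) ≤ A ^ (2 * q) := by positivity
  have hBp : (0 : ℝ) ≤ B ^ (2 * q) := by positivity
  have hsq : A ^ q * B ^ q ≤ √(ww q k * ww q (k - j)) := by
    apply Real.le_sqrt_of_sq_le
    rw [hε, hδ]
    calc (A ^ q * B ^ q) ^ 2 = A ^ (2 * q) * B ^ (2 * q) := by ring
      _ ≤ (A ^ (2 * q) + ε) * (B ^ (2 * q) + δ) :=
          mul_le_mul (by linarith) (by linarith) hBp (by linarith)
  have hsq0 : 0 ≤ √(ww q k * ww q (k - j)) := Real.sqrt_nonneg _
  have hABp : 0 ≤ A ^ q * B ^ q := by positivity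
  have h1J : (1 : ℝ) ≤ 1 + J := by linarith
  constructor
  · have h1 : |ww q k - ww q (k - j)| ≤ |A ^ (2 * q) - B ^ (2 * q)| + 1 := by
      rw [hε, hδ]
      have e1 : A ^ (2 * q) + ε - (B ^ (2 * q) + δ) = (A ^ (2 * q) - B ^ (2 * q)) + (ε - δ) := by
        ring
      rw [e1]
      refine (abs_add_le _ _).trans (add_le_add le_rfl ?_)
      rw [abs_le]
      constructor <;> linarith
    have h2 : |(cr j k : ℝ)| / J ≤ min A B := by
      rw [div_le_iff₀ hJ0]
      rcases le_total A B with h | h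
      · rw [min_eq_left h, mul_comm]; exact hc1
      · rw [min_eq_right h, mul_comm]; exact hc2
    have h3 := LNI_B hq hA hB hJ0.le hAB
    have h4 : (1 + J) ^ q ≤ (1 + J) ^ (2 * q + 1) := pow_le_pow_right₀ h1J (by omega)
    calc |ww q k - ww q (k - j)| * |(cr j k : ℝ)| / J
        = |ww q k - ww q (k - j)| * (|(cr j k : ℝ)| / J) := by ring
      _ ≤ (|A ^ (2 * q) - B ^ (2 * q)| + 1) * min A B :=
          mul_le_mul h1 h2 (by positivity) (by positivity)
      _ ≤ (2 * q + 1) * (1 + J) ^ q * (A ^ q * B ^ q) := h3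
      _ ≤ (2 * q + 2) * (1 + J) ^ (2 * q + 1) * √(ww q k * ww q (k - j)) := by
          refine mul_le_mul (mul_le_mul (by linarith) h4 (by positivity) (by positivity)) hsq
            hABp (by positivity)
  · have h1 : ww q k ≤ 2 * A ^ (2 * q) := by
      rw [hε]
      have : (1 : ℝ) ≤ A ^ (2 * q) := one_le_pow₀ hA
      linarith
    have h2 : |(cr j k : ℝ)| / B ≤ J := by
      rw [div_le_iff₀ hB0]
      exact hc2
    have hABJ : A ≤ B * (1 + J) := by
      rw [abs_le] at hAB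
      nlinarith
    have h3 : A ^ q ≤ (B * (1 + J)) ^ q := pow_le_pow_left₀ hA0.le hABJ q
    have h4 : A ^ (2 * q) ≤ (1 + J) ^ q * (A ^ q * B ^ q) := by
      calc A ^ (2 * q) = A ^ q * A ^ q := by ring
        _ ≤ A ^ q * (B * (1 + J)) ^ q := mul_le_mul_of_nonneg_left h3 (by positivity)
        _ = (1 + J) ^ q * (A ^ q * B ^ q) := by rw [mul_pow]; ring
    have h5 : J * (1 + J) ^ q ≤ (1 + J) ^ (2 * q + 1) := by
      calc J * (1 + J) ^ q ≤ (1 + J) * (1 + J) ^ q :=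
            mul_le_mul_of_nonneg_right (by linarith) (by positivity)
        _ = (1 + J) ^ (q + 1) := by ring
        _ ≤ (1 + J) ^ (2 * q + 1) := pow_le_pow_right₀ h1J (by omega)
    have hww : 0 ≤ ww q k := by rw [hε]; linarith
    calc ww q k * |(cr j k : ℝ)| / B = ww q k * (|(cr j k : ℝ)| / B) := by ring
      _ ≤ (2 * A ^ (2 * q)) * J := mul_le_mul h1 h2 (by positivity) (by positivity)
      _ ≤ (2 * ((1 + J) ^ q * (A ^ q * B ^ q))) * J :=
          mul_le_mul_of_nonneg_right (by linarith) hJ0.le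
      _ = 2 * (J * (1 + J) ^ q) * (A ^ q * B ^ q) := by ring
      _ ≤ (2 * q + 2) * (1 + J) ^ (2 * q + 1) * √(ww q k * ww q (k - j)) := by
          refine mul_le_mul (mul_le_mul ?_ h5 (by positivity) (by positivity)) hsq
            hABp (by positivity)
          have : (0 : ℝ) ≤ q := Nat.cast_nonneg q
          linarith

end

end Pool.SQGA
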