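import Pool.Agent.Work.MP_a2fcf1_an_ar.I2

/-! # MP_a2fcf1_an (helper61), block R1: weighted bound of the commutator part -/

set_option autoImplicit false

namespace Pool.SQGA

open Set MeasureTheory
open Pool.Agent.Work.MP_a2fcf1_an_h64 (cr sc eu n1)

/-- the weighted norm of an integral -/
theorem R1_int (μ : Measure ℝ) (w : ℤ → ℝ) (hw : ∀ i, 0 ≤ w i) (f : ℝ → ℤ → ℂ) (g : ℝ → ℝ)
    (hf : ∀ i, Integrable (fun z => f z i) μ) (hg : Integrable g μ)
    (hfg : ∀ᵐ z ∂μ, ∀ F : Finset ℤ, ∑ i ∈ F, w i * ‖f z i‖ ≤ g z) :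
    (Summable fun i => w i * ‖∫ z, f z i ∂μ‖) ∧
      ∑' i, w i * ‖∫ z, f z i ∂μ‖ ≤ ∫ z, g z ∂μ := by
  have key : ∀ F : Finset ℤ, ∑ i ∈ F, w i * ‖∫ z, f z i ∂μ‖ ≤ ∫ z, g z ∂μ := by
    intro F
    calc ∑ i ∈ F, w i * ‖∫ z, f z i ∂μ‖ ≤ ∑ i ∈ F, ∫ z, w i * ‖f z i‖ ∂μ := by
          refine Finset.sum_le_sum fun i _ => ?_
          rw [integral_const_mul]
          exact mul_le_mul_of_nonneg_left (norm_integral_le_integral_norm _) (hw i)
      _ = ∫ z, ∑ i ∈ F, w i * ‖f z i‖ ∂μ :=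
          (integral_finsetSum F fun i _ => (hf i).norm.const_mul (w i)).symm
      _ ≤ ∫ z, g z ∂μ := by
          refine integral_mono_ae ?_ hg (hfg.mono fun z hz => hz F)
          exact integrable_finsetSum F fun i _ => (hf i).norm.const_mul (w i)
  have h0 : ∀ i, 0 ≤ w i * ‖∫ z, f z i ∂μ‖ := fun i => mul_nonneg (hw i) (norm_nonneg _)
  exact ⟨summable_of_sum_le h0 key, Real.tsum_le_of_sum_le h0 key⟩

theorem R1_abs {α C : ℝ} (hC : 0 < C) {X Y : ℝ} (hX : 0 < X) (hY : 0 < Y)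
    (h : X ^ α - Y ^ α = C * ∫ r in Ioi (0 : ℝ), r ^ α * (1 / (r + Y) - 1 / (r + X))) :
    ∫ r in Ioi (0 : ℝ), |r ^ α * (1 / (r + Y) - 1 / (r + X))| = |X ^ α - Y ^ α| / C := by
  have key : ∫ r in Ioi (0 : ℝ), |r ^ α * (1 / (r + Y) - 1 / (r + X))| =
      |∫ r in Ioi (0 : ℝ), r ^ α * (1 / (r + Y) - 1 / (r + X))| := by
    rcases le_total Y X with hYX | hYX
    · have hn : ∀ r ∈ Ioi (0 : ℝ), 0 ≤ r ^ α * (1 / (r + Y) - 1 / (r + X)) := by
        intro r hr
        have hr' : (0 : ℝ) < r := hr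
        refine mul_nonneg (Real.rpow_nonneg hr'.le _) (sub_nonneg.2 ?_)
        exact one_div_le_one_div_of_le (by linarith) (by linarith)
      rw [setIntegral_congr_fun measurableSet_Ioi (fun r hr => abs_of_nonneg (hn r hr)),
        abs_of_nonneg (setIntegral_nonneg measurableSet_Ioi hn)]
    · have hn : ∀ r ∈ Ioi (0 : ℝ), r ^ α * (1 / (r + Y) - 1 / (r + X)) ≤ 0 := by
        intro r hr
        have hr' : (0 : ℝ) < r := hr
        refine mul_nonpos_of_nonneg_of_nonpos (Real.rpow_nonneg hr'.le _) (sub_nonpos.2 ?_)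
        exact one_div_le_one_div_of_le (by linarith) (by linarith)
      rw [setIntegral_congr_fun measurableSet_Ioi (fun r hr => abs_of_nonpos (hn r hr)),
        abs_of_nonpos (setIntegral_nonpos measurableSet_Ioi hn), integral_neg]
  rw [key, h, abs_mul, abs_of_pos hC, mul_div_cancel_left₀ _ hC.ne']

/-- the interchange of the sum and the integral -/
theorem R1_swap {α C : ℝ} (hC : 0 < C)
    (hR : ∀ X Y : ℝ, 0 < X → 0 < Y →
      IntegrableOn (fun r : ℝ => r ^ α * (1 / (r + Y) - 1 / (r + X))) (Ioi 0) ∧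
      X ^ α - Y ^ α = C * ∫ r in Ioi (0 : ℝ), r ^ α * (1 / (r + Y) - 1 / (r + X)))
    {E : ℤ → ℂ} {X : ℤ → ℝ} (hX : ∀ b, 0 < X b) (hE : Summable fun b => ‖E b‖)
    (hEX : Summable fun b => ‖E b‖ * X b ^ α) (l : ℤ) :
    ∑' b, E b * ((X b ^ α - X l ^ α : ℝ) : ℂ) =
      (C : ℂ) * ∫ r in Ioi (0 : ℝ),
        ∑' b, E b * ((r ^ α * (1 / (r + X l) - 1 / (r + X b)) : ℝ) : ℂ) := by
  have hint : ∀ b, Integrable (fun r : ℝ =>
      E b * ((r ^ α * (1 / (r + X l) - 1 / (r + X b)) : ℝ) : ℂ)) (volume.restrict (Ioi 0)) :=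
    fun b => ((hR (X b) (X l) (hX b) (hX l)).1.ofReal).const_mul (E b)
  have hnorm : ∀ b, ∫ r in Ioi (0 : ℝ),
      ‖E b * ((r ^ α * (1 / (r + X l) - 1 / (r + X b)) : ℝ) : ℂ)‖ =
        ‖E b‖ * (|X b ^ α - X l ^ α| / C) := by
    intro b
    rw [← R1_abs hC (hX b) (hX l) (hR (X b) (X l) (hX b) (hX l)).2, ← integral_const_mul]
    refine integral_congr_ae (Filter.Eventually.of_forall fun r => ?_)
    show ‖E b * ((r ^ α * (1 / (r + X l) - 1 / (r + X b)) : ℝ) : ℂ)‖ =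
      ‖E b‖ * |r ^ α * (1 / (r + X l) - 1 / (r + X b))|
    rw [norm_mul, Complex.norm_real, Real.norm_eq_abs]
  have hsum : Summable fun b => ∫ r in Ioi (0 : ℝ),
      ‖E b * ((r ^ α * (1 / (r + X l) - 1 / (r + X b)) : ℝ) : ℂ)‖ := by
    have h1 : Summable fun b => (‖E b‖ * X b ^ α + ‖E b‖ * X l ^ α) / C :=
      (hEX.add (hE.mul_right _)).div_const C
    refine Summable.of_nonneg_of_le (fun b => ?_) (fun b => ?_) h1
    · rw [hnorm]
      positivity
    · rw [hnorm, ← mul_div_assoc]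
      refine div_le_div_of_nonneg_right ?_ hC.le
      rw [← mul_add]
      refine mul_le_mul_of_nonneg_left ?_ (norm_nonneg _)
      have e1 : 0 ≤ X b ^ α := Real.rpow_nonneg (hX b).le _
      have e2 : 0 ≤ X l ^ α := Real.rpow_nonneg (hX l).le _
      rw [abs_le]
      constructor <;> linarith
  have hmain := hasSum_integral_of_summable_integral_norm hint hsum
  rw [← hmain.tsum_eq, ← tsum_mul_left]
  refine tsum_congr fun b => ?_
  rw [integral_const_mul, integral_complex_ofReal, (hR (X b) (X l) (hX b) (hX l)).2]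
  push_cast
  ring

theorem R1_om_ge (s : ℝ) (hs : 0 ≤ s) (j : ℤ) : (1 + |(j : ℝ)|) ^ 2 ≤ om s j := by
  have h0 : 0 ≤ |(j : ℝ)| := abs_nonneg _
  have h1 : 1 ≤ Real.exp (s * |(j : ℝ)|) := Real.one_le_exp (mul_nonneg hs h0)
  have h2 : (1 + |(j : ℝ)|) ^ 2 ≤ (1 + |(j : ℝ)|) ^ 4 :=
    pow_le_pow_right₀ (by linarith) (by norm_num)
  calc (1 + |(j : ℝ)|) ^ 2 ≤ 1 * (1 + |(j : ℝ)|) ^ 4 := by linarith
    _ ≤ Real.exp (s * |(j : ℝ)|) * (1 + |(j : ℝ)|) ^ 4 :=
      mul_le_mul_of_nonneg_right h1 (by positivity)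

theorem R1_rpow {α X : ℝ} (hα : 0 < α) (hα1 : α < 1) (hX : 0 < X) : X ^ α ≤ 1 + X := by
  rcases le_total X 1 with h | h
  · have := Real.rpow_le_one hX.le h hα.le
    linarith
  · have h1 : X ^ α ≤ X ^ (1 : ℝ) := Real.rpow_le_rpow_of_exponent_le h hα1.le
    rw [Real.rpow_one] at h1
    linarith

theorem p_R1 (hRES : Stmt_RES) (hRIA : Stmt_RIA) (hRIB : Stmt_RIB) (hEEW : Stmt_EEW)
    (hEEB : Stmt_EEB) (hEEM : Stmt_EEM) : Stmt_R1 := by
  intro α hα hα2
  obtain ⟨C₁, hC₁, hR⟩ := hRIA α hα (by linarith)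
  obtain ⟨C₂, hC₂, hB⟩ := hRIB α hα hα2
  refine ⟨4 * C₁ * C₂, by positivity, ?_⟩
  intro p hp hpα m l t ht htA hm
  have hs : 0 ≤ p.s := hp.s_pos.le
  have hN : (0 : ℝ) < p.N := by exact_mod_cast hp.N_pos
  have hm0 : 0 < |(m : ℝ)| := abs_pos.2 (by exact_mod_cast hm)
  set M : ℝ := p.N * |(m : ℝ)| with hMdef
  have hM : 0 < M := mul_pos hN hm0
  set X : ℤ → ℝ := fun b => M ^ 2 + (b : ℝ) ^ 2 with hXdef
  have hX : ∀ b, 0 < X b := fun b => by
    show 0 < M ^ 2 + (b : ℝ) ^ 2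
    positivity
  have hsym : ∀ b : ℤ, eu (Dk p (m, b)) ^ (2 * p.α) = X b ^ α := by
    intro b
    show (Real.sqrt ((((p.N : ℤ) * m : ℤ) : ℝ) ^ 2 + (b : ℝ) ^ 2)) ^ (2 * p.α) = _
    have h1 : (((p.N : ℤ) * m : ℤ) : ℝ) ^ 2 + (b : ℝ) ^ 2 = X b := by
      show _ = (p.N * |(m : ℝ)|) ^ 2 + (b : ℝ) ^ 2
      rw [mul_pow, sq_abs]
      push_cast
      ring
    rw [h1, hpα, Real.sqrt_eq_rpow, ← Real.rpow_mul (hX b).le]
    congr 1
    ring
  have hws : ∀ n : ℤ, WS p.s (ee p n t) := fun n => (hEEW p hp n t ht).1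
  have hle : ∀ (n j : ℤ), ‖ee p n t j‖ ≤ 1 := fun n j => (hEEB p hp).1 n t j ht |>.1
  set E : ℤ → ℤ → ℂ := fun l' b => ee p (-m) t (l - b) * ee p m t (b - l') with hEdef
  have hshift : Summable fun b => om p.s (l - b) * ‖ee p (-m) t (l - b)‖ :=
    (Equiv.subLeft l).summable_iff.2 (hws (-m))
  have hEle : ∀ l' b, ‖E l' b‖ ≤ ‖ee p (-m) t (l - b)‖ := by
    intro l' b
    show ‖ee p (-m) t (l - b) * ee p m t (b - l')‖ ≤ _
    rw [norm_mul]
    exact mul_le_of_le_one_right (norm_nonneg _) (hle _ _)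
  have hE : ∀ l', Summable fun b => ‖E l' b‖ := by
    intro l'
    refine Summable.of_nonneg_of_le (fun b => norm_nonneg _) (fun b => ?_) hshift
    refine (hEle l' b).trans ?_
    refine le_mul_of_one_le_left (norm_nonneg _) ?_
    refine le_trans ?_ (R1_om_ge p.s hs (l - b))
    have : 0 ≤ |((l - b : ℤ) : ℝ)| := abs_nonneg _
    nlinarith
  have hEX : ∀ l', Summable fun b => ‖E l' b‖ * X b ^ α := by
    intro l'
    have h1 : Summable fun b => (3 + M ^ 2 + 2 * (l : ℝ) ^ 2) *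
        (om p.s (l - b) * ‖ee p (-m) t (l - b)‖) := hshift.mul_left _
    refine Summable.of_nonneg_of_le (fun b => ?_) (fun b => ?_) h1
    · exact mul_nonneg (norm_nonneg _) (Real.rpow_nonneg (hX b).le _)
    · have h2 : X b ^ α ≤ (3 + M ^ 2 + 2 * (l : ℝ) ^ 2) * om p.s (l - b) := by
        refine (R1_rpow hα (by linarith) (hX b)).trans ?_
        refine le_trans ?_ (mul_le_mul_of_nonneg_left (R1_om_ge p.s hs (l - b)) (by positivity))
        show 1 + (M ^ 2 + (b : ℝ) ^ 2) ≤ _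
        have h3 : (b : ℝ) ^ 2 ≤ 2 * (l : ℝ) ^ 2 + 2 * |((l - b : ℤ) : ℝ)| ^ 2 := by
          rw [sq_abs]
          push_cast
          nlinarith [sq_nonneg (2 * (l : ℝ) - b)]
        have h4 : 0 ≤ |((l - b : ℤ) : ℝ)| := abs_nonneg _
        have h5 : 0 ≤ M ^ 2 + 2 * (l : ℝ) ^ 2 := by positivity
        nlinarith [mul_nonneg h5 h4, mul_nonneg h5 (sq_nonneg |((l - b : ℤ) : ℝ)|)]
      calc ‖E l' b‖ * X b ^ α ≤ ‖ee p (-m) t (l - b)‖ *
            ((3 + M ^ 2 + 2 * (l : ℝ) ^ 2) * om p.s (l - b)) :=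
            mul_le_mul (hEle l' b) h2 (Real.rpow_nonneg (hX b).le _) (norm_nonneg _)
        _ = _ := by ring
  have hEs : ∀ l', Summable (E l') := fun l' => (hE l').of_norm
  -- the sum of the coefficients
  have hEsum : ∀ l', ∑' b, E l' b = if l = l' then 1 else 0 := by
    intro l'
    have h1 := congrFun (hEEM p hp (-m) m t ht) (l - l')
    rw [neg_add_cancel, (hEEB p hp).2.1 t _ ht] at h1
    have h2 : ∑' b, E l' b = cv (ee p (-m) t) (ee p m t) (l - l') := by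
      unfold cv
      rw [← (Equiv.subLeft l).tsum_eq (fun j => ee p (-m) t j * ee p m t (l - l' - j))]
      refine tsum_congr fun b => ?_
      show ee p (-m) t (l - b) * ee p m t (b - l') =
        ee p (-m) t (l - b) * ee p m t (l - l' - (l - b))
      have : l - l' - (l - b) = b - l' := by ring
      rw [this]
    rw [h2, h1]
    unfold dl
    by_cases h : l = l'
    · rw [if_pos h, if_pos (by omega)]
    · rw [if_neg h, if_neg (by omega)]
  -- the resolvents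
  set ν : ℝ → ℝ := fun r => √(r + M ^ 2) with hνdef
  have hph : ∀ r : ℝ, 0 < r → ∀ b : ℤ, ph (ν r) b = 1 / (r + X b) := by
    intro r hr b
    show 1 / ((√(r + M ^ 2)) ^ 2 + (b : ℝ) ^ 2) = 1 / (r + (M ^ 2 + (b : ℝ) ^ 2))
    rw [Real.sq_sqrt (by positivity)]
    congr 1
    ring
  have hCj : ∀ r : ℝ, 0 < r → ∀ l', Cj p (ph (ν r)) m t l l' =
      ∑' b, E l' b * ((1 / (r + X b) : ℝ) : ℂ) := by
    intro r hr l'
    unfold Cj
    refine tsum_congr fun b => ?_
    rw [hph r hr]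
    show ee p (-m) t (l - b) * (_ * ee p m t (b - l')) =
      ee p (-m) t (l - b) * ee p m t (b - l') * _
    ring
  have hinvle : ∀ r : ℝ, 0 < r → ∀ b : ℤ, 1 / (r + X b) ≤ 1 / M ^ 2 := by
    intro r hr b
    refine one_div_le_one_div_of_le (by positivity) ?_
    show M ^ 2 ≤ r + (M ^ 2 + (b : ℝ) ^ 2)
    nlinarith [sq_nonneg (b : ℝ)]
  have hinv0 : ∀ r : ℝ, 0 < r → ∀ b : ℤ, 0 ≤ 1 / (r + X b) := by
    intro r hr b
    have := hX b
    positivity
  have hbd : ∀ l' b (r : ℝ), 0 < r →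
      ‖E l' b * ((1 / (r + X b) : ℝ) : ℂ)‖ ≤ ‖E l' b‖ * (1 / M ^ 2) := by
    intro l' b r hr
    rw [norm_mul, Complex.norm_real, Real.norm_of_nonneg (hinv0 r hr b)]
    exact mul_le_mul_of_nonneg_left (hinvle r hr b) (norm_nonneg _)
  have hsumr : ∀ (r : ℝ), 0 < r → ∀ l', Summable fun b => E l' b * ((1 / (r + X b) : ℝ) : ℂ) :=
    fun r hr l' => Summable.of_norm_bounded ((hE l').mul_right _) (fun b => hbd l' b r hr)
  set f : ℝ → ℤ → ℂ := fun r l' => ((r ^ α : ℝ) : ℂ) *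
    (∑' b, E l' b * ((1 / (r + X b) : ℝ) : ℂ) -
      if l = l' then ((1 / (r + X l) : ℝ) : ℂ) else 0) with hfdef
  -- the integral formula
  have hRm : ∀ l', Rm p t m l l' = -((C₁ : ℂ) * ∫ r in Ioi (0 : ℝ), f r l') := by
    intro l'
    have h1 := R1_swap hC₁ hR hX (hE l') (hEX l') l
    have h2 : Rm p t m l l' = ∑' b, E l' b * ((X b ^ α - X l ^ α : ℝ) : ℂ) := by
      unfold Rm Qm Cj
      have h3 : ∑' b, E l' b * ((X b ^ α - X l ^ α : ℝ) : ℂ) =
          ∑' b, (E l' b * ((X b ^ α : ℝ) : ℂ) - E l' b * ((X l ^ α : ℝ) : ℂ)) := by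
        refine tsum_congr fun b => ?_
        push_cast
        ring
      have h4 : Summable fun b => E l' b * ((X b ^ α : ℝ) : ℂ) := by
        refine Summable.of_norm_bounded (hEX l') (fun b => ?_)
        rw [norm_mul, Complex.norm_real, Real.norm_of_nonneg (Real.rpow_nonneg (hX b).le _)]
      rw [h3, h4.tsum_sub ((hEs l').mul_right _), tsum_mul_right, hEsum]
      congr 1
      · refine tsum_congr fun b => ?_
        show ee p (-m) t (l - b) * (((eu (Dk p (m, b)) ^ (2 * p.α) : ℝ) : ℂ) *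
          ee p m t (b - l')) = ee p (-m) t (l - b) * ee p m t (b - l') * _
        rw [hsym]
        ring
      · rw [hsym]
        by_cases h : l = l'
        · rw [if_pos h, if_pos h, one_mul]
        · rw [if_neg h, if_neg h, zero_mul]
    rw [h2, h1, ← mul_neg, ← integral_neg]
    congr 1
    refine setIntegral_congr_fun measurableSet_Ioi fun r hr => ?_
    have hr' : (0 : ℝ) < r := hr
    show ∑' b, E l' b * ((r ^ α * (1 / (r + X l) - 1 / (r + X b)) : ℝ) : ℂ) =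
      -(((r ^ α : ℝ) : ℂ) * (∑' b, E l' b * ((1 / (r + X b) : ℝ) : ℂ) -
        if l = l' then ((1 / (r + X l) : ℝ) : ℂ) else 0))
    have h3 : ∑' b, E l' b * ((r ^ α * (1 / (r + X l) - 1 / (r + X b)) : ℝ) : ℂ) =
        ∑' b, (E l' b * (((r ^ α : ℝ) : ℂ) * ((1 / (r + X l) : ℝ) : ℂ)) -
          ((r ^ α : ℝ) : ℂ) * (E l' b * ((1 / (r + X b) : ℝ) : ℂ))) := by
      refine tsum_congr fun b => ?_
      push_cast
      ring
    rw [h3, ((hEs l').mul_right _).tsum_sub ((hsumr r hr' l').mul_left _), tsum_mul_right,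
      tsum_mul_left, hEsum]
    by_cases h : l = l'
    · rw [if_pos h, if_pos h]
      ring
    · rw [if_neg h, if_neg h]
      ring
  -- the bound
  set g : ℝ → ℝ := fun r => 4 * (M * (t * p.As)) * (r ^ α / √(r + M ^ 2) ^ 3) with hgdef
  have hνle : ∀ r : ℝ, 0 < r → M ≤ ν r := fun r hr =>
    Real.le_sqrt_of_sq_le (by linarith)
  have hfg : ∀ r : ℝ, 0 < r → ∀ F : Finset ℤ,
      ∑ l' ∈ F, om p.s (l - l') * ‖f r l'‖ ≤ g r := by
    intro r hr F
    obtain ⟨h1, h2⟩ := (hRES p hp m t (ν r) l ht htA hm (hνle r hr)).2.1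
    have h3 : ∀ l', ‖f r l'‖ = r ^ α *
        ‖Cj p (ph (ν r)) m t l l' - if l = l' then ((ph (ν r) l : ℝ) : ℂ) else 0‖ := by
      intro l'
      show ‖((r ^ α : ℝ) : ℂ) * (∑' b, E l' b * ((1 / (r + X b) : ℝ) : ℂ) -
        if l = l' then ((1 / (r + X l) : ℝ) : ℂ) else 0)‖ = _
      rw [norm_mul, Complex.norm_real, Real.norm_of_nonneg (Real.rpow_nonneg hr.le _),
        hCj r hr, hph r hr]
    have h4 : ∑ l' ∈ F, om p.s (l - l') * ‖f r l'‖ = r ^ α * ∑ l' ∈ F, om p.s (l - l') *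
        ‖Cj p (ph (ν r)) m t l l' - if l = l' then ((ph (ν r) l : ℝ) : ℂ) else 0‖ := by
      rw [Finset.mul_sum]
      refine Finset.sum_congr rfl fun l' _ => ?_
      rw [h3]
      ring
    have hom : ∀ j, 0 ≤ om p.s j := fun j => by
      unfold om
      positivity
    have h5 := h1.sum_le_tsum F (fun l' _ => mul_nonneg (hom _) (norm_nonneg _))
    rw [h4]
    calc r ^ α * ∑ l' ∈ F, om p.s (l - l') *
        ‖Cj p (ph (ν r)) m t l l' - if l = l' then ((ph (ν r) l : ℝ) : ℂ) else 0‖ ≤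
          r ^ α * (4 * (p.N * |(m : ℝ)| * (t * p.As)) / ν r ^ 3) :=
          mul_le_mul_of_nonneg_left (h5.trans h2) (Real.rpow_nonneg hr.le _)
      _ = g r := by
          show r ^ α * (4 * (M * (t * p.As)) / √(r + M ^ 2) ^ 3) =
            4 * (M * (t * p.As)) * (r ^ α / √(r + M ^ 2) ^ 3)
          ring
  obtain ⟨hgi, hgle⟩ := hB M hM
  have hg : Integrable g (volume.restrict (Ioi 0)) := Integrable.const_mul hgi _
  have hcont : ∀ l', ContinuousOn (fun r => f r l') (Ioi 0) := by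
    intro l'
    have hc1 : ContinuousOn (fun r : ℝ => ((r ^ α : ℝ) : ℂ)) (Ioi 0) :=
      Complex.continuous_ofReal.comp_continuousOn
        (ContinuousOn.rpow_const continuousOn_id (fun x hx => Or.inl (ne_of_gt hx)))
    have hc2 : ∀ b, ContinuousOn (fun r : ℝ => ((1 / (r + X b) : ℝ) : ℂ)) (Ioi 0) := by
      intro b
      refine Complex.continuous_ofReal.comp_continuousOn (ContinuousOn.div (by fun_prop)
        (by fun_prop) (fun r hr => ?_))
      have hr' : (0 : ℝ) < r := hr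
      have := hX b
      positivity
    have hc3 : ContinuousOn (fun r : ℝ => ∑' b, E l' b * ((1 / (r + X b) : ℝ) : ℂ)) (Ioi 0) :=
      continuousOn_tsum (fun b => continuousOn_const.mul (hc2 b)) ((hE l').mul_right _)
        (fun b r hr => hbd l' b r hr)
    refine hc1.mul (hc3.sub ?_)
    by_cases h : l = l'
    · simp only [if_pos h]
      exact hc2 l
    · simp only [if_neg h]
      exact continuousOn_const
  have homge : ∀ j, 1 ≤ om p.s j := by
    intro j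
    refine le_trans ?_ (R1_om_ge p.s hs j)
    have : 0 ≤ |(j : ℝ)| := abs_nonneg _
    nlinarith
  have hf : ∀ l', Integrable (fun r => f r l') (volume.restrict (Ioi 0)) := by
    intro l'
    refine Integrable.mono' hg ((hcont l').aestronglyMeasurable measurableSet_Ioi) ?_
    refine ae_restrict_of_forall_mem measurableSet_Ioi fun r hr => ?_
    have h1 := hfg r hr {l'}
    rw [Finset.sum_singleton] at h1
    refine le_trans ?_ h1
    exact le_mul_of_one_le_left (norm_nonneg _) (homge _)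
  obtain ⟨k1, k2⟩ := R1_int (volume.restrict (Ioi 0)) (fun l' => om p.s (l - l'))
    (fun l' => zero_le_one.trans (homge _)) f g hf hg
    (ae_restrict_of_forall_mem measurableSet_Ioi fun r hr => hfg r hr)
  have hRn : ∀ l', om p.s (l - l') * ‖Rm p t m l l'‖ =
      C₁ * (om p.s (l - l') * ‖∫ r in Ioi (0 : ℝ), f r l'‖) := by
    intro l'
    rw [hRm, norm_neg, norm_mul, Complex.norm_real, Real.norm_of_nonneg hC₁.le]
    ring
  simp only [hRn]
  refine ⟨k1.mul_left _, ?_⟩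
  rw [tsum_mul_left]
  have hAs : 0 ≤ t * p.As := by
    refine mul_nonneg ht (tsum_nonneg fun j => ?_)
    exact mul_nonneg (zero_le_one.trans (homge _)) (mul_nonneg (abs_nonneg _) (norm_nonneg _))
  have hgint : ∫ r in Ioi (0 : ℝ), g r ≤ 4 * (M * (t * p.As)) * (C₂ * M ^ (2 * α - 1)) := by
    show ∫ r in Ioi (0 : ℝ), 4 * (M * (t * p.As)) * (r ^ α / √(r + M ^ 2) ^ 3) ≤ _
    rw [integral_const_mul]
    exact mul_le_mul_of_nonneg_left hgle (by positivity)
  calc C₁ * ∑' l', om p.s (l - l') * ‖∫ r in Ioi (0 : ℝ), f r l'‖ ≤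
        C₁ * (4 * (M * (t * p.As)) * (C₂ * M ^ (2 * α - 1))) :=
        mul_le_mul_of_nonneg_left (k2.trans hgint) hC₁.le
    _ = 4 * C₁ * C₂ * (t * p.As) * M ^ (2 * α) := by
        have h1 : M ^ (2 * α) = M * M ^ (2 * α - 1) := by
          rw [Real.rpow_sub_one hM.ne']
          field_simp
        rw [h1]
        ring

end Pool.SQGA
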