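import Pool.Agent.Work.MP_a2fcf1_an_ar.I3

/-! # Block STB: global solution from data whose fast part is tiny -/

set_option autoImplicit false

namespace Pool.SQGA

open Set MeasureTheory
open Pool.Agent.Work.MP_a2fcf1_an_h64 (cr sc eu n1 ex GloballyRegular eu_nonneg eu_neg n1_cast
  eu_le_n1)
open Pool.SQGF (nq NB Sym Fr Adm Sw wt Y TT GS BB RD)

noncomputable section

theorem STB_sumZ : Summable fun z : ℤ => ((1 + |(z : ℝ)|) ^ 2)⁻¹ := by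
  have h : Summable fun n : ℕ => ((1 + (n : ℝ)) ^ 2)⁻¹ := by
    have h0 : Summable fun n : ℕ => 1 / ((n : ℝ)) ^ 2 := Real.summable_one_div_nat_pow.mpr one_lt_two
    have h2 := (summable_nat_add_iff 1).mpr h0
    refine h2.congr fun n => ?_
    push_cast
    rw [one_div, add_comm]
  apply Summable.of_nat_of_neg
  · refine h.congr fun n => ?_
    simp
  · refine h.congr fun n => ?_
    simp

theorem STB_one_le (k : ℤ × ℤ) : (1 : ℝ) ≤ 1 + n1 k := by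
  have : (0 : ℝ) ≤ n1 k := Nat.cast_nonneg _
  linarith

theorem STB_sumK : Summable fun k : ℤ × ℤ => ((1 + (n1 k : ℝ)) ^ 4)⁻¹ := by
  have h2 := STB_sumZ.mul_of_nonneg STB_sumZ (fun _ => by positivity) (fun _ => by positivity)
  refine Summable.of_nonneg_of_le (fun k => by positivity) (fun k => ?_) h2
  rw [← mul_inv]
  apply inv_anti₀ (by positivity)
  rw [n1_cast]
  have ha : 0 ≤ |(k.1 : ℝ)| := abs_nonneg _
  have hb : 0 ≤ |(k.2 : ℝ)| := abs_nonneg _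
  calc (1 + |(k.1 : ℝ)|) ^ 2 * (1 + |(k.2 : ℝ)|) ^ 2
      = ((1 + |(k.1 : ℝ)|) * (1 + |(k.2 : ℝ)|)) ^ 2 := by ring
    _ ≤ ((1 + (|(k.1 : ℝ)| + |(k.2 : ℝ)|)) * (1 + (|(k.1 : ℝ)| + |(k.2 : ℝ)|))) ^ 2 := by
        gcongr <;> linarith
    _ = _ := by ring

section data

variable {b : ℤ × ℤ → ℂ} (hb : ∀ q : ℕ, ∃ C : ℝ, ∀ k, ‖b k‖ * (1 + n1 k) ^ q ≤ C)

include hb

theorem STB_sum (m : ℕ) : Summable fun k => (1 + (n1 k : ℝ)) ^ m * ‖b k‖ := by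
  obtain ⟨C, hC⟩ := hb (m + 4)
  refine Summable.of_nonneg_of_le (fun k => by positivity) (fun k => ?_) (STB_sumK.mul_left C)
  have h1 := STB_one_le k
  rw [← div_eq_mul_inv, le_div_iff₀ (by positivity)]
  calc (1 + (n1 k : ℝ)) ^ m * ‖b k‖ * (1 + (n1 k : ℝ)) ^ 4
      = ‖b k‖ * (1 + n1 k) ^ (m + 4) := by rw [pow_add]; ring
    _ ≤ C := hC k

theorem STB_sum2 (m : ℕ) : Summable fun k => (1 + (n1 k : ℝ)) ^ m * ‖b k‖ ^ 2 := by
  obtain ⟨C, hC⟩ := hb 0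
  refine Summable.of_nonneg_of_le (fun k => by positivity) (fun k => ?_)
    ((STB_sum hb m).mul_left C)
  have h1 := STB_one_le k
  have h2 := hC k
  rw [pow_zero, mul_one] at h2
  have h3 : 0 ≤ (1 + (n1 k : ℝ)) ^ m * ‖b k‖ := by positivity
  calc (1 + (n1 k : ℝ)) ^ m * ‖b k‖ ^ 2 = ‖b k‖ * ((1 + (n1 k : ℝ)) ^ m * ‖b k‖) := by ring
    _ ≤ C * ((1 + (n1 k : ℝ)) ^ m * ‖b k‖) := mul_le_mul_of_nonneg_right h2 h3

theorem STB_sumL (m : ℕ) : Summable fun l : ℤ => (1 + |(l : ℝ)|) ^ m * ‖b (0, l)‖ := by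
  obtain ⟨C, hC⟩ := hb (m + 2)
  refine Summable.of_nonneg_of_le (fun k => by positivity) (fun l => ?_) (STB_sumZ.mul_left C)
  have h1 := hC (0, l)
  rw [n1_cast] at h1
  have h3 : (|((((0 : ℤ), l) : ℤ × ℤ).1 : ℝ)| + |((((0 : ℤ), l) : ℤ × ℤ).2 : ℝ)|) = |(l : ℝ)| := by
    simp
  rw [h3] at h1
  rw [← div_eq_mul_inv, le_div_iff₀ (by positivity)]
  calc (1 + |(l : ℝ)|) ^ m * ‖b (0, l)‖ * (1 + |(l : ℝ)|) ^ 2
      = ‖b (0, l)‖ * (1 + |(l : ℝ)|) ^ (m + 2) := by rw [pow_add]; ring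
    _ ≤ C := h1

theorem STB_fin (m : ℕ) (B : Finset (ℤ × ℤ)) :
    (∑ k ∈ B, if k.1 = 0 then (1 + |(k.2 : ℝ)|) ^ m * ‖b k‖ else 0) ≤
      ∑' l : ℤ, (1 + |(l : ℝ)|) ^ m * ‖b (0, l)‖ := by
  classical
  have hinj : ∀ x ∈ B.filter (fun k => k.1 = 0), ∀ y ∈ B.filter (fun k => k.1 = 0),
      x.2 = y.2 → x = y := by
    intro x hx y hy hxy
    rw [Finset.mem_filter] at hx hy
    exact Prod.ext (hx.2.trans hy.2.symm) hxy
  calc (∑ k ∈ B, if k.1 = 0 then (1 + |(k.2 : ℝ)|) ^ m * ‖b k‖ else 0)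
      = ∑ k ∈ B.filter (fun k => k.1 = 0), (1 + |(k.2 : ℝ)|) ^ m * ‖b k‖ :=
        (Finset.sum_filter _ _).symm
    _ = ∑ k ∈ B.filter (fun k => k.1 = 0), (1 + |(k.2 : ℝ)|) ^ m * ‖b (0, k.2)‖ := by
        refine Finset.sum_congr rfl fun k hk => ?_
        have h1 : k = (0, k.2) := Prod.ext (Finset.mem_filter.1 hk).2 rfl
        rw [← h1]
    _ = ∑ l ∈ (B.filter (fun k => k.1 = 0)).image Prod.snd,
          (1 + |(l : ℝ)|) ^ m * ‖b (0, l)‖ :=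
        (Finset.sum_image (f := fun l : ℤ => (1 + |(l : ℝ)|) ^ m * ‖b (0, l)‖) hinj).symm
    _ ≤ _ := Summable.sum_le_tsum _ (fun _ _ => by positivity) (STB_sumL hb m)

end data

theorem STB_wt (q : ℕ) (k : ℤ × ℤ) : 0 ≤ wt 1 (q : ℝ) k ∧ wt 1 (q : ℝ) k ≤
    (1 + (n1 k : ℝ)) ^ (2 * q) := by
  have he := eu_nonneg k
  have h1 := eu_le_n1 k
  have h2 := STB_one_le k
  unfold wt
  split_ifs
  · have h3 : eu k ^ (2 * (q : ℝ)) = eu k ^ (2 * q) := by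
      rw [← Real.rpow_natCast]
      push_cast
      rfl
    rw [h3]
    exact ⟨by positivity, pow_le_pow_left₀ he (by linarith) _⟩
  · exact ⟨le_rfl, by positivity⟩

theorem STB_ww (q : ℕ) (k : ℤ × ℤ) : 1 ≤ ww q k ∧ wt 1 (q : ℝ) k ≤ ww q k ∧
    ww q k ≤ 2 * (1 + (n1 k : ℝ)) ^ (2 * q) := by
  obtain ⟨h1, h2⟩ := STB_wt q k
  have h3 : (1 : ℝ) ≤ (1 + (n1 k : ℝ)) ^ (2 * q) := one_le_pow₀ (STB_one_le k)
  unfold ww
  exact ⟨by linarith, by linarith, by linarith⟩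

theorem STB_hS (κ α : ℝ) (x : ℤ × ℤ → ℝ → ℂ) (k : ℤ × ℤ) (t : ℝ) (hκ : 0 ≤ κ) (ht : 0 ≤ t) :
    ‖hS κ α x k t‖ ≤ ‖x k 0‖ := by
  unfold hS
  split_ifs
  · rw [norm_mul, Complex.norm_real, Real.norm_of_nonneg (Real.exp_pos _).le]
    have h1 : Real.exp (-(κ * eu k ^ (2 * α) * t)) ≤ 1 := by
      rw [Real.exp_le_one_iff]
      have : 0 ≤ κ * eu k ^ (2 * α) * t :=
        mul_nonneg (mul_nonneg hκ (Real.rpow_nonneg (eu_nonneg k) _)) ht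
      linarith
    calc Real.exp (-(κ * eu k ^ (2 * α) * t)) * ‖x k 0‖ ≤ 1 * ‖x k 0‖ :=
          mul_le_mul_of_nonneg_right h1 (norm_nonneg _)
      _ = ‖x k 0‖ := one_mul _
  · rw [norm_zero]
    exact norm_nonneg _

theorem STB_hz0 (κ α : ℝ) (x : ℤ × ℤ → ℝ → ℂ) (k : ℤ × ℤ) : ‖hz κ α x k 0‖ ≤ ‖x k 0‖ := by
  unfold hz hS
  split_ifs
  · rw [mul_zero, neg_zero, Real.exp_zero, Complex.ofReal_one, one_mul, sub_self, norm_zero]
    exact norm_nonneg _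
  · rw [sub_zero]

theorem STB_adm {B : Finset (ℤ × ℤ)} {κ α T : ℝ} {x : ℤ × ℤ → ℝ → ℂ} (hx : GS B κ α T x)
    {t : ℝ} (ht : t ∈ Icc 0 T) : Adm B (fun k => hz κ α x k t) := by
  have h0 : (0 : ℝ) ∈ Icc 0 T := ⟨le_rfl, ht.1.trans ht.2⟩
  obtain ⟨a1, a2⟩ := hx.adm t ht
  obtain ⟨b1, b2⟩ := hx.adm 0 h0
  refine ⟨fun k hk => ?_, fun k => ?_⟩
  · have h1 : x k t = 0 := a1 k hk
    have h2 : x k 0 = 0 := b1 k hk
    show hz κ α x k t = 0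
    unfold hz hS
    rw [h1, h2, mul_zero, ite_self, sub_zero]
  · have h1 : x (-k) t = (starRingEnd ℂ) (x k t) := a2 k
    have h2 : x (-k) 0 = (starRingEnd ℂ) (x k 0) := b2 k
    show hz κ α x (-k) t = (starRingEnd ℂ) (hz κ α x k t)
    unfold hz hS
    rw [h1, h2, eu_neg, map_sub, Prod.fst_neg]
    congr 1
    by_cases hk : k.1 = 0
    · rw [if_pos hk, if_pos (by rw [hk, neg_zero]), map_mul, Complex.conj_ofReal]
    · rw [if_neg hk, if_neg (by rw [neg_eq_zero]; exact hk), map_zero]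

theorem p_STB (hBO3 : Stmt_BO3) (hGRQ : Stmt_GRQ) (hGAL : Pool.SQGF.Stmt_GAL)
    (hPTW : Pool.SQGF.Stmt_PTW) (hLIM : Pool.SQGF.Stmt_LIM) : Stmt_STB := by
  intro κ α hκ hα hα'
  obtain ⟨c, hc, hB⟩ := hBO3 κ α hκ hα hα'
  refine ⟨c, hc, fun N b hN hbN hbs hbd hslow hfast => ?_⟩
  -- the lattice
  let Γ : AddSubgroup (ℤ × ℤ) :=
    { carrier := {k | (N : ℤ) ∣ k.1}
      zero_mem' := dvd_zero _
      add_mem' := fun {x y} hx hy => dvd_add hx hy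
      neg_mem' := fun {x} hx => (dvd_neg.mpr hx : (N : ℤ) ∣ -x.1) }
  have hΓ : ∀ k, k ∈ Γ ↔ (N : ℤ) ∣ k.1 := fun k => Iff.rfl
  have hmem : ∀ (n : ℕ) (k : ℤ × ℤ), k ∈ BB Γ n ↔
      ((-(n : ℤ) ≤ k.1 ∧ k.1 ≤ n) ∧ (-(n : ℤ) ≤ k.2 ∧ k.2 ≤ n)) ∧ k ∈ Γ ∧ k ≠ 0 := by
    intro n k
    unfold BB
    simp only [Finset.mem_filter, Finset.mem_product, Finset.mem_Icc]
  have hFr : ∀ n, Fr 1 (BB Γ n) := by
    refine fun n => ⟨fun k hk => ?_, fun k hk => ?_⟩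
    · rw [hmem] at hk ⊢
      obtain ⟨⟨⟨h1, h2⟩, h3, h4⟩, h5, h6⟩ := hk
      refine ⟨⟨⟨?_, ?_⟩, ?_, ?_⟩, Γ.neg_mem h5, neg_ne_zero.mpr h6⟩
      · simp only [Prod.fst_neg]; omega
      · simp only [Prod.fst_neg]; omega
      · simp only [Prod.snd_neg]; omega
      · simp only [Prod.snd_neg]; omega
    · rw [hmem] at hk
      have h6 := hk.2.2
      unfold nq
      by_contra hcon
      apply h6
      have h7 : k.1 ^ 2 + k.2 ^ 2 ≤ 0 := by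
        push_cast at hcon
        omega
      have h8 : k.1 ^ 2 = 0 := le_antisymm (by nlinarith [sq_nonneg k.2]) (sq_nonneg _)
      have h9 : k.2 ^ 2 = 0 := le_antisymm (by nlinarith [sq_nonneg k.1]) (sq_nonneg _)
      exact Prod.ext (pow_eq_zero_iff two_ne_zero |>.1 h8) (pow_eq_zero_iff two_ne_zero |>.1 h9)
  have hne : ∀ n, ∀ k ∈ BB Γ n, k ≠ 0 := fun n k hk => ((hmem n k).1 hk).2.2
  -- the Galerkin solutions
  choose x hx hx0 using fun n : ℕ => hGAL (BB Γ n) κ α n b hκ.le hα (Nat.cast_nonneg n)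
    (hFr n).1 hbs
  have hb0 : ∀ n k, ‖x n k 0‖ ≤ ‖b k‖ := by
    intro n k
    by_cases hk : k ∈ BB Γ n
    · rw [hx0 n k hk]
    · have h1 : x n k 0 = 0 := ((hx n).adm 0 ⟨le_rfl, Nat.cast_nonneg n⟩).1 k hk
      rw [h1, norm_zero]
      exact norm_nonneg _
  -- the third energy
  have hslow' : ∀ (m n : ℕ), (∑ k ∈ BB Γ n, if k.1 = 0 then (1 + |(k.2 : ℝ)|) ^ m * ‖x n k 0‖ else 0) ≤
      ∑' l : ℤ, (1 + |(l : ℝ)|) ^ m * ‖b (0, l)‖ := by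
    intro m n
    refine le_trans (Finset.sum_le_sum fun k _ => ?_) (STB_fin hbd m (BB Γ n))
    split_ifs
    · exact mul_le_mul_of_nonneg_left (hb0 n k) (by positivity)
    · exact le_rfl
  have hfast' : ∀ n, (∑ k ∈ BB Γ n, if k.1 = 0 then 0 else
      (1 + (n1 k : ℝ)) ^ 6 * ‖x n k 0‖ ^ 2) ≤ c := by
    intro n
    refine le_trans ?_ hfast
    refine le_trans (Finset.sum_le_sum fun k _ => ?_) (Summable.sum_le_tsum (BB Γ n)
      (f := fun k : ℤ × ℤ => if k.1 = 0 then 0 else (1 + (n1 k : ℝ)) ^ 6 * ‖b k‖ ^ 2)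
      (fun k _ => by split_ifs <;> positivity)
      (Summable.of_nonneg_of_le (fun k => by split_ifs <;> positivity) (fun k => ?_)
        (STB_sum2 hbd 6)))
    · split_ifs
      · exact le_rfl
      · exact mul_le_mul_of_nonneg_left
          (pow_le_pow_left₀ (norm_nonneg _) (hb0 n k) 2) (by positivity)
    · split_ifs
      · positivity
      · exact le_rfl
  have h3 : ∀ n : ℕ, FF κ α (BB Γ n) (x n) 3 0 ≤ 1 ∧ ∀ t ∈ Icc (0 : ℝ) n,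
      FF κ α (BB Γ n) (x n) 3 t ≤ Real.exp (-(κ / 2 * t)) * FF κ α (BB Γ n) (x n) 3 0 := by
    intro n
    refine hB N (BB Γ n) n (x n) hN (hFr n).1 ?_ (Nat.cast_nonneg n) (hx n)
      ((hslow' 7 n).trans hslow) (hfast' n)
    intro k hk
    refine ⟨hne n k hk, fun h => ?_⟩
    have hd : (N : ℤ) ∣ k.1 := (hΓ k).1 ((hmem n k).1 hk).2.1
    exact Int.le_of_dvd (abs_pos.2 h) ((dvd_abs _ _).2 hd)
  have hFF0 : ∀ (n q : ℕ) (t : ℝ), 0 ≤ FF κ α (BB Γ n) (x n) q t := by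
    intro n q t
    unfold FF
    refine Finset.sum_nonneg fun k _ => mul_nonneg ?_ (by positivity)
    have := (STB_ww q k).1
    linarith
  have hexp : ∀ t : ℝ, 0 ≤ t → Real.exp (-(κ / 2 * t)) ≤ 1 := by
    intro t ht
    rw [Real.exp_le_one_iff]
    have : 0 ≤ κ / 2 * t := by positivity
    linarith
  have h3' : ∀ n : ℕ, ∀ t ∈ Icc (0 : ℝ) n, FF κ α (BB Γ n) (x n) 3 t ≤ 1 := by
    intro n t ht
    calc FF κ α (BB Γ n) (x n) 3 t ≤ Real.exp (-(κ / 2 * t)) * FF κ α (BB Γ n) (x n) 3 0 :=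
          (h3 n).2 t ht
      _ ≤ 1 * FF κ α (BB Γ n) (x n) 3 0 :=
          mul_le_mul_of_nonneg_right (hexp t ht.1) (hFF0 n 3 0)
      _ ≤ 1 := by
          rw [one_mul]
          exact (h3 n).1
  -- all energies
  have hQ : ∀ q : ℕ, ∃ Q : ℝ, 1 ≤ q → ∀ n : ℕ, ∀ t ∈ Icc (0 : ℝ) n,
      FF κ α (BB Γ n) (x n) q t ≤ Q := by
    intro q
    by_cases hq : 1 ≤ q
    · obtain ⟨C, hC, hCq⟩ := hGRQ q hq
      refine ⟨(∑' k, 2 * ((1 + (n1 k : ℝ)) ^ (2 * q) * ‖b k‖ ^ 2)) * Real.exp (C / κ *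
        ((∑' l : ℤ, (1 + |(l : ℝ)|) ^ (2 * q + 1) * ‖b (0, l)‖) + 1)), fun _ n t ht => ?_⟩
      have h1 := hCq κ α (BB Γ n) n (x n) hκ hα hα' (hFr n).1 (hne n) (Nat.cast_nonneg n) (hx n)
        (h3 n).2 t ht
      refine h1.trans (mul_le_mul ?_ ?_ (Real.exp_pos _).le ?_)
      · unfold FF
        refine le_trans (Finset.sum_le_sum fun k _ => ?_) (Summable.sum_le_tsum (BB Γ n)
          (f := fun k : ℤ × ℤ => 2 * ((1 + (n1 k : ℝ)) ^ (2 * q) * ‖b k‖ ^ 2))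
          (fun k _ => by positivity) ((STB_sum2 hbd (2 * q)).mul_left 2))
        have h2 := (STB_ww q k).2.2
        have h4 : ‖hz κ α (x n) k 0‖ ≤ ‖b k‖ := (STB_hz0 κ α (x n) k).trans (hb0 n k)
        calc ww q k * ‖hz κ α (x n) k 0‖ ^ 2 ≤ (2 * (1 + (n1 k : ℝ)) ^ (2 * q)) * ‖b k‖ ^ 2 :=
              mul_le_mul h2 (pow_le_pow_left₀ (norm_nonneg _) h4 2) (by positivity)
                (by positivity)
          _ = 2 * ((1 + (n1 k : ℝ)) ^ (2 * q) * ‖b k‖ ^ 2) := by ring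
      · rw [Real.exp_le_exp]
        refine mul_le_mul_of_nonneg_left (add_le_add (hslow' (2 * q + 1) n) ?_) (by positivity)
        rw [← Real.sqrt_one]
        exact Real.sqrt_le_sqrt (h3 n).1
      · exact tsum_nonneg fun k => by positivity
    · exact ⟨0, fun h => absurd h hq⟩
  choose Q hQ using hQ
  -- uniform decay
  have hdec : ∀ m : ℕ, ∃ C : ℝ, ∀ (n : ℕ) (k : ℤ × ℤ) (t : ℝ), 0 ≤ t → t ≤ n →
      ‖x n k t‖ * (1 + n1 k) ^ m ≤ C := by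
    intro m
    obtain ⟨C, hC⟩ := hPTW 1 1 Q m le_rfl zero_le_one
    obtain ⟨C', hC'⟩ := hbd m
    refine ⟨C + C', fun n k t ht0 htn => ?_⟩
    have ht : t ∈ Icc (0 : ℝ) n := ⟨ht0, htn⟩
    have h1 := hC (BB Γ n) (fun k => hz κ α (x n) k t) (hFr n) (STB_adm (hx n) ht) (by
      rw [one_pow]
      refine le_trans ?_ (h3' n t ht)
      unfold TT FF
      refine Finset.sum_le_sum fun k _ => ?_
      have h2 := (STB_ww 3 k).1
      nlinarith [sq_nonneg ‖hz κ α (x n) k t‖]) (by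
      intro p hp
      refine le_trans ?_ (hQ p hp n t ht)
      unfold Y FF
      refine Finset.sum_le_sum fun k _ => ?_
      exact mul_le_mul_of_nonneg_right (STB_ww p k).2.1 (by positivity)) k
    have h2 : ‖hS κ α (x n) k t‖ ≤ ‖b k‖ :=
      (STB_hS κ α (x n) k t hκ.le ht0).trans (hb0 n k)
    have h4 : x n k t = hz κ α (x n) k t + hS κ α (x n) k t := by
      unfold hz
      rw [sub_add_cancel]
    have h5 : ‖x n k t‖ ≤ ‖hz κ α (x n) k t‖ + ‖b k‖ := by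
      rw [h4]
      exact (norm_add_le _ _).trans (add_le_add le_rfl h2)
    have h6 : (0 : ℝ) ≤ (1 + n1 k) ^ m := by positivity
    calc ‖x n k t‖ * (1 + n1 k) ^ m ≤ (‖hz κ α (x n) k t‖ + ‖b k‖) * (1 + n1 k) ^ m :=
          mul_le_mul_of_nonneg_right h5 h6
      _ = ‖hz κ α (x n) k t‖ * (1 + n1 k) ^ m + ‖b k‖ * (1 + n1 k) ^ m := add_mul _ _ _
      _ ≤ C + C' := add_le_add h1 (hC' k)
  exact hLIM κ α Γ b x hκ hα hα' (fun k hk => (hΓ k).2 (hbN k hk)) hbs hx hx0 hdec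

end

end Pool.SQGA
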