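import Pool.Agent.Work.MP_a2fcf1_an_ar.I2

/-! # Supercritical SQG, analytic data: block WTB (first facts on the weights) -/

set_option autoImplicit false

namespace Pool.SQGA

open Set MeasureTheory
open Pool.Agent.Work.MP_a2fcf1_an_h64 (cr sc eu n1)

noncomputable section

theorem WTB_n1 (m l : ℤ) : ((n1 (m, l) : ℕ) : ℝ) = |(m : ℝ)| + |(l : ℝ)| := by
  unfold n1
  push_cast [Nat.cast_natAbs]
  rfl

theorem WTB_n1_neg (k : ℤ × ℤ) : n1 (-k) = n1 k := by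
  unfold n1
  simp

theorem WTB_Wt_pos (p : Par) (β t : ℝ) (k : ℤ × ℤ) : 0 < Wt p β t k := by
  unfold Wt
  positivity

theorem WTB_Ef_pos (p : Par) (t : ℝ) : 0 < Ef p t := Real.exp_pos _

theorem WTB_Ef_le (p : Par) (hp : p.Ok) (t : ℝ) (ht : 0 ≤ t) : Ef p t ≤ 1 := by
  unfold Ef
  rw [Real.exp_le_one_iff]
  have h1 : 0 ≤ (p.N : ℝ) ^ (2 * p.α) := Real.rpow_nonneg (Nat.cast_nonneg _) _
  have h2 : 0 ≤ p.κ * (p.N : ℝ) ^ (2 * p.α) * t / 2 :=
    div_nonneg (mul_nonneg (mul_nonneg hp.κ_pos.le h1) ht) (by norm_num)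
  linarith

theorem WTB_fac (p : Par) (hp : p.Ok) (t : ℝ) (ht : 0 ≤ t) (k : ℤ × ℤ) :
    0 < (if k.1 = 0 then min 1 ((1 + |(k.2 : ℝ)|) / p.N) else Ef p t) ∧
    (if k.1 = 0 then min 1 ((1 + |(k.2 : ℝ)|) / p.N) else Ef p t) ≤ 1 := by
  split_ifs with h
  · have hN : (0 : ℝ) < p.N := by exact_mod_cast hp.N_pos
    refine ⟨lt_min one_pos (div_pos ?_ hN), min_le_left _ _⟩
    have := abs_nonneg (k.2 : ℝ)
    linarith
  · exact ⟨WTB_Ef_pos p t, WTB_Ef_le p hp t ht⟩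

theorem WTB_shift (p : Par) (hp : p.Ok) (β t : ℝ) (hβ : 0 ≤ β) (ht : 0 ≤ t)
    (hβt : β * t ≤ p.s / 2) (m l l' : ℤ) :
    Wt p β t (m, l') ≤ om p.s (l - l') * Wt p β t (m, l) := by
  unfold Wt om
  rw [WTB_n1, WTB_n1]
  have hs := hp.s_pos
  have hσ0 : 0 ≤ p.s - β * t := by linarith
  have hσ1 : p.s - β * t ≤ p.s := by
    have := mul_nonneg hβ ht
    linarith
  have e1 : (((l - l' : ℤ)) : ℝ) = (l : ℝ) - (l' : ℝ) := by push_cast; ring
  rw [e1]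
  have hm : 0 ≤ |(m : ℝ)| := abs_nonneg _
  have hl : 0 ≤ |(l : ℝ)| := abs_nonneg _
  have hl' : 0 ≤ |(l' : ℝ)| := abs_nonneg _
  have hd : 0 ≤ |(l : ℝ) - (l' : ℝ)| := abs_nonneg _
  have htri : |(l : ℝ)| - |(l' : ℝ)| ≤ |(l : ℝ) - (l' : ℝ)| := abs_sub_abs_le_abs_sub _ _
  generalize |(m : ℝ)| = a at *
  generalize |(l : ℝ)| = b at *
  generalize |(l' : ℝ)| = c at *
  generalize |(l : ℝ) - (l' : ℝ)| = d at *
  generalize p.s - β * t = σ at *
  have h1 : Real.exp (-(σ * (a + c))) ≤ Real.exp (p.s * d) * Real.exp (-(σ * (a + b))) := by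
    rw [← Real.exp_add]
    apply Real.exp_le_exp.mpr
    have h2 : σ * (b - c) ≤ σ * d := mul_le_mul_of_nonneg_left htri hσ0
    have h3 : σ * d ≤ p.s * d := mul_le_mul_of_nonneg_right hσ1 hd
    nlinarith
  have h2 : (1 + (a + b)) ^ 4 ≤ (1 + d) ^ 4 * (1 + (a + c)) ^ 4 := by
    rw [← mul_pow]
    apply pow_le_pow_left₀ (by linarith)
    nlinarith [mul_nonneg hd hm, mul_nonneg hd hl']
  have hp1 : 0 < (1 + (a + b)) ^ 4 := by positivity
  have hp2 : 0 < (1 + (a + c)) ^ 4 := by positivity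
  have hE : 0 < Real.exp (p.s * d) * Real.exp (-(σ * (a + b))) := by positivity
  rw [div_le_iff₀ hp2]
  have e2 : Real.exp (p.s * d) * (1 + d) ^ 4 * (Real.exp (-(σ * (a + b))) / (1 + (a + b)) ^ 4) *
      (1 + (a + c)) ^ 4 = (Real.exp (p.s * d) * Real.exp (-(σ * (a + b)))) *
        (((1 + d) ^ 4 * (1 + (a + c)) ^ 4) / (1 + (a + b)) ^ 4) := by
    field_simp
  rw [e2]
  have h3 : 1 ≤ ((1 + d) ^ 4 * (1 + (a + c)) ^ 4) / (1 + (a + b)) ^ 4 := by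
    rw [one_le_div hp1]
    exact h2
  calc Real.exp (-(σ * (a + c))) ≤ Real.exp (p.s * d) * Real.exp (-(σ * (a + b))) := h1
    _ = (Real.exp (p.s * d) * Real.exp (-(σ * (a + b)))) * 1 := by ring
    _ ≤ _ := mul_le_mul_of_nonneg_left h3 hE.le

theorem p_WTB : Stmt_OMS → Stmt_WTB := by
  intro _ p hp β t hβ ht hβt
  refine ⟨fun k => ?_, fun k hk => ?_, ⟨WTB_Ef_pos p t, WTB_Ef_le p hp t ht⟩, fun k => ?_,
    fun m l l' => ?_, fun k => ?_⟩
  · have h1 := WTB_Wt_pos p β t k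
    obtain ⟨h2, h3⟩ := WTB_fac p hp t ht k
    refine ⟨h1, mul_pos h2 h1, ?_⟩
    unfold wv
    calc _ ≤ 1 * Wt p β t k := mul_le_mul_of_nonneg_right h3 h1.le
      _ = Wt p β t k := one_mul _
  · unfold wv
    rw [if_neg hk]
  · have h1 : Wt p β t (-k) = Wt p β t k := by
      unfold Wt
      rw [WTB_n1_neg]
    refine ⟨h1, ?_⟩
    unfold wv
    rw [h1]
    have e1 : (-k).1 = -(k.1) := rfl
    have e2 : (-k).2 = -(k.2) := rfl
    rw [e1, e2]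
    have e3 : |((-k.2 : ℤ) : ℝ)| = |(k.2 : ℝ)| := by
      rw [Int.cast_neg, abs_neg]
    rw [e3]
    simp only [neg_eq_zero]
  · have h1 := WTB_shift p hp β t hβ ht hβt m l l'
    refine ⟨h1, fun hm => ?_⟩
    unfold wv
    rw [if_neg (show ¬ (m, l').1 = 0 from hm), if_neg (show ¬ (m, l).1 = 0 from hm)]
    calc Ef p t * Wt p β t (m, l') ≤ Ef p t * (om p.s (l - l') * Wt p β t (m, l)) :=
          mul_le_mul_of_nonneg_left h1 (WTB_Ef_pos p t).le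
      _ = om p.s (l - l') * (Ef p t * Wt p β t (m, l)) := by ring
  · unfold Wt
    have hn : (0 : ℝ) ≤ (n1 k : ℝ) := Nat.cast_nonneg _
    apply div_le_div_of_nonneg_right _ (by positivity)
    apply Real.exp_le_exp.mpr
    have h1 : p.s / 2 * (n1 k : ℝ) ≤ (p.s - β * t) * (n1 k : ℝ) :=
      mul_le_mul_of_nonneg_right (by linarith) hn
    linarith

end

end Pool.SQGA
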