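import Pool.Agent.Work.MP_a2fcf1_an_fs.Interface

/-! # Supercritical SQG on the torus: analytic data, fast in one direction (MP_a2fcf1_an, helper61)

Part 1: Fourier series in one variable, the phase `exp (-i m N V(t, y))`, conjugated multipliers.

Block `X` lives in `B_X.lean` (import this file, namespace `Pool.SQGA`) and proves
`theorem p_X (h1 : Stmt_Y) ... : Stmt_X`; blocks may use any earlier `Stmt_` as a hypothesis.
Useful existing files: `MP_a2fcf1_an_h64/Fourier.lean` (integrals of exponentials,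
`hasSum_integral`), `MP_a2fcf1_an_h64/Smooth.lean` (`hasDerivWithinAt_tsum_Ici`, `summable_exp`). -/

set_option autoImplicit false

namespace Pool.SQGA

open Set MeasureTheory

noncomputable section

/-! ## Fourier series in one variable -/

/-- `exp (i l y)`. -/
def e1 (l : ℤ) (y : ℝ) : ℂ := Complex.exp (Complex.I * ((l : ℂ) * (y : ℂ)))

/-- The Fourier coefficient `(2π)⁻¹ ∫ f(y) exp (-i l y) dy`. -/
def cf (f : ℝ → ℂ) (l : ℤ) : ℂ :=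
  (1 / (2 * (Real.pi : ℂ))) * ∫ y in (0 : ℝ)..(2 * Real.pi), f y * e1 (-l) y

/-- The sum of the Fourier series with coefficients `a`. -/
def fn (a : ℤ → ℂ) (y : ℝ) : ℂ := ∑' l, a l * e1 l y

/-- Convolution of sequences. -/
def cv (a b : ℤ → ℂ) (l : ℤ) : ℂ := ∑' j, a j * b (l - j)

/-- The sequence `δ₀`. -/
def dl (j : ℤ) : ℂ := if j = 0 then 1 else 0

/-- Absolutely summable sequences. -/
def S1 (a : ℤ → ℂ) : Prop := Summable fun l => ‖a l‖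

/-- The submultiplicative weight `exp (s |j|) (1 + |j|) ^ 4`. -/
def om (s : ℝ) (j : ℤ) : ℝ := Real.exp (s * |(j : ℝ)|) * (1 + |(j : ℝ)|) ^ 4

/-- Finiteness of the weighted norm. -/
def WS (s : ℝ) (a : ℤ → ℂ) : Prop := Summable fun l => om s l * ‖a l‖

/-- The weighted norm. -/
def nw (s : ℝ) (a : ℤ → ℂ) : ℝ := ∑' l, om s l * ‖a l‖

/-- OMS: the weight is at least one, even, submultiplicative, and beats powers.
Proof: `exp` of the triangle inequality, `1 + a + b ≤ (1 + a) (1 + b)`; for the last clause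
`(1 + x) ^ q ≤ C exp (s x)` for `x ≥ 0` (e.g. `Real.pow_div_factorial_le_exp`). -/
def Stmt_OMS : Prop :=
  (∀ (s : ℝ) (j : ℤ), 0 ≤ s → 1 ≤ om s j) ∧ (∀ (s : ℝ) (j : ℤ), om s (-j) = om s j) ∧
  (∀ (s : ℝ) (i j : ℤ), 0 ≤ s → om s (i + j) ≤ om s i * om s j) ∧
  (∀ (s : ℝ) (a : ℤ → ℂ), 0 ≤ s → WS s a → S1 a) ∧
  (∀ (s : ℝ) (q : ℕ), 0 < s → ∃ C : ℝ, 0 < C ∧ ∀ j : ℤ, (1 + |(j : ℝ)|) ^ q ≤ C * om s j)

/-- FSC: the series of an absolutely summable sequence is continuous, `2π`-periodic, and its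
Fourier coefficients are the sequence (interchange sum and integral, orthogonality:
`MP_a2fcf1_an_h64/Fourier.lean` has `integral_e1d`, `hasSum_integral`). -/
def Stmt_FSC : Prop :=
  ∀ a : ℤ → ℂ, S1 a → Continuous (fn a) ∧ (∀ y, fn a (y + 2 * Real.pi) = fn a y) ∧
    (∀ y, HasSum (fun l => a l * e1 l y) (fn a y)) ∧ ∀ l, cf (fn a) l = a l

/-- FSM: products are convolutions (sum over `(j, l)` of `a j b (l - j) e1 l y`, reindexed). -/
def Stmt_FSM : Prop :=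
  ∀ a b : ℤ → ℂ, S1 a → S1 b → S1 (cv a b) ∧
    (∀ l, Summable fun j => ‖a j * b (l - j)‖) ∧ ∀ y, fn (cv a b) y = fn a y * fn b y

/-- FSD: termwise derivative (`hasDerivAt_tsum`). -/
def Stmt_FSD : Prop :=
  ∀ a : ℤ → ℂ, S1 a → (Summable fun l : ℤ => |(l : ℝ)| * ‖a l‖) →
    ∀ y, HasDerivAt (fn a) (Complex.I * fn (fun l => (l : ℂ) * a l) y) y

/-- CVW: the weighted norm is submultiplicative. -/
def Stmt_CVW : Prop :=
  ∀ (s : ℝ) (a b : ℤ → ℂ), 0 ≤ s → WS s a → WS s b →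
    WS s (cv a b) ∧ nw s (cv a b) ≤ nw s a * nw s b

/-- CVA: algebra of convolution for absolutely summable sequences (via `fn`: `FSC` gives that
`fn` is injective, `FSM` that it is multiplicative). -/
def Stmt_CVA : Prop :=
  (∀ a b : ℤ → ℂ, S1 a → S1 b → cv a b = cv b a) ∧
  (∀ a b c : ℤ → ℂ, S1 a → S1 b → S1 c → cv (cv a b) c = cv a (cv b c)) ∧
  (∀ a : ℤ → ℂ, cv dl a = a ∧ cv a dl = a) ∧
  (∀ a b : ℤ → ℂ, S1 a → S1 b → (∀ y, fn a y = fn b y) → a = b) ∧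
  (∀ a b : ℤ → ℂ, S1 a → S1 b → (∀ l, ‖b l‖ ≤ 1) → ∀ l, ‖cv a b l‖ ≤ ∑' j, ‖a j‖)

/-- EXPW: the exponential in the weighted algebra. Proof: `exp (fn a y) = ∑ n, fn a y ^ n / n!`,
`fn a ^ n = fn (a^{*n})`, `nw s (a^{*n}) ≤ nw s a ^ n` (CVW, FSM); the sequence
`b l = ∑' n, a^{*n} l / n!` satisfies `fn b = exp ∘ fn a` (interchange) and
`nw s b ≤ ∑ nw s a ^ n / n!`, `nw s (b - dl) ≤ ∑_{n ≥ 1}`, `exp x - 1 ≤ x exp x`; by FSC
`b = cf (exp ∘ fn a)`. -/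
def Stmt_EXPW : Prop :=
  ∀ (s : ℝ) (a : ℤ → ℂ), 0 ≤ s → WS s a →
    WS s (cf fun y => Complex.exp (fn a y)) ∧
    (∀ y, fn (cf fun y => Complex.exp (fn a y)) y = Complex.exp (fn a y)) ∧
    nw s (cf fun y => Complex.exp (fn a y)) ≤ Real.exp (nw s a) ∧
    nw s (fun l => (cf fun y => Complex.exp (fn a y)) l - dl l) ≤ nw s a * Real.exp (nw s a)

/-! ## Parameters, the shear and its phase -/

/-- The parameters: dissipation `κ`, exponent `α`, width `s`, large integer `N`, shear data `A`. -/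
structure Par where
  κ : ℝ
  α : ℝ
  s : ℝ
  N : ℕ
  A : ℤ → ℂ

/-- The standing hypotheses. -/
structure Par.Ok (p : Par) : Prop where
  κ_pos : 0 < p.κ
  α_pos : 0 < p.α
  α_lt : p.α < 1 / 2
  s_pos : 0 < p.s
  N_pos : 1 ≤ p.N
  sum : Summable fun l : ℤ => om p.s l * (|(l : ℝ)| * ‖p.A l‖)
  conj : ∀ l, p.A (-l) = (starRingEnd ℂ) (p.A l)

/-- The size of the shear data. -/
def Par.As (p : Par) : ℝ := ∑' l : ℤ, om p.s l * (|(l : ℝ)| * ‖p.A l‖)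

/-- Heat flow of the shear data. -/
def Sl (p : Par) (t : ℝ) (l : ℤ) : ℂ :=
  ((Real.exp (-(p.κ * |(l : ℝ)| ^ (2 * p.α) * t)) : ℝ) : ℂ) * p.A l

/-- Velocity of the heat flow of the shear data. -/
def Ul (p : Par) (t : ℝ) (l : ℤ) : ℂ := Complex.I * ((Int.sign l : ℤ) : ℂ) * Sl p t l

/-- The primitive in time of the velocity. -/
def Vl (p : Par) (t : ℝ) (l : ℤ) : ℂ :=
  Complex.I * ((Int.sign l : ℤ) : ℂ) * ∫ r in (0 : ℝ)..t, Sl p r l

/-- The Fourier coefficients of the phase `exp (-i m N V(t, y))`. -/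
def ee (p : Par) (m : ℤ) (t : ℝ) (j : ℤ) : ℂ :=
  cf (fun y => Complex.exp (-(Complex.I * ((m : ℂ) * (p.N : ℂ)) * fn (Vl p t) y))) j

/-- The Fourier coefficients of `exp (i m N (V(t, y) - V(t, y - z)))`. -/
def Ez (p : Par) (m : ℤ) (t z : ℝ) (j : ℤ) : ℂ :=
  cf (fun y => Complex.exp
    (Complex.I * ((m : ℂ) * (p.N : ℂ)) * (fn (Vl p t) y - fn (Vl p t) (y - z)))) j

/-- VR: bounds, symmetry, reality and time derivatives of the shear sequences. -/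
def Stmt_VR : Prop :=
  ∀ p : Par, p.Ok →
    (∀ t l, 0 ≤ t → ‖Sl p t l‖ ≤ ‖p.A l‖ ∧ ‖Ul p t l‖ ≤ |(l : ℝ)| * ‖p.A l‖ ∧
      ‖Vl p t l‖ ≤ t * (|(l : ℝ)| * ‖p.A l‖) ∧
      |(l : ℝ)| * ‖Vl p t l‖ ≤ t * (|(l : ℝ)| * ‖p.A l‖)) ∧
    (∀ l, Vl p 0 l = 0) ∧
    (∀ t l, Sl p t (-l) = (starRingEnd ℂ) (Sl p t l) ∧
      Ul p t (-l) = (starRingEnd ℂ) (Ul p t l) ∧ Vl p t (-l) = (starRingEnd ℂ) (Vl p t l)) ∧
    (∀ t l, HasDerivAt (fun t => Sl p t l)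
      (-((p.κ * |(l : ℝ)| ^ (2 * p.α) : ℝ) : ℂ) * Sl p t l) t) ∧
    (∀ t l, HasDerivAt (fun t => Vl p t l) (Ul p t l) t) ∧
    (∀ t, 0 ≤ t → WS p.s (Ul p t) ∧ WS p.s (Vl p t) ∧ nw p.s (Vl p t) ≤ t * p.As ∧
      WS p.s (fun l => (l : ℂ) * Vl p t l) ∧ nw p.s (fun l => (l : ℂ) * Vl p t l) ≤ t * p.As ∧
      ∀ y, (fn (Vl p t) y).im = 0)

/-- EEW: `ee p m t` is the sequence of the phase (EXPW with `a = -(i m N) Vl`). -/
def Stmt_EEW : Prop :=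
  ∀ p : Par, p.Ok → ∀ (m : ℤ) (t : ℝ), 0 ≤ t →
    WS p.s (ee p m t) ∧ nw p.s (ee p m t) ≤ Real.exp (p.N * |(m : ℝ)| * (t * p.As)) ∧
    ∀ y, fn (ee p m t) y = Complex.exp (-(Complex.I * ((m : ℂ) * (p.N : ℂ)) * fn (Vl p t) y))

/-- EEB: the phase has modulus one, so its coefficients are at most one; conjugation; `m = 0`;
`t = 0`. -/
def Stmt_EEB : Prop :=
  ∀ p : Par, p.Ok → (∀ (m : ℤ) (t : ℝ) (j : ℤ), 0 ≤ t → ‖ee p m t j‖ ≤ 1 ∧
      (starRingEnd ℂ) (ee p m t j) = ee p (-m) t (-j)) ∧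
    (∀ t j, 0 ≤ t → ee p 0 t j = dl j) ∧ ∀ m j, ee p m 0 j = dl j

/-- EEM: the phases multiply. -/
def Stmt_EEM : Prop :=
  ∀ p : Par, p.Ok → ∀ (m n : ℤ) (t : ℝ), 0 ≤ t → cv (ee p m t) (ee p n t) = ee p (m + n) t

/-- EED: the derivative of the phase in space (FSD for both sides, uniqueness of coefficients). -/
def Stmt_EED : Prop :=
  ∀ p : Par, p.Ok → ∀ (m : ℤ) (t : ℝ) (j : ℤ), 0 ≤ t →
    (j : ℂ) * ee p m t j =
      -((m : ℂ) * (p.N : ℂ)) * cv (fun l => Complex.I * ((l : ℂ) * Vl p t l)) (ee p m t) j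

/-- EET: the derivative of the phase in time. Proof: `V(t, y) - V(t0, y) = ∫ U`, the map
`t ↦ fn (Vl p t) y` has within `[0, ∞)` the derivative `fn (Ul p t) y` (continuous in `(t, y)`,
`norms ≤ ∑ |l| ‖A l‖`), differentiate under the integral sign of `cf` (or termwise); the
derivative `-(i m N) U exp (...)` has coefficients `-(i m N) cv U e` by FSM. -/
def Stmt_EET : Prop :=
  ∀ p : Par, p.Ok → ∀ (m j : ℤ),
    (∀ t : ℝ, 0 ≤ t → HasDerivWithinAt (fun t => ee p m t j)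
      (-(Complex.I * ((m : ℂ) * (p.N : ℂ))) * cv (Ul p t) (ee p m t) j) (Ici 0) t) ∧
    ContinuousOn (fun t => cv (Ul p t) (ee p m t) j) (Ici 0)

/-- EZW: the sequence of `exp (i m N (V(y) - V(y - z)))`: the exponent is `fn` of
`i m N (1 - e1 (-l) z) Vl l` and `|1 - exp (-i l z)| ≤ |l| |z|`; EXPW; the product formula is
`exp (i m N V(y))` times `exp (-i m N V(y - z))`; continuity in `z` from the product formula. -/
def Stmt_EZW : Prop :=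
  ∀ p : Par, p.Ok → ∀ (m : ℤ) (t z : ℝ), 0 ≤ t →
    WS p.s (Ez p m t z) ∧
    nw p.s (Ez p m t z) ≤ Real.exp (p.N * |(m : ℝ)| * |z| * (t * p.As)) ∧
    nw p.s (fun j => Ez p m t z j - dl j) ≤
      p.N * |(m : ℝ)| * |z| * (t * p.As) * Real.exp (p.N * |(m : ℝ)| * |z| * (t * p.As)) ∧
    (∀ j, HasSum (fun a => ee p (-m) t (j - a) * (ee p m t a * e1 (-a) z)) (Ez p m t z j)) ∧
    ∀ j, Continuous fun z => Ez p m t z j

/-! ## Conjugated multipliers -/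

/-- The matrix of the multiplier `φ` conjugated by the phase. -/
def Cj (p : Par) (φ : ℤ → ℝ) (m : ℤ) (t : ℝ) (l l' : ℤ) : ℂ :=
  ∑' b, ee p (-m) t (l - b) * (((φ b : ℝ) : ℂ) * ee p m t (b - l'))

/-- The resolvent symbol. -/
def ph (ν : ℝ) (b : ℤ) : ℝ := 1 / (ν ^ 2 + (b : ℝ) ^ 2)

/-- The resolvent kernel. -/
def kn (ν z : ℝ) : ℝ := Real.exp (-(ν * |z|)) / (2 * ν)

/-- KER: the Laplace kernel and its moments. -/
def Stmt_KER : Prop :=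
  ∀ ν : ℝ, 0 < ν →
    (∀ b : ℤ, Integrable (fun z : ℝ => ((kn ν z : ℝ) : ℂ) * e1 (-b) z) ∧
      ((ph ν b : ℝ) : ℂ) = ∫ z, ((kn ν z : ℝ) : ℂ) * e1 (-b) z) ∧
    ∀ q : ℝ, 0 ≤ q → q < ν →
      Integrable (fun z => kn ν z * Real.exp (q * |z|)) ∧
      (∫ z, kn ν z * Real.exp (q * |z|)) = 1 / (ν * (ν - q)) ∧
      Integrable (fun z => kn ν z * (|z| * Real.exp (q * |z|))) ∧
      (∫ z, kn ν z * (|z| * Real.exp (q * |z|))) = 1 / (ν * (ν - q) ^ 2)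

/-- RKR: kernel representation of the conjugated resolvent. Proof: KER for `ph ν b`, interchange
of the sum over `b` (absolutely summable: both factors are in `S1`, bounded by one) with the
integral, `b = a + l'` and the product formula of EZW. -/
def Stmt_RKR : Prop :=
  ∀ p : Par, p.Ok → ∀ (m : ℤ) (t ν : ℝ) (l l' : ℤ), 0 ≤ t → 0 < ν →
    Integrable (fun z : ℝ => ((kn ν z : ℝ) : ℂ) * (Ez p m t z (l - l') * e1 (-l') z)) ∧
    Cj p (ph ν) m t l l' = ∫ z, ((kn ν z : ℝ) : ℂ) * (Ez p m t z (l - l') * e1 (-l') z)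

/-- RES: weighted bounds of the conjugated resolvent, `t A_* ≤ 1 / 2`, `ν ≥ N |m|`. Proof: for a
finite set of `l'`, `∑ om (l - l') |∫ k E_z(l - l') ...| ≤ ∫ k nw (E_z)`, RKR, EZW and KER with
`q = N |m| t A_* ≤ ν / 2`; for the second `dl (l - l')` times KER is subtracted; for the third
`|exp (-i l' z) - exp (-i (l' - c) z)| ≤ |c| |z|`. -/
def Stmt_RES : Prop :=
  ∀ p : Par, p.Ok → ∀ (m : ℤ) (t ν : ℝ) (l : ℤ), 0 ≤ t → t * p.As ≤ 1 / 2 → m ≠ 0 →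
    p.N * |(m : ℝ)| ≤ ν →
    ((Summable fun l' => om p.s (l - l') * ‖Cj p (ph ν) m t l l'‖) ∧
      ∑' l', om p.s (l - l') * ‖Cj p (ph ν) m t l l'‖ ≤ 2 / ν ^ 2) ∧
    ((Summable fun l' => om p.s (l - l') *
        ‖Cj p (ph ν) m t l l' - if l = l' then ((ph ν l : ℝ) : ℂ) else 0‖) ∧
      ∑' l', om p.s (l - l') *
        ‖Cj p (ph ν) m t l l' - if l = l' then ((ph ν l : ℝ) : ℂ) else 0‖ ≤
          4 * (p.N * |(m : ℝ)| * (t * p.As)) / ν ^ 3) ∧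
    ∀ c : ℤ, (Summable fun l' => om p.s (l - l') *
        ‖Cj p (ph ν) m t l l' - Cj p (ph ν) m t (l - c) (l' - c)‖) ∧
      ∑' l', om p.s (l - l') *
        ‖Cj p (ph ν) m t l l' - Cj p (ph ν) m t (l - c) (l' - c)‖ ≤ 4 * |(c : ℝ)| / ν ^ 3

/-- RIM: the integral formula for `X ^ (-1/2)` (Mathlib: `Real.rpow_eq_const_mul_integral`,
`Real.rpowIntegrand₀₁` with exponent `1 / 2`, divided by `X`). -/
def Stmt_RIM : Prop :=
  ∃ C : ℝ, 0 < C ∧ ∀ X : ℝ, 0 < X →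
    IntegrableOn (fun r : ℝ => r ^ (-(1 / 2) : ℝ) / (r + X)) (Ioi 0) ∧
    X ^ (-(1 / 2) : ℝ) = C * ∫ r in Ioi (0 : ℝ), r ^ (-(1 / 2) : ℝ) / (r + X)

/-- RIA: the integral formula for the difference of two powers. -/
def Stmt_RIA : Prop :=
  ∀ α : ℝ, 0 < α → α < 1 → ∃ C : ℝ, 0 < C ∧ ∀ X Y : ℝ, 0 < X → 0 < Y →
    IntegrableOn (fun r : ℝ => r ^ α * (1 / (r + Y) - 1 / (r + X))) (Ioi 0) ∧
    X ^ α - Y ^ α = C * ∫ r in Ioi (0 : ℝ), r ^ α * (1 / (r + Y) - 1 / (r + X))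

/-- RIB: the integral in the bound of the commutator (split at `r = M ^ 2`; here `α < 1/2`). -/
def Stmt_RIB : Prop :=
  ∀ α : ℝ, 0 < α → α < 1 / 2 → ∃ C : ℝ, 0 < C ∧ ∀ M : ℝ, 0 < M →
    IntegrableOn (fun r : ℝ => r ^ α / √(r + M ^ 2) ^ 3) (Ioi 0) ∧
    ∫ r in Ioi (0 : ℝ), r ^ α / √(r + M ^ 2) ^ 3 ≤ C * M ^ (2 * α - 1)

end

end Pool.SQGA
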