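import Pool.Agent.Work.MP_a2fcf1_an_ar.I1

/-! # Supercritical SQG: analytic data, fast in one direction. Part 2

The system for the transported unknown and its contraction estimates. Frequencies `k = (m, l)`
stand for the real frequencies `D k = (N m, l)`. -/

set_option autoImplicit false

namespace Pool.SQGA

open Set MeasureTheory
open Pool.Agent.Work.MP_a2fcf1_an_h64 (cr sc eu n1)

noncomputable section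

/-- The real frequency of the index `k`. -/
def Dk (p : Par) (k : ℤ × ℤ) : ℤ × ℤ := ((p.N : ℤ) * k.1, k.2)

/-- The conjugated multiplier `1 / |D|`. -/
def Pm (p : Par) (t : ℝ) (m l l' : ℤ) : ℂ := Cj p (fun b => 1 / eu (Dk p (m, b))) m t l l'

/-- The conjugated multiplier `|D| ^ (2 α)`. -/
def Qm (p : Par) (t : ℝ) (m l l' : ℤ) : ℂ :=
  Cj p (fun b => eu (Dk p (m, b)) ^ (2 * p.α)) m t l l'

/-- The commutator part of the conjugated dissipation. -/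
def Rm (p : Par) (t : ℝ) (m l l' : ℤ) : ℂ :=
  Qm p t m l l' - if l = l' then ((eu (Dk p (m, l)) ^ (2 * p.α) : ℝ) : ℂ) else 0

/-- P1: `‖Pm‖ ≤ 2 / M`, `M = N |m|`. Proof: `1 / eu (D (m, b)) = (M ^ 2 + b ^ 2) ^ (-1/2)
= C ∫ r ^ (-1/2) ph √(r + M ^ 2) b dr` (RIM), interchange with the sum over `b` (absolutely
summable), so `Pm = C ∫ r ^ (-1/2) Cj (ph √(r + M ^ 2)) dr`; for a finite set of `l'` use
RES and `C ∫ r ^ (-1/2) / (r + M ^ 2) = 1 / M` (RIM at `X = M ^ 2`). -/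
def Stmt_P1 : Prop :=
  ∀ p : Par, p.Ok → ∀ (m l : ℤ) (t : ℝ), 0 ≤ t → t * p.As ≤ 1 / 2 → m ≠ 0 →
    (Summable fun l' => om p.s (l - l') * ‖Pm p t m l l'‖) ∧
    ∑' l', om p.s (l - l') * ‖Pm p t m l l'‖ ≤ 2 / (p.N * |(m : ℝ)|)

/-- P2: the defect of `Pm` from a Toeplitz matrix (as P1, third clause of RES,
`√(r + M ^ 2) ^ 3 ≥ M (r + M ^ 2)`). -/
def Stmt_P2 : Prop :=
  ∀ p : Par, p.Ok → ∀ (m l c : ℤ) (t : ℝ), 0 ≤ t → t * p.As ≤ 1 / 2 → m ≠ 0 →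
    (Summable fun l' => om p.s (l - l') * ‖Pm p t m l l' - Pm p t m (l - c) (l' - c)‖) ∧
    ∑' l', om p.s (l - l') * ‖Pm p t m l l' - Pm p t m (l - c) (l' - c)‖ ≤
      4 * |(c : ℝ)| / (p.N * |(m : ℝ)|) ^ 2

/-- R1: `‖Rm‖ ≤ C t A_* M ^ (2 α)`. Proof: by EEM `∑ b, e_{-m}(l - b) e_m(b - l') = δ`, so
`Rm (l, l') = ∑ b, e_{-m}(l - b) (φ b - φ l) e_m(b - l')` with `φ b = (M ^ 2 + b ^ 2) ^ α`, and the
same for `ph ν`; RIA with `X = M ^ 2 + b ^ 2`, `Y = M ^ 2 + l ^ 2` and interchange (the integrand is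
bounded by `r ^ α / (r + 1) ^ 2 * |b ^ 2 - l ^ 2|`, the sequences are in `WS`) give
`Rm (l, l') = -C ∫ r ^ α (Cj (ph √(r + M ^ 2)) - δ ph) dr`; second clause of RES and RIB. -/
def Stmt_R1 : Prop :=
  ∀ α : ℝ, 0 < α → α < 1 / 2 → ∃ C : ℝ, 0 < C ∧ ∀ p : Par, p.Ok → p.α = α →
    ∀ (m l : ℤ) (t : ℝ), 0 ≤ t → t * p.As ≤ 1 / 2 → m ≠ 0 →
    (Summable fun l' => om p.s (l - l') * ‖Rm p t m l l'‖) ∧
    ∑' l', om p.s (l - l') * ‖Rm p t m l l'‖ ≤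
      C * (t * p.As) * (p.N * |(m : ℝ)|) ^ (2 * α)

/-- SYP: symmetries of the conjugated multipliers (`b ↦ -b`, `Dk` and `eu` are even), and the
case `m = 0` (`ee p 0 t = dl`). -/
def Stmt_SYP : Prop :=
  ∀ p : Par, p.Ok → (∀ (m a b : ℤ) (t : ℝ), 0 ≤ t → Pm p t (-m) a b = Pm p t m (-b) (-a)) ∧
    (∀ (m a b : ℤ) (t : ℝ), 0 ≤ t →
      (starRingEnd ℂ) (Pm p t m a b) = Pm p t (-m) (-a) (-b) ∧
      (starRingEnd ℂ) (Rm p t m a b) = Rm p t (-m) (-a) (-b)) ∧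
    ∀ (a b : ℤ) (t : ℝ), 0 ≤ t →
      Pm p t 0 a b = (if a = b then ((1 / |(a : ℝ)| : ℝ) : ℂ) else 0) ∧ Rm p t 0 a b = 0

/-- PCN: boundedness and continuity in time of the entries. Proof: `‖ee p (±m) t j‖ ≤ C / om s j`
uniformly for `t ∈ [0, T]` (EEW), the entries of `ee` are continuous (EET), the symbols grow at
most linearly; dominated series. -/
def Stmt_PCN : Prop :=
  ∀ p : Par, p.Ok → ∀ (T : ℝ) (m l : ℤ), 0 ≤ T → ∃ C : ℝ, ∀ l' : ℤ,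
    ContinuousOn (fun t => Pm p t m l l') (Icc 0 T) ∧
    ContinuousOn (fun t => Rm p t m l l') (Icc 0 T) ∧
    ∀ t ∈ Icc 0 T, ‖Pm p t m l l'‖ ≤ C ∧ ‖Rm p t m l l'‖ ≤ C

/-! ## The system -/

/-- The velocity potential of the unknown (times `N`), in transported variables. -/
def Yv (p : Par) (t : ℝ) (x : ℤ × ℤ → ℂ) (k : ℤ × ℤ) : ℂ :=
  (p.N : ℂ) * ∑' l', Pm p t k.1 k.2 l' * x (k.1, l')

/-- The full field. -/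
def xh (p : Par) (t : ℝ) (x : ℤ × ℤ → ℂ) (k : ℤ × ℤ) : ℂ :=
  x k + if k.1 = 0 then Sl p t k.2 else 0

/-- The linear part. -/
def Gl (p : Par) (t : ℝ) (x : ℤ × ℤ → ℂ) (k : ℤ × ℤ) : ℂ :=
  ∑' l', Rm p t k.1 k.2 l' * x (k.1, l')

/-- The bilinear part. -/
def Gb (p : Par) (t : ℝ) (x : ℤ × ℤ → ℂ) (k : ℤ × ℤ) : ℂ :=
  ∑' j : ℤ × ℤ, ((cr j (k - j) : ℤ) : ℂ) * (Yv p t x j * xh p t x (k - j))

/-- The right hand side. -/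
def Gv (p : Par) (t : ℝ) (x : ℤ × ℤ → ℂ) (k : ℤ × ℤ) : ℂ :=
  -((p.κ : ℂ) * Gl p t x k) - Gb p t x k

/-- The dissipation rate. -/
def lam (p : Par) (k : ℤ × ℤ) : ℝ := p.κ * eu (Dk p k) ^ (2 * p.α)

/-- The analytic weight with shrinking width. -/
def Wt (p : Par) (β t : ℝ) (k : ℤ × ℤ) : ℝ :=
  Real.exp (-((p.s - β * t) * n1 k)) / (1 + n1 k) ^ 4

/-- The decay of the fast modes. -/
def Ef (p : Par) (t : ℝ) : ℝ := Real.exp (-(p.κ * (p.N : ℝ) ^ (2 * p.α) * t / 2))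

/-- The weight of the unknown. -/
def wv (p : Par) (β t : ℝ) (k : ℤ × ℤ) : ℝ :=
  (if k.1 = 0 then min 1 ((1 + |(k.2 : ℝ)|) / p.N) else Ef p t) * Wt p β t k

/-- Weighted balls. -/
def Bd (p : Par) (β t R : ℝ) (x : ℤ × ℤ → ℂ) : Prop := ∀ k, ‖x k‖ ≤ R * wv p β t k

/-- WTB: first facts on the weights (`0 ≤ β t ≤ s / 2`). -/
def Stmt_WTB : Prop :=
  ∀ p : Par, p.Ok → ∀ (β t : ℝ), 0 ≤ β → 0 ≤ t → β * t ≤ p.s / 2 →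
    (∀ k, 0 < Wt p β t k ∧ 0 < wv p β t k ∧ wv p β t k ≤ Wt p β t k) ∧
    (∀ k : ℤ × ℤ, k.1 ≠ 0 → wv p β t k = Ef p t * Wt p β t k) ∧
    (0 < Ef p t ∧ Ef p t ≤ 1) ∧
    (∀ k, Wt p β t (-k) = Wt p β t k ∧ wv p β t (-k) = wv p β t k) ∧
    (∀ (m l l' : ℤ), Wt p β t (m, l') ≤ om p.s (l - l') * Wt p β t (m, l) ∧
      (m ≠ 0 → wv p β t (m, l') ≤ om p.s (l - l') * wv p β t (m, l))) ∧
    (∀ k, Wt p β t k ≤ Real.exp (-(p.s / 2 * n1 k)) / (1 + n1 k) ^ 4)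

/-- CNV: convolution bounds on the lattice. Proof: `exp` by `n1 k ≤ n1 j + n1 (k - j)`; the larger
of `1 + n1 j`, `1 + n1 (k - j)` is at least `(1 + n1 k) / 2`, and `∑ (1 + n1 j) ^ (-3) < ∞` on
`ℤ × ℤ`. -/
def Stmt_CNV : Prop :=
  ∃ C : ℝ, 1 ≤ C ∧ ∀ p : Par, p.Ok → ∀ (β t : ℝ) (k : ℤ × ℤ), 0 ≤ β → 0 ≤ t →
    β * t ≤ p.s / 2 →
    ((Summable fun j : ℤ × ℤ => (1 + (n1 j : ℝ)) * (1 + (n1 (k - j) : ℝ)) *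
      (Wt p β t j * Wt p β t (k - j))) ∧
      ∑' j : ℤ × ℤ, (1 + (n1 j : ℝ)) * (1 + (n1 (k - j) : ℝ)) *
        (Wt p β t j * Wt p β t (k - j)) ≤ C * ((1 + n1 k) * Wt p β t k)) ∧
    ((Summable fun j : ℤ × ℤ => Wt p β t j * Wt p β t (k - j)) ∧
      ∑' j : ℤ × ℤ, Wt p β t j * Wt p β t (k - j) ≤ C * Wt p β t k)

/-- YB: bounds of the potential (P1, WTB; for `m = 0` by SYP `Yv` is `N x / |l|`, and
`N min 1 ((1 + |l|) / N) / |l| ≤ 2`). -/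
def Stmt_YB : Prop :=
  ∀ p : Par, p.Ok → ∀ (β t d : ℝ) (x : ℤ × ℤ → ℂ), 0 ≤ β → 0 ≤ t → β * t ≤ p.s / 2 →
    t * p.As ≤ 1 / 2 → 0 ≤ d → Bd p β t d x →
    (∀ k : ℤ × ℤ, Summable fun l' => ‖Pm p t k.1 k.2 l' * x (k.1, l')‖) ∧
    (∀ k : ℤ × ℤ, k.1 ≠ 0 → |(k.1 : ℝ)| * ‖Yv p t x k‖ ≤ 2 * d * wv p β t k) ∧
    (∀ k : ℤ × ℤ, k.1 ≠ 0 → ‖Yv p t x k‖ ≤ 2 * d * (Ef p t * Wt p β t k)) ∧
    ∀ k, ‖Yv p t x k‖ ≤ 2 * d * Wt p β t k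

/-- LIA: the linear part (R1, WTB; for `m = 0` it vanishes by SYP). -/
def Stmt_LIA : Prop :=
  ∀ α : ℝ, 0 < α → α < 1 / 2 → ∃ C : ℝ, 0 < C ∧ ∀ p : Par, p.Ok → p.α = α →
    ∀ (β t d : ℝ) (x : ℤ × ℤ → ℂ), 0 ≤ β → 0 ≤ t → β * t ≤ p.s / 2 →
    t * p.As ≤ 1 / 2 → 0 ≤ d → Bd p β t d x →
    (∀ k : ℤ × ℤ, Summable fun l' => ‖Rm p t k.1 k.2 l' * x (k.1, l')‖) ∧
    (∀ k : ℤ × ℤ, k.1 ≠ 0 →
      ‖Gl p t x k‖ ≤ C * (t * p.As) * (p.N * |(k.1 : ℝ)|) ^ (2 * α) * (d * wv p β t k)) ∧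
    ∀ k : ℤ × ℤ, k.1 = 0 → Gl p t x k = 0

/-- GSM: the bilinear sum with two arguments converges absolutely. -/
def Stmt_GSM : Prop :=
  ∀ p : Par, p.Ok → ∀ (β t R : ℝ) (x y : ℤ × ℤ → ℂ), 0 ≤ β → 0 ≤ t → β * t ≤ p.s / 2 →
    t * p.As ≤ 1 / 2 → 0 ≤ R → Bd p β t R x → Bd p β t R y → ∀ k : ℤ × ℤ,
    (Summable fun j : ℤ × ℤ => ‖((cr j (k - j) : ℤ) : ℂ) * (Yv p t x j * xh p t y (k - j))‖) ∧
    (Summable fun j : ℤ × ℤ => ‖((cr j (k - j) : ℤ) : ℂ) * (Yv p t x j * y (k - j))‖)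

/-- LIB: Lipschitz bound of the bilinear part at `k.1 ≠ 0`. Proof: `Yv` is additive (YB);
`Gb x - Gb x'` is the sum over `j` of `cr (Yv (x - x') j * x (k - j) + Yv x' j * (x - x') (k - j))`
and `cr (Yv (x - x') j) Sl`; for the last `j = (m, a)`, `|cr| = |m| |l - a|` and YB gives
`2 A_*` (WTB); for the others `|cr j (k - j)| ≤ n1 j * n1 (k - j)`, one of `j`, `k - j` has
non-zero first entry, CNV. -/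
def Stmt_LIB : Prop :=
  ∃ C : ℝ, 1 ≤ C ∧ ∀ p : Par, p.Ok → ∀ (β t R d : ℝ) (x x' : ℤ × ℤ → ℂ), 0 ≤ β → 0 ≤ t →
    β * t ≤ p.s / 2 → t * p.As ≤ 1 / 2 → 0 ≤ R → 0 ≤ d → Bd p β t R x → Bd p β t R x' →
    Bd p β t d (fun k => x k - x' k) → ∀ k : ℤ × ℤ, k.1 ≠ 0 →
    ‖Gb p t x k - Gb p t x' k‖ ≤ (2 * p.As + C * R * (1 + n1 k)) * (d * wv p β t k)

/-- LIC: Lipschitz bound of the bilinear part at `k = (0, l)`. Proof: for `j.1 = 0` the cross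
product vanishes; for `j = (m, a)`, `m ≠ 0`, it is `m l` and `xh (k - j) = x (k - j)`.
First bound: `|m| ‖Yv‖ ≤ 2 d wv` (YB) and CNV: `C R |l| Wt`.
Second bound: with `T_m = ∑_{a,b} Pm (a, b) x (m, b) x (-m, l - a)`,
`Gb x (0, l) = N l ∑_m m T_m`; by `Pm (-m) a b = Pm m (-b) (-a)` and the substitution
`a = l - b'`, `b = l - a'`, `T_m - T_{-m} = ∑ (Pm (a, b) - Pm (a - l, b - l)) x (m, b)
x (-m, l - a)`, so `∑_m m T_m = 1/2 ∑_m m (T_m - T_{-m})`; the right side is bilinear, P2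
(`4 |l| / (N m) ^ 2`), WTB, CNV: `C R |l| ^ 2 / N Wt`. -/
def Stmt_LIC : Prop :=
  ∃ C : ℝ, 1 ≤ C ∧ ∀ p : Par, p.Ok → ∀ (β t R d : ℝ) (x x' : ℤ × ℤ → ℂ), 0 ≤ β → 0 ≤ t →
    β * t ≤ p.s / 2 → t * p.As ≤ 1 / 2 → 0 ≤ R → 0 ≤ d → Bd p β t R x → Bd p β t R x' →
    Bd p β t d (fun k => x k - x' k) → ∀ l : ℤ,
    ‖Gb p t x (0, l) - Gb p t x' (0, l)‖ ≤
      C * R * (|(l : ℝ)| * min 1 (|(l : ℝ)| / p.N)) * (d * Wt p β t (0, l))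

/-- CTG: continuity of the right hand side along continuous bounded curves. Proof: PCN, the
entries of `Sl` are continuous, and dominated series: `‖x t (m, l')‖ ≤ R Wt ≤
R exp (-(s / 2) n1) / (1 + n1) ^ 4` uniformly (WTB), YB. -/
def Stmt_CTG : Prop :=
  ∀ p : Par, p.Ok → ∀ (β T R : ℝ) (x : ℝ → ℤ × ℤ → ℂ), 0 ≤ β → 0 ≤ T → β * T ≤ p.s / 2 →
    T * p.As ≤ 1 / 2 → 0 ≤ R → (∀ k, ContinuousOn (fun t => x t k) (Icc 0 T)) →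
    (∀ t ∈ Icc 0 T, Bd p β t R (x t)) →
    ∀ k, ContinuousOn (fun t => Gv p t (x t) k) (Icc 0 T)

/-- SYG: the right hand side respects the symmetry (SYP, reindexing by `-`). -/
def Stmt_SYG : Prop :=
  ∀ p : Par, p.Ok → ∀ (t : ℝ) (x : ℤ × ℤ → ℂ), 0 ≤ t →
    (∀ k, x (-k) = (starRingEnd ℂ) (x k)) →
    (∀ k, Yv p t x (-k) = (starRingEnd ℂ) (Yv p t x k)) ∧
    ∀ k, Gv p t x (-k) = (starRingEnd ℂ) (Gv p t x k)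

/-- TIM: the time integrals. Here `β = C₁ R`, `C` is the constant of LIA, LIB, LIC. Proof:
`Wt r k = exp (-β (t - r) n1 k) Wt t k`; `lam k ≥ κ (N |m|) ^ (2 α) ≥ κ N ^ (2 α)`, so
`exp (-lam (t - r)) Ef r ≤ exp (-(lam / 2) (t - r)) Ef t`; the three terms give at most
`2 C (T A_*)`, `2 (T A_*)`, `2 C / C₁`; for `k = (0, l)`:
`∫ |l| exp (-β (t - r) |l|) dr ≤ 1 / β`, and `min 1 (|l| / N) ≤ min 1 ((1 + |l|) / N)`. -/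
def Stmt_TIM : Prop :=
  ∀ C : ℝ, 1 ≤ C → ∃ c₁ C₁ : ℝ, 0 < c₁ ∧ c₁ ≤ 1 / 2 ∧ 0 < C₁ ∧ ∀ p : Par, p.Ok →
    ∀ (T R : ℝ), 0 < T → 0 < R → T * p.As ≤ c₁ → C₁ * R * T ≤ p.s / 2 → ∀ t ∈ Icc 0 T,
    (∀ k : ℤ × ℤ, k.1 ≠ 0 →
      ∫ r in (0 : ℝ)..t, Real.exp (-(lam p k * (t - r))) *
        ((p.κ * (C * (r * p.As) * (p.N * |(k.1 : ℝ)|) ^ (2 * p.α)) +
          (2 * p.As + C * R * (1 + n1 k))) * wv p (C₁ * R) r k) ≤ wv p (C₁ * R) t k / 2) ∧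
    ∀ l : ℤ,
      ∫ r in (0 : ℝ)..t, Real.exp (-(lam p (0, l) * (t - r))) *
        (C * R * (|(l : ℝ)| * min 1 (|(l : ℝ)| / p.N)) * Wt p (C₁ * R) r (0, l)) ≤
          wv p (C₁ * R) t (0, l) / 2

/-- PIC: Picard iteration in a weighted ball. Proof: `x⁰ = 0`,
`xⁿ⁺¹ t k = exp (-lam k t) a k + ∫₀ᵗ exp (-lam k (t - r)) G r (xⁿ r) k dr`; by induction
`‖xⁿ⁺¹ - xⁿ‖ ≤ 2 ^ (-n) R w` (start: `‖x¹‖ ≤ R / 2 w`), `‖xⁿ‖ ≤ R w`, symmetric, continuous;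
uniform limit in `t` for each `k`; the limit satisfies the integral equation (Lipschitz), so the
differential equation. -/
def Stmt_PIC : Prop :=
  ∀ (T R : ℝ) (lm : ℤ × ℤ → ℝ) (w ρ : ℤ × ℤ → ℝ → ℝ) (G : ℝ → (ℤ × ℤ → ℂ) → ℤ × ℤ → ℂ)
    (a : ℤ × ℤ → ℂ), 0 < T → 0 < R →
    (∀ k, ContinuousOn (w k) (Icc 0 T)) → (∀ k, ∀ t ∈ Icc 0 T, 0 < w k t) →
    (∀ k, ContinuousOn (ρ k) (Icc 0 T)) →
    (∀ x : ℝ → ℤ × ℤ → ℂ, (∀ k, ContinuousOn (fun t => x t k) (Icc 0 T)) →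
      (∀ t ∈ Icc 0 T, ∀ k, ‖x t k‖ ≤ R * w k t) →
      ∀ k, ContinuousOn (fun t => G t (x t) k) (Icc 0 T)) →
    (∀ t ∈ Icc 0 T, ∀ (x x' : ℤ × ℤ → ℂ) (d : ℝ), 0 ≤ d → (∀ k, ‖x k‖ ≤ R * w k t) →
      (∀ k, ‖x' k‖ ≤ R * w k t) → (∀ k, ‖x k - x' k‖ ≤ d * w k t) →
      ∀ k, ‖G t x k - G t x' k‖ ≤ d * ρ k t) →
    (∀ t ∈ Icc 0 T, ∀ k, ∫ r in (0 : ℝ)..t, Real.exp (-(lm k * (t - r))) * ρ k r ≤ w k t / 2) →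
    (∀ t ∈ Icc 0 T, ∀ k, G t (fun _ => 0) k = 0) →
    (∀ k, ‖a k‖ ≤ R / 2 * w k 0) →
    (∀ t ∈ Icc 0 T, ∀ k, Real.exp (-(lm k * t)) * w k 0 ≤ w k t) →
    (∀ k, lm (-k) = lm k) →
    (∀ t ∈ Icc 0 T, ∀ x : ℤ × ℤ → ℂ, (∀ k, ‖x k‖ ≤ R * w k t) →
      (∀ k, x (-k) = (starRingEnd ℂ) (x k)) → ∀ k, G t x (-k) = (starRingEnd ℂ) (G t x k)) →
    (∀ k, a (-k) = (starRingEnd ℂ) (a k)) →
    ∃ x : ℝ → ℤ × ℤ → ℂ, (∀ k, x 0 k = a k) ∧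
      (∀ t ∈ Icc 0 T, ∀ k, ‖x t k‖ ≤ R * w k t) ∧
      (∀ t ∈ Icc 0 T, ∀ k, x t (-k) = (starRingEnd ℂ) (x t k)) ∧
      ∀ k, ∀ t ∈ Icc 0 T, HasDerivWithinAt (fun t => x t k)
        (-((lm k : ℝ) : ℂ) * x t k + G t (x t) k) (Icc 0 T) t

/-- SOL: existence for the transported system (from LIA, LIB, LIC, CTG, SYG, TIM, PIC, WTB). -/
def Stmt_SOL : Prop :=
  ∀ α : ℝ, 0 < α → α < 1 / 2 → ∃ c₁ C₁ : ℝ, 0 < c₁ ∧ c₁ ≤ 1 / 2 ∧ 0 < C₁ ∧ ∀ p : Par, p.Ok →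
    p.α = α → ∀ (T R : ℝ) (g : ℤ × ℤ → ℂ), 0 < T → 0 < R → T * p.As ≤ c₁ →
    C₁ * R * T ≤ p.s / 2 → (∀ k, g (-k) = (starRingEnd ℂ) (g k)) →
    (∀ k : ℤ × ℤ, k.1 ≠ 0 → ‖g k‖ ≤ R / 2 * (Real.exp (-(p.s * n1 k)) / (1 + n1 k) ^ 4)) →
    ∃ x : ℝ → ℤ × ℤ → ℂ, (∀ k, x 0 k = if k.1 = 0 then 0 else g k) ∧
      (∀ t ∈ Icc 0 T, Bd p (C₁ * R) t R (x t)) ∧
      (∀ t ∈ Icc 0 T, ∀ k, x t (-k) = (starRingEnd ℂ) (x t k)) ∧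
      ∀ k, ∀ t ∈ Icc 0 T, HasDerivWithinAt (fun t => x t k)
        (-((lam p k : ℝ) : ℂ) * x t k + Gv p t (x t) k) (Icc 0 T) t

end

end Pool.SQGA
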