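import Pool.Agent.Work.MP_a2fcf1_an_ar.I2

/-! # Supercritical SQG: analytic data, fast in one direction. Part 3

Back to the Fourier coefficients, and the long time part. -/

set_option autoImplicit false

namespace Pool.SQGA

open Set MeasureTheory
open Pool.Agent.Work.MP_a2fcf1_an_h64 (cr sc eu n1 ex GloballyRegular)
open Pool.SQGF (nq NB Sym Fr Adm Sw wt Y TT GS BB RD)

noncomputable section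

/-! ## Back to the Fourier coefficients -/

/-- The Fourier coefficients of the solution (index `k`, real frequency `Dk p k`). -/
def av (p : Par) (t : ℝ) (x : ℤ × ℤ → ℂ) (k : ℤ × ℤ) : ℂ :=
  ∑' l', ee p k.1 t (k.2 - l') * xh p t x (k.1, l')

/-- The same without the heat flow of the shear. -/
def ax (p : Par) (t : ℝ) (x : ℤ × ℤ → ℂ) (k : ℤ × ℤ) : ℂ :=
  ∑' l', ee p k.1 t (k.2 - l') * x (k.1, l')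

/-- DEC: decay of the coefficients. Proof: for `f` with all moments, `l (e_m * f) l =
(e_m * Df) l` with `Df l = l f l - m N (V' * f) l` (EED), so `l ^ q (e_m * f) l = (e_m * D^q f) l`
is at most `‖D^q f‖₁` (EEB), and with `‖f‖_(q) = ∑ (1 + |l|) ^ q ‖f l‖`,
`‖Df‖_(q) ≤ (1 + N |m| ‖V'‖_(q)) ‖f‖_(q+1)`, `‖V'‖_(q) ≤ C t A_*` (VR, OMS). Apply it to
`f l = x (m, l)`, `‖f l‖ ≤ R Ef exp (-(s / 2) (|m| + |l|))` (WTB). -/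
def Stmt_DEC : Prop :=
  ∀ (s : ℝ) (q : ℕ), 0 < s → ∃ C : ℝ, 0 < C ∧ ∀ p : Par, p.Ok → p.s = s →
    ∀ (β t R : ℝ) (x : ℤ × ℤ → ℂ), 0 ≤ β → 0 ≤ t → β * t ≤ p.s / 2 → t * p.As ≤ 1 / 2 →
    0 ≤ R → Bd p β t R x →
    (∀ k : ℤ × ℤ, k.1 ≠ 0 → ‖av p t x k‖ * (1 + |(k.2 : ℝ)|) ^ q ≤
      C * (1 + p.N * |(k.1 : ℝ)|) ^ q * (R * Ef p t * Real.exp (-(s / 2 * |(k.1 : ℝ)|)))) ∧
    (∀ k : ℤ × ℤ, k.1 = 0 → av p t x k = Sl p t k.2 + x k) ∧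
    (∀ k : ℤ × ℤ, k.1 ≠ 0 → ax p t x k = av p t x k) ∧
    (∀ k : ℤ × ℤ, k.1 = 0 → ax p t x k = x k)

/-- RDA: rapid decay of all coefficients, uniformly in time (DEC, WTB, VR, OMS). -/
def Stmt_RDA : Prop :=
  ∀ p : Par, p.Ok → ∀ (β T R : ℝ) (q : ℕ), 0 ≤ β → 0 ≤ T → β * T ≤ p.s / 2 →
    T * p.As ≤ 1 / 2 → 0 ≤ R → ∃ C : ℝ, ∀ t ∈ Icc 0 T, ∀ x : ℤ × ℤ → ℂ, Bd p β t R x →
    ∀ k : ℤ × ℤ, ‖av p t x k‖ * (1 + n1 k) ^ q ≤ C ∧ ‖ax p t x k‖ * (1 + n1 k) ^ q ≤ C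

/-- MLT: conjugation inverted: `e_m * (Cj φ f) = φ (e_m * f)`. Proof: interchange gives
`Cj φ f = e_{-m} * (φ (e_m * f))` (all sequences have a finite first moment, EEW, OMS), then
`e_m * e_{-m} = dl` (EEM, EEB, CVA). -/
def Stmt_MLT : Prop :=
  ∀ p : Par, p.Ok → ∀ (m : ℤ) (t : ℝ) (φ : ℤ → ℝ) (f : ℤ → ℂ), 0 ≤ t →
    (∃ C : ℝ, ∀ b : ℤ, |φ b| ≤ C * (1 + |(b : ℝ)|)) →
    (Summable fun l : ℤ => (1 + |(l : ℝ)|) * ‖f l‖) →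
    (∀ l, Summable fun l' => ‖Cj p φ m t l l' * f l'‖) ∧
    S1 (fun l => ∑' l', Cj p φ m t l l' * f l') ∧
    ∀ l, cv (ee p m t) (fun l => ∑' l', Cj p φ m t l l' * f l') l =
      ((φ l : ℝ) : ℂ) * cv (ee p m t) f l

/-- BRK: invariance of the bracket. Proof: with `D f l = l f l` (a derivation for `cv`),
`D e_m = -m N V' * e_m` (EED) and `e_{m₁ + m₂} = e_{m₁} * e_{m₂}` (EEM): both sides are
`m₁ (e₁ Y) (e₂ DX) - m₂ (e₁ DY) (e₂ X)`, the two terms with `V'` cancel (CVA, or work with the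
functions `fn` and `ring`). -/
def Stmt_BRK : Prop :=
  ∀ p : Par, p.Ok → ∀ (m₁ m₂ : ℤ) (t : ℝ) (Y X : ℤ → ℂ), 0 ≤ t →
    (Summable fun l : ℤ => (1 + |(l : ℝ)|) * ‖Y l‖) →
    (Summable fun l : ℤ => (1 + |(l : ℝ)|) * ‖X l‖) → ∀ l : ℤ,
    cv (ee p (m₁ + m₂) t)
      (fun l' => ∑' a : ℤ, (((m₁ * (l' - a) - a * m₂ : ℤ)) : ℂ) * (Y a * X (l' - a))) l =
    ∑' a : ℤ, (((m₁ * (l - a) - a * m₂ : ℤ)) : ℂ) *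
      (cv (ee p m₁ t) Y a * cv (ee p m₂ t) X (l - a))

/-- ALI: the linear part. Proof: for `k.1 = m ≠ 0`, `lam x + κ Gl = κ ∑ Qm x` (YB, LIA give the
summability), MLT; for `m = 0` `Gl = 0` and `ee p 0 t = dl`. -/
def Stmt_ALI : Prop :=
  ∀ p : Par, p.Ok → ∀ (β t R : ℝ) (x : ℤ × ℤ → ℂ), 0 ≤ β → 0 ≤ t → β * t ≤ p.s / 2 →
    t * p.As ≤ 1 / 2 → 0 ≤ R → Bd p β t R x → ∀ k : ℤ × ℤ,
    (Summable fun l' => ‖ee p k.1 t (k.2 - l') * (((lam p (k.1, l') : ℝ) : ℂ) *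
      xh p t x (k.1, l') + (p.κ : ℂ) * Gl p t x (k.1, l'))‖) ∧
    ∑' l', ee p k.1 t (k.2 - l') * (((lam p (k.1, l') : ℝ) : ℂ) * xh p t x (k.1, l') +
      (p.κ : ℂ) * Gl p t x (k.1, l')) = ((lam p k : ℝ) : ℂ) * av p t x k

/-- ABI: the bilinear part. Proof: `Gb (m, l') = ∑_{m₁} ∑_a (m₁ (l' - a) - a (m - m₁))
Yv (m₁, a) xh (m - m₁, l' - a)`; `∑_{l'} ∑_{m₁, a}` converges absolutely (`‖ee‖ ≤ 1`, YB, WTB,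
VR), so `∑_{l'} ee ... = ∑_{m₁} (...)`, and for each `m₁` BRK; `cv (ee m₁) (Yv (m₁, ·)) a =
N / eu (Dk (m₁, a)) * ax (m₁, a)` (MLT with `φ = 1 / eu`); the final double sum converges
absolutely by RDA. -/
def Stmt_ABI : Prop :=
  ∀ p : Par, p.Ok → ∀ (β t R : ℝ) (x : ℤ × ℤ → ℂ), 0 ≤ β → 0 ≤ t → β * t ≤ p.s / 2 →
    t * p.As ≤ 1 / 2 → 0 ≤ R → Bd p β t R x → ∀ k : ℤ × ℤ,
    (Summable fun l' => ‖ee p k.1 t (k.2 - l') * Gb p t x (k.1, l')‖) ∧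
    ∑' l', ee p k.1 t (k.2 - l') * Gb p t x (k.1, l') =
      ∑' j : ℤ × ℤ, ((cr j (k - j) : ℤ) : ℂ) *
        ((((p.N / eu (Dk p j) : ℝ)) : ℂ) * ax p t x j * av p t x (k - j))

/-- ADA: the identity at a fixed time (ALI, ABI, CVA: `cv (cv Ul ee) xh = cv Ul av`; the sum over
`j = (0, a)` of `cr j (k - j) N / |a| Sl a av (k - j)` is `-(m N) ∑ sign a Sl a av (m, l - a)`,
which is the term with `Ul`). -/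
def Stmt_ADA : Prop :=
  ∀ p : Par, p.Ok → ∀ (β t R : ℝ) (x : ℤ × ℤ → ℂ), 0 ≤ β → 0 ≤ t → β * t ≤ p.s / 2 →
    t * p.As ≤ 1 / 2 → 0 ≤ R → Bd p β t R x → ∀ k : ℤ × ℤ,
    ∑' l' : ℤ, (-(Complex.I * ((k.1 : ℂ) * (p.N : ℂ))) * cv (Ul p t) (ee p k.1 t) (k.2 - l') *
        xh p t x (k.1, l') +
      ee p k.1 t (k.2 - l') * (-((lam p (k.1, l') : ℝ) : ℂ) * xh p t x (k.1, l') +
        Gv p t x (k.1, l'))) =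
    -((lam p k : ℝ) : ℂ) * av p t x k - (p.N : ℂ) * ∑' j : ℤ × ℤ,
      (((cr j (k - j) : ℝ) / eu (Dk p j) : ℝ) : ℂ) * (av p t x j * av p t x (k - j))

/-- TSD: termwise derivative on `[0, T]`. Proof: `F i t = F i 0 + ∫₀ᵗ F' i`, sum the integrals
(dominated), the sum of the derivatives is continuous, fundamental theorem within `[0, T]`. -/
def Stmt_TSD : Prop :=
  ∀ (T : ℝ) (F F' : ℤ → ℝ → ℂ) (u : ℤ → ℝ), 0 < T →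
    (∀ i, ∀ t ∈ Icc 0 T, HasDerivWithinAt (F i) (F' i t) (Icc 0 T) t) →
    (∀ i, ContinuousOn (F' i) (Icc 0 T)) → Summable u → (∀ i, ∀ t ∈ Icc 0 T, ‖F' i t‖ ≤ u i) →
    (Summable fun i => ‖F i 0‖) →
    ∀ t ∈ Icc 0 T, HasDerivWithinAt (fun t => ∑' i, F i t) (∑' i, F' i t) (Icc 0 T) t

/-- GVB: a bound of the right hand side which is summable in the second variable (LIA, LIB, LIC
with `x' = 0`, WTB). -/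
def Stmt_GVB : Prop :=
  ∀ p : Par, p.Ok → ∀ (β T R : ℝ), 0 ≤ β → 0 ≤ T → β * T ≤ p.s / 2 → T * p.As ≤ 1 / 2 →
    0 ≤ R → ∃ u : ℤ × ℤ → ℝ, (∀ m : ℤ, Summable fun l : ℤ => u (m, l)) ∧
      ∀ t ∈ Icc 0 T, ∀ x : ℤ × ℤ → ℂ, Bd p β t R x → ∀ k, ‖Gv p t x k‖ ≤ u k

/-- AOD: the equation of the Fourier coefficients (TSD with the index `l'`; `xh` satisfies
`xh' = -lam xh + Gv`, VR for the heat flow; EET, CTG, GVB; then ADA). -/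
def Stmt_AOD : Prop :=
  ∀ p : Par, p.Ok → ∀ (β T R : ℝ) (x : ℝ → ℤ × ℤ → ℂ), 0 ≤ β → 0 < T → β * T ≤ p.s / 2 →
    T * p.As ≤ 1 / 2 → 0 ≤ R → (∀ t ∈ Icc 0 T, Bd p β t R (x t)) →
    (∀ k, ∀ t ∈ Icc 0 T, HasDerivWithinAt (fun t => x t k)
      (-((lam p k : ℝ) : ℂ) * x t k + Gv p t (x t) k) (Icc 0 T) t) →
    ∀ k, ∀ t ∈ Icc 0 T, HasDerivWithinAt (fun t => av p t (x t) k)
      (-((lam p k : ℝ) : ℂ) * av p t (x t) k - (p.N : ℂ) * ∑' j : ℤ × ℤ,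
        (((cr j (k - j) : ℝ) / eu (Dk p j) : ℝ) : ℂ) *
          (av p t (x t) j * av p t (x t) (k - j))) (Icc 0 T) t

/-- SYA: symmetry and initial value of the coefficients. -/
def Stmt_SYA : Prop :=
  ∀ p : Par, p.Ok → (∀ (t : ℝ) (x : ℤ × ℤ → ℂ), 0 ≤ t →
      (∀ k, x (-k) = (starRingEnd ℂ) (x k)) →
      ∀ k, av p t x (-k) = (starRingEnd ℂ) (av p t x k)) ∧
    ∀ (x : ℤ × ℤ → ℂ) (k : ℤ × ℤ), av p 0 x k = x k + if k.1 = 0 then p.A k.2 else 0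

/-! ## The lattice -/

/-- The coefficients at the real frequencies. -/
def up (N : ℕ) (a : ℤ × ℤ → ℂ) (k : ℤ × ℤ) : ℂ :=
  if (N : ℤ) ∣ k.1 then a (k.1 / N, k.2) else 0

/-- UPB: first facts (support on the frequencies `(N m, l)`). -/
def Stmt_UPB : Prop :=
  ∀ (N : ℕ) (a : ℤ × ℤ → ℂ), 1 ≤ N →
    (∀ k : ℤ × ℤ, up N a ((N : ℤ) * k.1, k.2) = a k) ∧
    ((∀ k, a (-k) = (starRingEnd ℂ) (a k)) ↔ ∀ k, up N a (-k) = (starRingEnd ℂ) (up N a k)) ∧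
    (∀ (q : ℕ) (C : ℝ), (∀ k, ‖a k‖ * (1 + n1 k) ^ q ≤ C) →
      ∀ k, ‖up N a k‖ * (1 + n1 k) ^ q ≤ C * (N : ℝ) ^ q) ∧
    (∀ x : ℝ × ℝ, ∑' k, up N a k * ex k x = ∑' k : ℤ × ℤ, a k * ex ((N : ℤ) * k.1, k.2) x) ∧
    ((Summable fun k => ‖a k‖) → Summable fun k => ‖up N a k‖)

/-- UPC: the convolution at the real frequencies. Proof: support; `cr` scales by `N`;
symmetrise `j ↦ k - j` (as `symmetrise` in `MP_a2fcf1_an_h64/PDE.lean`). -/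
def Stmt_UPC : Prop :=
  ∀ (N : ℕ) (a : ℤ × ℤ → ℂ), 1 ≤ N → (∀ q : ℕ, ∃ C : ℝ, ∀ k, ‖a k‖ * (1 + n1 k) ^ q ≤ C) →
    ∀ k : ℤ × ℤ, ∑' j, ((sc j (k - j) : ℝ) : ℂ) * (up N a j * up N a (k - j)) =
      if (N : ℤ) ∣ k.1 then (N : ℂ) * ∑' j : ℤ × ℤ,
        (((cr j ((k.1 / N, k.2) - j) : ℝ) / eu ((N : ℤ) * j.1, j.2) : ℝ) : ℂ) *
          (a j * a ((k.1 / N, k.2) - j))
      else 0

/-- SML: the fast part at the time `T`: with `1 + n1 (N m, l) ≤ (1 + N |m|) (1 + |l|)` and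
`1 + N |m| ≤ 2 N |m|`. -/
def Stmt_SML : Prop :=
  ∀ (s D : ℝ), 0 < s → 0 < D → ∃ C : ℝ, 0 < C ∧ ∀ (N : ℕ) (E : ℝ) (a : ℤ × ℤ → ℂ), 1 ≤ N →
    0 ≤ E → (∀ k : ℤ × ℤ, k.1 ≠ 0 → ‖a k‖ * (1 + |(k.2 : ℝ)|) ^ 5 ≤
      D * (1 + N * |(k.1 : ℝ)|) ^ 5 * (E * Real.exp (-(s / 2 * |(k.1 : ℝ)|)))) →
    (Summable fun k : ℤ × ℤ => if k.1 = 0 then 0 else (1 + (n1 k : ℝ)) ^ 6 * ‖up N a k‖ ^ 2) ∧
    ∑' k : ℤ × ℤ, (if k.1 = 0 then 0 else (1 + (n1 k : ℝ)) ^ 6 * ‖up N a k‖ ^ 2) ≤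
      C * (N : ℝ) ^ 16 * E ^ 2

/-! ## Long times -/

/-- The weight of the energies. -/
def ww (q : ℕ) (k : ℤ × ℤ) : ℝ := 1 + wt 1 (q : ℝ) k

/-- LNI: the two symbol inequalities for shear frequencies `j = (0, j.2)`. Proof:
`|cr j k| = |cr j (k - j)| ≤ eu j * min (eu k) (eu (k - j))`; if `eu j` is at least half of the
larger of `eu k`, `eu (k - j)` everything is at most `C (1 + |j|) ^ (2 q + 1)` and `ww ≥ 1`;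
otherwise the two lengths are comparable and `|ww k - ww (k - j)| ≤ C |j| eu k ^ (2 q - 1)`
(one length equal to one: everything bounded). Second: `eu k ≤ eu (k - j) (1 + |j|)`,
`eu k ^ (2 q) ≤ ww k ≤ 2 eu k ^ (2 q)`. -/
def Stmt_LNI : Prop :=
  ∀ q : ℕ, 1 ≤ q → ∃ C : ℝ, 0 < C ∧ ∀ j k : ℤ × ℤ, j.1 = 0 → j ≠ 0 → k ≠ 0 → k - j ≠ 0 →
    |ww q k - ww q (k - j)| * |(cr j k : ℝ)| / eu j ≤
      C * (1 + |(j.2 : ℝ)|) ^ (2 * q + 1) * √(ww q k * ww q (k - j)) ∧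
    ww q k * |(cr j k : ℝ)| / eu (k - j) ≤
      C * (1 + |(j.2 : ℝ)|) ^ (2 * q + 1) * √(ww q k * ww q (k - j))

/-- LNT: the linear transfer by a shear. Proof: `2 sc j (k - j) = cr j k (1 / eu j - 1 / eu (k - j))`.
Part with `1 / eu j`: `T = ∑ ww k cr j k / eu j conj (z k) S j z (k - j)`; the substitution
`k ↦ k - j`, `j ↦ -j` and conjugation give `2 Re T = ∑ (ww k - ww (k - j)) ...`. Both parts: LNI,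
`√(ww k ww (k - j)) ‖z k‖ ‖z (k - j)‖ ≤` half of the sum of the squares. `cr j k = -j.2 k.1`
vanishes for `k.1 = 0`, and `(k - j).1 = k.1`. -/
def Stmt_LNT : Prop :=
  ∀ q : ℕ, 1 ≤ q → ∃ C : ℝ, 0 < C ∧ ∀ (B : Finset (ℤ × ℤ)) (S z : ℤ × ℤ → ℂ), Sym B →
    (∀ k ∈ B, k ≠ 0) → Adm B S → Adm B z → (∀ k : ℤ × ℤ, k.1 ≠ 0 → S k = 0) →
    |∑ k ∈ B, ww q k * ((starRingEnd ℂ) (z k) *
        ∑ j ∈ B, ((2 * sc j (k - j) : ℝ) : ℂ) * (S j * z (k - j))).re| ≤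
      C * (∑ j ∈ B, (1 + |(j.2 : ℝ)|) ^ (2 * q + 1) * ‖S j‖) *
        ∑ k ∈ B, if k.1 = 0 then 0 else ww q k * ‖z k‖ ^ 2

/-- The heat flow of the shear part of the initial value. -/
def hS (κ α : ℝ) (x : ℤ × ℤ → ℝ → ℂ) (k : ℤ × ℤ) (t : ℝ) : ℂ :=
  if k.1 = 0 then ((Real.exp (-(κ * eu k ^ (2 * α) * t)) : ℝ) : ℂ) * x k 0 else 0

/-- The difference. -/
def hz (κ α : ℝ) (x : ℤ × ℤ → ℝ → ℂ) (k : ℤ × ℤ) (t : ℝ) : ℂ := x k t - hS κ α x k t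

/-- The energies of the difference. -/
def FF (κ α : ℝ) (B : Finset (ℤ × ℤ)) (x : ℤ × ℤ → ℝ → ℂ) (q : ℕ) (t : ℝ) : ℝ :=
  ∑ k ∈ B, ww q k * ‖hz κ α x k t‖ ^ 2

/-- ZEQ: the energy identity of the difference. Proof: `NB B S = 0` (parallel frequencies),
`NB B (S + z) k = NB B z k + ∑ 2 sc j (k - j) S j z (k - j)` (`sc_comm`, substitution
`j ↦ k - j` on `{j ∈ B | k - j ∈ B}`). -/
def Stmt_ZEQ : Prop :=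
  ∀ (B : Finset (ℤ × ℤ)) (κ α T : ℝ) (x : ℤ × ℤ → ℝ → ℂ), Sym B → (∀ k ∈ B, k ≠ 0) →
    0 ≤ T → GS B κ α T x → ∀ t ∈ Icc 0 T,
    Adm B (fun k => hS κ α x k t) ∧ Adm B (fun k => hz κ α x k t) ∧
    ∀ w : ℤ × ℤ → ℝ, HasDerivWithinAt (fun t => ∑ k ∈ B, w k * ‖hz κ α x k t‖ ^ 2)
      (-(2 * κ * ∑ k ∈ B, w k * eu k ^ (2 * α) * ‖hz κ α x k t‖ ^ 2) -
        2 * Sw B w (fun k => hz κ α x k t) -
        2 * ∑ k ∈ B, w k * ((starRingEnd ℂ) (hz κ α x k t) *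
          ∑ j ∈ B, ((2 * sc j (k - j) : ℝ) : ℂ) *
            (hS κ α x j t * hz κ α x (k - j) t)).re) (Icc 0 T) t

/-- SWB: the transfer of the difference (`Pool.SQGF.Stmt_CON`, `Stmt_SBB` with `M = 1`,
`A = √(FF 3)`, `TT ≤ FF 3`, `Y 3 ≤ FF 3`, `Y q ≤ FF q`). -/
def Stmt_SWB : Prop :=
  ∀ (q : ℕ) (B : Finset (ℤ × ℤ)) (z : ℤ × ℤ → ℂ), 1 ≤ q → Sym B → (∀ k ∈ B, k ≠ 0) →
    Adm B z → |Sw B (ww q) z| ≤ 7 * ((q : ℝ) + 1) * 2 ^ q *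
      (√(∑ k ∈ B, ww 3 k * ‖z k‖ ^ 2) * ∑ k ∈ B, ww q k * ‖z k‖ ^ 2)

/-- BO3: the third energy decays. Proof: `FF 3` satisfies `F' ≤ -κ F - κ N ^ (2 α) F≠ +
2 C_L c N ^ (2 α) F≠ + 448 √F F` (LNT, SWB, `‖hS‖ ≤ ‖x 0‖`, `eu k ≥ 1`, `eu k ≥ N` for
`k.1 ≠ 0`), so `F' ≤ -(κ / 2) F` while `√F ≤ κ / 896`; continuity. `FF 3 0 ≤ 2 ∑ (1 + n1) ^ 6 ‖x 0‖²`
over `k.1 ≠ 0`. -/
def Stmt_BO3 : Prop :=
  ∀ κ α : ℝ, 0 < κ → 0 < α → α < 1 / 2 → ∃ c : ℝ, 0 < c ∧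
    ∀ (N : ℕ) (B : Finset (ℤ × ℤ)) (T : ℝ) (x : ℤ × ℤ → ℝ → ℂ), 1 ≤ N → Sym B →
    (∀ k ∈ B, k ≠ 0 ∧ (k.1 ≠ 0 → (N : ℤ) ≤ |k.1|)) → 0 ≤ T → GS B κ α T x →
    (∑ k ∈ B, if k.1 = 0 then (1 + |(k.2 : ℝ)|) ^ 7 * ‖x k 0‖ else 0) ≤ c * (N : ℝ) ^ (2 * α) →
    (∑ k ∈ B, if k.1 = 0 then 0 else (1 + (n1 k : ℝ)) ^ 6 * ‖x k 0‖ ^ 2) ≤ c →
    FF κ α B x 3 0 ≤ 1 ∧
    ∀ t ∈ Icc 0 T, FF κ α B x 3 t ≤ Real.exp (-(κ / 2 * t)) * FF κ α B x 3 0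

/-- GRQ: all energies stay bounded. Proof: `F_q' ≤ (2 C_q M_q exp (-κ t) + 14 (q + 1) 2 ^ q √F_3)
F_q`, `‖hS‖ ≤ exp (-κ t) ‖x 0‖`, `√F_3 ≤ exp (-κ t / 4) √F_3 0`, Gronwall. -/
def Stmt_GRQ : Prop :=
  ∀ q : ℕ, 1 ≤ q → ∃ C : ℝ, 0 < C ∧ ∀ (κ α : ℝ) (B : Finset (ℤ × ℤ)) (T : ℝ)
    (x : ℤ × ℤ → ℝ → ℂ), 0 < κ → 0 < α → α < 1 / 2 → Sym B → (∀ k ∈ B, k ≠ 0) → 0 ≤ T →
    GS B κ α T x →
    (∀ t ∈ Icc 0 T, FF κ α B x 3 t ≤ Real.exp (-(κ / 2 * t)) * FF κ α B x 3 0) →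
    ∀ t ∈ Icc 0 T, FF κ α B x q t ≤ FF κ α B x q 0 * Real.exp (C / κ *
      ((∑ k ∈ B, if k.1 = 0 then (1 + |(k.2 : ℝ)|) ^ (2 * q + 1) * ‖x k 0‖ else 0) +
        √(FF κ α B x 3 0)))

/-- STB: global solution from data whose fast part is tiny. Proof: Galerkin solutions
(`Pool.SQGF.Stmt_GAL`) on `BB Γ n`, `Γ = {k | N ∣ k.1}`; BO3, GRQ; pointwise decay of `hz` from
`Pool.SQGF.Stmt_PTW` with `M = 1`, of `hS` from the data; `Pool.SQGF.Stmt_LIM`. -/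
def Stmt_STB : Prop :=
  ∀ κ α : ℝ, 0 < κ → 0 < α → α < 1 / 2 → ∃ c : ℝ, 0 < c ∧
    ∀ (N : ℕ) (b : ℤ × ℤ → ℂ), 1 ≤ N → (∀ k : ℤ × ℤ, b k ≠ 0 → (N : ℤ) ∣ k.1) →
    (∀ k, b (-k) = (starRingEnd ℂ) (b k)) →
    (∀ q : ℕ, ∃ C : ℝ, ∀ k, ‖b k‖ * (1 + n1 k) ^ q ≤ C) →
    ∑' l : ℤ, (1 + |(l : ℝ)|) ^ 7 * ‖b (0, l)‖ ≤ c * (N : ℝ) ^ (2 * α) →
    ∑' k : ℤ × ℤ, (if k.1 = 0 then 0 else (1 + (n1 k : ℝ)) ^ 6 * ‖b k‖ ^ 2) ≤ c →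
    ∃ a : ℤ × ℤ → ℝ → ℂ, RD a ∧ (∀ k, a k 0 = b k) ∧
      (∀ (k : ℤ × ℤ) (t : ℝ), 0 ≤ t → a (-k) t = (starRingEnd ℂ) (a k t)) ∧
      ∀ (k : ℤ × ℤ) (t : ℝ), 0 ≤ t → HasDerivWithinAt (a k)
        (-(((κ * eu k ^ (2 * α) : ℝ) : ℂ) * a k t) -
          ∑' j, ((sc j (k - j) : ℝ) : ℂ) * (a j t * a (k - j) t)) (Ici 0) t

/-- GLU: gluing at the time `T`. -/
def Stmt_GLU : Prop :=
  ∀ (κ α T : ℝ) (b a : ℤ × ℤ → ℝ → ℂ), 0 < T →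
    (∀ q : ℕ, ∃ C : ℝ, ∀ (k : ℤ × ℤ), ∀ t ∈ Icc 0 T, ‖b k t‖ * (1 + n1 k) ^ q ≤ C) →
    (∀ (k : ℤ × ℤ), ∀ t ∈ Icc 0 T, b (-k) t = (starRingEnd ℂ) (b k t)) →
    (∀ (k : ℤ × ℤ), ∀ t ∈ Icc 0 T, HasDerivWithinAt (b k)
        (-(((κ * eu k ^ (2 * α) : ℝ) : ℂ) * b k t) -
          ∑' j, ((sc j (k - j) : ℝ) : ℂ) * (b j t * b (k - j) t)) (Icc 0 T) t) →
    RD a → (∀ k, a k 0 = b k T) →
    (∀ (k : ℤ × ℤ) (t : ℝ), 0 ≤ t → a (-k) t = (starRingEnd ℂ) (a k t)) →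
    (∀ (k : ℤ × ℤ) (t : ℝ), 0 ≤ t → HasDerivWithinAt (a k)
        (-(((κ * eu k ^ (2 * α) : ℝ) : ℂ) * a k t) -
          ∑' j, ((sc j (k - j) : ℝ) : ℂ) * (a j t * a (k - j) t)) (Ici 0) t) →
    ∃ d : ℤ × ℤ → ℝ → ℂ, RD d ∧ (∀ k, d k 0 = b k 0) ∧
      (∀ (k : ℤ × ℤ) (t : ℝ), 0 ≤ t → d (-k) t = (starRingEnd ℂ) (d k t)) ∧
      ∀ (k : ℤ × ℤ) (t : ℝ), 0 ≤ t → HasDerivWithinAt (d k)
        (-(((κ * eu k ^ (2 * α) : ℝ) : ℂ) * d k t) -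
          ∑' j, ((sc j (k - j) : ℝ) : ℂ) * (d j t * d (k - j) t)) (Ici 0) t

end

end Pool.SQGA
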