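import Pool.Agent.Work.MP_a2fcf1_an_ar.I3

/-! # Supercritical SQG: analytic data, fast in one direction. Part 4: assembly -/

set_option autoImplicit false

namespace Pool.SQGA

open Set MeasureTheory
open Pool.Agent.Work.MP_a2fcf1_an_h64 (cr sc eu n1 ex GloballyRegular)
open Pool.SQGF (RD)

noncomputable section

/-- ST1: the first time interval at the real frequencies. Proof: `x` from SOL (its `C₁`),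
`b k t = up p.N (av p t (x t)) k`; SYA, UPB (first, second, third clause), RDA, AOD and UPC
(`lam p k' = κ eu (Dk p k') ^ (2 α)`, `Dk p (k.1 / N, k.2) = k` if `N ∣ k.1`; for `N ∤ k.1`
everything vanishes). -/
def Stmt_ST1 : Prop :=
  ∀ α : ℝ, 0 < α → α < 1 / 2 → ∃ c₁ C₁ : ℝ, 0 < c₁ ∧ c₁ ≤ 1 / 2 ∧ 0 < C₁ ∧ ∀ p : Par, p.Ok →
    p.α = α → ∀ (T R : ℝ) (g : ℤ × ℤ → ℂ), 0 < T → 0 < R → T * p.As ≤ c₁ →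
    C₁ * R * T ≤ p.s / 2 → (∀ k, g (-k) = (starRingEnd ℂ) (g k)) → (∀ l, p.A l = g (0, l)) →
    (∀ k : ℤ × ℤ, k.1 ≠ 0 → ‖g k‖ ≤ R / 2 * (Real.exp (-(p.s * n1 k)) / (1 + n1 k) ^ 4)) →
    ∃ (b : ℤ × ℤ → ℝ → ℂ) (y : ℤ × ℤ → ℂ), Bd p (C₁ * R) T R y ∧
      (∀ k, b k 0 = up p.N g k) ∧ (∀ k, b k T = up p.N (av p T y) k) ∧
      (∀ q : ℕ, ∃ C : ℝ, ∀ (k : ℤ × ℤ), ∀ t ∈ Icc 0 T, ‖b k t‖ * (1 + n1 k) ^ q ≤ C) ∧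
      (∀ (k : ℤ × ℤ), ∀ t ∈ Icc 0 T, b (-k) t = (starRingEnd ℂ) (b k t)) ∧
      (∀ (k : ℤ × ℤ), ∀ t ∈ Icc 0 T, HasDerivWithinAt (b k)
        (-(((p.κ * eu k ^ (2 * p.α) : ℝ) : ℂ) * b k t) -
          ∑' j, ((sc j (k - j) : ℝ) : ℂ) * (b j t * b (k - j) t)) (Icc 0 T) t)

/-- MAIN: the theorem. Proof: `s = σ / 2`, `A l = g (0, l)`, `G₀ = c N ^ (2 α) / log N`,
`T = 20 log N / (κ N ^ (2 α))`, `R = 2 C_o G₀`, where `om s l |l| ≤ C_o exp (σ |l|)`,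
`(1 + n) ^ 7 exp (-σ n) ≤ C_o exp (-s n) / (1 + n) ^ 4` for all `n`. Symmetry of `g`:
`Pool.SQGF.Stmt_SYM` for `up N g` and UPB. Then `T A_* ≤ 20 C_o c / κ ≤ c₁`,
`C₁ R T = 40 C₁ C_o c / κ ≤ s / 2`; ST1. At the time `T`: by DEC (`k.1 = 0`)
`∑ (1 + |l|) ^ 7 ‖av (0, l)‖ ≤ (C_o + C' C_o) G₀ ≤ c_b N ^ (2 α)` (`log N ≥ 1 / 2`);
`E = R Ef T`, `Ef T = exp (-10 log N) = N ^ (-10)`, `R ≤ 4 C_o c N`, so by DEC (`q = 5`) and SML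
`C_s N ^ 16 E ^ 2 ≤ 16 C_s C_o ^ 2 c ^ 2 ≤ c_b`; STB (constant `c_b`), GLU,
`Pool.SQGF.Stmt_BRI` (datum: UPB, fourth clause). -/
def Stmt_MAIN : Prop :=
  ∀ κ α σ : ℝ, 0 < κ → 0 < α → α < 1 / 2 → 0 < σ → ∃ c : ℝ, 0 < c ∧
    ∀ (N : ℕ) (g : ℤ × ℤ → ℂ) (θ₀ : ℝ × ℝ → ℝ), 2 ≤ N →
    (Summable fun k => Real.exp (σ * n1 k) * ‖g k‖) →
    ∑' k, Real.exp (σ * n1 k) * ‖g k‖ ≤ c * (N : ℝ) ^ (2 * α) / Real.log N →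
    (∀ x, ((θ₀ x : ℝ) : ℂ) = ∑' k : ℤ × ℤ, g k * ex ((N : ℤ) * k.1, k.2) x) →
    GloballyRegular κ α θ₀

/-- NUM: elementary constants for MAIN. -/
def Stmt_NUM : Prop :=
  ∀ σ : ℝ, 0 < σ → ∃ C : ℝ, 1 ≤ C ∧
    (∀ l : ℤ, om (σ / 2) l * |(l : ℝ)| ≤ C * Real.exp (σ * |(l : ℝ)|)) ∧
    (∀ l : ℤ, (1 + |(l : ℝ)|) ^ 7 ≤ C * Real.exp (σ * |(l : ℝ)|)) ∧
    (∀ n : ℕ, Real.exp (-(σ * n)) ≤ C * (Real.exp (-(σ / 2 * n)) / (1 + n) ^ 4)) ∧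
    (Summable fun l : ℤ => (1 + |(l : ℝ)|) ^ 7 * Real.exp (-(σ / 4 * |(l : ℝ)|))) ∧
    ∑' l : ℤ, (1 + |(l : ℝ)|) ^ 7 * Real.exp (-(σ / 4 * |(l : ℝ)|)) ≤ C

end

end Pool.SQGA
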